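import Mathlib

/-! Orthogonality of monomials for radial weights on the disc, and Helmert vectors. -/

open MeasureTheory Set Filter Topology Metric
open scoped ComplexConjugate

namespace H28Ber

lemma rot (F : ℂ → ℂ) (a : Circle) :
    ∫ ζ in ball (0:ℂ) 1, F (a * ζ) = ∫ ζ in ball (0:ℂ) 1, F ζ := by
  have h := (rotation a).measurePreserving.setIntegral_preimage_emb
    (rotation a).toHomeomorph.measurableEmbedding F (ball (0:ℂ) 1)
  have e : rotation a ⁻¹' ball (0:ℂ) 1 = ball 0 1 := by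
    ext z; simp only [mem_preimage, mem_ball_zero_iff, LinearIsometryEquiv.norm_map]
  rw [e] at h
  simpa [rotation_apply] using h

lemma mono_int {u : ℝ → ℝ} (hu : IntegrableOn (fun ζ : ℂ => u ‖ζ‖) (ball 0 1)) (n m : ℕ) :
    IntegrableOn (fun ζ : ℂ => (u ‖ζ‖ : ℂ) * (ζ ^ n * conj ζ ^ m)) (ball 0 1) := by
  refine Integrable.mul_bdd (c := 1) hu.ofReal (Continuous.aestronglyMeasurable (by fun_prop)) ?_
  filter_upwards [ae_restrict_mem measurableSet_ball] with ζ hζ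
  have : ‖ζ‖ ≤ 1 := (mem_ball_zero_iff.1 hζ).le
  rw [norm_mul, norm_pow, norm_pow, Complex.norm_conj]
  exact mul_le_one₀ (pow_le_one₀ (norm_nonneg _) this) (by positivity)
    (pow_le_one₀ (norm_nonneg _) this)

lemma mono_orth (u : ℝ → ℝ) {n m : ℕ} (h : n ≠ m) :
    ∫ ζ in ball (0:ℂ) 1, (u ‖ζ‖ : ℂ) * (ζ ^ n * conj ζ ^ m) = 0 := by
  have hd : (n:ℝ) - m ≠ 0 := sub_ne_zero.2 (by exact_mod_cast h)
  set a := Circle.exp (Real.pi / (n - m)) with ha
  have h1 : (a:ℂ) ^ n * conj (a:ℂ) ^ m = -1 := by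
    rw [ha, Circle.coe_exp, ← Complex.exp_conj, ← Complex.exp_nat_mul, ← Complex.exp_nat_mul,
      ← Complex.exp_add, ← Complex.exp_pi_mul_I]
    congr 1
    have hd' : (n:ℂ) - m ≠ 0 := by exact_mod_cast hd
    simp only [map_mul, Complex.conj_ofReal, Complex.conj_I]
    push_cast; field_simp; ring
  have h2 := rot (fun ζ => (u ‖ζ‖ : ℂ) * (ζ ^ n * conj ζ ^ m)) a
  have h3 : ∀ ζ : ℂ, (u ‖(a:ℂ) * ζ‖ : ℂ) * (((a:ℂ) * ζ) ^ n * conj ((a:ℂ) * ζ) ^ m) =
      -((u ‖ζ‖ : ℂ) * (ζ ^ n * conj ζ ^ m)) := fun ζ => by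
    rw [norm_mul, Circle.norm_coe, one_mul, map_mul, mul_pow, mul_pow]
    linear_combination ((u ‖ζ‖ : ℂ) * (ζ ^ n * conj ζ ^ m)) * h1
  simp only [h3, integral_neg] at h2
  linear_combination (-1 / 2 : ℂ) * h2

lemma orth {u : ℝ → ℝ} (hu : IntegrableOn (fun ζ : ℂ => u ‖ζ‖) (ball 0 1)) (c : ℕ → ℂ) (N : ℕ) :
    ∫ ζ in ball (0:ℂ) 1, u ‖ζ‖ * ‖∑ n ∈ Finset.range N, c n * ζ ^ n‖ ^ 2 =
      ∑ n ∈ Finset.range N, ‖c n‖ ^ 2 * ∫ ζ in ball (0:ℂ) 1, u ‖ζ‖ * ‖ζ‖ ^ (2 * n) := by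
  apply Complex.ofReal_injective
  rw [← integral_complex_ofReal]
  have e : ∀ ζ : ℂ, ((u ‖ζ‖ * ‖∑ n ∈ Finset.range N, c n * ζ ^ n‖ ^ 2 : ℝ) : ℂ) =
      ∑ n ∈ Finset.range N, ∑ m ∈ Finset.range N,
        c n * conj (c m) * ((u ‖ζ‖ : ℂ) * (ζ ^ n * conj ζ ^ m)) := fun ζ => by
    push_cast
    rw [← Complex.mul_conj', map_sum, Finset.sum_mul_sum, Finset.mul_sum]
    refine Finset.sum_congr rfl fun n _ => ?_
    rw [Finset.mul_sum]
    refine Finset.sum_congr rfl fun m _ => ?_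
    simp only [map_mul, map_pow]; ring
  simp only [e]
  rw [integral_finsetSum _ fun n _ => integrable_finsetSum _ fun m _ =>
    (mono_int hu n m).const_mul _]
  push_cast
  refine Finset.sum_congr rfl fun n hn => ?_
  rw [integral_finsetSum _ fun m _ => (mono_int hu n m).const_mul _, Finset.sum_eq_single n]
  · rw [integral_const_mul, Complex.mul_conj', ← integral_complex_ofReal]
    congr 2; ext ζ
    rw [← mul_pow, Complex.mul_conj']; push_cast; ring
  · intro m _ hm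
    rw [integral_const_mul, mono_orth u hm.symm, mul_zero]
  · exact fun h => absurd hn h

lemma poly_int {u : ℝ → ℝ} (hu : IntegrableOn (fun ζ : ℂ => u ‖ζ‖) (ball 0 1)) {g : ℂ → ℝ}
    (hg : Continuous g) : IntegrableOn (fun ζ : ℂ => u ‖ζ‖ * g ζ) (ball 0 1) := by
  obtain ⟨C, hC⟩ := (isCompact_closedBall (0:ℂ) 1).exists_bound_of_continuousOn hg.continuousOn
  refine Integrable.mul_bdd (c := C) hu hg.aestronglyMeasurable ?_
  filter_upwards [ae_restrict_mem measurableSet_ball] with ζ hζ using hC ζ (ball_subset_closedBall hζ)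

lemma cont_int {E : Type*} [NormedAddCommGroup E] {g : ℂ → E} (hg : Continuous g) (ρ : ℝ) :
    IntegrableOn g (ball 0 ρ) :=
  (hg.continuousOn.integrableOn_compact (isCompact_closedBall 0 ρ)).mono_set ball_subset_closedBall

lemma rad {ρ : ℝ} (hρ : 0 ≤ ρ) (n : ℕ) :
    ∫ ζ in ball (0:ℂ) ρ, ‖ζ‖ ^ (2 * n) = Real.pi * ρ ^ (2 * n + 2) / (n + 1) := by
  have h := integral_fun_norm_addHaar (volume : Measure ℂ)
    ((Iio ρ).indicator fun r : ℝ => r ^ (2 * n))
  have e1 : (fun x : ℂ => (Iio ρ).indicator (fun r : ℝ => r ^ (2 * n)) ‖x‖) =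
      (ball (0:ℂ) ρ).indicator fun ζ => ‖ζ‖ ^ (2 * n) := by
    ext x; by_cases hx : ‖x‖ < ρ <;> simp [indicator, hx]
  have e2 : (fun y : ℝ => y ^ (Module.finrank ℝ ℂ - 1) •
      (Iio ρ).indicator (fun r : ℝ => r ^ (2 * n)) y) =
      (Iio ρ).indicator fun y => y ^ (2 * n + 1) := by
    ext y; by_cases hy : y < ρ <;> simp [indicator, hy, pow_succ, mul_comm]
  rw [e1, e2, integral_indicator measurableSet_ball, setIntegral_indicator measurableSet_Iio,
    Ioi_inter_Iio, ← integral_Ioc_eq_integral_Ioo, ← intervalIntegral.integral_of_le hρ,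
    integral_pow] at h
  rw [h]
  simp [Measure.real, Complex.volume_ball]
  field_simp
  ring

noncomputable def q (n : ℕ) (ζ : ℂ) : ℂ := ∑ k ∈ Finset.range (n + 1), (k + 1) * ζ ^ k

lemma q_mul (n : ℕ) (ζ : ℂ) :
    (1 - ζ) * q n ζ = ∑ j ∈ Finset.range (n + 1), ζ ^ j - (n + 1) * ζ ^ (n + 1) := by
  induction n with
  | zero => simp [q]
  | succ n ih =>
    rw [q, Finset.sum_range_succ, ← q, mul_add, ih, Finset.sum_range_succ _ (n + 1)]
    push_cast; ring

lemma helmert (b : ℕ → ℂ) (N : ℕ) : ∃ h : ℕ → ℂ, ∑ j ∈ Finset.range (N + 1), h j = 0 ∧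
    ∑ j ∈ Finset.range (N + 1), ‖h j‖ ^ 2 =
      ∑ n ∈ Finset.range N, ‖b n‖ ^ 2 * ((n + 1) * (n + 2)) ∧
    ∀ ζ : ℂ, ∑ j ∈ Finset.range (N + 1), h j * ζ ^ j =
      (1 - ζ) * ∑ n ∈ Finset.range N, b n * q n ζ := by
  induction N with
  | zero => exact ⟨0, by simp, by simp, by simp⟩
  | succ N ih =>
    obtain ⟨h, h1, h2, h3⟩ := ih
    have e : ∀ {α : Type} [AddCommMonoid α] (F : ℕ → ℂ → α),
        ∑ j ∈ Finset.range (N + 1 + 1), F j (if j < N + 1 then h j + b N else -(N + 1) * b N) =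
        ∑ j ∈ Finset.range (N + 1), F j (h j + b N) + F (N + 1) (-(N + 1) * b N) := fun F => by
      rw [Finset.sum_range_succ, if_neg (lt_irrefl _)]
      congr 1
      exact Finset.sum_congr rfl fun j hj => by rw [if_pos (Finset.mem_range.1 hj)]
    refine ⟨fun j => if j < N + 1 then h j + b N else -(N + 1) * b N, ?_, ?_, fun ζ => ?_⟩
    · rw [e (fun _ x => x), Finset.sum_add_distrib, h1]; simp; ring
    · rw [e (fun _ x => ‖x‖ ^ 2),
        Finset.sum_range_succ (fun n : ℕ => ‖b n‖ ^ 2 * (((n:ℝ) + 1) * (n + 2))) N, ← h2]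
      have : ∀ j, ‖h j + b N‖ ^ 2 = ‖h j‖ ^ 2 + ‖b N‖ ^ 2 + 2 * (h j * conj (b N)).re :=
        fun j => by
          rw [← Complex.normSq_eq_norm_sq, ← Complex.normSq_eq_norm_sq,
            ← Complex.normSq_eq_norm_sq, Complex.normSq_add]
      simp only [this, Finset.sum_add_distrib, ← Finset.mul_sum, ← Complex.re_sum,
        ← Finset.sum_mul, h1]
      have n1 : ‖-((N:ℂ) + 1) * b N‖ = (N + 1) * ‖b N‖ := by
        rw [norm_mul, norm_neg]; congr 1; exact_mod_cast Complex.norm_natCast (N + 1)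
      rw [n1]; simp; ring
    · rw [e (fun j x => x * ζ ^ j), Finset.sum_range_succ (fun n => b n * q n ζ) N, mul_add, ← h3,
        mul_left_comm,
        q_mul]
      simp only [add_mul, Finset.sum_add_distrib, ← Finset.mul_sum]
      ring

lemma abel (c : ℕ → ℂ) (z : ℂ) (N : ℕ) :
    (1 - z) * ∑ n ∈ Finset.range N, (∑ k ∈ Finset.range (n + 1), c k) * z ^ n =
      ∑ n ∈ Finset.range N, c n * z ^ n - (∑ k ∈ Finset.range N, c k) * z ^ N := by
  induction N with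
  | zero => simp
  | succ N ih =>
    rw [Finset.sum_range_succ, mul_add, ih, Finset.sum_range_succ (fun n => c n * z ^ n),
      Finset.sum_range_succ c N]
    ring

lemma geo (y ζ : ℂ) (N : ℕ) : (1 - ζ) * ∑ n ∈ Finset.range (N + 1), (y * ζ) ^ n =
    ∑ j ∈ Finset.range (N + 2),
      (if j = 0 then 1 else if j ≤ N then y ^ (j - 1) * (y - 1) else -y ^ N) * ζ ^ j := by
  have : ∀ M, ∑ j ∈ Finset.range M, (y ^ j * (y - 1)) * ζ ^ (j + 1) =
      (1 - ζ) * ∑ n ∈ Finset.range (M + 1), (y * ζ) ^ n - 1 + y ^ M * ζ ^ (M + 1) := fun M => by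
    induction M with
    | zero => simp
    | succ M ih =>
      rw [Finset.sum_range_succ, ih, Finset.sum_range_succ _ (M + 1)]; ring
  symm
  rw [Finset.sum_range_succ _ (N + 1), Finset.sum_range_succ' _ N]
  rw [Finset.sum_congr rfl (g := fun j => (y ^ j * (y - 1)) * ζ ^ (j + 1)) fun j hj => by
    rw [if_neg (Nat.succ_ne_zero j), if_pos (Nat.succ_le_of_lt (Finset.mem_range.1 hj)),
      Nat.add_sub_cancel], this]
  simp; ring

end H28Ber
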