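import Mathlib
import Pool.Agent.Lib.helper28.BerA

/-! The two weights and the boundedness of the Bergman projection between them. -/

open MeasureTheory Set Filter Topology Metric
open scoped ComplexConjugate

namespace H28Ber

noncomputable def V (N : ℕ → ℕ) (r : ℝ) : ℝ := 1 + ∑' k, (N k + 1) / 2 ^ k * r ^ (2 * N k)
noncomputable def sg (N : ℕ → ℕ) (z : ℂ) : ℝ := ‖1 - z‖ ^ 2 * V N ‖z‖
noncomputable def w (z : ℂ) : ℝ := (1 - ‖z‖ ^ 2) / ‖1 - z‖ ^ 2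

lemma term_le {ρ r : ℝ} (hρ : ρ < 1) (hr : |r| ≤ ρ) (n k : ℕ) :
    ‖((n:ℝ) + 1) / 2 ^ k * r ^ (2 * n)‖ ≤ 1 / (1 - ρ) ^ 2 * (1 / 2) ^ k := by
  have h0 : 0 ≤ ρ := (abs_nonneg r).trans hr
  have h1 := le_hasSum (hasSum_choose_mul_geometric_of_norm_lt_one 1 (r := ρ)
    (by rwa [Real.norm_of_nonneg h0])) n (fun j _ => by positivity)
  simp only [Nat.choose_one_right, Nat.cast_add, Nat.cast_one] at h1
  have h2 : |r| ^ (2 * n) ≤ ρ ^ n := (pow_le_pow_left₀ (abs_nonneg r) hr _).trans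
    (pow_le_pow_of_le_one h0 hρ.le (by omega))
  rw [norm_mul, norm_pow, Real.norm_of_nonneg (by positivity), Real.norm_eq_abs]
  calc ((n:ℝ) + 1) / 2 ^ k * |r| ^ (2 * n) ≤ (n + 1) / 2 ^ k * ρ ^ n := by gcongr
    _ = (n + 1) * ρ ^ n * (1 / 2) ^ k := by rw [one_div_pow]; ring
    _ ≤ _ := by gcongr

lemma V_sum (N : ℕ → ℕ) {r : ℝ} (hr : |r| < 1) :
    Summable fun k => ((N k : ℝ) + 1) / 2 ^ k * r ^ (2 * N k) :=
  Summable.of_norm_bounded (summable_geometric_two.mul_left _) fun k => term_le hr le_rfl _ k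

lemma V_ge (N : ℕ → ℕ) (r : ℝ) : 1 ≤ V N r :=
  le_add_of_nonneg_right (tsum_nonneg fun k => mul_nonneg (by positivity)
    (by rw [pow_mul]; positivity))

lemma V_cont (N : ℕ → ℕ) {r : ℝ} (hr : |r| < 1) : ContinuousAt (V N) r := by
  obtain ⟨ρ, h1, h2⟩ := exists_between hr
  have : ContinuousOn (fun r : ℝ => ∑' k, ((N k : ℝ) + 1) / 2 ^ k * r ^ (2 * N k)) (Icc (-ρ) ρ) :=
    continuousOn_tsum (fun k => by fun_prop) (summable_geometric_two.mul_left _)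
      fun k x hx => term_le h2 (abs_le.2 hx) _ k
  exact continuousAt_const.add (this.continuousAt
    (Icc_mem_nhds (abs_lt.1 h1).1 (abs_lt.1 h1).2))

lemma Vn_cont (N : ℕ → ℕ) : ContinuousOn (fun z : ℂ => V N ‖z‖) (ball 0 1) := fun z hz =>
  ((V_cont N (by simpa using hz)).comp continuous_norm.continuousAt).continuousWithinAt

lemma sg_cont (N : ℕ → ℕ) : ContinuousOn (sg N) (ball 0 1) :=
  ContinuousOn.mul (by fun_prop) (Vn_cont N)

lemma ne_one {z : ℂ} (hz : z ∈ ball (0:ℂ) 1) : 1 - z ≠ 0 := by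
  intro h; rw [← sub_eq_zero.1 h] at hz; simp at hz

lemma w_cont : ContinuousOn w (ball 0 1) :=
  ContinuousOn.div (by fun_prop) (by fun_prop) fun z hz => by simp [ne_one hz]

lemma sg_pos (N : ℕ → ℕ) {z : ℂ} (hz : z ∈ ball (0:ℂ) 1) : 0 < sg N z :=
  mul_pos (by simp [ne_one hz]) (by linarith [V_ge N ‖z‖])

lemma w_pos {z : ℂ} (hz : z ∈ ball (0:ℂ) 1) : 0 < w z := by
  have := mem_ball_zero_iff.1 hz
  exact div_pos (by nlinarith [norm_nonneg z]) (by simp [ne_one hz])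

lemma V_int (N : ℕ → ℕ) {ρ : ℝ} (h0 : 0 ≤ ρ) (hρ : ρ < 1) :
    IntegrableOn (fun z : ℂ => V N ‖z‖) (ball 0 ρ) ∧ ∫ z in ball (0:ℂ) ρ, V N ‖z‖ ≤ 10 := by
  have hi : IntegrableOn (fun z : ℂ => V N ‖z‖) (ball 0 ρ) :=
    (((Vn_cont N).mono (closedBall_subset_ball hρ)).integrableOn_compact
      (isCompact_closedBall 0 ρ)).mono_set ball_subset_closedBall
  refine ⟨hi, ?_⟩
  have hp : ∀ n, ρ ^ n ≤ 1 := fun n => pow_le_one₀ h0 hρ.le
  have hF : ∀ k, IntegrableOn (fun z : ℂ => ((N k : ℝ) + 1) / 2 ^ k * ‖z‖ ^ (2 * N k))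
      (ball 0 ρ) := fun k => cont_int (by fun_prop) ρ
  have hb : ∀ k, ∫ z in ball (0:ℂ) ρ, ((N k : ℝ) + 1) / 2 ^ k * ‖z‖ ^ (2 * N k) ≤
      Real.pi * (1 / 2) ^ k := fun k => by
    rw [integral_const_mul, rad h0, one_div_pow]
    have : ((N k : ℝ) + 1) / 2 ^ k * (Real.pi * ρ ^ (2 * N k + 2) / (N k + 1)) =
      Real.pi * (1 / 2 ^ k) * ρ ^ (2 * N k + 2) := by field_simp
    rw [this]
    exact mul_le_of_le_one_right (by positivity) (hp _)
  have hs := hasSum_integral_of_summable_integral_norm hF (Summable.of_nonneg_of_le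
    (fun k => integral_nonneg fun z => norm_nonneg _) (fun k => by
      refine le_trans (le_of_eq ?_) (hb k)
      exact integral_congr_ae (Eventually.of_forall fun z => Real.norm_of_nonneg (by positivity)))
    (summable_geometric_two.mul_left _))
  have h1 := hasSum_le hb hs (hasSum_geometric_two.mul_left _)
  have h2 : IntegrableOn (fun _ : ℂ => (1:ℝ)) (ball 0 ρ) := cont_int continuous_const ρ
  have h3 := rad h0 0
  simp only [mul_zero, pow_zero, zero_add, Nat.cast_zero, div_one] at h3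
  have h4 : ∫ z in ball (0:ℂ) ρ, V N ‖z‖ = (∫ _z in ball (0:ℂ) ρ, (1:ℝ)) +
      ∫ z in ball (0:ℂ) ρ, ∑' k, ((N k : ℝ) + 1) / 2 ^ k * ‖z‖ ^ (2 * N k) := by
    rw [← integral_add h2 ((hi.sub h2).congr (Eventually.of_forall fun z => by simp [V]))]
    rfl
  rw [h4, h3]
  nlinarith [Real.pi_lt_d2, Real.pi_pos, hp 2]

lemma cut_eq (N : ℕ → ℕ) (ρ : ℝ) : (fun z : ℂ => (Iio ρ).indicator (V N) ‖z‖) =
    (ball (0:ℂ) ρ).indicator fun z => V N ‖z‖ := by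
  ext x; by_cases hx : ‖x‖ < ρ <;> simp [indicator, hx]

lemma cut_int (N : ℕ → ℕ) {ρ : ℝ} (h0 : 0 ≤ ρ) (hρ : ρ < 1) :
    IntegrableOn (fun z : ℂ => (Iio ρ).indicator (V N) ‖z‖) (ball 0 1) ∧
      ∫ z in ball (0:ℂ) 1, (Iio ρ).indicator (V N) ‖z‖ ≤ 10 := by
  rw [cut_eq]
  refine ⟨((integrable_indicator_iff measurableSet_ball).2 (V_int N h0 hρ).1).integrableOn, ?_⟩
  rw [setIntegral_indicator measurableSet_ball, inter_eq_right.2 (ball_subset_ball hρ.le)]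
  exact (V_int N h0 hρ).2

lemma bessel {u : ℝ → ℝ} (hu : IntegrableOn (fun ζ : ℂ => u ‖ζ‖) (ball 0 1)) (hu0 : ∀ r, 0 ≤ u r)
    (hu1 : ∫ ζ in ball (0:ℂ) 1, u ‖ζ‖ ≤ 10) {f : ℂ → ℂ} (hf : Measurable f) {M : ℝ}
    (hM : ∀ z, ‖f z‖ ≤ M) (K : ℕ) :
    ∑ n ∈ Finset.range K, ‖∫ ζ in ball (0:ℂ) 1,
        f ζ * ((‖1 - ζ‖ ^ 2 * u ‖ζ‖ : ℝ) : ℂ) * conj (q n ζ)‖ ^ 2 / ((n + 1) * (n + 2))
      ≤ 10 * ∫ ζ in ball (0:ℂ) 1, ‖f ζ‖ ^ 2 * (‖1 - ζ‖ ^ 2 * u ‖ζ‖) := by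
  set a : ℕ → ℂ := fun n => ∫ ζ in ball (0:ℂ) 1,
        f ζ * ((‖1 - ζ‖ ^ 2 * u ‖ζ‖ : ℝ) : ℂ) * conj (q n ζ) with ha
  set T := ∑ n ∈ Finset.range K, ‖a n‖ ^ 2 / ((n + 1) * (n + 2)) with hT
  set b : ℕ → ℂ := fun n => a n / ((((n:ℝ) + 1) * (n + 2) : ℝ) : ℂ) with hb
  obtain ⟨h, -, h2, h3⟩ := helmert b K
  have hT2 : ∑ j ∈ Finset.range (K + 1), ‖h j‖ ^ 2 = T := by
    rw [h2]; refine Finset.sum_congr rfl fun n _ => ?_
    simp only [hb]; rw [norm_div, Complex.norm_real, Real.norm_of_nonneg (by positivity)]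
    field_simp
  have hq : ∀ n, Continuous (q n) := fun n => by unfold q; fun_prop
  have hi : ∀ {g : ℂ → ℂ}, Continuous g → IntegrableOn
      (fun ζ => f ζ * ((‖1 - ζ‖ ^ 2 * u ‖ζ‖ : ℝ) : ℂ) * g ζ) (ball 0 1) := fun {g} hg => by
    refine Integrable.mono' ((poly_int hu (g := fun ζ => ‖1 - ζ‖ ^ 2 * ‖g ζ‖)
      (by fun_prop)).const_mul M) ((hf.aestronglyMeasurable.mul
        (Complex.continuous_ofReal.comp_aestronglyMeasurable
          ((Continuous.aestronglyMeasurable (by fun_prop)).mul hu.1))).mul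
      hg.aestronglyMeasurable) (Eventually.of_forall fun ζ => ?_)
    rw [norm_mul, norm_mul, Complex.norm_real, Real.norm_of_nonneg
      (mul_nonneg (by positivity) (hu0 _))]
    have : 0 ≤ ‖1 - ζ‖ ^ 2 * u ‖ζ‖ * ‖g ζ‖ := mul_nonneg (mul_nonneg (by positivity) (hu0 _))
      (norm_nonneg _)
    nlinarith [hM ζ]
  have e1 : (T : ℂ) = ∫ ζ in ball (0:ℂ) 1, f ζ * ((‖1 - ζ‖ ^ 2 * u ‖ζ‖ : ℝ) : ℂ) *
      conj (∑ n ∈ Finset.range K, b n * q n ζ) := by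
    simp only [map_sum, map_mul, Finset.mul_sum]
    rw [integral_finsetSum _ fun n _ => hi (by have := hq n; fun_prop), hT, Complex.ofReal_sum]
    refine Finset.sum_congr rfl fun n _ => ?_
    have : ∀ ζ, f ζ * ((‖1 - ζ‖ ^ 2 * u ‖ζ‖ : ℝ) : ℂ) * (conj (b n) * conj (q n ζ)) =
      conj (b n) * (f ζ * ((‖1 - ζ‖ ^ 2 * u ‖ζ‖ : ℝ) : ℂ) * conj (q n ζ)) := fun ζ => by ring
    simp only [this]
    rw [integral_const_mul]
    show _ = conj (b n) * a n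
    simp only [hb, map_div₀, Complex.conj_ofReal]
    rw [div_mul_eq_mul_div, Complex.conj_mul']; push_cast; rfl
  have i1 : IntegrableOn (fun ζ => ‖f ζ‖ ^ 2 * (‖1 - ζ‖ ^ 2 * u ‖ζ‖)) (ball 0 1) :=
    Integrable.bdd_mul (c := M ^ 2) ((poly_int hu (g := fun ζ => ‖1 - ζ‖ ^ 2)
      (by fun_prop)).congr (Eventually.of_forall fun ζ => mul_comm _ _))
      (hf.norm.pow_const 2).aestronglyMeasurable (Eventually.of_forall fun ζ => by
        rw [norm_pow, norm_norm]; exact pow_le_pow_left₀ (norm_nonneg _) (hM ζ) 2)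
  have i2 := poly_int hu (g := fun ζ => ‖∑ j ∈ Finset.range (K + 1), h j * ζ ^ j‖ ^ 2)
    (by fun_prop)
  have e2 : ∫ ζ in ball (0:ℂ) 1, u ‖ζ‖ * ‖∑ j ∈ Finset.range (K + 1), h j * ζ ^ j‖ ^ 2
      ≤ T * 10 := by
    rw [orth hu, ← hT2, Finset.sum_mul]
    refine Finset.sum_le_sum fun n _ => mul_le_mul_of_nonneg_left (le_trans ?_ hu1) (by positivity)
    refine setIntegral_mono_on (poly_int hu (by fun_prop)) hu measurableSet_ball fun ζ hζ => ?_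
    exact mul_le_of_le_one_right (hu0 _)
      (pow_le_one₀ (norm_nonneg _) (mem_ball_zero_iff.1 hζ).le)
  have e3 : T ≤ ∫ ζ in ball (0:ℂ) 1, (5 * (‖f ζ‖ ^ 2 * (‖1 - ζ‖ ^ 2 * u ‖ζ‖)) +
      1 / 20 * (u ‖ζ‖ * ‖∑ j ∈ Finset.range (K + 1), h j * ζ ^ j‖ ^ 2)) := by
    refine (le_abs_self T).trans ?_
    rw [← Real.norm_eq_abs, ← Complex.norm_real, e1]
    refine norm_integral_le_of_norm_le ((i1.const_mul _).add (i2.const_mul _))
      (Eventually.of_forall fun ζ => ?_)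
    rw [h3, norm_mul, norm_mul, norm_mul, Complex.norm_real, Complex.norm_conj,
      Real.norm_of_nonneg (mul_nonneg (by positivity) (hu0 _))]
    have := mul_nonneg (mul_nonneg (sq_nonneg ‖1 - ζ‖) (hu0 ‖ζ‖))
      (sq_nonneg (10 * ‖f ζ‖ - ‖∑ n ∈ Finset.range K, b n * q n ζ‖))
    nlinarith
  rw [integral_add (i1.const_mul _) (i2.const_mul _), integral_const_mul, integral_const_mul] at e3
  linarith

lemma series {φ : ℂ → ℂ} (hφ : IntegrableOn φ (ball 0 1)) {z : ℂ} (hz : z ∈ ball (0:ℂ) 1) :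
    Tendsto (fun K => ∑ n ∈ Finset.range K, (∫ ζ in ball (0:ℂ) 1, φ ζ * conj (q n ζ)) * z ^ n)
      atTop (𝓝 ((∫ ζ in ball (0:ℂ) 1, φ ζ / (1 - z * conj ζ) ^ 2) / (1 - z))) := by
  have hz1 := mem_ball_zero_iff.1 hz
  set c : ℕ → ℂ := fun k => ∫ ζ in ball (0:ℂ) 1, φ ζ * ((k + 1) * conj ζ ^ k) with hc
  set L := ∫ ζ in ball (0:ℂ) 1, ‖φ ζ‖ with hL
  have hb : ∀ k : ℕ, ∀ᵐ ζ ∂(volume.restrict (ball (0:ℂ) 1)), ‖((k:ℂ) + 1) * conj ζ ^ k‖ ≤ k + 1 :=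
    fun k => by
      filter_upwards [ae_restrict_mem measurableSet_ball] with ζ hζ
      rw [norm_mul, norm_pow, Complex.norm_conj, show ‖(k:ℂ) + 1‖ = k + 1 by
        exact_mod_cast Complex.norm_natCast (k + 1)]
      exact mul_le_of_le_one_right (by positivity)
        (pow_le_one₀ (norm_nonneg _) (mem_ball_zero_iff.1 hζ).le)
  have hi : ∀ k : ℕ, IntegrableOn (fun ζ => φ ζ * ((k + 1) * conj ζ ^ k)) (ball 0 1) := fun k =>
    Integrable.mul_bdd hφ (Continuous.aestronglyMeasurable (by fun_prop)) (hb k)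
  have hn : ∀ k : ℕ, ∫ ζ in ball (0:ℂ) 1, ‖φ ζ * ((k + 1) * conj ζ ^ k)‖ ≤ L * (k + 1) :=
    fun k => by
      rw [hL, ← integral_mul_const]
      refine integral_mono_ae (hi k).norm (hφ.norm.mul_const _) ?_
      filter_upwards [hb k] with ζ hζ
      rw [norm_mul]; exact mul_le_mul_of_nonneg_left hζ (norm_nonneg _)
  have hs := hasSum_integral_of_summable_integral_norm (fun k => (hi k).mul_const (z ^ k))
    (Summable.of_nonneg_of_le (fun k => integral_nonneg fun _ => norm_nonneg _) (fun k => by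
      simp only [norm_mul _ (z ^ k), norm_pow]
      rw [integral_mul_const]
      refine (mul_le_mul_of_nonneg_right (hn k) (by positivity)).trans (le_of_eq ?_)
      simp [mul_assoc])
    ((hasSum_choose_mul_geometric_of_norm_lt_one 1 (r := ‖z‖) (by simpa)).summable.mul_left L))
  have e : ∫ ζ in ball (0:ℂ) 1, ∑' k : ℕ, φ ζ * ((k + 1) * conj ζ ^ k) * z ^ k =
      ∫ ζ in ball (0:ℂ) 1, φ ζ / (1 - z * conj ζ) ^ 2 := by
    refine setIntegral_congr_fun measurableSet_ball fun ζ hζ => ?_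
    have h1 := (hasSum_choose_mul_geometric_of_norm_lt_one 1 (r := z * conj ζ) (by
      rw [norm_mul, Complex.norm_conj]
      exact mul_lt_one_of_nonneg_of_lt_one_left (norm_nonneg _) hz1
        (mem_ball_zero_iff.1 hζ).le)).mul_left (φ ζ)
    rw [mul_one_div] at h1
    refine Eq.trans (tsum_congr fun k => ?_) h1.tsum_eq
    simp only [Nat.choose_one_right, mul_pow]; push_cast; ring
  rw [e] at hs
  simp only [integral_mul_const] at hs
  have e2 : ∀ n, ∫ ζ in ball (0:ℂ) 1, φ ζ * conj (q n ζ) = ∑ k ∈ Finset.range (n + 1), c k :=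
    fun n => by
      rw [hc, ← integral_finsetSum _ fun k _ => hi k]
      simp [q, Finset.mul_sum]
  have h0 : Tendsto (fun K => (∑ k ∈ Finset.range K, c k) * z ^ K) atTop (𝓝 0) := by
    have := (tendsto_pow_const_mul_const_pow_of_abs_lt_one 2 (r := ‖z‖) (by simpa)).const_mul L
    rw [mul_zero] at this
    refine squeeze_zero_norm (fun K => ?_) this
    rw [norm_mul, norm_pow, ← mul_assoc]
    refine mul_le_mul_of_nonneg_right ((norm_sum_le _ _).trans ?_) (by positivity)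
    have hL0 : 0 ≤ L := integral_nonneg fun _ => norm_nonneg _
    refine (Finset.sum_le_card_nsmul _ _ (L * K) fun k hk => ?_).trans (by simp; nlinarith)
    refine ((norm_integral_le_integral_norm _).trans (hn k)).trans
      (mul_le_mul_of_nonneg_left ?_ hL0)
    exact_mod_cast Finset.mem_range.1 hk
  have h5 := (hs.tendsto_sum_nat.sub h0).div_const (1 - z)
  rw [sub_zero] at h5
  refine h5.congr fun K => ?_
  simp only [e2]
  rw [div_eq_iff (ne_one hz), mul_comm _ (1 - z), abel]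

lemma bdd (N : ℕ → ℕ) (f : ℂ → ℂ) (hf : Measurable f) (hM : ∃ M : ℝ, ∀ z, ‖f z‖ ≤ M)
    (hs : ∃ s : ℝ, s < 1 ∧ ∀ z : ℂ, s < ‖z‖ → f z = 0) :
    ∫⁻ z in ball (0:ℂ) 1, ‖∫ ζ in ball (0:ℂ) 1,
        f ζ * (sg N ζ : ℂ) / (1 - z * conj ζ) ^ 2‖ₑ ^ 2 * ENNReal.ofReal (w z)
      ≤ ((40 : NNReal) : ENNReal) *
        ∫⁻ ζ in ball (0:ℂ) 1, ‖f ζ‖ₑ ^ 2 * ENNReal.ofReal (sg N ζ) := by
  obtain ⟨M, hM⟩ := hM
  obtain ⟨s, hs1, hs⟩ := hs
  obtain ⟨ρ, h1, h2⟩ := exists_between (max_lt hs1 one_pos)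
  obtain ⟨hu, hu1⟩ := cut_int N ((le_max_right _ _).trans h1.le) h2
  set u := (Iio ρ).indicator (V N) with hudef
  have hu0 : ∀ r, 0 ≤ u r := fun r => indicator_nonneg (fun r _ => by linarith [V_ge N r]) r
  have e : ∀ ζ, f ζ = 0 ∨ sg N ζ = ‖1 - ζ‖ ^ 2 * u ‖ζ‖ := fun ζ => by
    by_cases h : s < ‖ζ‖
    · exact Or.inl (hs ζ h)
    · right
      rw [sg, hudef, indicator_of_mem (show ‖ζ‖ ∈ Iio ρ from
        lt_of_le_of_lt ((not_lt.1 h).trans (le_max_left _ _)) h1)]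
  have e1 : ∀ ζ, f ζ * (sg N ζ : ℂ) = f ζ * ((‖1 - ζ‖ ^ 2 * u ‖ζ‖ : ℝ) : ℂ) := fun ζ => by
    rcases e ζ with h | h <;> simp only [h, zero_mul]
  have iσ : IntegrableOn (fun ζ : ℂ => ‖1 - ζ‖ ^ 2 * u ‖ζ‖) (ball 0 1) :=
    (poly_int hu (g := fun ζ => ‖1 - ζ‖ ^ 2) (by fun_prop)).congr
      (Eventually.of_forall fun ζ => mul_comm _ _)
  have hφ : IntegrableOn (fun ζ => f ζ * ((‖1 - ζ‖ ^ 2 * u ‖ζ‖ : ℝ) : ℂ)) (ball 0 1) :=
    Integrable.bdd_mul iσ.ofReal hf.aestronglyMeasurable (Eventually.of_forall hM)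
  have i1 : IntegrableOn (fun ζ => ‖f ζ‖ ^ 2 * (‖1 - ζ‖ ^ 2 * u ‖ζ‖)) (ball 0 1) :=
    Integrable.bdd_mul (c := M ^ 2) iσ
      (hf.norm.pow_const 2).aestronglyMeasurable (Eventually.of_forall fun ζ => by
        rw [norm_pow, norm_norm]; exact pow_le_pow_left₀ (norm_nonneg _) (hM ζ) 2)
  set R := ∫ ζ in ball (0:ℂ) 1, ‖f ζ‖ ^ 2 * (‖1 - ζ‖ ^ 2 * u ‖ζ‖) with hR
  have hn : ∀ ζ, 0 ≤ ‖f ζ‖ ^ 2 * (‖1 - ζ‖ ^ 2 * u ‖ζ‖) := fun ζ =>
    mul_nonneg (by positivity) (mul_nonneg (by positivity) (hu0 _))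
  have hR0 : 0 ≤ R := integral_nonneg hn
  have e2 : ∫⁻ ζ in ball (0:ℂ) 1, ‖f ζ‖ₑ ^ 2 * ENNReal.ofReal (sg N ζ) = ENNReal.ofReal R := by
    rw [hR, ofReal_integral_eq_lintegral_ofReal i1 (Eventually.of_forall hn)]
    refine lintegral_congr fun ζ => ?_
    rw [ENNReal.ofReal_mul (by positivity), ENNReal.ofReal_pow (norm_nonneg _), ofReal_norm]
    rcases e ζ with h | h <;> simp [h]
  set a : ℕ → ℂ := fun n => ∫ ζ in ball (0:ℂ) 1,
        f ζ * ((‖1 - ζ‖ ^ 2 * u ‖ζ‖ : ℝ) : ℂ) * conj (q n ζ) with ha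
  set g : ℕ → ℂ → ENNReal := fun K z => ENNReal.ofReal
    ((1 - ‖z‖ ^ 2) * ‖∑ n ∈ Finset.range K, a n * z ^ n‖ ^ 2) with hg
  have i2 : IntegrableOn (fun z : ℂ => 1 - ‖z‖ ^ 2) (ball 0 1) := cont_int (by fun_prop) 1
  have hgK : ∀ K, ∫⁻ z in ball (0:ℂ) 1, g K z ≤ ENNReal.ofReal (40 * R) := fun K => by
    simp only [hg]
    rw [← ofReal_integral_eq_lintegral_ofReal (cont_int (by fun_prop) 1)]
    · refine ENNReal.ofReal_le_ofReal ?_
      rw [orth (u := fun r => 1 - r ^ 2) i2]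
      have h3 := bessel hu hu0 hu1 hf hM K
      have h4 : ∀ n : ℕ, ∫ ζ in ball (0:ℂ) 1, (1 - ‖ζ‖ ^ 2) * ‖ζ‖ ^ (2 * n) =
          Real.pi / ((n + 1) * (n + 2)) := fun n => by
        have : ∀ ζ : ℂ, (1 - ‖ζ‖ ^ 2) * ‖ζ‖ ^ (2 * n) = ‖ζ‖ ^ (2 * n) - ‖ζ‖ ^ (2 * (n + 1)) :=
          fun ζ => by ring
        simp only [this]
        rw [integral_sub (cont_int (by fun_prop) 1) (cont_int (by fun_prop) 1), rad zero_le_one,
          rad zero_le_one]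
        push_cast; field_simp; ring
      simp only [h4]
      have h5 : ∑ n ∈ Finset.range K, ‖a n‖ ^ 2 * (Real.pi / ((n + 1) * (n + 2))) =
          Real.pi * ∑ n ∈ Finset.range K, ‖a n‖ ^ 2 / ((n + 1) * (n + 2)) := by
        rw [Finset.mul_sum]; exact Finset.sum_congr rfl fun n _ => by ring
      rw [h5]
      nlinarith [mul_le_mul_of_nonneg_left h3 Real.pi_pos.le, Real.pi_lt_four]
    · filter_upwards [ae_restrict_mem measurableSet_ball] with z hz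
      have := mem_ball_zero_iff.1 hz
      exact mul_nonneg (by nlinarith [norm_nonneg z]) (by positivity)
  rw [e2, ← ENNReal.ofReal_coe_nnreal, ← ENNReal.ofReal_mul (by positivity)]
  refine le_trans (le_of_eq ?_) ((lintegral_liminf_le (f := g) (u := atTop) fun K =>
    Measurable.ennreal_ofReal (by fun_prop)).trans
      (liminf_le_of_frequently_le' (Frequently.of_forall hgK)))
  refine setLIntegral_congr_fun measurableSet_ball fun z hz => ?_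
  have h6 := ENNReal.tendsto_ofReal ((((series hφ hz).norm).pow 2).const_mul (1 - ‖z‖ ^ 2))
  rw [h6.liminf_eq]
  simp only [e1]
  rw [← ofReal_norm, ← ENNReal.ofReal_pow (norm_nonneg _), ← ENNReal.ofReal_mul (by positivity),
    norm_div, w]
  congr 1; ring

end H28Ber
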