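import Mathlib
import Pool.Agent.Lib.helper28.BerB

/-! Subharmonicity of the weights and unboundedness of the maximal Bergman projection. -/

open MeasureTheory Set Filter Topology Metric
open scoped ComplexConjugate

namespace H28Ber

lemma mean {F : ℂ → ℂ} {z : ℂ} {r : ℝ} (hr : 0 < r) (hF : DifferentiableOn ℂ F (closedBall z r)) :
    (F z).re = (2 * Real.pi)⁻¹ *
      ∫ θ in (0:ℝ)..2 * Real.pi, (F (z + (r:ℂ) * Complex.exp ((θ:ℂ) * Complex.I))).re := by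
  have h1 : DiffContOnCl ℂ F (ball z |r|) := by
    rw [abs_of_pos hr]
    exact DifferentiableOn.diffContOnCl (by rwa [closure_ball z hr.ne'])
  have h2 := h1.circleAverage
  have hc : Continuous fun θ : ℝ => F (circleMap z r θ) :=
    hF.continuousOn.comp_continuous (continuous_circleMap z r) fun θ =>
      sphere_subset_closedBall (circleMap_mem_sphere z hr.le θ)
  rw [← h2, Real.circleAverage, Complex.smul_re, smul_eq_mul]
  congr 1
  exact (Complex.reCLM.intervalIntegral_comp_comm (hc.intervalIntegrable _ _)).symm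

lemma mem_c (z : ℂ) {r : ℝ} (hr : 0 < r) (θ : ℝ) :
    z + (r:ℂ) * Complex.exp ((θ:ℂ) * Complex.I) ∈ closedBall z r :=
  sphere_subset_closedBall (circleMap_mem_sphere z hr.le θ)

lemma w_sub (z : ℂ) (r : ℝ) (hr : 0 < r) (h : closedBall z r ⊆ ball (0:ℂ) 1) :
    w z ≤ (2 * Real.pi)⁻¹ *
      ∫ θ in (0:ℝ)..2 * Real.pi, w (z + (r:ℂ) * Complex.exp ((θ:ℂ) * Complex.I)) := by
  have e : ∀ x : ℂ, w x = ((1 + x) / (1 - x)).re := fun x => by
    rw [w, Complex.div_re, ← Complex.normSq_eq_norm_sq, ← Complex.normSq_eq_norm_sq (1 - x),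
      Complex.normSq_apply x]
    simp; ring
  simp only [e]
  exact (mean (F := fun x => (1 + x) / (1 - x)) hr (DifferentiableOn.div (by fun_prop)
    (by fun_prop) fun x hx => ne_one (h hx))).le

lemma sq_sub {F : ℂ → ℂ} (hF : Differentiable ℂ F) (z : ℂ) {r : ℝ} (hr : 0 < r) :
    ‖F z‖ ^ 2 ≤ (2 * Real.pi)⁻¹ *
      ∫ θ in (0:ℝ)..2 * Real.pi, ‖F (z + (r:ℂ) * Complex.exp ((θ:ℂ) * Complex.I))‖ ^ 2 := by
  have h := mean (F := fun x => 2 * (F x * conj (F z)) - F z * conj (F z)) (z := z) hr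
    (by fun_prop)
  have e : (2 * (F z * conj (F z)) - F z * conj (F z)).re = ‖F z‖ ^ 2 := by
    rw [Complex.mul_conj', ← Complex.ofReal_pow]; simp only [Complex.sub_re, Complex.mul_re,
      Complex.ofReal_re, Complex.ofReal_im, Complex.re_ofNat, Complex.im_ofNat]; ring
  rw [e] at h
  rw [h]
  have hc := hF.continuous
  refine mul_le_mul_of_nonneg_left (intervalIntegral.integral_mono_on (by positivity)
    (Continuous.intervalIntegrable (by fun_prop) _ _)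
    (Continuous.intervalIntegrable (by fun_prop) _ _) fun θ _ => ?_) (by positivity)
  generalize F (z + (r:ℂ) * Complex.exp ((θ:ℂ) * Complex.I)) = x
  have := Complex.normSq_sub x (F z)
  rw [← Complex.normSq_eq_norm_sq, Complex.mul_conj]
  simp only [Complex.sub_re, Complex.mul_re, Complex.ofReal_re, Complex.re_ofNat,
    Complex.im_ofNat] at this ⊢
  linarith [Complex.normSq_nonneg (x - F z)]

lemma sg_sub (N : ℕ → ℕ) (z : ℂ) (r : ℝ) (hr : 0 < r) (h : closedBall z r ⊆ ball (0:ℂ) 1) :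
    sg N z ≤ (2 * Real.pi)⁻¹ *
      ∫ θ in (0:ℝ)..2 * Real.pi, sg N (z + (r:ℂ) * Complex.exp ((θ:ℂ) * Complex.I)) := by
  set p : ℕ → ℂ → ℝ := fun K x => ‖1 - x‖ ^ 2 +
    ∑ k ∈ Finset.range K, ((N k : ℝ) + 1) / 2 ^ k * ‖(1 - x) * x ^ N k‖ ^ 2 with hp
  have e : ∀ K x, p K x = ‖1 - x‖ ^ 2 *
      (1 + ∑ k ∈ Finset.range K, ((N k : ℝ) + 1) / 2 ^ k * ‖x‖ ^ (2 * N k)) := fun K x => by
    simp only [hp, mul_add, mul_one, Finset.mul_sum, norm_mul, norm_pow]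
    congr 1; exact Finset.sum_congr rfl fun k _ => by ring
  have hs : ∀ x ∈ ball (0:ℂ) 1, Summable fun k => ((N k : ℝ) + 1) / 2 ^ k * ‖x‖ ^ (2 * N k) :=
    fun x hx => V_sum N (by simpa using hx)
  have h1 : Tendsto (fun K => p K z) atTop (𝓝 (sg N z)) := by
    simp only [e]
    exact ((hs z (h (mem_closedBall_self hr.le))).hasSum.tendsto_sum_nat.const_add 1).const_mul _
  refine le_of_tendsto' h1 fun K => ?_
  have h2 : p K z ≤ (2 * Real.pi)⁻¹ *
      ∫ θ in (0:ℝ)..2 * Real.pi, p K (z + (r:ℂ) * Complex.exp ((θ:ℂ) * Complex.I)) := by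
    simp only [hp]
    rw [intervalIntegral.integral_add (Continuous.intervalIntegrable (by fun_prop) _ _)
      (Continuous.intervalIntegrable (by fun_prop) _ _),
      intervalIntegral.integral_finsetSum fun k _ =>
        Continuous.intervalIntegrable (by fun_prop) _ _, mul_add, Finset.mul_sum]
    refine add_le_add (sq_sub (F := fun x => 1 - x) (by fun_prop) z hr)
      (Finset.sum_le_sum fun k _ => ?_)
    rw [intervalIntegral.integral_const_mul, mul_left_comm]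
    exact mul_le_mul_of_nonneg_left (sq_sub (F := fun x => (1 - x) * x ^ N k) (by fun_prop) z hr)
      (by positivity)
  refine h2.trans (mul_le_mul_of_nonneg_left (intervalIntegral.integral_mono_on (by positivity)
    (Continuous.intervalIntegrable (by simp only [hp]; fun_prop) _ _)
    (Continuous.intervalIntegrable ((sg_cont N).comp_continuous (by fun_prop)
      fun θ => h (mem_c z hr θ)) _ _) fun θ _ => ?_) (by positivity))
  rw [e, sg, V]
  refine mul_le_mul_of_nonneg_left (add_le_add le_rfl ?_) (by positivity)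
  exact (hs _ (h (mem_c z hr θ))).sum_le_tsum _ fun k _ => by positivity

lemma outer (n : ℕ) : Real.pi * (∑ j ∈ Finset.range n, (1 / (j + 1) : ℝ) - 1) ≤
    ∫ z in ball (0:ℂ) 1, (1 - ‖z‖ ^ 2) * (∑ j ∈ Finset.range n, ‖z‖ ^ (2 * j)) ^ 2 * ‖1 - z‖ ^ 2 := by
  have h := orth (u := fun r => (1 - r ^ 2) * (∑ j ∈ Finset.range n, r ^ (2 * j)) ^ 2)
    (cont_int (by fun_prop) 1) (fun j => (-1) ^ j) 2
  simp only [Finset.sum_range_succ, Finset.range_zero, Finset.sum_empty, pow_zero, pow_one,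
    zero_add, mul_one, neg_mul, one_mul, norm_one, norm_neg, one_pow, mul_zero,
    ← sub_eq_add_neg] at h
  rw [h]
  have h1 : 0 ≤ ∫ z in ball (0:ℂ) 1,
      (1 - ‖z‖ ^ 2) * (∑ j ∈ Finset.range n, ‖z‖ ^ (2 * j)) ^ 2 * ‖z‖ ^ 2 :=
    setIntegral_nonneg measurableSet_ball fun z hz => by
      have := mem_ball_zero_iff.1 hz
      exact mul_nonneg (mul_nonneg (by nlinarith [norm_nonneg z]) (by positivity)) (by positivity)
  have e : ∀ z : ℂ, (1 - ‖z‖ ^ 2) * (∑ j ∈ Finset.range n, ‖z‖ ^ (2 * j)) ^ 2 =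
      ∑ j ∈ Finset.range n, (‖z‖ ^ (2 * j) - ‖z‖ ^ (2 * (n + j))) := fun z => by
    have := mul_neg_geom_sum (‖z‖ ^ 2) n
    simp only [← pow_mul] at this
    rw [pow_two (∑ j ∈ Finset.range n, ‖z‖ ^ (2 * j)), ← mul_assoc, this, Finset.mul_sum]
    exact Finset.sum_congr rfl fun j _ => by ring
  have h2 : Real.pi * (∑ j ∈ Finset.range n, (1 / (j + 1) : ℝ) - 1) ≤ ∫ z in ball (0:ℂ) 1,
      (1 - ‖z‖ ^ 2) * (∑ j ∈ Finset.range n, ‖z‖ ^ (2 * j)) ^ 2 := by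
    simp only [e]
    rw [integral_finsetSum _ fun j _ => cont_int (by fun_prop) 1]
    have h3 : ∑ j ∈ Finset.range n, (Real.pi * (1 / (j + 1)) - Real.pi / (n + 1)) ≤
        ∑ j ∈ Finset.range n, ∫ z in ball (0:ℂ) 1, (‖z‖ ^ (2 * j) - ‖z‖ ^ (2 * (n + j))) :=
      Finset.sum_le_sum fun j _ => by
        rw [integral_sub (cont_int (by fun_prop) 1) (cont_int (by fun_prop) 1), rad zero_le_one,
          rad zero_le_one, one_pow, one_pow, mul_one, mul_one_div]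
        push_cast
        gcongr
        linarith [Nat.cast_nonneg (α := ℝ) j]
    refine le_trans ?_ h3
    rw [Finset.sum_sub_distrib, ← Finset.mul_sum, Finset.sum_const, Finset.card_range,
      nsmul_eq_mul]
    have : (n:ℝ) * (Real.pi / (n + 1)) ≤ Real.pi := by
      rw [← mul_div_assoc, div_le_iff₀ (by positivity)]; nlinarith [Real.pi_pos]
    linarith
  linarith

lemma inner {u : ℝ → ℝ} (hu : IntegrableOn (fun ζ : ℂ => u ‖ζ‖) (ball 0 1)) (hu0 : ∀ r, 0 ≤ u r)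
    {ρ : ℝ} (hρ : ρ < 1) (n : ℕ) (h1 : ∀ r, u r ≠ 0 → r ≤ ρ ∧ ∀ j ≤ n, 1 / 4 ≤ r ^ (2 * j))
    {z : ℂ} (hz : z ∈ ball (0:ℂ) 1) :
    (∫ ζ in ball (0:ℂ) 1, u ‖ζ‖) / 16 * (‖1 - z‖ ^ 2 * ∑ j ∈ Finset.range n, ‖z‖ ^ (2 * j)) ≤
      ∫ ζ in ball (0:ℂ) 1, ‖1 - ζ‖ ^ 2 * u ‖ζ‖ / ‖1 - z * conj ζ‖ ^ 2 := by
  have hz1 := mem_ball_zero_iff.1 hz
  set U := ∫ ζ in ball (0:ℂ) 1, u ‖ζ‖ with hU
  have hU0 : 0 ≤ U := integral_nonneg fun _ => hu0 _
  have ho := orth hu (fun j => if j = 0 then 1 else if j ≤ n then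
    conj z ^ (j - 1) * (conj z - 1) else -conj z ^ n) (n + 2)
  simp only [← geo] at ho
  have hm : ∀ j, 0 ≤ ∫ ζ in ball (0:ℂ) 1, u ‖ζ‖ * ‖ζ‖ ^ (2 * j) := fun j =>
    integral_nonneg fun _ => mul_nonneg (hu0 _) (by positivity)
  have hm2 : ∀ j ≤ n, U / 4 ≤ ∫ ζ in ball (0:ℂ) 1, u ‖ζ‖ * ‖ζ‖ ^ (2 * j) := fun j hj => by
    rw [hU, ← integral_div]
    refine integral_mono (hu.div_const _) (poly_int hu (by fun_prop)) fun ζ => ?_
    by_cases h : u ‖ζ‖ = 0
    · simp [h]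
    · have := mul_le_mul_of_nonneg_left ((h1 _ h).2 j hj) (hu0 ‖ζ‖)
      simp only; linarith
  have h2 : U / 4 * (‖1 - z‖ ^ 2 * ∑ j ∈ Finset.range n, ‖z‖ ^ (2 * j)) ≤
      ∫ ζ in ball (0:ℂ) 1, u ‖ζ‖ * ‖(1 - ζ) * ∑ j ∈ Finset.range (n + 1), (conj z * ζ) ^ j‖ ^ 2 := by
    rw [ho, Finset.sum_range_succ, Finset.sum_range_succ', Finset.mul_sum, Finset.mul_sum]
    refine le_add_of_le_of_nonneg (le_add_of_le_of_nonneg (Finset.sum_le_sum fun j hj => ?_)
      (mul_nonneg (by positivity) (hm _))) (mul_nonneg (by positivity) (hm _))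
    have hj' := Nat.succ_le_of_lt (Finset.mem_range.1 hj)
    rw [if_neg (Nat.succ_ne_zero j), if_pos hj', Nat.add_sub_cancel, mul_comm (U / 4)]
    have : ‖conj z ^ j * (conj z - 1)‖ ^ 2 = ‖1 - z‖ ^ 2 * ‖z‖ ^ (2 * j) := by
      have e : ‖conj z - 1‖ = ‖1 - z‖ := by
        rw [← Complex.norm_conj, norm_sub_rev]; simp [norm_sub_rev]
      rw [norm_mul, norm_pow, Complex.norm_conj, e]; ring
    rw [this]
    exact mul_le_mul_of_nonneg_left (hm2 _ hj') (by positivity)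
  have hlow : ∀ ζ ∈ ball (0:ℂ) 1, 1 - ‖z‖ ≤ ‖1 - z * conj ζ‖ := fun ζ hζ => by
    have := norm_sub_norm_le 1 (z * conj ζ)
    rw [norm_one, norm_mul, Complex.norm_conj] at this
    nlinarith [mem_ball_zero_iff.1 hζ, norm_nonneg z]
  have i1 := poly_int hu (g := fun ζ => ‖1 - ζ‖ ^ 2) (by fun_prop)
  have i2 : IntegrableOn (fun ζ => ‖1 - ζ‖ ^ 2 * u ‖ζ‖ / ‖1 - z * conj ζ‖ ^ 2) (ball 0 1) := by
    refine (Integrable.mul_bdd (c := ((1 - ‖z‖) ^ 2)⁻¹) (g := fun ζ => (‖1 - z * conj ζ‖ ^ 2)⁻¹) i1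
      (Measurable.aestronglyMeasurable (by fun_prop)) ?_).congr
      (Eventually.of_forall fun ζ => by simp only; ring)
    filter_upwards [ae_restrict_mem measurableSet_ball] with ζ hζ
    rw [Real.norm_of_nonneg (by positivity)]
    exact inv_anti₀ (by nlinarith) (pow_le_pow_left₀ (by linarith) (hlow ζ hζ) 2)
  have h3 : ∫ ζ in ball (0:ℂ) 1,
      u ‖ζ‖ * ‖(1 - ζ) * ∑ j ∈ Finset.range (n + 1), (conj z * ζ) ^ j‖ ^ 2 ≤
      ∫ ζ in ball (0:ℂ) 1, 4 * (‖1 - ζ‖ ^ 2 * u ‖ζ‖ / ‖1 - z * conj ζ‖ ^ 2) := by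
    refine setIntegral_mono_on (poly_int hu (by fun_prop)) (i2.const_mul 4) measurableSet_ball
      fun ζ hζ => ?_
    have a0 : 0 < ‖1 - z * conj ζ‖ := by linarith [hlow ζ hζ]
    have a1 : ‖1 - z * conj ζ‖ * ‖∑ j ∈ Finset.range (n + 1), (conj z * ζ) ^ j‖ ≤ 2 := by
      have e : ‖1 - z * conj ζ‖ = ‖1 - conj z * ζ‖ := by
        rw [← Complex.norm_conj]; simp
      rw [e, ← norm_mul, mul_neg_geom_sum]
      refine (norm_sub_le _ _).trans ?_
      rw [norm_one, norm_pow, norm_mul, Complex.norm_conj]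
      have : (‖z‖ * ‖ζ‖) ^ (n + 1) ≤ 1 := pow_le_one₀ (by positivity)
        (mul_le_one₀ hz1.le (norm_nonneg _) (mem_ball_zero_iff.1 hζ).le)
      linarith
    have a2 := pow_le_pow_left₀ (by positivity) a1 2
    rw [← mul_div_assoc, le_div_iff₀ (by positivity), norm_mul]
    have a3 := mul_le_mul_of_nonneg_left a2 (mul_nonneg (sq_nonneg ‖1 - ζ‖) (hu0 ‖ζ‖))
    nlinarith
  rw [integral_const_mul] at h3
  linarith

lemma unbdd : ∃ N : ℕ → ℕ, ¬ ∃ C : NNReal, ∀ f : ℂ → ℂ, Measurable f → (∃ M : ℝ, ∀ z, ‖f z‖ ≤ M) →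
    (∃ s : ℝ, s < 1 ∧ ∀ z : ℂ, s < ‖z‖ → f z = 0) →
    ∫⁻ z in ball (0:ℂ) 1, ‖∫ ζ in ball (0:ℂ) 1,
        f ζ * (sg N ζ : ℂ) / ((‖1 - z * conj ζ‖ ^ 2 : ℝ) : ℂ)‖ₑ ^ 2 * ENNReal.ofReal (w z)
      ≤ (C : ENNReal) * ∫⁻ ζ in ball (0:ℂ) 1, ‖f ζ‖ₑ ^ 2 * ENNReal.ofReal (sg N ζ) := by
  have hN := fun k : ℕ => (Real.tendsto_sum_range_one_div_nat_succ_atTop.eventually
    (eventually_ge_atTop (4 ^ k + 1))).exists
  choose N hN using hN
  refine ⟨N, ?_⟩
  rintro ⟨C, hC⟩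
  obtain ⟨k, hk⟩ := pow_unbounded_of_one_lt (1024 * (C:ℝ)) one_lt_two
  set n := N k with hn
  set t : ℝ := (1 / 4) ^ (((2 * n + 2 : ℕ) : ℝ))⁻¹ with ht
  set ρ : ℝ := (3 / 4) ^ (((2 * n + 2 : ℕ) : ℝ))⁻¹ with hρ
  have ht1 : t ^ (2 * n + 2) = 1 / 4 := Real.rpow_inv_natCast_pow (by norm_num) (by omega)
  have hρ1 : ρ ^ (2 * n + 2) = 3 / 4 := Real.rpow_inv_natCast_pow (by norm_num) (by omega)
  have ht0 : 0 ≤ t := by positivity
  have hρ0 : 0 ≤ ρ := by positivity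
  have hρ2 : ρ < 1 := Real.rpow_lt_one (by norm_num) (by norm_num) (by positivity)
  have htρ : t ≤ ρ := Real.rpow_le_rpow (by norm_num) (by norm_num) (by positivity)
  set S := ball (0:ℂ) ρ \ ball 0 t with hS
  have hSm : MeasurableSet S := measurableSet_ball.diff measurableSet_ball
  have hS1 : S ⊆ ball 0 1 := sdiff_subset.trans (ball_subset_ball hρ2.le)
  have hmem : ∀ ζ : ℂ, ζ ∈ S ↔ ‖ζ‖ ∈ Ico t ρ := fun ζ => by simp [hS, and_comm]
  set u := (Ico t ρ).indicator (V N) with hudef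
  have hu0 : ∀ r, 0 ≤ u r := fun r => indicator_nonneg (fun r _ => by linarith [V_ge N r]) r
  have eu : (fun ζ : ℂ => u ‖ζ‖) = S.indicator fun ζ => V N ‖ζ‖ := by
    ext ζ
    by_cases h : ζ ∈ S
    · rw [indicator_of_mem h, hudef, indicator_of_mem ((hmem ζ).1 h)]
    · rw [indicator_of_notMem h, hudef, indicator_of_notMem fun h' => h ((hmem ζ).2 h')]
  have iV : IntegrableOn (fun ζ : ℂ => V N ‖ζ‖) S := (V_int N hρ0 hρ2).1.mono_set sdiff_subset
  have hu : IntegrableOn (fun ζ : ℂ => u ‖ζ‖) (ball 0 1) := by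
    rw [eu]; exact ((integrable_indicator_iff hSm).2 iV).integrableOn
  set U := ∫ ζ in ball (0:ℂ) 1, u ‖ζ‖ with hU
  have hU1 : 1 / 2 ^ k ≤ U := by
    rw [hU, eu, setIntegral_indicator hSm, inter_eq_right.2 hS1]
    have i1 : IntegrableOn (fun ζ : ℂ => ((n:ℝ) + 1) / 2 ^ k * ‖ζ‖ ^ (2 * n)) (ball 0 ρ) :=
      cont_int (by fun_prop) ρ
    refine le_trans ?_ (setIntegral_mono_on (i1.mono_set sdiff_subset) iV hSm fun ζ hζ => ?_)
    · rw [hS, setIntegral_sdiff measurableSet_ball i1 (ball_subset_ball htρ), integral_const_mul,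
        integral_const_mul, rad hρ0, rad ht0, ht1, hρ1]
      have : ((n:ℝ) + 1) / 2 ^ k * (Real.pi * (3 / 4) / (n + 1)) -
        (n + 1) / 2 ^ k * (Real.pi * (1 / 4) / (n + 1)) = Real.pi / 2 / 2 ^ k := by
        field_simp; ring
      rw [this]; gcongr; linarith [Real.pi_gt_three]
    · have := (V_sum N (r := ‖ζ‖) (by simpa using hS1 hζ)).le_tsum k fun j _ => by positivity
      rw [V]; linarith
  have hU0 : 0 < U := lt_of_lt_of_le (by positivity) hU1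
  have e1 : ∀ ζ, S.indicator (fun _ => (1:ℝ)) ζ * sg N ζ = ‖1 - ζ‖ ^ 2 * u ‖ζ‖ := fun ζ => by
    rw [congrFun eu ζ]; by_cases h : ζ ∈ S <;> simp [h, sg]
  have key := hC (fun ζ => (S.indicator (fun _ => (1:ℝ)) ζ : ℝ))
    (Complex.measurable_ofReal.comp (measurable_const.indicator hSm))
    ⟨1, fun ζ => by by_cases h : ζ ∈ S <;> simp [h]⟩
    ⟨ρ, hρ2, fun ζ hζ => by
      rw [indicator_of_notMem fun h => absurd ((hmem ζ).1 h).2 (not_lt.2 hζ.le)]; simp⟩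
  have iσ : IntegrableOn (fun ζ : ℂ => ‖1 - ζ‖ ^ 2 * u ‖ζ‖) (ball 0 1) :=
    (poly_int hu (g := fun ζ => ‖1 - ζ‖ ^ 2) (by fun_prop)).congr
      (Eventually.of_forall fun ζ => mul_comm _ _)
  have r1 : ∫⁻ ζ in ball (0:ℂ) 1, ‖((S.indicator (fun _ => (1:ℝ)) ζ : ℝ) : ℂ)‖ₑ ^ 2 *
      ENNReal.ofReal (sg N ζ) ≤ ENNReal.ofReal (4 * U) := by
    rw [hU, ← integral_const_mul, ofReal_integral_eq_lintegral_ofReal (hu.const_mul 4)
      (Eventually.of_forall fun ζ => mul_nonneg (by norm_num) (hu0 _))]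
    refine setLIntegral_mono' measurableSet_ball fun ζ hζ => ?_
    by_cases h : ζ ∈ S
    · have := e1 ζ
      rw [indicator_of_mem h, one_mul] at this
      simp only [indicator_of_mem h, Complex.ofReal_one, enorm_one, one_pow, one_mul, this]
      refine ENNReal.ofReal_le_ofReal (mul_le_mul_of_nonneg_right ?_ (hu0 _))
      have := norm_sub_le 1 ζ
      rw [norm_one] at this
      nlinarith [mem_ball_zero_iff.1 hζ, norm_nonneg (1 - ζ)]
    · simp [h]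
  have r2 : ENNReal.ofReal ((U / 16) ^ 2 * (Real.pi * 4 ^ k)) ≤ ∫⁻ z in ball (0:ℂ) 1,
      ‖∫ ζ in ball (0:ℂ) 1, ((S.indicator (fun _ => (1:ℝ)) ζ : ℝ) : ℂ) * (sg N ζ : ℂ) /
        ((‖1 - z * conj ζ‖ ^ 2 : ℝ) : ℂ)‖ₑ ^ 2 * ENNReal.ofReal (w z) := by
    have a1 : (U / 16) ^ 2 * (Real.pi * 4 ^ k) ≤ ∫ z in ball (0:ℂ) 1, (U / 16) ^ 2 *
        ((1 - ‖z‖ ^ 2) * (∑ j ∈ Finset.range n, ‖z‖ ^ (2 * j)) ^ 2 * ‖1 - z‖ ^ 2) := by
      rw [integral_const_mul]
      refine mul_le_mul_of_nonneg_left (le_trans ?_ (outer n)) (by positivity)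
      exact mul_le_mul_of_nonneg_left (by linarith [hN k]) Real.pi_pos.le
    refine (ENNReal.ofReal_le_ofReal a1).trans ?_
    rw [ofReal_integral_eq_lintegral_ofReal (cont_int (by fun_prop) 1) (by
      filter_upwards [ae_restrict_mem measurableSet_ball] with z hz
      have := mem_ball_zero_iff.1 hz
      exact mul_nonneg (by positivity) (mul_nonneg
        (mul_nonneg (by nlinarith [norm_nonneg z]) (by positivity)) (by positivity)))]
    refine setLIntegral_mono' measurableSet_ball fun z hz => ?_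
    have a2 := inner hu hu0 hρ2 n (fun r hr => by
      have hr' : r ∈ Ico t ρ := by
        by_contra h; exact hr (indicator_of_notMem h _)
      refine ⟨hr'.2.le, fun j hj => ?_⟩
      rw [← ht1]
      exact (pow_le_pow_of_le_one ht0 (by linarith) (by omega)).trans
        (pow_le_pow_left₀ ht0 hr'.1 _)) hz
    simp only [← Complex.ofReal_mul, ← Complex.ofReal_div, e1]
    rw [integral_complex_ofReal, ← ofReal_norm, Complex.norm_real,
      ← ENNReal.ofReal_pow (norm_nonneg _), ← ENNReal.ofReal_mul (by positivity)]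
    refine ENNReal.ofReal_le_ofReal ?_
    rw [← hU] at a2
    have a3 := pow_le_pow_left₀ (by positivity) (a2.trans (le_abs_self _)) 2
    refine le_trans (le_of_eq ?_) (mul_le_mul_of_nonneg_right a3 (w_pos hz).le)
    have : ‖1 - z‖ ≠ 0 := by simp [ne_one hz]
    rw [w]; field_simp
  have r3 := r2.trans (key.trans (mul_le_mul_right r1 _))
  rw [← ENNReal.ofReal_coe_nnreal, ← ENNReal.ofReal_mul (by positivity),
    ENNReal.ofReal_le_ofReal_iff (by positivity)] at r3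
  have r4 : U * (Real.pi * 4 ^ k) ≤ 1024 * C := by
    have : U * (U * (Real.pi * 4 ^ k)) ≤ U * (1024 * C) := by linarith
    exact le_of_mul_le_mul_left this hU0
  have r5 : (1:ℝ) / 2 ^ k * (1 * 4 ^ k) ≤ U * (Real.pi * 4 ^ k) := by
    gcongr; linarith [Real.pi_gt_three]
  have r6 : (1:ℝ) / 2 ^ k * (1 * 4 ^ k) = 2 ^ k := by
    rw [show (4:ℝ) = 2 * 2 by norm_num, mul_pow]; field_simp
  linarith

end H28Ber
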