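import Mathlib

/-! A power weight on the plane and a principal value computation. -/

open MeasureTheory Set Filter Topology Complex

namespace H28Beu

noncomputable def w (z : ℂ) : ℝ := (1 + ‖z‖) ^ (-(3 / 2) : ℝ)

lemma w_pos (z : ℂ) : 0 < w z := Real.rpow_pos_of_pos (by positivity) _

lemma w_cont : Continuous w :=
  Continuous.rpow_const (by fun_prop) fun z => Or.inl (by positivity)

noncomputable def c0 : ℝ := ∫ z in Metric.ball (0:ℂ) 1, ‖z‖ ^ (-(3 / 2) : ℝ)

lemma c0_nonneg : 0 ≤ c0 := integral_nonneg fun _ => Real.rpow_nonneg (norm_nonneg _) _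

lemma ball_int {ρ : ℝ} (hρ : 0 < ρ) :
    ∫ z in Metric.ball (0:ℂ) ρ, w z ≤ c0 * (ρ ^ 2 * ρ ^ (-(3 / 2) : ℝ)) := by
  have hi : IntegrableOn (fun z : ℂ => ‖z‖ ^ (-(3 / 2) : ℝ)) (Metric.ball 0 ρ) :=
    integrableOn_ball_of_norm_le_rpow (C := 1) (α := 3 / 2) (by simp) (by simp; norm_num)
      (Eventually.of_forall fun z => by
        rw [Real.norm_of_nonneg (Real.rpow_nonneg (norm_nonneg _) _), one_mul])
      (Measurable.aestronglyMeasurable (by fun_prop))
  have h1 : ∫ z in Metric.ball (0:ℂ) ρ, w z ≤ ∫ z in Metric.ball (0:ℂ) ρ, ‖z‖ ^ (-(3 / 2) : ℝ) := by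
    refine integral_mono_ae ((w_cont.continuousOn.integrableOn_compact
      (isCompact_closedBall 0 ρ)).mono_set Metric.ball_subset_closedBall) hi ?_
    have : ∀ᵐ z : ℂ, z ≠ 0 := by simp [ae_iff]
    filter_upwards [ae_restrict_of_ae this] with z hz
    exact Real.rpow_le_rpow_of_nonpos (norm_pos_iff.2 hz) (by linarith) (by norm_num)
  have h2 := Measure.setIntegral_comp_smul_of_pos (volume : Measure ℂ)
    (fun z : ℂ => ‖z‖ ^ (-(3 / 2) : ℝ)) (Metric.ball 0 1) hρ
  rw [smul_unitBall_of_pos hρ] at h2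
  have h3 : ∫ z in Metric.ball (0:ℂ) 1, ‖ρ • z‖ ^ (-(3 / 2) : ℝ) = ρ ^ (-(3 / 2) : ℝ) * c0 := by
    rw [c0, ← integral_const_mul]
    refine integral_congr_ae (Eventually.of_forall fun z => ?_)
    simp only [norm_smul, Real.norm_of_nonneg hρ.le]
    rw [Real.mul_rpow hρ.le (norm_nonneg _)]
  rw [h3, Complex.finrank_real_complex, smul_eq_mul, eq_inv_mul_iff_mul_eq₀ (by positivity)] at h2
  rw [← h2] at h1
  linarith

lemma a1 {Q : Set ℂ} (hQ : MeasurableSet Q) {c : ℂ} {r : ℝ} (hr : 0 < r)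
    (h1 : Metric.ball c r ⊆ Q) (h2 : Q ⊆ Metric.closedBall c (2 * r)) :
    (⨍ z in Q, w z) * (1 + ‖c‖ + 2 * r) ^ (3 / 2 : ℝ) ≤ 9 + 49 * c0 := by
  have hfin : volume Q ≠ ⊤ := ((measure_mono h2).trans_lt measure_closedBall_lt_top).ne
  have hm : r ^ 2 ≤ volume.real Q := by
    have := ENNReal.toReal_mono hfin (measure_mono h1)
    rw [Complex.volume_ball] at this
    simp only [ENNReal.toReal_mul, ENNReal.toReal_pow, ENNReal.toReal_ofReal hr.le,
      ENNReal.coe_toReal, NNReal.coe_real_pi] at this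
    have h3 : r ^ 2 * 1 ≤ r ^ 2 * Real.pi :=
      mul_le_mul_of_nonneg_left (by linarith [Real.pi_gt_three]) (by positivity)
    simp only [Measure.real]; linarith
  have hm0 : 0 < volume.real Q := lt_of_lt_of_le (by positivity) hm
  have hi : IntegrableOn w Q :=
    (w_cont.continuousOn.integrableOn_compact (isCompact_closedBall c _)).mono_set h2
  set R := 1 + ‖c‖ + 2 * r with hR
  have hR0 : 0 < R := by positivity
  have hRR : R ^ (-(3 / 2) : ℝ) * R ^ (3 / 2 : ℝ) = 1 := by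
    rw [← Real.rpow_add hR0]; simp
  rw [setAverage_eq, smul_eq_mul, mul_assoc, inv_mul_le_iff₀ hm0]
  have hc0 := c0_nonneg
  rcases le_total (4 * r) (1 + ‖c‖) with h | h
  · have h3 : ∀ z ∈ Q, w z ≤ 9 * R ^ (-(3 / 2) : ℝ) := fun z hz => by
      have a1 := h2 hz
      rw [Metric.mem_closedBall, dist_eq_norm] at a1
      have a2 : ‖c‖ ≤ ‖z‖ + ‖z - c‖ := by
        calc ‖c‖ = ‖z - (z - c)‖ := by rw [sub_sub_cancel]
          _ ≤ _ := norm_sub_le _ _
      have a3 : w z ≤ (R / 3) ^ (-(3 / 2) : ℝ) :=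
        Real.rpow_le_rpow_of_nonpos (by positivity) (by linarith) (by norm_num)
      rw [Real.div_rpow hR0.le (by norm_num), Real.rpow_neg (x := 3) (by norm_num),
        div_inv_eq_mul] at a3
      have a4 : (3:ℝ) ^ (3 / 2 : ℝ) ≤ 3 ^ (2 : ℝ) :=
        Real.rpow_le_rpow_of_exponent_le (by norm_num) (by norm_num)
      have a5 : (3:ℝ) ^ (2 : ℝ) = 9 := by norm_num
      have a6 : 0 ≤ R ^ (-(3 / 2) : ℝ) := by positivity
      nlinarith
    have h4 : ∫ z in Q, w z ≤ ∫ _z in Q, 9 * R ^ (-(3 / 2) : ℝ) :=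
      setIntegral_mono_on hi (integrableOn_const hfin) hQ h3
    rw [setIntegral_const, smul_eq_mul] at h4
    have h5 := mul_le_mul_of_nonneg_right h4 (show 0 ≤ R ^ (3 / 2 : ℝ) by positivity)
    rw [mul_assoc, mul_assoc, hRR] at h5
    nlinarith
  · have h3 : Q ⊆ Metric.ball 0 (7 * r) := fun z hz => by
      have a1 := h2 hz
      rw [Metric.mem_closedBall, dist_eq_norm] at a1
      rw [mem_ball_zero_iff]
      have a2 : ‖z‖ ≤ ‖c‖ + ‖z - c‖ := by
        calc ‖z‖ = ‖c + (z - c)‖ := by rw [add_sub_cancel]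
          _ ≤ _ := norm_add_le _ _
      linarith
    have h4 : ∫ z in Q, w z ≤ ∫ z in Metric.ball 0 (7 * r), w z :=
      setIntegral_mono_set ((w_cont.continuousOn.integrableOn_compact
        (isCompact_closedBall 0 _)).mono_set Metric.ball_subset_closedBall)
        (Eventually.of_forall fun z => (w_pos z).le) h3.eventuallyLE
    have h5 := h4.trans (ball_int (show 0 < 7 * r by positivity))
    have h6 : (7 * r) ^ (-(3 / 2) : ℝ) ≤ R ^ (-(3 / 2) : ℝ) :=
      Real.rpow_le_rpow_of_nonpos hR0 (by linarith) (by norm_num)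
    have h7 : ∫ z in Q, w z ≤ c0 * ((7 * r) ^ 2 * R ^ (-(3 / 2) : ℝ)) :=
      h5.trans (by gcongr)
    have h8 := mul_le_mul_of_nonneg_right h7 (show 0 ≤ R ^ (3 / 2 : ℝ) by positivity)
    rw [mul_assoc, mul_assoc, hRR] at h8
    have h9 : c0 * r ^ 2 ≤ c0 * volume.real Q := mul_le_mul_of_nonneg_left hm hc0
    nlinarith

lemma int_prod {a b : ℝ → ℝ} (ha : Integrable a) (hb : Integrable b) :
    Integrable (fun z : ℂ => a z.re * b z.im) :=
  Complex.volume_preserving_equiv_real_prod.integrable_comp_of_integrable (ha.mul_prod hb)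

lemma strip_int : Integrable (fun z : ℂ => (Icc (-2:ℝ) 2).indicator (fun _ => (1:ℝ)) z.im * w z) := by
  have h := int_prod (integrable_one_add_norm (E := ℝ) (μ := volume) (r := 3 / 2)
    (by simp; norm_num)) ((integrable_indicator_iff (measurableSet_Icc (a := (-2:ℝ)) (b := 2))).2
      (integrableOn_const (C := (1:ℝ)) (by simp)))
  refine h.mono' ?_ (Eventually.of_forall fun z => ?_)
  · exact (((measurable_const.indicator measurableSet_Icc).comp measurable_im).mul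
      w_cont.measurable).aestronglyMeasurable
  · by_cases hz : z.im ∈ Icc (-2:ℝ) 2
    · simp only [indicator_of_mem hz, one_mul, mul_one, Real.norm_of_nonneg (w_pos z).le]
      exact Real.rpow_le_rpow_of_nonpos (by positivity)
        (by rw [Real.norm_eq_abs]; linarith [abs_re_le_norm z]) (by norm_num)
    · simp [hz]

lemma inv_sq_le {η : ℂ} {m : ℝ} (hm : 0 < m) (h : m ≤ ‖η‖) :
    ‖1 / η ^ 2‖ ≤ (1 + (m ^ 2)⁻¹) * (1 + η.re ^ 2)⁻¹ := by
  have h0 : 0 < ‖η‖ := by linarith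
  have h1 : η.re ^ 2 ≤ ‖η‖ ^ 2 := by
    rw [← sq_abs]; exact pow_le_pow_left₀ (abs_nonneg _) (abs_re_le_norm η) 2
  have h2 : 1 ≤ (m ^ 2)⁻¹ * ‖η‖ ^ 2 := by
    rw [inv_mul_eq_div, le_div_iff₀ (by positivity), one_mul]
    exact pow_le_pow_left₀ hm.le h 2
  rw [norm_div, norm_one, norm_pow, ← div_eq_mul_inv, div_le_div_iff₀ (by positivity)
    (by positivity)]
  nlinarith

lemma half_line {a t : ℝ} (ha : 0 ≤ a) (h : 0 < a ^ 2 + t ^ 2) :
    IntegrableOn (fun x : ℝ => 1 / ((x:ℂ) + t * I) ^ 2) (Ioi a) ∧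
      ∫ x in Ioi a, 1 / ((x:ℂ) + t * I) ^ 2 = 1 / ((a:ℂ) + t * I) := by
  have hm : 0 < ‖(a:ℂ) + t * I‖ := by
    rw [norm_add_mul_I]; exact Real.sqrt_pos.2 h
  have hge : ∀ x : ℝ, a ≤ x → ‖(a:ℂ) + t * I‖ ≤ ‖(x:ℂ) + t * I‖ := fun x hx => by
    rw [norm_add_mul_I, norm_add_mul_I]; exact Real.sqrt_le_sqrt (by nlinarith)
  have hi : IntegrableOn (fun x : ℝ => 1 / ((x:ℂ) + t * I) ^ 2) (Ioi a) := by
    refine Integrable.mono' ((integrable_inv_one_add_sq.const_mul
      (1 + (‖(a:ℂ) + t * I‖ ^ 2)⁻¹)).restrict) (Measurable.aestronglyMeasurable (by fun_prop)) ?_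
    filter_upwards [ae_restrict_mem measurableSet_Ioi] with x hx
    simpa using inv_sq_le hm (hge x (le_of_lt hx))
  refine ⟨hi, ?_⟩
  have hd : ∀ x ∈ Ici a, HasDerivAt (fun x : ℝ => -((x:ℂ) + t * I)⁻¹) (1 / ((x:ℂ) + t * I) ^ 2) x := by
    intro x hx
    have h0 : (x:ℂ) + t * I ≠ 0 := norm_pos_iff.1 (hm.trans_le (hge x hx))
    have h1 : HasDerivAt (fun x : ℝ => (x:ℂ) + t * I) 1 x :=
      (Complex.ofRealCLM.hasDerivAt (x := x)).add_const _
    have h2 := (h1.inv h0).neg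
    rw [neg_div, neg_neg] at h2
    exact h2
  have hl : Tendsto (fun x : ℝ => -((x:ℂ) + t * I)⁻¹) atTop (𝓝 0) := by
    rw [tendsto_zero_iff_norm_tendsto_zero]
    refine squeeze_zero' (Eventually.of_forall fun _ => norm_nonneg _) ?_ tendsto_inv_atTop_zero
    filter_upwards [eventually_gt_atTop 0] with x hx
    rw [norm_neg, norm_inv]
    refine inv_anti₀ hx ?_
    have := abs_re_le_norm ((x:ℂ) + t * I)
    simp only [add_re, ofReal_re, mul_re, I_re, mul_zero, ofReal_im, I_im, mul_one, sub_self,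
      add_zero] at this
    exact (le_abs_self x).trans this
  rw [integral_Ioi_of_hasDerivAt_of_tendsto' hd hi hl]
  simp

noncomputable def k (ε : ℝ) (η : ℂ) : ℂ := {η : ℂ | ε < ‖η‖}.indicator (fun η => 1 / η ^ 2) η

lemma inner_int {ε : ℝ} (hε : 0 < ε) (t : ℝ) :
    ∫ x : ℝ, k ε (x + t * I) = ((2 * √(ε ^ 2 - t ^ 2) / ε ^ 2 : ℝ) : ℂ) := by
  set a := √(ε ^ 2 - t ^ 2) with ha
  have ha0 : 0 ≤ a := Real.sqrt_nonneg _
  have hat : ε ^ 2 ≤ a ^ 2 + t ^ 2 := by
    rcases le_total 0 (ε ^ 2 - t ^ 2) with hc | hc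
    · rw [ha, Real.sq_sqrt hc]; linarith
    · nlinarith
  have hpos : 0 < a ^ 2 + t ^ 2 := lt_of_lt_of_le (by positivity) hat
  obtain ⟨i1, e1⟩ := half_line ha0 hpos
  obtain ⟨i2, e2⟩ := half_line (t := -t) ha0 (by simpa using hpos)
  set h : ℝ → ℂ := fun x => 1 / ((x:ℂ) + t * I) ^ 2 with hh
  have hneg : (fun x : ℝ => 1 / ((x:ℂ) + (-t : ℝ) * I) ^ 2) = fun x => h (-x) := by
    ext x; simp only [hh]; push_cast; ring
  rw [hneg] at i2 e2
  rw [integral_comp_neg_Ioi, integral_Iic_eq_integral_Iio] at e2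
  have i3 : IntegrableOn h (Iio (-a)) := by
    have := IntegrableOn.comp_neg i2
    simpa using this
  have e : (fun x : ℝ => k ε (x + t * I)) =ᵐ[volume] (Ioi a ∪ Iio (-a)).indicator h := by
    have : ∀ᵐ x : ℝ, x ≠ 0 := by simp [ae_iff]
    filter_upwards [this] with x hx
    have hiff : ((x:ℂ) + t * I) ∈ {η : ℂ | ε < ‖η‖} ↔ x ∈ Ioi a ∪ Iio (-a) := by
      show ε < ‖(x:ℂ) + t * I‖ ↔ a < x ∨ x < -a
      rw [norm_add_mul_I, Real.lt_sqrt hε.le, lt_neg, ← lt_abs, ha,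
        Real.sqrt_lt' (abs_pos.2 hx), sq_abs, sub_lt_iff_lt_add]
    by_cases hc : x ∈ Ioi a ∪ Iio (-a)
    · rw [k, indicator_of_mem (hiff.2 hc), indicator_of_mem hc]
    · rw [k, indicator_of_notMem (fun h => hc (hiff.1 h)), indicator_of_notMem hc]
  rw [integral_congr_ae e, integral_indicator (measurableSet_Ioi.union measurableSet_Iio),
    setIntegral_union (by
      rw [Set.disjoint_left]; intro x h1 h2
      have : a < x := h1
      have : x < -a := h2
      linarith) measurableSet_Iio i1 i3, e1, e2]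
  have n1 : (a:ℂ) + t * I ≠ 0 := by
    rw [← norm_pos_iff, norm_add_mul_I]; exact Real.sqrt_pos.2 hpos
  have n2 : (a:ℂ) + (-t:ℝ) * I ≠ 0 := by
    rw [← norm_pos_iff, norm_add_mul_I]; exact Real.sqrt_pos.2 (by simpa using hpos)
  have e3 : 1 / ((a:ℂ) + t * I) + 1 / ((a:ℂ) + (-t:ℝ) * I) = ((2 * a / (a ^ 2 + t ^ 2) : ℝ) : ℂ) := by
    have : ((a:ℂ) + t * I) * ((a:ℂ) + (-t:ℝ) * I) = (a:ℂ) ^ 2 + (t:ℂ) ^ 2 := by
      push_cast; linear_combination (-(t:ℂ) ^ 2) * I_sq
    rw [div_add_div _ _ n1 n2, this]; push_cast; ring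
  rw [e3]
  congr 1
  rcases le_total 0 (ε ^ 2 - t ^ 2) with hc | hc
  · rw [ha, Real.sq_sqrt hc]; ring_nf
  · rw [ha, Real.sqrt_eq_zero'.2 hc]; simp

lemma k_meas (ε : ℝ) : Measurable (k ε) :=
  Measurable.indicator (by fun_prop) (isOpen_lt continuous_const continuous_norm).measurableSet

lemma pv_int {g : ℝ → ℝ} (hg : Continuous g) (hi : Integrable g) {ε : ℝ} (hε : 0 < ε) (y : ℝ) :
    Integrable (fun η : ℂ => (g (y - η.im) : ℂ) * k ε η) := by
  have h := int_prod (integrable_inv_one_add_sq.const_mul (1 + (ε ^ 2)⁻¹))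
    (hi.norm.comp_sub_left y)
  refine h.mono' ?_ (Eventually.of_forall fun η => ?_)
  · exact ((by fun_prop : Continuous fun η : ℂ => (g (y - η.im) : ℂ)).measurable.mul
      (k_meas ε)).aestronglyMeasurable
  · rw [norm_mul, Complex.norm_real, mul_comm]
    refine mul_le_mul_of_nonneg_right ?_ (norm_nonneg _)
    by_cases hc : η ∈ {η : ℂ | ε < ‖η‖}
    · rw [k, indicator_of_mem hc]; exact inv_sq_le hε (le_of_lt hc)
    · rw [k, indicator_of_notMem hc, norm_zero]; positivity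

lemma pv_val {g : ℝ → ℝ} (hg : Continuous g) (hi : Integrable g) {ε : ℝ} (hε : 0 < ε) (y : ℝ) :
    ∫ η : ℂ, (g (y - η.im) : ℂ) * k ε η
      = ((∫ s : ℝ, g (y - ε * s) * (2 * √(1 - s ^ 2)) : ℝ) : ℂ) := by
  have hp := Complex.volume_preserving_equiv_real_prod.symm
  have h1 := (hp.integrable_comp_emb (MeasurableEquiv.measurableEmbedding _)).2 (pv_int hg hi hε y)
  simp only [Function.comp_def] at h1
  rw [← hp.integral_comp (MeasurableEquiv.measurableEmbedding _), Measure.volume_eq_prod,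
    integral_prod_symm _ h1]
  have h2 : ∀ t : ℝ, ∫ x : ℝ, (g (y - (measurableEquivRealProd.symm (x, t)).im) : ℂ) *
      k ε (measurableEquivRealProd.symm (x, t)) =
      ((g (y - t) * (2 * √(ε ^ 2 - t ^ 2) / ε ^ 2) : ℝ) : ℂ) := fun t => by
    have : ∀ x : ℝ, measurableEquivRealProd.symm (x, t) = x + t * I := fun x => by
      apply Complex.ext <;> simp [measurableEquivRealProd_symm_apply]
    simp only [this, add_im, ofReal_im, mul_im, ofReal_re, I_im, mul_one, I_re, mul_zero,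
      add_zero, zero_add]
    rw [integral_const_mul, inner_int hε, ← ofReal_mul]
  simp only [h2]
  rw [integral_complex_ofReal]
  congr 1
  have h3 := Measure.integral_comp_mul_left
    (fun t => g (y - t) * (2 * √(ε ^ 2 - t ^ 2) / ε ^ 2)) ε
  rw [abs_of_pos (inv_pos.2 hε), smul_eq_mul, eq_inv_mul_iff_mul_eq₀ hε.ne'] at h3
  rw [← h3, ← integral_const_mul]
  refine integral_congr_ae (Eventually.of_forall fun s => ?_)
  have : √(ε ^ 2 - (ε * s) ^ 2) = ε * √(1 - s ^ 2) := by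
    rw [show ε ^ 2 - (ε * s) ^ 2 = ε ^ 2 * (1 - s ^ 2) by ring, Real.sqrt_mul (by positivity),
      Real.sqrt_sq hε.le]
  simp only [this]
  field_simp

lemma semi_supp : Function.support (fun s : ℝ => √(1 - s ^ 2)) ⊆ Ioc (-1) 1 := fun s hs => by
  have : 0 < 1 - s ^ 2 := by
    by_contra h
    exact hs (Real.sqrt_eq_zero'.2 (not_lt.1 h))
  constructor <;> nlinarith

lemma pv_lim {g : ℝ → ℝ} (hg : Continuous g) {M : ℝ} (hM : ∀ t, |g t| ≤ M) (y : ℝ) :
    Tendsto (fun ε : ℝ => ∫ s : ℝ, g (y - ε * s) * (2 * √(1 - s ^ 2))) (𝓝[>] 0)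
      (𝓝 (g y * Real.pi)) := by
  have hc : Continuous fun s : ℝ => √(1 - s ^ 2) := by fun_prop
  have hi : Integrable fun s : ℝ => √(1 - s ^ 2) :=
    (integrableOn_iff_integrable_of_support_subset semi_supp).1
      (hc.integrableOn_Icc.mono_set Ioc_subset_Icc_self)
  have hv : ∫ s : ℝ, g y * (2 * √(1 - s ^ 2)) = g y * Real.pi := by
    rw [integral_const_mul, integral_const_mul,
      ← intervalIntegral.integral_eq_integral_of_support_subset semi_supp,
      integral_sqrt_one_sub_sq]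
    ring
  rw [← hv]
  refine tendsto_integral_filter_of_dominated_convergence (fun s => M * (2 * √(1 - s ^ 2)))
    (Eventually.of_forall fun ε => Continuous.aestronglyMeasurable (by fun_prop))
    (Eventually.of_forall fun ε => Eventually.of_forall fun s => ?_)
    ((hi.const_mul 2).const_mul M) (Eventually.of_forall fun s => ?_)
  · rw [norm_mul, Real.norm_of_nonneg (by positivity : 0 ≤ 2 * √(1 - s ^ 2))]
    exact mul_le_mul_of_nonneg_right (hM _) (by positivity)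
  · have : Continuous fun ε : ℝ => g (y - ε * s) * (2 * √(1 - s ^ 2)) := by fun_prop
    simpa using (this.tendsto 0).mono_left nhdsWithin_le_nhds

end H28Beu
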