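import Mathlib

set_option autoImplicit false

namespace Pool.Agent.H28Bil

open MeasureTheory Filter Topology Metric Pointwise

variable {E : Type} [NormedAddCommGroup E] [InnerProductSpace ℝ E] [FiniteDimensional ℝ E]
  [MeasurableSpace E] [BorelSpace E]

lemma cap (e : E) (he : ‖e‖ = 1) (a : E) (ha : ‖a‖ ≤ 1 / 2) {ρ : ℝ} (hρ : 0 < ρ) (hρ1 : ρ ≤ 1) :
    volume (ball (0:E) (1 / 8)) * volume (ball (0:E) (ρ / 8)) ≤
      (volume : Measure (WithLp 2 (E × E))).toSphere {w | ‖(w : WithLp 2 (E × E)).fst - a‖ < ρ} := by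
  haveI : Nontrivial E := ⟨⟨e, 0, fun h => by simp [h] at he⟩⟩
  have hs : MeasurableSet {w : sphere (0 : WithLp 2 (E × E)) 1 | ‖(w : WithLp 2 (E × E)).fst - a‖ < ρ} :=
    (isOpen_lt (by fun_prop) continuous_const).measurableSet
  rw [Measure.toSphere_apply' _ hs]
  have hd : (1 : ENNReal) ≤ (Module.finrank ℝ (WithLp 2 (E × E)) : ℕ) := by
    exact_mod_cast Module.finrank_pos
  refine le_trans ?_ (le_mul_of_one_le_left' hd)
  have h1 : 0 < 1 - ‖a‖ ^ 2 := by nlinarith [norm_nonneg a]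
  set κ : ℝ := (√(1 - ‖a‖ ^ 2))⁻¹ with hκ
  have hκ0 : 0 < κ := by positivity
  have hκ1 : κ ^ 2 * (1 - ‖a‖ ^ 2) = 1 := by rw [hκ, inv_pow, Real.sq_sqrt h1.le]; field_simp
  have hκ2 : κ ≤ 6 / 5 := by
    by_contra h
    have h' : 6 / 5 < κ := not_le.1 h
    have : (6 / 5) ^ 2 < κ ^ 2 := by gcongr
    have : 3 / 4 ≤ 1 - ‖a‖ ^ 2 := by nlinarith [norm_nonneg a]
    nlinarith
  set U : Set (E × E) := {p | p.2 ∈ ball ((3 / 8 : ℝ) • e) (1 / 8) ∧
    p.1 ∈ ball ((κ * ‖p.2‖) • a) (ρ / 8)} with hU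
  have hUo : IsOpen U := by
    simp only [hU, mem_ball, Set.ofPred_and]
    exact (isOpen_lt (by fun_prop) continuous_const).inter (isOpen_lt (by fun_prop) continuous_const)
  have h2 : volume U = volume (ball (0:E) (1 / 8)) * volume (ball (0:E) (ρ / 8)) := by
    rw [Measure.volume_eq_prod, Measure.prod_apply_symm hUo.measurableSet]
    have : ∀ v : E, volume ((fun u => (u, v)) ⁻¹' U) =
        (ball ((3 / 8 : ℝ) • e) (1 / 8)).indicator (fun _ => volume (ball (0:E) (ρ / 8))) v := by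
      intro v
      by_cases hv : v ∈ ball ((3 / 8 : ℝ) • e) (1 / 8)
      · rw [Set.indicator_of_mem hv, ← Measure.addHaar_ball_center volume ((κ * ‖v‖) • a)]
        congr 1
        ext u
        simp only [hU, Set.mem_preimage, Set.mem_ofPred_eq, hv, true_and]
      · rw [Set.indicator_of_notMem hv]
        have : (fun u => (u, v)) ⁻¹' U = ∅ := by
          ext u
          simp only [hU, Set.mem_preimage, Set.mem_ofPred_eq, hv, false_and, Set.mem_empty_iff_false]
        rw [this, measure_empty]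
    simp only [this]
    rw [lintegral_indicator_const measurableSet_ball, mul_comm,
      Measure.addHaar_ball_center volume ((3 / 8 : ℝ) • e)]
  rw [← h2, ← (WithLp.volume_preserving_ofLp E E).measure_preimage hUo.measurableSet.nullMeasurableSet]
  refine measure_mono fun w hw => ?_
  obtain ⟨hv, hu⟩ := hw
  change w.snd ∈ ball ((3 / 8 : ℝ) • e) (1 / 8) at hv
  change w.fst ∈ ball ((κ * ‖w.snd‖) • a) (ρ / 8) at hu
  rw [mem_ball_iff_norm] at hv hu
  have n1 : ‖(3 / 8 : ℝ) • e‖ = 3 / 8 := by rw [norm_smul, he]; norm_num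
  have v1 := abs_lt.1 ((abs_norm_sub_norm_le _ _).trans_lt hv)
  rw [n1] at v1
  set w0 : WithLp 2 (E × E) := WithLp.toLp 2 ((κ * ‖w.snd‖) • a, w.snd) with hw0
  have n2 : ‖w0‖ = κ * ‖w.snd‖ := by
    rw [← sq_eq_sq₀ (norm_nonneg _) (by positivity), WithLp.prod_norm_sq_eq_of_L2]
    change ‖(κ * ‖w.snd‖) • a‖ ^ 2 + ‖w.snd‖ ^ 2 = _
    rw [norm_smul, Real.norm_of_nonneg (by positivity)]
    linear_combination (-‖w.snd‖ ^ 2) * hκ1
  have n3 : ‖w - w0‖ = ‖w.fst - (κ * ‖w.snd‖) • a‖ := by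
    rw [← sq_eq_sq₀ (norm_nonneg _) (norm_nonneg _), WithLp.prod_norm_sq_eq_of_L2]
    simp [hw0]
  have n4 := abs_norm_sub_norm_le w w0
  rw [n2, n3] at n4
  have n5 : ‖w.snd‖ ≤ ‖w‖ := WithLp.norm_snd_le (p := 2) _ w
  have w1 : 1 / 4 < ‖w‖ := by linarith [v1.1]
  have w0' : 0 < ‖w‖ := by linarith
  have w2 : ‖w‖ < 1 := by
    have := (abs_le.1 n4).2
    have : κ * ‖w.snd‖ ≤ 6 / 5 * (1 / 2) := mul_le_mul hκ2 (by linarith [v1.2]) (norm_nonneg _) (by norm_num)
    linarith
  refine ⟨‖w‖, ⟨w0', w2⟩, ‖w‖⁻¹ • w, ⟨⟨‖w‖⁻¹ • w, by simp [norm_smul, w0'.ne']⟩, ?_, rfl⟩,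
    by simp [smul_smul, w0'.ne']⟩
  change ‖‖w‖⁻¹ • w.fst - a‖ < ρ
  have e1 : ‖w‖⁻¹ • w.fst - a = ‖w‖⁻¹ • ((w.fst - (κ * ‖w.snd‖) • a) - (‖w‖ - κ * ‖w.snd‖) • a) := by
    rw [sub_smul, sub_sub, add_sub_cancel, smul_sub, smul_smul, inv_mul_cancel₀ w0'.ne', one_smul]
  rw [e1, norm_smul, norm_inv, norm_norm, inv_mul_lt_iff₀ w0']
  refine (norm_sub_le _ _).trans_lt ?_
  rw [norm_smul, Real.norm_eq_abs]
  have : |‖w‖ - κ * ‖w.snd‖| * ‖a‖ ≤ ρ / 8 * (1 / 2) :=
    mul_le_mul (n4.trans hu.le) ha (norm_nonneg _) (by positivity)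
  nlinarith

noncomputable def bump (R : ℝ) (hR : 0 < R) : ContDiffBump (0:E) := ⟨R, 2 * R, hR, by linarith⟩

lemma bump_norm {R : ℝ} (hR : 0 < R) {q : ℝ} (hq : 0 < q) :
    eLpNorm (bump (E := E) R hR) (ENNReal.ofReal q) volume ≤
      ENNReal.ofReal (((2 * R) ^ Module.finrank ℝ E * volume.real (ball (0:E) 1)) ^ (1 / q)) := by
  have h1 : eLpNorm (bump (E := E) R hR) (ENNReal.ofReal q) volume ≤
      eLpNorm ((ball (0:E) (2 * R)).indicator fun _ => (1:ℝ)) (ENNReal.ofReal q) volume := by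
    refine eLpNorm_mono fun x => ?_
    by_cases hx : x ∈ ball (0:E) (2 * R)
    · rw [Set.indicator_of_mem hx, Real.norm_of_nonneg (bump R hR).nonneg, norm_one]
      exact (bump R hR).le_one
    · rw [Set.indicator_of_notMem hx, (bump R hR).zero_of_le_dist (not_lt.1 hx)]
  refine h1.trans (le_of_eq ?_)
  rw [eLpNorm_indicator_const measurableSet_ball (by simpa using hq) ENNReal.ofReal_ne_top,
    ENNReal.toReal_ofReal hq.le, Measure.addHaar_ball_of_pos _ _ (by positivity : 0 < 2 * R),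
    ← ENNReal.ofReal_rpow_of_nonneg (by positivity) (by positivity),
    ENNReal.ofReal_mul (by positivity), ofReal_measureReal measure_ball_lt_top.ne]
  simp

noncomputable def gg (q : ℝ) (L : ℕ) (z : E) : ℝ := ∑ l ∈ Finset.range L,
  (((2:ℝ) ^ l) ^ Module.finrank ℝ E) ^ (-(1 / q)) * bump (E := E) (2 * 2 ^ l) (by positivity) z

lemma gg_norm {q : ℝ} (hq : 1 ≤ q) (L : ℕ) : eLpNorm (gg (E := E) q L) (ENNReal.ofReal q) volume ≤
    ENNReal.ofReal (L * (4 ^ Module.finrank ℝ E * volume.real (ball (0:E) 1)) ^ (1 / q)) := by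
  have e1 : gg (E := E) q L = ∑ l ∈ Finset.range L,
      (((2:ℝ) ^ l) ^ Module.finrank ℝ E) ^ (-(1 / q)) • (bump (E := E) (2 * 2 ^ l) (by positivity) : E → ℝ) := by
    funext z; simp [gg]
  rw [e1]
  refine (eLpNorm_sum_le (fun l _ => (Continuous.aestronglyMeasurable
    ((bump _ _).continuous.const_smul _))) (by simpa using hq)).trans ?_
  rw [ENNReal.ofReal_mul (by positivity), ENNReal.ofReal_natCast, ← nsmul_eq_mul]
  conv_rhs => rw [← Finset.card_range L]
  refine Finset.sum_le_card_nsmul _ _ _ fun l _ => ?_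
  rw [eLpNorm_const_smul, Real.enorm_of_nonneg (by positivity)]
  refine (mul_le_mul_right (bump_norm _ (by linarith)) _).trans (le_of_eq ?_)
  rw [← ENNReal.ofReal_mul (by positivity)]
  congr 1
  have : (2 * (2 * 2 ^ l) : ℝ) ^ Module.finrank ℝ E * volume.real (ball (0:E) 1) =
      (2 ^ l) ^ Module.finrank ℝ E * (4 ^ Module.finrank ℝ E * volume.real (ball (0:E) 1)) := by
    rw [← mul_assoc, ← mul_assoc, ← mul_pow]; congr 2; ring
  rw [this, Real.mul_rpow (by positivity) (by positivity), Real.rpow_neg (by positivity),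
    inv_mul_cancel_left₀ (by positivity)]

noncomputable def sig (E : Type) [NormedAddCommGroup E] [InnerProductSpace ℝ E] [FiniteDimensional ℝ E]
    [MeasurableSpace E] [BorelSpace E] : Measure (sphere (0 : WithLp 2 (E × E)) 1) :=
  ((volume : Measure (WithLp 2 (E × E))).toSphere Set.univ)⁻¹ •
    (volume : Measure (WithLp 2 (E × E))).toSphere

lemma lower (e : E) (he : ‖e‖ = 1) : ∃ c : ℝ, 0 < c ∧ ∀ (q : ℝ) (L l : ℕ), l < L →
    ∀ x ∈ ball (((3 / 8 : ℝ) * 2 ^ l) • e) (2 ^ l / 8),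
      (((2:ℝ) ^ l) ^ Module.finrank ℝ E) ^ (-(1 / q)) * (c * (((2:ℝ) ^ l) ^ Module.finrank ℝ E)⁻¹) ≤
      ∫ w : sphere (0 : WithLp 2 (E × E)) 1, bump (E := E) 1 one_pos (x - (2:ℝ) ^ (l:ℤ) • w.1.fst) *
        gg q L (x - (2:ℝ) ^ (l:ℤ) • w.1.snd) ∂(sig E) := by
  haveI : Nontrivial E := ⟨⟨e, 0, fun h => by simp [h] at he⟩⟩
  set n := Module.finrank ℝ E with hn
  set V := volume.real (ball (0:E) 1) with hV
  have hV0 : 0 < V := ENNReal.toReal_pos (measure_ball_pos _ _ one_pos).ne' measure_ball_lt_top.ne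
  set τ := (volume : Measure (WithLp 2 (E × E))).toSphere with hτ
  have hS0 : τ Set.univ ≠ 0 := by
    rw [Ne, Measure.measure_univ_eq_zero]; exact Measure.toSphere_ne_zero _
  have hS : 0 < (τ Set.univ).toReal := ENNReal.toReal_pos hS0 (measure_ne_top _ _)
  haveI : IsFiniteMeasure (sig E) := Measure.smul_finite _ (ENNReal.inv_ne_top.2 hS0)
  refine ⟨((τ Set.univ).toReal)⁻¹ * ((1 / 8) ^ n * V * ((1 / 8) ^ n * V)), by positivity,
    fun q L l hl x hx => ?_⟩
  rw [zpow_natCast]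
  set t : ℝ := 2 ^ l with ht
  have ht1 : 1 ≤ t := one_le_pow₀ (by norm_num)
  have ht0 : 0 < t := by linarith
  have hxn : ‖x‖ ≤ t / 2 := by
    rw [mem_ball_iff_norm] at hx
    have := (abs_lt.1 ((abs_norm_sub_norm_le _ _).trans_lt hx)).2
    rw [norm_smul, he, Real.norm_of_nonneg (by positivity)] at this
    linarith
  have h1 := cap e he (t⁻¹ • x) (by
    rw [norm_smul, norm_inv, Real.norm_of_nonneg ht0.le, inv_mul_le_iff₀ ht0]; linarith)
    (inv_pos.2 ht0) (inv_le_one_of_one_le₀ ht1)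
  set s : Set (sphere (0 : WithLp 2 (E × E)) 1) := {w | ‖w.1.fst - t⁻¹ • x‖ < t⁻¹} with hs
  have hsm : MeasurableSet s := (isOpen_lt (by fun_prop) continuous_const).measurableSet
  have h2 : ((τ Set.univ).toReal)⁻¹ * ((1 / 8) ^ n * V * ((1 / 8) ^ n * V)) * (t ^ n)⁻¹ ≤
      (sig E).real s := by
    have h3 := ENNReal.toReal_mono (measure_ne_top _ _) h1
    rw [Measure.addHaar_ball_of_pos _ _ (by norm_num : (0:ℝ) < 1 / 8),
      Measure.addHaar_ball_of_pos _ _ (by positivity : (0:ℝ) < t⁻¹ / 8)] at h3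
    simp only [ENNReal.toReal_mul] at h3
    rw [ENNReal.toReal_ofReal (by positivity), ENNReal.toReal_ofReal (by positivity)] at h3
    change (1 / 8) ^ n * V * ((t⁻¹ / 8) ^ n * V) ≤ _ at h3
    rw [sig, Measure.real, Measure.smul_apply, smul_eq_mul, ENNReal.toReal_mul, ENNReal.toReal_inv,
      mul_assoc]
    refine mul_le_mul_of_nonneg_left (le_trans (le_of_eq ?_) h3) (by positivity)
    rw [div_eq_mul_inv t⁻¹, mul_pow, inv_pow, one_div]
    ring
  have hg0 : ∀ z : E, 0 ≤ gg q L z := fun z => Finset.sum_nonneg fun i _ =>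
    mul_nonneg (by positivity) (bump _ _).nonneg
  have hgc : Continuous (gg (E := E) q L) := continuous_finsetSum _ fun i _ =>
    continuous_const.mul (bump _ _).continuous
  have hfc : Continuous (bump (E := E) 1 one_pos) := (bump _ _).continuous
  have hc : Continuous fun w : sphere (0 : WithLp 2 (E × E)) 1 =>
      bump (E := E) 1 one_pos (x - t • w.1.fst) * gg q L (x - t • w.1.snd) := by fun_prop
  have hi := hc.integrable_of_hasCompactSupport (μ := sig E) (HasCompactSupport.of_compactSpace _)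
  refine le_trans ?_ (setIntegral_le_integral (s := s) hi
    (Eventually.of_forall fun w => mul_nonneg (bump _ _).nonneg (hg0 _)))
  refine (mul_le_mul_of_nonneg_left h2 (by positivity)).trans ?_
  rw [mul_comm, ← smul_eq_mul]
  refine setIntegral_ge_of_const_le hsm (measure_ne_top _ _) (fun w hw => ?_) hi.integrableOn
  have a1 : bump (E := E) 1 one_pos (x - t • w.1.fst) = 1 := by
    refine (bump 1 one_pos).one_of_mem_closedBall ?_
    rw [mem_closedBall_zero_iff]
    have : x - t • w.1.fst = -t • (w.1.fst - t⁻¹ • x) := by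
      rw [smul_sub, smul_smul, neg_mul, mul_inv_cancel₀ ht0.ne', neg_smul, neg_smul, one_smul]; abel
    rw [this, norm_smul, norm_neg, Real.norm_of_nonneg ht0.le]
    have hw' : ‖w.1.fst - t⁻¹ • x‖ < t⁻¹ := hw
    exact (mul_le_mul_of_nonneg_left hw'.le ht0.le).trans (le_of_eq (mul_inv_cancel₀ ht0.ne'))
  have a2 : bump (E := E) (2 * 2 ^ l) (by positivity) (x - t • w.1.snd) = 1 := by
    refine (bump _ _).one_of_mem_closedBall ?_
    rw [mem_closedBall_zero_iff]
    refine (norm_sub_le _ _).trans ?_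
    rw [norm_smul, Real.norm_of_nonneg ht0.le]
    have b1 : ‖w.1.snd‖ ≤ 1 := (WithLp.norm_snd_le (p := 2) _ w.1).trans (by simp)
    show _ ≤ 2 * t
    nlinarith
  rw [a1, one_mul]
  refine le_trans (le_of_eq ?_) (Finset.single_le_sum (f := fun l : ℕ =>
    (((2:ℝ) ^ l) ^ n) ^ (-(1 / q)) * bump (E := E) (2 * 2 ^ l) (by positivity) (x - t • w.1.snd))
    (fun i _ => mul_nonneg (by positivity) (bump _ _).nonneg) (Finset.mem_range.2 hl))
  rw [a2, mul_one]

theorem main (e : E) (he : ‖e‖ = 1) (q : ℝ) (hq : 1 ≤ q) :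
    ¬ ∃ C : NNReal, ∀ f g : E → ℝ, ContDiff ℝ (⊤ : ℕ∞) f → HasCompactSupport f →
      ContDiff ℝ (⊤ : ℕ∞) g → HasCompactSupport g →
      (∫⁻ x, (⨆ l : ℤ, ‖∫ w : sphere (0 : WithLp 2 (E × E)) 1,
        f (x - (2:ℝ) ^ l • w.1.fst) * g (x - (2:ℝ) ^ l • w.1.snd) ∂(sig E)‖ₑ) ^ (q / (q + 1))) ^
          ((q + 1) / q) ≤ C * eLpNorm f 1 volume * eLpNorm g (ENNReal.ofReal q) volume := by
  rintro ⟨C, hC⟩
  obtain ⟨c, hc, hl⟩ := lower e he
  set n := Module.finrank ℝ E with hn
  set V := volume.real (ball (0:E) 1) with hV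
  have hV0 : 0 < V := ENNReal.toReal_pos (measure_ball_pos _ _ one_pos).ne' measure_ball_lt_top.ne
  have hq0 : 0 < q := by linarith
  set c1 : ℝ := c ^ (q / (q + 1)) * ((1 / 8) ^ n * V) with hc1
  have hc10 : 0 < c1 := by positivity
  set K : ℝ := C * ((2 * 1) ^ n * V) ^ ((1:ℝ) / 1) * (4 ^ n * V) ^ (1 / q) with hK
  have key : ∀ L : ℕ, (L * c1) ^ ((q + 1) / q) ≤ L * K := by
    intro L
    have h1 := hC (bump (E := E) 1 one_pos : E → ℝ) (gg q L) (bump (E := E) 1 one_pos).contDiff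
      (bump (E := E) 1 one_pos).hasCompactSupport
      (ContDiff.sum fun i _ => contDiff_const.mul (bump _ _).contDiff) (by
        have : gg (E := E) q L = ∑ l ∈ Finset.range L, fun z => (((2:ℝ) ^ l) ^ n) ^ (-(1 / q)) *
          bump (E := E) (2 * 2 ^ l) (by positivity) z := by funext z; simp [gg, hn]
        rw [this]
        exact Finset.sum_induction _ HasCompactSupport (fun a b => HasCompactSupport.add)
          HasCompactSupport.zero fun i _ => (bump _ _).hasCompactSupport.mul_left)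
    have h2 := bump_norm (E := E) one_pos one_pos
    rw [ENNReal.ofReal_one] at h2
    have h3 := h1.trans (mul_le_mul' (mul_le_mul_right h2 _) (gg_norm hq L))
    rw [← ENNReal.ofReal_coe_nnreal, ← ENNReal.ofReal_mul (by positivity),
      ← ENNReal.ofReal_mul (by positivity)] at h3
    have h4 : ENNReal.ofReal (L * c1) ≤ ∫⁻ x, (⨆ l : ℤ, ‖∫ w : sphere (0 : WithLp 2 (E × E)) 1,
        bump (E := E) 1 one_pos (x - (2:ℝ) ^ l • w.1.fst) * gg q L (x - (2:ℝ) ^ l • w.1.snd)
          ∂(sig E)‖ₑ) ^ (q / (q + 1)) := by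
      refine le_trans ?_ (setLIntegral_le_lintegral
        (⋃ l ∈ Finset.range L, ball (((3 / 8 : ℝ) * 2 ^ l) • e) (2 ^ l / 8)) _)
      rw [lintegral_biUnion_finset _ (fun _ _ => measurableSet_ball), ENNReal.ofReal_mul (by positivity),
        ENNReal.ofReal_natCast, ← nsmul_eq_mul]
      · conv_lhs => rw [← Finset.card_range L]
        refine Finset.card_nsmul_le_sum _ _ _ fun l hl' => ?_
        set T : ℝ := ((2:ℝ) ^ l) ^ n with hT
        have hT0 : 0 < T := by positivity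
        refine le_trans (le_of_eq ?_) (setLIntegral_mono' (f := fun _ =>
          ENNReal.ofReal (c ^ (q / (q + 1)) * T⁻¹)) measurableSet_ball fun x hx => ?_)
        · rw [setLIntegral_const, Measure.addHaar_ball_of_pos _ _ (by positivity),
            ← ofReal_measureReal measure_ball_lt_top.ne, ← ENNReal.ofReal_mul (by positivity),
            ← ENNReal.ofReal_mul (by positivity)]
          congr 1
          rw [hc1, div_pow (2 ^ l : ℝ), ← hT, ← hV, one_div, inv_pow, ← hn]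
          field_simp
        · have e1 : c ^ (q / (q + 1)) * T⁻¹ = (T ^ (-(1 / q)) * (c * T⁻¹)) ^ (q / (q + 1)) := by
            rw [mul_left_comm, Real.mul_rpow hc.le (by positivity), ← Real.rpow_neg_one,
              ← Real.rpow_add hT0, ← Real.rpow_mul hT0.le]
            congr 2
            field_simp
            ring
          rw [e1, ← ENNReal.ofReal_rpow_of_nonneg (by positivity) (by positivity)]
          refine ENNReal.rpow_le_rpow (le_iSup_of_le (l:ℤ) ?_) (by positivity)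
          exact (ENNReal.ofReal_le_ofReal (hl q L l (Finset.mem_range.1 hl') x hx)).trans
            (Real.ofReal_le_enorm _)
      · have hb : ∀ (l : ℕ) (x : E), x ∈ ball (((3 / 8 : ℝ) * 2 ^ l) • e) (2 ^ l / 8) →
            2 ^ l / 4 < ‖x‖ ∧ ‖x‖ < 2 ^ l / 2 := by
          intro l x hx
          rw [mem_ball_iff_norm] at hx
          have := abs_lt.1 ((abs_norm_sub_norm_le _ _).trans_lt hx)
          rw [norm_smul, he, Real.norm_of_nonneg (by positivity)] at this
          constructor <;> linarith [this.1, this.2]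
        have hd : ∀ a b : ℕ, a < b → ∀ x : E, ‖x‖ < 2 ^ a / 2 → 2 ^ b / 4 < ‖x‖ → False := by
          intro a b hab x h1 h2
          have : (2:ℝ) ^ (a + 1) ≤ 2 ^ b := pow_le_pow_right₀ (by norm_num) hab
          rw [pow_succ] at this
          linarith
        intro a _ b _ hab
        refine Set.disjoint_left.2 fun x ha hb' => ?_
        rcases lt_or_gt_of_ne hab with h | h
        · exact hd a b h x (hb a x ha).2 (hb b x hb').1
        · exact hd b a h x (hb b x hb').2 (hb a x ha).1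
    have h5 := (ENNReal.rpow_le_rpow h4 (by positivity : 0 ≤ (q + 1) / q)).trans h3
    rw [ENNReal.ofReal_rpow_of_nonneg (by positivity) (by positivity),
      ENNReal.ofReal_le_ofReal_iff (by positivity)] at h5
    refine h5.trans (le_of_eq ?_)
    rw [hK]; ring
  have ht : Tendsto (fun L : ℕ => (L * c1) ^ (1 / q)) atTop atTop :=
    (tendsto_rpow_atTop (by positivity)).comp (tendsto_natCast_atTop_atTop.atTop_mul_const hc10)
  obtain ⟨L, h1, h2⟩ := ((ht.eventually_gt_atTop (K / c1)).and (eventually_gt_atTop 0)).exists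
  have h3 := key L
  have hL : (0:ℝ) < L := by exact_mod_cast h2
  rw [show (q + 1) / q = 1 + 1 / q by field_simp, Real.rpow_add (by positivity), Real.rpow_one] at h3
  rw [div_lt_iff₀ hc10] at h1
  nlinarith

end Pool.Agent.H28Bil
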