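import Mathlib

set_option autoImplicit false

namespace Pool.Agent.H28Bl

open Polynomial Filter Topology

def NN (p : ℝ[X]) : Prop := ∀ n, 0 ≤ p.coeff n

lemma NN.add {p q : ℝ[X]} (hp : NN p) (hq : NN q) : NN (p + q) := fun n => by
  rw [coeff_add]; exact add_nonneg (hp n) (hq n)

lemma NN.smul {p : ℝ[X]} (hp : NN p) {a : ℝ} (ha : 0 ≤ a) : NN (C a * p) := fun n => by
  rw [coeff_C_mul]; exact mul_nonneg ha (hp n)

lemma NN.shift {p : ℝ[X]} (hp : NN p) (s : ℕ) : NN (X ^ s * p) := fun n => by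
  rw [coeff_X_pow_mul']; split_ifs
  · exact hp _
  · exact le_rfl

lemma NN.deriv {p : ℝ[X]} (hp : NN p) : NN (derivative p) := fun n => by
  rw [coeff_derivative]; exact mul_nonneg (hp _) (by positivity)

lemma NN.partial_le {p : ℝ[X]} (hp : NN p) {ρ : ℝ} (h : 0 ≤ ρ) (N : ℕ) :
    ∑ n ∈ Finset.range N, p.coeff n * ρ ^ n ≤ p.eval ρ := by
  rw [eval_eq_sum_range' (n := N + p.natDegree + 1) (by omega)]
  exact Finset.sum_le_sum_of_subset_of_nonneg (Finset.range_subset_range.2 (by omega))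
    fun i _ _ => mul_nonneg (hp i) (by positivity)

lemma NN.eval_nonneg {p : ℝ[X]} (hp : NN p) {ρ : ℝ} (h : 0 ≤ ρ) : 0 ≤ p.eval ρ := by
  simpa using hp.partial_le h 0

lemma NN.eval_le {p : ℝ[X]} (hp : NN p) {ρ : ℝ} (h : 0 ≤ ρ) (h1 : ρ ≤ 1) : p.eval ρ ≤ p.eval 1 := by
  rw [eval_eq_sum_range, eval_eq_sum_range]
  exact Finset.sum_le_sum fun i _ => mul_le_mul_of_nonneg_left (pow_le_pow_left₀ h h1 i) (hp i)

noncomputable def En (p : ℝ[X]) : ℝ := ∑' n, p.coeff n ^ 2

lemma En_s (p : ℝ[X]) : Summable fun n => p.coeff n ^ 2 :=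
  summable_of_ne_finset_zero (s := p.support) fun n hn => by rw [notMem_support_iff.1 hn]; simp

lemma En_add {p q : ℝ[X]} (hp : NN p) (hq : NN q) : En p + En q ≤ En (p + q) := by
  unfold En
  rw [← (En_s p).tsum_add (En_s q)]
  refine ((En_s p).add (En_s q)).tsum_le_tsum (fun n => ?_) (En_s _)
  rw [coeff_add]; nlinarith [mul_nonneg (hp n) (hq n)]

lemma En_smul (a : ℝ) (p : ℝ[X]) : En (C a * p) = a ^ 2 * En p := by
  unfold En
  simp only [coeff_C_mul, mul_pow]
  exact tsum_mul_left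

lemma En_shift (s : ℕ) (p : ℝ[X]) : En p ≤ En (X ^ s * p) := by
  unfold En
  rw [← (En_s (X ^ s * p)).sum_add_tsum_nat_add s]
  simp only [coeff_X_pow_mul]
  exact le_add_of_nonneg_left (Finset.sum_nonneg fun i _ => sq_nonneg _)

def Bl (p : ℝ[X]) : Prop :=
  ∃ δ > 0, ∀ ρ : ℝ, 0 ≤ ρ → ρ ≤ 1 → (1 - ρ) * (derivative p).eval ρ ≤ 4 - δ

lemma geom (ρ : ℝ) (h : 0 ≤ ρ) (h1 : ρ ≤ 1) (t : ℕ) : (1 - ρ) * ((t + 1) * ρ ^ t) ≤ 1 := by
  have a1 := mul_neg_geom_sum ρ (t + 1)
  have a2 : (Finset.range (t + 1)).card • ρ ^ t ≤ ∑ i ∈ Finset.range (t + 1), ρ ^ i :=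
    Finset.card_nsmul_le_sum _ _ _ fun i hi =>
      pow_le_pow_of_le_one h h1 (Nat.lt_succ_iff.1 (Finset.mem_range.1 hi))
  rw [Finset.card_range, nsmul_eq_mul] at a2
  push_cast at a2
  have := mul_le_mul_of_nonneg_left a2 (sub_nonneg.2 h1)
  have : 0 ≤ ρ ^ (t + 1) := by positivity
  linarith

lemma Bl.step {p K : ℝ[X]} (hp : NN p) (hK : NN K) (h1 : K.eval 1 ≤ 1) (h : Bl p) :
    ∀ᶠ t : ℕ in atTop, Bl (p + X ^ (t + 1) * K) := by
  obtain ⟨δ, hδ, h⟩ := h
  set A := (derivative p).eval 1 with hA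
  set B := (derivative K).eval 1 with hB
  have hA0 : 0 ≤ A := hp.deriv.eval_nonneg zero_le_one
  have hB0 : 0 ≤ B := hK.deriv.eval_nonneg zero_le_one
  set η : ℝ := 1 / (A + B + 1) with hη
  have hη0 : 0 < η := by positivity
  have hη1 : η * (A + B + 1) = 1 := by rw [hη]; field_simp
  have hη2 : η ≤ 1 := by nlinarith
  have t1 := tendsto_self_mul_const_pow_of_lt_one (r := 1 - η) (by linarith) (by linarith)
  have t2 := tendsto_pow_atTop_nhds_zero_of_lt_one (r := 1 - η) (by linarith) (by linarith)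
  have t3 := (t1.add t2).add (t2.mul_const B)
  simp only [add_zero, zero_mul] at t3
  filter_upwards [t3.eventually (gt_mem_nhds (half_pos hδ))] with t ht
  refine ⟨min (δ / 2) 1, by positivity, fun ρ r0 r1 => ?_⟩
  have e : (derivative (p + X ^ (t + 1) * K)).eval ρ = (derivative p).eval ρ +
      ((t + 1) * ρ ^ t * K.eval ρ + ρ ^ t * ρ * (derivative K).eval ρ) := by
    rw [derivative_add, derivative_mul, derivative_X_pow]
    simp only [eval_add, eval_mul, eval_pow, eval_X, eval_C, Nat.add_sub_cancel]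
    push_cast; ring
  rw [e]
  have k0 := hK.eval_nonneg r0
  have k1 := (hK.eval_le r0 r1).trans h1
  have k2 := hK.deriv.eval_nonneg r0
  have k3 := hK.deriv.eval_le r0 r1
  have k4 := hp.deriv.eval_le r0 r1
  have k5 := hp.deriv.eval_nonneg r0
  have q0 : 0 ≤ ρ ^ t := by positivity
  have q1 : ρ ^ t ≤ 1 := pow_le_one₀ r0 r1
  have u1 : (t + 1) * ρ ^ t * K.eval ρ ≤ (t + 1) * ρ ^ t := mul_le_of_le_one_right (by positivity) k1
  have u2 : ρ ^ t * ρ * (derivative K).eval ρ ≤ ρ ^ t * B := by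
    rw [mul_assoc]
    exact mul_le_mul_of_nonneg_left (by nlinarith) q0
  have m1 := min_le_left (δ / 2) 1
  have m2 := min_le_right (δ / 2) 1
  by_cases c : ρ ≤ 1 - η
  · have q2 : ρ ^ t ≤ (1 - η) ^ t := pow_le_pow_left₀ r0 c t
    have u3 : ((t:ℝ) + 1) * ρ ^ t ≤ (t + 1) * (1 - η) ^ t := by gcongr
    have u4 : ρ ^ t * B ≤ (1 - η) ^ t * B := by gcongr
    have u5 : (1 - ρ) * ((t + 1) * ρ ^ t * K.eval ρ + ρ ^ t * ρ * (derivative K).eval ρ) ≤
        (t + 1) * ρ ^ t * K.eval ρ + ρ ^ t * ρ * (derivative K).eval ρ :=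
      mul_le_of_le_one_left (by positivity) (by linarith)
    have := h ρ r0 r1
    nlinarith
  · have c' : 1 - ρ ≤ η := by linarith
    have g := geom ρ r0 r1 t
    have v1 := mul_le_mul_of_nonneg_left u1 (sub_nonneg.2 r1)
    have v2 : (1 - ρ) * (ρ ^ t * ρ * (derivative K).eval ρ) ≤ η * B :=
      mul_le_mul c' (u2.trans (mul_le_of_le_one_left hB0 q1)) (by positivity) hη0.le
    have v3 : (1 - ρ) * (derivative p).eval ρ ≤ η * A := mul_le_mul c' k4 k5 hη0.le
    nlinarith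

lemma exW {p : ℝ[X]} (hp : NN p) (h0 : p.coeff 0 = 1) : ∃ (d : ℕ) (W : ℝ[X]), NN W ∧ 1 ≤ En W ∧
    W.eval 1 = p.eval 1 ∧ ∀ z : ℂ, ‖z‖ = 1 → aeval z W = z ^ d * ((aeval z p).re : ℂ) := by
  have hr : NN (reflect p.natDegree p) := fun n => by rw [coeff_reflect]; exact hp _
  have key : ∀ z : ℂ, ‖z‖ = 1 → aeval z (C (1 / 2) * (X ^ p.natDegree * p + reflect p.natDegree p)) =
      z ^ p.natDegree * ((aeval z p).re : ℂ) := by
    intro z hz
    have hz0 : (starRingEnd ℂ) z ≠ 0 := by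
      rw [_root_.map_ne_zero]; rintro rfl; simp at hz
    haveI := invertibleOfNonzero hz0
    have h1 := eval₂_reflect_mul_pow (algebraMap ℝ ℂ) ((starRingEnd ℂ) z) p.natDegree p le_rfl
    have hzz : z * (starRingEnd ℂ) z = 1 := by rw [Complex.mul_conj', hz]; simp
    have h2 : ⅟((starRingEnd ℂ) z) = z := invOf_eq_left_inv hzz
    rw [h2, ← aeval_def, ← aeval_def, aeval_conj] at h1
    rw [Complex.re_eq_add_conj, ← h1]
    simp only [map_mul, map_add, map_pow, aeval_X, aeval_C]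
    have h3 : z ^ p.natDegree * (starRingEnd ℂ) z ^ p.natDegree = 1 := by rw [← mul_pow, hzz, one_pow]
    simp only [Complex.coe_algebraMap, Complex.ofReal_div, Complex.ofReal_one, Complex.ofReal_ofNat]
    linear_combination (-(aeval z) (reflect p.natDegree p) / 2) * h3
  refine ⟨p.natDegree, _, ((hp.shift _).add hr).smul (by norm_num), ?_, ?_, key⟩
  · refine le_trans ?_ ((En_s _).le_tsum p.natDegree fun j _ => sq_nonneg _)
    have := coeff_X_pow_mul p p.natDegree 0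
    rw [zero_add] at this
    rw [coeff_C_mul, coeff_add, coeff_reflect, revAt_le le_rfl, Nat.sub_self, this, h0]
    norm_num
  · have := key 1 (by simp)
    have e : ∀ q : ℝ[X], aeval (1:ℂ) q = ((q.eval 1 : ℝ) : ℂ) := fun q => by
      simpa using aeval_algebraMap_apply_eq_algebraMap_eval (A := ℂ) (1:ℝ) q
    rw [e, e, one_pow, one_mul, Complex.ofReal_re] at this
    exact_mod_cast this

structure Good (p : ℝ[X]) : Prop where
  nn : NN p
  zero : p.coeff 0 = 1
  bl : Bl p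
  pos : ∀ z : ℂ, ‖z‖ = 1 → 0 ≤ (aeval z p).re

lemma stage {p₀ : ℝ[X]} (h : Good p₀) (N : ℕ) : ∃ p, Good p ∧ En p₀ + 1 / 2 ≤ En p ∧
    (∀ n, p₀.coeff n ≤ p.coeff n) ∧ ∀ n < N, p.coeff n = p₀.coeff n := by
  obtain ⟨d, W, hW, hE, hW1, hWz⟩ := exW h.nn h.zero
  have hS : 1 ≤ p₀.eval 1 := by simpa [h.zero] using h.nn.partial_le zero_le_one 1
  set u := √(p₀.eval 1) with hu
  have hu2 : u ^ 2 = p₀.eval 1 := Real.sq_sqrt (by linarith)
  have hu1 : 1 ≤ u := Real.one_le_sqrt.2 hS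
  set γ : ℕ → ℝ := fun l => 1 / (2 * u * √(l + 1)) with hγ
  have hγ0 : ∀ l, 0 < γ l := fun l => by simp only [hγ]; positivity
  have hγ2 : ∀ l : ℕ, γ l ^ 2 = 1 / (4 * u ^ 2) * (1 / (l + 1)) := fun l => by
    simp only [hγ]
    rw [div_pow, mul_pow, Real.sq_sqrt (by positivity)]; field_simp; ring
  have hγ3 : ∀ l : ℕ, γ l ^ 2 ≤ 1 / 4 := fun l => by
    rw [hγ2]
    have a1 : 1 / (4 * u ^ 2) ≤ 1 / 4 := by gcongr; nlinarith
    have a2 : (1:ℝ) / (l + 1) ≤ 1 := by rw [div_le_one (by positivity)]; linarith [Nat.cast_nonneg (α := ℝ) l]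
    calc 1 / (4 * u ^ 2) * (1 / ((l:ℝ) + 1)) ≤ 1 / 4 * 1 := by gcongr
      _ = _ := by norm_num
  set σ : ℕ → ℝ := fun l => ∑ j ∈ Finset.range l, γ j ^ 2 with hσ
  have inner : ∀ l : ℕ, ∃ (p K : ℝ[X]) (M : ℕ) (G : ℂ → ℂ), NN p ∧ NN K ∧ Bl p ∧
      (∀ z : ℂ, ‖z‖ = 1 → (aeval z p).re = (aeval z p₀).re * (1 - σ l + ‖G z‖ ^ 2) ∧
        aeval z K = z ^ M * ((aeval z p₀).re : ℂ) * (starRingEnd ℂ) (G z)) ∧
      K.eval 1 ≤ u * √l ∧ σ l ≤ En K ∧ En p₀ + (2 * σ l ^ 2 - σ l / 2) ≤ En p ∧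
      (∀ n, p₀.coeff n ≤ p.coeff n) ∧ ∀ n < N + 1, p.coeff n = p₀.coeff n := by
    intro l
    induction l with
    | zero =>
      refine ⟨p₀, 0, 0, fun _ => 0, h.nn, fun n => by simp, h.bl, fun z _ => by simp [hσ], by simp,
        by simp [hσ, En], by simp [hσ], fun _ => le_rfl, fun _ _ => rfl⟩
    | succ l ih =>
      obtain ⟨p, K, M, G, a1, a2, a3, a4, a5, a6, a7, a8, a9⟩ := ih
      have g0 := hγ0 l
      have hK2 : NN (C (2 * γ l) * K) := a2.smul (by positivity)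
      have s1 : √(l:ℝ) ^ 2 = l := Real.sq_sqrt (by positivity)
      have s2 : √((l:ℝ) + 1) ^ 2 = l + 1 := Real.sq_sqrt (by positivity)
      have s3 : 0 < √((l:ℝ) + 1) := by positivity
      have s4 : γ l * (2 * u * √(l + 1)) = 1 := by simp only [hγ]; field_simp
      have s5 : √(l:ℝ) ≤ √(l + 1) := Real.sqrt_le_sqrt (by linarith)
      have hm : (C (2 * γ l) * K).eval 1 ≤ 1 := by
        rw [eval_mul, eval_C]
        calc 2 * γ l * K.eval 1 ≤ 2 * γ l * (u * √(l + 1)) := by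
              refine mul_le_mul_of_nonneg_left (a5.trans ?_) (by positivity); gcongr
          _ = 1 := by linarith
      obtain ⟨t, t1, t2⟩ := ((a3.step a1 hK2 hm).and (eventually_ge_atTop N)).exists
      have hσ1 : σ (l + 1) = σ l + γ l ^ 2 := Finset.sum_range_succ _ _
      have hσ0 : 0 ≤ σ l := Finset.sum_nonneg fun _ _ => sq_nonneg _
      refine ⟨p + X ^ (t + 1) * (C (2 * γ l) * K), X ^ (t + 1 + d) * K + C (γ l) * W, t + 1 + M + d,
        fun z => G z + γ l * z ^ (t + 1 + M), a1.add (hK2.shift _), (a2.shift _).add (hW.smul g0.le),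
        t1, fun z hz => ⟨?_, ?_⟩, ?_, ?_, ?_, fun n => ?_, fun n hn => ?_⟩
      · obtain ⟨b1, b2⟩ := a4 z hz
        have e1 : aeval z (p + X ^ (t + 1) * (C (2 * γ l) * K)) = aeval z p +
            ((2 * γ l * (aeval z p₀).re : ℝ) : ℂ) * (z ^ (t + 1 + M) * (starRingEnd ℂ) (G z)) := by
          simp only [map_add, map_mul, map_pow, aeval_X, aeval_C, b2, Complex.coe_algebraMap]
          push_cast; ring
        have e2 : ‖z ^ (t + 1 + M)‖ = 1 := by rw [norm_pow, hz, one_pow]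
        rw [e1, Complex.add_re, Complex.re_ofReal_mul, b1, hσ1, ← Complex.normSq_eq_norm_sq (G z + _),
          Complex.normSq_add, Complex.normSq_eq_norm_sq, Complex.normSq_eq_norm_sq, norm_mul, e2,
          Complex.norm_real, Real.norm_of_nonneg g0.le]
        generalize z ^ (t + 1 + M) = w
        simp only [map_mul, Complex.mul_re, Complex.mul_im, Complex.conj_re, Complex.conj_im,
          Complex.ofReal_re, Complex.ofReal_im]
        ring
      · obtain ⟨b1, b2⟩ := a4 z hz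
        have hzz : z * (starRingEnd ℂ) z = 1 := by rw [Complex.mul_conj', hz]; simp
        have h3 : z ^ (t + 1 + M) * (starRingEnd ℂ) z ^ (t + 1 + M) = 1 := by
          rw [← mul_pow, hzz, one_pow]
        simp only [map_add, map_mul, map_pow, aeval_X, aeval_C, b2, hWz z hz, Complex.coe_algebraMap,
          Complex.conj_ofReal]
        linear_combination (-(γ l : ℂ) * z ^ d * ((aeval z p₀).re : ℂ)) * h3
      · simp only [eval_add, eval_mul, eval_pow, eval_X, eval_C, one_pow, one_mul, hW1]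
        push_cast
        rw [← hu2]
        have : γ l * u ^ 2 ≤ u * (√(l + 1) - √l) := by
          refine le_of_mul_le_mul_right ?_ (by positivity : 0 < 2 * √((l:ℝ) + 1))
          have e : γ l * u ^ 2 * (2 * √(l + 1)) = u := by linear_combination u * s4
          rw [e, mul_assoc]
          refine le_mul_of_one_le_right (by linarith) ?_
          nlinarith [sq_nonneg (√((l:ℝ) + 1) - √l)]
        linarith
      · have := En_add (a2.shift (t + 1 + d)) (hW.smul g0.le)
        rw [En_smul] at this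
        have := En_shift (t + 1 + d) K
        nlinarith [sq_nonneg (γ l)]
      · have b1 := En_add a1 (hK2.shift (t + 1))
        have b2 := En_shift (t + 1) (C (2 * γ l) * K)
        rw [En_smul] at b2
        have b3 := hγ3 l
        have b4 : (2 * γ l) ^ 2 * σ l ≤ (2 * γ l) ^ 2 * En K := by gcongr
        rw [hσ1]
        nlinarith [sq_nonneg (γ l)]
      · rw [coeff_add]; linarith [a8 n, hK2.shift (t + 1) n]
      · rw [coeff_add, coeff_X_pow_mul', if_neg (by omega), add_zero, a9 n hn]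
  have hdiv : ∃ l, 3 / 4 ≤ σ l := by
    have := Real.tendsto_sum_range_one_div_nat_succ_atTop.const_mul_atTop
      (show 0 < 1 / (4 * u ^ 2) by positivity)
    obtain ⟨l, hl⟩ := (this.eventually_ge_atTop (3 / 4)).exists
    refine ⟨l, hl.trans (le_of_eq ?_)⟩
    simp only [hσ, hγ2, Finset.mul_sum]
  classical
  have f1 := Nat.find_spec hdiv
  have f2 : σ (Nat.find hdiv) ≤ 1 := by
    rcases h' : Nat.find hdiv with _ | l
    · simp [hσ]
    · have := Nat.find_min hdiv (show l < Nat.find hdiv by omega)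
      have e : σ (l + 1) = σ l + γ l ^ 2 := Finset.sum_range_succ _ _
      linarith [hγ3 l, not_le.1 this]
  obtain ⟨p, K, M, G, a1, a2, a3, a4, a5, a6, a7, a8, a9⟩ := inner (Nat.find hdiv)
  refine ⟨p, ⟨a1, by rw [a9 0 (by omega), h.zero], a3, fun z hz => ?_⟩, by nlinarith, a8,
    fun n hn => a9 n (by omega)⟩
  rw [(a4 z hz).1]
  exact mul_nonneg (h.pos z hz) (by nlinarith [sq_nonneg ‖G z‖])

lemma Good.disc {p : ℝ[X]} (h : Good p) {z : ℂ} (hz : ‖z‖ < 1) : 0 ≤ (aeval z p).re := by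
  have hd : Differentiable ℂ fun w : ℂ => Complex.exp (-aeval w p) :=
    (p.differentiable_aeval).neg.cexp
  have := Complex.norm_le_of_forall_mem_frontier_norm_le (U := Metric.ball (0:ℂ) 1)
    Metric.isBounded_ball hd.diffContOnCl (C := 1) (fun w hw => by
      rw [frontier_ball _ one_ne_zero, mem_sphere_zero_iff_norm] at hw
      rw [Complex.norm_exp, Real.exp_le_one_iff, Complex.neg_re]
      linarith [h.pos w hw]) (subset_closure (mem_ball_zero_iff.2 hz))
  rw [Complex.norm_exp, Real.exp_le_one_iff, Complex.neg_re] at this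
  linarith

lemma seq : ∃ b : ℕ → ℝ, b 0 = 1 ∧ (∀ n, 0 ≤ b n) ∧ ¬ Summable (fun n => b n ^ 2) ∧
    (∀ ρ : ℝ, 0 ≤ ρ → ρ < 1 → ∀ N, ∑ n ∈ Finset.range N, b (n + 1) * (n + 1) * ρ ^ n ≤ 4 / (1 - ρ)) ∧
    ∀ z : ℂ, ‖z‖ < 1 → Summable (fun n => b n * ‖z‖ ^ n) → 0 ≤ (∑' n, (b n : ℂ) * z ^ n).re := by
  have h1 : Good 1 := ⟨fun n => by rw [coeff_one]; split_ifs <;> norm_num, by simp,
    ⟨1, one_pos, fun ρ _ _ => by norm_num⟩, fun z _ => by simp⟩
  choose F hF using fun (p : {p // Good p}) (N : ℕ) => stage p.2 N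
  let P : ℕ → {p // Good p} := fun r => Nat.rec ⟨1, h1⟩ (fun r p => ⟨F p r, (hF p r).1⟩) r
  have hP : ∀ r, (P (r + 1)).1 = F (P r) r := fun r => rfl
  have hmono : ∀ n, Monotone fun r => (P r).1.coeff n := fun n =>
    monotone_nat_of_le_succ fun r => by rw [hP]; exact (hF _ _).2.2.1 n
  have hst : ∀ n r, n + 1 ≤ r → (P r).1.coeff n = (P (n + 1)).1.coeff n := by
    intro n r hr
    induction r, hr using Nat.le_induction with
    | base => rfl
    | succ r hr ih => rw [hP, (hF _ _).2.2.2 n (by omega), ih]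
  have hle : ∀ n r, (P r).1.coeff n ≤ (P (n + 1)).1.coeff n := fun n r => by
    rw [← hst n (r + n + 1) (by omega)]; exact hmono n (show r ≤ r + n + 1 by omega)
  have hEn : ∀ r : ℕ, (r:ℝ) / 2 ≤ En (P r).1 := by
    intro r
    induction r with
    | zero => simpa [En] using tsum_nonneg fun n => sq_nonneg ((P 0).1.coeff n)
    | succ r ih => have := (hF (P r) r).2.1; rw [hP]; push_cast; linarith
  refine ⟨fun n => (P (n + 1)).1.coeff n, (P 1).2.zero, fun n => (P (n + 1)).2.nn n, fun hs => ?_,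
    fun ρ r0 r1 N => ?_, fun z hz hs => ?_⟩
  · obtain ⟨r, hr⟩ := exists_nat_gt (2 * ∑' n, (P (n + 1)).1.coeff n ^ 2)
    have := (En_s (P r).1).tsum_le_tsum (fun n => pow_le_pow_left₀ ((P r).2.nn n) (hle n r) 2) hs
    have := hEn r
    unfold En at this
    linarith
  · obtain ⟨δ, hδ, hb⟩ := (P (N + 1)).2.bl
    have a1 := (P (N + 1)).2.nn.deriv.partial_le r0 N
    have a2 := hb ρ r0 r1.le
    rw [le_div_iff₀ (by linarith)]
    have a3 : ∑ n ∈ Finset.range N, (P (n + 1 + 1)).1.coeff (n + 1) * (n + 1) * ρ ^ n =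
        ∑ n ∈ Finset.range N, (derivative (P (N + 1)).1).coeff n * ρ ^ n :=
      Finset.sum_congr rfl fun n hn => by
        rw [coeff_derivative, hst (n + 1) (N + 1) (by have := Finset.mem_range.1 hn; omega)]
    rw [a3]
    nlinarith
  · have a1 : ∀ r, aeval z (P r).1 = ∑' n, ((P r).1.coeff n : ℂ) * z ^ n := fun r => by
      rw [aeval_eq_sum_range, tsum_eq_sum (s := Finset.range ((P r).1.natDegree + 1))]
      · simp
      · intro n hn
        rw [coeff_eq_zero_of_natDegree_lt (by simpa using hn)]; simp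
    have a2 : Tendsto (fun r => ∑' n, ((P r).1.coeff n : ℂ) * z ^ n) atTop
        (𝓝 (∑' n, ((P (n + 1)).1.coeff n : ℂ) * z ^ n)) := by
      refine tendsto_tsum_of_dominated_convergence hs (fun n => ?_) (Eventually.of_forall fun r n => ?_)
      · refine tendsto_const_nhds.congr' ?_
        filter_upwards [eventually_ge_atTop (n + 1)] with r hr
        rw [hst n r hr]
      · rw [norm_mul, norm_pow, Complex.norm_real, Real.norm_of_nonneg ((P r).2.nn n)]
        exact mul_le_mul_of_nonneg_right (hle n r) (by positivity)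
    refine ge_of_tendsto' ((Complex.continuous_re.tendsto _).comp a2) fun r => ?_
    simp only [Function.comp, ← a1]
    exact (P r).2.disc hz

end Pool.Agent.H28Bl
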