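import Mathlib

/-! Abstract estimates for a kernel that is almost constant on a pair of sets. -/

open MeasureTheory Set Filter Topology

namespace H28Bmo

variable {X : Type*} [MeasurableSpace X] {μ : Measure X}

lemma l0 {S : Set X} (hS : MeasurableSet S) {k : X → ℂ} {K : ℂ} {e : ℝ} {g : X → ℝ}
    (hk : ∀ y ∈ S, ‖k y - K‖ ≤ e * ‖K‖) (hg : IntegrableOn g S μ)
    (hkg : IntegrableOn (fun y => k y * g y) S μ) :
    ‖(∫ y in S, k y * g y ∂μ) - K * ((∫ y in S, g y ∂μ : ℝ) : ℂ)‖
      ≤ e * ‖K‖ * ∫ y in S, |g y| ∂μ := by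
  have h1 : K * ((∫ y in S, g y ∂μ : ℝ) : ℂ) = ∫ y in S, K * (g y : ℂ) ∂μ := by
    rw [integral_const_mul, integral_complex_ofReal]
  have hg' : IntegrableOn (fun y => K * (g y : ℂ)) S μ := (hg.ofReal).const_mul K
  rw [h1, ← integral_sub hkg hg', ← integral_const_mul]
  refine norm_integral_le_of_norm_le (hg.abs.const_mul _) ?_
  filter_upwards [ae_restrict_mem hS] with y hy
  rw [← sub_mul, norm_mul, Complex.norm_real, Real.norm_eq_abs]
  exact mul_le_mul_of_nonneg_right (hk y hy) (abs_nonneg _)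

/-- key pointwise inequality -/
lemma l1 {S : Set X} (hS : MeasurableSet S) (hfin : μ S ≠ ⊤) {k : X → ℂ} {K : ℂ} (hK : K ≠ 0)
    {e : ℝ} (he : 0 ≤ e) {u f : X → ℝ} (hu : ∀ y, 0 < u y) (hui : IntegrableOn u S μ)
    (hf : AEStronglyMeasurable f (μ.restrict S)) (hf1 : ∀ y, |f y| ≤ 1)
    (hk : ∀ y ∈ S, ‖k y - K‖ ≤ e * ‖K‖)
    (h1 : IntegrableOn (fun y => k y * f y) S μ)
    (h2 : IntegrableOn (fun y => k y * ((u y * f y : ℝ) : ℂ)) S μ)
    {v : ℝ} (hv : 0 ≤ v) :
    |(∫ y in S, f y ∂μ) - v * ∫ y in S, u y * f y ∂μ| ≤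
      ‖(∫ y in S, k y * f y ∂μ) - v * ∫ y in S, k y * ((u y * f y : ℝ) : ℂ) ∂μ‖ / ‖K‖
        + e * (μ.real S + v * ∫ y in S, u y ∂μ) := by
  haveI : IsFiniteMeasure (μ.restrict S) := isFiniteMeasure_restrict.2 hfin
  have hfi : IntegrableOn f S μ :=
    Integrable.of_bound hf 1 (Eventually.of_forall fun y => by simpa using hf1 y)
  have hufi : IntegrableOn (fun y => u y * f y) S μ := by
    refine Integrable.mono' hui (hui.1.mul hf) (Eventually.of_forall fun y => ?_)
    rw [Real.norm_eq_abs, abs_mul, abs_of_pos (hu y)]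
    nlinarith [hf1 y, hu y]
  have a1 := l0 hS hk hfi h1
  have a2 := l0 hS hk hufi h2
  have b1 : ∫ y in S, |f y| ∂μ ≤ μ.real S := by
    have : ∫ y in S, |f y| ∂μ ≤ ∫ y in S, (1:ℝ) ∂μ :=
      integral_mono hfi.abs (integrable_const _) hf1
    simpa using this
  have b2 : ∫ y in S, |u y * f y| ∂μ ≤ ∫ y in S, u y ∂μ := by
    refine integral_mono hufi.abs hui fun y => ?_
    show |u y * f y| ≤ u y
    rw [abs_mul, abs_of_pos (hu y)]
    nlinarith [hf1 y, hu y]
  set A := ∫ y in S, k y * f y ∂μ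
  set B := ∫ y in S, k y * ((u y * f y : ℝ) : ℂ) ∂μ
  set I := ∫ y in S, f y ∂μ
  set J := ∫ y in S, u y * f y ∂μ
  have hKp : 0 < ‖K‖ := norm_pos_iff.2 hK
  have key : ‖K‖ * |I - v * J| ≤ ‖A - v * B‖ + ‖A - K * I‖ + v * ‖B - K * J‖ := by
    have e1 : K * ((I - v * J : ℝ) : ℂ) = (A - v * B) - (A - K * I) + v * (B - K * J) := by
      push_cast; ring
    have e2 : ‖K‖ * |I - v * J| = ‖K * ((I - v * J : ℝ) : ℂ)‖ := by
      rw [norm_mul, Complex.norm_real, Real.norm_eq_abs]
    rw [e2, e1]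
    refine (norm_add_le _ _).trans (add_le_add (norm_sub_le _ _) ?_)
    rw [norm_mul, Complex.norm_real, Real.norm_eq_abs, abs_of_nonneg hv]
  have heK : 0 ≤ e * ‖K‖ := by positivity
  have c1 : ‖A - K * I‖ ≤ e * ‖K‖ * μ.real S := a1.trans (mul_le_mul_of_nonneg_left b1 heK)
  have c2 : v * ‖B - K * J‖ ≤ v * (e * ‖K‖ * ∫ y in S, u y ∂μ) :=
    mul_le_mul_of_nonneg_left (a2.trans (mul_le_mul_of_nonneg_left b2 heK)) hv
  rw [div_add' _ _ _ hKp.ne', le_div_iff₀ hKp]
  nlinarith

/-- The hypothesis on a pair of sets. -/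
def Hyp (μ : Measure X) (S T : Set X) (k : X → X → ℂ) (u : X → ℝ) (d : ℝ) : Prop :=
  ∀ f : X → ℝ, AEStronglyMeasurable f (μ.restrict S) → (∀ y, |f y| ≤ 1) →
    ∃ D : X → ℂ, IntegrableOn D T μ ∧ ∫ x in T, ‖D x‖ ∂μ ≤ d ∧
      ∀ᵐ x ∂(μ.restrict T), IntegrableOn (fun y => k x y * f y) S μ ∧
        IntegrableOn (fun y => k x y * ((u y * f y : ℝ) : ℂ)) S μ ∧
        D x = (∫ y in S, k x y * f y ∂μ) - ((u x)⁻¹ : ℝ) * ∫ y in S, k x y * ((u y * f y : ℝ) : ℂ) ∂μ

lemma u_int {S T : Set X} (hS : MeasurableSet S) (hT : MeasurableSet T) (hT0 : μ T ≠ 0)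
    {k : X → X → ℂ} {K : ℂ} (hK : K ≠ 0) {e : ℝ} (he : e ≤ 1 / 2) {u : X → ℝ} {d : ℝ}
    (hum : AEStronglyMeasurable u μ)
    (hk : ∀ x ∈ T, ∀ y ∈ S, ‖k x y - K‖ ≤ e * ‖K‖) (H : Hyp μ S T k u d) :
    IntegrableOn u S μ := by
  obtain ⟨D, -, -, hD⟩ := H (fun _ => 1) aestronglyMeasurable_const (by simp)
  have hne : NeBot (ae (μ.restrict T)) := by
    rw [ae_neBot]; intro h; exact hT0 (by simpa using h)
  obtain ⟨x, hx, hxT⟩ := (hD.and (ae_restrict_mem hT)).exists
  have hKp : 0 < ‖K‖ := norm_pos_iff.2 hK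
  refine Integrable.mono' ((hx.2.1.norm).const_mul (2 / ‖K‖)) hum.restrict ?_
  filter_upwards [ae_restrict_mem hS] with y hy
  have h1 := hk x hxT y hy
  have h2 : ‖K‖ ≤ ‖k x y‖ + ‖k x y - K‖ := by
    have : K = k x y - (k x y - K) := by ring
    calc ‖K‖ = ‖k x y - (k x y - K)‖ := by rw [← this]
      _ ≤ _ := norm_sub_le _ _
  have h3 : ‖K‖ / 2 ≤ ‖k x y‖ := by nlinarith
  rw [norm_mul, Complex.norm_real, mul_one, ← mul_assoc]
  have h4 : 1 ≤ 2 / ‖K‖ * ‖k x y‖ := by
    rw [div_mul_eq_mul_div, le_div_iff₀ hKp]; linarith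
  nlinarith [norm_nonneg (u y)]

lemma pair {S T : Set X} (hS : MeasurableSet S) (hT : MeasurableSet T) {m : ℝ} (hm : 0 < m)
    (hSm : μ S = ENNReal.ofReal m) (hTm : μ T = ENNReal.ofReal m)
    {k : X → X → ℂ} {K : ℂ} {e κ δ : ℝ} (hκ : 0 < κ) (hδ : 0 ≤ δ) (hKm : κ ≤ ‖K‖ * m)
    (he0 : 0 ≤ e) (he : e ≤ 1 / 2) {u : X → ℝ} (hu : ∀ y, 0 < u y)
    (hum : AEStronglyMeasurable u μ)
    (hk : ∀ x ∈ T, ∀ y ∈ S, ‖k x y - K‖ ≤ e * ‖K‖) (H : Hyp μ S T k u (δ * m)) :
    ∃ b > 0, IntegrableOn u S μ ∧ IntegrableOn (fun x => |1 - b / u x|) T μ ∧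
      ∫ x in T, |1 - b / u x| ∂μ ≤ (2 * δ / κ + 4 * e) * m ∧
      ∫ x in S, |1 - u x / b| ∂μ ≤ (4 * δ / κ + 8 * e) * m := by
  have hK : K ≠ 0 := by
    rintro rfl
    simp at hKm; linarith
  have hKp : 0 < ‖K‖ := norm_pos_iff.2 hK
  have hT0 : μ T ≠ 0 := by rw [hTm]; simpa using hm
  have hS0 : μ S ≠ 0 := by rw [hSm]; simpa using hm
  have hSf : μ S ≠ ⊤ := by rw [hSm]; simp
  have hTf : μ T ≠ ⊤ := by rw [hTm]; simp
  have hSr : μ.real S = m := by simp [Measure.real, hSm, hm.le]
  have hTr : μ.real T = m := by simp [Measure.real, hTm, hm.le]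
  haveI : IsFiniteMeasure (μ.restrict S) := isFiniteMeasure_restrict.2 hSf
  haveI : IsFiniteMeasure (μ.restrict T) := isFiniteMeasure_restrict.2 hTf
  have hui := u_int hS hT hT0 hK he hum hk H
  set U := ∫ y in S, u y ∂μ with hU
  have hUp : 0 < U := by
    rw [hU, setIntegral_pos_iff_support_of_nonneg_ae (Eventually.of_forall fun y => (hu y).le) hui]
    have : Function.support u = univ := by
      ext y; simp [(hu y).ne']
    rw [this, univ_inter]; exact pos_iff_ne_zero.2 hS0
  set b := U / m with hb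
  have hbp : 0 < b := div_pos hUp hm
  have hUb : U = b * m := by rw [hb]; field_simp
  have hKinv : 1 / ‖K‖ ≤ m / κ := by
    rw [div_le_div_iff₀ hKp hκ]; linarith
  have hwm : AEStronglyMeasurable (fun x => |1 - b / u x|) (μ.restrict T) := by
    have := hum.restrict (s := T) |>.aemeasurable
    exact (by fun_prop : AEMeasurable (fun x => |1 - b / u x|) (μ.restrict T)).aestronglyMeasurable
  -- part one
  obtain ⟨D, hDi, hDd, hD⟩ := H (fun _ => 1) aestronglyMeasurable_const (by simp)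
  have p1 : ∀ᵐ x ∂(μ.restrict T), |1 - b / u x| ≤ 2 / κ * ‖D x‖ + 4 * e := by
    filter_upwards [hD, ae_restrict_mem hT] with x hx hxT
    have := l1 hS hSf hK he0 hu hui (f := fun _ => 1) aestronglyMeasurable_const (by simp)
      (hk x hxT) hx.1 hx.2.1 (inv_pos.2 (hu x)).le
    rw [← hx.2.2] at this
    simp only [mul_one, integral_const, MeasurableSet.univ, measureReal_restrict_apply,
      univ_inter, smul_eq_mul, hSr, ← hU] at this
    set w := b / u x with hw
    have hw0 : 0 < w := div_pos hbp (hu x)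
    have e1 : (u x)⁻¹ * U = w * m := by rw [hUb, hw]; field_simp
    rw [e1] at this
    have e2 : |m - w * m| = |1 - w| * m := by
      rw [show m - w * m = (1 - w) * m by ring, abs_mul, abs_of_pos hm]
    rw [e2] at this
    have e3 : ‖D x‖ / ‖K‖ ≤ ‖D x‖ / κ * m := by
      calc ‖D x‖ / ‖K‖ = ‖D x‖ * (1 / ‖K‖) := by ring
        _ ≤ ‖D x‖ * (m / κ) := mul_le_mul_of_nonneg_left hKinv (norm_nonneg _)
        _ = _ := by ring
    have e4 : |1 - w| ≤ ‖D x‖ / κ + e * (1 + w) := by
      have : |1 - w| * m ≤ (‖D x‖ / κ + e * (1 + w)) * m := by nlinarith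
      exact le_of_mul_le_mul_right this hm
    have e5 : w ≤ 1 + |1 - w| := by linarith [neg_abs_le (1 - w)]
    have e6 : 2 / κ * ‖D x‖ = 2 * (‖D x‖ / κ) := by ring
    rw [e6]
    nlinarith [abs_nonneg (1 - w)]
  have hbd : IntegrableOn (fun x => 2 / κ * ‖D x‖ + 4 * e) T μ :=
    (hDi.norm.const_mul _).add (integrable_const _)
  have hwi : IntegrableOn (fun x => |1 - b / u x|) T μ := by
    refine Integrable.mono' hbd hwm ?_
    filter_upwards [p1] with x hx
    rwa [Real.norm_eq_abs, abs_abs]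
  have q1 : ∫ x in T, |1 - b / u x| ∂μ ≤ (2 * δ / κ + 4 * e) * m := by
    refine (integral_mono_ae hwi hbd p1).trans ?_
    rw [integral_add (hDi.norm.const_mul _) (integrable_const _), integral_const_mul]
    simp only [integral_const, MeasurableSet.univ, measureReal_restrict_apply,
      univ_inter, smul_eq_mul, hTr]
    have : 2 / κ * ∫ x in T, ‖D x‖ ∂μ ≤ 2 / κ * (δ * m) :=
      mul_le_mul_of_nonneg_left hDd (by positivity)
    have e : 2 / κ * (δ * m) = 2 * δ / κ * m := by ring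
    nlinarith
  refine ⟨b, hbp, hui, hwi, q1, ?_⟩
  -- part two
  set σ : X → ℝ := fun y => SignType.sign (1 - u y / b) with hσ
  have hσm : AEStronglyMeasurable σ (μ.restrict S) := by
    have h1 := hum.restrict (s := S) |>.aemeasurable
    have h2 : Measurable (fun t : ℝ => ((SignType.sign t : SignType) : ℝ)) := by
      have : (fun t : ℝ => ((SignType.sign t : SignType) : ℝ)) =
          fun t => if 0 < t then 1 else if t < 0 then -1 else 0 := by
        ext t; rw [sign_apply]; split_ifs <;> simp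
      rw [this]
      refine Measurable.ite measurableSet_Ioi measurable_const
        (Measurable.ite measurableSet_Iio measurable_const measurable_const)
    exact (h2.comp_aemeasurable (by fun_prop : AEMeasurable (fun y => 1 - u y / b)
      (μ.restrict S))).aestronglyMeasurable
  have hσ1 : ∀ y, |σ y| ≤ 1 := fun y => by
    simp only [hσ]; rcases SignType.sign (1 - u y / b) with _ | _ | _ <;> simp
  have hσi : IntegrableOn σ S μ :=
    Integrable.of_bound hσm 1 (Eventually.of_forall fun y => by simpa using hσ1 y)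
  have huσ : ∀ y, |u y * σ y| ≤ u y := fun y => by
    rw [abs_mul, abs_of_pos (hu y)]; nlinarith [hσ1 y, hu y]
  have huσi : IntegrableOn (fun y => u y * σ y) S μ :=
    Integrable.mono' hui (hui.1.mul hσm) (Eventually.of_forall fun y => huσ y)
  set A := ∫ x in S, |1 - u x / b| ∂μ with hA
  set I := ∫ y in S, σ y ∂μ with hI
  set J := ∫ y in S, u y * σ y ∂μ with hJ
  have hAIJ : A = I - J / b := by
    rw [hA, hI, hJ, ← integral_div, ← integral_sub hσi (huσi.div_const b)]
    refine integral_congr_ae (Eventually.of_forall fun y => ?_)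
    show |1 - u y / b| = σ y - u y * σ y / b
    rw [← sign_mul_self (1 - u y / b)]; simp only [hσ]; ring
  have hJ1 : |J| ≤ b * m := by
    rw [← hUb]
    exact (abs_integral_le_integral_abs).trans (integral_mono huσi.abs hui huσ)
  obtain ⟨D', hDi', hDd', hD'⟩ := H σ hσm hσ1
  have p2 : ∀ᵐ x ∂(μ.restrict T),
      A ≤ m / κ * ‖D' x‖ + (2 * e * m + 3 / 2 * m * |1 - b / u x|) := by
    filter_upwards [hD', ae_restrict_mem hT] with x hx hxT
    have := l1 hS hSf hK he0 hu hui hσm hσ1 (hk x hxT) hx.1 hx.2.1 (inv_pos.2 (hu x)).le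
    rw [← hx.2.2, hSr, ← hU, ← hI, ← hJ] at this
    set w := b / u x with hw
    have hw0 : 0 < w := div_pos hbp (hu x)
    have e1 : (u x)⁻¹ * U = w * m := by rw [hUb, hw]; field_simp
    have e1' : (u x)⁻¹ * J = w * (J / b) := by rw [hw]; field_simp
    rw [e1, e1'] at this
    have e3 : ‖D' x‖ / ‖K‖ ≤ m / κ * ‖D' x‖ := by
      calc ‖D' x‖ / ‖K‖ = ‖D' x‖ * (1 / ‖K‖) := by ring
        _ ≤ ‖D' x‖ * (m / κ) := mul_le_mul_of_nonneg_left hKinv (norm_nonneg _)
        _ = _ := by ring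
    have e4 : |J / b| ≤ m := by
      rw [abs_div, abs_of_pos hbp, div_le_iff₀ hbp]; linarith
    have e5 : A ≤ |I - w * (J / b)| + |1 - w| * m := by
      have : A = (I - w * (J / b)) - (1 - w) * (J / b) := by rw [hAIJ]; ring
      rw [this]
      have h2 : |(1 - w) * (J / b)| ≤ |1 - w| * m := by
        rw [abs_mul]; exact mul_le_mul_of_nonneg_left e4 (abs_nonneg _)
      linarith [le_abs_self (I - w * (J / b)), neg_abs_le ((1 - w) * (J / b))]
    have e6 : w ≤ 1 + |1 - w| := by linarith [neg_abs_le (1 - w)]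
    have e7 : e * (w * m) ≤ e * ((1 + |1 - w|) * m) :=
      mul_le_mul_of_nonneg_left (mul_le_mul_of_nonneg_right e6 hm.le) he0
    have e8 : e * (|1 - w| * m) ≤ 1 / 2 * (|1 - w| * m) :=
      mul_le_mul_of_nonneg_right he (by positivity)
    nlinarith
  have hbd2 : IntegrableOn (fun x => 2 * e * m + 3 / 2 * m * |1 - b / u x|) T μ :=
    (integrable_const _).add (hwi.const_mul _)
  have q2 := integral_mono_ae (integrable_const A) ((hDi'.norm.const_mul (m / κ)).add hbd2) p2
  simp only [Pi.add_apply] at q2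
  rw [integral_add (hDi'.norm.const_mul _) hbd2,
    integral_add (integrable_const _) (hwi.const_mul _), integral_const_mul (m / κ),
    integral_const_mul (3 / 2 * m)] at q2
  simp only [integral_const, MeasurableSet.univ, measureReal_restrict_apply,
      univ_inter, smul_eq_mul, hTr] at q2
  have r1 : m / κ * ∫ x in T, ‖D' x‖ ∂μ ≤ m / κ * (δ * m) :=
    mul_le_mul_of_nonneg_left hDd' (by positivity)
  have r2 : 3 / 2 * m * ∫ x in T, |1 - b / u x| ∂μ ≤ 3 / 2 * m * ((2 * δ / κ + 4 * e) * m) :=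
    mul_le_mul_of_nonneg_left q1 (by positivity)
  have r3 : m * A ≤ m * ((4 * δ / κ + 8 * e) * m) := by
    have : m * ((4 * δ / κ + 8 * e) * m) = m / κ * (δ * m) + (m * (2 * e * m) +
      3 / 2 * m * ((2 * δ / κ + 4 * e) * m)) := by ring
    linarith
  exact le_of_mul_le_mul_left r3 hm

lemma combine {P : Set X} {m : ℝ} (hm : 0 < m) (hPm : μ P = ENNReal.ofReal m)
    {β : X → ℝ} (hβ : IntegrableOn β P μ) {b b' η : ℝ} (hb : 0 < b) (hb' : 0 < b')
    (hη : η ≤ 1 / 4) (hui : IntegrableOn (fun x => Real.exp (β x)) P μ)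
    (hi : IntegrableOn (fun x => |1 - b' / Real.exp (β x)|) P μ)
    (h1 : ∫ x in P, |1 - Real.exp (β x) / b| ∂μ ≤ η * m)
    (h2 : ∫ x in P, |1 - b' / Real.exp (β x)| ∂μ ≤ η * m) :
    ⨍ x in P, |β x - ⨍ y in P, β y ∂μ| ∂μ ≤ 12 * η := by
  have hPf : μ P ≠ ⊤ := by rw [hPm]; simp
  have hPr : μ.real P = m := by simp [Measure.real, hPm, hm.le]
  haveI : IsFiniteMeasure (μ.restrict P) := isFiniteMeasure_restrict.2 hPf
  have hi1 : IntegrableOn (fun x => |1 - Real.exp (β x) / b|) P μ :=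
    ((integrable_const _).sub (hui.div_const b)).abs
  have hη0 : 0 ≤ η := by
    have : 0 ≤ ∫ x in P, |1 - Real.exp (β x) / b| ∂μ := integral_nonneg fun x => abs_nonneg _
    by_contra h
    push Not at h
    nlinarith
  set γ := b' / b with hγ
  have hγ0 : 0 < γ := div_pos hb' hb
  have hprod : ∀ x, Real.exp (β x) / b * (b' / Real.exp (β x)) = γ := fun x => by
    rw [hγ]; field_simp
  have g1 : ∀ x, 1 ≤ γ + (|1 - Real.exp (β x) / b| + |1 - b' / Real.exp (β x)|) := fun x => by
    rw [← hprod x]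
    have ha : 0 < Real.exp (β x) / b := by positivity
    have ha' : 0 < b' / Real.exp (β x) := by positivity
    generalize Real.exp (β x) / b = a at *
    generalize b' / Real.exp (β x) = a' at *
    rcases abs_cases (1 - a) with h | h <;> rcases abs_cases (1 - a') with h' | h' <;> nlinarith
  have hi2 : IntegrableOn (fun x => |1 - Real.exp (β x) / b| + |1 - b' / Real.exp (β x)|) P μ :=
    hi1.add hi
  have g2 : 1 - 2 * η ≤ γ := by
    have := integral_mono (integrable_const (1:ℝ)) ((integrable_const γ).add hi2) g1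
    simp only [Pi.add_apply] at this
    rw [integral_add (integrable_const _) hi2, integral_add hi1 hi] at this
    simp only [integral_const, MeasurableSet.univ, measureReal_restrict_apply,
      univ_inter, smul_eq_mul, hPr] at this
    have : m * (1 - 2 * η) ≤ m * γ := by nlinarith
    exact le_of_mul_le_mul_left this hm
  have g3 : -Real.log γ ≤ 4 * η := by
    rw [← Real.log_inv]
    have h1 := Real.log_le_sub_one_of_pos (inv_pos.2 hγ0)
    have h2 : γ⁻¹ ≤ 1 + 4 * η := by
      rw [inv_le_iff_one_le_mul₀ hγ0]; nlinarith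
    linarith
  have g4 : ∀ x, |β x - Real.log b| ≤
      (|1 - Real.exp (β x) / b| + |1 - b' / Real.exp (β x)|) + 4 * η := fun x => by
    have ha : 0 < Real.exp (β x) / b := by positivity
    have ha' : 0 < b' / Real.exp (β x) := by positivity
    have e1 : β x - Real.log b = Real.log (Real.exp (β x) / b) := by
      rw [Real.log_div (Real.exp_pos _).ne' hb.ne', Real.log_exp]
    have e2 : Real.log γ = Real.log (Real.exp (β x) / b) + Real.log (b' / Real.exp (β x)) := by
      rw [← hprod x, Real.log_mul ha.ne' ha'.ne']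
    rw [e1]
    have l1 := Real.log_le_sub_one_of_pos ha
    have l2 := Real.log_le_sub_one_of_pos ha'
    generalize Real.exp (β x) / b = a at *
    generalize b' / Real.exp (β x) = a' at *
    rw [abs_le]
    constructor <;> linarith [neg_abs_le (1 - a), neg_abs_le (1 - a'), abs_nonneg (1 - a),
      abs_nonneg (1 - a')]
  have hL : IntegrableOn (fun x => β x - Real.log b) P μ := hβ.sub (integrable_const _)
  have g5 : ∫ x in P, |β x - Real.log b| ∂μ ≤ 6 * η * m := by
    refine (integral_mono hL.abs (hi2.add (integrable_const _)) g4).trans ?_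
    simp only [Pi.add_apply]
    rw [integral_add hi2 (integrable_const _), integral_add hi1 hi]
    simp only [integral_const, MeasurableSet.univ, measureReal_restrict_apply,
      univ_inter, smul_eq_mul, hPr]
    nlinarith
  set M := ⨍ y in P, β y ∂μ with hM
  have g6 : |M - Real.log b| ≤ 6 * η := by
    have e1 : ∫ x in P, (β x - Real.log b) ∂μ = (M - Real.log b) * m := by
      rw [integral_sub hβ (integrable_const _), hM, setAverage_eq]
      simp only [integral_const, MeasurableSet.univ, measureReal_restrict_apply,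
        univ_inter, smul_eq_mul, hPr]
      field_simp
    have e2 : |∫ x in P, (β x - Real.log b) ∂μ| ≤ 6 * η * m :=
      abs_integral_le_integral_abs.trans g5
    rw [e1, abs_mul, abs_of_pos hm] at e2
    exact le_of_mul_le_mul_right e2 hm
  have g7 : ∫ x in P, |β x - M| ∂μ ≤ 12 * η * m := by
    have : ∀ x, |β x - M| ≤ |β x - Real.log b| + 6 * η := fun x => by
      have := abs_sub_le (β x) (Real.log b) M
      rw [abs_sub_comm (Real.log b)] at this
      linarith
    refine (integral_mono (hβ.sub (integrable_const M)).abs (hL.abs.add (integrable_const _))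
      this).trans ?_
    simp only [Pi.add_apply]
    rw [integral_add hL.abs (integrable_const _)]
    simp only [integral_const, MeasurableSet.univ, measureReal_restrict_apply,
      univ_inter, smul_eq_mul, hPr]
    nlinarith
  rw [setAverage_eq, hPr, smul_eq_mul, inv_mul_le_iff₀ hm]
  linarith

end H28Bmo
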