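import Mathlib

set_option autoImplicit false

namespace Pool.Agent.H28Cap

open Complex MeasureTheory Filter Topology ComplexConjugate
open scoped InnerProductSpace ENNReal

/-- normalized arc length on the circle `ℝ/ℤ` -/
noncomputable abbrev μ : Measure UnitAddCircle := AddCircle.haarAddCircle

abbrev L : Type := Lp ℂ 2 μ

/-- the Hardy space: square integrable functions orthogonal to all negative frequencies -/
noncomputable def H2 : Submodule ℂ L :=
  (Submodule.span ℂ (Set.range fun m : ℕ => (fourierLp 2 (-(m + 1 : ℤ)) : L)))ᗮ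

instance : CompleteSpace H2 := by unfold H2; infer_instance

noncomputable def z (x : UnitAddCircle) : ℂ := fourier 1 x

lemma z_cont : Continuous z := (fourier 1).continuous

lemma z_norm (x : UnitAddCircle) : ‖z x‖ = 1 := Circle.norm_coe _

lemma z_conj (x : UnitAddCircle) : z x * conj (z x) = 1 := by
  rw [mul_conj', z_norm]; simp

lemma four_pow (m : ℕ) (x : UnitAddCircle) : fourier (m : ℤ) x = z x ^ m := by
  induction m with
  | zero => simp
  | succ m ih => rw [Nat.cast_succ, fourier_add, ih, pow_succ]; rfl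

def An (F : UnitAddCircle → ℂ) : Prop := ∀ m : ℕ, ∫ x, z x ^ (m + 1) * F x ∂μ = 0

lemma An.congr {F G : UnitAddCircle → ℂ} (h : An F) (e : F =ᵐ[μ] G) : An G := fun m => by
  rw [← h m]
  exact integral_congr_ae (by filter_upwards [e] with x hx; rw [hx])

lemma in_eq (u v : L) : ⟪u, v⟫_ℂ = ∫ x, conj (u x) * v x ∂μ := by
  rw [L2.inner_def]
  simp [mul_comm]

lemma mem_H2 (f : L) : f ∈ H2 ↔ An f := by
  have h : ∀ m : ℕ, ⟪(fourierLp 2 (-(m + 1 : ℤ)) : L), f⟫_ℂ = ∫ x, z x ^ (m + 1) * f x ∂μ :=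
    fun m => by
      rw [in_eq]
      refine integral_congr_ae ?_
      filter_upwards [coeFn_fourierLp (T := 1) 2 (-(m + 1 : ℤ))] with x hx
      rw [hx, fourier_neg, conj_conj, ← four_pow]
      rfl
  rw [H2, Submodule.mem_orthogonal]
  refine ⟨fun a m => h m ▸ a _ (Submodule.subset_span ⟨m, rfl⟩), fun a u hu => ?_⟩
  induction hu using Submodule.span_induction with
  | mem u hu => obtain ⟨m, rfl⟩ := hu; exact (h m).trans (a m)
  | zero => simp
  | add u v _ _ h1 h2 => rw [inner_add_left, h1, h2, add_zero]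
  | smul c u _ h1 => rw [inner_smul_left, h1, mul_zero]

def Bd (g : UnitAddCircle → ℂ) : Prop := Measurable g ∧ ∃ C, ∀ x, ‖g x‖ ≤ C

lemma Bd.int {g F : UnitAddCircle → ℂ} (h : Bd g) (hF : Integrable F μ) :
    Integrable (fun x => g x * F x) μ := by
  obtain ⟨h1, C, h2⟩ := h
  exact hF.bdd_mul h1.aestronglyMeasurable (ae_of_all _ h2)

lemma Bd.mul {g h : UnitAddCircle → ℂ} (hg : Bd g) (hh : Bd h) : Bd fun x => g x * h x := by
  obtain ⟨h1, C, h2⟩ := hg
  obtain ⟨h3, D, h4⟩ := hh
  exact ⟨h1.mul h3, C * D, fun x => by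
    rw [norm_mul]; exact mul_le_mul (h2 x) (h4 x) (norm_nonneg _) ((norm_nonneg _).trans (h2 x))⟩

lemma Bd.cj {g : UnitAddCircle → ℂ} (hg : Bd g) : Bd fun x => conj (g x) :=
  ⟨continuous_conj.measurable.comp hg.1, by simpa using hg.2⟩

lemma bd_cont {g : UnitAddCircle → ℂ} (hg : Continuous g) : Bd g := by
  obtain ⟨C, hC⟩ := isCompact_univ.exists_bound_of_continuousOn hg.continuousOn
  exact ⟨hg.measurable, C, fun x => hC x trivial⟩

lemma bd_z (m : ℕ) : Bd fun x => z x ^ m := bd_cont (z_cont.pow m)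

lemma Bd.mem {g : UnitAddCircle → ℂ} (h : Bd g) (p : ℝ≥0∞) : MemLp g p μ := by
  obtain ⟨h1, C, h2⟩ := h
  exact MemLp.of_bound h1.aestronglyMeasurable C (ae_of_all _ h2)

def Mult (g : UnitAddCircle → ℂ) : Prop :=
  Bd g ∧ ∀ F, Integrable F μ → An F → An fun x => g x * F x

lemma Mult.mul {g h : UnitAddCircle → ℂ} (hg : Mult g) (hh : Mult h) : Mult fun x => g x * h x :=
  ⟨hg.1.mul hh.1, fun F hF a => by
    simpa only [mul_assoc] using hg.2 _ (hh.1.int hF) (hh.2 F hF a)⟩

lemma mult_lin (c d : ℂ) : Mult fun x => c + d * z x :=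
  ⟨bd_cont (by have := z_cont; fun_prop), fun F hF a m => by
    have e : ∀ x, z x ^ (m + 1) * ((c + d * z x) * F x)
        = c * (z x ^ (m + 1) * F x) + d * (z x ^ (m + 1 + 1) * F x) := fun x => by ring
    simp only [e]
    rw [integral_add (((bd_z _).int hF).const_mul c) (((bd_z _).int hF).const_mul d),
      integral_const_mul, integral_const_mul, a, a]
    simp⟩

lemma mult_lim {g : UnitAddCircle → ℂ} {G : ℕ → UnitAddCircle → ℂ} (hg : Bd g) {C : ℝ}
    (hG : ∀ n, Mult (G n)) (hC : ∀ n x, ‖G n x‖ ≤ C)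
    (h : ∀ᵐ x ∂μ, Tendsto (fun n => G n x) atTop (𝓝 (g x))) : Mult g :=
  ⟨hg, fun F hF a m => by
    have h1 := tendsto_integral_of_dominated_convergence (μ := μ)
      (F := fun n x => z x ^ (m + 1) * (G n x * F x)) (f := fun x => z x ^ (m + 1) * (g x * F x))
      (fun x => C * ‖F x‖) (fun n => ((bd_z _).int ((hG n).1.int hF)).aestronglyMeasurable)
      (hF.norm.const_mul C) (fun n => ae_of_all _ fun x => by
        rw [norm_mul, norm_mul, norm_pow, z_norm, one_pow, one_mul]
        exact mul_le_mul_of_nonneg_right (hC n x) (norm_nonneg _))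
      (by filter_upwards [h] with x hx using (hx.mul_const _).const_mul _)
    simp only [fun n => (hG n).2 F hF a m] at h1
    exact tendsto_nhds_unique h1 tendsto_const_nhds⟩

noncomputable def k (w : ℝ) (x : UnitAddCircle) : ℂ := (1 - w * z x)⁻¹

lemma den_ge {w : ℝ} (h0 : 0 ≤ w) (x : UnitAddCircle) : 1 - w ≤ ‖1 - w * z x‖ := by
  have := norm_sub_norm_le (1 : ℂ) (w * z x)
  rwa [norm_mul, z_norm, norm_real, Real.norm_eq_abs, abs_of_nonneg h0, mul_one, norm_one] at this

lemma den_ne {w : ℝ} (h0 : 0 ≤ w) (h1 : w < 1) (x : UnitAddCircle) : 1 - w * z x ≠ 0 :=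
  norm_pos_iff.1 ((sub_pos.2 h1).trans_le (den_ge h0 x))

lemma k_eq {w : ℝ} (h0 : 0 ≤ w) (h1 : w < 1) (x : UnitAddCircle) :
    k w x = 1 + w * z x * k w x := by
  have := den_ne h0 h1 x
  unfold k; field_simp; ring

lemma bd_k {w : ℝ} (h0 : 0 ≤ w) (h1 : w < 1) : Bd (k w) :=
  bd_cont (Continuous.inv₀ (by have := z_cont; fun_prop) (den_ne h0 h1))

lemma mult_k {w : ℝ} (h0 : 0 ≤ w) (h1 : w < 1) : Mult (k w) :=
  ⟨bd_k h0 h1, fun F hF a m => by
    have hk := (bd_k h0 h1).int hF
    have s : ∀ m : ℕ, ∫ x, z x ^ (m + 1) * (k w x * F x) ∂μ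
        = w * ∫ x, z x ^ (m + 1 + 1) * (k w x * F x) ∂μ := fun m => by
      have e : ∀ x, z x ^ (m + 1) * (k w x * F x)
          = z x ^ (m + 1) * F x + w * (z x ^ (m + 1 + 1) * (k w x * F x)) := fun x => by
        linear_combination (z x ^ (m + 1) * F x) * k_eq h0 h1 x
      rw [integral_congr_ae (ae_of_all _ e), integral_add ((bd_z _).int hF)
        (((bd_z _).int hk).const_mul _), integral_const_mul, a, zero_add]
    have b : ∀ N m : ℕ, ‖∫ x, z x ^ (m + 1) * (k w x * F x) ∂μ‖
        ≤ w ^ N * ∫ x, ‖k w x * F x‖ ∂μ := fun N => by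
      induction N with
      | zero =>
        intro m
        refine (norm_integral_le_integral_norm _).trans (le_of_eq ?_)
        simp [z_norm]
      | succ N ih =>
        intro m
        rw [s, norm_mul, norm_real, Real.norm_eq_abs, abs_of_nonneg h0, pow_succ', mul_assoc]
        exact mul_le_mul_of_nonneg_left (ih _) h0
    have t := (tendsto_pow_atTop_nhds_zero_of_lt_one h0 h1).mul_const (∫ x, ‖k w x * F x‖ ∂μ)
    rw [zero_mul] at t
    exact norm_le_zero_iff.1 (ge_of_tendsto' t fun N => b N m)⟩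

lemma an_one : An fun _ => 1 := fun m => by
  have := congrFun (fourierCoeff_fourier (T := 1) ((m + 1 : ℕ) : ℤ)) 0
  rw [Pi.single_apply, if_neg (by omega), fourierCoeff] at this
  simpa only [neg_zero, fourier_zero, one_smul, mul_one, four_pow] using this

lemma Mult.an {g : UnitAddCircle → ℂ} (h : Mult g) : An g := by
  simpa using h.2 _ (integrable_const 1) an_one

noncomputable def B (w : ℝ) (x : UnitAddCircle) : ℂ := (w + (-1) * z x) * k w x

lemma mult_B {w : ℝ} (h0 : 0 ≤ w) (h1 : w < 1) : Mult (B w) := (mult_lin _ _).mul (mult_k h0 h1)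

lemma B_ck {w : ℝ} (h0 : 0 ≤ w) (h1 : w < 1) (x : UnitAddCircle) :
    conj (k w x) * B w x = -(z x * k w x) := by
  have a := congrArg conj (k_eq h0 h1 x)
  simp only [map_add, map_mul, map_one, conj_ofReal] at a
  unfold B
  linear_combination (-(z x * k w x)) * a - (w * conj (k w x) * k w x) * z_conj x

lemma B_conj {w : ℝ} (h0 : 0 ≤ w) (h1 : w < 1) (x : UnitAddCircle) :
    B w x * conj (B w x) = 1 := by
  have a := B_ck h0 h1 x
  have b := k_eq h0 h1 x
  have c : conj (B w x) = (w - conj (z x)) * conj (k w x) := by simp [B, sub_eq_add_neg]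
  rw [c]
  linear_combination (w - conj (z x)) * a + b + k w x * z_conj x

lemma B_norm {w : ℝ} (h0 : 0 ≤ w) (h1 : w < 1) (x : UnitAddCircle) : ‖B w x‖ = 1 := by
  have := congrArg norm (B_conj h0 h1 x)
  rw [norm_mul, norm_conj, norm_one] at this
  nlinarith [norm_nonneg (B w x)]

lemma an_div {w : ℝ} (h0 : 0 ≤ w) (h1 : w < 1) {F : UnitAddCircle → ℂ} (hF : Integrable F μ)
    (a : An F) (h : ∫ x, conj (k w x) * F x ∂μ = 0) : An fun x => conj (B w x) * F x := by
  have hk := (bd_k h0 h1).cj.int hF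
  have e1 : ∀ x, conj (k w x) = 1 + w * conj (z x) * conj (k w x) := fun x => by
    simpa using congrArg conj (k_eq h0 h1 x)
  have s : ∀ m : ℕ, ∫ x, z x ^ m * (conj (k w x) * F x) ∂μ = 0 := fun m => by
    induction m with
    | zero => simpa using h
    | succ m ih =>
      have e : ∀ x, z x ^ (m + 1) * (conj (k w x) * F x)
          = z x ^ (m + 1) * F x + w * (z x ^ m * (conj (k w x) * F x)) := fun x => by
        linear_combination (z x ^ (m + 1) * F x) * e1 x
          + (w * z x ^ m * conj (k w x) * F x) * z_conj x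
      rw [integral_congr_ae (ae_of_all _ e), integral_add ((bd_z _).int hF)
        (((bd_z _).int hk).const_mul _), integral_const_mul, a, ih]
      simp
  intro m
  have e : ∀ x, z x ^ (m + 1) * (conj (B w x) * F x) =
      w * (z x ^ (m + 1) * (conj (k w x) * F x)) - z x ^ m * (conj (k w x) * F x) := fun x => by
    have c : conj (B w x) = (w - conj (z x)) * conj (k w x) := by simp [B, sub_eq_add_neg]
    rw [c]
    linear_combination (-(z x ^ m * conj (k w x) * F x)) * z_conj x
  rw [integral_congr_ae (ae_of_all _ e), integral_sub (((bd_z _).int hk).const_mul _)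
    ((bd_z _).int hk), integral_const_mul, s, s]
  simp

lemma k_sq {w : ℝ} (h0 : 0 ≤ w) (h1 : w < 1) :
    (1 - (w : ℂ) ^ 2) * ∫ x, conj (k w x) * k w x ∂μ = 1 := by
  have i1 : Integrable (k w) μ := memLp_one_iff_integrable.1 ((bd_k h0 h1).mem 1)
  have a : ∫ x, k w x ∂μ = 1 := by
    have := (mult_k h0 h1).an 0
    rw [integral_congr_ae (ae_of_all _ (k_eq h0 h1))]
    simp only [mul_assoc]
    rw [integral_add (integrable_const _) (((bd_cont z_cont).int i1).const_mul _),
      integral_const_mul]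
    simp only [zero_add, pow_one] at this
    rw [this]; simp
  have e : ∀ x, (1 - (w : ℂ) ^ 2) * (conj (k w x) * k w x) = k w x + (conj (k w x) - 1) := fun x => by
    have b := k_eq h0 h1 x
    have c : conj (k w x) = 1 + w * conj (z x) * conj (k w x) := by
      simpa using congrArg conj (k_eq h0 h1 x)
    linear_combination (conj (k w x) - 1) * b + (w * z x * k w x) * c
      + (w ^ 2 * k w x * conj (k w x)) * z_conj x
  have i2 : Integrable (fun x => conj (k w x)) μ :=
    memLp_one_iff_integrable.1 ((bd_k h0 h1).cj.mem 1)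
  have i3 : Integrable (fun x => conj (k w x) - 1) μ := i2.sub (integrable_const _)
  rw [← integral_const_mul, integral_congr_ae (ae_of_all _ e), integral_add i1 i3,
    integral_sub i2 (integrable_const _),
    integral_conj, a]
  simp

noncomputable def mu (g : UnitAddCircle → ℂ) : L →L[ℂ] L := by
  classical
  exact if h : MemLp g ⊤ μ then (ContinuousLinearMap.mul ℂ ℂ).holderL μ ⊤ 2 2 (h.toLp g) else 0

lemma mu_ae {g : UnitAddCircle → ℂ} (h : Bd g) (f : L) : mu g f =ᵐ[μ] fun x => g x * f x := by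
  rw [mu, dif_pos (h.mem ⊤)]
  filter_upwards [(ContinuousLinearMap.mul ℂ ℂ).coeFn_holder (r := 2) ((h.mem ⊤).toLp g) f,
    (h.mem ⊤).coeFn_toLp] with x h1 h2
  rw [← h2]
  exact h1

lemma intL (f : L) : Integrable f μ := (Lp.memLp f).integrable (by norm_num)

lemma mu_mem {g : UnitAddCircle → ℂ} (h : Mult g) {f : L} (hf : f ∈ H2) : mu g f ∈ H2 :=
  (mem_H2 _).2 ((h.2 f (intL f) ((mem_H2 _).1 hf)).congr (mu_ae h.1 f).symm)

lemma mu_adj {g : UnitAddCircle → ℂ} (h : Bd g) (u v : L) :
    ⟪mu (fun x => conj (g x)) u, v⟫_ℂ = ⟪u, mu g v⟫_ℂ := by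
  rw [in_eq, in_eq]
  refine integral_congr_ae ?_
  filter_upwards [mu_ae h.cj u, mu_ae h v] with x h1 h2
  rw [h1, h2, map_mul, conj_conj]; ring

lemma mu_mu {g h : UnitAddCircle → ℂ} (hg : Bd g) (hh : Bd h) (f : L) :
    mu g (mu h f) = mu (fun x => g x * h x) f := by
  refine Lp.ext ?_
  filter_upwards [mu_ae hg (mu h f), mu_ae hh f, mu_ae (hg.mul hh) f] with x h1 h2 h3
  rw [h1, h2, h3, mul_assoc]

lemma mu_le {g : UnitAddCircle → ℂ} (h : Bd g) (h1 : ∀ x, ‖g x‖ ≤ 1) (f : L) : ‖mu g f‖ ≤ ‖f‖ := by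
  refine Lp.norm_le_norm_of_ae_le ?_
  filter_upwards [mu_ae h f] with x hx
  rw [hx, norm_mul]
  exact mul_le_of_le_one_left (norm_nonneg _) (h1 x)

lemma mu_one {g : UnitAddCircle → ℂ} (h1 : ∀ x, g x = 1) (f : L) : mu g f = f := by
  refine Lp.ext ?_
  filter_upwards [mu_ae (g := g) (by rw [funext h1]; exact bd_cont continuous_const) f] with x hx
  rw [hx, h1, one_mul]

end Pool.Agent.H28Cap
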