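import Pool.Agent.Lib.helper28.CapA

set_option autoImplicit false

namespace Pool.Agent.H28Cap

open Complex MeasureTheory Filter Topology ComplexConjugate
open scoped InnerProductSpace ENNReal

/-- the Hardy space, through boundary values -/
def InH2 (f : UnitAddCircle → ℂ) : Prop :=
  MemLp f 2 μ ∧ ∀ n : ℤ, n < 0 → fourierCoeff f n = 0

/-- the squared de Branges-Rovnyak norm, `sup (‖f + b g‖² - ‖g‖²)` over `g` in the Hardy space -/
noncomputable def nb (b f : UnitAddCircle → ℂ) : ℝ≥0∞ :=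
  ⨆ (g : UnitAddCircle → ℂ) (_ : InH2 g),
    ENNReal.ofReal (∫ x, ‖f x + b x * g x‖ ^ 2 ∂μ - ∫ x, ‖g x‖ ^ 2 ∂μ)

/-- infimum of the squared norms of those `f` whose modulus satisfies `p` almost everywhere on an
open set containing `E` -/
noncomputable def cap (b : UnitAddCircle → ℂ) (p : ℝ → Prop) (E : Set UnitAddCircle) : ℝ≥0∞ :=
  ⨅ (f : UnitAddCircle → ℂ) (_ : InH2 f) (U : Set UnitAddCircle) (_ : IsOpen U)
    (_ : E ⊆ U) (_ : ∀ᵐ x ∂μ, x ∈ U → p ‖f x‖), nb b f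

lemma an_iff (f : UnitAddCircle → ℂ) : An f ↔ ∀ n : ℤ, n < 0 → fourierCoeff f n = 0 := by
  have h : ∀ m : ℕ, fourierCoeff f (Int.negSucc m) = ∫ x, z x ^ (m + 1) * f x ∂μ := fun m => by
    rw [fourierCoeff]
    simp only [Int.neg_negSucc, four_pow, smul_eq_mul]
  refine ⟨fun a n hn => ?_, fun a m => h m ▸ a _ (Int.negSucc_lt_zero m)⟩
  obtain ⟨m, rfl⟩ := Int.eq_negSucc_of_lt_zero hn
  exact (h m).trans (a m)

lemma InH2.ex {f : UnitAddCircle → ℂ} (h : InH2 f) : ∃ F ∈ H2, F =ᵐ[μ] f :=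
  ⟨h.1.toLp f, (mem_H2 _).2 (((an_iff f).2 h.2).congr h.1.coeFn_toLp.symm), h.1.coeFn_toLp⟩

lemma inH2 {F : L} (h : F ∈ H2) : InH2 F := ⟨Lp.memLp F, (an_iff F).1 ((mem_H2 F).1 h)⟩

lemma in_self (h : L) : ⟪h, h⟫_ℂ = ((‖h‖ ^ 2 : ℝ) : ℂ) := by
  rw [inner_self_eq_norm_sq_to_K]; simp

lemma nsq (u : L) : ‖u‖ ^ 2 = ∫ x, ‖u x‖ ^ 2 ∂μ := by
  have := in_eq u u
  simp only [in_self, conj_mul', ← ofReal_pow, integral_complex_ofReal] at this
  exact ofReal_injective this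

lemma nsq2 {b f g : UnitAddCircle → ℂ} (hb : Bd b) {F G : L} (hF : F =ᵐ[μ] f) (hG : G =ᵐ[μ] g) :
    ∫ x, ‖f x + b x * g x‖ ^ 2 ∂μ - ∫ x, ‖g x‖ ^ 2 ∂μ = ‖F + mu b G‖ ^ 2 - ‖G‖ ^ 2 := by
  rw [nsq, nsq]
  congr 1
  · refine integral_congr_ae ?_
    filter_upwards [hF, hG, mu_ae hb G, Lp.coeFn_add F (mu b G)] with x c1 c2 c3 c4
    rw [c4, Pi.add_apply, c3, c1, c2]
  · exact integral_congr_ae (by filter_upwards [hG] with x c; rw [c])

lemma ex_K {w : ℝ} (h0 : 0 ≤ w) (h1 : w < 1) : ∃ K : L, K =ᵐ[μ] k w ∧ K ∈ H2 ∧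
    (1 - w ^ 2) * ‖K‖ ^ 2 = 1 ∧ ∀ v ∈ H2, ⟪K, mu (B w) v⟫_ℂ = 0 := by
  have e := ((bd_k h0 h1).mem 2).coeFn_toLp
  refine ⟨_, e, (mem_H2 _).2 ((mult_k h0 h1).an.congr e.symm), ?_, fun v hv => ?_⟩
  · have := k_sq h0 h1
    rw [← integral_congr_ae (f := fun x => conj (((bd_k h0 h1).mem 2).toLp _ x) *
      ((bd_k h0 h1).mem 2).toLp _ x) (by filter_upwards [e] with x hx; rw [hx]), ← in_eq,
      in_self] at this
    exact_mod_cast this
  · have := (mult_k h0 h1).2 v (intL v) ((mem_H2 _).1 hv) 0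
    rw [in_eq, ← neg_eq_zero, ← integral_neg, ← this]
    refine integral_congr_ae ?_
    filter_upwards [e, mu_ae (mult_B h0 h1).1 v] with x a1 a2
    rw [a1, a2]
    linear_combination (-v x) * B_ck h0 h1 x

lemma upper {b b' : UnitAddCircle → ℂ} (hb : Mult b) (hb' : Mult b') (hb1 : ∀ x, ‖b x‖ ≤ 1)
    {w l : ℝ} (h0 : 0 ≤ w) (h1 : w < 1) (e : ∀ x, b x = B w x * b' x) {U : Set UnitAddCircle}
    (hU : IsOpen U) (hl : ∀ x ∈ U, ‖1 - w * z x‖ ≤ l) :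
    cap b (1 ≤ ·) U ≤ ENNReal.ofReal (l ^ 2 / (1 - w ^ 2)) := by
  obtain ⟨K, k1, k2, k3, k4⟩ := ex_K h0 h1
  have a2 : ∀ᵐ x ∂μ, x ∈ U → 1 ≤ ‖((l : ℂ) • K) x‖ := by
    filter_upwards [Lp.coeFn_smul (l : ℂ) K, k1] with x c1 c2 hx
    have c3 := norm_pos_iff.2 (den_ne h0 h1 x)
    have c4 := hl x hx
    rw [c1, Pi.smul_apply, c2, norm_smul, k, norm_inv, norm_real,
      Real.norm_eq_abs, abs_of_pos (c3.trans_le c4), ← div_eq_mul_inv, le_div_iff₀ c3, one_mul]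
    exact c4
  have a4 : ‖(l : ℂ) • K‖ ^ 2 = l ^ 2 / (1 - w ^ 2) := by
    have : 0 < 1 - w ^ 2 := by nlinarith
    rw [norm_smul, mul_pow, norm_real, Real.norm_eq_abs, sq_abs, eq_div_iff this.ne']
    linear_combination (l ^ 2) * k3
  rw [← a4, cap]
  refine iInf_le_of_le ⇑((l : ℂ) • K) (iInf_le_of_le (inH2 (H2.smul_mem _ k2)) (iInf_le_of_le U
    (iInf_le_of_le hU (iInf_le_of_le subset_rfl (iInf_le_of_le a2 (iSup₂_le fun g hg => ?_))))))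
  obtain ⟨G, G1, G2⟩ := hg.ex
  have a1 : ⟪(l : ℂ) • K, mu b G⟫_ℂ = 0 := by
    rw [inner_smul_left, funext e, ← mu_mu (mult_B h0 h1).1 hb'.1, k4 _ (mu_mem hb' G1), mul_zero]
  rw [nsq2 hb.1 (ae_eq_refl _) G2, @norm_add_sq ℂ, a1]
  have := pow_le_pow_left₀ (norm_nonneg _) (mu_le hb.1 hb1 G) 2
  exact ENNReal.ofReal_le_ofReal (by simp only [map_zero]; linarith)

lemma emb {b b' : UnitAddCircle → ℂ} (hb : Mult b) (hb' : Mult b')
    {w δ N : ℝ} (h0 : 0 ≤ w) (h1 : w < 1) (e : ∀ x, b x = B w x * b' x) (hδ : 0 < δ) {c : ℂ}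
    (hc : ‖c‖ = 1) {f : L} (hf : f ∈ H2) (hN : ∀ v ∈ H2, ‖f + mu b v‖ ^ 2 - ‖v‖ ^ 2 ≤ N) :
    ∃ α : ℂ, ∀ J : Set UnitAddCircle, MeasurableSet J → (∀ x ∈ J, ‖b' x - c‖ ≤ δ) →
      (∀ᵐ x ∂μ, x ∈ J → 1 / 2 ≤ ‖f x - α * k w x‖) → μ.real J / 4 ≤ 2 * δ * N := by
  classical
  obtain ⟨K, k1, k2, k3, k4⟩ := ex_K h0 h1
  have hB := (mult_B h0 h1).1
  have hK : ⟪K, K⟫_ℂ ≠ 0 := inner_self_ne_zero.2 fun h => by simp [h] at k3
  set α := ⟪K, f⟫_ℂ / ⟪K, K⟫_ℂ with hα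
  refine ⟨α, fun J hJ hJ1 hJ2 => ?_⟩
  set F : L := f - α • K with hF
  have F1 : F ∈ H2 := H2.sub_mem hf (H2.smul_mem _ k2)
  have F2 : ⟪K, F⟫_ℂ = 0 := by
    rw [hF, inner_sub_right, inner_smul_right, hα, div_mul_cancel₀ _ hK, sub_self]
  have F3 : mu (fun x => conj (B w x)) F ∈ H2 := (mem_H2 _).2 ((an_div h0 h1 (intL F)
    ((mem_H2 _).1 F1) (by
      rw [← F2, in_eq]
      exact integral_congr_ae (by filter_upwards [k1] with x hx; rw [hx]))).congr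
        (mu_ae hB.cj F).symm)
  have F4 : ∀ᵐ x ∂μ, ‖mu (fun x => conj (B w x)) F x‖ = ‖f x - α * k w x‖ := by
    filter_upwards [mu_ae hB.cj F, Lp.coeFn_sub f (α • K), Lp.coeFn_smul α K, k1]
      with x c1 c2 c3 c4
    rw [c1, norm_mul, norm_conj, B_norm h0 h1, one_mul, hF, c2, Pi.sub_apply, c3, Pi.smul_apply,
      c4, smul_eq_mul]
  have F5 : ∀ v ∈ H2, ⟪mu (fun x => conj (B w x)) F, v⟫_ℂ = ⟪f, mu (B w) v⟫_ℂ := fun v hv => by
    rw [mu_adj hB, hF, inner_sub_left, inner_smul_left, k4 v hv, mul_zero, sub_zero]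
  generalize mu (fun x => conj (B w x)) F = f' at F3 F4 F5
  have hI : Bd (J.indicator fun _ => (1 : ℂ)) := ⟨measurable_const.indicator hJ, 1, fun x => by
    simpa using norm_indicator_le_norm_self (s := J) (fun _ => (1 : ℂ)) x⟩
  have u1 := mu_ae hI f'
  generalize mu (J.indicator fun _ => (1 : ℂ)) f' = u at u1
  have u2 : μ.real J / 4 ≤ ‖u‖ ^ 2 := by
    rw [nsq, div_eq_mul_one_div, ← smul_eq_mul, ← integral_indicator_const _ hJ]
    refine integral_mono_ae ((integrable_const _).indicator hJ)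
      ((memLp_two_iff_integrable_sq_norm (Lp.aestronglyMeasurable u)).1 (Lp.memLp u)) ?_
    filter_upwards [u1, F4, hJ2] with x c1 c2 c3
    by_cases hx : x ∈ J
    · rw [Set.indicator_of_mem hx, c1, Set.indicator_of_mem hx, one_mul, c2]
      nlinarith [c3 hx]
    · rw [Set.indicator_of_notMem hx]; positivity
  have u3 : ⟪f', u⟫_ℂ = ⟪u, u⟫_ℂ := by
    rw [in_eq, in_eq]
    refine integral_congr_ae ?_
    filter_upwards [u1] with x c1
    rw [c1]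
    by_cases hx : x ∈ J <;> simp [hx]
  set p := H2.starProjection u with hp
  have p1 : p ∈ H2 := Submodule.starProjection_apply_mem _ _
  have p2 : ∀ v ∈ H2, ⟪u, v⟫_ℂ = ⟪p, v⟫_ℂ := fun v hv => by
    have := Submodule.starProjection_inner_eq_zero u v hv
    rwa [inner_sub_left, sub_eq_zero] at this
  have p3 : ‖p‖ ≤ ‖u‖ := Submodule.norm_starProjection_apply_le _ _
  clear_value p
  have a1 : ‖mu (B w) p‖ ≤ ‖p‖ := mu_le hB (fun x => (B_norm h0 h1 x).le) p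
  have a2 : ⟪mu (B w) p, f⟫_ℂ = ((‖u‖ ^ 2 : ℝ) : ℂ) := by
    rw [← inner_conj_symm, ← F5 p p1, ← inner_conj_symm f' p, ← p2 _ F3, inner_conj_symm, u3,
      in_self, conj_ofReal]
  have a3 : ⟪mu (B w) p, mu b p⟫_ℂ = ⟪u, mu b' p⟫_ℂ := by
    have hBB : (fun x => conj (conj (B w x))) = B w := by simp
    rw [p2 _ (mu_mem hb' p1)]
    have := mu_adj hB.cj p (mu b p)
    rw [hBB, mu_mu hB.cj hb.1] at this
    refine this.trans ?_
    congr 3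
    funext x
    rw [e]
    linear_combination (b' x) * B_conj h0 h1 x
  have hb2 : Bd fun x => b' x - c := by
    obtain ⟨m, C, hC⟩ := hb'.1
    exact ⟨m.sub measurable_const, C + ‖c‖, fun x => (norm_sub_le _ _).trans (by linarith [hC x])⟩
  have a4 : ⟪u, mu b' p⟫_ℂ = c * ⟪p, p⟫_ℂ + ⟪mu (fun x => conj (b' x - c)) u, p⟫_ℂ := by
    rw [mu_adj hb2, ← p2 p p1, ← inner_smul_right, ← inner_add_right]
    congr 1
    refine Lp.ext ?_
    filter_upwards [mu_ae hb'.1 p, mu_ae hb2 p, Lp.coeFn_smul c p,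
      Lp.coeFn_add (c • p) (mu (fun x => b' x - c) p)] with x c1 c2 c3 c4
    rw [c1, c4, Pi.add_apply, c2, c3, Pi.smul_apply, smul_eq_mul]
    ring
  have a5 : ‖mu (fun x => conj (b' x - c)) u‖ ≤ δ * ‖u‖ := by
    refine Lp.norm_le_mul_norm_of_ae_le_mul ?_
    filter_upwards [mu_ae hb2.cj u, u1] with x c1 c2
    rw [c1, norm_mul, norm_conj]
    by_cases hx : x ∈ J
    · exact mul_le_mul_of_nonneg_right (hJ1 x hx) (norm_nonneg _)
    · simp [c2, hx]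
  have a6 : ‖p‖ ^ 2 - δ * ‖u‖ * ‖u‖ ≤ (conj c * ⟪u, mu b' p⟫_ℂ).re := by
    have c2 := norm_inner_le_norm (𝕜 := ℂ) (mu (fun x => conj (b' x - c)) u) p
    have c3 := abs_re_le_norm (conj c * ⟪mu (fun x => conj (b' x - c)) u, p⟫_ℂ)
    have c4 := mul_le_mul a5 p3 (norm_nonneg p) (by positivity)
    rw [norm_mul, norm_conj, hc, one_mul, abs_le] at c3
    rw [a4, mul_add, ← mul_assoc, conj_mul', hc, in_self, add_re]
    simp only [ofReal_one, one_pow, one_mul, ofReal_re]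
    linarith [c3.1]
  refine u2.trans ?_
  obtain ⟨s, s0, s1⟩ : ∃ s : ℝ, 0 < s ∧ 2 * δ * s = 1 := ⟨1 / (2 * δ), by positivity, by field_simp⟩
  have a7 := hN (((s : ℂ) * conj c) • p) (H2.smul_mem _ p1)
  have a8 := sq_nonneg ‖(s : ℂ) • mu (B w) p - (f + mu b (((s : ℂ) * conj c) • p))‖
  rw [@norm_sub_sq ℂ, inner_smul_left, inner_add_right, map_smul, inner_smul_right, a2, a3,
    norm_smul, conj_ofReal, mul_assoc (s : ℂ)] at a8
  rw [map_smul, norm_smul, norm_mul, norm_conj, hc] at a7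
  simp only [RCLike.re_to_complex, re_ofReal_mul, add_re, ofReal_re, norm_real, Real.norm_eq_abs,
    abs_of_pos s0, mul_one, mul_pow] at a7 a8
  have c1 := mul_le_mul_of_nonneg_left (pow_le_pow_left₀ (norm_nonneg _) a1 2) (sq_nonneg s)
  have c2 := mul_le_mul_of_nonneg_left a6 (sq_nonneg s)
  have c3 : s * ‖u‖ ^ 2 ≤ N := by
    have : 2 * (s ^ 2 * (δ * ‖u‖ * ‖u‖)) = s * ‖u‖ ^ 2 := by linear_combination (s * ‖u‖ ^ 2) * s1
    nlinarith
  calc ‖u‖ ^ 2 = 2 * δ * (s * ‖u‖ ^ 2) := by linear_combination (-‖u‖ ^ 2) * s1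
    _ ≤ _ := mul_le_mul_of_nonneg_left c3 (by positivity)

end Pool.Agent.H28Cap
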