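import Mathlib

set_option autoImplicit false

namespace Pool.Agent.H28DbrB

open Finset Filter Topology

def t (k : ℕ) : ℕ := 2 ^ (4 ^ k)

lemma t_succ (k : ℕ) : t (k + 1) = t k ^ 4 := by
  unfold t; rw [← pow_mul, pow_succ]

lemma t_ge (k : ℕ) : 2 ^ (k + 1) ≤ t k := by
  unfold t
  apply Nat.pow_le_pow_right (by norm_num)
  exact Nat.lt_pow_self (by norm_num)

lemma t_two (k : ℕ) : 2 ≤ t k := le_trans (by
  calc 2 = 2 ^ 1 := rfl
    _ ≤ 2 ^ (k + 1) := Nat.pow_le_pow_right (by norm_num) (by omega)) (t_ge k)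

lemma t_dbl (k : ℕ) : 2 * t k ≤ t (k + 1) := by
  rw [t_succ]
  have h := t_two k
  calc 2 * t k ≤ t k ^ 3 * t k := by
        apply Nat.mul_le_mul_right
        calc 2 ≤ 2 ^ 3 := by norm_num
          _ ≤ t k ^ 3 := Nat.pow_le_pow_left h 3
    _ = t k ^ 4 := by ring

lemma t_mono : Monotone t := monotone_nat_of_le_succ fun k => by have := t_dbl k; omega

lemma t_lt {i k : ℕ} (h : i < k) : 2 * t i ≤ t k := (t_dbl i).trans (t_mono h)

lemma t_pos (k : ℕ) : (0 : ℝ) < t k := by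
  have := t_two k
  exact_mod_cast (by omega : 0 < t k)

lemma t_inv (k : ℕ) : 1 / (t k : ℝ) ≤ (1 / 2) ^ k := by
  have h : (2 : ℝ) ^ k ≤ t k := by
    have := t_ge k
    have h2 : 2 ^ k ≤ t k := le_trans (Nat.pow_le_pow_right (by norm_num) (by omega)) this
    exact_mod_cast h2
  rw [one_div_pow]
  exact one_div_le_one_div_of_le (by positivity) h

lemma t_summ : Summable fun k => 1 / (t k : ℝ) :=
  Summable.of_nonneg_of_le (fun k => by have := t_pos k; positivity) t_inv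
    summable_geometric_two

def w (L x : ℤ) : ℤ := max x 0 - max (x - L) 0

noncomputable def ρ (k : ℕ) (x : ℤ) : ℝ := (w (t (k + 1)) x : ℝ) / t (k + 1)

noncomputable def τ (k : ℕ) (x : ℤ) : ℝ := ρ k x - ρ (k + 1) x

def n (k : ℕ) : ℕ := 2 * t (k + 2)

noncomputable def d (k : ℕ) : ℝ := (t k : ℝ) ^ 3

noncomputable def φ (j : ℤ) : ℝ := ∑' k, d k * τ k (n k - j)

lemma ρ_neg (k : ℕ) {x : ℤ} (h : x ≤ 0) : ρ k x = 0 := by
  have : w (t (k + 1)) x = 0 := by unfold w; omega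
  simp [ρ, this]

lemma ρ_big (k : ℕ) {x : ℤ} (h : (t (k + 1) : ℤ) ≤ x) : ρ k x = 1 := by
  have : w (t (k + 1)) x = t (k + 1) := by unfold w; omega
  rw [ρ, this]
  push_cast
  exact div_self (t_pos _).ne'

lemma ρ_nn (k : ℕ) (x : ℤ) : 0 ≤ ρ k x := by
  have : 0 ≤ w (t (k + 1)) x := by unfold w; omega
  exact div_nonneg (by exact_mod_cast this) (t_pos _).le

lemma ρ_le (k : ℕ) (x : ℤ) : ρ k x ≤ 1 := by
  have : w (t (k + 1)) x ≤ t (k + 1) := by unfold w; omega
  rw [ρ, div_le_one (t_pos _)]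
  exact_mod_cast this

lemma ρ_lin (k M : ℕ) : ρ k M ≤ M * (1 / t k) := by
  have h1 : w (t (k + 1)) M ≤ M := by unfold w; omega
  have h2 : (w (t (k + 1)) M : ℝ) ≤ M := by exact_mod_cast h1
  have h3 : (t k : ℝ) ≤ t (k + 1) := by exact_mod_cast t_mono (Nat.le_succ k)
  rw [ρ, mul_one_div]
  exact div_le_div₀ (by positivity) h2 (t_pos k) h3

lemma τ_neg (k : ℕ) {x : ℤ} (h : x ≤ 0) : τ k x = 0 := by simp [τ, ρ_neg _ h]

lemma τ_big (k : ℕ) {x : ℤ} (h : (t (k + 2) : ℤ) ≤ x) : τ k x = 0 := by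
  have := t_mono (show k + 1 ≤ k + 2 by omega)
  rw [τ, ρ_big (k + 1) h, ρ_big k (by omega), sub_self]

lemma τ_abs (k : ℕ) (x : ℤ) : |τ k x| ≤ 1 := by
  have := ρ_nn k x; have := ρ_le k x; have := ρ_nn (k + 1) x; have := ρ_le (k + 1) x
  rw [τ, abs_le]; constructor <;> linarith

lemma τ_sum (M : ℕ) : HasSum (fun k => τ k M) (ρ 0 M) := by
  have hs : Summable fun k => ρ k M :=
    Summable.of_nonneg_of_le (fun k => ρ_nn k M) (fun k => ρ_lin k M) (t_summ.mul_left _)
  have h2 := hs.hasSum.sub ((summable_nat_add_iff 1).2 hs).hasSum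
  rw [hs.tsum_eq_zero_add, add_sub_cancel_right] at h2
  exact h2

lemma φ_fin (i : ℕ) {j : ℤ} (h : j ≤ n i) :
    φ j = ∑ k ∈ range (i + 1), d k * τ k (n k - j) := by
  refine tsum_eq_sum fun k hk => ?_
  have h1 : i < k := by simpa using hk
  have h2 := t_lt (show i + 2 < k + 2 by omega)
  rw [τ_big k (by unfold n at *; omega), mul_zero]

lemma φ_neg {j : ℤ} (h : j < 0) : φ j = 0 := by
  rw [φ]
  refine (tsum_congr fun k => ?_).trans tsum_zero
  rw [τ_big k (by unfold n; omega), mul_zero]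

lemma n_mono {i k : ℕ} (h : i ≤ k) : n i ≤ n k := by
  have := t_mono (show i + 2 ≤ k + 2 by omega)
  unfold n; omega

lemma φ_n (i : ℕ) : φ (n i) = 0 := by
  rw [φ_fin i le_rfl]
  refine sum_eq_zero fun k hk => ?_
  have := n_mono (show k ≤ i by simpa [Nat.lt_succ_iff] using hk)
  rw [τ_neg k (by omega), mul_zero]

lemma ind_sum (s : Finset ℕ) (p : ℤ) : ∑ j ∈ s, (if (j : ℤ) = p then (1 : ℝ) else 0) ≤ 1 := by
  rw [sum_boole]
  have : (s.filter fun j : ℕ => (j : ℤ) = p).card ≤ 1 :=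
    card_le_one.2 fun a ha b hb => by
      have := (mem_filter.1 ha).2; have := (mem_filter.1 hb).2; omega
  exact_mod_cast this

lemma ρ_d2 (k : ℕ) (s : Finset ℕ) (a : ℤ) :
    ∑ j ∈ s, |ρ k (a - j) - 2 * ρ k (a - (j - 1)) + ρ k (a - (j - 2))| ≤ 2 / t (k + 1) := by
  have hp := t_pos (k + 1)
  have h : ∀ j : ℕ, |ρ k (a - j) - 2 * ρ k (a - (j - 1)) + ρ k (a - (j - 2))| ≤
      ((if (j : ℤ) = a + 1 then (1 : ℝ) else 0) +
        (if (j : ℤ) = a + 1 - t (k + 1) then (1 : ℝ) else 0)) / t (k + 1) := fun j => by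
    have e : w (t (k + 1)) (a - j) - 2 * w (t (k + 1)) (a - (j - 1)) + w (t (k + 1)) (a - (j - 2))
        = (if (j : ℤ) = a + 1 then 1 else 0) - (if (j : ℤ) = a + 1 - t (k + 1) then 1 else 0) := by
      unfold w; split_ifs <;> omega
    have e2 : ρ k (a - j) - 2 * ρ k (a - (j - 1)) + ρ k (a - (j - 2)) =
        ((if (j : ℤ) = a + 1 then (1 : ℝ) else 0) -
          (if (j : ℤ) = a + 1 - t (k + 1) then (1 : ℝ) else 0)) / t (k + 1) := by
      have := congrArg (fun z : ℤ => (z : ℝ)) e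
      push_cast at this
      simp only [ρ]
      rw [← this]; ring
    rw [e2, abs_div, abs_of_pos hp]
    refine div_le_div_of_nonneg_right ?_ hp.le
    split_ifs <;> norm_num
  refine (sum_le_sum fun j _ => h j).trans ?_
  rw [← sum_div, sum_add_distrib]
  refine div_le_div_of_nonneg_right ?_ hp.le
  have := ind_sum s (a + 1); have := ind_sum s (a + 1 - t (k + 1)); linarith

lemma le_n (i : ℕ) : i ≤ n i := by
  have h1 := t_ge (i + 2)
  have h2 : i + 2 + 1 < 2 ^ (i + 2 + 1) := Nat.lt_pow_self (by norm_num)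
  unfold n; omega

lemma ψ_summ : Summable fun j : ℕ => |φ j - 2 * φ (j - 1) + φ (j - 2)| := by
  refine summable_of_sum_le (c := 4 * ∑' k, 1 / (t k : ℝ)) (fun j => abs_nonneg _) fun s => ?_
  set i := s.sup id
  have hb : ∀ j ∈ s, |φ j - 2 * φ (j - 1) + φ (j - 2)| ≤ ∑ k ∈ range (i + 1), d k *
      (|ρ k (n k - j) - 2 * ρ k (n k - (j - 1)) + ρ k (n k - (j - 2))| +
        |ρ (k + 1) (n k - j) - 2 * ρ (k + 1) (n k - (j - 1)) + ρ (k + 1) (n k - (j - 2))|) := by
    intro j hj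
    have h1 : j ≤ i := le_sup (f := id) hj
    have h2 := le_n i
    rw [φ_fin i (j := j) (by omega), φ_fin i (j := j - 1) (by omega),
      φ_fin i (j := j - 2) (by omega), mul_sum, ← sum_sub_distrib, ← sum_add_distrib]
    refine (abs_sum_le_sum_abs _ _).trans (sum_le_sum fun k _ => ?_)
    have hd : 0 ≤ d k := by unfold d; positivity
    rw [show d k * τ k (n k - j) - 2 * (d k * τ k (n k - (j - 1))) + d k * τ k (n k - (j - 2))
      = d k * ((ρ k (n k - j) - 2 * ρ k (n k - (j - 1)) + ρ k (n k - (j - 2))) -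
        (ρ (k + 1) (n k - j) - 2 * ρ (k + 1) (n k - (j - 1)) + ρ (k + 1) (n k - (j - 2)))) by
        simp only [τ]; ring, abs_mul, abs_of_nonneg hd]
    exact mul_le_mul_of_nonneg_left (abs_sub _ _) hd
  refine (sum_le_sum hb).trans ?_
  rw [sum_comm]
  have h3 : ∀ k ∈ range (i + 1), ∑ j ∈ s, d k *
      (|ρ k (n k - j) - 2 * ρ k (n k - (j - 1)) + ρ k (n k - (j - 2))| +
        |ρ (k + 1) (n k - j) - 2 * ρ (k + 1) (n k - (j - 1)) + ρ (k + 1) (n k - (j - 2))|)
        ≤ 4 * (1 / (t k : ℝ)) := fun k _ => by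
    rw [← mul_sum, sum_add_distrib]
    have a1 := ρ_d2 k s (n k)
    have a2 := ρ_d2 (k + 1) s (n k)
    have a3 : (2 : ℝ) / t (k + 1 + 1) ≤ 2 / t (k + 1) :=
      div_le_div_of_nonneg_left (by norm_num) (t_pos _) (by exact_mod_cast t_mono (Nat.le_succ _))
    have hp := t_pos k
    calc _ ≤ d k * (4 / t (k + 1)) := by
          refine mul_le_mul_of_nonneg_left ?_ (by unfold d; positivity)
          have : (4 : ℝ) / t (k + 1) = 2 / t (k + 1) + 2 / t (k + 1) := by ring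
          linarith
      _ = _ := by rw [d, t_succ]; push_cast; field_simp
  refine (sum_le_sum h3).trans ?_
  rw [← mul_sum]
  exact mul_le_mul_of_nonneg_left (t_summ.sum_le_tsum _ fun k _ => by
    have := t_pos k; positivity) (by norm_num)

noncomputable def Er (i M : ℕ) : ℝ := 1 / d i * ∑ k ∈ range i, d k * τ k (n k - (n i - M))

lemma split (i M : ℕ) : 1 / d i * φ (n i - M) = τ i M + Er i M := by
  have hd : d i ≠ 0 := by have := t_pos i; unfold d; positivity
  rw [φ_fin i (by omega), sum_range_succ, Er, show (n i : ℤ) - (n i - M) = M by ring]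
  field_simp
  ring

lemma d_sum (i : ℕ) : ∑ k ∈ range (i + 1), d k ≤ 2 * d i := by
  induction i with
  | zero => have := t_pos 0; simp only [zero_add, sum_range_one]; unfold d; nlinarith [pow_pos this 3]
  | succ i ih =>
    rw [sum_range_succ]
    have h1 : 2 * (t i : ℝ) ≤ t (i + 1) := by exact_mod_cast t_dbl i
    have h2 := pow_le_pow_left₀ (by have := t_pos i; positivity) h1 3
    have h3 := pow_pos (t_pos i) 3
    unfold d at *
    nlinarith

lemma Er_out (i M : ℕ) (h : M ∉ Ico (n (i + 1) - n i) (n (i + 1))) : Er (i + 1) M = 0 := by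
  rw [Er, sum_eq_zero, mul_zero]
  intro k hk
  have h1 := n_mono (show k ≤ i by simpa [Nat.lt_succ_iff] using hk)
  have h2 := n_mono (show i ≤ i + 1 by omega)
  rw [mem_Ico] at h
  by_cases c : M < n (i + 1)
  · rw [τ_neg k (by omega), mul_zero]
  · rw [τ_big k (by have : n k = 2 * t (k + 2) := rfl; omega), mul_zero]

lemma Er_sq (i : ℕ) :
    ∑ M ∈ Ico (n (i + 1) - n i) (n (i + 1)), Er (i + 1) M ^ 2 ≤ (3 * (1 / t i)) ^ 2 := by
  have hp := t_pos i
  have hq := t_pos (i + 1)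
  have hb : ∀ M, Er (i + 1) M ^ 2 ≤ (1 / d (i + 1) * (2 * d i)) ^ 2 := fun M => by
    rw [← sq_abs]
    refine pow_le_pow_left₀ (abs_nonneg _) ?_ 2
    have hd : 0 ≤ 1 / d (i + 1) := by unfold d; positivity
    rw [Er, abs_mul, abs_of_nonneg hd]
    refine mul_le_mul_of_nonneg_left ((abs_sum_le_sum_abs _ _).trans
      ((sum_le_sum fun k _ => ?_).trans (d_sum i))) hd
    have hk : 0 ≤ d k := by unfold d; positivity
    rw [abs_mul, abs_of_nonneg hk]
    exact mul_le_of_le_one_right hk (τ_abs _ _)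
  refine (sum_le_card_nsmul _ _ _ fun M _ => hb M).trans ?_
  have h2 := n_mono (show i ≤ i + 1 by omega)
  rw [Nat.card_Ico, show n (i + 1) - (n (i + 1) - n i) = n i by omega, nsmul_eq_mul, n, d, d,
    t_succ (i + 1), t_succ i]
  push_cast
  rw [← sub_nonneg]
  have : (3 * (1 / (t i : ℝ))) ^ 2 - 2 * ((t i : ℝ) ^ 4) ^ 4 *
      (1 / ((t i : ℝ) ^ 4) ^ 3 * (2 * (t i : ℝ) ^ 3)) ^ 2 = 1 / (t i : ℝ) ^ 2 := by
    field_simp; ring
  rw [this]; positivity

lemma c_summ : Summable fun k => |1 / d k| := by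
  refine Summable.of_nonneg_of_le (fun k => abs_nonneg _) (fun k => ?_) t_summ
  have hp := t_pos k
  have h2 : (2 : ℝ) ≤ t k := by exact_mod_cast t_two k
  rw [abs_of_nonneg (by unfold d; positivity)]
  refine one_div_le_one_div_of_le hp ?_
  unfold d
  nlinarith [mul_pos hp hp]

end Pool.Agent.H28DbrB
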