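import Pool.Agent.Lib.helper28.CapB
import Pool.Agent.Lib.helper28.DbrB

set_option autoImplicit false

namespace Pool.Agent.H28Cap

open Complex MeasureTheory Filter Topology ComplexConjugate Pool.Agent.H28DbrB
open scoped InnerProductSpace ENNReal

noncomputable def W (n : ℕ) : ℝ := 1 - 1 / t n

lemma t2 (n : ℕ) : (2 : ℝ) ≤ t n := by exact_mod_cast t_two n

lemma W0 (n : ℕ) : 0 ≤ W n := by
  rw [W, sub_nonneg, div_le_one (t_pos n)]; linarith [t2 n]

lemma W1 (n : ℕ) : W n < 1 := by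
  have := t_pos n
  rw [W, sub_lt_self_iff]; positivity

lemma den_near (n : ℕ) (x : UnitAddCircle) : ‖(1 - W n * z x) - (1 - z x)‖ = 1 / t n := by
  have := t_pos n
  rw [show (1 - W n * z x) - (1 - z x) = ((1 / t n : ℝ) : ℂ) * z x by rw [W]; push_cast; ring,
    norm_mul, z_norm, norm_real, Real.norm_eq_abs, abs_of_pos (by positivity), mul_one]

lemma den_lo (n : ℕ) (x : UnitAddCircle) : ‖1 - z x‖ - 1 / t n ≤ ‖1 - W n * z x‖ := by
  have := norm_sub_norm_le (1 - z x) (1 - W n * z x)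
  rw [norm_sub_rev (1 - z x), den_near] at this
  linarith

lemma den_hi (n : ℕ) (x : UnitAddCircle) : ‖1 - W n * z x‖ ≤ ‖1 - z x‖ + 1 / t n := by
  have := norm_sub_norm_le (1 - W n * z x) (1 - z x)
  rw [den_near] at this
  linarith

lemma den_e (n : ℕ) (x : UnitAddCircle) : 1 / t n ≤ ‖1 - W n * z x‖ := by
  simpa [W] using den_ge (W0 n) x

lemma B_add (n : ℕ) (x : UnitAddCircle) : ‖B (W n) x + 1‖ ≤ 2 * ‖1 - z x‖ * t n := by
  have hp := t_pos n
  have e : B (W n) x + 1 = ((1 + W n : ℝ) : ℂ) * (1 - z x) * k (W n) x := by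
    rw [B]; push_cast; linear_combination -k_eq (W0 n) (W1 n) x
  have h1 : ‖k (W n) x‖ ≤ t n := by
    rw [k, norm_inv]
    exact inv_le_of_inv_le₀ hp (by simpa using den_e n x)
  rw [e, norm_mul, norm_mul, norm_real, Real.norm_eq_abs, abs_of_nonneg (by linarith [W0 n])]
  gcongr
  linarith [W1 n]

lemma B_sub (n : ℕ) {x : UnitAddCircle} (h : 0 < ‖1 - z x‖) :
    ‖B (W n) x - 1‖ ≤ 4 / ‖1 - z x‖ * (1 / t n) := by
  have hp := t_pos n
  have e : B (W n) x - 1 = -(((1 / t n : ℝ) : ℂ) * (1 + z x) * k (W n) x) := by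
    have := k_eq (W0 n) (W1 n) x
    rw [B]; rw [W] at *; push_cast at *; linear_combination this
  have h1 : ‖k (W n) x‖ ≤ 2 / ‖1 - z x‖ := by
    rw [k, norm_inv, ← inv_div]
    exact inv_anti₀ (by positivity) (by linarith [den_e n x, den_lo n x])
  have h2 : ‖1 + z x‖ ≤ 2 := (norm_add_le _ _).trans (by rw [z_norm]; norm_num)
  rw [e, norm_neg, norm_mul, norm_mul, norm_real, Real.norm_eq_abs, abs_of_pos (by positivity)]
  calc _ ≤ 1 / t n * 2 * (2 / ‖1 - z x‖) := by gcongr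
    _ = _ := by ring

noncomputable def Q (N : ℕ) (x : UnitAddCircle) : ℂ :=
  (1 / 2 + 1 / 2 * z x) * ∏ n ∈ Finset.range N, B (W n) x

lemma Q_succ (N : ℕ) (x : UnitAddCircle) : Q (N + 1) x = Q N x * B (W N) x := by
  rw [Q, Q, Finset.prod_range_succ, mul_assoc]

lemma h_le (x : UnitAddCircle) : ‖1 / 2 + 1 / 2 * z x‖ ≤ 1 :=
  (norm_add_le _ _).trans (by rw [norm_mul, z_norm]; norm_num)

lemma Q_norm (N : ℕ) (x : UnitAddCircle) : ‖Q N x‖ = ‖1 / 2 + 1 / 2 * z x‖ := by
  simp [Q, B_norm (W0 _) (W1 _)]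

lemma Q_mult (N : ℕ) : Mult (Q N) := by
  induction N with
  | zero => simpa [funext (Q.eq_1 0)] using mult_lin (1 / 2) (1 / 2)
  | succ N ih => rw [funext (Q_succ N)]; exact ih.mul (mult_B (W0 _) (W1 _))

lemma step {a b c d : ℂ} (ha : ‖a‖ ≤ 1) (hd : ‖d‖ = 1) : ‖a * b - c * d‖ ≤ ‖b - d‖ + ‖a - c‖ := by
  rw [show a * b - c * d = a * (b - d) + (a - c) * d by ring]
  refine (norm_add_le _ _).trans ?_
  rw [norm_mul, norm_mul, hd, mul_one]
  exact add_le_add_left (mul_le_of_le_one_left (norm_nonneg _) ha) _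

lemma Q_est (i : ℕ) (x : UnitAddCircle) :
    ‖Q (i + 1) x - (-1) ^ (i + 1)‖ ≤ ‖1 - z x‖ / 2 + 4 * ‖1 - z x‖ * t i := by
  have h0 : ∀ N, ‖Q (N + 1) x - (-1) ^ (N + 1)‖ ≤ 2 * ‖1 - z x‖ * t N + ‖Q N x - (-1) ^ N‖ :=
    fun N => by
      rw [Q_succ, pow_succ]
      refine (step ((Q_norm N x).le.trans (h_le x)) (by simp)).trans ?_
      rw [sub_neg_eq_add]
      exact add_le_add_left (B_add N x) _
  induction i with
  | zero =>
    have h1 := h0 0
    have h2 : Q 0 x - (-1) ^ 0 = -(1 / 2 * (1 - z x)) := by simp [Q]; ring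
    rw [h2, norm_neg, norm_mul, show ‖(1 / 2 : ℂ)‖ = 1 / 2 by simp] at h1
    nlinarith [mul_nonneg (norm_nonneg (1 - z x)) (t_pos 0).le]
  | succ i ih =>
    have h1 : 2 * (t i : ℝ) ≤ t (i + 1) := by exact_mod_cast t_dbl i
    nlinarith [h0 (i + 1), mul_le_mul_of_nonneg_left h1 (norm_nonneg (1 - z x))]

noncomputable def V (j m : ℕ) (x : UnitAddCircle) : ℂ := conj (B (W j) x) * Q (j + 1 + m) x

lemma V_zero (j : ℕ) (x : UnitAddCircle) : V j 0 x = Q j x := by
  rw [V, add_zero, Q_succ]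
  linear_combination (Q j x) * B_conj (W0 j) (W1 j) x

lemma V_succ (j m : ℕ) (x : UnitAddCircle) : V j (m + 1) x = V j m x * B (W (j + 1 + m)) x := by
  rw [V, V, ← add_assoc, Q_succ, mul_assoc]

lemma V_mult (j m : ℕ) : Mult (V j m) := by
  induction m with
  | zero => rw [funext (V_zero j)]; exact Q_mult j
  | succ m ih => rw [funext (V_succ j m)]; exact ih.mul (mult_B (W0 _) (W1 _))

lemma V_le (j m : ℕ) (x : UnitAddCircle) : ‖V j m x‖ ≤ 1 := by
  rw [V, norm_mul, norm_conj, B_norm (W0 _) (W1 _), one_mul, Q_norm]; exact h_le x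

lemma V_est (j m : ℕ) {x : UnitAddCircle} (h : 0 < ‖1 - z x‖) (c : ℂ) :
    ‖V j m x - c‖ ≤ ‖Q j x - c‖ + 8 / ‖1 - z x‖ * (1 / t (j + 1) - 1 / t (j + 1 + m)) := by
  induction m with
  | zero => simp [V_zero]
  | succ m ih =>
    have h1 := step (b := B (W (j + 1 + m)) x) (c := c) (V_le j m x) norm_one
    have h2 := B_sub (j + 1 + m) h
    have h3 : 2 * (t (j + 1 + m) : ℝ) ≤ t (j + 1 + (m + 1)) := by exact_mod_cast t_dbl (j + 1 + m)
    have h4 : 1 / (t (j + 1 + (m + 1)) : ℝ) ≤ 1 / t (j + 1 + m) / 2 := by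
      rw [div_div, mul_comm]
      exact one_div_le_one_div_of_le (by have := t_pos (j + 1 + m); positivity) h3
    have h5 := mul_le_mul_of_nonneg_left h4 (show 0 ≤ 8 / ‖1 - z x‖ by positivity)
    rw [mul_one, ← V_succ] at h1
    have h6 : 8 / ‖1 - z x‖ = 2 * (4 / ‖1 - z x‖) := by ring
    rw [h6] at ih h5 ⊢
    linarith

lemma z_coe (s : ℝ) : z (s : UnitAddCircle) = exp (I * (2 * Real.pi * s : ℝ)) := by
  rw [z, fourier_coe_apply]; congr 1; push_cast; ring

lemma vol_eq : (volume : Measure UnitAddCircle) = μ := by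
  rw [AddCircle.volume_eq_smul_haarAddCircle]; simp

lemma z_ne : ∀ᵐ x ∂μ, 0 < ‖1 - z x‖ := by
  rw [← vol_eq]
  have h0 : volume ({0} : Set UnitAddCircle) = 0 := by
    rw [← Metric.closedBall_zero, AddCircle.volume_closedBall]; simp
  filter_upwards [measure_eq_zero_iff_ae_notMem.1 h0] with x hx
  refine norm_pos_iff.2 fun e => hx (AddCircle.injective_toCircle one_ne_zero (Subtype.ext ?_))
  rw [← fourier_one, AddCircle.toCircle_zero]
  exact (sub_eq_zero.1 e).symm

lemma ex_b : ∃ b : UnitAddCircle → ℂ, Bd b ∧ (∀ x, ‖b x‖ ≤ 1) ∧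
    ∀ x, 0 < ‖1 - z x‖ → Tendsto (fun N => Q N x) atTop (𝓝 (b x)) := by
  classical
  have h : ∀ x, ∃ y, Tendsto (fun N => if 0 < ‖1 - z x‖ then Q N x else 0) atTop (𝓝 y) := fun x => by
    split_ifs with hx
    · have h1 := multipliable_one_add_of_summable (f := fun n => B (W n) x - 1)
        (Summable.of_nonneg_of_le (fun _ => norm_nonneg _) (fun n => B_sub n hx)
          (t_summ.mul_left _))
      simp only [add_sub_cancel] at h1
      exact ⟨_, h1.hasProd.tendsto_prod_nat.const_mul _⟩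
    · exact ⟨0, tendsto_const_nhds⟩
  choose b hb using h
  have h1 : ∀ x, ‖b x‖ ≤ 1 := fun x => le_of_tendsto' (hb x).norm fun N => by
    split_ifs
    · exact (Q_norm N x).le.trans (h_le x)
    · simp
  refine ⟨b, ⟨measurable_of_tendsto_metrizable (fun N => Measurable.ite ?_ (Q_mult N).1.1
    measurable_const) (tendsto_pi_nhds.2 hb), 1, h1⟩, h1, fun x hx => by simpa [hx] using hb x⟩
  exact (isOpen_lt continuous_const (by have := z_cont; fun_prop)).measurableSet

def Jr (r s : ℝ) : Set UnitAddCircle := {x | r ≤ ‖1 - z x‖ ∧ ‖1 - z x‖ ≤ s}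

lemma Jr_meas (r s : ℝ) : MeasurableSet (Jr r s) := by
  have : Continuous fun x => ‖1 - z x‖ := by have := z_cont; fun_prop
  exact ((isClosed_le continuous_const this).inter (isClosed_le this continuous_const)).measurableSet

lemma Jr_vol {r s : ℝ} (hr : 0 < r) (hs : s ≤ 7 / 2) : s / 7 - r / 4 ≤ μ.real (Jr r s) := by
  have h1 := (UnitAddCircle.measurePreserving_mk 0).measure_preimage (Jr_meas r s).nullMeasurableSet
  have h2 : Set.Icc (r / 4) (s / 7) ⊆ ((↑) : ℝ → UnitAddCircle) ⁻¹' Jr r s ∩ Set.Ioc 0 (0 + 1) := by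
    intro u ⟨u1, u2⟩
    have u0 : 0 < u := by linarith
    have a1 : ‖1 - z (u : UnitAddCircle)‖ = 2 * Real.sin (Real.pi * u) := by
      rw [norm_sub_rev, z_coe, norm_exp_I_mul_ofReal_sub_one, Real.norm_eq_abs,
        show 2 * Real.pi * u / 2 = Real.pi * u by ring, abs_of_nonneg]
      exact mul_nonneg zero_le_two (Real.sin_nonneg_of_nonneg_of_le_pi (by positivity)
        (by nlinarith [Real.pi_pos]))
    have a2 := Real.mul_le_sin (x := Real.pi * u) (by positivity) (by nlinarith [Real.pi_pos])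
    have a3 := Real.sin_le (x := Real.pi * u) (by positivity)
    rw [show 2 / Real.pi * (Real.pi * u) = 2 * u by field_simp] at a2
    refine ⟨⟨by rw [a1]; linarith, by rw [a1]; nlinarith [Real.pi_lt_d2]⟩, u0, by linarith⟩
  rw [Measure.restrict_apply' measurableSet_Ioc, vol_eq] at h1
  have h3 := measure_mono (μ := volume) h2
  rw [h1, Real.volume_Icc] at h3
  exact (ENNReal.ofReal_le_iff_le_toReal (measure_ne_top _ _)).1 h3

lemma log_int : Integrable (fun x => Real.log ‖1 - z x‖) μ := by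
  have hm : Measurable fun x => Real.log ‖1 - z x‖ :=
    Real.measurable_log.comp (by have := z_cont; fun_prop : Continuous fun x => ‖1 - z x‖).measurable
  rw [← vol_eq, ← (UnitAddCircle.measurePreserving_mk 0).integrable_comp hm.aestronglyMeasurable]
  have h1 := IntervalIntegrable.comp_mul_left
    (circleIntegrable_log_norm_sub_const (a := 1) (c := 0) 1) (c := 2 * Real.pi)
  rw [zero_div, div_self (by positivity), intervalIntegrable_iff_integrableOn_Ioc_of_le
    zero_le_one] at h1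
  rw [zero_add]
  refine h1.congr (ae_of_all _ fun s => ?_)
  simp only [Function.comp, z_coe, circleMap]
  rw [norm_sub_rev, mul_comm I]
  simp

end Pool.Agent.H28Cap
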