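import Mathlib

namespace Pool.Agent.H28Cut

open Finset

/-- Sign of a bit. -/
def sg (t : ZMod 2) : ℝ := if t = 0 then 1 else -1

lemma sg_add (t : ZMod 2) : sg (t + 1) = -sg t := by
  fin_cases t
  · show sg 1 = -sg 0
    simp [sg]
  · show sg (1 + 1) = -sg 1
    rw [show (1 + 1 : ZMod 2) = 0 from rfl]; simp [sg]

lemma sg_sq (t : ZMod 2) : sg t ^ 2 = 1 := by unfold sg; split_ifs <;> norm_num

variable {K : ℕ}

/-- The lazy walk on the cube. -/
noncomputable def W (K : ℕ) (q : ℝ) : Module.End ℝ ((Fin K → ZMod 2) → ℝ) where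
  toFun g y := (1 - q) * g y + q / K * ∑ k, g (y + Pi.single k 1)
  map_add' g h := by ext y; simp only [Pi.add_apply, sum_add_distrib]; ring
  map_smul' c g := by
    ext y; simp only [Pi.smul_apply, smul_eq_mul, RingHom.id_apply, ← mul_sum]; ring

lemma W_apply (q : ℝ) (g : (Fin K → ZMod 2) → ℝ) (y : Fin K → ZMod 2) :
    W K q g y = (1 - q) * g y + q / K * ∑ k, g (y + Pi.single k 1) := rfl

lemma adj (q : ℝ) (g h : (Fin K → ZMod 2) → ℝ) : ∑ y, W K q g y * h y = ∑ y, g y * W K q h y := by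
  have : ∀ k : Fin K, ∑ y, g (y + Pi.single k 1) * h y = ∑ y, g y * h (y + Pi.single k 1) := by
    intro k
    rw [← Equiv.sum_comp (Equiv.addRight (Pi.single k 1 : Fin K → ZMod 2))]
    refine sum_congr rfl fun y _ => ?_
    rw [Equiv.coe_addRight, add_assoc, ← Pi.single_add, show (1 + 1 : ZMod 2) = 0 from rfl]
    simp
  simp only [W_apply, add_mul, mul_add, sum_add_distrib, mul_assoc, sum_mul, mul_sum]
  congr 1
  · exact sum_congr rfl fun y _ => by ring
  · rw [sum_comm, sum_comm (s := univ) (f := fun y k => g y * _)]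
    refine sum_congr rfl fun k _ => ?_
    rw [← mul_sum, this, mul_sum]
    exact sum_congr rfl fun y _ => by ring

lemma adj_pow (q : ℝ) (n : ℕ) : ∀ g h : (Fin K → ZMod 2) → ℝ,
    ∑ y, (W K q ^ n) g y * h y = ∑ y, g y * (W K q ^ n) h y := by
  induction n with
  | zero => simp
  | succ n ih =>
    intro g h
    conv_lhs => rw [pow_succ]
    rw [pow_succ', Module.End.mul_apply, Module.End.mul_apply, ih, adj]

lemma eig {q l : ℝ} {h : (Fin K → ZMod 2) → ℝ} (e : W K q h = l • h) (n : ℕ) :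
    (W K q ^ n) h = l ^ n • h := by
  induction n with
  | zero => simp
  | succ n ih => rw [pow_succ', Module.End.mul_apply, ih, map_smul, e, smul_smul, ← pow_succ]

/-- The point mass. -/
noncomputable def F (K : ℕ) (y : Fin K → ZMod 2) : ℝ := if y = 0 then 2 ^ K else 0

lemma test (q : ℝ) (n : ℕ) (h : (Fin K → ZMod 2) → ℝ) :
    ∑ y, (W K q ^ n) (F K) y * h y = 2 ^ K * (W K q ^ n) h 0 := by
  rw [adj_pow]; simp [F]

lemma bnd (hK : 0 < K) {q : ℝ} (q0 : 0 ≤ q) (q1 : q ≤ 1) (n : ℕ) :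
    ∀ y, 0 ≤ (W K q ^ n) (F K) y ∧ (W K q ^ n) (F K) y ≤ 2 ^ K := by
  induction n with
  | zero => intro y; simp only [pow_zero, Module.End.one_apply, F]; split_ifs <;> simp
  | succ n ih =>
    intro y
    rw [pow_succ', Module.End.mul_apply, W_apply]
    have hK' : (0 : ℝ) < K := by exact_mod_cast hK
    have a := sum_nonneg (s := univ) fun (k : Fin K) _ => (ih (y + Pi.single k 1)).1
    have b := sum_le_sum (s := univ) fun (k : Fin K) _ => (ih (y + Pi.single k 1)).2
    simp only [sum_const, card_univ, Fintype.card_fin, nsmul_eq_mul] at b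
    have c := mul_le_mul_of_nonneg_left b (div_nonneg q0 hK'.le)
    rw [← mul_assoc, div_mul_cancel₀ _ hK'.ne'] at c
    have d := mul_le_mul_of_nonneg_left (ih y).2 (sub_nonneg.mpr q1)
    exact ⟨add_nonneg (mul_nonneg (by linarith) (ih y).1) (by positivity), by linarith⟩

lemma W_chi (hK : 0 < K) (q : ℝ) (S : Finset (Fin K)) :
    W K q (fun y => ∏ k ∈ S, sg (y k)) = (1 - S.card * (2 * q / K)) • fun y => ∏ k ∈ S, sg (y k) := by
  have hK' : (K : ℝ) ≠ 0 := by exact_mod_cast hK.ne'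
  ext y
  have : ∀ l : Fin K, ∏ k ∈ S, sg ((y + (Pi.single l 1 : Fin K → ZMod 2)) k) =
      ∏ k ∈ S, sg (y k) - if l ∈ S then 2 * ∏ k ∈ S, sg (y k) else 0 := by
    intro l
    have e : ∀ k ∈ S.erase l, sg ((y + (Pi.single l 1 : Fin K → ZMod 2)) k) = sg (y k) := by
      intro k hk
      rw [Pi.add_apply, Pi.single_eq_of_ne (ne_of_mem_erase hk), add_zero]
    split_ifs with h
    · rw [← mul_prod_erase _ _ h, ← mul_prod_erase _ _ h, prod_congr rfl e, Pi.add_apply,
        Pi.single_eq_same, sg_add]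
      ring
    · rw [erase_eq_of_notMem h] at e
      rw [prod_congr rfl e, sub_zero]
  simp only [W_apply, this, sum_sub_distrib, sum_const, card_univ, Fintype.card_fin, nsmul_eq_mul,
    sum_ite_mem, univ_inter, Pi.smul_apply, smul_eq_mul]
  field_simp
  ring

lemma F_eq : F K = ∑ S : Finset (Fin K), fun y => ∏ k ∈ S, sg (y k) := by
  ext y
  rw [Finset.sum_apply, ← powerset_univ, ← prod_one_add, F]
  split_ifs with h
  · simp [h, sg]; norm_num
  · obtain ⟨k, hk⟩ := Function.ne_iff.mp h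
    exact (prod_eq_zero (mem_univ k) (by simp only [sg]; rw [if_neg (show ¬ y k = 0 from hk)]; ring)).symm

lemma ret (hK : 0 < K) {q : ℝ} (q0 : 0 ≤ q) (q1 : q ≤ 1 / 2) (n : ℕ) :
    (W K q ^ n) (F K) 0 ≤ (1 + (1 - 2 * q / K) ^ n) ^ K := by
  have hK' : (1 : ℝ) ≤ K := by exact_mod_cast hK
  have e : (1 + (1 - 2 * q / K) ^ n) ^ K = ∏ _k : Fin K, (1 + (1 - 2 * q / K) ^ n) := by simp
  rw [e, prod_one_add, powerset_univ, F_eq, map_sum, Finset.sum_apply]
  refine sum_le_sum fun S _ => ?_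
  rw [eig (W_chi hK q S)]
  simp only [Pi.smul_apply, Pi.zero_apply, sg, if_true, prod_const, one_pow, smul_eq_mul, mul_one]
  rw [← pow_mul, mul_comm n, pow_mul]
  have c : (S.card : ℝ) ≤ K := by simpa using card_le_univ S
  have d : 2 * q / K ≤ 1 := by rw [div_le_one (by positivity)]; linarith
  have d0 : 0 ≤ 2 * q / K := by positivity
  refine pow_le_pow_left₀ ?_ ?_ n
  · have := mul_le_mul_of_nonneg_right c d0
    rw [mul_div_cancel₀ _ (by positivity)] at this
    linarith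
  · have := one_add_mul_le_pow (a := -(2 * q / K)) (by linarith) S.card
    simpa [sub_eq_add_neg] using this

lemma cutoff (hK : 0 < K) {q : ℝ} (q0 : 0 < q) (q1 : q ≤ 1 / 4) {n1 n2 : ℕ}
    (h1 : 100 ≤ K * (1 - 2 * q / K) ^ (2 * n1)) (h2 : K * (1 - 2 * q / K) ^ (2 * n2) ≤ 1 / 200) :
    (2 : ℝ) ^ K / 2 ≤ (univ.filter fun y =>
      1 / 2 ≤ (W K q ^ n2) (F K) y - (W K q ^ n1) (F K) y).card := by
  have hK' : (1 : ℝ) ≤ K := by exact_mod_cast hK
  have K0 : (K : ℝ) ≠ 0 := by positivity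
  set l := 1 - 2 * q / K with hl
  have d : 4 * q / K ≤ 1 := by rw [div_le_one (by positivity)]; linarith
  have d0 : 0 < 2 * q / K := by positivity
  have d2 : 4 * q / K = 2 * (2 * q / K) := by ring
  have l0 : 0 < l := by linarith
  let V : (Fin K → ZMod 2) → ℝ := fun y => ∑ k, sg (y k)
  have V1 : ∀ y k, V (y + Pi.single k 1) = V y - 2 * sg (y k) := by
    intro y k
    simp only [V]
    rw [← add_sum_erase _ _ (mem_univ k), ← add_sum_erase _ (fun k => sg (y k)) (mem_univ k),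
      Pi.add_apply, Pi.single_eq_same, sg_add, sum_congr rfl fun j hj => by
        rw [Pi.add_apply, Pi.single_eq_of_ne (ne_of_mem_erase hj), add_zero]]
    ring
  have V0 : V 0 = K := by simp [V, sg]
  have e0 : W K q (fun _ => 1) = (1 : ℝ) • fun _ => 1 := by
    ext y; simp [W_apply]; field_simp; ring
  have e1 : W K q V = l • V := by
    ext y
    simp only [W_apply, V1, sum_sub_distrib, ← mul_sum, sum_const, card_univ, Fintype.card_fin,
      nsmul_eq_mul, Pi.smul_apply, smul_eq_mul, hl]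
    change _ + _ * (_ - 2 * V y) = _
    field_simp
    ring
  have e2 : W K q (fun y => V y ^ 2 - K) = (1 - 4 * q / K) • fun y => V y ^ 2 - K := by
    ext y
    have : ∀ k, (V y - 2 * sg (y k)) ^ 2 - K = V y ^ 2 + 4 - K - 4 * V y * sg (y k) := fun k => by
      linear_combination 4 * sg_sq (y k)
    simp only [W_apply, V1, this, sum_sub_distrib, ← mul_sum, sum_const, card_univ,
      Fintype.card_fin, nsmul_eq_mul, Pi.smul_apply, smul_eq_mul]
    change _ + _ * (_ - 4 * V y * V y) = _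
    field_simp
    ring
  have card : ∑ _y : Fin K → ZMod 2, (1 : ℝ) = 2 ^ K := by simp
  set g1 := (W K q ^ n1) (F K) with hg1
  set g2 := (W K q ^ n2) (F K) with hg2
  set m := K * l ^ n1 with hm
  have m0 : 0 < m := by positivity
  have mm : 100 * K ≤ m ^ 2 := by
    rw [hm, mul_pow, ← pow_mul, mul_comm n1, sq, mul_assoc, mul_comm]; gcongr
  have N0 : (0 : ℝ) < 2 ^ K := by positivity
  have s1 : ∑ y, V y ^ 2 = 2 ^ K * K := by
    have := adj q (fun y => V y ^ 2 - K) fun _ => 1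
    rw [e0, e2] at this
    simp only [Pi.smul_apply, smul_eq_mul, mul_one, ← mul_sum] at this
    have h : ∑ y, (V y ^ 2 - K) = 0 := by
      by_contra h
      have := mul_right_cancel₀ h (this.trans (one_mul _).symm)
      linarith
    simpa [sum_sub_distrib, sub_eq_zero] using h
  have s2 : ∑ y, g1 y * (V y - m) ^ 2 ≤ 2 ^ K * K := by
    have a := test q n1 (fun _ : Fin K → ZMod 2 => 1)
    have b := test q n1 V
    have c := test q n1 fun y => V y ^ 2 - K
    rw [eig e0] at a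
    rw [eig e1] at b
    rw [eig e2] at c
    simp only [Pi.smul_apply, smul_eq_mul, V0, one_pow, mul_one, ← hg1] at a b c
    have : ∑ y, g1 y * (V y - m) ^ 2 = ∑ y, g1 y * (V y ^ 2 - K) - 2 * m * ∑ y, g1 y * V y +
        (K + m ^ 2) * ∑ y, g1 y := by
      simp only [mul_sum, ← sum_sub_distrib, ← sum_add_distrib]
      exact sum_congr rfl fun y _ => by ring
    rw [this, a, b, c]
    have p : (1 - 4 * q / K) ^ n1 ≤ (l ^ n1) ^ 2 := by
      rw [← pow_mul, mul_comm n1, pow_mul]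
      exact pow_le_pow_left₀ (by linarith) (by rw [hl, d2]; nlinarith [sq_nonneg (2 * q / K)]) _
    have p0 : 0 ≤ (1 - 4 * q / K) ^ n1 := pow_nonneg (by linarith) _
    have : (1 - 4 * q / K) ^ n1 * (K ^ 2 - K) ≤ m ^ 2 := by
      rw [hm, mul_pow]; nlinarith [mul_nonneg p0 (zero_le_one.trans hK')]
    rw [mul_comm (l ^ n1), ← hm]
    nlinarith
  have s3 : ∑ y, (g2 y - 1) ^ 2 ≤ 2 ^ K / 100 := by
    have a := test q n2 (fun _ : Fin K → ZMod 2 => 1)
    have b := test q n2 g2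
    rw [eig e0] at a
    rw [hg2, ← Module.End.mul_apply, ← pow_add, ← two_mul, ← hg2] at b
    simp only [Pi.smul_apply, smul_eq_mul, one_pow, mul_one, ← hg2] at a
    have : ∑ y, (g2 y - 1) ^ 2 = ∑ y, g2 y * g2 y - 2 * ∑ y, g2 y + ∑ _y : Fin K → ZMod 2, 1 := by
      simp only [mul_sum, ← sum_sub_distrib, ← sum_add_distrib]
      exact sum_congr rfl fun y _ => by ring
    rw [this, a, b, card]
    have r := ret hK q0.le (by linarith) (2 * n2)
    rw [← hl] at r
    set x := l ^ (2 * n2)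
    have x0 : 0 ≤ x := by positivity
    have x1 : x ≤ 1 := by nlinarith
    have u := one_add_mul_le_pow (a := -x) (by linarith) K
    have v : (1 + x) ^ K * (1 + -x) ^ K ≤ 1 := by
      rw [← mul_pow]; exact pow_le_one₀ (by nlinarith) (by nlinarith)
    have w : (0 : ℝ) ≤ (1 + x) ^ K := by positivity
    have : (1 + x) ^ K ≤ 101 / 100 := by nlinarith
    nlinarith
  have pt : ∀ y, (1 : ℝ) ≤ (if 1 / 2 ≤ g2 y - g1 y then 1 else 0) + 4 / m ^ 2 * V y ^ 2 +
      16 / m ^ 2 * (g1 y * (V y - m) ^ 2) + 16 * (g2 y - 1) ^ 2 := by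
    intro y
    have p := (bnd hK q0.le (by linarith) n1 y).1
    rw [← hg1] at p
    have a : 0 ≤ 4 / m ^ 2 * V y ^ 2 := by positivity
    have b : 0 ≤ 16 / m ^ 2 * (g1 y * (V y - m) ^ 2) := by positivity
    have c : 0 ≤ 16 * (g2 y - 1) ^ 2 := by positivity
    split_ifs with h
    · linarith
    by_cases k1 : g2 y ≤ 3 / 4
    · nlinarith
    by_cases k2 : m / 2 ≤ V y
    · have : 1 ≤ 4 / m ^ 2 * V y ^ 2 := by
        rw [div_mul_eq_mul_div, le_div_iff₀ (by positivity)]; nlinarith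
      linarith
    · have : 1 ≤ 16 / m ^ 2 * (g1 y * (V y - m) ^ 2) := by
        rw [div_mul_eq_mul_div, le_div_iff₀ (by positivity)]
        have : m ^ 2 / 4 ≤ (V y - m) ^ 2 := by nlinarith
        nlinarith
      linarith
  have tot := sum_le_sum fun y (_ : y ∈ univ) => pt y
  simp only [sum_add_distrib, ← mul_sum, sum_boole, card, s1] at tot
  have t1 : 4 / m ^ 2 * (2 ^ K * K) ≤ 4 / 100 * 2 ^ K := by
    rw [div_mul_eq_mul_div, div_le_iff₀ (by positivity)]; nlinarith
  have t2 : 16 / m ^ 2 * ∑ y, g1 y * (V y - m) ^ 2 ≤ 16 / 100 * 2 ^ K := by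
    rw [div_mul_eq_mul_div, div_le_iff₀ (by positivity)]; nlinarith
  linarith

lemma times (a Q : ℕ) (ha : 1 ≤ a) (hQ : 1 ≤ Q) : ∃ n1 n2 : ℕ, 0 < n1 ∧ n1 < n2 ∧
    a * (n2 - n1) ≤ 40001 * n1 ∧
    100 ≤ ((100 * 2 ^ a : ℕ) : ℝ) * (1 - 2 * (1 / (8 * Q)) / ((100 * 2 ^ a : ℕ) : ℝ)) ^ (2 * n1) ∧
    ((100 * 2 ^ a : ℕ) : ℝ) * (1 - 2 * (1 / (8 * Q)) / ((100 * 2 ^ a : ℕ) : ℝ)) ^ (2 * n2) ≤
      1 / 200 := by
  set K := 100 * 2 ^ a with hK
  have K0 : 0 < K := by positivity
  set m := K * Q with hm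
  have m0 : 0 < m := Nat.mul_pos K0 hQ
  have m1 : (1 : ℝ) ≤ m := by exact_mod_cast m0
  set x : ℝ := 1 / (4 * m) with hx
  have e : (2 * (1 / (8 * Q)) / K : ℝ) = x := by
    have : (Q : ℝ) ≠ 0 := by positivity
    rw [hx, hm]; push_cast; field_simp; ring
  rw [e]
  have x0 : 0 < x := by positivity
  have x1 : x ≤ 1 / 4 := by rw [hx]; gcongr; linarith
  have xm : m * x = 1 / 4 := by rw [hx]; field_simp
  have ex : ∃ n, K * (1 - x) ^ (2 * n) < 100 := by
    have t := ((tendsto_pow_atTop_nhds_zero_of_lt_one (r := (1 - x) ^ 2) (by positivity)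
      (by nlinarith)).const_mul (K : ℝ)).eventually (gt_mem_nhds (show (K : ℝ) * 0 < 100 by simp))
    obtain ⟨n, hn⟩ := t.exists
    exact ⟨n, by rwa [pow_mul]⟩
  have lo : ∀ n ≤ a * m, 100 ≤ K * (1 - x) ^ (2 * n) := by
    intro n hn
    have b := one_add_mul_le_pow (a := -x) (by linarith) (2 * m)
    push_cast at b
    have c : ((1 : ℝ) / 2) ^ a ≤ ((1 - x) ^ (2 * m)) ^ a :=
      pow_le_pow_left₀ (by norm_num) (by rw [sub_eq_add_neg]; nlinarith) a
    have d : (1 - x) ^ (2 * m * a) ≤ (1 - x) ^ (2 * n) :=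
      pow_le_pow_of_le_one (by linarith) (by linarith) (by nlinarith)
    rw [← pow_mul] at c
    calc (100 : ℝ) = K * (1 / 2) ^ a := by rw [hK]; push_cast; rw [mul_assoc, ← mul_pow]; simp
      _ ≤ _ := by gcongr; exact c.trans d
  classical
  have n0 : a * m < Nat.find ex := by
    by_contra h
    exact absurd (Nat.find_spec ex) (not_lt.mpr (lo _ (not_lt.mp h)))
  have am : 0 < a * m := Nat.mul_pos ha m0
  obtain ⟨n, hn⟩ : ∃ n, Nat.find ex = n + 1 := ⟨Nat.find ex - 1, by omega⟩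
  refine ⟨n, n + 1 + 40000 * m, by omega, by omega, ?_, not_lt.mp (Nat.find_min ex (by omega)), ?_⟩
  · rw [show n + 1 + 40000 * m - n = 40000 * m + 1 by omega]
    nlinarith
  · have s := Nat.find_spec ex
    rw [hn] at s
    have b := one_add_mul_le_pow (a := x) (by linarith) (2 * (40000 * m))
    have v : (1 - x) ^ (2 * (40000 * m)) * (1 + x) ^ (2 * (40000 * m)) ≤ 1 := by
      rw [← mul_pow]; exact pow_le_one₀ (by nlinarith) (by nlinarith)
    have w : 0 ≤ (1 - x) ^ (2 * (40000 * m)) := pow_nonneg (by linarith) _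
    push_cast at b
    have : (1 - x) ^ (2 * (40000 * m)) ≤ 1 / 20000 := by nlinarith
    rw [mul_add, pow_add, ← mul_assoc]
    nlinarith

end Pool.Agent.H28Cut
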