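import Mathlib
import Pool.Agent.Lib.helper28.CutA

namespace Pool.Agent.H28Cut

open Finset

theorem mix {A E : Type} [NormedAddCommGroup E] [NormedSpace ℝ E] [CompleteSpace E]
    (a : A → ℝ) (ha : ∀ j, 0 ≤ a j) (hs : Summable a)
    (q : A → ℤ → ℝ) (hq : ∀ j m, 0 ≤ q j m) (hq1 : ∀ j, HasSum (q j) 1)
    (g : ℤ → E) (B : ℝ) (hg : ∀ m, ‖g m‖ ≤ B) (G : A → E)
    (hG : ∀ j, HasSum (fun m => q j m • g m) (G j)) :
    HasSum (fun m => (∑' j, a j * q j m) • g m) (∑' j, a j • G j) := by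
  have hf : Summable (fun x : A × ℤ => a x.1 * q x.1 x.2) := by
    rw [summable_prod_of_nonneg (fun x => mul_nonneg (ha _) (hq _ _))]
    refine ⟨fun j => (hq1 j).summable.mul_left (a j), ?_⟩
    have : (fun j => ∑' m, a j * q j m) = a := by
      funext j
      rw [((hq1 j).mul_left (a j)).tsum_eq, mul_one]
    simpa [this] using hs
  have hh : Summable (fun x : A × ℤ => (a x.1 * q x.1 x.2) • g x.2) := by
    refine Summable.of_norm_bounded (hf.mul_right B) (fun x => ?_)
    rw [norm_smul, Real.norm_of_nonneg (mul_nonneg (ha _) (hq _ _))]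
    exact mul_le_mul_of_nonneg_left (hg _) (mul_nonneg (ha _) (hq _ _))
  have h1 : HasSum (fun j => a j • G j) (∑' x : A × ℤ, (a x.1 * q x.1 x.2) • g x.2) := by
    refine hh.hasSum.prod_fiberwise (fun j => ?_)
    simpa [mul_smul] using (hG j).const_smul (a j)
  rw [h1.tsum_eq]
  have h2 := (Equiv.prodComm ℤ A).hasSum_iff.2 hh.hasSum
  refine h2.prod_fiberwise (fun m => ?_)
  have hm : Summable (fun j => a j * q j m) := hf.prod_symm.prod_factor m
  simpa using hm.hasSum.smul_const (g m)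

/-- A lazy symmetric step. -/
noncomputable def st (N m : ℤ) : ℝ :=
  (if m = 0 then 1 / 2 else 0) + (if m = N then 1 / 4 else 0) + (if m = -N then 1 / 4 else 0)

lemma st_nonneg (N m : ℤ) : 0 ≤ st N m := by unfold st; split_ifs <;> norm_num

lemma st_test {E : Type} [NormedAddCommGroup E] [NormedSpace ℝ E] (N : ℤ) (g : ℤ → E) :
    HasSum (fun m => st N m • g m)
      ((1 / 2 : ℝ) • g 0 + (1 / 4 : ℝ) • g N + (1 / 4 : ℝ) • g (-N)) := by
  have h := ((hasSum_ite_eq (0 : ℤ) ((1 / 2 : ℝ) • g 0)).add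
    (hasSum_ite_eq N ((1 / 4 : ℝ) • g N))).add (hasSum_ite_eq (-N) ((1 / 4 : ℝ) • g (-N)))
  convert h using 1
  funext m
  unfold st
  rw [add_smul, add_smul]
  congr 1
  · congr 1 <;> split_ifs with h1 <;> simp [h1]
  · split_ifs with h1 <;> simp [h1]

/-- One stage. -/
noncomputable def sig (K : ℕ) (N : ℕ → ℤ) (m : ℤ) : ℝ := ∑ k : Fin K, (K : ℝ)⁻¹ * st (N k) m

lemma sig_nonneg (K : ℕ) (N : ℕ → ℤ) (m : ℤ) : 0 ≤ sig K N m :=
  sum_nonneg fun _ _ => mul_nonneg (by positivity) (st_nonneg _ _)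

lemma sig_test {E : Type} [NormedAddCommGroup E] [NormedSpace ℝ E] (K : ℕ) (N : ℕ → ℤ)
    (g : ℤ → E) : HasSum (fun m => sig K N m • g m) (∑ k : Fin K, (K : ℝ)⁻¹ •
      ((1 / 2 : ℝ) • g 0 + (1 / 4 : ℝ) • g (N k) + (1 / 4 : ℝ) • g (-N k))) := by
  simp only [sig, sum_smul, mul_smul]
  exact hasSum_sum fun k _ => (st_test (N k) g).const_smul _

lemma sig_sum {K : ℕ} (hK : 0 < K) (N : ℕ → ℤ) : HasSum (sig K N) 1 := by
  have := sig_test K N fun _ => (1 : ℝ)
  have hK' : (K : ℝ) ≠ 0 := by exact_mod_cast hK.ne'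
  norm_num [hK'] at this
  exact this

/-- Convolution operator. -/
noncomputable def T (μ : ℤ → ℝ) (g : ℤ → ℝ) : ℤ → ℝ := fun m => ∑' i : ℤ, μ i * g (m - i)

lemma T_bound {μ : ℤ → ℝ} (h0 : ∀ k, 0 ≤ μ k) (h1 : HasSum μ 1) {g : ℤ → ℝ} {B : ℝ}
    (hg : ∀ m, |g m| ≤ B) (n : ℕ) : ∀ m, |(T μ)^[n] g m| ≤ B := by
  induction n with
  | zero => exact hg
  | succ n ih =>
    intro m
    rw [Function.iterate_succ_apply', ← one_mul B]
    refine tsum_of_norm_bounded (f := fun i => μ i * (T μ)^[n] g (m - i)) (h1.mul_right B)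
      fun i => ?_
    rw [Real.norm_eq_abs, abs_mul, abs_of_nonneg (h0 i)]
    exact mul_le_mul_of_nonneg_left (ih _) (h0 i)

lemma pow_test {μ : ℤ → ℝ} (h0 : ∀ k, 0 ≤ μ k) (h1 : HasSum μ 1) (n : ℕ) :
    (∀ j, 0 ≤ (T μ)^[n] (fun m => if m = 0 then (1 : ℝ) else 0) j) ∧
    ∀ (f : ℤ → ℝ) (B : ℝ), (∀ m, |f m| ≤ B) → ∀ k, HasSum (fun j =>
      (T μ)^[n] (fun m => if m = 0 then (1 : ℝ) else 0) j * f (k - j)) ((T μ)^[n] f k) := by
  induction n with
  | zero =>
    refine ⟨fun j => by simp only [Function.iterate_zero, id]; split_ifs <;> norm_num,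
      fun f B _ k => ?_⟩
    simp only [Function.iterate_zero, id]
    convert hasSum_ite_eq (0 : ℤ) (f k) using 1
    funext j
    split_ifs with h <;> simp [h]
  | succ n ih =>
    simp only [Function.iterate_succ_apply']
    refine ⟨fun j => tsum_nonneg fun i => mul_nonneg (h0 i) (ih.1 _), fun f B hf k => ?_⟩
    refine mix μ h0 h1.summable
      (fun i j => (T μ)^[n] (fun m => if m = 0 then (1 : ℝ) else 0) (j - i))
      (fun i j => ih.1 _) (fun i => ?_) (fun j => f (k - j)) B (fun j => hf _)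
      (fun i => (T μ)^[n] f (k - i)) fun i => ?_
    · have := ih.2 (fun _ => 1) 1 (by simp) 0
      have e : ∀ n m, (T μ)^[n] (fun _ => (1 : ℝ)) m = 1 := by
        intro n
        induction n with
        | zero => simp
        | succ n ih => intro m; simp [Function.iterate_succ_apply', T, ih, h1.tsum_eq]
      simp only [mul_one, e] at this
      exact (Equiv.subRight i).hasSum_iff.2 this
    · have := (Equiv.subRight i).hasSum_iff.2 (ih.2 f B hf (k - i))
      simpa [Function.comp_def] using this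

/-- Parity pattern of the digits. -/
def par (K L : ℕ) (x : ℤ) : Fin K → ZMod 2 := fun k => ((x / (L : ℤ) ^ (k.1 + 1) : ℤ) : ZMod 2)

/-- Points far from carries. -/
def Good (K L R d : ℕ) (x : ℤ) : Prop := 0 ≤ x ∧ x < (L : ℤ) ^ (K + 1) ∧ ∀ l ≤ K,
  (d * R * L ^ l : ℤ) ≤ x % L ^ (l + 1) ∧ x % L ^ (l + 1) + d * R * L ^ l < L ^ (l + 1)

lemma near {K L R d : ℕ} {x s : ℤ} (hL : 0 < L) (h : Good K L R (d + 1) x) {l : ℕ} (hl : l ≤ K)
    (hs : |s| ≤ R * L ^ l) : (x + s) / L ^ (l + 1) = x / L ^ (l + 1) ∧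
      (x + s) % L ^ (l + 1) = x % L ^ (l + 1) + s := by
  obtain ⟨a, b⟩ := h.2.2 l hl
  have p : (0 : ℤ) ≤ d * R * L ^ l := by positivity
  push_cast at a b
  have := abs_le.mp hs
  rw [Int.ediv_emod_unique (by positivity)]
  exact ⟨by linarith [Int.emod_add_mul_ediv x (L ^ (l + 1))], by linarith, by linarith⟩

lemma move {K L R d : ℕ} {x s : ℤ} (hL : 0 < L) (h : Good K L R (d + 1) x)
    (hs : ∀ l ≤ K, |s| ≤ R * L ^ l ∨ (L : ℤ) ^ (l + 1) ∣ s) (hK : |s| ≤ R * L ^ K) :
    Good K L R d (x + s) := by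
  have a := (near hL h le_rfl hK).2
  rw [Int.emod_eq_of_lt h.1 h.2.1] at a
  refine ⟨a ▸ Int.emod_nonneg _ (by positivity), a ▸ Int.emod_lt_of_pos _ (by positivity),
    fun l hl => ?_⟩
  obtain ⟨u, v⟩ := h.2.2 l hl
  have p : (0 : ℤ) ≤ R * L ^ l := by positivity
  push_cast at u v
  rcases hs l hl with e | e
  · rw [(near hL h hl e).2]
    have := abs_le.mp e
    constructor <;> linarith
  · rw [Int.add_emod, Int.emod_eq_zero_of_dvd e, add_zero, Int.emod_emod]
    constructor <;> linarith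

lemma small {K L R d : ℕ} {x s : ℤ} (hL : 0 < L) (h : Good K L R (d + 1) x) (hs : |s| ≤ R) :
    Good K L R d (x + s) ∧ par K L (x + s) = par K L x := by
  have b : ∀ l, |s| ≤ R * L ^ l := fun l =>
    hs.trans (le_mul_of_one_le_right (by positivity) (one_le_pow₀ (by exact_mod_cast hL)))
  refine ⟨move hL h (fun l _ => Or.inl (b l)) (b K), funext fun k => ?_⟩
  simp only [par]
  have e : ∀ y : ℤ, y / (L : ℤ) ^ (k.1 + 1) = y / L ^ (0 + 1) / L ^ k.1 := fun y => by
    rw [Int.ediv_ediv_of_nonneg (by positivity), ← pow_add, add_comm (0 + 1)]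
  rw [e, e, (near hL h (Nat.zero_le _) (b 0)).1]

lemma big {K L R d : ℕ} {x : ℤ} (hL : 0 < L) (h2 : 2 ∣ L) (hR : 1 ≤ R) (h : Good K L R (d + 1) x)
    (k : Fin K) {e : ℤ} (he : e = 1 ∨ e = -1) :
    Good K L R d (x + e * L ^ (k.1 + 1)) ∧
      par K L (x + e * L ^ (k.1 + 1)) = par K L x + Pi.single k 1 := by
  have L1 : (1 : ℤ) ≤ L := by exact_mod_cast hL
  have b : ∀ l, k.1 + 1 ≤ l → |e * (L : ℤ) ^ (k.1 + 1)| ≤ R * L ^ l := fun l hl => by
    have : |e| = 1 := by rcases he with rfl | rfl <;> simp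
    rw [abs_mul, this, abs_of_nonneg (by positivity)]
    gcongr
    exact_mod_cast hR
  refine ⟨move hL h (fun l _ => ?_) (b K k.2), funext fun j => ?_⟩
  · rcases le_or_gt (k.1 + 1) l with c | c
    · exact Or.inl (b l c)
    · exact Or.inr (Dvd.dvd.mul_left (pow_dvd_pow _ (by omega)) _)
  simp only [par, Pi.add_apply]
  rcases lt_trichotomy k j with c | rfl | c
  · have c' : k.1 < j.1 := c
    rw [Pi.single_eq_of_ne c.ne', add_zero, (near hL h (by omega) (b j.1 (by omega))).1]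
  · rw [Int.add_mul_ediv_right _ _ (by positivity), Pi.single_eq_same]
    rcases he with rfl | rfl
    · simp
    · push_cast; rfl
  · have c' : j.1 < k.1 := c
    obtain ⟨i, hi⟩ := Nat.exists_eq_add_of_lt c'
    obtain ⟨u, hu⟩ := h2
    rw [Pi.single_eq_of_ne c.ne, add_zero, show e * (L : ℤ) ^ (k.1 + 1) =
      e * L ^ i * L * L ^ (j.1 + 1) by rw [hi]; ring, Int.add_mul_ediv_right _ _ (by positivity)]
    have : ((L : ℤ) : ZMod 2) = 0 := by
      rw [hu]; push_cast; rw [show (2 : ZMod 2) = 0 from rfl, zero_mul]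
    rw [Int.cast_add, Int.cast_mul, this]; simp

/-- The mixture. -/
noncomputable def mu (w : ℕ → ℝ) (KK : ℕ → ℕ) (NN : ℕ → ℕ → ℤ) (m : ℤ) : ℝ :=
  ∑' i, w i * sig (KK i) (NN i) m

variable {w : ℕ → ℝ} {KK : ℕ → ℕ} {NN : ℕ → ℕ → ℤ}

lemma mu_test {E : Type} [NormedAddCommGroup E] [NormedSpace ℝ E] [CompleteSpace E]
    (w0 : ∀ i, 0 ≤ w i) (w1 : HasSum w 1) (hK : ∀ i, 0 < KK i) (g : ℤ → E) (B : ℝ)
    (hg : ∀ m, ‖g m‖ ≤ B) : HasSum (fun m => mu w KK NN m • g m) (∑' i, w i • ∑ k : Fin (KK i),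
      (KK i : ℝ)⁻¹ • ((1 / 2 : ℝ) • g 0 + (1 / 4 : ℝ) • g (NN i k) + (1 / 4 : ℝ) • g (-NN i k))) :=
  mix w w0 w1.summable _ (fun _ => sig_nonneg _ _) (fun i => sig_sum (hK i) _) g B hg _
    fun _ => sig_test _ _ g

lemma mu_nonneg (w0 : ∀ i, 0 ≤ w i) (m : ℤ) : 0 ≤ mu w KK NN m :=
  tsum_nonneg fun i => mul_nonneg (w0 i) (sig_nonneg _ _ _)

lemma avg_le {K : ℕ} (hK : 0 < K) (a b c : Fin K → ℝ) {v δ : ℝ}
    (h : ∀ k, |a k / 2 + b k / 4 + c k / 4 - v| ≤ δ) : |∑ k : Fin K, (K : ℝ)⁻¹ •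
      ((1 / 2 : ℝ) • a k + (1 / 4 : ℝ) • b k + (1 / 4 : ℝ) • c k) - v| ≤ δ := by
  have hK' : (0 : ℝ) < K := by exact_mod_cast hK
  have e : ∀ u : ℝ, u = ∑ _k : Fin K, (K : ℝ)⁻¹ * u := fun u => by simp; field_simp
  rw [e v, e δ, ← sum_sub_distrib]
  refine (abs_sum_le_sum_abs _ _).trans (sum_le_sum fun k _ => ?_)
  simp only [smul_eq_mul]
  rw [← mul_sub, abs_mul, abs_of_pos (by positivity)]
  exact mul_le_mul_of_nonneg_left (le_of_eq_of_le (by congr 1; ring) (h k)) (by positivity)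

lemma mu_sum (w0 : ∀ i, 0 ≤ w i) (w1 : HasSum w 1) (hK : ∀ i, 0 < KK i) :
    HasSum (mu w KK NN) 1 := by
  have := mu_test (NN := NN) w0 w1 hK (fun _ => (1 : ℝ)) 1 (by simp)
  have e : ∀ i, (KK i : ℝ) ≠ 0 := fun i => by exact_mod_cast (hK i).ne'
  norm_num [e, w1.tsum_eq] at this
  exact this

lemma transfer (w0 : ∀ i, 0 ≤ w i) (w1 : HasSum w 1) (hK : ∀ i, 0 < KK i) {j L R : ℕ} {ε : ℝ}
    (hL : 0 < L) (h2 : 2 ∣ L) (hR : 1 ≤ R) (hN : ∀ k, NN j k = L ^ (k + 1))
    (hs : ∀ i < j, ∀ k < KK i, |NN i k| ≤ R) (ht : ∑' i, (if j < i then w i else 0) ≤ ε)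
    {f : ℤ → ℝ} (hb : ∀ x, |f x| ≤ 2 ^ KK j)
    (hf : ∀ x, Good (KK j) L R 0 x → f x = F (KK j) (par (KK j) L x)) (n : ℕ) :
    ∀ x, Good (KK j) L R n x → |(T (mu w KK NN))^[n] f x -
      (W (KK j) (w j / 2) ^ n) (F (KK j)) (par (KK j) L x)| ≤ n * (2 * 2 ^ KK j * ε) := by
  induction n with
  | zero => intro x hx; simp [hf x hx]
  | succ n ih =>
    intro x hx
    have wj : w j ≤ 1 := le_hasSum w1 j fun i _ => w0 i
    have gb := T_bound (mu_nonneg (KK := KK) (NN := NN) w0) (mu_sum w0 w1 hK) hb n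
    have Gb := bnd (hK j) (q := w j / 2) (by linarith [w0 j]) (by linarith) n
    rw [Function.iterate_succ_apply', pow_succ', Module.End.mul_apply, W_apply]
    set g := (T (mu w KK NN))^[n] f
    set G := (W (KK j) (w j / 2) ^ n) (F (KK j))
    set y := par (KK j) L x
    set δ := n * (2 * 2 ^ KK j * ε)
    set c := (∑ k, G (y + Pi.single k 1)) / KK j
    have e1 := (mu_test (NN := NN) w0 w1 hK (fun m => g (x - m)) _ fun m => gb _).tsum_eq
    have K0 : (KK j : ℝ) ≠ 0 := by exact_mod_cast (hK j).ne'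
    have s1 : HasSum (fun i => w i * (G y + if i = j then (c - G y) / 2 else 0))
        ((1 - w j / 2) * G y + w j / 2 / KK j * ∑ k, G (y + Pi.single k 1)) := by
      have := (w1.mul_right (G y)).add (hasSum_ite_eq j (w j * ((c - G y) / 2)))
      rw [show (1 - w j / 2) * G y + w j / 2 / KK j * ∑ k, G (y + Pi.single k 1) =
        1 * G y + w j * ((c - G y) / 2) by simp only [c]; ring]
      refine HasSum.congr_fun this fun i => ?_
      split_ifs with h <;> simp [h, mul_add]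
    have st : Summable fun i => if j < i then w i else 0 :=
      w1.summable.of_nonneg_of_le (fun i => by split_ifs <;> simp [w0])
        fun i => by split_ifs <;> simp [w0]
    have s2 := (w1.mul_right δ).add (st.hasSum.mul_right (2 * 2 ^ KK j))
    have x0 := ih x (by simpa using (small hL hx (s := 0) (by simp)).1)
    have key : ∀ i, |∑ k : Fin (KK i), (KK i : ℝ)⁻¹ • ((1 / 2 : ℝ) • g (x - 0) +
        (1 / 4 : ℝ) • g (x - NN i k) + (1 / 4 : ℝ) • g (x - -NN i k)) -
        (G y + if i = j then (c - G y) / 2 else 0)| ≤ δ + if j < i then 2 * 2 ^ KK j else 0 := by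
      intro i
      rcases lt_trichotomy i j with h | rfl | h
      · rw [if_neg h.ne, if_neg (not_lt.mpr h.le), add_zero, add_zero]
        refine avg_le (hK i) _ _ _ fun k => ?_
        have a := small hL hx (s := -NN i k) (by rw [abs_neg]; exact hs i h k k.2)
        have b := small hL hx (s := NN i k) (hs i h k k.2)
        have a' := abs_le.mp (ih _ a.1)
        have b' := abs_le.mp (ih _ b.1)
        rw [a.2] at a'
        rw [b.2] at b'
        rw [sub_zero, sub_neg_eq_add, sub_eq_add_neg x, abs_le]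
        have := abs_le.mp x0
        constructor <;> linarith
      · rw [if_pos rfl, if_neg (lt_irrefl _), add_zero]
        have := avg_le (hK i) (fun k => g x - G y)
          (fun k => g (x - NN i k) - G (y + Pi.single k 1))
          (fun k => g (x - -NN i k) - G (y + Pi.single k 1)) (v := 0) (δ := δ) fun k => by
            have a := big hL h2 hR hx k (Or.inr rfl)
            have b := big hL h2 hR hx k (Or.inl rfl)
            have a' := abs_le.mp (ih _ a.1)
            have b' := abs_le.mp (ih _ b.1)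
            rw [a.2, neg_mul, one_mul, ← hN] at a'
            rw [b.2, one_mul, ← hN] at b'
            rw [sub_zero, sub_neg_eq_add, sub_eq_add_neg x, abs_le]
            have := abs_le.mp x0
            constructor <;> linarith
        convert this using 2
        simp only [smul_eq_mul, mul_sub, mul_add, sum_add_distrib, sum_sub_distrib, ← mul_sum, c,
          sum_const, card_univ, Fintype.card_fin, nsmul_eq_mul, sub_zero]
        field_simp
        ring
      · rw [if_neg h.ne', if_pos h, add_zero]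
        refine avg_le (hK i) _ _ _ fun k => ?_
        have a := abs_le.mp (gb (x - 0))
        have b := abs_le.mp (gb (x - NN i k))
        have c := abs_le.mp (gb (x - -NN i k))
        have d := Gb y
        have := (abs_nonneg _).trans x0
        rw [abs_le]
        constructor <;> linarith
    have bd : ∀ i, ‖w i * (∑ k : Fin (KK i), (KK i : ℝ)⁻¹ • ((1 / 2 : ℝ) • g (x - 0) +
        (1 / 4 : ℝ) • g (x - NN i k) + (1 / 4 : ℝ) • g (x - -NN i k)) -
        (G y + if i = j then (c - G y) / 2 else 0))‖ ≤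
        w i * δ + (if j < i then w i else 0) * (2 * 2 ^ KK j) := by
      intro i
      rw [Real.norm_eq_abs, abs_mul, abs_of_nonneg (w0 i)]
      refine (mul_le_mul_of_nonneg_left (key i) (w0 i)).trans (le_of_eq ?_)
      split_ifs <;> ring
    have s3 := Summable.of_norm_bounded s2.summable bd
    have s4 := tsum_of_norm_bounded s2 bd
    have s5 := s3.add s1.summable
    simp only [← mul_add, sub_add_cancel] at s5
    simp only [mul_sub] at s4
    rw [s5.tsum_sub s1.summable, s1.tsum_eq] at s4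
    simp only [smul_eq_mul] at e1 s4
    rw [T, e1]
    refine s4.trans ?_
    push_cast
    have : (0 : ℝ) < 2 * 2 ^ KK j := by positivity
    nlinarith

end Pool.Agent.H28Cut
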