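import Mathlib
import Pool.Agent.Lib.helper28.CutB

namespace Pool.Agent.H28Cut

open Finset

lemma count (K h D : ℕ) (A : Finset (Fin K → ZMod 2)) :
    (univ.filter fun z : Fin (K + 1) → Fin (2 * h) =>
      (fun k : Fin K => ((z k.succ : ℕ) : ZMod 2)) = 0).card ≤ 2 * h * h ^ K ∧
    A.card * (h - 2 * D) ^ (K + 1) ≤ (univ.filter fun z : Fin (K + 1) → Fin (2 * h) =>
      (∀ i, D ≤ z i ∧ z i + D < 2 * h) ∧ (fun k : Fin K => ((z k.succ : ℕ) : ZMod 2)) ∈ A).card := by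
  constructor
  · have c : (univ.filter fun t : Fin (2 * h) => ((t : ℕ) : ZMod 2) = 0).card ≤ h := by
      refine (card_le_card_of_injOn (t := range h) (fun t : Fin (2 * h) => (t : ℕ) / 2) (fun t _ => ?_)
        fun s hs t ht e => ?_).trans (card_range h).le
      · have := t.2
        simp only [coe_range, Set.mem_Iio]; omega
      · have a := (ZMod.natCast_eq_zero_iff _ _).mp (mem_filter.mp hs).2
        have b := (ZMod.natCast_eq_zero_iff _ _).mp (mem_filter.mp ht).2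
        simp only at e
        exact Fin.ext (by omega)
    calc _ ≤ (Fintype.piFinset (Fin.cons univ fun _ => univ.filter fun t : Fin (2 * h) =>
          ((t : ℕ) : ZMod 2) = 0 : Fin (K + 1) → Finset (Fin (2 * h)))).card := by
          refine card_le_card fun z hz => ?_
          rw [Fintype.mem_piFinset, Fin.forall_fin_succ]
          exact ⟨by simp, fun k => by simpa using congrFun (mem_filter.mp hz).2 k⟩
      _ ≤ _ := by
          rw [Fintype.card_piFinset, Fin.prod_univ_succ]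
          simp only [Fin.cons_zero, Fin.cons_succ, card_univ, Fintype.card_fin, prod_const]
          gcongr
  · have c : ∀ p : ZMod 2, h - 2 * D ≤ (univ.filter fun t : Fin (2 * h) =>
        ((t : ℕ) : ZMod 2) = p ∧ D ≤ t ∧ t + D < 2 * h).card := by
      intro p
      have pv := ZMod.val_lt p
      rw [← Fintype.card_fin (h - 2 * D), ← card_univ]
      refine card_le_card_of_injOn (fun s => ⟨2 * (s + D) + p.val, by have := s.2; omega⟩)
        (fun s _ => ?_) fun s _ t _ e => Fin.ext (by have := Fin.mk.inj e; omega)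
      have := s.2
      simp only [coe_filter, mem_univ, true_and, Set.mem_ofPred_eq]
      refine ⟨?_, by omega, by omega⟩
      push_cast
      rw [show (2 : ZMod 2) = 0 from rfl]; simp
    rw [card_eq_sum_card_fiberwise (f := fun (z : Fin (K + 1) → Fin (2 * h)) (k : Fin K) =>
      ((z k.succ : ℕ) : ZMod 2)) (t := A) (s := univ.filter _)
      fun z hz => (mem_filter.mp hz).2.2, ← smul_eq_mul, ← sum_const]
    refine sum_le_sum fun y hy => ?_
    calc _ ≤ (Fintype.piFinset fun i : Fin (K + 1) => univ.filter fun t : Fin (2 * h) =>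
          ((t : ℕ) : ZMod 2) = (Fin.cons 0 y : Fin (K + 1) → ZMod 2) i ∧ D ≤ t ∧
            t + D < 2 * h).card := by
          rw [Fintype.card_piFinset]
          simpa using prod_le_prod' (s := (univ : Finset (Fin (K + 1)))) fun i _ => c
            ((Fin.cons 0 y : Fin (K + 1) → ZMod 2) i)
      _ ≤ _ := by
          refine card_le_card fun z hz => ?_
          rw [Fintype.mem_piFinset] at hz
          have e : (fun k : Fin K => ((z k.succ : ℕ) : ZMod 2)) = y :=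
            funext fun k => by simpa using (mem_filter.mp (hz k.succ)).2.1
          exact mem_filter.mpr ⟨mem_filter.mpr ⟨mem_univ _, fun i => (mem_filter.mp (hz i)).2.2,
            e ▸ hy⟩, e⟩

/-- Integer with given digits. -/
def emb {K L : ℕ} (z : Fin (K + 1) → Fin L) : ℤ := ((finFunctionFinEquiv z : ℕ) : ℤ)

lemma emb_inj {K L : ℕ} : Function.Injective (emb (K := K) (L := L)) := fun _ _ h =>
  finFunctionFinEquiv.injective (Fin.ext (by unfold emb at h; exact_mod_cast h))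

lemma dig {K L : ℕ} (z : Fin (K + 1) → Fin L) (i : Fin (K + 1)) :
    (finFunctionFinEquiv z : ℕ) / L ^ (i : ℕ) % L = z i := by
  rw [← finFunctionFinEquiv_symm_apply_val, Equiv.symm_apply_apply]

lemma par_emb {K h : ℕ} (z : Fin (K + 1) → Fin (2 * h)) :
    par K (2 * h) (emb z) = fun k : Fin K => ((z k.succ : ℕ) : ZMod 2) := by
  ext k
  rw [← dig z k.succ, par, emb, ← Nat.cast_pow, ← Int.natCast_div, Int.cast_natCast,
    ZMod.natCast_eq_natCast_iff', Nat.mod_mod_of_dvd _ (dvd_mul_right 2 h), Fin.val_succ]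

lemma good_emb {K L R d : ℕ} (z : Fin (K + 1) → Fin L) (hz : ∀ i, d * R ≤ z i ∧ z i + d * R < L) :
    Good K L R d (emb z) := by
  refine ⟨Int.natCast_nonneg _, by unfold emb; exact_mod_cast (finFunctionFinEquiv z).2,
    fun l hl => ?_⟩
  have a := dig z ⟨l, by omega⟩
  have b := hz ⟨l, by omega⟩
  have c := Nat.mod_pow_succ (x := finFunctionFinEquiv z) (b := L) (k := l)
  have e := Nat.mod_lt (finFunctionFinEquiv z) (show 0 < L ^ l from pow_pos (by omega) l)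
  simp only at a
  rw [a] at c
  unfold emb
  norm_cast
  rw [c, pow_succ L l]
  have u := Nat.mul_le_mul_left (L ^ l) b.1
  have v := Nat.mul_le_mul_left (L ^ l) (Nat.succ_le_of_lt b.2)
  rw [Nat.mul_succ, mul_add] at v
  rw [mul_comm (d * R)]
  exact ⟨u.trans (Nat.le_add_left _ _), by linarith⟩

lemma Good.mono {K L R d e : ℕ} {x : ℤ} (h : Good K L R d x) (he : e ≤ d) : Good K L R e x := by
  refine ⟨h.1, h.2.1, fun l hl => ?_⟩
  have : (e * R * L ^ l : ℤ) ≤ d * R * L ^ l := by gcongr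
  exact ⟨this.trans (h.2.2 l hl).1, by linarith [(h.2.2 l hl).2]⟩

lemma step (b Q R : ℕ) : ∃ (K L : ℕ) (ε : ℝ), 0 < K ∧ 0 < ε ∧ (1 ≤ Q → 1 ≤ R →
    ∀ (w : ℕ → ℝ) (KK : ℕ → ℕ) (NN : ℕ → ℕ → ℤ) (j : ℕ), (∀ i, 0 ≤ w i) → HasSum w 1 →
      (∀ i, 0 < KK i) → w j = 1 / (4 * Q) → KK j = K → (∀ k, NN j k = L ^ (k + 1)) →
      (∀ i < j, ∀ k < KK i, |NN i k| ≤ R) → ∑' i, (if j < i then w i else 0) ≤ ε →
      ∃ (f : ℤ → ℝ) (B : ℝ) (S : Finset ℤ), (∀ x, |f x| ≤ B) ∧ Summable (fun x => |f x|) ∧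
        ∑' x, |f x| ≤ 8 * S.card ∧ 0 < S.card ∧ ∀ x ∈ S, ∃ p r : ℕ, (b : ℝ) ^ 2 <
          ∑ n ∈ Ico p r, ((n : ℝ) + 1) * ((T (mu w KK NN))^[n + 1] f x -
            (T (mu w KK NN))^[n + 2] f x) ^ 2) := by
  by_cases hQ : 1 ≤ Q
  swap
  · exact ⟨1, 1, 1, one_pos, one_pos, fun h => absurd h hQ⟩
  obtain ⟨n1, n2, p1, p2, p3, p4, p5⟩ := times (16 * 40001 * (b + 1) ^ 2) Q
    (Nat.succ_le_of_lt (by positivity)) hQ
  set K := 100 * 2 ^ (16 * 40001 * (b + 1) ^ 2)
  have K0 : 0 < K := by positivity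
  clear_value K
  set h := 4 * (n2 * R) * (K + 1) + 1 with hh
  have n0 : (0 : ℝ) < n2 := by exact_mod_cast p1.trans p2
  refine ⟨K, 2 * h, 1 / (16 * n2 * 2 ^ K), K0, by positivity,
    fun _ hR w KK NN j w0 w1 hK wj Kj hN hs ht => ?_⟩
  subst Kj
  set K := KK j
  have Q1 : (1 : ℝ) ≤ Q := by exact_mod_cast hQ
  have cut := cutoff K0 (q := 1 / (8 * Q)) (by positivity)
    (one_div_le_one_div_of_le (by norm_num) (by linarith)) p4 p5
  set A := univ.filter fun y => 1 / 2 ≤ (W K (1 / (8 * Q)) ^ n2) (F K) y -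
    (W K (1 / (8 * Q)) ^ n1) (F K) y
  obtain ⟨c1, c2⟩ := count K h (n2 * R) A
  set f : ℤ → ℝ := fun x => if 0 ≤ x ∧ x < ((2 * h : ℕ) : ℤ) ^ (K + 1) then
    F K (par K (2 * h) x) else 0 with hf
  have F0 : ∀ y, 0 ≤ F K y ∧ F K y ≤ 2 ^ K := fun y => by unfold F; split_ifs <;> simp
  have fb : ∀ x, |f x| ≤ 2 ^ K := fun x => by
    simp only [hf]; split_ifs
    · rw [abs_of_nonneg (F0 _).1]; exact (F0 _).2
    · simp
  have tr := transfer w0 w1 hK (L := 2 * h) (by omega) (dvd_mul_right 2 h) hR hN hs ht fb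
    fun x hx => if_pos ⟨hx.1, hx.2.1⟩
  rw [wj, show (1 / (4 * Q) / 2 : ℝ) = 1 / (8 * Q) by ring] at tr
  have supp : ∀ x ∉ univ.image (emb (K := K) (L := 2 * h)), |f x| = 0 := by
    intro x hx
    rw [abs_eq_zero]
    refine if_neg fun h' => hx (mem_image.mpr ⟨finFunctionFinEquiv.symm ⟨x.toNat, ?_⟩,
      mem_univ _, ?_⟩)
    · have := h'.2
      rw [← Int.toNat_of_nonneg h'.1] at this
      exact_mod_cast this
    · simp [emb, h'.1]
  have lo : (h : ℝ) ^ (K + 1) / 2 ≤ ((h - 2 * (n2 * R) : ℕ) : ℝ) ^ (K + 1) := by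
    have h0 : (0 : ℝ) < h := by positivity
    have hD : 2 * (n2 * R) ≤ h := by rw [hh]; nlinarith
    have hD' : (2 * (n2 * R) : ℝ) / h ≤ 1 := by rw [div_le_one h0]; exact_mod_cast hD
    have := one_add_mul_le_pow (a := -(2 * (n2 * R) / h : ℝ)) (by linarith) (K + 1)
    have e : ((h - 2 * (n2 * R) : ℕ) : ℝ) = h * (1 + -(2 * (n2 * R) / h)) := by
      rw [Nat.cast_sub hD]; push_cast; field_simp; ring
    have e2 : ((K + 1 : ℕ) : ℝ) * (2 * (n2 * R) / h) ≤ 1 / 2 := by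
      rw [← mul_div_assoc, div_le_iff₀ h0, hh]; push_cast; nlinarith
    rw [e, mul_pow, div_eq_mul_one_div]
    gcongr
    linarith
  set Z := univ.filter fun z : Fin (K + 1) → Fin (2 * h) =>
      (∀ i, n2 * R ≤ z i ∧ z i + n2 * R < 2 * h) ∧
        (fun k : Fin K => ((z k.succ : ℕ) : ZMod 2)) ∈ A
  have c3 : (2 : ℝ) ^ K / 2 * (h ^ (K + 1) / 2) ≤ Z.card := by
    refine le_trans (mul_le_mul cut lo (by positivity) (by positivity)) ?_
    exact_mod_cast c2
  refine ⟨f, _, Z.image emb, fb, summable_of_ne_finset_zero supp, ?_, ?_, fun x hx => ?_⟩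
  · rw [tsum_eq_sum supp, sum_image emb_inj.injOn, card_image_of_injective _ emb_inj]
    have : ∀ z : Fin (K + 1) → Fin (2 * h), |f (emb z)| ≤
        if (fun k : Fin K => ((z k.succ : ℕ) : ZMod 2)) = 0 then 2 ^ K else 0 := fun z => by
      simp only [hf, par_emb, F]
      split_ifs <;> simp
    refine (sum_le_sum fun z _ => this z).trans ?_
    rw [← sum_filter, sum_const, nsmul_eq_mul]
    have c1' : ((univ.filter fun z : Fin (K + 1) → Fin (2 * h) =>
      (fun k : Fin K => ((z k.succ : ℕ) : ZMod 2)) = 0).card : ℝ) ≤ 2 * h * h ^ K := by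
      exact_mod_cast c1
    calc _ ≤ 2 * h * h ^ K * (2 : ℝ) ^ K := by gcongr
      _ = 8 * ((2 : ℝ) ^ K / 2 * (h ^ (K + 1) / 2)) := by ring
      _ ≤ _ := by gcongr
  · rw [card_image_of_injective _ emb_inj]
    have : (0 : ℝ) < Z.card := lt_of_lt_of_le (by positivity) c3
    exact_mod_cast this
  obtain ⟨z, hz, rfl⟩ := mem_image.mp hx
  obtain ⟨g1, g2⟩ := (mem_filter.mp hz).2
  have gd := good_emb z g1
  have t2 := abs_le.mp (tr n2 _ gd)
  have t1 := abs_le.mp (tr n1 _ (gd.mono p2.le))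
  have g3 := (mem_filter.mp g2).2
  rw [par_emb] at t1 t2
  have e2 : (n2 : ℝ) * (2 * 2 ^ K * (1 / (16 * n2 * 2 ^ K))) = 1 / 8 := by field_simp; ring
  have e1 : (n1 : ℝ) * (2 * 2 ^ K * (1 / (16 * n2 * 2 ^ K))) ≤ 1 / 8 := by
    rw [← e2]; gcongr
  set u := fun n => (T (mu w KK NN))^[n] f (emb z) with hu
  have d : 1 / 4 ≤ u n2 - u n1 := by simp only [hu]; linarith
  obtain ⟨p, rfl⟩ : ∃ p, n1 = p + 1 := ⟨n1 - 1, by omega⟩
  obtain ⟨r, rfl⟩ : ∃ r, n2 = r + 1 := ⟨n2 - 1, by omega⟩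
  refine ⟨p, r, ?_⟩
  change _ < ∑ n ∈ Ico p r, ((n : ℝ) + 1) * (u (n + 1) - u (n + 1 + 1)) ^ 2
  have tel := Finset.sum_Ico_sub (fun n => u (n + 1)) (show p ≤ r by omega)
  have cs := sq_sum_le_card_mul_sum_sq (s := Ico p r) (f := fun n => u (n + 1 + 1) - u (n + 1))
  rw [tel, Nat.card_Ico] at cs
  have m : ((p : ℝ) + 1) * ∑ n ∈ Ico p r, (u (n + 1 + 1) - u (n + 1)) ^ 2 ≤
      ∑ n ∈ Ico p r, ((n : ℝ) + 1) * (u (n + 1) - u (n + 1 + 1)) ^ 2 := by
    rw [mul_sum]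
    refine sum_le_sum fun n hn => ?_
    rw [← neg_sub, neg_sq]
    have : (p : ℝ) ≤ n := by exact_mod_cast (mem_Ico.mp hn).1
    gcongr
  rw [Nat.add_sub_add_right] at p3
  have p3' : (16 * 40001 * (b + 1) ^ 2 * ((r - p : ℕ) : ℝ)) ≤ 40001 * (p + 1) := by
    exact_mod_cast p3
  have rp : (0 : ℝ) < ((r - p : ℕ) : ℝ) := by exact_mod_cast (by omega : 0 < r - p)
  set X := ∑ n ∈ Ico p r, (u (n + 1 + 1) - u (n + 1)) ^ 2
  have X0 : 0 ≤ X := sum_nonneg fun _ _ => sq_nonneg _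
  have cs2 : 1 / 16 ≤ ((r - p : ℕ) : ℝ) * X := by nlinarith
  have b0 : (0 : ℝ) ≤ b := Nat.cast_nonneg b
  have : ((b : ℝ) + 1) ^ 2 ≤ (p + 1) * X := by
    nlinarith [mul_le_mul_of_nonneg_right p3' X0,
      mul_le_mul_of_nonneg_left cs2 (sq_nonneg ((b : ℝ) + 1))]
  nlinarith

end Pool.Agent.H28Cut
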