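import Mathlib

set_option autoImplicit false

namespace H28Dga

open scoped RealInnerProductSpace

variable {H : Type} [NormedAddCommGroup H] [InnerProductSpace ℝ H]

/-- the epigraph of an equivalent norm on a Hilbert space -/
structure Cone (H : Type) [NormedAddCommGroup H] [InnerProductSpace ℝ H] where
  adm : H → ℝ → Prop
  add : ∀ w w' s s', adm w s → adm w' s' → adm (w + w') (s + s')
  smul : ∀ (c : ℝ) w s, adm w s → adm (c • w) (|c| * s)
  low : ∀ w s, adm w s → ‖w‖ ≤ 10 * s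
  up : ∀ w, adm w ‖w‖

theorem mink (a b c d : ℝ) : Real.sqrt ((a + c) ^ 2 + (b + d) ^ 2) ≤
    Real.sqrt (a ^ 2 + b ^ 2) + Real.sqrt (c ^ 2 + d ^ 2) := by
  have := norm_add_le (⟨a, b⟩ : ℂ) ⟨c, d⟩
  simp only [Complex.norm_eq_sqrt_sq_add_sq, Complex.add_re, Complex.add_im] at this
  exact this

namespace Cone

variable (C : Cone H)

theorem nonneg {w : H} {s : ℝ} (h : C.adm w s) : 0 ≤ s := by
  have := C.low w s h
  have := norm_nonneg w
  linarith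

theorem zero : C.adm 0 0 := by simpa using C.up 0

/-- the infimal convolution norm -/
noncomputable def N (v : H) : ℝ :=
  sInf {r | ∃ w s, C.adm w s ∧ r = Real.sqrt (‖v - w‖ ^ 2 + s ^ 2)}

theorem N_le (v : H) {w : H} {s : ℝ} (h : C.adm w s) :
    C.N v ≤ Real.sqrt (‖v - w‖ ^ 2 + s ^ 2) :=
  csInf_le ⟨0, by rintro _ ⟨w, s, -, rfl⟩; positivity⟩ ⟨w, s, h, rfl⟩

theorem le_N (v : H) {x : ℝ} (h : ∀ w s, C.adm w s → x ≤ Real.sqrt (‖v - w‖ ^ 2 + s ^ 2)) :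
    x ≤ C.N v :=
  le_csInf ⟨_, 0, 0, C.zero, rfl⟩ (by rintro _ ⟨w, s, hw, rfl⟩; exact h w s hw)

theorem N_nonneg (v : H) : 0 ≤ C.N v := C.le_N v (fun _ _ _ => Real.sqrt_nonneg _)

theorem N_le_norm (v : H) : C.N v ≤ ‖v‖ := by simpa using C.N_le v C.zero

theorem N_le_adm {v : H} {s : ℝ} (h : C.adm v s) : C.N v ≤ s := by
  simpa [Real.sqrt_sq (C.nonneg h)] using C.N_le v h

theorem norm_le_N (v : H) : ‖v‖ ≤ 11 * C.N v := by
  have : ‖v‖ / 11 ≤ C.N v := C.le_N v (fun w s h => by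
    have h1 : ‖v - w‖ ≤ Real.sqrt (‖v - w‖ ^ 2 + s ^ 2) :=
      Real.le_sqrt_of_sq_le (by nlinarith [sq_nonneg s])
    have h2 : s ≤ Real.sqrt (‖v - w‖ ^ 2 + s ^ 2) :=
      Real.le_sqrt_of_sq_le (by nlinarith [sq_nonneg ‖v - w‖])
    have h3 := C.low w s h
    have h4 := norm_add_le (v - w) w
    rw [sub_add_cancel] at h4
    linarith)
  linarith

theorem N_add (v v' : H) : C.N (v + v') ≤ C.N v + C.N v' := by
  have h1 : ∀ w' s', C.adm w' s' →
      C.N (v + v') - Real.sqrt (‖v' - w'‖ ^ 2 + s' ^ 2) ≤ C.N v := fun w' s' h' =>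
    C.le_N v (fun w s h => by
      have e1 := C.N_le (v + v') (C.add w w' s s' h h')
      have e2 := mink ‖v - w‖ s ‖v' - w'‖ s'
      have e3 : Real.sqrt (‖v + v' - (w + w')‖ ^ 2 + (s + s') ^ 2) ≤
          Real.sqrt ((‖v - w‖ + ‖v' - w'‖) ^ 2 + (s + s') ^ 2) := by
        apply Real.sqrt_le_sqrt
        have : ‖v + v' - (w + w')‖ ≤ ‖v - w‖ + ‖v' - w'‖ := by
          rw [add_sub_add_comm]; exact norm_add_le _ _
        have := pow_le_pow_left₀ (norm_nonneg _) this 2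
        linarith
      linarith)
  have h2 : C.N (v + v') - C.N v ≤ C.N v' := C.le_N v' (fun w s h => by linarith [h1 w s h])
  linarith

theorem N_smul (c : ℝ) (v : H) : C.N (c • v) ≤ |c| * C.N v := by
  rcases eq_or_ne c 0 with rfl | hc
  · simpa using C.N_le_norm 0
  · have hc' : 0 < |c| := abs_pos.2 hc
    rw [mul_comm, ← div_le_iff₀ hc']
    refine C.le_N v (fun w s h => ?_)
    rw [div_le_iff₀ hc']
    refine (C.N_le (c • v) (C.smul c w s h)).trans (le_of_eq ?_)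
    rw [← smul_sub, norm_smul, Real.norm_eq_abs, mul_pow, mul_pow, ← mul_add,
      Real.sqrt_mul (sq_nonneg _), Real.sqrt_sq hc'.le, mul_comm]

theorem N_neg (v : H) : C.N (-v) = C.N v := by
  have h : ∀ v, C.N (-v) ≤ C.N v := fun v => by simpa using C.N_smul (-1) v
  exact le_antisymm (h v) (by simpa using h (-v))

theorem smooth (v h : H) : C.N (v + h) ^ 2 + C.N (v - h) ^ 2 ≤ 2 * C.N v ^ 2 + 2 * ‖h‖ ^ 2 := by
  have h1 : Real.sqrt ((C.N (v + h) ^ 2 + C.N (v - h) ^ 2 - 2 * ‖h‖ ^ 2) / 2) ≤ C.N v :=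
    C.le_N v (fun w s hw => by
      apply Real.sqrt_le_sqrt
      have e1 := pow_le_pow_left₀ (C.N_nonneg _) (C.N_le (v + h) hw) 2
      have e2 := pow_le_pow_left₀ (C.N_nonneg _) (C.N_le (v - h) hw) 2
      rw [Real.sq_sqrt (by positivity)] at e1 e2
      have e3 := parallelogram_law_with_norm ℝ (v - w) h
      have e4 : v - w + h = v + h - w := by abel
      have e5 : v - w - h = v - h - w := by abel
      rw [e4, e5] at e3
      nlinarith)
  have h2 := (Real.sqrt_le_left (C.N_nonneg v)).1 h1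
  linarith

theorem dual (G : H) {s : ℝ} (h : ∀ w r, C.adm w r → ⟪G, w⟫ ≤ s * r) (hpos : 0 < ‖G‖ ^ 2 + s ^ 2)
    (v : H) : |⟪G, v⟫| ≤ Real.sqrt (‖G‖ ^ 2 + s ^ 2) * C.N v := by
  have hp := Real.sqrt_pos.2 hpos
  have key : ∀ v, ⟪G, v⟫ ≤ Real.sqrt (‖G‖ ^ 2 + s ^ 2) * C.N v := fun v => by
    rw [mul_comm, ← div_le_iff₀ hp]
    refine C.le_N v (fun w r hw => ?_)
    rw [div_le_iff₀ hp, ← Real.sqrt_mul (by positivity)]
    have e1 : ⟪G, v⟫ = ⟪G, v - w⟫ + ⟪G, w⟫ := by rw [inner_sub_right]; ring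
    have e2 := real_inner_le_norm G (v - w)
    have e3 := h w r hw
    have e4 : ‖G‖ * ‖v - w‖ + s * r ≤
        Real.sqrt ((‖v - w‖ ^ 2 + r ^ 2) * (‖G‖ ^ 2 + s ^ 2)) :=
      Real.le_sqrt_of_sq_le (by nlinarith [sq_nonneg (‖G‖ * r - s * ‖v - w‖)])
    linarith
  rw [abs_le]
  refine ⟨?_, key v⟩
  have := key (-v)
  rw [inner_neg_right, C.N_neg] at this
  linarith

/-- the renormed space -/
def Z (_ : Cone H) : Type := H

instance : AddCommGroup C.Z := inferInstanceAs (AddCommGroup H)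
instance : Module ℝ C.Z := inferInstanceAs (Module ℝ H)

noncomputable def gn : AddGroupNorm C.Z where
  toFun := C.N
  map_zero' := le_antisymm (C.N_le_adm C.zero) (C.N_nonneg 0)
  add_le' := C.N_add
  neg' := C.N_neg
  eq_zero_of_map_eq_zero' := fun x hx => by
    have := C.norm_le_N x
    rw [hx] at this
    exact norm_le_zero_iff.1 (by linarith : ‖(show H from x)‖ ≤ 0)

noncomputable instance : NormedAddCommGroup C.Z := C.gn.toNormedAddCommGroup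

noncomputable instance : NormedSpace ℝ C.Z where
  norm_smul_le := fun c v => C.N_smul c v

/-- the identity map -/
noncomputable def eqv : H ≃L[ℝ] C.Z :=
  (show H ≃ₗ[ℝ] C.Z from LinearEquiv.refl ℝ H).toContinuousLinearEquivOfBounds 1 11
    (fun x => by rw [one_mul]; exact C.N_le_norm x) (fun x => C.norm_le_N x)

theorem norm_eqv (v : H) : ‖C.eqv v‖ = C.N v := rfl

instance [CompleteSpace H] : CompleteSpace C.Z :=
  (completeSpace_congr (e := C.eqv.toEquiv) C.eqv.isUniformEmbedding).1 inferInstance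

theorem rho (x y : C.Z) (hx : ‖x‖ = 1) (hy : ‖y‖ = 1) (u : ℝ) :
    (‖x + u • y‖ + ‖x - u • y‖) / 2 - 1 ≤ 61 * u ^ 2 := by
  obtain ⟨v, rfl⟩ := C.eqv.surjective x
  obtain ⟨h, rfl⟩ := C.eqv.surjective y
  rw [← map_smul, ← map_add, ← map_sub]
  simp only [norm_eqv] at *
  have h1 := C.smooth v (u • h)
  have h2 := C.norm_le_N h
  rw [norm_smul, mul_pow, Real.norm_eq_abs, sq_abs, hx] at h1
  rw [hy] at h2
  have h3 : ‖h‖ ^ 2 ≤ 121 := by nlinarith [norm_nonneg h]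
  have h4 : u ^ 2 * ‖h‖ ^ 2 ≤ u ^ 2 * 121 := mul_le_mul_of_nonneg_left h3 (sq_nonneg u)
  nlinarith [sq_nonneg (C.N (v + u • h) - 1), sq_nonneg (C.N (v - u • h) - 1)]

/-- abstract criterion for a divergent run of the dual greedy algorithm -/
theorem run (f G : ℕ → H) (s b : ℕ → ℝ) (hb : ∀ m, 0 ≤ b m) (c : ℝ) (hc : 0 < c)
    (h1 : ∀ m w r, C.adm w r → ⟪G m, w⟫ ≤ s m * r) (h2 : ∀ m, C.adm (f m - G m) (s m))
    (h3 : ∀ m, ⟪G m, f m⟫ = ‖G m‖ ^ 2 + s m ^ 2) (h4 : ∀ m, c ≤ s m)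
    (h5 : ∀ m, ⟪G (m + 1), f m - f (m + 1)⟫ = 0) (h6 : ∀ m, f m ≠ f (m + 1))
    (h7 : ∀ m, b m * C.N (f m - f (m + 1)) ≤ ⟪G m, f m - f (m + 1)⟫)
    (h8 : ∀ m j, j ≠ m → |⟪G m, f j - f (j + 1)⟫| ≤ b m * C.N (f j - f (j + 1)))
    (h9 : Dense (Submodule.span ℝ {v : H | v ≠ 0 ∧ ∀ m, |⟪G m, v⟫| ≤ b m * C.N v} : Set H)) :
    ∃ (D : Set C.Z) (f : ℕ → C.Z) (F : ℕ → C.Z →L[ℝ] ℝ) (φ : ℕ → C.Z) (a : ℕ → ℝ),
      (∀ g ∈ D, ‖g‖ = 1) ∧ (∀ g ∈ D, -g ∈ D) ∧
      Dense ((Submodule.span ℝ D : Submodule ℝ C.Z) : Set C.Z) ∧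
      (∀ m, ‖F m‖ = 1 ∧ F m (f m) = ‖f m‖) ∧ (∀ m, φ m ∈ D ∧ ∀ g ∈ D, F m g ≤ F m (φ m)) ∧
      (∀ m, ∀ t : ℝ, ‖f m - a m • φ m‖ ≤ ‖f m - t • φ m‖) ∧
      (∀ m, f (m + 1) = f m - a m • φ m) ∧ ∀ m, c ≤ ‖f m‖ := by
  set ν : ℕ → ℝ := fun m => Real.sqrt (‖G m‖ ^ 2 + s m ^ 2) with hν
  have hs : ∀ m, 0 < s m := fun m => hc.trans_le (h4 m)
  have hpos : ∀ m, 0 < ‖G m‖ ^ 2 + s m ^ 2 := fun m => by have := hs m; positivity
  have hν0 : ∀ m, 0 < ν m := fun m => Real.sqrt_pos.2 (hpos m)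
  have hν2 : ∀ m, ν m ^ 2 = ‖G m‖ ^ 2 + s m ^ 2 := fun m => Real.sq_sqrt (hpos m).le
  have hd : ∀ m v, |⟪G m, v⟫| ≤ ν m * C.N v := fun m v => C.dual (G m) (h1 m) (hpos m) v
  set F : ℕ → C.Z →L[ℝ] ℝ := fun m =>
    (ν m)⁻¹ • (innerSL ℝ (G m)).comp (C.eqv.symm : C.Z →L[ℝ] H) with hF
  have hFa : ∀ m v, F m (C.eqv v) = ⟪G m, v⟫ / ν m := fun m v => by
    simp [hF, div_eq_inv_mul]
  have hFle : ∀ m x, |F m x| ≤ ‖x‖ := fun m x => by
    obtain ⟨v, rfl⟩ := C.eqv.surjective x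
    rw [hFa, abs_div, abs_of_pos (hν0 m), div_le_iff₀ (hν0 m), norm_eqv, mul_comm]
    exact hd m v
  have hNf : ∀ m, C.N (f m) = ν m := fun m => by
    apply le_antisymm
    · simpa using C.N_le (f m) (h2 m)
    · have := (le_abs_self _).trans (hd m (f m))
      rw [h3, ← hν2, sq] at this
      exact le_of_mul_le_mul_left this (hν0 m)
  have hFf : ∀ m, F m (C.eqv (f m)) = ‖C.eqv (f m)‖ := fun m => by
    rw [hFa, norm_eqv, hNf, h3, ← hν2, sq, mul_div_cancel_right₀ _ (hν0 m).ne']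
  have hN0 : ∀ v : H, v ≠ 0 → 0 < C.N v := fun v hv => by
    have := C.norm_le_N v
    have := norm_pos_iff.2 hv
    linarith
  set n : ℕ → ℝ := fun m => C.N (f m - f (m + 1)) with hn
  have hn0 : ∀ m, 0 < n m := fun m => hN0 _ (sub_ne_zero.2 (h6 m))
  set φ : ℕ → C.Z := fun m => (n m)⁻¹ • C.eqv (f m - f (m + 1)) with hφ
  have hunit : ∀ v : H, v ≠ 0 → ‖(C.N v)⁻¹ • C.eqv v‖ = 1 := fun v hv => by
    rw [norm_smul, norm_eqv, norm_inv, Real.norm_of_nonneg (C.N_nonneg v),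
      inv_mul_cancel₀ (hN0 v hv).ne']
  have hlow : ∀ m, b m / ν m ≤ F m (φ m) := fun m => by
    simp only [hφ]
    rw [map_smul, hFa, smul_eq_mul, ← mul_div_assoc]
    apply div_le_div_of_nonneg_right _ (hν0 m).le
    rw [← div_eq_inv_mul, le_div_iff₀ (hn0 m)]
    exact h7 m
  have hup : ∀ m (v : H), v ≠ 0 → |⟪G m, v⟫| ≤ b m * C.N v →
      |F m ((C.N v)⁻¹ • C.eqv v)| ≤ F m (φ m) := fun m v hv h => by
    refine le_trans ?_ (hlow m)
    rw [map_smul, hFa, smul_eq_mul, ← mul_div_assoc, abs_div, abs_of_pos (hν0 m)]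
    apply div_le_div_of_nonneg_right _ (hν0 m).le
    rw [← div_eq_inv_mul, abs_div, abs_of_pos (hN0 v hv), div_le_iff₀ (hN0 v hv)]
    exact h
  have hstep : ∀ m, C.eqv (f (m + 1)) = C.eqv (f m) - n m • φ m := fun m => by
    simp only [hφ]
    rw [smul_smul, mul_inv_cancel₀ (hn0 m).ne', one_smul, map_sub, sub_sub_cancel]
  refine ⟨{g | ‖g‖ = 1 ∧ ∀ m, |F m g| ≤ F m (φ m)}, fun m => C.eqv (f m), F, φ, n,
    fun g hg => hg.1, fun g hg => ⟨by rw [norm_neg]; exact hg.1, fun m => by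
      rw [map_neg, abs_neg]; exact hg.2 m⟩, ?_, fun m => ⟨?_, hFf m⟩, fun m => ⟨⟨?_, fun k => ?_⟩,
      fun g hg => (le_abs_self _).trans (hg.2 m)⟩, fun m t => ?_, hstep, fun m => ?_⟩
  · refine (C.eqv.surjective.denseRange.dense_image C.eqv.continuous h9).mono ?_
    rintro _ ⟨v, hv, rfl⟩
    induction hv using Submodule.span_induction with
    | mem v hv =>
      have e : C.eqv v = C.N v • ((C.N v)⁻¹ • C.eqv v) := by
        rw [smul_smul, mul_inv_cancel₀ (hN0 v hv.1).ne', one_smul]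
      rw [e]
      exact Submodule.smul_mem _ _ (Submodule.subset_span
        ⟨hunit v hv.1, fun m => hup m v hv.1 (hv.2 m)⟩)
    | zero => simp
    | add x y _ _ hx hy => rw [map_add]; exact Submodule.add_mem _ hx hy
    | smul a x _ hx => rw [map_smul]; exact Submodule.smul_mem _ _ hx
  · apply le_antisymm
    · exact ContinuousLinearMap.opNorm_le_bound _ zero_le_one (fun x => by
        rw [one_mul, Real.norm_eq_abs]; exact hFle m x)
    · have e1 := (F m).le_opNorm (C.eqv (f m))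
      rw [hFf, norm_norm] at e1
      have e2 : 0 < ‖C.eqv (f m)‖ := by rw [norm_eqv, hNf]; exact hν0 m
      exact le_of_mul_le_mul_right (by linarith) e2
  · exact hunit _ (sub_ne_zero.2 (h6 m))
  · by_cases hk : m = k
    · subst hk
      rw [abs_of_nonneg ((div_nonneg (hb m) (hν0 m).le).trans (hlow m))]
    · exact hup k _ (sub_ne_zero.2 (h6 m)) (h8 k m hk)
  · rw [← hstep, ← hFf]
    refine le_trans (le_of_eq ?_) ((le_abs_self _).trans (hFle (m + 1) _))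
    have e1 : F (m + 1) (φ m) = 0 := by
      simp only [hφ]
      rw [map_smul, hFa, h5]; simp
    have e2 : ∀ r : ℝ, F (m + 1) (C.eqv (f m) - r • φ m) = F (m + 1) (C.eqv (f m)) := fun r => by
      rw [map_sub, (F (m + 1)).map_smul, e1]; simp
    rw [hstep, e2, e2]
  · rw [norm_eqv, hNf]
    exact (h4 m).trans (Real.le_sqrt_of_sq_le (by nlinarith [sq_nonneg ‖G m‖]))

end Cone

end H28Dga
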