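import Pool.Agent.Lib.helper28.DgaA

set_option autoImplicit false

namespace H28Dga

open scoped RealInnerProductSpace

noncomputable abbrev L2 := lp (fun _ : ℕ ⊕ ℕ => ℝ) 2

noncomputable def kv (c a : ℝ) (ha : |a| < 1) : L2 :=
  ⟨Sum.elim (fun n => c * a ^ n) (fun _ => 0), by
    apply memℓp_gen
    rw [← Sum.inl_injective.summable_iff (by rintro (x | x) hx <;> simp at hx ⊢)]
    have h : Summable (fun n : ℕ => c ^ 2 * (a ^ 2) ^ n) :=
      (summable_geometric_of_lt_one (sq_nonneg a) (by rwa [sq_lt_one_iff_abs_lt_one])).mul_left _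
    refine h.congr (fun n => ?_)
    simp only [Function.comp, Sum.elim_inl, ENNReal.toReal_ofNat, Real.rpow_ofNat, Real.norm_eq_abs,
      sq_abs]
    rw [mul_pow, ← pow_mul, ← pow_mul, mul_comm n 2]⟩

theorem kv_inner (c a : ℝ) (ha : |a| < 1) (c' a' : ℝ) (ha' : |a'| < 1) :
    ⟪kv c a ha, kv c' a' ha'⟫ = c * c' * (1 - a * a')⁻¹ := by
  have h1 := lp.hasSum_inner (𝕜 := ℝ) (kv c a ha) (kv c' a' ha')
  rw [← Sum.inl_injective.hasSum_iff (by rintro (x | x) hx <;> simp [kv] at hx ⊢)] at h1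
  have h2 : |a * a'| < 1 := by
    rw [abs_mul]; exact mul_lt_one_of_nonneg_of_lt_one_left (abs_nonneg _) ha ha'.le
  have h3 := (hasSum_geometric_of_abs_lt_one h2).mul_left (c * c')
  have e : ((fun i => ⟪kv c a ha i, kv c' a' ha' i⟫) ∘ Sum.inl) =
      fun i : ℕ => c * c' * (a * a') ^ i := by
    funext n
    simp only [Function.comp, kv, Sum.elim_inl, RCLike.inner_apply, conj_trivial, mul_pow]
    ring
  rw [e] at h1
  exact h1.unique h3

/-- the Gram kernel -/
noncomputable def K (x y : ℝ) : ℝ := 2 * x * y / (x ^ 2 + y ^ 2)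

theorem exists_frame (μ : ℕ → ℝ) (hμ : ∀ m, 1 ≤ μ m) : ∃ (u e : ℕ → L2) (B : Set L2),
    Orthonormal ℝ e ∧ (∀ m k, ⟪u m, e k⟫ = 0) ∧ (∀ m j, ⟪u m, u j⟫ = K (μ m) (μ j)) ∧
    Dense (Submodule.span ℝ B : Set L2) ∧ ∀ v ∈ B, ‖v‖ = 1 ∧ ∀ m, |⟪u m, v⟫| ≤ 2 / μ m := by
  have ha : ∀ m, |(μ m ^ 2 - 1) / (μ m ^ 2 + 1)| < 1 := fun m => by
    have := hμ m
    rw [abs_of_nonneg (div_nonneg (by nlinarith) (by positivity)), div_lt_one (by positivity)]
    linarith
  have hon : Orthonormal ℝ (fun i : ℕ ⊕ ℕ => (lp.single 2 i (1 : ℝ) : L2)) := by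
    rw [orthonormal_iff_ite]
    intro i j
    rw [lp.inner_single_left, lp.single_apply, Pi.single_apply]
    split_ifs <;> simp
  refine ⟨fun m => kv (2 * μ m / (μ m ^ 2 + 1)) _ (ha m), fun k => lp.single 2 (Sum.inr k) 1,
    Set.range (fun i : ℕ ⊕ ℕ => (lp.single 2 i (1 : ℝ) : L2)), hon.comp _ Sum.inr_injective,
    fun m k => ?_, fun m j => ?_, ?_, ?_⟩
  · rw [lp.inner_single_right]; simp [kv]
  · rw [kv_inner, K]
    have h1 := hμ m
    have h2 := hμ j
    have e : 1 - (μ m ^ 2 - 1) / (μ m ^ 2 + 1) * ((μ j ^ 2 - 1) / (μ j ^ 2 + 1))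
        = 2 * (μ m ^ 2 + μ j ^ 2) / ((μ m ^ 2 + 1) * (μ j ^ 2 + 1)) := by
      field_simp; ring
    rw [e]
    field_simp
  · intro x
    refine mem_closure_of_tendsto (lp.hasSum_single (p := 2) (by norm_num) x)
      (Filter.Eventually.of_forall (fun s => Submodule.sum_mem _ (fun i _ => ?_)))
    have : (lp.single 2 i (x i) : L2) = x i • lp.single 2 i (1 : ℝ) := by
      rw [← lp.single_smul]; simp
    rw [this]
    exact Submodule.smul_mem _ _ (Submodule.subset_span ⟨i, rfl⟩)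
  · rintro _ ⟨i, rfl⟩
    refine ⟨hon.1 i, fun m => ?_⟩
    have h1 := hμ m
    rw [lp.inner_single_right]
    rcases i with n | n
    · simp only [kv, Sum.elim_inl, RCLike.inner_apply, conj_trivial, one_mul, abs_mul, abs_pow]
      have e1 : |(μ m ^ 2 - 1) / (μ m ^ 2 + 1)| ^ n ≤ 1 := pow_le_one₀ (abs_nonneg _) (ha m).le
      have e2 : |2 * μ m / (μ m ^ 2 + 1)| ≤ 2 / μ m := by
        rw [abs_of_nonneg (by positivity), div_le_div_iff₀ (by positivity) (by positivity)]
        nlinarith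
      exact (mul_le_of_le_one_right (abs_nonneg _) e1).trans e2
    · simp only [kv, Sum.elim_inr, inner_zero_left, abs_zero]; positivity

theorem K_nonneg {x y : ℝ} (hx : 0 < x) (hy : 0 < y) : 0 ≤ K x y := by unfold K; positivity

theorem K_le_one {x y : ℝ} (hx : 0 < x) : K x y ≤ 1 := by
  unfold K; rw [div_le_one (by positivity)]; nlinarith [sq_nonneg (x - y)]

theorem K_self {x : ℝ} (hx : 0 < x) : K x x = 1 := by unfold K; field_simp; ring

theorem K_le {x y : ℝ} (hx : 0 < x) (hy : 0 < y) : K x y ≤ 2 * y / x := by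
  unfold K; rw [div_le_div_iff₀ (by positivity) hx]; nlinarith [mul_pos hy (mul_pos hy hy)]

theorem K_diff {x y : ℝ} (hx : 0 < x) (hy : 0 < y) : |K x y - K x (y + 1)| ≤ 2 / x := by
  have e : K x y - K x (y + 1) =
      2 * x / (x ^ 2 + y ^ 2) * ((y * (y + 1) - x ^ 2) / (x ^ 2 + (y + 1) ^ 2)) := by
    unfold K; field_simp; ring
  have h1 : |(y * (y + 1) - x ^ 2) / (x ^ 2 + (y + 1) ^ 2)| ≤ 1 := by
    rw [abs_div, abs_of_pos (by positivity : 0 < x ^ 2 + (y + 1) ^ 2), div_le_one (by positivity),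
      abs_le]
    constructor <;> nlinarith
  have h2 : 2 * x / (x ^ 2 + y ^ 2) ≤ 2 / x := by
    rw [div_le_div_iff₀ (by positivity) hx]; nlinarith [sq_nonneg y]
  rw [e, abs_mul, abs_of_pos (by positivity : 0 < 2 * x / (x ^ 2 + y ^ 2))]
  exact (mul_le_of_le_one_right (by positivity) h1).trans h2

noncomputable def mu (m : ℕ) : ℝ := m + 2000000
noncomputable def th (m : ℕ) : ℝ := 100 / mu m
noncomputable def rr (m : ℕ) : ℝ := ((2 + th m) * K (mu (m + 1)) (mu m) + th (m + 1) * (1 + th m))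
  / (2 + 2 * th (m + 1) + 2 * th (m + 1) ^ 2)
noncomputable def ro : ℕ → ℝ
  | 0 => 1
  | m + 1 => ro m * rr m

theorem mu_ge (m : ℕ) : 2000000 ≤ mu m := by unfold mu; linarith [Nat.cast_nonneg (α := ℝ) m]
theorem mu_pos (m : ℕ) : 0 < mu m := by linarith [mu_ge m]
theorem mu_succ (m : ℕ) : mu (m + 1) = mu m + 1 := by unfold mu; push_cast; ring
theorem th_pos (m : ℕ) : 0 < th m := by unfold th; have := mu_pos m; positivity
theorem th_le (m : ℕ) : th m ≤ 1 / 20000 := by
  unfold th; rw [div_le_iff₀ (mu_pos m)]; linarith [mu_ge m]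
theorem th_sub (m : ℕ) : th m - th (m + 1) = th m * th (m + 1) / 100 := by
  unfold th; rw [mu_succ]; have := mu_pos m; field_simp; ring
theorem th_anti (m : ℕ) : th (m + 1) ≤ th m := by
  have := th_sub m
  have := mul_pos (th_pos m) (th_pos (m + 1))
  linarith
theorem th_ratio (m : ℕ) : th m ≤ 101 / 100 * th (m + 1) := by
  have := th_sub m
  have := th_le m
  have := th_pos (m + 1)
  nlinarith

theorem kap (m : ℕ) : 1 - th m ^ 2 / 10000 ≤ K (mu (m + 1)) (mu m) := by
  have h := mu_pos m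
  have e : K (mu (m + 1)) (mu m) = 1 - 1 / ((mu m + 1) ^ 2 + mu m ^ 2) := by
    unfold K; rw [mu_succ]; field_simp; ring
  have e2 : th m ^ 2 / 10000 = 1 / mu m ^ 2 := by unfold th; field_simp; norm_num
  rw [e, e2]
  have : 1 / ((mu m + 1) ^ 2 + mu m ^ 2) ≤ 1 / mu m ^ 2 :=
    one_div_le_one_div_of_le (by positivity) (by nlinarith)
  linarith

theorem rr_bd (m : ℕ) : 1 - 2 * th m ^ 2 ≤ rr m ∧ rr m ≤ 1 := by
  have h1 := th_pos m
  have h2 := th_pos (m + 1)
  have h3 := th_le m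
  have h4 := th_anti m
  have h5 := th_ratio m
  have h6 := th_sub m
  have h7 := kap m
  have h8 : K (mu (m + 1)) (mu m) ≤ 1 := K_le_one (mu_pos _)
  unfold rr
  rw [le_div_iff₀ (by positivity), div_le_one (by positivity)]
  set x := th m
  set y := th (m + 1)
  set k := K (mu (m + 1)) (mu m)
  constructor
  · have e1 : (2 + x) * (1 - x ^ 2 / 10000) ≤ (2 + x) * k :=
      mul_le_mul_of_nonneg_left h7 (by linarith)
    have e2 : y ^ 2 ≤ x ^ 2 := pow_le_pow_left₀ h2.le h4 2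
    have e3 : 0 ≤ x ^ 2 * (y + y ^ 2) := by positivity
    have e4 : x ^ 3 ≤ x ^ 2 := by nlinarith [sq_nonneg x]
    nlinarith [mul_pos h1 h2]
  · have e1 : (2 + x) * k ≤ (2 + x) * 1 := mul_le_mul_of_nonneg_left h8 (by linarith)
    nlinarith [mul_pos h2 h2]

theorem ro_bd (m : ℕ) : 98 / 100 + 202 * th m ≤ ro m ∧ ro m ≤ 1 := by
  induction m with
  | zero => have := th_le 0; simp only [ro]; constructor <;> linarith
  | succ m ih =>
    have h1 := rr_bd m
    have h2 := th_pos m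
    have h3 := th_pos (m + 1)
    have h5 := th_ratio m
    have h6 := th_sub m
    have h7 : 0 ≤ ro m := by linarith [ih.1]
    simp only [ro]
    constructor
    · have e1 := mul_le_mul_of_nonneg_left h1.1 h7
      have e2 : ro m * th m ^ 2 ≤ th m ^ 2 := mul_le_of_le_one_left (sq_nonneg _) ih.2
      nlinarith [ih.1]
    · nlinarith [ih.2, h1.2]

theorem ro_diff (m : ℕ) : 0 ≤ ro m - ro (m + 1) ∧ ro m - ro (m + 1) ≤ 2 * th m ^ 2 := by
  have h1 := rr_bd m
  have h2 := ro_bd m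
  have h3 := th_pos m
  have h7 : 0 ≤ ro m := by linarith [h2.1]
  simp only [ro]
  constructor
  · nlinarith [h1.2]
  · have e1 := mul_le_mul_of_nonneg_left h1.1 h7
    have e2 : ro m * th m ^ 2 ≤ th m ^ 2 := mul_le_of_le_one_left (sq_nonneg _) h2.2
    nlinarith

noncomputable def aa (m : ℕ) : ℝ := (2 + th m) * ro m
noncomputable def ss (m : ℕ) : ℝ := (1 + th m) * ro m
noncomputable def pp (m : ℕ) : ℝ := (1 + 2 * th m) * ro m

theorem ss_bd (m : ℕ) : 98 / 100 ≤ ss m ∧ ss m ≤ 1001 / 1000 := by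
  have h1 := ro_bd m
  have h2 := th_pos m
  have h3 := th_le m
  unfold ss
  constructor <;> nlinarith [h1.1, h1.2]

theorem pp_bd (m : ℕ) : 98 / 100 ≤ pp m ∧ pp m ≤ 1001 / 1000 := by
  have h1 := ro_bd m
  have h2 := th_pos m
  have h3 := th_le m
  unfold pp
  constructor <;> nlinarith [h1.1, h1.2]

theorem aa_bd (m : ℕ) : 0 ≤ aa m ∧ aa m ≤ 2001 / 1000 := by
  have h1 := ro_bd m
  have h2 := th_pos m
  have h3 := th_le m
  unfold aa
  constructor <;> nlinarith [h1.1, h1.2]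

theorem aa_diff (m : ℕ) : 0 ≤ aa m - aa (m + 1) ∧ aa m - aa (m + 1) ≤ th m / 4000 := by
  have h1 := ro_bd m
  have h2 := th_pos m
  have h2' := th_pos (m + 1)
  have h3 := th_le m
  have h4 := ro_diff m
  have h5 := th_anti m
  have h6 := th_sub m
  have e : aa m - aa (m + 1) = (th m - th (m + 1)) * ro m + (2 + th (m + 1)) * (ro m - ro (m + 1)) := by
    unfold aa; ring
  have e1 : (th m - th (m + 1)) * ro m ≤ th m - th (m + 1) :=
    mul_le_of_le_one_right (by linarith) h1.2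
  have e2 : (2 + th (m + 1)) * (ro m - ro (m + 1)) ≤ (2001 / 1000) * (2 * th m ^ 2) :=
    mul_le_mul (by linarith) h4.2 h4.1 (by norm_num)
  rw [e]
  constructor
  · have : 0 ≤ ro m := by linarith [h1.1]
    have := h4.1
    have : 0 ≤ th m - th (m + 1) := by linarith
    positivity
  · nlinarith

theorem xpart (m j : ℕ) :
    |aa j * K (mu m) (mu j) - aa (j + 1) * K (mu m) (mu (j + 1))| ≤ th m / 24 := by
  have h1 := K_diff (mu_pos m) (mu_pos j)
  rw [← mu_succ] at h1
  have h2 := K_le (mu_pos m) (mu_pos (j + 1))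
  have h3 := K_nonneg (mu_pos m) (mu_pos (j + 1))
  have h4 := aa_bd j
  have h5 := aa_diff j
  have e : aa j * K (mu m) (mu j) - aa (j + 1) * K (mu m) (mu (j + 1)) =
      aa j * (K (mu m) (mu j) - K (mu m) (mu (j + 1)))
        + (aa j - aa (j + 1)) * K (mu m) (mu (j + 1)) := by ring
  have e1 : |aa j * (K (mu m) (mu j) - K (mu m) (mu (j + 1)))| ≤ 2001 / 1000 * (2 / mu m) := by
    rw [abs_mul, abs_of_nonneg h4.1]
    exact mul_le_mul h4.2 h1 (abs_nonneg _) (by norm_num)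
  have e2 : |(aa j - aa (j + 1)) * K (mu m) (mu (j + 1))| ≤
      (101 / 100 * th (j + 1) / 4000) * (2 * mu (j + 1) / mu m) := by
    rw [abs_of_nonneg (mul_nonneg h5.1 h3)]
    refine mul_le_mul (by linarith [th_ratio j, h5.2]) h2 h3 ?_
    have := th_pos (j + 1)
    positivity
  have e3 : (101 / 100 * th (j + 1) / 4000) * (2 * mu (j + 1) / mu m) = 101 / 2000 * (1 / mu m) := by
    unfold th
    have := mu_pos (j + 1)
    have := mu_pos m
    field_simp
    norm_num
  have e4 : th m = 100 * (1 / mu m) := by unfold th; ring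
  have e5 : 2 / mu m = 2 * (1 / mu m) := by ring
  have e6 : 0 < 1 / mu m := by have := mu_pos m; positivity
  rw [e]
  refine (abs_add_le _ _).trans ?_
  linarith

end H28Dga
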