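import Pool.Agent.Lib.helper28.DgaB

set_option autoImplicit false

namespace H28Dga

open scoped RealInnerProductSpace

variable {H : Type} [NormedAddCommGroup H] [InnerProductSpace ℝ H]

/-- the norm with a large flat face -/
def cone (u e : ℕ → H) (hu : ∀ m, ‖u m‖ = 1) (he : ∀ m, ‖e m‖ = 1) : Cone H where
  adm w s := (∀ m, |⟪u m, w⟫| ≤ s) ∧ (∀ m, |⟪e m, w⟫| ≤ s) ∧ ‖w‖ ≤ 10 * s
  add w w' s s' h h' := ⟨fun m => by
      rw [inner_add_right]; exact (abs_add_le _ _).trans (add_le_add (h.1 m) (h'.1 m)),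
    fun m => by
      rw [inner_add_right]; exact (abs_add_le _ _).trans (add_le_add (h.2.1 m) (h'.2.1 m)),
    by linarith [norm_add_le w w', h.2.2, h'.2.2]⟩
  smul c w s h := ⟨fun m => by
      rw [real_inner_smul_right, abs_mul]; exact mul_le_mul_of_nonneg_left (h.1 m) (abs_nonneg c),
    fun m => by
      rw [real_inner_smul_right, abs_mul]; exact mul_le_mul_of_nonneg_left (h.2.1 m) (abs_nonneg c),
    by rw [norm_smul, Real.norm_eq_abs]; nlinarith [h.2.2, abs_nonneg c]⟩
  low w s h := h.2.2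
  up w := ⟨fun m => by simpa [hu m] using abs_real_inner_le_norm (u m) w,
    fun m => by simpa [he m] using abs_real_inner_le_norm (e m) w, by linarith [norm_nonneg w]⟩

noncomputable def yc (j k : ℕ) : ℝ := (if k = j + 1 then pp j else 0) + (if k = j + 2 then ss j else 0)
  + (if k = j + 3 then ss j / 2 else 0)

theorem yc_self (m : ℕ) : yc m (m + 1) - yc (m + 1) (m + 1) = pp m := by
  simp [yc]

theorem yc_other (j k : ℕ) (h : k ≠ j + 1) : |yc j k - yc (j + 1) k| ≤ 511 / 1000 := by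
  have h1 := ss_bd j
  have h2 := ss_bd (j + 1)
  have h3 := pp_bd (j + 1)
  unfold yc
  rw [abs_le]
  split_ifs <;> first | omega | (constructor <;> linarith [h1.1, h1.2, h2.1, h2.2, h3.1, h3.2])

theorem main [CompleteSpace H] (u e : ℕ → H) (B : Set H) (he : Orthonormal ℝ e)
    (hue : ∀ m k, ⟪u m, e k⟫ = 0) (huu : ∀ m j, ⟪u m, u j⟫ = K (mu m) (mu j))
    (hB : Dense (Submodule.span ℝ B : Set H))
    (hB' : ∀ v ∈ B, ‖v‖ = 1 ∧ ∀ m, |⟪u m, v⟫| ≤ 2 / mu m) :
    ∃ C : Cone H, ∃ (D : Set C.Z) (f : ℕ → C.Z) (F : ℕ → C.Z →L[ℝ] ℝ) (φ : ℕ → C.Z) (a : ℕ → ℝ),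
      (∀ g ∈ D, ‖g‖ = 1) ∧ (∀ g ∈ D, -g ∈ D) ∧
      Dense ((Submodule.span ℝ D : Submodule ℝ C.Z) : Set C.Z) ∧
      (∀ m, ‖F m‖ = 1 ∧ F m (f m) = ‖f m‖) ∧ (∀ m, φ m ∈ D ∧ ∀ g ∈ D, F m g ≤ F m (φ m)) ∧
      (∀ m, ∀ t : ℝ, ‖f m - a m • φ m‖ ≤ ‖f m - t • φ m‖) ∧
      (∀ m, f (m + 1) = f m - a m • φ m) ∧ ∀ m, 98 / 100 ≤ ‖f m‖ := by
  have hu : ∀ m, ‖u m‖ = 1 := fun m => by
    have := huu m m
    rw [K_self (mu_pos m), real_inner_self_eq_norm_sq] at this
    nlinarith [norm_nonneg (u m)]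
  have hee := orthonormal_iff_ite.1 he
  have heu : ∀ k m, ⟪e k, u m⟫ = 0 := fun k m => by rw [real_inner_comm, hue]
  set C := cone u e hu he.1 with hC
  set f : ℕ → H := fun m => aa m • u m + pp m • e (m + 1) + ss m • e (m + 2)
    + (ss m / 2) • e (m + 3) with hf
  set G : ℕ → H := fun m => ro m • u m + (ro m * th m) • e (m + 1) with hG
  have huf : ∀ m j, ⟪u m, f j⟫ = aa j * K (mu m) (mu j) := fun m j => by
    simp [hf, inner_add_right, real_inner_smul_right, hue, huu]
  have hef : ∀ k j, ⟪e k, f j⟫ = yc j k := fun k j => by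
    simp only [hf, inner_add_right, real_inner_smul_right, heu, hee, yc]
    split_ifs <;> ring
  have hGv : ∀ m v, ⟪G m, v⟫ = ro m * (⟪u m, v⟫ + th m * ⟪e (m + 1), v⟫) := fun m v => by
    simp only [hG, inner_add_left, real_inner_smul_left]; ring
  have hro : ∀ m, 0 < ro m := fun m => by linarith [(ro_bd m).1, th_pos m]
  have hG2 : ∀ m, ‖G m‖ ^ 2 = ro m ^ 2 * (1 + th m ^ 2) := fun m => by
    rw [← real_inner_self_eq_norm_sq, hGv]
    simp only [hG, inner_add_right, real_inner_smul_right, hue, heu, huu, hee, K_self (mu_pos m),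
      if_true]
    ring
  have hfn : ∀ m, ‖f m‖ ≤ 46 / 10 := fun m => by
    have h1 := aa_bd m
    have h2 := pp_bd m
    have h3 := ss_bd m
    have e1 := norm_add_le (aa m • u m + pp m • e (m + 1) + ss m • e (m + 2)) ((ss m / 2) • e (m + 3))
    have e2 := norm_add_le (aa m • u m + pp m • e (m + 1)) (ss m • e (m + 2))
    have e3 := norm_add_le (aa m • u m) (pp m • e (m + 1))
    simp only [norm_smul, hu, he.1, mul_one, Real.norm_eq_abs] at e1 e2 e3
    rw [abs_of_nonneg (by linarith [h3.1])] at e1 e2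
    rw [abs_of_nonneg h1.1, abs_of_nonneg (by linarith [h2.1])] at e3
    simp only [hf]
    linarith [h1.2, h2.2, h3.2]
  have hdual : ∀ k v, |⟪e k, v⟫| ≤ 1415 / 1000 * C.N v := fun k v => by
    have h1 := C.dual (e k) (s := 1) (fun w r hw => by
      rw [one_mul]; exact (le_abs_self _).trans (hw.2.1 k)) (by positivity) v
    refine h1.trans (mul_le_mul_of_nonneg_right ?_ (C.N_nonneg v))
    rw [he.1 k]
    exact Real.sqrt_le_iff.2 ⟨by norm_num, by norm_num⟩
  have hlow : ∀ j, 69 / 100 ≤ C.N (f j - f (j + 1)) := fun j => by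
    have h1 := hdual (j + 1) (f j - f (j + 1))
    rw [inner_sub_right, hef, hef, yc_self, abs_of_nonneg (by linarith [(pp_bd j).1])] at h1
    linarith [(pp_bd j).1]
  refine ⟨C, C.run f G ss (fun m => 9 / 10 * (ro m * th m))
    (fun m => by have := hro m; have := th_pos m; positivity) (98 / 100) (by norm_num)
    (fun m w r hw => ?_) (fun m => ?_) (fun m => ?_) (fun m => (ss_bd m).1) (fun m => ?_)
    (fun m h => ?_) (fun m => ?_) (fun m j hj => ?_) ?_⟩
  · rw [hGv, ss]
    have h1 := (le_abs_self _).trans (hw.1 m)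
    have h2 := mul_le_mul_of_nonneg_left ((le_abs_self _).trans (hw.2.1 (m + 1))) (th_pos m).le
    have := mul_le_mul_of_nonneg_left (add_le_add h1 h2) (hro m).le
    linarith
  · have hfg : f m - G m = ss m • u m + ss m • e (m + 1) + ss m • e (m + 2)
        + (ss m / 2) • e (m + 3) := by
      simp only [hf, hG, aa, pp, ss]
      module
    have h3 := ss_bd m
    have hs : 0 ≤ ss m := by linarith [h3.1]
    rw [hfg]
    refine ⟨fun k => ?_, fun k => ?_, ?_⟩
    · simp only [inner_add_right, real_inner_smul_right, hue, huu, mul_zero, add_zero]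
      rw [abs_of_nonneg (mul_nonneg hs (K_nonneg (mu_pos _) (mu_pos _)))]
      exact mul_le_of_le_one_right hs (K_le_one (mu_pos _))
    · simp only [inner_add_right, real_inner_smul_right, heu, hee]
      rw [abs_le]
      split_ifs <;> first | omega | (constructor <;> linarith)
    · have e1 := norm_add_le (ss m • u m + ss m • e (m + 1) + ss m • e (m + 2))
        ((ss m / 2) • e (m + 3))
      have e2 := norm_add_le (ss m • u m + ss m • e (m + 1)) (ss m • e (m + 2))
      have e3 := norm_add_le (ss m • u m) (ss m • e (m + 1))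
      simp only [norm_smul, hu, he.1, mul_one, Real.norm_eq_abs] at e1 e2 e3
      rw [abs_of_nonneg (by linarith)] at e1
      rw [abs_of_nonneg hs] at e2 e3
      linarith
  · rw [hGv, huf, hef, hG2, K_self (mu_pos m)]
    simp only [yc, aa, pp, ss]
    simp
    ring
  · rw [hGv, inner_sub_right, inner_sub_right, huf, huf, hef, hef, K_self (mu_pos _)]
    have e1 : yc m (m + 1 + 1) = ss m := by simp [yc]
    have e2 : yc (m + 1) (m + 1 + 1) = pp (m + 1) := by simp [yc]
    have e3 : ro (m + 1) * (2 + 2 * th (m + 1) + 2 * th (m + 1) ^ 2) =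
        ro m * ((2 + th m) * K (mu (m + 1)) (mu m) + th (m + 1) * (1 + th m)) := by
      have := th_pos (m + 1)
      simp only [ro, rr]
      field_simp
    rw [e1, e2]
    simp only [aa, pp, ss]
    linear_combination (-(ro (m + 1))) * e3
  · have := hlow m
    rw [h, sub_self] at this
    have h0 := C.N_le_norm 0
    rw [norm_zero] at h0
    linarith
  · have h1 : C.N (f m - f (m + 1)) ≤ 101 / 100 := by
      refine C.N_le_adm ⟨fun k => ?_, fun k => ?_, ?_⟩
      · rw [inner_sub_right, huf, huf]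
        linarith [xpart k m, th_le k]
      · rw [inner_sub_right, hef, hef]
        by_cases hk : k = m + 1
        · rw [hk, yc_self, abs_of_nonneg (by linarith [(pp_bd m).1])]
          linarith [(pp_bd m).2]
        · linarith [yc_other m k hk]
      · linarith [norm_sub_le (f m) (f (m + 1)), hfn m, hfn (m + 1)]
    rw [hGv, inner_sub_right, inner_sub_right, huf, huf, hef, hef, yc_self, K_self (mu_pos _)]
    have h2 : aa (m + 1) * K (mu m) (mu (m + 1)) ≤ aa (m + 1) :=
      mul_le_of_le_one_right (aa_bd _).1 (K_le_one (mu_pos _))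
    have h3 := (aa_diff m).1
    have h4 := mul_le_mul_of_nonneg_left (pp_bd m).1 (th_pos m).le
    have h5 := hro m
    have h6 := th_pos m
    have h7 : 9 / 10 * (ro m * th m) * C.N (f m - f (m + 1)) ≤ 9 / 10 * (ro m * th m) * (101 / 100) :=
      mul_le_mul_of_nonneg_left h1 (by positivity)
    have h8 : ro m * (th m * (98 / 100)) ≤
        ro m * (aa m * 1 - aa (m + 1) * K (mu m) (mu (m + 1)) + th m * pp m) :=
      mul_le_mul_of_nonneg_left (by linarith) h5.le
    nlinarith [mul_pos h5 h6]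
  · rw [hGv, inner_sub_right, inner_sub_right, huf, huf, hef, hef, abs_mul, abs_of_pos (hro m)]
    have h1 := xpart m j
    have h2 := yc_other j (m + 1) (by omega)
    have h5 := hro m
    have h6 := th_pos m
    have h3 : |aa j * K (mu m) (mu j) - aa (j + 1) * K (mu m) (mu (j + 1))
        + th m * (yc j (m + 1) - yc (j + 1) (m + 1))| ≤ th m * (6 / 10) := by
      refine (abs_add_le _ _).trans ?_
      rw [abs_mul (th m), abs_of_pos h6]
      have := mul_le_mul_of_nonneg_left h2 h6.le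
      linarith
    have h7 := mul_le_mul_of_nonneg_left h3 h5.le
    have h8 : 9 / 10 * (ro m * th m) * (69 / 100) ≤ 9 / 10 * (ro m * th m) * C.N (f j - f (j + 1)) :=
      mul_le_mul_of_nonneg_left (hlow j) (by positivity)
    nlinarith [mul_pos h5 h6]
  · refine hB.mono (Submodule.span_le.2 (fun v hv => ?_))
    obtain ⟨hv1, hv2⟩ := hB' v hv
    have hmem : ∀ x : H, ‖x‖ ≤ 1 / 4 → (∀ m, |⟪u m, x⟫| ≤ 1 / mu m) → x + e 0 ∈
        {v : H | v ≠ 0 ∧ ∀ m, |⟪G m, v⟫| ≤ 9 / 10 * (ro m * th m) * C.N v} := fun x hx hx' => by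
      have h1 : 3 / 4 ≤ ⟪e 0, x + e 0⟫ := by
        have := abs_real_inner_le_norm (e 0) x
        rw [he.1, one_mul] at this
        rw [inner_add_right, hee, if_pos rfl]
        linarith [(abs_le.1 this).1]
      have h2 : 1 / 2 ≤ C.N (x + e 0) := by
        linarith [hdual 0 (x + e 0), le_abs_self ⟪e 0, x + e 0⟫]
      refine ⟨fun h => by rw [h, inner_zero_right] at h1; linarith, fun m => ?_⟩
      have h5 := hro m
      have h6 := th_pos m
      rw [hGv, inner_add_right, inner_add_right, hue, hee, if_neg (by omega), add_zero, add_zero,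
        abs_mul, abs_of_pos h5]
      have h3 : |⟪u m, x⟫ + th m * ⟪e (m + 1), x⟫| ≤ th m * (3 / 10) := by
        refine (abs_add_le _ _).trans ?_
        rw [abs_mul (th m), abs_of_pos h6]
        have e1 := abs_real_inner_le_norm (e (m + 1)) x
        rw [he.1, one_mul] at e1
        have e2 := mul_le_mul_of_nonneg_left (e1.trans hx) h6.le
        have e3 : 1 / mu m = th m / 100 := by unfold th; ring
        linarith [hx' m]
      have h7 := mul_le_mul_of_nonneg_left h3 h5.le
      have h8 : 9 / 10 * (ro m * th m) * (1 / 2) ≤ 9 / 10 * (ro m * th m) * C.N (x + e 0) :=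
        mul_le_mul_of_nonneg_left h2 (by positivity)
      nlinarith [mul_pos h5 h6]
    have m1 := Submodule.subset_span (R := ℝ) (hmem ((1 / 4 : ℝ) • v) (by
      rw [norm_smul, hv1]; norm_num) (fun m => by
      rw [real_inner_smul_right, abs_mul]
      have := hv2 m
      have e9 : 2 / mu m = 2 * (1 / mu m) := by ring
      have : 0 < 1 / mu m := by have := mu_pos m; positivity
      norm_num
      rw [← one_div]
      linarith))
    have m2 := Submodule.subset_span (R := ℝ) (hmem 0 (by simp) (fun m => by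
      have := mu_pos m
      simp only [inner_zero_right, abs_zero]; positivity))
    have ev : v = (4 : ℝ) • (((1 / 4 : ℝ) • v + e 0) - (0 + e 0)) := by module
    rw [ev]
    exact Submodule.smul_mem _ _ (Submodule.sub_mem _ m1 m2)

theorem exists_run : ∃ (X : Type) (_ : NormedAddCommGroup X) (_ : NormedSpace ℝ X)
    (_ : CompleteSpace X),
    (∀ x y : X, ‖x‖ = 1 → ‖y‖ = 1 → ∀ u : ℝ, (‖x + u • y‖ + ‖x - u • y‖) / 2 - 1 ≤ 61 * u ^ 2) ∧
    ∃ (D : Set X) (f : ℕ → X) (F : ℕ → X →L[ℝ] ℝ) (φ : ℕ → X) (a : ℕ → ℝ),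
      (∀ g ∈ D, ‖g‖ = 1) ∧ (∀ g ∈ D, -g ∈ D) ∧
      Dense ((Submodule.span ℝ D : Submodule ℝ X) : Set X) ∧
      (∀ m, ‖F m‖ = 1 ∧ F m (f m) = ‖f m‖) ∧ (∀ m, φ m ∈ D ∧ ∀ g ∈ D, F m g ≤ F m (φ m)) ∧
      (∀ m, ∀ t : ℝ, ‖f m - a m • φ m‖ ≤ ‖f m - t • φ m‖) ∧
      (∀ m, f (m + 1) = f m - a m • φ m) ∧ ∀ m, 98 / 100 ≤ ‖f m‖ := by
  obtain ⟨u, e, B, h1, h2, h3, h4, h5⟩ := exists_frame mu (fun m => by linarith [mu_ge m])
  obtain ⟨C, h⟩ := main u e B h1 h2 h3 h4 h5
  exact ⟨C.Z, inferInstance, inferInstance, inferInstance, C.rho, h⟩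

end H28Dga
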