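import Pool.Agent.Lib.helper28.RoeA

set_option autoImplicit false

namespace Pool.Agent.H28Dix

open Filter Topology Set Pool.Agent.H28Roe

/-- the `(k+1)`-st singular value, as the distance to the operators of rank at most `k` -/
noncomputable def mu {H : Type} [NormedAddCommGroup H] [InnerProductSpace ℂ H]
    (T : H →L[ℂ] H) (k : ℕ) : ℝ :=
  sInf {c | ∃ F : H →L[ℂ] H, Module.rank ℂ (LinearMap.range (F : H →ₗ[ℂ] H)) ≤ k ∧ c = ‖T - F‖}

def IsDg (T : Op ℕ) (d : ℕ → ℂ) : Prop := ∀ x k, T x k = d k * x k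

lemma exists_dg (d : ℕ → ℂ) {K : ℝ} (h : ∀ k, ‖d k‖ ≤ K) : ∃ T, IsDg T d :=
  ⟨lp.mapCLM 2 (fun k => d k • ContinuousLinearMap.id ℂ ℂ) ((norm_nonneg _).trans (h 0))
    (fun k => by rw [norm_smul]; simpa using h k), fun _ _ => rfl⟩

namespace IsDg

variable {S T : Op ℕ} {d e : ℕ → ℂ}

lemma norm_le (h : IsDg T d) {c : ℝ} (hc : 0 ≤ c) (hd : ∀ k, ‖d k‖ ≤ c) : ‖T‖ ≤ c := by
  refine ContinuousLinearMap.opNorm_le_bound _ hc fun x => ?_
  have : c * ‖x‖ = ‖(c : ℂ) • x‖ := by
    rw [norm_smul, Complex.norm_real, Real.norm_eq_abs, abs_of_nonneg hc]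
  rw [this]
  refine lp.norm_mono (by norm_num) fun k => ?_
  rw [h, lp.coeFn_smul, Pi.smul_apply, norm_mul, norm_smul, Complex.norm_real, Real.norm_eq_abs,
    abs_of_nonneg hc]
  exact mul_le_mul_of_nonneg_right (hd k) (norm_nonneg _)

lemma delta (h : IsDg T d) (k : ℕ) : T (delta k) = d k • delta k := by
  refine lp.ext (funext fun j => ?_)
  rw [h, lp.coeFn_smul, Pi.smul_apply, delta_apply, smul_eq_mul]
  split_ifs with a
  · rw [a]
  · simp

lemma of_delta (h : ∀ k, T (H28Roe.delta k) = d k • H28Roe.delta k) : IsDg T d := by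
  obtain ⟨S, hS⟩ := exists_dg d (K := ‖T‖) fun k => by
    have := T.le_opNorm (H28Roe.delta k)
    rwa [h, norm_smul, norm_delta, mul_one, mul_one] at this
  have : T = S := ext_delta fun k => by rw [h, hS.delta]
  exact this ▸ hS

lemma ext (h : IsDg S d) (h' : IsDg T d) : S = T :=
  ContinuousLinearMap.ext fun x => lp.ext (funext fun k => by rw [h, h'])

lemma congr (h : IsDg S d) (he : ∀ k, d k = e k) : IsDg S e := (funext he : d = e) ▸ h

lemma mul (h : IsDg S d) (h' : IsDg T e) : IsDg (S * T) fun k => d k * e k := fun x k => by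
  rw [mul_apply_eq_comp, h, h', mul_assoc]

lemma add (h : IsDg S d) (h' : IsDg T e) : IsDg (S + T) fun k => d k + e k := fun x k => by
  show S x k + T x k = _
  rw [h, h', add_mul]

lemma sub (h : IsDg S d) (h' : IsDg T e) : IsDg (S - T) fun k => d k - e k := fun x k => by
  show S x k - T x k = _
  rw [h, h', sub_mul]

lemma alg (c : ℂ) : IsDg (algebraMap ℂ (Op ℕ) c) fun _ => c := fun _ _ => rfl

lemma star (h : IsDg T d) : IsDg (star T) fun k => (starRingEnd ℂ) (d k) := fun x k => by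
  rw [← inner_delta, ContinuousLinearMap.star_eq_adjoint, ContinuousLinearMap.adjoint_inner_right,
    h.delta, inner_smul_left, inner_delta]

lemma nonneg {r : ℕ → ℝ} (h : IsDg T fun k => r k) (hr : ∀ k, 0 ≤ r k) : 0 ≤ T := by
  obtain ⟨S, hS⟩ := exists_dg (fun k => (√(r k) : ℝ)) (K := √‖T‖) fun k => by
    have := T.le_opNorm (H28Roe.delta k)
    rw [h.delta, norm_smul, norm_delta, mul_one, mul_one, Complex.norm_real, Real.norm_eq_abs,
      abs_of_nonneg (hr k)] at this
    rw [Complex.norm_real, Real.norm_eq_abs, abs_of_nonneg (Real.sqrt_nonneg _)]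
    exact Real.sqrt_le_sqrt this
  have : T = Star.star S * S := h.ext ((hS.star.mul hS).congr fun k => by
    rw [Complex.conj_ofReal, ← Complex.ofReal_mul, Real.mul_self_sqrt (hr k)])
  rw [this]
  exact star_mul_self_nonneg S

end IsDg

noncomputable def tr (d : ℕ → ℂ) (s : Finset ℕ) : Op ℕ :=
  ∑ k ∈ s, d k • (innerSL ℂ (delta k)).smulRight (delta k)

lemma tr_apply (d : ℕ → ℂ) (s : Finset ℕ) (x : L2 ℕ) :
    tr d s x = ∑ k ∈ s, (d k * x k) • delta k := by
  unfold tr
  rw [sum_apply]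
  refine Finset.sum_congr rfl fun k _ => ?_
  show d k • (inner ℂ (delta k) x • delta k) = _
  rw [inner_delta, smul_smul]

lemma tr_dg (d : ℕ → ℂ) (s : Finset ℕ) : IsDg (tr d s) fun k => if k ∈ s then d k else 0 := by
  intro x j
  rw [tr_apply, lp.coeFn_sum, Finset.sum_apply]
  simp only [lp.coeFn_smul, Pi.smul_apply, delta_apply, smul_eq_mul, mul_ite, mul_one, mul_zero]
  rw [Finset.sum_ite_eq]
  split_ifs <;> simp

lemma tr_rank (d : ℕ → ℂ) (s : Finset ℕ) :
    Module.rank ℂ (LinearMap.range (tr d s : L2 ℕ →ₗ[ℂ] L2 ℕ)) ≤ s.card := by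
  classical
  have h : LinearMap.range (tr d s : L2 ℕ →ₗ[ℂ] L2 ℕ) ≤
      Submodule.span ℂ (s.image delta : Finset (L2 ℕ)) := by
    rintro _ ⟨x, rfl⟩
    show tr d s x ∈ _
    rw [tr_apply]
    exact Submodule.sum_mem _ fun k hk => Submodule.smul_mem _ _ (Submodule.subset_span
      (Finset.mem_coe.2 (Finset.mem_image_of_mem _ hk)))
  refine (Submodule.rank_mono h).trans ((rank_span_finset_le _).trans ?_)
  exact_mod_cast Finset.card_image_le

lemma tr_compact (d : ℕ → ℂ) (s : Finset ℕ) : IsCompactOperator (tr d s) := by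
  classical
  induction s using Finset.induction_on with
  | empty => simpa [tr] using isCompactOperator_zero
  | insert k s hk ih =>
    unfold tr at *
    rw [Finset.sum_insert hk]
    have h : IsCompactOperator (innerSL ℂ (delta k) : L2 ℕ →L[ℂ] ℂ) :=
      isCompactOperator_of_locallyCompactSpace_dom _
    exact ((h.clm_comp (ContinuousLinearMap.toSpanSingleton ℂ (delta k))).smul (d k)).add ih

lemma mu_bdd (T : Op ℕ) (k : ℕ) : BddBelow {c | ∃ F : Op ℕ,
    Module.rank ℂ (LinearMap.range (F : L2 ℕ →ₗ[ℂ] L2 ℕ)) ≤ k ∧ c = ‖T - F‖} :=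
  ⟨0, by rintro _ ⟨F, -, rfl⟩; exact norm_nonneg _⟩

lemma mu_nonneg (T : Op ℕ) (k : ℕ) : 0 ≤ mu T k :=
  Real.sInf_nonneg (by rintro _ ⟨F, -, rfl⟩; exact norm_nonneg _)

lemma norm_sub_tr {T : Op ℕ} {d : ℕ → ℂ} (h : IsDg T d) {s : Finset ℕ} {c : ℝ} (hc : 0 ≤ c)
    (hd : ∀ k, k ∉ s → ‖d k‖ ≤ c) : ‖T - tr d s‖ ≤ c :=
  (h.sub (tr_dg d s)).norm_le hc fun k => by
    by_cases a : k ∈ s
    · simp [a, hc]
    · simpa [a] using hd k a

lemma mu_le {T : Op ℕ} {d : ℕ → ℂ} (h : IsDg T d) {s : Finset ℕ} {j : ℕ} (hs : s.card ≤ j)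
    {c : ℝ} (hc : 0 ≤ c) (hd : ∀ k, k ∉ s → ‖d k‖ ≤ c) : mu T j ≤ c :=
  (csInf_le (mu_bdd T j) ⟨tr d s, (tr_rank d s).trans (by exact_mod_cast hs), rfl⟩).trans
    (norm_sub_tr h hc hd)

lemma le_mu {T : Op ℕ} {d : ℕ → ℂ} (h : IsDg T d) {j : ℕ} {c : ℝ} (hc : 0 ≤ c)
    (hd : ∀ k, k ≤ j → c ≤ ‖d k‖) : c ≤ mu T j := by
  refine le_csInf ⟨_, 0, by simp, rfl⟩ ?_
  rintro _ ⟨F, hF, rfl⟩
  let E : (Fin (j + 1) → ℂ) →ₗ[ℂ] L2 ℕ := Fintype.linearCombination ℂ fun i => delta (i : ℕ)
  have hE : ∀ y k, E y k = if h : k < j + 1 then y ⟨k, h⟩ else 0 := by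
    intro y k
    simp only [E, Fintype.linearCombination_apply]
    rw [lp.coeFn_sum, Finset.sum_apply]
    simp only [lp.coeFn_smul, Pi.smul_apply, delta_apply, smul_eq_mul, mul_ite, mul_one, mul_zero]
    split_ifs with a
    · rw [Finset.sum_eq_single ⟨k, a⟩]
      · simp
      · intro b _ hb
        rw [if_neg]; intro e; exact hb (Fin.ext e.symm)
      · simp
    · refine Finset.sum_eq_zero fun b _ => if_neg ?_
      intro e; exact a (e ▸ b.2)
  have hn : ¬ Function.Injective ((F : L2 ℕ →ₗ[ℂ] L2 ℕ).rangeRestrict ∘ₗ E) := by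
    intro a
    have := (LinearMap.rank_le_of_injective _ a).trans hF
    simp only [rank_fun', Fintype.card_fin] at this
    have h2 : j + 1 ≤ j := by exact_mod_cast this
    omega
  rw [injective_iff_map_eq_zero] at hn
  push Not at hn
  obtain ⟨y, hy, hy0⟩ := hn
  have h1 : F (E y) = 0 := congrArg Subtype.val hy
  have h2 : E y ≠ 0 := by
    intro e
    apply hy0
    funext i
    have := hE y i
    rw [e, dif_pos i.2] at this
    exact this.symm
  have h3 : ‖(c : ℂ) • E y‖ ≤ ‖T (E y)‖ := by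
    refine lp.norm_mono (by norm_num) fun k => ?_
    rw [h, lp.coeFn_smul, Pi.smul_apply, norm_mul, norm_smul, Complex.norm_real, Real.norm_eq_abs,
      abs_of_nonneg hc]
    by_cases a : k ≤ j
    · exact mul_le_mul_of_nonneg_right (hd k a) (norm_nonneg _)
    · rw [hE, dif_neg (by omega)]; simp
  have h4 := (T - F).le_opNorm (E y)
  rw [sub_apply, h1, sub_zero] at h4
  rw [norm_smul, Complex.norm_real, Real.norm_eq_abs, abs_of_nonneg hc] at h3
  exact le_of_mul_le_mul_right (h3.trans h4) (norm_pos_iff.2 h2)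

lemma mu_anti {T : Op ℕ} {r : ℕ → ℝ} (h : IsDg T fun k => r k) (h0 : ∀ k, 0 ≤ r k)
    (ha : Antitone r) (j : ℕ) : mu T j = r j := by
  have n : ∀ k, ‖(r k : ℂ)‖ = r k := fun k => by
    rw [Complex.norm_real, Real.norm_eq_abs, abs_of_nonneg (h0 k)]
  refine le_antisymm (mu_le h (s := Finset.range j) (by simp) (h0 j) fun k hk => ?_)
    (le_mu h (h0 j) fun k hk => ?_)
  · rw [n]; exact ha (by simpa using hk)
  · rw [n]; exact ha hk

lemma dg_compact {T : Op ℕ} {d : ℕ → ℂ} (h : IsDg T d) (hd : Tendsto d atTop (𝓝 0)) :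
    IsCompactOperator T := by
  refine isCompactOperator_of_tendsto (l := atTop) (F := fun n => tr d (Finset.range n)) ?_
    (Eventually.of_forall fun n => tr_compact _ _)
  rw [Metric.tendsto_atTop]
  intro ε hε
  obtain ⟨N, hN⟩ := Metric.tendsto_atTop.1 hd (ε / 2) (by linarith)
  refine ⟨N, fun n hn => ?_⟩
  rw [dist_comm, dist_eq_norm]
  refine (norm_sub_tr h (c := ε / 2) (by linarith) fun k hk => ?_).trans_lt (by linarith)
  have := hN k (hn.trans (by simpa using hk))
  rw [dist_zero_right] at this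
  exact this.le

/-- the real power of a positive operator, by the continuous functional calculus -/
noncomputable def pw {H : Type} [NormedAddCommGroup H] [InnerProductSpace ℂ H] [CompleteSpace H]
    (R : H →L[ℂ] H) (p : ℝ) : H →L[ℂ] H := cfc (fun t : ℝ => t ^ p) R

lemma pw_eig {H : Type} [NormedAddCommGroup H] [InnerProductSpace ℂ H] [CompleteSpace H]
    {T : H →L[ℂ] H} (hT : IsSelfAdjoint T) {p : ℝ} (hp : 0 ≤ p) {v : H} {c : ℝ} (hv : v ≠ 0)
    (h : T v = (c : ℂ) • v) : pw T p v = ((c ^ p : ℝ) : ℂ) • v := by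
  have hf : ContinuousOn (fun t : ℝ => t ^ p) (spectrum ℝ T) :=
    (Real.continuous_rpow_const hp).continuousOn
  have hk : c ∈ spectrum ℝ T := by
    rw [spectrum.mem_iff]
    rintro ⟨u, hu⟩
    have h1 : (algebraMap ℝ (H →L[ℂ] H) c - T) v = 0 := by
      rw [sub_apply, h]
      exact sub_self _
    have h2 : ((↑u⁻¹ : H →L[ℂ] H) * (u : H →L[ℂ] H)) v = 0 := by
      rw [mul_apply_eq_comp, hu, h1, map_zero]
    rw [Units.inv_mul] at h2
    exact hv h2
  have key : ∀ g : C(spectrum ℝ T, ℝ), cfcHom hT g v = (g ⟨c, hk⟩ : ℂ) • v := by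
    intro g
    induction g using ContinuousMap.induction_on_of_compact with
    | const c =>
      have : (ContinuousMap.const (spectrum ℝ T) c) = algebraMap ℝ _ c := rfl
      rw [this, AlgHomClass.commutes]; rfl
    | id => rw [cfcHom_id]; exact h
    | star_id => rw [star_trivial, cfcHom_id]; exact h
    | add f g hf hg => rw [map_add, add_apply, hf, hg, ← add_smul]; simp
    | mul f g hf hg => rw [map_mul, mul_apply_eq_comp, hg, map_smul, hf, smul_smul]; simp [mul_comm]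
    | frequently g hg =>
      refine hg.mem_of_closed (isClosed_eq ?_ (by fun_prop))
      exact (ContinuousLinearMap.apply ℂ H v).continuous.comp (cfcHom_continuous hT)
  unfold pw
  rw [cfc_apply _ T hT hf]
  exact key _

lemma pw_dg {T : Op ℕ} {r : ℕ → ℝ} (h : IsDg T fun k => r k) (hT : IsSelfAdjoint T)
    {p : ℝ} (hp : 0 ≤ p) : IsDg (pw T p) fun k => (r k ^ p : ℝ) :=
  IsDg.of_delta fun k => pw_eig hT hp (by
    intro e
    have := norm_delta k
    rw [e] at this; simp at this) (h.delta k)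

end Pool.Agent.H28Dix
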