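import Mathlib

set_option autoImplicit false

namespace Pool.Agent.H28Erg

open MeasureTheory Filter Topology

variable {X : Type*} [MeasurableSpace X] {μ : Measure X} {T : X → X}

noncomputable def M (T : X → X) (φ : X → ℝ) : ℕ → X → ℝ
  | 0, _ => 0
  | n + 1, x => max 0 (φ x + M T φ n (T x))

omit [MeasurableSpace X] in
lemma M_nonneg (φ : X → ℝ) (n : ℕ) (x : X) : 0 ≤ M T φ n x := by
  cases n with
  | zero => exact le_rfl
  | succ n => exact le_max_left _ _

omit [MeasurableSpace X] in
lemma M_succ (φ : X → ℝ) (n : ℕ) : ∀ x, M T φ n x ≤ M T φ (n + 1) x := by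
  induction n with
  | zero => intro x; exact M_nonneg φ 1 x
  | succ n ih => intro x; exact max_le_max le_rfl (by linarith [ih (T x)])

omit [MeasurableSpace X] in
lemma S_le_M (φ : X → ℝ) (n : ℕ) : ∀ x, birkhoffSum T φ n x ≤ M T φ n x := by
  induction n with
  | zero => intro x; simp [M]
  | succ n ih => intro x; rw [birkhoffSum_succ']; exact le_max_of_le_right (by linarith [ih (T x)])

lemma M_meas (hT : Measurable T) {φ : X → ℝ} (hφ : Measurable φ) (n : ℕ) : Measurable (M T φ n) := by
  induction n with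
  | zero => exact measurable_const
  | succ n ih => exact measurable_const.max (hφ.add (ih.comp hT))

lemma M_int (hT : MeasurePreserving T μ μ) {φ : X → ℝ} (hφ : Integrable φ μ) (n : ℕ) :
    Integrable (M T φ n) μ := by
  induction n with
  | zero => exact integrable_zero _ _ _
  | succ n ih => exact (integrable_zero _ _ _).sup (hφ.add (hT.integrable_comp_of_integrable ih))

lemma S_meas (hT : Measurable T) {φ : X → ℝ} (hφ : Measurable φ) (n : ℕ) :
    Measurable (birkhoffSum T φ n) :=
  Finset.measurable_sum _ fun k _ => hφ.comp (hT.iterate k)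

lemma S_int (hT : MeasurePreserving T μ μ) {φ : X → ℝ} (hφ : Integrable φ μ) (n : ℕ) :
    Integrable (birkhoffSum T φ n) μ :=
  integrable_finsetSum _ fun k _ => (hT.iterate k).integrable_comp_of_integrable hφ

lemma garsia (hT : MeasurePreserving T μ μ) {φ : X → ℝ} (hm : Measurable φ) (hφ : Integrable φ μ)
    {D : Set X} (hD : MeasurableSet D) (hTD : T ⁻¹' D = D) (n : ℕ) :
    0 ≤ ∫ x in D ∩ {x | 0 < M T φ (n + 1) x}, φ x ∂μ := by
  have hE : MeasurableSet {x | 0 < M T φ (n + 1) x} :=
    measurableSet_lt measurable_const (M_meas hT.measurable hm _)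
  have hi := (M_int hT hφ n).indicator hD
  have h1 : ∫ x, D.indicator (M T φ n) (T x) ∂μ = ∫ x, D.indicator (M T φ n) x ∂μ := by
    rw [← integral_map hT.measurable.aemeasurable (by rw [hT.map_eq]; exact hi.1), hT.map_eq]
  have hi2 : Integrable (fun x => D.indicator (M T φ n) (T x)) μ := hT.integrable_comp_of_integrable hi
  rw [← integral_indicator (hD.inter hE)]
  refine le_trans (le_of_eq ?_) (integral_mono (hi.sub hi2) (hφ.indicator (hD.inter hE)) fun x => ?_)
  · simp only [Pi.sub_apply]
    rw [integral_sub hi hi2, h1, sub_self]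
  · simp only [Pi.sub_apply]
    by_cases hx : x ∈ D
    · have hx' : T x ∈ D := by rw [← hTD] at hx; exact hx
      rw [Set.indicator_of_mem hx, Set.indicator_of_mem hx']
      have a1 := M_succ (T := T) φ n x
      have a2 := M_nonneg (T := T) φ n (T x)
      by_cases h : 0 < M T φ (n + 1) x
      · rw [Set.indicator_of_mem (Set.mem_inter hx h)]
        have : M T φ (n + 1) x = φ x + M T φ n (T x) := by
          simp only [M] at h ⊢
          exact max_eq_right (lt_max_iff.1 h |>.resolve_left (lt_irrefl _)).le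
        linarith
      · rw [Set.indicator_of_notMem (fun h' => h h'.2)]
        linarith
    · have hx' : T x ∉ D := by rw [← hTD] at hx; exact hx
      rw [Set.indicator_of_notMem hx, Set.indicator_of_notMem hx',
        Set.indicator_of_notMem (fun h' => hx h'.1), sub_self]

omit [MeasurableSpace X] in
lemma E_mono (φ : X → ℝ) : Monotone fun n => {x | 0 < M T φ (n + 1) x} :=
  monotone_nat_of_le_succ fun n _ hx => lt_of_lt_of_le hx (M_succ φ (n + 1) _)

omit [MeasurableSpace X] in
lemma S_const (φ : X → ℝ) (c : ℝ) (k : ℕ) (x : X) :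
    birkhoffSum T (fun y => φ y - c) k x = birkhoffSum T φ k x - k * c := by
  simp [birkhoffSum, Finset.sum_sub_distrib]

lemma weak [IsFiniteMeasure μ] (hT : MeasurePreserving T μ μ) {g : X → ℝ} (hm : Measurable g)
    (hg : Integrable g μ) (h0 : ∀ x, 0 ≤ g x) {l : ℝ} (hl : 0 < l) :
    μ {x | ∃ k : ℕ, k * l < birkhoffSum T g k x} ≤ ENNReal.ofReal ((∫ x, g x ∂μ) / l) := by
  set φ : X → ℝ := fun y => g y - l with hφ
  have hφm : Measurable φ := hm.sub measurable_const
  have hφi : Integrable φ μ := hg.sub (integrable_const l)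
  have h1 : {x | ∃ k : ℕ, k * l < birkhoffSum T g k x} ⊆ ⋃ n, {x | 0 < M T φ (n + 1) x} := by
    rintro x ⟨k, hk⟩
    refine Set.mem_iUnion.2 ⟨k, ?_⟩
    have a1 := S_le_M (T := T) φ k x
    have a2 := M_succ (T := T) φ k x
    rw [hφ, S_const] at a1
    show 0 < M T φ (k + 1) x
    linarith
  refine (measure_mono h1).trans ?_
  rw [(E_mono φ).measure_iUnion]
  refine iSup_le fun n => ?_
  have h2 := garsia hT hφm hφi MeasurableSet.univ rfl n
  rw [Set.univ_inter, integral_sub hg.integrableOn (integrable_const l).integrableOn,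
    setIntegral_const, smul_eq_mul] at h2
  have h3 := setIntegral_le_integral (s := {x | 0 < M T φ (n + 1) x}) hg (Eventually.of_forall h0)
  rw [← ofReal_measureReal]
  refine ENNReal.ofReal_le_ofReal ?_
  rw [le_div_iff₀ hl]; linarith

lemma upper [IsFiniteMeasure μ] (hT : MeasurePreserving T μ μ) {h : X → ℝ} (hm : Measurable h)
    (hi : Integrable h μ) (h0 : ∀ D, MeasurableSet D → T ⁻¹' D = D → ∫ x in D, h x ∂μ = 0)
    {ε : ℝ} (hε : 0 < ε) : ∀ᵐ x ∂μ, ∃ B : ℕ, ∀ k : ℕ, birkhoffSum T h k x - k * ε ≤ B := by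
  set φ : X → ℝ := fun y => h y - ε with hφ
  have hφm : Measurable φ := hm.sub measurable_const
  have hφi : Integrable φ μ := hi.sub (integrable_const ε)
  set D : Set X := {x | ∀ B : ℕ, ∃ k : ℕ, (B:ℝ) < birkhoffSum T φ k x} with hD
  have hDm : MeasurableSet D := by
    rw [hD, Set.ofPred_forall]
    refine MeasurableSet.iInter fun B => ?_
    rw [Set.ofPred_exists]
    exact MeasurableSet.iUnion fun k => measurableSet_lt measurable_const (S_meas hT.measurable hφm k)
  have hTD : T ⁻¹' D = D := by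
    ext x
    obtain ⟨c, hc⟩ := exists_nat_ge |φ x|
    have c1 := (abs_le.1 hc).1
    have c2 := (abs_le.1 hc).2
    constructor
    · intro hx B
      obtain ⟨k, hk⟩ := hx (B + c)
      refine ⟨k + 1, ?_⟩
      rw [birkhoffSum_succ']
      push_cast at hk
      linarith
    · intro hx B
      obtain ⟨k, hk⟩ := hx (B + c)
      cases k with
      | zero =>
        exfalso
        rw [birkhoffSum_zero] at hk
        exact absurd hk (not_lt.2 (by positivity))
      | succ k =>
        refine ⟨k, ?_⟩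
        rw [birkhoffSum_succ'] at hk
        push_cast at hk
        linarith
  have hU : ⋃ n, D ∩ {x | 0 < M T φ (n + 1) x} = D := by
    refine Set.Subset.antisymm (Set.iUnion_subset fun n => Set.inter_subset_left) fun x hx => ?_
    obtain ⟨k, hk⟩ := hx 0
    refine Set.mem_iUnion.2 ⟨k, hx, ?_⟩
    have a1 := S_le_M (T := T) φ k x
    have a2 := M_succ (T := T) φ k x
    show 0 < M T φ (k + 1) x
    push_cast at hk
    linarith
  have h1 := tendsto_setIntegral_of_monotone (μ := μ) (f := φ)
    (s := fun n => D ∩ {x | 0 < M T φ (n + 1) x})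
    (fun n => hDm.inter (measurableSet_lt measurable_const (M_meas hT.measurable hφm _)))
    (fun a b hab => Set.inter_subset_inter_right _ (E_mono φ hab)) hφi.integrableOn
  have h2 := ge_of_tendsto' h1 (garsia hT hφm hφi hDm hTD)
  rw [hU, integral_sub hi.integrableOn (integrable_const ε).integrableOn, setIntegral_const,
    smul_eq_mul, h0 D hDm hTD] at h2
  have h3 : μ.real D = 0 := le_antisymm (by nlinarith) measureReal_nonneg
  rw [measureReal_eq_zero_iff] at h3
  filter_upwards [measure_eq_zero_iff_ae_notMem.1 h3] with x hx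
  simp only [hD, Set.mem_ofPred_eq, not_forall, not_exists, not_lt] at hx
  obtain ⟨B, hB⟩ := hx
  exact ⟨B, fun k => by simpa only [hφ, S_const] using hB k⟩

lemma birkhoff0 [IsFiniteMeasure μ] (hT : MeasurePreserving T μ μ) {h : X → ℝ} (hm : Measurable h)
    (hi : Integrable h μ) (h0 : ∀ D, MeasurableSet D → T ⁻¹' D = D → ∫ x in D, h x ∂μ = 0) :
    ∀ᵐ x ∂μ, ∀ ε > 0, ∃ K : ℕ, ∀ k ≥ K, |(k:ℝ)⁻¹ * birkhoffSum T h k x| ≤ ε := by
  have h1 : ∀ᵐ x ∂μ, ∀ n : ℕ, ∃ B : ℕ, ∀ k : ℕ, birkhoffSum T h k x - k * (1 / (n + 1)) ≤ B :=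
    ae_all_iff.2 fun n => upper hT hm hi h0 (by positivity)
  have h2 : ∀ᵐ x ∂μ, ∀ n : ℕ, ∃ B : ℕ, ∀ k : ℕ, birkhoffSum T (-h) k x - k * (1 / (n + 1)) ≤ B :=
    ae_all_iff.2 fun n => upper hT hm.neg hi.neg
      (fun D a b => by simp only [Pi.neg_apply]; rw [integral_neg, h0 D a b, neg_zero]) (by positivity)
  filter_upwards [h1, h2] with x a1 a2 ε hε
  obtain ⟨n, hn⟩ := exists_nat_one_div_lt (half_pos hε)
  obtain ⟨B1, b1⟩ := a1 n
  obtain ⟨B2, b2⟩ := a2 n
  obtain ⟨K, hK⟩ := exists_nat_gt ((B1 + B2) / (ε / 2))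
  refine ⟨K, fun k hk => ?_⟩
  have hk' : (K:ℝ) ≤ k := by exact_mod_cast hk
  have hK0 : (0:ℝ) < k := lt_of_lt_of_le (lt_of_le_of_lt (by positivity) hK) hk'
  rw [div_lt_iff₀ (half_pos hε)] at hK
  have c1 := b1 k
  have c2 := b2 k
  rw [birkhoffSum_neg] at c2
  rw [abs_mul, abs_of_pos (inv_pos.2 hK0), inv_mul_le_iff₀ hK0, abs_le]
  have d1 : (k:ℝ) * (1 / (n + 1)) ≤ k * (ε / 2) := by gcongr
  have d2 : (K:ℝ) * (ε / 2) ≤ k * (ε / 2) := by gcongr
  have d3 : (0:ℝ) ≤ B1 := by positivity
  have d4 : (0:ℝ) ≤ B2 := by positivity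
  constructor <;> linarith

/-- the ergodic maximal function of an `L^q` function is integrable -/
lemma dom [IsProbabilityMeasure μ] (hT : MeasurePreserving T μ μ) {f : X → ℝ} (hm : Measurable f)
    {q : ℝ} (hq : 1 < q) (hi : Integrable (fun x => |f x| ^ q) μ) :
    ∃ W : X → ENNReal, Measurable W ∧ ∫⁻ x, W x ∂μ < ⊤ ∧
      ∀ x (k : ℕ), ENNReal.ofReal |(k:ℝ)⁻¹ * birkhoffSum T f k x| ≤ W x := by
  have hgm : Measurable fun x => |f x| ^ q := (continuous_abs.measurable.comp hm).pow_const q
  set E : ℕ → Set X := fun n =>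
    {x | ∃ k : ℕ, k * ((2:ℝ) ^ n / 4) ^ q < birkhoffSum T (fun x => |f x| ^ q) k x} with hE
  have hEm : ∀ n, MeasurableSet (E n) := fun n => by
    simp only [hE, Set.ofPred_exists]
    exact MeasurableSet.iUnion fun k => measurableSet_lt measurable_const (S_meas hT.measurable hgm k)
  set C := ∫ x, |f x| ^ q ∂μ with hC
  have hC0 : 0 ≤ C := integral_nonneg fun x => by positivity
  refine ⟨fun x => 1 + ∑' n, (E n).indicator (fun _ => ENNReal.ofReal (2 ^ (n + 1))) x, ?_, ?_, ?_⟩
  · exact measurable_const.add (Measurable.ennreal_tsum fun n => measurable_const.indicator (hEm n))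
  · rw [lintegral_add_left measurable_const,
      lintegral_tsum fun n => (measurable_const.indicator (hEm n)).aemeasurable]
    simp only [lintegral_const, measure_univ, mul_one, lintegral_indicator_const (hEm _)]
    refine ENNReal.add_lt_top.2 ⟨ENNReal.one_lt_top, ?_⟩
    set ρ : ℝ := 2 / 2 ^ q with hρ
    have h2q : (2:ℝ) < 2 ^ q := by
      have := Real.rpow_lt_rpow_of_exponent_lt (by norm_num : (1:ℝ) < 2) hq
      simpa using this
    have hρ1 : ρ < 1 := by rw [hρ, div_lt_one (by positivity)]; exact h2q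
    have hs : Summable fun n : ℕ => 2 * 4 ^ q * C * ρ ^ n :=
      (summable_geometric_of_lt_one (by positivity) hρ1).mul_left _
    refine lt_of_le_of_lt (ENNReal.tsum_le_tsum fun n => ?_) hs.tsum_ofReal_lt_top
    refine (mul_le_mul_right (weak hT hgm hi (fun x => by positivity) (by positivity)) _).trans ?_
    rw [← ENNReal.ofReal_mul (by positivity)]
    refine ENNReal.ofReal_le_ofReal (le_of_eq ?_)
    rw [Real.div_rpow (by positivity) (by norm_num), hρ, div_pow, ← Real.rpow_natCast_mul (by norm_num),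
      mul_comm (n:ℝ) q, Real.rpow_mul_natCast (by norm_num), pow_succ]
    field_simp
    rfl
  · intro x k
    set a := |(k:ℝ)⁻¹ * birkhoffSum T f k x| with ha
    by_cases h1 : a ≤ 1
    · exact le_add_right (ENNReal.ofReal_le_one.2 h1)
    obtain ⟨n, n1, n2⟩ := exists_nat_pow_near (not_le.1 h1).le one_lt_two
    have hk : (0:ℝ) < k := by
      rcases Nat.eq_zero_or_pos k with h | h
      · subst h; simp [ha] at h1
      · exact_mod_cast h
    have hx : x ∈ E n := by
      refine ⟨k, ?_⟩
      set l : ℝ := 2 ^ n / 4 with hl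
      have hl0 : 0 < l := by positivity
      have hlq : 0 < l ^ q := by positivity
      have key : ∀ y, l ^ q * |f y| ≤ l ^ q * l + l * |f y| ^ q := by
        intro y
        by_cases h : |f y| ≤ l
        · have : 0 ≤ l * |f y| ^ q := by positivity
          nlinarith
        · have h' := (not_le.1 h).le
          have e1 : l ^ q = l * l ^ (q - 1) := by
            rw [Real.rpow_sub_one hl0.ne']; field_simp
          have e2 : |f y| ^ q = |f y| * |f y| ^ (q - 1) := by
            rw [Real.rpow_sub_one (hl0.trans_le h').ne']; field_simp [(hl0.trans_le h').ne']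
          have e3 : l ^ (q - 1) ≤ |f y| ^ (q - 1) := Real.rpow_le_rpow hl0.le h' (by linarith)
          have e4 : l ^ q * |f y| ≤ l * |f y| ^ q := by
            rw [e1, e2]
            calc l * l ^ (q - 1) * |f y| ≤ l * |f y| ^ (q - 1) * |f y| := by gcongr
              _ = _ := by ring
          have : 0 ≤ l ^ q * l := by positivity
          linarith
      have s1 := Finset.sum_le_sum fun j (_ : j ∈ Finset.range k) => key (T^[j] x)
      rw [Finset.sum_add_distrib, ← Finset.mul_sum, ← Finset.mul_sum, ← Finset.mul_sum] at s1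
      simp only [Finset.sum_const, Finset.card_range, nsmul_eq_mul] at s1
      have s2 : k * (4 * l) ≤ ∑ j ∈ Finset.range k, |f (T^[j] x)| := by
        refine le_trans ?_ (Finset.abs_sum_le_sum_abs _ _)
        rw [ha, abs_mul, abs_of_pos (inv_pos.2 hk), le_inv_mul_iff₀ hk] at n1
        rw [hl, mul_div_cancel₀ _ (by norm_num : (4:ℝ) ≠ 0)]
        exact n1
      have s3 := mul_le_mul_of_nonneg_left s2 hlq.le
      have s4 : 0 < l ^ q * (k * l) := by positivity
      refine lt_of_mul_lt_mul_left ?_ hl0.le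
      unfold birkhoffSum
      nlinarith
    refine le_add_left (le_trans ?_ (ENNReal.le_tsum n))
    rw [Set.indicator_of_mem hx]
    exact ENNReal.ofReal_le_ofReal n2.le

end Pool.Agent.H28Erg
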