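import Mathlib

set_option autoImplicit false

namespace Pool.Agent.H28ErgB

open MeasureTheory Filter Topology

def C {X : Type} (φ : X → ℕ → ℕ) (x : X) (m : ℕ) : Set X := {y | ∀ i < m, φ y i = φ x i}

lemma C_eq {X : Type} {φ : X → ℕ → ℕ} {x z : X} {m : ℕ} (h : z ∈ C φ x m) : C φ z m = C φ x m := by
  ext y
  exact ⟨fun hy i hi => (hy i hi).trans (h i hi), fun hy i hi => (hy i hi).trans (h i hi).symm⟩

attribute [local instance] PiNat.metricSpace in
lemma ball_pinat (x : ℕ → ℕ) {r : ℝ} (hr : 0 < r) : ∃ m, Metric.ball x r = PiNat.cylinder x m := by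
  have h : ∃ m : ℕ, (1 / 2 : ℝ) ^ m < r := exists_pow_lt_of_lt_one hr (by norm_num)
  classical
  refine ⟨Nat.find h, Set.ext fun y => ?_⟩
  rw [PiNat.mem_cylinder_iff_dist_le, Metric.mem_ball]
  refine ⟨fun hy => ?_, fun hy => hy.trans_lt (Nat.find_spec h)⟩
  by_cases e : y = x
  · subst e; rw [dist_self]; positivity
  · rw [PiNat.dist_eq_of_ne e] at hy ⊢
    exact pow_le_pow_of_le_one (by norm_num) (by norm_num) (Nat.find_min' h hy)

attribute [local instance] PiNat.metricSpace in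
lemma ball_pinat' (x : ℕ → ℕ) (m : ℕ) : Metric.ball x (2 * (1 / 2) ^ m) = PiNat.cylinder x m := by
  ext y
  rw [PiNat.mem_cylinder_iff_dist_le, Metric.mem_ball]
  have hp : (0:ℝ) < (1 / 2) ^ m := by positivity
  refine ⟨fun hy => ?_, fun hy => by linarith⟩
  by_cases e : y = x
  · subst e; rw [dist_self]; positivity
  · rw [PiNat.dist_eq_of_ne e] at hy ⊢
    refine pow_le_pow_of_le_one (by norm_num) (by norm_num) ?_
    by_contra hc
    have : (1 / 2 : ℝ) ^ m ≤ (1 / 2) ^ (PiNat.firstDiff y x + 1) :=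
      pow_le_pow_of_le_one (by norm_num) (by norm_num) (by omega)
    rw [pow_succ] at this
    linarith

lemma HL {X : Type} [MetricSpace X] [TopologicalSpace.SeparableSpace X] [MeasurableSpace X]
    [BorelSpace X] (μ : Measure X) [IsFiniteMeasure μ] (φ : X → ℕ → ℕ)
    (h1 : ∀ x r, 0 < r → ∃ m, Metric.ball x r = C φ x m) (h2 : ∀ x m, IsOpen (C φ x m))
    (g : X → ℝ) (hg : Integrable g μ) (ε : ℝ) (hε : 0 < ε) :
    μ {x | ENNReal.ofReal ε ≤ ⨆ (r : ℝ) (_ : 0 < r), ENNReal.ofReal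
      ((μ.real (Metric.ball x r))⁻¹ * ∫ y in Metric.ball x r, |g y| ∂μ)} ≤
      ENNReal.ofReal (2 * (∫ y, |g y| ∂μ) / ε) := by
  set bad : Set X → Prop := fun s => ε / 2 < (μ.real s)⁻¹ * ∫ y in s, |g y| ∂μ with hbad
  set n : X → ℕ := fun x => sInf {m | bad (C φ x m)} with hn
  set A : Set X := {x | ∃ m, bad (C φ x m)} with hA
  set 𝒞 : Set (Set X) := (fun x => C φ x (n x)) '' A with h𝒞
  have key : ∀ x ∈ A, ∀ y z, z ∈ C φ x (n x) → z ∈ C φ y (n y) → n x ≤ n y →
      C φ x (n x) = C φ y (n y) := by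
    intro x hx y z a b c
    have b' : z ∈ C φ y (n x) := fun i hi => b i (by omega)
    have e : C φ y (n x) = C φ x (n x) := (C_eq b').symm.trans (C_eq a)
    have : n y ≤ n x := Nat.sInf_le (show bad (C φ y (n x)) from e ▸ Nat.sInf_mem hx)
    rw [← e, le_antisymm c this]
  have hd : 𝒞.PairwiseDisjoint id := by
    rintro _ ⟨x, hx, rfl⟩ _ ⟨y, hy, rfl⟩ hne
    refine Set.disjoint_left.2 fun z a b => hne ?_
    rcases le_total (n x) (n y) with c | c
    · exact key x hx y z a b c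
    · exact (key y hy x z b a c).symm
  have ho : ∀ s ∈ 𝒞, IsOpen s := by rintro _ ⟨x, _, rfl⟩; exact h2 _ _
  have hc : 𝒞.Countable := hd.countable_of_isOpen ho (by
    rintro _ ⟨x, _, rfl⟩; exact ⟨x, fun _ _ => rfl⟩)
  have hsub : {x | ENNReal.ofReal ε ≤ ⨆ (r : ℝ) (_ : 0 < r), ENNReal.ofReal
      ((μ.real (Metric.ball x r))⁻¹ * ∫ y in Metric.ball x r, |g y| ∂μ)} ⊆ ⋃ s ∈ 𝒞, s := by
    intro x hx
    have : ENNReal.ofReal (ε / 2) < ENNReal.ofReal ε :=
      (ENNReal.ofReal_lt_ofReal_iff hε).2 (by linarith)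
    obtain ⟨r, hr⟩ := lt_iSup_iff.1 (this.trans_le hx)
    obtain ⟨r0, hr⟩ := lt_iSup_iff.1 hr
    obtain ⟨m, hm⟩ := h1 x r r0
    rw [hm] at hr
    exact Set.mem_biUnion ⟨x, ⟨m, (ENNReal.ofReal_lt_ofReal_iff_of_nonneg (by positivity)).1 hr⟩, rfl⟩
      (fun _ _ => rfl)
  have hb : ∀ s ∈ 𝒞, μ s ≤ ENNReal.ofReal (2 / ε) * ∫⁻ y in s, ‖g y‖ₑ ∂μ := by
    rintro _ ⟨x, hx, rfl⟩
    have h3 : bad (C φ x (n x)) := Nat.sInf_mem hx
    rw [← ofReal_integral_norm_eq_lintegral_enorm hg.integrableOn, ← ENNReal.ofReal_mul (by positivity),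
      ← ofReal_measureReal]
    refine ENNReal.ofReal_le_ofReal ?_
    simp only [hbad] at h3
    simp only [Real.norm_eq_abs]
    rcases (measureReal_nonneg (μ := μ) (s := C φ x (n x))).eq_or_lt with h0 | h0
    · rw [← h0] at h3; simp at h3; linarith
    · rw [lt_inv_mul_iff₀ h0] at h3
      rw [div_mul_eq_mul_div, le_div_iff₀ hε]; linarith
  refine (measure_mono hsub).trans ((measure_biUnion_le μ hc _).trans ?_)
  refine (ENNReal.tsum_le_tsum fun s : 𝒞 => hb s s.2).trans ?_
  rw [ENNReal.tsum_mul_left, ← lintegral_biUnion hc (fun s hs => (ho s hs).measurableSet) hd]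
  refine (mul_le_mul_right (setLIntegral_le_lintegral _ _) _).trans (le_of_eq ?_)
  rw [← ofReal_integral_norm_eq_lintegral_enorm hg, ← ENNReal.ofReal_mul (by positivity)]
  simp only [Real.norm_eq_abs]
  congr 1
  ring

def Mn (n : ℕ) : ℕ := 2 ^ (n + 4)
def Sn (n : ℕ) : ℕ := 2 ^ (Mn n + n)
def Nn (n : ℕ) : ℕ := Sn n * Mn n

instance (n : ℕ) : NeZero (Nn n) := ⟨by unfold Nn Sn Mn; positivity⟩

def lab (n j : ℕ) : ℕ := if 2 ^ n ≤ j ∧ j < Sn n then Nat.log 2 j - n else j / Sn n

abbrev G := ∀ n, ZMod (Nn n)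

def φ (x : G) (m : ℕ) : ℕ := if m % 2 = 0 then lab (m / 2) (x (m / 2)).val else (x (m / 2)).val

lemma φ_odd (x : G) (n : ℕ) : φ x (2 * n + 1) = (x n).val := by
  have : ∀ k, k = n → (x k).val = (x n).val := by rintro _ rfl; rfl
  rw [φ, if_neg (by omega)]; exact this _ (by omega)

lemma φ_even (x : G) (n : ℕ) : φ x (2 * n) = lab n (x n).val := by
  have : ∀ k, k = n → lab k (x k).val = lab n (x n).val := by rintro _ rfl; rfl
  rw [φ, if_pos (by omega)]; exact this _ (by omega)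

lemma φ_emb : IsEmbedding φ := by
  refine (Continuous.isClosedEmbedding ?_ ?_).isEmbedding
  · refine continuous_pi fun m => ?_
    exact (continuous_of_discreteTopology (f := fun z : ZMod (Nn (m / 2)) =>
      if m % 2 = 0 then lab (m / 2) z.val else z.val)).comp (continuous_apply (m / 2))
  · intro x y h
    funext n
    apply ZMod.val_injective
    rw [← φ_odd, ← φ_odd, h]

lemma lab_lt {n j : ℕ} (h : j < Nn n) : lab n j < Mn n := by
  unfold lab
  split_ifs with h1
  · have : j ≠ 0 := by have := Nat.two_pow_pos n; omega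
    have := Nat.log_lt_of_lt_pow this h1.2
    have : 0 < Mn n := Nat.two_pow_pos _
    omega
  · exact Nat.div_lt_of_lt_mul h

def Q (x : G) (n : ℕ) : Set G := {y | ∀ i < n, y i = x i}

lemma C_odd (x : G) (n : ℕ) : C φ x (2 * n + 1) =
    Q x n ∩ {y | y n ∈ Finset.univ.filter fun z : ZMod (Nn n) => lab n z.val = lab n (x n).val} := by
  ext y
  simp only [C, Q, Set.mem_inter_iff, Set.mem_ofPred_eq, Finset.mem_filter, Finset.mem_univ, true_and]
  constructor
  · intro h
    refine ⟨fun i hi => ZMod.val_injective _ ?_, ?_⟩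
    · rw [← φ_odd, ← φ_odd, h _ (by omega)]
    · rw [← φ_even, ← φ_even, h _ (by omega)]
  · rintro ⟨h, h'⟩ m hm
    by_cases e : m = 2 * n
    · rw [e, φ_even, φ_even, h']
    · unfold φ
      rw [h _ (by omega)]

lemma card_A (n i : ℕ) :
    (Finset.univ.filter fun z : ZMod (Nn n) => lab n z.val = i).card ≤ 2 * Sn n := by
  have hS : 0 < Sn n := Nat.two_pow_pos _
  refine (Finset.card_le_card_of_injOn (t := Finset.range (Sn n) ∪ Finset.Ico (i * Sn n) (i * Sn n + Sn n))
    ZMod.val (fun z hz => ?_) (ZMod.val_injective _).injOn).trans ?_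
  · simp only [Finset.coe_filter, Finset.mem_univ, true_and, Set.mem_ofPred_eq] at hz
    simp only [Finset.coe_union, Finset.coe_range, Finset.coe_Ico, Set.mem_union, Set.mem_Iio,
      Set.mem_Ico]
    unfold lab at hz
    split_ifs at hz with h
    · exact Or.inl h.2
    · right
      rw [← hz]
      exact ⟨Nat.div_mul_le_self _ _, Nat.lt_div_mul_add hS⟩
  · refine (Finset.card_union_le _ _).trans ?_
    simp; omega

lemma card_L {n i : ℕ} (hi : i < Mn n) : 2 ^ (i + n) ≤
    (Finset.univ.filter fun z : ZMod (Nn n) => lab n z.val = i ∧ z.val < 2 ^ (i + n + 1)).card := by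
  have h1 : 2 ^ (i + n + 1) ≤ Sn n := Nat.pow_le_pow_right (by norm_num) (by omega)
  have h2 : Sn n ≤ Nn n := Nat.le_mul_of_pos_right _ (Nat.two_pow_pos _)
  have h3 : 2 ^ n ≤ 2 ^ (i + n) := Nat.pow_le_pow_right (by norm_num) (by omega)
  refine le_trans ?_ (Finset.card_le_card_of_injOn (s := Finset.Ico (2 ^ (i + n)) (2 ^ (i + n + 1)))
    (fun j : ℕ => (j : ZMod (Nn n))) (fun j hj => ?_) fun a ha b hb h => ?_)
  · rw [Nat.card_Ico, pow_succ]; omega
  · simp only [Finset.coe_Ico, Set.mem_Ico] at hj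
    simp only [Finset.coe_filter, Finset.mem_univ, true_and, Set.mem_ofPred_eq]
    rw [ZMod.val_cast_of_lt (by omega)]
    refine ⟨?_, hj.2⟩
    unfold lab
    rw [if_pos ⟨by omega, by omega⟩, Nat.log_eq_of_pow_le_of_lt_pow hj.1 hj.2]
    omega
  · simp only [Finset.coe_Ico, Set.mem_Ico] at ha hb
    have := congrArg ZMod.val h
    rwa [ZMod.val_cast_of_lt (by omega), ZMod.val_cast_of_lt (by omega)] at this

lemma open_coord (n : ℕ) (s : Set (ZMod (Nn n))) : IsOpen {y : G | y n ∈ s} :=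
  (isOpen_discrete s).preimage (continuous_apply n)

lemma Q_open (x : G) (n : ℕ) : IsOpen (Q x n) := by
  have : Q x n = ⋂ i ∈ Finset.range n, {y : G | y i ∈ ({x i} : Set _)} := by
    ext y; simp [Q]
  rw [this]
  exact isOpen_biInter_finset fun i _ => open_coord i _

lemma count [MeasurableSpace G] [BorelSpace G] (μ : Measure G) [μ.IsAddLeftInvariant] (n : ℕ)
    {s : Set G} (hs : IsOpen s) (hinv : ∀ z y, Pi.single n z + y ∈ s ↔ y ∈ s)
    (A : Finset (ZMod (Nn n))) : μ (s ∩ {y | y n ∈ A}) = A.card * μ (s ∩ {y | y n = 0}) := by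
  have h1 : s ∩ {y | y n ∈ A} = ⋃ z ∈ A, s ∩ {y | y n = z} := by
    ext y; simp
  rw [h1, measure_biUnion_finset]
  · rw [← nsmul_eq_mul, ← Finset.sum_const]
    refine Finset.sum_congr rfl fun z _ => ?_
    rw [← measure_preimage_add μ (Pi.single n z)]
    congr 1
    ext y
    simp [hinv]
  · intro a _ b _ h
    exact Set.disjoint_left.2 fun y ha hb => h (ha.2.symm.trans hb.2)
  · exact fun z _ => (hs.inter (open_coord n {z})).measurableSet

lemma iter (j : ℕ) (y : G) : (fun y : G => -1 + y)^[j] y = -(j : G) + y := by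
  induction j with
  | zero => simp
  | succ j ih => rw [Function.iterate_succ_apply', ih]; push_cast; ring

noncomputable def F (y : G) : ENNReal := ∑' n, {y : G | y n = 0}.indicator (fun _ => (4 * Sn n : ℕ)) y

lemma F_int [MeasurableSpace G] [BorelSpace G] (μ : Measure G) [μ.IsAddLeftInvariant]
    [IsProbabilityMeasure μ] : Measurable F ∧ ∫⁻ y, F y ∂μ ≤ ENNReal.ofReal (1 / 2) := by
  have hm : ∀ n, MeasurableSet {y : G | y n = 0} := fun n => (open_coord n {0}).measurableSet
  refine ⟨Measurable.ennreal_tsum fun n => measurable_const.indicator (hm n), ?_⟩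
  unfold F
  rw [lintegral_tsum fun n => (measurable_const.indicator (hm n)).aemeasurable]
  simp only [lintegral_indicator_const (hm _)]
  have h1 : ∀ n, ((4 * Sn n : ℕ) : ENNReal) * μ {y : G | y n = 0} = ENNReal.ofReal (1 / 2 / 2 / 2 ^ n) := by
    intro n
    have := count μ n isOpen_univ (by simp) Finset.univ
    simp only [Finset.mem_univ, Set.ofPred_true, Set.univ_inter, measure_univ, Finset.card_univ,
      ZMod.card] at this
    have h2 := congrArg ENNReal.toReal this
    rw [ENNReal.toReal_mul, ENNReal.toReal_natCast, ENNReal.toReal_one] at h2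
    rw [← ENNReal.ofReal_toReal (measure_ne_top μ _), ← ENNReal.ofReal_natCast,
      ← ENNReal.ofReal_mul (by positivity)]
    congr 1
    have hN : ((Nn n : ℕ) : ℝ) = Sn n * (2 ^ n * 2 ^ 4) := by
      rw [Nn, Mn]; push_cast; rw [pow_add]
    rw [hN] at h2
    push_cast
    field_simp
    linarith
  simp only [h1]
  rw [← ENNReal.ofReal_tsum_of_nonneg (fun n => by positivity) (summable_geometric_two' _),
    tsum_geometric_two']

lemma big [MeasurableSpace G] [BorelSpace G] (μ : Measure G) [μ.IsAddLeftInvariant]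
    [IsProbabilityMeasure μ] [μ.IsOpenPosMeasure] (x : G) (n : ℕ) : ∃ k : ℕ, n ≤ k ∧
    1 ≤ (μ.real (C φ x (2 * n + 1)))⁻¹ * ∫ y in C φ x (2 * n + 1),
      (k : ℝ)⁻¹ * ∑ j ∈ Finset.range k, (F ((fun y : G => -1 + y)^[j] y)).toReal ∂μ := by
  obtain ⟨hFm, hFi⟩ := F_int μ
  have hFt : ∫⁻ y, F y ∂μ ≠ ⊤ := (hFi.trans_lt ENNReal.ofReal_lt_top).ne
  have hfi : Integrable (fun y => (F y).toReal) μ :=
    integrable_toReal_of_lintegral_ne_top hFm.aemeasurable hFt
  have hT : MeasurePreserving (fun y : G => -1 + y) μ μ := measurePreserving_add_left μ (-1)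
  set i := lab n (x n).val with hi
  have hiM : i < Mn n := lab_lt (ZMod.val_lt _)
  refine ⟨2 ^ (i + n + 1), (by omega : n ≤ i + n + 1).trans Nat.lt_two_pow_self.le, ?_⟩
  set k := 2 ^ (i + n + 1) with hk
  have hinv : ∀ z y, Pi.single n z + y ∈ Q x n ↔ y ∈ Q x n := by
    intro z y
    refine forall_congr' fun j => forall_congr' fun hj => ?_
    rw [Pi.add_apply, Pi.single_eq_of_ne (by omega), zero_add]
  have hw : 0 < μ.real (Q x n ∩ {y | y n = 0}) := by
    refine ENNReal.toReal_pos (IsOpen.measure_ne_zero μ ((Q_open x n).inter (open_coord n {0}))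
      ⟨Function.update x n 0, fun j hj => Function.update_of_ne (by omega) _ _, ?_⟩) (measure_ne_top _ _)
    simp
  set w := μ.real (Q x n ∩ {y | y n = 0}) with hw'
  have hc : ∀ A : Finset (ZMod (Nn n)), μ.real (Q x n ∩ {y | y n ∈ A}) = A.card * w := by
    intro A
    rw [Measure.real, count μ n (Q_open x n) hinv, ENNReal.toReal_mul, ENNReal.toReal_natCast]
    rfl
  set A := Finset.univ.filter fun z : ZMod (Nn n) => lab n z.val = i with hA
  set L := Finset.univ.filter fun z : ZMod (Nn n) => lab n z.val = i ∧ z.val < k with hL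
  have cA : (A.card : ℝ) ≤ 2 * Sn n := by exact_mod_cast card_A n i
  have cL : (2:ℝ) ^ (i + n) ≤ L.card := by exact_mod_cast card_L hiM
  have cA0 : (0:ℝ) < A.card := by
    have : x n ∈ A := by simp [hA, hi]
    exact_mod_cast Finset.card_pos.2 ⟨_, this⟩
  rw [C_odd, hc, le_inv_mul_iff₀ (by positivity), mul_one]
  have hgi : Integrable (fun y => (k : ℝ)⁻¹ *
      ∑ j ∈ Finset.range k, (F ((fun y : G => -1 + y)^[j] y)).toReal) μ :=
    (integrable_finsetSum _ fun j _ => (hT.iterate j).integrable_comp_of_integrable hfi).const_mul _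
  have s1 : Q x n ∩ {y | y n ∈ L} ⊆ Q x n ∩ {y | y n ∈ A} := by
    refine Set.inter_subset_inter_right _ fun y hy => ?_
    simp only [hL, hA, Set.mem_ofPred_eq, Finset.mem_filter] at hy ⊢
    exact ⟨hy.1, hy.2.1⟩
  refine le_trans ?_ (setIntegral_mono_set hgi.integrableOn
    (Eventually.of_forall fun y => by positivity) s1.eventuallyLE)
  have hfin : ∀ᵐ y ∂μ, ∀ j : ℕ, F ((fun y : G => -1 + y)^[j] y) < ⊤ :=
    ae_all_iff.2 fun j => (hT.iterate j).quasiMeasurePreserving.ae (ae_lt_top hFm hFt)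
  have s2 : ∫ y in Q x n ∩ {y | y n ∈ L}, (k : ℝ)⁻¹ * (4 * Sn n) ∂μ ≤ ∫ y in Q x n ∩ {y | y n ∈ L},
      (k : ℝ)⁻¹ * ∑ j ∈ Finset.range k, (F ((fun y : G => -1 + y)^[j] y)).toReal ∂μ := by
    refine setIntegral_mono_on_ae (integrable_const _).integrableOn hgi.integrableOn
      ((Q_open x n).inter (open_coord n L)).measurableSet ?_
    filter_upwards [hfin] with y hy hyL
    refine mul_le_mul_of_nonneg_left ?_ (by positivity)
    have hj : (y n).val ∈ Finset.range k := by
      have := hyL.2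
      simp only [hL, Set.mem_ofPred_eq, Finset.mem_filter] at this
      exact Finset.mem_range.2 this.2.2
    refine le_trans ?_ (Finset.single_le_sum
      (f := fun j => (F ((fun y : G => -1 + y)^[j] y)).toReal) (fun j _ => ENNReal.toReal_nonneg) hj)
    have e : ((4 * Sn n : ℕ) : ENNReal) ≤ F ((fun y : G => -1 + y)^[(y n).val] y) := by
      refine le_trans ?_ (ENNReal.le_tsum n)
      rw [Set.indicator_of_mem]
      rw [iter]
      show -(((y n).val : ℕ) : ZMod (Nn n)) + y n = 0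
      rw [ZMod.natCast_zmod_val, neg_add_cancel]
    have := ENNReal.toReal_mono (hy _).ne e
    rw [ENNReal.toReal_natCast] at this
    exact_mod_cast this
  refine le_trans ?_ s2
  rw [setIntegral_const, hc, smul_eq_mul, hk]
  have hS : (0:ℝ) < Sn n := by exact_mod_cast Nat.two_pow_pos _
  push_cast
  calc (A.card : ℝ) * w ≤ 2 * Sn n * w := by gcongr
    _ = 2 ^ (i + n) * w * ((2 ^ (i + n + 1))⁻¹ * (4 * Sn n)) := by rw [pow_succ]; field_simp; ring
    _ ≤ _ := by gcongr

end Pool.Agent.H28ErgB
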