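import Mathlib

/-! A smooth compactly supported window lies in the Feichtinger algebra; painless Parseval. -/

open MeasureTheory Set Filter Topology
open scoped FourierTransform

namespace H28Gab

lemma four_le (f : ℝ → ℂ) (w : ℝ) : ‖𝓕 f w‖ ≤ ∫ t, ‖f t‖ := by
  rw [Real.fourier_real_eq_integral_exp_smul]
  refine (norm_integral_le_integral_norm _).trans (le_of_eq ?_)
  simp only [norm_smul, Complex.norm_exp_ofReal_mul_I, one_mul]

lemma four_decay {F F1 F2 : ℝ → ℂ} (h1 : ∀ t, HasDerivAt F (F1 t) t)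
    (h2 : ∀ t, HasDerivAt F1 (F2 t) t) (i0 : Integrable F) (i1 : Integrable F1)
    (i2 : Integrable F2) (w : ℝ) :
    ‖𝓕 F w‖ ≤ (∫ t, (‖F t‖ + ‖F2 t‖)) * (1 + w ^ 2)⁻¹ := by
  have e1 : deriv F = F1 := funext fun t => (h1 t).deriv
  have e2 : deriv F1 = F2 := funext fun t => (h2 t).deriv
  have a1 := congrFun (Real.fourier_deriv i0 (fun t => (h1 t).differentiableAt) (e1 ▸ i1)) w
  have a2 := congrFun (Real.fourier_deriv i1 (fun t => (h2 t).differentiableAt) (e2 ▸ i2)) w
  rw [e1] at a1
  rw [e2, a1] at a2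
  have a3 : ‖𝓕 F2 w‖ = (2 * Real.pi) ^ 2 * w ^ 2 * ‖𝓕 F w‖ := by
    rw [a2]
    simp only [norm_smul, norm_mul, Complex.norm_real, Complex.norm_I, Complex.norm_ofNat,
      Real.norm_eq_abs, abs_of_pos Real.pi_pos]
    rw [← sq_abs w]; ring
  rw [integral_add i0.norm i2.norm, ← div_eq_mul_inv, le_div_iff₀ (by positivity)]
  have b1 := four_le F w
  have b2 := four_le F2 w
  have b3 : 1 ≤ (2 * Real.pi) ^ 2 := by nlinarith [Real.pi_gt_three]
  have b4 : 0 ≤ w ^ 2 * ‖𝓕 F w‖ := by positivity
  nlinarith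

noncomputable def E (s : ℝ) : ℝ := Real.exp (-Real.pi * s ^ 2)

lemma E_pos (s : ℝ) : 0 < E s := Real.exp_pos _

lemma E_deriv (x t : ℝ) : HasDerivAt (fun t => E (t - x)) (-2 * Real.pi * (t - x) * E (t - x)) t := by
  have h := ((((hasDerivAt_id t).sub_const x).fun_pow 2).const_mul (-Real.pi)).exp
  have e : -2 * Real.pi * (t - x) * E (t - x) = Real.exp (-Real.pi * (id t - x) ^ 2) *
      (-Real.pi * (((2:ℕ):ℝ) * (id t - x) ^ (2 - 1) * 1)) := by
    simp only [E, id]; push_cast; ring
  rw [e]; exact h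

lemma B_int : Integrable fun s : ℝ => 60 * (1 + s ^ 2) * E s := by
  have h1 := integrable_exp_neg_mul_sq Real.pi_pos
  have h2 := integrable_rpow_mul_exp_neg_mul_sq Real.pi_pos (s := 2) (by norm_num)
  refine ((h1.add h2).const_mul 60).congr (Eventually.of_forall fun s => ?_)
  simp [E]; ring

lemma stft_int {g : ℝ → ℝ} (hg : ContDiff ℝ 2 g) (hc : HasCompactSupport g) :
    Integrable (fun p : ℝ × ℝ => ∫ t : ℝ, (g t : ℂ)
        * Complex.exp (-(Real.pi : ℂ) * (((t - p.1) ^ 2 : ℝ) : ℂ))
        * Complex.exp (-2 * (Real.pi : ℂ) * Complex.I * (p.2 : ℂ) * (t : ℂ)))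
      (volume : Measure (ℝ × ℝ)) := by
  have hg1 : ContDiff ℝ 1 (deriv g) := (contDiff_succ_iff_deriv.1 (show ContDiff ℝ (1 + 1) g from hg)).2.2
  have d0 : Differentiable ℝ g := hg.differentiable (by simp)
  have d1 : Differentiable ℝ (deriv g) := hg1.differentiable (by simp)
  have c0 : Continuous g := d0.continuous
  have c1 : Continuous (deriv g) := d1.continuous
  have c2 : Continuous (deriv (deriv g)) := hg1.continuous_deriv (by simp)
  have s1 := hc.deriv
  have s2 := s1.deriv
  have cE : Continuous E := by unfold E; fun_prop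
  set A : ℝ → ℝ := fun t => |g t| + |deriv g t| + |deriv (deriv g) t| with hA
  have iA : Integrable A := ((c0.integrable_of_hasCompactSupport hc).abs.add
    (c1.integrable_of_hasCompactSupport s1).abs).add (c2.integrable_of_hasCompactSupport s2).abs
  have hconv := (iA.convolution_integrand (ContinuousLinearMap.mul ℝ ℝ) B_int)
  have hmaj := hconv.integral_prod_left.mul_prod integrable_inv_one_add_sq
  refine hmaj.mono' ?_ (Eventually.of_forall fun p => ?_)
  · refine (StronglyMeasurable.integral_prod_right' (f := fun q : (ℝ × ℝ) × ℝ => (g q.2 : ℂ)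
        * Complex.exp (-(Real.pi : ℂ) * (((q.2 - q.1.1) ^ 2 : ℝ) : ℂ))
        * Complex.exp (-2 * (Real.pi : ℂ) * Complex.I * (q.1.2 : ℂ) * (q.2 : ℂ)))
      (Continuous.stronglyMeasurable (by fun_prop))).aestronglyMeasurable
  · obtain ⟨x, w⟩ := p
    set F : ℝ → ℝ := fun t => g t * E (t - x) with hF
    set F1 : ℝ → ℝ := fun t => deriv g t * E (t - x) + g t * (-2 * Real.pi * (t - x) * E (t - x))
      with hF1
    set F2 : ℝ → ℝ := fun t => deriv (deriv g) t * E (t - x)
      + deriv g t * (2 * (-2 * Real.pi * (t - x) * E (t - x)))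
      + g t * (((2 * Real.pi * (t - x)) ^ 2 - 2 * Real.pi) * E (t - x)) with hF2
    have h1 : ∀ t, HasDerivAt F (F1 t) t := fun t => (d0 t).hasDerivAt.mul (E_deriv x t)
    have h2 : ∀ t, HasDerivAt F1 (F2 t) t := fun t => by
      have := ((d1 t).hasDerivAt.mul (E_deriv x t)).add ((d0 t).hasDerivAt.mul
        ((((hasDerivAt_id t).sub_const x).const_mul (-2 * Real.pi)).mul (E_deriv x t)))
      refine HasDerivAt.congr_deriv this ?_
      simp only [hF2, id, Pi.mul_apply]; ring
    have i0 : Integrable F := Continuous.integrable_of_hasCompactSupport (by fun_prop) hc.mul_right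
    have i1 : Integrable F1 := Continuous.integrable_of_hasCompactSupport (by fun_prop)
      (s1.mul_right.add hc.mul_right)
    have i2 : Integrable F2 := Continuous.integrable_of_hasCompactSupport (by fun_prop)
      ((s2.mul_right.add s1.mul_right).add hc.mul_right)
    have key := four_decay (fun t => (h1 t).ofReal_comp) (fun t => (h2 t).ofReal_comp)
      i0.ofReal i1.ofReal i2.ofReal w
    have e : 𝓕 (fun t => (F t : ℂ)) w = ∫ t : ℝ, (g t : ℂ)
        * Complex.exp (-(Real.pi : ℂ) * (((t - x) ^ 2 : ℝ) : ℂ))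
        * Complex.exp (-2 * (Real.pi : ℂ) * Complex.I * (w : ℂ) * (t : ℂ)) := by
      rw [Real.fourier_real_eq_integral_exp_smul]
      refine integral_congr_ae (Eventually.of_forall fun t => ?_)
      simp only [hF, E, smul_eq_mul]
      push_cast
      rw [mul_comm]
      congr 2; ring
    rw [← e]
    refine key.trans (mul_le_mul_of_nonneg_right ?_ (by positivity))
    have iAB : Integrable fun t => A t * (60 * (1 + (x - t) ^ 2) * E (x - t)) :=
      Continuous.integrable_of_hasCompactSupport (by fun_prop)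
        (HasCompactSupport.mul_right ((hc.abs.add s1.abs).add s2.abs))
    refine integral_mono (i0.ofReal.norm.add i2.ofReal.norm) iAB fun t => ?_
    simp only [Complex.norm_real, Real.norm_eq_abs, hF, hF2, hA, ContinuousLinearMap.mul_apply']
    have eE : E (x - t) = E (t - x) := by simp only [E]; congr 1; ring
    rw [eE, show (x - t) ^ 2 = (t - x) ^ 2 by ring]
    set s := t - x
    have hE := E_pos s
    have hs : |s| ≤ (1 + s ^ 2) / 2 := by rw [← sq_abs s]; nlinarith [sq_nonneg (|s| - 1)]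
    have p1 := Real.pi_lt_d2
    have p0 := Real.pi_pos
    have b0 : |E s| ≤ 30 * (1 + s ^ 2) * E s := by
      rw [abs_of_pos hE]; nlinarith [mul_nonneg (sq_nonneg s) hE.le]
    have b1 : |2 * (-2 * Real.pi * s * E s)| ≤ 60 * (1 + s ^ 2) * E s := by
      rw [show 2 * (-2 * Real.pi * s * E s) = -(4 * Real.pi * s) * E s by ring, abs_mul, abs_neg,
        abs_of_pos hE, abs_mul, abs_of_pos (by positivity : 0 < 4 * Real.pi)]
      refine mul_le_mul_of_nonneg_right ?_ hE.le
      nlinarith [abs_nonneg s]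
    have b2 : |E s| + |((2 * Real.pi * s) ^ 2 - 2 * Real.pi) * E s| ≤ 60 * (1 + s ^ 2) * E s := by
      rw [abs_mul, abs_of_pos hE, ← one_add_mul]
      refine mul_le_mul_of_nonneg_right ?_ hE.le
      have q1 : (2 * Real.pi) ^ 2 ≤ 40 := by nlinarith
      have q2 : (2 * Real.pi * s) ^ 2 ≤ 40 * s ^ 2 := by
        rw [mul_pow]; exact mul_le_mul_of_nonneg_right q1 (sq_nonneg s)
      have : |(2 * Real.pi * s) ^ 2 - 2 * Real.pi| ≤ 40 * s ^ 2 + 7 := by
        rw [abs_le]; constructor <;> nlinarith [sq_nonneg (2 * Real.pi * s), sq_nonneg s]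
      nlinarith [sq_nonneg s]
    have t1 := abs_add_three (deriv (deriv g) t * E s) (deriv g t * (2 * (-2 * Real.pi * s * E s)))
      (g t * (((2 * Real.pi * s) ^ 2 - 2 * Real.pi) * E s))
    rw [abs_mul (deriv (deriv g) t), abs_mul (deriv g t), abs_mul (g t)] at t1
    rw [abs_mul (g t)]
    have u0 := mul_le_mul_of_nonneg_left b0 (abs_nonneg (deriv (deriv g) t))
    have u1 := mul_le_mul_of_nonneg_left b1 (abs_nonneg (deriv g t))
    have u2 := mul_le_mul_of_nonneg_left b2 (abs_nonneg (g t))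
    have u3 : 0 ≤ |deriv (deriv g) t| * (30 * (1 + s ^ 2) * E s) := by positivity
    nlinarith

/-- Painless Parseval identity for a window supported in an interval of length one. -/
lemma painless {g : ℝ → ℝ} (hg : Continuous g) (hb : ∀ t, |g t| ≤ 1)
    (h0 : ∀ t, 1 / 2 ≤ |t| → g t = 0) {f : ℝ → ℂ} (hf : MemLp f 2 volume) (x : ℝ) :
    HasSum (fun m : ℤ => ‖∫ t : ℝ, f t * (starRingEnd ℂ)
        (Complex.exp (2 * (Real.pi : ℂ) * Complex.I * (((m : ℝ) : ℝ) : ℂ) * (t : ℂ))
          * (g (t - x) : ℂ))‖ ^ 2) (∫ t in (x - 1 / 2)..(x - 1 / 2 + 1), ‖f t‖ ^ 2 * g (t - x) ^ 2) := by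
  have hab : x - 1 / 2 < x - 1 / 2 + 1 := by linarith
  have hL : MemLp (fun t => f t * (g (t - x) : ℂ)) 2 volume := by
    refine hf.of_le_mul (c := 1) (hf.1.mul (Continuous.aestronglyMeasurable (by fun_prop)))
      (Eventually.of_forall fun t => ?_)
    rw [norm_mul, Complex.norm_real, one_mul]
    exact mul_le_of_le_one_right (norm_nonneg _) (hb _)
  have h := hasSum_sq_fourierCoeffOn hab (hL.restrict _)
  simp only [add_sub_cancel_left, inv_one, one_smul, norm_mul, Complex.norm_real, mul_pow,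
    Real.norm_eq_abs, sq_abs] at h
  convert h using 3 with m
  rw [fourierCoeffOn_eq_integral, intervalIntegral.integral_eq_integral_of_support_subset]
  · simp only [add_sub_cancel_left, div_one, one_smul, fourier_coe_apply, smul_eq_mul]
    congr 1
    refine integral_congr_ae (Eventually.of_forall fun t => ?_)
    simp only [map_mul, Complex.conj_ofReal, ← Complex.exp_conj, Complex.conj_I, map_ofNat]
    rw [mul_comm (Complex.exp _) (f t * _), mul_assoc (f t), mul_comm (g (t - x) : ℂ)]
    congr 3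
    push_cast; ring
  · intro t ht
    have : ¬ 1 / 2 ≤ |t - x| := fun h => ht (by simp [h0 _ h])
    rw [not_le, abs_lt] at this
    constructor <;> linarith [this.1, this.2]

end H28Gab
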