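import Mathlib
import Pool.Agent.Lib.helper28.GabA

/-! The set `(ℤ + {0, 1/4}) × ℤ` : counting and the frame inequality. -/

open MeasureTheory Set Filter Topology

namespace H28Gab

noncomputable def off (b : Bool) : ℝ := if b then 1 / 4 else 0

noncomputable def pt (q : (Bool × ℤ) × ℤ) : ℝ × ℝ := (off q.1.1 + q.1.2, q.2)

lemma pt_inj : Function.Injective pt := by
  rintro ⟨⟨b, k⟩, m⟩ ⟨⟨b', k'⟩, m'⟩ h
  simp only [pt, Prod.mk.injEq, Int.cast_inj] at h
  obtain ⟨h1, rfl⟩ := h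
  have key : ∀ k k' : ℤ, (1 / 4 : ℝ) + k ≠ 0 + k' := fun k k' h => by
    have : (1 + 4 * k : ℝ) = 4 * k' := by linarith
    have : (1 + 4 * k : ℤ) = 4 * k' := by exact_mod_cast this
    omega
  cases b <;> cases b' <;> simp only [off, if_true, Bool.false_eq_true, if_false] at h1
  · simpa using h1
  · exact absurd h1.symm (key _ _)
  · exact absurd h1 (key _ _)
  · simpa using h1

noncomputable def I (a R : ℝ) : Finset ℤ := Finset.Ico ⌈a⌉ ⌈a + R⌉

lemma mem_I {a R : ℝ} {k : ℤ} : k ∈ I a R ↔ a ≤ k ∧ (k:ℝ) < a + R := by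
  simp [I, Int.ceil_le, Int.lt_ceil]

lemma card_I (a : ℝ) {R : ℝ} (hR : 0 ≤ R) : R - 1 ≤ (I a R).card ∧ ((I a R).card : ℝ) ≤ R + 1 := by
  have h1 : ⌈a⌉ ≤ ⌈a + R⌉ := Int.ceil_mono (by linarith)
  have h2 : (((I a R).card : ℤ) : ℝ) = ((⌈a + R⌉ - ⌈a⌉ : ℤ) : ℝ) := by
    rw [I, Int.card_Ico_of_le _ _ h1]
  push_cast at h2
  rw [h2]
  constructor <;> linarith [Int.le_ceil a, Int.ceil_lt_add_one a, Int.le_ceil (a + R),
    Int.ceil_lt_add_one (a + R)]

noncomputable def S (z : ℝ × ℝ) (R : ℝ) : Finset ((Bool × ℤ) × ℤ) :=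
  ((({false} : Finset Bool) ×ˢ I z.1 R) ∪ (({true} : Finset Bool) ×ˢ I (z.1 - 1 / 4) R)) ×ˢ I z.2 R

lemma box_eq (z : ℝ × ℝ) (R : ℝ) :
    range pt ∩ (Ico z.1 (z.1 + R) ×ˢ Ico z.2 (z.2 + R)) = pt '' (S z R : Set _) := by
  ext p
  constructor
  · rintro ⟨⟨⟨⟨b, k⟩, m⟩, rfl⟩, ⟨h1, h2⟩, h3, h4⟩
    refine mem_image_of_mem _ ?_
    cases b <;> simp only [pt, off, if_true, Bool.false_eq_true, if_false] at h1 h2 h3 h4 <;>
      simp [S, mem_I, h3, h4] <;> constructor <;> linarith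
  · rintro ⟨⟨⟨b, k⟩, m⟩, h, rfl⟩
    refine ⟨mem_range_self _, ?_⟩
    cases b <;> simp [S, mem_I] at h <;> simp [pt, off, h.2.1, h.2.2] <;> constructor <;>
      linarith [h.1.1, h.1.2]

lemma box_card (z : ℝ × ℝ) {R : ℝ} (hR : 1 ≤ R) :
    2 * (R - 1) ^ 2 ≤ ((range pt ∩ (Ico z.1 (z.1 + R) ×ˢ Ico z.2 (z.2 + R))).ncard : ℝ) ∧
    ((range pt ∩ (Ico z.1 (z.1 + R) ×ˢ Ico z.2 (z.2 + R))).ncard : ℝ) ≤ 2 * (R + 1) ^ 2 := by
  rw [box_eq, ncard_image_of_injective _ pt_inj, ncard_coe_finset, S, Finset.card_product,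
    Finset.card_union_of_disjoint (by simp [Finset.disjoint_left]), Finset.card_product,
    Finset.card_product]
  obtain ⟨a1, a2⟩ := card_I z.1 (R := R) (by linarith)
  obtain ⟨b1, b2⟩ := card_I (z.1 - 1 / 4) (R := R) (by linarith)
  obtain ⟨c1, c2⟩ := card_I z.2 (R := R) (by linarith)
  simp only [Finset.card_singleton, one_mul]
  push_cast
  constructor
  · have := mul_le_mul (add_le_add a1 b1) c1 (by linarith) (by positivity)
    linarith
  · have := mul_le_mul (add_le_add a2 b2) c2 (by positivity) (by positivity)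
    linarith

lemma dens : Tendsto (fun R : ℝ => ⨅ z : ℝ × ℝ,
    ((range pt ∩ (Ico z.1 (z.1 + R) ×ˢ Ico z.2 (z.2 + R))).ncard : ℝ) / R ^ 2) atTop (𝓝 2) := by
  have h : ∀ s : ℝ, Tendsto (fun R : ℝ => 2 * (1 + s * R⁻¹) ^ 2) atTop (𝓝 2) := fun s => by
    simpa using (((tendsto_inv_atTop_zero.const_mul s).const_add 1).pow 2).const_mul 2
  refine tendsto_of_tendsto_of_tendsto_of_le_of_le' (h (-1)) (h 1) ?_ ?_
  · filter_upwards [eventually_ge_atTop 1] with R hR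
    refine le_ciInf fun z => ?_
    rw [le_div_iff₀ (by positivity)]
    refine le_trans (le_of_eq ?_) (box_card z hR).1
    field_simp; ring
  · filter_upwards [eventually_ge_atTop 1] with R hR
    refine (ciInf_le ⟨0, by rintro _ ⟨z, rfl⟩; positivity⟩ (0, 0)).trans ?_
    rw [div_le_iff₀ (by positivity)]
    refine (box_card _ hR).2.trans (le_of_eq ?_)
    field_simp

lemma frame {g : ℝ → ℝ} (hg : Continuous g) (hb : ∀ t, |g t| ≤ 1)
    (h0 : ∀ t, 1 / 2 ≤ |t| → g t = 0) (h1 : ∀ t, 1 / 8 ≤ |t| → |t| ≤ 3 / 8 → 1 / 64 ≤ g t ^ 2)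
    {f : ℝ → ℂ} (hf : MemLp f 2 volume) {c : (Bool × ℤ) × ℤ → ℝ} (hc0 : ∀ q, 0 ≤ c q)
    (hc : ∀ x : Bool × ℤ, HasSum (fun m => c (x, m))
      (∫ t in (off x.1 + x.2 - 1 / 2)..(off x.1 + x.2 - 1 / 2 + 1),
        ‖f t‖ ^ 2 * g (t - (off x.1 + x.2)) ^ 2)) :
    Summable c ∧ 1 / 64 * (∫ t, ‖f t‖ ^ 2) ≤ ∑' q, c q ∧ ∑' q, c q ≤ 2 * ∫ t, ‖f t‖ ^ 2 := by
  have hi : Integrable fun t => ‖f t‖ ^ 2 := (memLp_two_iff_integrable_sq_norm hf.1).1 hf
  have hg1 : ∀ t, g t ^ 2 ≤ 1 := fun t => by rw [← sq_abs]; nlinarith [hb t, abs_nonneg (g t)]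
  have hiw : ∀ x : ℝ, Integrable fun t => ‖f t‖ ^ 2 * g (t - x) ^ 2 := fun x =>
    hi.mul_bdd (c := 1) (Continuous.aestronglyMeasurable (by fun_prop))
      (Eventually.of_forall fun t => by rw [Real.norm_of_nonneg (sq_nonneg _)]; exact hg1 _)
  set a : Bool × ℤ → ℝ := fun x => ∫ t in (off x.1 + x.2 - 1 / 2)..(off x.1 + x.2 - 1 / 2 + 1),
        ‖f t‖ ^ 2 * g (t - (off x.1 + x.2)) ^ 2 with ha
  have ha0 : ∀ x, 0 ≤ a x := fun x =>
    intervalIntegral.integral_nonneg (by linarith) fun t _ => by positivity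
  have ha1 : ∀ b (k : ℤ), a (b, k) ≤ ∫ t in (off b - 1 / 2 + k)..(off b - 1 / 2 + k + 1),
      ‖f t‖ ^ 2 := fun b k => by
    simp only [ha]
    rw [show off b + k - 1 / 2 = off b - 1 / 2 + k by ring]
    exact intervalIntegral.integral_mono_on (by linarith) (hiw _).intervalIntegrable
      hi.intervalIntegrable fun t _ => mul_le_of_le_one_right (by positivity) (hg1 _)
  have hs : ∀ b, Summable fun k : ℤ => a (b, k) := fun b =>
    Summable.of_nonneg_of_le (fun k => ha0 _) (ha1 b) (hi.hasSum_intervalIntegral _).summable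
  have hs1 : ∀ b, ∑' k : ℤ, a (b, k) ≤ ∫ t, ‖f t‖ ^ 2 := fun b =>
    hasSum_le (ha1 b) (hs b).hasSum (hi.hasSum_intervalIntegral _)
  have hsa : Summable a := (summable_prod_of_nonneg ha0).2 ⟨hs, (hasSum_fintype _).summable⟩
  have hsc : Summable c := (summable_prod_of_nonneg hc0).2 ⟨fun x => (hc x).summable, by
    simpa only [fun x => (hc x).tsum_eq] using hsa⟩
  have e1 : ∑' q, c q = ∑' k : ℤ, a (true, k) + ∑' k : ℤ, a (false, k) := by
    rw [hsc.tsum_prod]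
    simp only [fun x => (hc x).tsum_eq]
    rw [hsa.tsum_prod, tsum_fintype, Fintype.sum_bool]
  refine ⟨hsc, ?_, by rw [e1]; linarith [hs1 true, hs1 false]⟩
  rw [e1]
  refine hasSum_le (fun k => ?_) ((hi.hasSum_intervalIntegral (-3 / 8)).mul_left (1 / 64))
    ((hs true).hasSum.add (hs false).hasSum)
  have e2 : ∀ x, a x = ∫ t, ‖f t‖ ^ 2 * g (t - (off x.1 + x.2)) ^ 2 := fun x => by
    refine intervalIntegral.integral_eq_integral_of_support_subset fun t ht => ?_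
    have : ¬ 1 / 2 ≤ |t - (off x.1 + x.2)| := fun h => ht (by simp [h0 _ h])
    rw [not_le, abs_lt] at this
    constructor <;> linarith [this.1, this.2]
  rw [e2, e2, ← integral_add (hiw _) (hiw _), ← intervalIntegral.integral_const_mul,
    intervalIntegral.integral_of_le (by linarith)]
  refine le_trans (setIntegral_mono_on (hi.const_mul _).integrableOn
    ((hiw _).add (hiw _)).integrableOn measurableSet_Ioc fun t ht => ?_)
    (setIntegral_le_integral ((hiw _).add (hiw _)) (Eventually.of_forall fun t => by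
      simp only [Pi.add_apply, Pi.zero_apply]; positivity))
  simp only [off, if_true, Bool.false_eq_true, if_false, Pi.add_apply]
  have : 1 / 64 ≤ g (t - (1 / 4 + k)) ^ 2 + g (t - (0 + k)) ^ 2 := by
    obtain ⟨t1, t2⟩ := ht
    by_cases c1 : 1 / 8 ≤ |t - (0 + k)| ∧ |t - (0 + k)| ≤ 3 / 8
    · linarith [h1 _ c1.1 c1.2, sq_nonneg (g (t - (1 / 4 + k)))]
    · have c2 : 1 / 8 ≤ |t - (1 / 4 + k)| ∧ |t - (1 / 4 + k)| ≤ 3 / 8 := by
        rw [not_and_or, not_le, not_le] at c1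
        rcases abs_cases (t - (0 + k)) with h | h <;>
          rcases abs_cases (t - (1 / 4 + k)) with h' | h' <;>
          rcases c1 with c1 | c1 <;> constructor <;> linarith [h.1, h.2, h'.1, h'.2]
      linarith [h1 _ c2.1 c2.2, sq_nonneg (g (t - (0 + k)))]
  nlinarith [sq_nonneg ‖f t‖]

end H28Gab
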