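import Mathlib

namespace Pool.Agent.H28HammingTwo

open scoped BigOperators

def Agree {C X V : Type} (f : V → C → X) (c : C) (u v : V) : Prop :=
  ∀ c', c' ≠ c → f u c' = f v c'

def Good (k : ℕ) : Prop :=
  ∃ (C X V : Type) (_ : Fintype C) (_ : Fintype V) (f : V → C → X),
    Function.Injective f ∧
    (∀ c u v w, Agree f c u v → Agree f c u w → u = v ∨ u = w ∨ v = w) ∧
    ∀ χ : V → Fin k, ∃ u v, u ≠ v ∧ (∃ c, Agree f c u v) ∧ χ u = χ v

lemma select {Φ L Ω : Type} [Fintype Φ] [Fintype L] [Fintype Ω] (M : Ω → Φ → L → Prop)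
    (hM : ∀ ω φ, ∃ l, M ω φ l)
    (hc : Fintype.card Ω * (Fintype.card L - 1) ^ Fintype.card Φ < Fintype.card L ^ Fintype.card Φ) :
    ∃ σ : Φ → L, ∀ ω, ∃ φ, M ω φ (σ φ) := by
  classical
  by_contra h
  push Not at h
  have h1 : (Finset.univ : Finset (Φ → L)) ⊆ Finset.univ.biUnion
      (fun ω : Ω => Fintype.piFinset (fun φ => Finset.univ.filter (fun l => ¬ M ω φ l))) := by
    intro σ _
    obtain ⟨ω, hω⟩ := h σ
    simp only [Finset.mem_biUnion, Finset.mem_univ, true_and, Fintype.mem_piFinset,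
      Finset.mem_filter]
    exact ⟨ω, hω⟩
  have h2 := (Finset.card_le_card h1).trans Finset.card_biUnion_le
  have h3 : ∀ ω : Ω, (Fintype.piFinset
      (fun φ => Finset.univ.filter (fun l => ¬ M ω φ l))).card
      ≤ (Fintype.card L - 1) ^ Fintype.card Φ := by
    intro ω
    rw [Fintype.card_piFinset]
    refine (Finset.prod_le_pow_card _ _ (Fintype.card L - 1) ?_).trans (by simp)
    intro φ _
    obtain ⟨l, hl⟩ := hM ω φ
    have : (Finset.univ.filter (fun l => ¬ M ω φ l)).card < (Finset.univ : Finset L).card := by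
      apply Finset.card_lt_card
      refine ⟨Finset.filter_subset _ _, fun hs => ?_⟩
      have := hs (Finset.mem_univ l)
      simp [hl] at this
    rw [Finset.card_univ] at this
    omega
  have h4 := h2.trans (Finset.sum_le_sum fun ω _ => h3 ω)
  simp only [Finset.card_univ, Fintype.card_fun, Finset.sum_const, smul_eq_mul] at h4
  omega

lemma numeric (K l : ℕ) (hl : 1 ≤ l) : ∃ r : ℕ, K * (l - 1) ^ (r + 1) < l ^ (r + 1) := by
  obtain ⟨m, rfl⟩ : ∃ m, l = m + 1 := ⟨l - 1, by omega⟩
  have key : ∀ n, (m + n) * m ^ n ≤ m * (m + 1) ^ n := by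
    intro n
    induction n with
    | zero => simp
    | succ n ih =>
      calc (m + (n + 1)) * m ^ (n + 1) = ((m + n + 1) * m) * m ^ n := by ring
        _ ≤ ((m + 1) * (m + n)) * m ^ n := Nat.mul_le_mul_right _ (by nlinarith)
        _ = (m + 1) * ((m + n) * m ^ n) := by ring
        _ ≤ (m + 1) * (m * (m + 1) ^ n) := Nat.mul_le_mul_left _ ih
        _ = m * (m + 1) ^ (n + 1) := by ring
  refine ⟨K * m, ?_⟩
  rw [Nat.add_sub_cancel]
  rcases Nat.eq_zero_or_pos m with h | h
  · subst h
    simp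
  · have h1 := key (K * m + 1)
    have h2 : 0 < m ^ (K * m + 1) := by positivity
    have h3 : m * (K * m ^ (K * m + 1)) < m * (m + 1) ^ (K * m + 1) := by
      calc m * (K * m ^ (K * m + 1)) = (K * m) * m ^ (K * m + 1) := by ring
        _ < (m + (K * m + 1)) * m ^ (K * m + 1) := Nat.mul_lt_mul_of_pos_right (by omega) h2
        _ ≤ _ := h1
    exact Nat.lt_of_mul_lt_mul_left h3

lemma good_zero : Good 0 :=
  ⟨Unit, Unit, Unit, inferInstance, inferInstance, fun _ _ => (), fun _ _ _ => rfl,
    fun _ _ _ _ _ _ => Or.inl rfl, fun χ => (χ ()).elim0⟩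

lemma good_succ (k : ℕ) (hk : Good k) : Good (k + 1) := by
  classical
  obtain ⟨C, X, V, _, _, f, hinj, htwo, hcol⟩ := hk
  obtain ⟨ι, _, hι⟩ := Combinatorics.Line.exists_mono_in_high_dimension V (Fin (k + 1))
  let A := (ι → V) → ZMod 2
  let h : (ι → V) → A := fun w => Pi.single w 1
  have hh : Function.Injective h := by
    intro w w' e
    by_contra hne
    have := congrFun e w
    simp [h, hne] at this
  letI : Fintype (Combinatorics.Line V ι) := Fintype.ofInjective (fun l => l.idxFun) (by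
    rintro ⟨a, _⟩ ⟨b, _⟩ e
    simp only at e
    subst e
    rfl)
  have hL : 1 ≤ Fintype.card (Combinatorics.Line V ι) := by
    obtain ⟨l, _⟩ := hι (fun _ => 0)
    exact Fintype.card_pos_iff.mpr ⟨l⟩
  obtain ⟨r, hr⟩ := numeric ((k + 1) ^ Fintype.card (ι → V)) _ hL
  let S := {p : (ι → V) × (Fin (r + 1) → A) // ∑ c, p.2 c = h p.1}
  let Φ := Fin (r + 1) × (Fin r → A)
  let pt : Φ → (ι → V) → S := fun φ w =>
    ⟨(w, Fin.insertNth (α := fun _ => A) φ.1 (h w - ∑ i, φ.2 i) φ.2), by
      rw [Fin.sum_univ_succAbove _ φ.1]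
      simp⟩
  have hSeq : ∀ (c : Fin (r + 1)) (p q : S), p.1.1 = q.1.1 →
      (∀ c', c' ≠ c → p.1.2 c' = q.1.2 c') → p = q := by
    rintro c ⟨⟨w, y⟩, hp⟩ ⟨⟨w', y'⟩, hq⟩ e1 e2
    simp only at e1 e2 hp hq
    subst e1
    have e3 : y c = y' c := by
      rw [← hq, Fin.sum_univ_succAbove _ c, Fin.sum_univ_succAbove _ c] at hp
      have : ∑ i, y (c.succAbove i) = ∑ i, y' (c.succAbove i) :=
        Finset.sum_congr rfl fun i _ => e2 _ (Fin.succAbove_ne c i)
      rw [this] at hp
      exact add_right_cancel hp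
    have : y = y' := by
      funext c'
      by_cases hc : c' = c
      · rw [hc, e3]
      · exact e2 c' hc
    subst this
    rfl
  have hScard : Fintype.card S ≤ Fintype.card (ι → V) * Fintype.card A ^ r := by
    have := Fintype.card_le_of_injective
      (fun p : S => ((p.1.1, fun i => p.1.2 (Fin.succ i)) : (ι → V) × (Fin r → A))) (by
        intro p q e
        simp only [Prod.mk.injEq] at e
        apply hSeq 0 p q e.1
        intro c' hc'
        obtain ⟨i, rfl⟩ := Fin.exists_succ_eq.mpr hc'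
        exact congrFun e.2 i)
    rwa [Fintype.card_prod, Fintype.card_fun (α := Fin r), Fintype.card_fin] at this
  have hΦcard : Fintype.card Φ = (r + 1) * Fintype.card A ^ r := by
    simp only [Φ]
    rw [Fintype.card_prod, Fintype.card_fun (α := Fin r), Fintype.card_fin, Fintype.card_fin]
  obtain ⟨σ, hσ⟩ := select (Φ := Φ) (L := Combinatorics.Line V ι) (Ω := S → Fin (k + 1))
    (fun ω φ l => l.IsMono (fun w => ω (pt φ w))) (fun ω φ => hι _) (by
      have hM : 0 < Fintype.card A ^ r := pow_pos Fintype.card_pos _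
      rw [hΦcard, Fintype.card_fun, Fintype.card_fin, pow_mul, pow_mul]
      calc _ ≤ ((k + 1) ^ Fintype.card (ι → V)) ^ (Fintype.card A ^ r) *
            ((Fintype.card (Combinatorics.Line V ι) - 1) ^ (r + 1)) ^ (Fintype.card A ^ r) := by
            apply Nat.mul_le_mul_right
            rw [← pow_mul]
            exact Nat.pow_le_pow_right (by omega) hScard
        _ < _ := by
            rw [← mul_pow]
            exact Nat.pow_lt_pow_left hr hM.ne')
  have hline : ∀ (l : Combinatorics.Line V ι), ∃ j, ∀ v, l v j = v := by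
    intro l
    obtain ⟨j, hj⟩ := l.proper
    exact ⟨j, fun v => l.apply_none v j hj⟩
  let om : S ⊕ (Φ × V) → (ι → V) := Sum.elim (fun s => s.1.1) (fun q => σ q.1 q.2)
  let et : S ⊕ (Φ × V) → Fin (r + 1) → A ⊕ Φ := Sum.elim (fun s c => Sum.inl (s.1.2 c))
    (fun q c => if c = q.1.1 then Sum.inr q.1
      else Sum.inl (Fin.insertNth (α := fun _ => A) q.1.1 0 q.1.2 c))
  let g : S ⊕ (Φ × V) → C ⊕ Fin (r + 1) → (ι → X) ⊕ (A ⊕ Φ) := fun p =>
    Sum.elim (fun c => Sum.inl (fun j => f (om p j) c)) (fun c => Sum.inr (et p c))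
  have F1 : ∀ p q, (∀ c, g p (Sum.inl c) = g q (Sum.inl c)) → om p = om q := by
    intro p q e
    funext j
    apply hinj
    funext c
    exact congrFun (Sum.inl.inj (e c)) j
  have G0 : ∀ (φ : Φ) (v : V) q, et (Sum.inr (φ, v)) φ.1 = et q φ.1 →
      ∃ v', q = Sum.inr (φ, v') := by
    intro φ v q e
    rcases q with s | ⟨φ', v'⟩
    · simp [et] at e
    · simp only [et, Sum.elim_inr, if_true] at e
      split_ifs at e
      · exact ⟨v', by rw [Sum.inr.inj e]⟩
  have G1 : ∀ p q, et p = et q → p = q ∨ ∃ φ v v', p = Sum.inr (φ, v) ∧ q = Sum.inr (φ, v') := by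
    intro p q e
    rcases p with s | ⟨φ, v⟩
    · rcases q with s' | ⟨φ', v'⟩
      · left
        have e1 : s.1.2 = s'.1.2 := by
          funext c
          exact Sum.inl.inj (congrFun e c)
        have e2 : s.1.1 = s'.1.1 := by
          apply hh
          rw [← s.2, ← s'.2, e1]
        rw [hSeq 0 s s' e2 (fun c _ => congrFun e1 c)]
      · obtain ⟨v'', hv⟩ := G0 φ' v' (Sum.inl s) (congrFun e.symm _)
        cases hv
    · right
      obtain ⟨v', hv⟩ := G0 φ v q (congrFun e _)
      exact ⟨φ, v, v', rfl, hv⟩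
  have G3 : ∀ φ v v', om (Sum.inr (φ, v)) = om (Sum.inr (φ, v')) → v = v' := by
    intro φ v v' e
    obtain ⟨j, hj⟩ := hline (σ φ)
    have := congrFun e j
    simp only [om, Sum.elim_inr] at this
    rwa [hj, hj] at this
  have G2 : ∀ c p q, p.isLeft = q.isLeft → om p = om q → (∀ c', c' ≠ c → et p c' = et q c') →
      p = q := by
    intro c p q e0 e1 e2
    rcases p with s | ⟨φ, v⟩ <;> rcases q with s' | ⟨φ', v'⟩
    · rw [hSeq c s s' e1 (fun c' hc' => Sum.inl.inj (e2 c' hc'))]
    · simp at e0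
    · simp at e0
    · have hφ : φ = φ' := by
        by_cases h1 : φ.1 = c
        · by_cases h2 : φ'.1 = c
          · obtain ⟨a, z⟩ := φ
            obtain ⟨a', z'⟩ := φ'
            simp only at h1 h2
            subst h1
            subst h2
            congr 1
            funext i
            have := e2 (a'.succAbove i) (Fin.succAbove_ne a' i)
            simpa [et, Fin.succAbove_ne a' i] using this
          · obtain ⟨v'', hv⟩ := G0 φ' v' (Sum.inr (φ, v)) (e2 _ h2).symm
            exact (Prod.mk.inj (Sum.inr.inj hv)).1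
        · obtain ⟨v'', hv⟩ := G0 φ v (Sum.inr (φ', v')) (e2 _ h1)
          exact (Prod.mk.inj (Sum.inr.inj hv)).1.symm
      subst hφ
      rw [G3 φ v v' e1]
  refine ⟨C ⊕ Fin (r + 1), (ι → X) ⊕ (A ⊕ Φ), S ⊕ (Φ × V), inferInstance, inferInstance, g,
    ?_, ?_, ?_⟩
  · intro p q e
    have e1 := F1 p q (fun c => congrFun e _)
    have e2 : et p = et q := funext fun c => Sum.inr.inj (congrFun e (Sum.inr c))
    rcases G1 p q e2 with h1 | ⟨φ, v, v', rfl, rfl⟩
    · exact h1
    · rw [G3 φ v v' e1]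
  · rintro (c | c) p q t h1 h2
    · have e1 : et p = et q := funext fun c' => Sum.inr.inj (h1 (Sum.inr c') (by simp))
      have e2 : et p = et t := funext fun c' => Sum.inr.inj (h2 (Sum.inr c') (by simp))
      rcases G1 p q e1 with h3 | ⟨φ, v, v', rfl, rfl⟩
      · exact Or.inl h3
      rcases G1 _ t e2 with h3 | ⟨φ', v0, v'', h4, rfl⟩
      · exact Or.inr (Or.inl h3)
      have h5 : φ = φ' := (Prod.mk.inj (Sum.inr.inj h4)).1
      subst h5
      obtain ⟨j, hj⟩ := hline (σ φ)
      have a1 : Agree f c v v' := by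
        intro c' hc'
        have := congrFun (Sum.inl.inj (h1 (Sum.inl c') (by simpa using hc'))) j
        simp only [om, Sum.elim_inr] at this
        rwa [hj, hj] at this
      have a2 : Agree f c v v'' := by
        intro c' hc'
        have := congrFun (Sum.inl.inj (h2 (Sum.inl c') (by simpa using hc'))) j
        simp only [om, Sum.elim_inr] at this
        rwa [hj, hj] at this
      rcases htwo c v v' v'' a1 a2 with h | h | h
      · exact Or.inl (by rw [h])
      · exact Or.inr (Or.inl (by rw [h]))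
      · exact Or.inr (Or.inr (by rw [h]))
    · have o1 := F1 p q (fun c' => h1 (Sum.inl c') (by simp))
      have o2 := F1 p t (fun c' => h2 (Sum.inl c') (by simp))
      have e1 : ∀ c', c' ≠ c → et p c' = et q c' := fun c' hc' =>
        Sum.inr.inj (h1 (Sum.inr c') (by simpa using hc'))
      have e2 : ∀ c', c' ≠ c → et p c' = et t c' := fun c' hc' =>
        Sum.inr.inj (h2 (Sum.inr c') (by simpa using hc'))
      by_cases b1 : p.isLeft = q.isLeft
      · exact Or.inl (G2 c p q b1 o1 e1)
      by_cases b2 : p.isLeft = t.isLeft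
      · exact Or.inr (Or.inl (G2 c p t b2 o2 e2))
      have b3 : q.isLeft = t.isLeft := by
        have hb : ∀ a b c : Bool, ¬ a = b → ¬ a = c → b = c := by decide
        exact hb _ _ _ b1 b2
      exact Or.inr (Or.inr (G2 c q t b3 (o1.symm.trans o2)
        (fun c' hc' => (e1 c' hc').symm.trans (e2 c' hc'))))
  · intro χ
    obtain ⟨φ, γ, hγ⟩ := hσ (fun s => χ (Sum.inl s))
    by_cases hex : ∃ v, χ (Sum.inr (φ, v)) = γ
    · obtain ⟨v, hv⟩ := hex
      refine ⟨Sum.inl (pt φ (σ φ v)), Sum.inr (φ, v), by simp, ⟨Sum.inr φ.1, ?_⟩,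
        (hγ v).trans hv.symm⟩
      rintro (c | c) hc
      · rfl
      · have hc' : c ≠ φ.1 := by simpa using hc
        obtain ⟨i, rfl⟩ := Fin.exists_succAbove_eq hc'
        simp [g, et, pt, Fin.succAbove_ne φ.1 i]
    · push Not at hex
      choose χ' hχ' using fun v => Fin.exists_succAbove_eq (hex v)
      obtain ⟨u, v, huv, ⟨c, hc⟩, he⟩ := hcol χ'
      refine ⟨Sum.inr (φ, u), Sum.inr (φ, v), by simpa using huv, ⟨Sum.inl c, ?_⟩,
        by rw [← hχ' u, ← hχ' v, he]⟩
      rintro (c' | c') hc'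
      · have hc'' : c' ≠ c := by simpa using hc'
        simp only [g, om, Sum.elim_inl, Sum.elim_inr]
        congr 1
        funext j
        rw [Combinatorics.Line.coe_apply, Combinatorics.Line.coe_apply]
        cases (σ φ).idxFun j with
        | none => exact hc c' hc''
        | some a => rfl
      · rfl

theorem good_all (k : ℕ) : Good k := by
  induction k with
  | zero => exact good_zero
  | succ k ih => exact good_succ k ih

end Pool.Agent.H28HammingTwo
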