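import Mathlib
import Pool.Agent.Lib.helper28.HammingTwo

namespace Pool.Agent.H28GenPos

open scoped BigOperators
open Pool.Agent.H28HammingTwo

def col (p q r : ℝ × ℝ) : ℝ := (q.1 - p.1) * (r.2 - p.2) - (q.2 - p.2) * (r.1 - p.1)

def nsq (p q : ℝ × ℝ) : ℝ := (q.1 - p.1) ^ 2 + (q.2 - p.2) ^ 2

def cyc (p q r s : ℝ × ℝ) : ℝ :=
  nsq p q * col p r s - nsq p r * col p q s + nsq p s * col p q r

def GP (A : Set (ℝ × ℝ)) : Prop :=
  (∀ p ∈ A, ∀ q ∈ A, ∀ r ∈ A, p ≠ q → p ≠ r → q ≠ r → col p q r ≠ 0) ∧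
  (∀ p ∈ A, ∀ q ∈ A, ∀ r ∈ A, ∀ s ∈ A, p ≠ q → p ≠ r → p ≠ s → q ≠ r → q ≠ s → r ≠ s →
    cyc p q r s ≠ 0)

def NC (k : ℕ) (A : Set (ℝ × ℝ)) : Prop :=
  ∀ χ : ℝ × ℝ → Fin k, ∃ p ∈ A, ∃ q ∈ A, p ≠ q ∧ (∃ n : ℤ, nsq p q = (n : ℝ) ^ 2) ∧ χ p = χ q

section poly
variable {σ : Type}

def IsPoly (g : (σ → ℝ) → ℝ) : Prop := ∃ P : MvPolynomial σ ℝ, ∀ a, MvPolynomial.eval a P = g a

lemma IsPoly.const (c : ℝ) : IsPoly (fun _ : σ → ℝ => c) := ⟨MvPolynomial.C c, by simp⟩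

lemma IsPoly.var (i : σ) : IsPoly (fun a : σ → ℝ => a i) := ⟨MvPolynomial.X i, by simp⟩

lemma IsPoly.add {g h : (σ → ℝ) → ℝ} (hg : IsPoly g) (hh : IsPoly h) :
    IsPoly (fun a => g a + h a) := by
  obtain ⟨P, hP⟩ := hg
  obtain ⟨Q, hQ⟩ := hh
  exact ⟨P + Q, by simp [hP, hQ]⟩

lemma IsPoly.sub {g h : (σ → ℝ) → ℝ} (hg : IsPoly g) (hh : IsPoly h) :
    IsPoly (fun a => g a - h a) := by
  obtain ⟨P, hP⟩ := hg
  obtain ⟨Q, hQ⟩ := hh
  exact ⟨P - Q, by simp [hP, hQ]⟩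

lemma IsPoly.mul {g h : (σ → ℝ) → ℝ} (hg : IsPoly g) (hh : IsPoly h) :
    IsPoly (fun a => g a * h a) := by
  obtain ⟨P, hP⟩ := hg
  obtain ⟨Q, hQ⟩ := hh
  exact ⟨P * Q, by simp [hP, hQ]⟩

lemma IsPoly.sq {g : (σ → ℝ) → ℝ} (hg : IsPoly g) : IsPoly (fun a => g a ^ 2) := by
  obtain ⟨P, hP⟩ := hg
  exact ⟨P ^ 2, by simp [hP]⟩

lemma IsPoly.sum {J : Type} [Fintype J] {g : J → (σ → ℝ) → ℝ} (hg : ∀ j, IsPoly (g j)) :
    IsPoly (fun a => ∑ j, g j a) := by
  choose P hP using hg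
  exact ⟨∑ j, P j, by simp [hP]⟩

def IsPoly2 (F : (σ → ℝ) → ℝ × ℝ) : Prop := IsPoly (fun a => (F a).1) ∧ IsPoly (fun a => (F a).2)

lemma poly_col {P Q R : (σ → ℝ) → ℝ × ℝ} (hP : IsPoly2 P) (hQ : IsPoly2 Q) (hR : IsPoly2 R) :
    IsPoly (fun a => col (P a) (Q a) (R a)) :=
  ((hQ.1.sub hP.1).mul (hR.2.sub hP.2)).sub ((hQ.2.sub hP.2).mul (hR.1.sub hP.1))

lemma poly_nsq {P Q : (σ → ℝ) → ℝ × ℝ} (hP : IsPoly2 P) (hQ : IsPoly2 Q) :
    IsPoly (fun a => nsq (P a) (Q a)) :=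
  (hQ.1.sub hP.1).sq.add (hQ.2.sub hP.2).sq

lemma poly_cyc {P Q R S : (σ → ℝ) → ℝ × ℝ} (hP : IsPoly2 P) (hQ : IsPoly2 Q) (hR : IsPoly2 R)
    (hS : IsPoly2 S) : IsPoly (fun a => cyc (P a) (Q a) (R a) (S a)) :=
  (((poly_nsq hP hQ).mul (poly_col hP hR hS)).sub ((poly_nsq hP hR).mul (poly_col hP hQ hS))).add
    ((poly_nsq hP hS).mul (poly_col hP hQ hR))

def Gen (Q : (σ → ℝ) → Prop) : Prop :=
  ∃ P : MvPolynomial σ ℝ, P ≠ 0 ∧ ∀ a, MvPolynomial.eval a P ≠ 0 → Q a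

lemma Gen.of_poly {g : (σ → ℝ) → ℝ} (hg : IsPoly g) (hn : ∃ a, g a ≠ 0) :
    Gen (fun a => g a ≠ 0) := by
  obtain ⟨P, hP⟩ := hg
  obtain ⟨a, ha⟩ := hn
  refine ⟨P, fun h => ha ?_, fun b hb => by rwa [hP] at hb⟩
  rw [← hP, h, map_zero]

lemma Gen.and {Q R : (σ → ℝ) → Prop} (hQ : Gen Q) (hR : Gen R) : Gen (fun a => Q a ∧ R a) := by
  obtain ⟨P, hP, h1⟩ := hQ
  obtain ⟨P', hP', h2⟩ := hR
  refine ⟨P * P', mul_ne_zero hP hP', fun a ha => ?_⟩
  rw [map_mul] at ha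
  exact ⟨h1 a (left_ne_zero_of_mul ha), h2 a (right_ne_zero_of_mul ha)⟩

lemma Gen.all {J : Type} [Finite J] {Q : J → (σ → ℝ) → Prop} (hQ : ∀ j, Gen (Q j)) :
    Gen (fun a => ∀ j, Q j a) := by
  classical
  have := Fintype.ofFinite J
  choose P hP h using hQ
  refine ⟨∏ j, P j, Finset.prod_ne_zero_iff.mpr fun j _ => hP j, fun a ha j => h j a ?_⟩
  rw [map_prod] at ha
  exact Finset.prod_ne_zero_iff.mp ha j (Finset.mem_univ j)

lemma Gen.imp {H : Prop} {Q : (σ → ℝ) → Prop} (hQ : H → Gen Q) : Gen (fun a => H → Q a) := by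
  by_cases h : H
  · obtain ⟨P, hP, h1⟩ := hQ h
    exact ⟨P, hP, fun a ha _ => h1 a ha⟩
  · exact ⟨1, one_ne_zero, fun a _ h' => absurd h' h⟩

lemma Gen.exists_int {Q : (σ → ℝ) → Prop} (hQ : Gen Q) : ∃ a : σ → ℤ, Q (fun i => (a i : ℝ)) := by
  obtain ⟨P, hP, h⟩ := hQ
  by_contra hne
  push Not at hne
  apply hP
  apply MvPolynomial.funext_set (fun _ => Set.range (Int.cast : ℤ → ℝ))
    (fun _ => Set.infinite_range_of_injective Int.cast_injective)
  intro x hx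
  choose a ha using fun i => hx i (Set.mem_univ i)
  have : x = fun i => (a i : ℝ) := funext fun i => (ha i).symm
  rw [map_zero, this]
  by_contra h1
  exact hne a (h _ h1)

end poly

section nz
variable {T : Type}

def NZ3 (P Q R : T → ℝ × ℝ) : Prop := ∃ a, col (P a) (Q a) (R a) ≠ 0

def NZ4 (P Q R S : T → ℝ × ℝ) : Prop := ∃ a, cyc (P a) (Q a) (R a) (S a) ≠ 0

lemma NZ3.s1 {P Q R : T → ℝ × ℝ} (h : NZ3 P Q R) : NZ3 Q P R := by
  obtain ⟨a, ha⟩ := h
  refine ⟨a, fun h0 => ha ?_⟩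
  simp only [col] at h0 ⊢
  linear_combination -h0

lemma NZ3.s2 {P Q R : T → ℝ × ℝ} (h : NZ3 P Q R) : NZ3 P R Q := by
  obtain ⟨a, ha⟩ := h
  refine ⟨a, fun h0 => ha ?_⟩
  simp only [col] at h0 ⊢
  linear_combination -h0

lemma NZ4.s1 {P Q R S : T → ℝ × ℝ} (h : NZ4 P Q R S) : NZ4 Q P R S := by
  obtain ⟨a, ha⟩ := h
  refine ⟨a, fun h0 => ha ?_⟩
  simp only [cyc, col, nsq] at h0 ⊢
  linear_combination -h0

lemma NZ4.s2 {P Q R S : T → ℝ × ℝ} (h : NZ4 P Q R S) : NZ4 P R Q S := by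
  obtain ⟨a, ha⟩ := h
  refine ⟨a, fun h0 => ha ?_⟩
  simp only [cyc, col, nsq] at h0 ⊢
  linear_combination -h0

lemma NZ4.s3 {P Q R S : T → ℝ × ℝ} (h : NZ4 P Q R S) : NZ4 P Q S R := by
  obtain ⟨a, ha⟩ := h
  refine ⟨a, fun h0 => ha ?_⟩
  simp only [cyc, col, nsq] at h0 ⊢
  linear_combination -h0

end nz

lemma cyc_shift (p q r t u : ℝ × ℝ) (hc : col p q r ≠ 0) (hu : u.1 ^ 2 + u.2 ^ 2 ≠ 0) :
    ∃ s : ℝ, cyc p q r (t + s • u) ≠ 0 := by
  by_contra h
  push Not at h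
  have h0 := h 0
  have h1 := h 1
  have h2 := h (-1)
  apply mul_ne_zero hu hc
  simp only [cyc, col, nsq, Prod.fst_add, Prod.snd_add, Prod.smul_fst, Prod.smul_snd,
    smul_eq_mul] at h0 h1 h2 ⊢
  linear_combination (1 / 2) * h1 + (1 / 2) * h2 - h0

section block
variable {C X V : Type} [Fintype C] [DecidableEq C] [DecidableEq X]

def pos (u : C → ℝ × ℝ) (f : V → C → X) (v : V) (a : C × X → ℝ) : ℝ × ℝ :=
  ∑ c, a (c, f v c) • u c

omit [DecidableEq C] [DecidableEq X] in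
lemma pos_add (u : C → ℝ × ℝ) (f : V → C → X) (v : V) (a b : C × X → ℝ) :
    pos u f v (a + b) = pos u f v a + pos u f v b := by
  simp only [pos, Pi.add_apply, add_smul, Finset.sum_add_distrib]

lemma pos_single (u : C → ℝ × ℝ) (f : V → C → X) (v : V) (c : C) (x : X) (s : ℝ) :
    pos u f v (Pi.single (c, x) s) = if f v c = x then s • u c else 0 := by
  rw [pos, Finset.sum_eq_single c]
  · by_cases h : f v c = x
    · simp [h]
    · simp [h]
  · intro b _ hb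
    simp [hb]
  · simp

omit [DecidableEq C] [DecidableEq X] in
lemma pos_poly (u : C → ℝ × ℝ) (f : V → C → X) (v : V) : IsPoly2 (pos u f v) := by
  constructor
  · simp only [pos, Prod.fst_sum, Prod.smul_fst, smul_eq_mul]
    exact IsPoly.sum fun c => (IsPoly.var _).mul (IsPoly.const _)
  · simp only [pos, Prod.snd_sum, Prod.smul_snd, smul_eq_mul]
    exact IsPoly.sum fun c => (IsPoly.var _).mul (IsPoly.const _)

variable (u : C → ℝ × ℝ) (f : V → C → X)
  (hdet : ∀ c c', c ≠ c' → (u c).1 * (u c').2 - (u c).2 * (u c').1 ≠ 0)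
  (hdot : ∀ c c', (u c).1 * (u c').1 + (u c).2 * (u c').2 ≠ 0)

include hdet in
lemma base3 {x y z : V} {c1 c2 : C} (hc : c1 ≠ c2) (a1 : f y c1 ≠ f x c1) (a2 : f z c1 ≠ f x c1)
    (b1 : f x c2 ≠ f y c2) (b2 : f z c2 ≠ f y c2) : NZ3 (pos u f x) (pos u f y) (pos u f z) := by
  refine ⟨Pi.single (c1, f x c1) 1 + Pi.single (c2, f y c2) 1, fun h0 => hdet c1 c2 hc ?_⟩
  simp only [pos_add, pos_single, a1, a2, b1, b2, if_true, if_false, one_smul, add_zero, zero_add,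
    col, Prod.fst_zero, Prod.snd_zero] at h0
  linear_combination h0

include hdet in
lemma triple (hinj : Function.Injective f)
    (htwo : ∀ c u v w, Agree f c u v → Agree f c u w → u = v ∨ u = w ∨ v = w)
    {x y z : V} (hxy : x ≠ y) (hxz : x ≠ z) (hyz : y ≠ z) :
    NZ3 (pos u f x) (pos u f y) (pos u f z) := by
  have sep : ∀ a b : V, a ≠ b → ∃ c, f a c ≠ f b c := fun a b hab =>
    Function.ne_iff.mp (hinj.ne hab)
  obtain ⟨c, hc⟩ := sep x y hxy
  by_cases h1 : f z c = f x c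
  · obtain ⟨d, hd⟩ := sep x z hxz
    have hcd : c ≠ d := fun e => hd (e ▸ h1.symm)
    by_cases h2 : f x d = f y d
    · exact (base3 u f hdet (x := y) (y := z) (z := x) hcd (h1 ▸ hc) hc (h2 ▸ hd) hd).s2.s1
    · exact (base3 u f hdet hcd hc (h1 ▸ hc) (Ne.symm h2) hd.symm).s1
  by_cases h3 : f z c = f y c
  · obtain ⟨d, hd⟩ := sep y z hyz
    have hcd : c ≠ d := fun e => hd (e ▸ h3.symm)
    by_cases h2 : f x d = f y d
    · exact (base3 u f hdet hcd h1 hc.symm (h2 ▸ hd) hd).s2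
    · exact base3 u f hdet hcd hc.symm h1 h2 hd.symm
  have : ∃ d, d ≠ c ∧ (f x d ≠ f y d ∨ f x d ≠ f z d) := by
    by_contra hno
    push Not at hno
    rcases htwo c x y z (fun d hd => (hno d hd).1) (fun d hd => (hno d hd).2) with h | h | h
    · exact hxy h
    · exact hxz h
    · exact hyz h
  obtain ⟨d, hdc, hd⟩ := this
  by_cases h4 : f x d = f y d
  · have h5 : f x d ≠ f z d := hd.resolve_left (fun h => h h4)
    exact (base3 u f hdet hdc.symm h1 hc.symm h5 (h4 ▸ h5)).s2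
  · by_cases h5 : f z d = f y d
    · exact (base3 u f hdet hdc.symm hc h3 (Ne.symm h4) (h5 ▸ Ne.symm h4)).s1
    · exact base3 u f hdet hdc.symm hc.symm h1 h4 h5

include hdot in
lemma base4a {x y z t : V} {c : C} (h3 : NZ3 (pos u f x) (pos u f y) (pos u f z))
    (a1 : f x c ≠ f t c) (a2 : f y c ≠ f t c) (a3 : f z c ≠ f t c) :
    NZ4 (pos u f x) (pos u f y) (pos u f z) (pos u f t) := by
  obtain ⟨a, ha⟩ := h3
  obtain ⟨s, hs⟩ := cyc_shift _ _ _ (pos u f t a) (u c) ha (by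
    have := hdot c c
    rwa [← sq, ← sq] at this)
  refine ⟨a + Pi.single (c, f t c) s, ?_⟩
  simpa only [pos_add, pos_single, a1, a2, a3, if_true, if_false, add_zero] using hs

include hdet hdot in
lemma base4b {x y z t : V} {c1 c2 : C} (a1 : f x c1 = f y c1) (a2 : f x c1 ≠ f z c1)
    (a3 : f t c1 = f z c1) (b1 : f x c2 = f z c2) (b2 : f x c2 ≠ f y c2) (b3 : f t c2 = f y c2) :
    NZ4 (pos u f x) (pos u f y) (pos u f z) (pos u f t) := by
  have hc : c1 ≠ c2 := fun e => b2 (e ▸ a1)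
  have a4 : f y c1 ≠ f z c1 := a1 ▸ a2
  have b4 : f z c2 ≠ f y c2 := b1 ▸ b2
  refine ⟨Pi.single (c1, f z c1) 1 + Pi.single (c2, f y c2) 1,
    fun h0 => mul_ne_zero (hdet c1 c2 hc) (hdot c1 c2) ?_⟩
  simp only [pos_add, pos_single, a2, a3, a4, b2, b3, b4, if_true, if_false, one_smul, add_zero,
    zero_add, cyc, col, nsq, Prod.fst_zero, Prod.snd_zero, Prod.fst_add, Prod.snd_add] at h0
  linear_combination (-1 / 2) * h0

include hdet hdot in
lemma quad (hinj : Function.Injective f)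
    (htwo : ∀ c u v w, Agree f c u v → Agree f c u w → u = v ∨ u = w ∨ v = w)
    {x y z t : V} (hxy : x ≠ y) (hxz : x ≠ z) (hxt : x ≠ t) (hyz : y ≠ z) (hyt : y ≠ t)
    (hzt : z ≠ t) : NZ4 (pos u f x) (pos u f y) (pos u f z) (pos u f t) := by
  have sep : ∀ a b : V, a ≠ b → ∃ c, f a c ≠ f b c := fun a b hab =>
    Function.ne_iff.mp (hinj.ne hab)
  by_contra hno
  have it : ∀ c, f x c = f t c ∨ f y c = f t c ∨ f z c = f t c := by
    intro c
    by_contra h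
    push Not at h
    exact hno (base4a u f hdot (triple u f hdet hinj htwo hxy hxz hyz) h.1 h.2.1 h.2.2)
  have iz : ∀ c, f x c = f z c ∨ f y c = f z c ∨ f t c = f z c := by
    intro c
    by_contra h
    push Not at h
    exact hno (base4a u f hdot (triple u f hdet hinj htwo hxy hxt hyt) h.1 h.2.1 h.2.2).s3
  have iy : ∀ c, f x c = f y c ∨ f z c = f y c ∨ f t c = f y c := by
    intro c
    by_contra h
    push Not at h
    exact hno (base4a u f hdot (triple u f hdet hinj htwo hxz hxt hzt) h.1 h.2.1 h.2.2).s3.s2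
  have ix : ∀ c, f y c = f x c ∨ f z c = f x c ∨ f t c = f x c := by
    intro c
    by_contra h
    push Not at h
    exact hno (base4a u f hdot (triple u f hdet hinj htwo hyz hyt hzt) h.1 h.2.1 h.2.2).s3.s2.s1
  obtain ⟨c, hc⟩ := sep x y hxy
  rcases ix c with h | h | h
  · exact hc h.symm
  · have h2 : f t c = f y c := by
      rcases iy c with e | e | e
      · exact absurd e hc
      · exact absurd (h.symm.trans e) hc
      · exact e
    obtain ⟨d, hd⟩ := sep x z hxz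
    rcases ix d with g | g | g
    · have g2 : f t d = f z d := by
        rcases iz d with e | e | e
        · exact absurd e hd
        · exact absurd (g.symm.trans e) hd
        · exact e
      exact hno (base4b u f hdet hdot g.symm hd g2 h.symm hc h2)
    · exact hd g.symm
    · have g2 : f y d = f z d := by
        rcases iz d with e | e | e
        · exact absurd e hd
        · exact e
        · exact absurd (g.symm.trans e) hd
      exact hno (base4b u f hdet hdot g.symm hd g2 h.symm (h2 ▸ hc) h2.symm).s3.s2.s3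
  · have h2 : f z c = f y c := by
      rcases iy c with e | e | e
      · exact absurd e hc
      · exact e
      · exact absurd (h.symm.trans e) hc
    obtain ⟨d, hd⟩ := sep x t hxt
    rcases ix d with g | g | g
    · have g2 : f z d = f t d := by
        rcases it d with e | e | e
        · exact absurd e hd
        · exact absurd (g.symm.trans e) hd
        · exact e
      exact hno (base4b u f hdet hdot g.symm hd g2 h.symm hc h2).s3
    · have g2 : f y d = f t d := by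
        rcases it d with e | e | e
        · exact absurd e hd
        · exact e
        · exact absurd (g.symm.trans e) hd
      exact hno (base4b u f hdet hdot g.symm hd g2 h.symm (h2 ▸ hc) h2.symm).s3.s2
    · exact hd g.symm

end block

lemma block (k : ℕ) : ∃ A : Set (ℝ × ℝ), A.Finite ∧ GP A ∧ NC k A := by
  classical
  obtain ⟨C, X, V, _, _, f, hinj, htwo, hcol⟩ := good_all k
  let n : C → ℕ := fun c => (Fintype.equivFin C c).val + 1
  have hn : Function.Injective n := by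
    intro c c' e
    exact (Fintype.equivFin C).injective (Fin.ext (Nat.succ_injective e))
  have hn1 : ∀ c, (1 : ℝ) ≤ n c := fun c => by
    exact_mod_cast Nat.succ_le_succ (Nat.zero_le _)
  let u : C → ℝ × ℝ := fun c => ((n c : ℝ) ^ 2 - 1, 2 * (n c : ℝ))
  have hdet : ∀ c c', c ≠ c' → (u c).1 * (u c').2 - (u c).2 * (u c').1 ≠ 0 := by
    intro c c' hc
    have h1 : (n c : ℝ) - n c' ≠ 0 := sub_ne_zero.mpr (by exact_mod_cast hn.ne hc)
    have h2 : (n c : ℝ) * n c' + 1 ≠ 0 := by positivity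
    have : (u c).1 * (u c').2 - (u c).2 * (u c').1
        = 2 * (((n c : ℝ) - n c') * ((n c : ℝ) * n c' + 1)) := by
      simp only [u]
      ring
    rw [this]
    exact mul_ne_zero two_ne_zero (mul_ne_zero h1 h2)
  have hdot : ∀ c c', (u c).1 * (u c').1 + (u c).2 * (u c').2 ≠ 0 := by
    intro c c'
    have h1 := hn1 c
    have h2 := hn1 c'
    have h3 : 0 ≤ ((n c : ℝ) ^ 2 - 1) * ((n c' : ℝ) ^ 2 - 1) :=
      mul_nonneg (by nlinarith) (by nlinarith)
    have h4 : 0 < (2 * (n c : ℝ)) * (2 * (n c' : ℝ)) := by positivity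
    simp only [u]
    linarith
  have g2 : Gen (fun a => ∀ x y : V, x ≠ y → nsq (pos u f x a) (pos u f y a) ≠ 0) := by
    refine Gen.all fun x => Gen.all fun y => Gen.imp fun hxy =>
      Gen.of_poly (poly_nsq (pos_poly u f x) (pos_poly u f y)) ?_
    obtain ⟨c, hc⟩ := Function.ne_iff.mp (hinj.ne hxy)
    refine ⟨Pi.single (c, f y c) 1, fun h0 => hdot c c ?_⟩
    simp only [pos_single, hc, if_true, if_false, one_smul, nsq, Prod.fst_zero, Prod.snd_zero] at h0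
    linear_combination h0
  have g3 : Gen (fun a => ∀ x y z : V, x ≠ y → x ≠ z → y ≠ z →
      col (pos u f x a) (pos u f y a) (pos u f z a) ≠ 0) :=
    Gen.all fun x => Gen.all fun y => Gen.all fun z => Gen.imp fun h1 => Gen.imp fun h2 =>
      Gen.imp fun h3 => Gen.of_poly (poly_col (pos_poly u f x) (pos_poly u f y) (pos_poly u f z))
        (triple u f hdet hinj htwo h1 h2 h3)
  have g4 : Gen (fun a => ∀ x y z t : V, x ≠ y → x ≠ z → x ≠ t → y ≠ z → y ≠ t → z ≠ t →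
      cyc (pos u f x a) (pos u f y a) (pos u f z a) (pos u f t a) ≠ 0) :=
    Gen.all fun x => Gen.all fun y => Gen.all fun z => Gen.all fun t => Gen.imp fun h1 =>
      Gen.imp fun h2 => Gen.imp fun h3 => Gen.imp fun h4 => Gen.imp fun h5 => Gen.imp fun h6 =>
      Gen.of_poly (poly_cyc (pos_poly u f x) (pos_poly u f y) (pos_poly u f z) (pos_poly u f t))
        (quad u f hdet hdot hinj htwo h1 h2 h3 h4 h5 h6)
  obtain ⟨a, k2, k3, k4⟩ := (g2.and (g3.and g4)).exists_int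
  refine ⟨Set.range (fun v => pos u f v (fun i => (a i : ℝ))), Set.finite_range _, ⟨?_, ?_⟩, ?_⟩
  · rintro _ ⟨x, rfl⟩ _ ⟨y, rfl⟩ _ ⟨z, rfl⟩ h1 h2 h3
    exact k3 x y z (fun e => h1 (e ▸ rfl)) (fun e => h2 (e ▸ rfl)) (fun e => h3 (e ▸ rfl))
  · rintro _ ⟨x, rfl⟩ _ ⟨y, rfl⟩ _ ⟨z, rfl⟩ _ ⟨t, rfl⟩ h1 h2 h3 h4 h5 h6
    exact k4 x y z t (fun e => h1 (e ▸ rfl)) (fun e => h2 (e ▸ rfl)) (fun e => h3 (e ▸ rfl))
      (fun e => h4 (e ▸ rfl)) (fun e => h5 (e ▸ rfl)) (fun e => h6 (e ▸ rfl))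
  · intro χ
    obtain ⟨x, y, hxy, ⟨c, hc⟩, he⟩ := hcol (fun v => χ (pos u f v (fun i => (a i : ℝ))))
    refine ⟨_, ⟨x, rfl⟩, _, ⟨y, rfl⟩, ?_, ⟨(a (c, f y c) - a (c, f x c)) * ((n c : ℤ) ^ 2 + 1), ?_⟩, he⟩
    · intro e
      apply k2 x y hxy
      simp only at e
      rw [e]
      simp [nsq]
    · have e : pos u f y (fun i => (a i : ℝ)) = pos u f x (fun i => (a i : ℝ)) +
          ((a (c, f y c) : ℝ) - a (c, f x c)) • u c := by
        rw [← sub_eq_iff_eq_add', pos, pos, ← Finset.sum_sub_distrib, Finset.sum_eq_single c]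
        · rw [sub_smul]
        · intro b _ hb
          rw [hc b hb, sub_self]
        · simp
      simp only [e, nsq, u, Prod.fst_add, Prod.snd_add, Prod.smul_fst, Prod.smul_snd, smul_eq_mul]
      push_cast
      ring

end Pool.Agent.H28GenPos
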