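import Mathlib
import Pool.Agent.Lib.helper28.GenPos

namespace Pool.Agent.H28GenPos

open scoped BigOperators

def K (p : ℝ × ℝ) : (Fin 2 → ℝ) → ℝ × ℝ := fun _ => p

def M (q : ℝ × ℝ) : (Fin 2 → ℝ) → ℝ × ℝ := fun τ => (q.1 + τ 0, q.2 + τ 1)

lemma nsq_ne {p q : ℝ × ℝ} (h : p ≠ q) : nsq p q ≠ 0 := by
  intro h0
  apply h
  simp only [nsq] at h0
  have h1 : q.1 - p.1 = 0 := by nlinarith [sq_nonneg (q.1 - p.1), sq_nonneg (q.2 - p.2)]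
  have h2 : q.2 - p.2 = 0 := by nlinarith [sq_nonneg (q.1 - p.1), sq_nonneg (q.2 - p.2)]
  exact Prod.ext (by linarith) (by linarith)

lemma n30 {p q r : ℝ × ℝ} (h : col p q r ≠ 0) : NZ3 (K p) (K q) (K r) := ⟨0, h⟩

lemma n03 {p q r : ℝ × ℝ} (h : col p q r ≠ 0) : NZ3 (M p) (M q) (M r) :=
  ⟨0, by simpa [M] using h⟩

lemma n21 {p p' : ℝ × ℝ} (q : ℝ × ℝ) (h : p ≠ p') : NZ3 (K p) (K p') (M q) := by
  refine ⟨![p.1 - (p'.2 - p.2) - q.1, p.2 + (p'.1 - p.1) - q.2], fun h0 => nsq_ne h ?_⟩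
  simp only [K, M, col, nsq, Matrix.cons_val_zero, Matrix.cons_val_one] at h0 ⊢
  linear_combination h0

lemma n12 (p : ℝ × ℝ) {q q' : ℝ × ℝ} (h : q ≠ q') : NZ3 (K p) (M q) (M q') := by
  refine ⟨![p.1 + (q'.2 - q.2) - q.1, p.2 - (q'.1 - q.1) - q.2], fun h0 => nsq_ne h ?_⟩
  simp only [K, M, col, nsq, Matrix.cons_val_zero, Matrix.cons_val_one] at h0 ⊢
  linear_combination h0

lemma n40 {p q r s : ℝ × ℝ} (h : cyc p q r s ≠ 0) : NZ4 (K p) (K q) (K r) (K s) := ⟨0, h⟩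

lemma n04 {p q r s : ℝ × ℝ} (h : cyc p q r s ≠ 0) : NZ4 (M p) (M q) (M r) (M s) :=
  ⟨0, by simpa [M] using h⟩

lemma n31 {p q r : ℝ × ℝ} (t : ℝ × ℝ) (h : col p q r ≠ 0) : NZ4 (K p) (K q) (K r) (M t) := by
  obtain ⟨s, hs⟩ := cyc_shift p q r t (1, 0) h (by norm_num)
  refine ⟨![s, 0], fun h0 => hs ?_⟩
  simp only [K, M, cyc, col, nsq, Matrix.cons_val_zero, Matrix.cons_val_one, Prod.fst_add,
    Prod.snd_add, Prod.smul_fst, Prod.smul_snd, smul_eq_mul] at h0 ⊢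
  linear_combination h0

lemma n13 {p q r : ℝ × ℝ} (t : ℝ × ℝ) (h : col p q r ≠ 0) : NZ4 (M p) (M q) (M r) (K t) := by
  obtain ⟨s, hs⟩ := cyc_shift p q r t (1, 0) h (by norm_num)
  refine ⟨![-s, 0], fun h0 => hs ?_⟩
  simp only [K, M, cyc, col, nsq, Matrix.cons_val_zero, Matrix.cons_val_one, Prod.fst_add,
    Prod.snd_add, Prod.smul_fst, Prod.smul_snd, smul_eq_mul] at h0 ⊢
  linear_combination h0

lemma n22 {p p' q q' : ℝ × ℝ} (h : p ≠ p') (h' : q ≠ q') : NZ4 (K p) (K p') (M q) (M q') := by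
  by_contra hno
  simp only [NZ4, not_exists, not_not] at hno
  have h1 := hno ![p.1 - q.1, p.2 - q.2 + 1]
  have h2 := hno ![p.1 - q.1, p.2 - q.2 - 1]
  have h3 := hno ![p.1 - q.1 + 1, p.2 - q.2 + 1]
  have h4 := hno ![p.1 - q.1 - 1, p.2 - q.2 - 1]
  simp only [K, M, cyc, col, nsq, Matrix.cons_val_zero, Matrix.cons_val_one] at h1 h2 h3 h4
  have hI : (p'.1 - p.1) * (q'.2 - q.2) + (p'.2 - p.2) * (q'.1 - q.1) = 0 := by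
    linear_combination (1 / 2) * h1 + (1 / 2) * h2
  have hR : (p'.1 - p.1) * (q'.1 - q.1) - (p'.2 - p.2) * (q'.2 - q.2) = 0 := by
    linear_combination (1 / 4) * h3 + (1 / 4) * h4
  apply mul_ne_zero (nsq_ne h) (nsq_ne h')
  simp only [nsq]
  linear_combination ((p'.1 - p.1) * (q'.2 - q.2) + (p'.2 - p.2) * (q'.1 - q.1)) * hI +
    ((p'.1 - p.1) * (q'.1 - q.1) - (p'.2 - p.2) * (q'.2 - q.2)) * hR

lemma glue {A B : Set (ℝ × ℝ)} (hA : A.Finite) (hB : B.Finite) (gA : GP A) (gB : GP B) :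
    ∃ τ : Fin 2 → ℝ, GP (A ∪ (fun q => M q τ) '' B) := by
  have := hA.to_subtype
  have := hB.to_subtype
  let F : A ⊕ B → (Fin 2 → ℝ) → ℝ × ℝ := Sum.elim (fun p => K p.1) (fun q => M q.1)
  have hF : ∀ i, IsPoly2 (F i) := by
    rintro (p | q)
    · exact ⟨IsPoly.const p.1.1, IsPoly.const p.1.2⟩
    · exact ⟨(IsPoly.const q.1.1).add (IsPoly.var 0), (IsPoly.const q.1.2).add (IsPoly.var 1)⟩
  have dl : ∀ p q : A, (Sum.inl p : A ⊕ B) ≠ Sum.inl q → p.1 ≠ q.1 :=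
    fun p q h e => h (by rw [Subtype.ext e])
  have dr : ∀ p q : B, (Sum.inr p : A ⊕ B) ≠ Sum.inr q → p.1 ≠ q.1 :=
    fun p q h e => h (by rw [Subtype.ext e])
  have t3 : ∀ x y z : A ⊕ B, x ≠ y → x ≠ z → y ≠ z → NZ3 (F x) (F y) (F z) := by
    rintro (x | x) (y | y) (z | z) h1 h2 h3
    · exact n30 (gA.1 _ x.2 _ y.2 _ z.2 (dl _ _ h1) (dl _ _ h2) (dl _ _ h3))
    · exact n21 _ (dl _ _ h1)
    · exact (n21 _ (dl _ _ h2)).s2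
    · exact n12 _ (dr _ _ h3)
    · exact (n21 _ (dl _ _ h3)).s2.s1
    · exact (n12 _ (dr _ _ h2)).s1
    · exact (n12 _ (dr _ _ h1)).s1.s2
    · exact n03 (gB.1 _ x.2 _ y.2 _ z.2 (dr _ _ h1) (dr _ _ h2) (dr _ _ h3))
  have cA : ∀ x y z : A, (Sum.inl x : A ⊕ B) ≠ Sum.inl y → (Sum.inl x : A ⊕ B) ≠ Sum.inl z →
      (Sum.inl y : A ⊕ B) ≠ Sum.inl z → col x.1 y.1 z.1 ≠ 0 := fun x y z h1 h2 h3 =>
    gA.1 _ x.2 _ y.2 _ z.2 (dl _ _ h1) (dl _ _ h2) (dl _ _ h3)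
  have cB : ∀ x y z : B, (Sum.inr x : A ⊕ B) ≠ Sum.inr y → (Sum.inr x : A ⊕ B) ≠ Sum.inr z →
      (Sum.inr y : A ⊕ B) ≠ Sum.inr z → col x.1 y.1 z.1 ≠ 0 := fun x y z h1 h2 h3 =>
    gB.1 _ x.2 _ y.2 _ z.2 (dr _ _ h1) (dr _ _ h2) (dr _ _ h3)
  have t4 : ∀ x y z t : A ⊕ B, x ≠ y → x ≠ z → x ≠ t → y ≠ z → y ≠ t → z ≠ t →
      NZ4 (F x) (F y) (F z) (F t) := by
    rintro (x | x) (y | y) (z | z) (t | t) h1 h2 h3 h4 h5 h6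
    · exact n40 (gA.2 _ x.2 _ y.2 _ z.2 _ t.2 (dl _ _ h1) (dl _ _ h2) (dl _ _ h3) (dl _ _ h4)
        (dl _ _ h5) (dl _ _ h6))
    · exact n31 _ (cA _ _ _ h1 h2 h4)
    · exact (n31 _ (cA _ _ _ h1 h3 h5)).s3
    · exact n22 (dl _ _ h1) (dr _ _ h6)
    · exact (n31 _ (cA _ _ _ h2 h3 h6)).s3.s2
    · exact (n22 (dl _ _ h2) (dr _ _ h5)).s2
    · exact (n22 (dl _ _ h3) (dr _ _ h4)).s2.s3
    · exact (n13 _ (cB _ _ _ h4 h5 h6)).s3.s2.s1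
    · exact (n31 _ (cA _ _ _ h4 h5 h6)).s3.s2.s1
    · exact (n22 (dl _ _ h4) (dr _ _ h3)).s2.s1
    · exact (n22 (dl _ _ h5) (dr _ _ h2)).s2.s3.s1
    · exact (n13 _ (cB _ _ _ h2 h3 h6)).s3.s2
    · exact (n22 (dl _ _ h6) (dr _ _ h1)).s2.s1.s3.s2
    · exact (n13 _ (cB _ _ _ h1 h3 h5)).s3
    · exact n13 _ (cB _ _ _ h1 h2 h4)
    · exact n04 (gB.2 _ x.2 _ y.2 _ z.2 _ t.2 (dr _ _ h1) (dr _ _ h2) (dr _ _ h3) (dr _ _ h4)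
        (dr _ _ h5) (dr _ _ h6))
  have g3 : Gen (fun a => ∀ x y z : A ⊕ B, x ≠ y → x ≠ z → y ≠ z →
      col (F x a) (F y a) (F z a) ≠ 0) :=
    Gen.all fun x => Gen.all fun y => Gen.all fun z => Gen.imp fun h1 => Gen.imp fun h2 =>
      Gen.imp fun h3 => Gen.of_poly (poly_col (hF x) (hF y) (hF z)) (t3 x y z h1 h2 h3)
  have g4 : Gen (fun a => ∀ x y z t : A ⊕ B, x ≠ y → x ≠ z → x ≠ t → y ≠ z → y ≠ t → z ≠ t →
      cyc (F x a) (F y a) (F z a) (F t a) ≠ 0) :=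
    Gen.all fun x => Gen.all fun y => Gen.all fun z => Gen.all fun t => Gen.imp fun h1 =>
      Gen.imp fun h2 => Gen.imp fun h3 => Gen.imp fun h4 => Gen.imp fun h5 => Gen.imp fun h6 =>
      Gen.of_poly (poly_cyc (hF x) (hF y) (hF z) (hF t)) (t4 x y z t h1 h2 h3 h4 h5 h6)
  obtain ⟨a, k3, k4⟩ := (g3.and g4).exists_int
  refine ⟨fun i => (a i : ℝ), ?_⟩
  have hrep : ∀ p ∈ A ∪ (fun q => M q (fun i => (a i : ℝ))) '' B,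
      ∃ i, F i (fun i => (a i : ℝ)) = p := by
    rintro p (hp | ⟨q, hq, rfl⟩)
    · exact ⟨Sum.inl ⟨p, hp⟩, rfl⟩
    · exact ⟨Sum.inr ⟨q, hq⟩, rfl⟩
  constructor
  · intro p hp q hq r hr h1 h2 h3
    obtain ⟨x, rfl⟩ := hrep p hp
    obtain ⟨y, rfl⟩ := hrep q hq
    obtain ⟨z, rfl⟩ := hrep r hr
    exact k3 x y z (fun e => h1 (e ▸ rfl)) (fun e => h2 (e ▸ rfl)) (fun e => h3 (e ▸ rfl))
  · intro p hp q hq r hr s hs h1 h2 h3 h4 h5 h6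
    obtain ⟨x, rfl⟩ := hrep p hp
    obtain ⟨y, rfl⟩ := hrep q hq
    obtain ⟨z, rfl⟩ := hrep r hr
    obtain ⟨t, rfl⟩ := hrep s hs
    exact k4 x y z t (fun e => h1 (e ▸ rfl)) (fun e => h2 (e ▸ rfl)) (fun e => h3 (e ▸ rfl))
      (fun e => h4 (e ▸ rfl)) (fun e => h5 (e ▸ rfl)) (fun e => h6 (e ▸ rfl))

lemma step (k : ℕ) (A : {A : Set (ℝ × ℝ) // A.Finite ∧ GP A}) :
    ∃ A' : {A : Set (ℝ × ℝ) // A.Finite ∧ GP A}, A.1 ⊆ A'.1 ∧ NC k A'.1 := by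
  obtain ⟨B, hB, gB, nB⟩ := block k
  obtain ⟨τ, hτ⟩ := glue A.2.1 hB A.2.2 gB
  refine ⟨⟨_, A.2.1.union (hB.image _), hτ⟩, Set.subset_union_left, fun χ => ?_⟩
  obtain ⟨p, hp, q, hq, hpq, ⟨n, hn⟩, he⟩ := nB (fun q => χ (M q τ))
  refine ⟨M p τ, Or.inr ⟨p, hp, rfl⟩, M q τ, Or.inr ⟨q, hq, rfl⟩, ?_, ⟨n, ?_⟩, he⟩
  · intro e
    apply hpq
    simp only [M, Prod.mk.injEq, add_left_inj] at e
    exact Prod.ext e.1 e.2
  · rw [← hn]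
    simp only [nsq, M]
    ring

theorem exists_set : ∃ A : Set (ℝ × ℝ), GP A ∧ ∀ k, NC k A := by
  choose nxt h1 h2 using step
  let s : ℕ → {A : Set (ℝ × ℝ) // A.Finite ∧ GP A} := fun n =>
    Nat.rec ⟨∅, Set.finite_empty, by simp [GP]⟩ (fun k A => nxt k A) n
  have hmono : Monotone (fun n => (s n).1) := monotone_nat_of_le_succ fun n => h1 n (s n)
  refine ⟨⋃ n, (s n).1, ⟨?_, ?_⟩, fun k χ => ?_⟩
  · intro p hp q hq r hr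
    obtain ⟨a, ha⟩ := Set.mem_iUnion.mp hp
    obtain ⟨b, hb⟩ := Set.mem_iUnion.mp hq
    obtain ⟨c, hc⟩ := Set.mem_iUnion.mp hr
    exact (s (a + b + c)).2.2.1 p (hmono (by omega) ha) q (hmono (by omega) hb) r
      (hmono (by omega) hc)
  · intro p hp q hq r hr t ht
    obtain ⟨a, ha⟩ := Set.mem_iUnion.mp hp
    obtain ⟨b, hb⟩ := Set.mem_iUnion.mp hq
    obtain ⟨c, hc⟩ := Set.mem_iUnion.mp hr
    obtain ⟨d, hd⟩ := Set.mem_iUnion.mp ht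
    exact (s (a + b + c + d)).2.2.2 p (hmono (by omega) ha) q (hmono (by omega) hb) r
      (hmono (by omega) hc) t (hmono (by omega) hd)
  · obtain ⟨p, hp, q, hq, h⟩ := h2 k (s k) χ
    exact ⟨p, Set.mem_iUnion.mpr ⟨k + 1, hp⟩, q, Set.mem_iUnion.mpr ⟨k + 1, hq⟩, h⟩

end Pool.Agent.H28GenPos
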