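import Mathlib

/-! Second derivatives along lines, a weak maximum principle, and harmonic pull-backs. -/

open Set Filter Topology InnerProductSpace Laplacian

namespace H28Har

lemma d2 {E : Type*} [NormedAddCommGroup E] [NormedSpace ℝ E] {f : E → ℝ} {x : E}
    (hf : ContDiffAt ℝ 2 f x) (e : E) :
    iteratedFDeriv ℝ 2 f x ![e, e] = deriv (deriv (fun t : ℝ => f (x + t • e))) 0 := by
  have hl : ∀ t : ℝ, HasDerivAt (fun t : ℝ => x + t • e) e t := fun t => by
    simpa using ((hasDerivAt_id t).smul_const e).const_add x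
  have hc : Tendsto (fun t : ℝ => x + t • e) (𝓝 0) (𝓝 x) := by
    simpa using (hl 0).continuousAt.tendsto
  have h1 : ∀ᶠ y in 𝓝 x, DifferentiableAt ℝ f y :=
    (hf.eventually (by simp)).mono fun y hy => hy.differentiableAt (by simp)
  have h2 : deriv (fun t : ℝ => f (x + t • e)) =ᶠ[𝓝 0] fun t => fderiv ℝ f (x + t • e) e := by
    filter_upwards [hc.eventually h1] with t ht
    exact (ht.hasFDerivAt.comp_hasDerivAt t (hl t)).deriv
  have h3 : DifferentiableAt ℝ (fderiv ℝ f) x :=
    (hf.fderiv_right (m := 1) (by norm_num)).differentiableAt (by simp)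
  have h4 : HasDerivAt (fun t : ℝ => fderiv ℝ f (x + t • e)) (fderiv ℝ (fderiv ℝ f) x e) 0 := by
    have h5 : HasFDerivAt (fderiv ℝ f) (fderiv ℝ (fderiv ℝ f) x) (x + (0:ℝ) • e) := by
      simpa using h3.hasFDerivAt
    exact h5.comp_hasDerivAt (0:ℝ) (hl 0)
  have h6 := h4.clm_apply (hasDerivAt_const (0:ℝ) e)
  rw [h2.deriv_eq, h6.deriv, iteratedFDeriv_two_apply]
  simp

lemma d2_nonpos {g : ℝ → ℝ} (hc : ContinuousAt g 0) (h : IsLocalMax g 0) :
    deriv (deriv g) 0 ≤ 0 := by
  by_contra hp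
  push Not at hp
  have h1 := isLocalMin_of_deriv_deriv_pos hp h.deriv_eq_zero hc
  have h2 : g =ᶠ[𝓝 0] fun _ => g 0 := by
    filter_upwards [h, h1] with t a b using le_antisymm a b
  have h3 : deriv g =ᶠ[𝓝 0] fun _ => 0 := by
    filter_upwards [h2.deriv] with t ht
    simpa using ht
  rw [h3.deriv_eq] at hp
  simp at hp

abbrev E (n : ℕ) := EuclideanSpace ℝ (Fin n)

lemma lap_nonpos {n : ℕ} {f : E n → ℝ} {x : E n} (hf : ContDiffAt ℝ 2 f x)
    (h : IsLocalMax f x) : Δ f x ≤ 0 := by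
  rw [laplacian_eq_iteratedFDeriv_orthonormalBasis f (EuclideanSpace.basisFun (Fin n) ℝ)]
  refine Finset.sum_nonpos fun j _ => ?_
  rw [d2 hf]
  set e := EuclideanSpace.basisFun (Fin n) ℝ j
  have hc : ContinuousAt (fun t : ℝ => x + t • e) 0 := by fun_prop
  have hx : x + (0:ℝ) • e = x := by simp
  refine d2_nonpos ?_ ?_
  · exact ContinuousAt.comp (f := fun t : ℝ => x + t • e) (by rw [hx]; exact hf.continuousAt) hc
  · exact IsLocalMax.comp_continuous (g := fun t : ℝ => x + t • e) (by rw [hx]; exact h) hc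

lemma lap_sq {n : ℕ} (i : Fin n) (x : E n) : Δ (fun x : E n => (x i) ^ 2) x = 2 := by
  rw [laplacian_eq_iteratedFDeriv_orthonormalBasis _ (EuclideanSpace.basisFun (Fin n) ℝ)]
  have : ∀ j, iteratedFDeriv ℝ 2 (fun x : E n => (x i) ^ 2) x
      ![EuclideanSpace.basisFun (Fin n) ℝ j, EuclideanSpace.basisFun (Fin n) ℝ j]
      = if i = j then 2 else 0 := by
    intro j
    rw [d2 (by fun_prop)]
    set c : ℝ := (EuclideanSpace.basisFun (Fin n) ℝ j) i with hc
    have h1 : deriv (fun t : ℝ => ((x + t • EuclideanSpace.basisFun (Fin n) ℝ j) i) ^ 2)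
        = fun t => 2 * (x i + t * c) * c := by
      ext t
      have : HasDerivAt (fun t : ℝ => (x i + t * c) ^ 2) (2 * (x i + t * c) * c) t := by
        have := (((hasDerivAt_id t).mul_const c).const_add (x i)).fun_pow 2
        simpa using this
      exact this.deriv
    rw [h1]
    have : HasDerivAt (fun t : ℝ => 2 * (x i + t * c) * c) (2 * c * c) 0 := by
      simpa using ((((hasDerivAt_id (0:ℝ)).mul_const c).const_add (x i)).const_mul 2).mul_const c
    rw [this.deriv, hc]
    by_cases h : i = j <;> simp [h]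
  simp only [this]
  simp

lemma maxp {n : ℕ} (i : Fin n) {D K : Set (E n)} (hD : IsOpen D) (hK : IsCompact K)
    (hDK : D ⊆ K) {W G : E n → ℝ} (hW : HarmonicOnNhd W D) (hG : ContinuousOn G K)
    (hWG : ∀ x ∈ D, W x ≤ G x) (hb : ∀ x ∈ K, x ∉ D → G x ≤ 0) : ∀ x ∈ D, W x ≤ 0 := by
  intro z hz
  by_contra hp
  push Not at hp
  obtain ⟨R, hR⟩ := hK.bddAbove_image (f := fun x : E n => (x i) ^ 2) (by fun_prop)
  have hR' : ∀ x ∈ K, (x i) ^ 2 ≤ R := fun x hx => hR (mem_image_of_mem _ hx)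
  have hR0 : 0 ≤ R := (sq_nonneg _).trans (hR' z (hDK hz))
  set a := W z / 2 with ha
  set ε := a / (R + 1) with hε
  have hε0 : 0 < ε := by positivity
  have hεR : ε * R < a := by
    rw [hε, div_mul_eq_mul_div, div_lt_iff₀ (by positivity)]; nlinarith
  set V : E n → ℝ := W + ε • fun x : E n => (x i) ^ 2 with hV
  have hVx : ∀ x, V x = W x + ε * (x i) ^ 2 := fun x => rfl
  set C := K ∩ G ⁻¹' (Ici a) with hC
  have hCc : IsCompact C :=
    hK.of_isClosed_subset (hG.preimage_isClosed_of_isClosed hK.isClosed isClosed_Ici)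
      inter_subset_left
  have hCD : C ⊆ D := fun x hx => by
    by_contra h
    have := hb x hx.1 h
    have h2 : a ≤ G x := hx.2
    linarith
  have hzC : z ∈ C := ⟨hDK hz, by show a ≤ G z; linarith [hWG z hz]⟩
  have hVc : ContinuousOn V C :=
    (hW.continuousOn.mono hCD).add (by fun_prop)
  obtain ⟨w, hwC, hw⟩ := hCc.exists_isMaxOn ⟨z, hzC⟩ hVc
  have hmax : IsLocalMax V w := by
    filter_upwards [hD.mem_nhds (hCD hwC)] with x hx
    by_cases hxC : x ∈ C
    · exact hw hxC
    · have h1 : G x < a := by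
        by_contra h; exact hxC ⟨hDK hx, not_lt.1 h⟩
      have h2 : V z ≤ V w := hw hzC
      have h3 := hWG x hx
      have h4 : ε * (x i) ^ 2 ≤ ε * R := mul_le_mul_of_nonneg_left (hR' x (hDK hx)) hε0.le
      have h5 : 0 ≤ ε * (z i) ^ 2 := by positivity
      rw [hVx] at h2 ⊢
      linarith
  have hq : ContDiffAt ℝ 2 (fun x : E n => (x i) ^ 2) w := by fun_prop
  have hWw := hW w (hCD hwC)
  have h1 := lap_nonpos (hWw.1.add (hq.const_smul ε)) hmax
  have h2 : Δ V w = Δ W w + Δ (ε • fun x : E n => (x i) ^ 2) w :=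
    hWw.1.laplacian_add (hq.const_smul ε)
  rw [laplacian_smul ε hq, lap_sq, hWw.2.self_of_nhds] at h2
  have h3 : Δ V w ≤ 0 := h1
  rw [h2] at h3
  simp at h3
  linarith

/-- The point `x j + i x k` of the complex plane. -/
noncomputable def pr {n : ℕ} (j k : Fin n) (x : E n) : ℂ := (x j : ℂ) + (x k : ℂ) * Complex.I

@[simp] lemma pr_re {n : ℕ} (j k : Fin n) (x : E n) : (pr j k x).re = x j := by simp [pr]
@[simp] lemma pr_im {n : ℕ} (j k : Fin n) (x : E n) : (pr j k x).im = x k := by simp [pr]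

lemma pr_contDiff {n : ℕ} (j k : Fin n) : ContDiff ℝ 2 (pr j k) := by
  unfold pr
  have h : ∀ i : Fin n, ContDiff ℝ 2 (fun x : E n => ((x i : ℝ) : ℂ)) := fun i =>
    Complex.ofRealCLM.contDiff.comp (by fun_prop)
  exact (h j).add ((h k).mul contDiff_const)

lemma pr_line {n : ℕ} (j k : Fin n) (x e : E n) (t : ℝ) :
    pr j k (x + t • e) = pr j k x + t • pr j k e := by
  simp [pr]; ring

lemma harm_pr {n : ℕ} {j k : Fin n} (hjk : j ≠ k) {f : ℂ → ℝ} {x : E n}
    (hf : HarmonicAt f (pr j k x)) : HarmonicAt (fun y => f (pr j k y)) x := by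
  have hc : ∀ y, HarmonicAt f (pr j k y) → ContDiffAt ℝ 2 (fun y => f (pr j k y)) y :=
    fun y hy => hy.1.comp y (pr_contDiff j k).contDiffAt
  refine ⟨hc x hf, ?_⟩
  filter_upwards [(pr_contDiff j k).continuous.continuousAt.eventually hf.eventually] with y hy
  rw [laplacian_eq_iteratedFDeriv_orthonormalBasis _ (EuclideanSpace.basisFun (Fin n) ℝ)]
  have h0 := hy.2.self_of_nhds
  rw [laplacian_eq_iteratedFDeriv_complexPlane] at h0
  have : ∀ i, iteratedFDeriv ℝ 2 (fun y => f (pr j k y)) y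
      ![EuclideanSpace.basisFun (Fin n) ℝ i, EuclideanSpace.basisFun (Fin n) ℝ i]
      = (if j = i then iteratedFDeriv ℝ 2 f (pr j k y) ![1, 1] else 0) +
        (if k = i then iteratedFDeriv ℝ 2 f (pr j k y) ![Complex.I, Complex.I] else 0) := by
    intro i
    rw [d2 (hc y hy)]
    simp only [pr_line]
    rw [← d2 hy.1]
    by_cases h1 : j = i
    · have h2 : k ≠ i := fun h => hjk (h1.trans h.symm)
      have : pr j k (EuclideanSpace.basisFun (Fin n) ℝ i) = 1 := by simp [pr, h1, h2]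
      rw [this]; simp [h1, h2]
    · by_cases h2 : k = i
      · have : pr j k (EuclideanSpace.basisFun (Fin n) ℝ i) = Complex.I := by simp [pr, h1, h2]
        rw [this]; simp [h1, h2]
      · have : pr j k (EuclideanSpace.basisFun (Fin n) ℝ i) = 0 := by simp [pr, h1, h2]
        rw [this]; simp [h1, h2, iteratedFDeriv_two_apply]
  simp only [this, Finset.sum_add_distrib, Finset.sum_ite_eq, Finset.mem_univ, if_true]
  exact h0

lemma harm_sum {n : ℕ} {ι : Type*} (s : Finset ι) {f : ι → E n → ℝ} {x : E n}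
    (h : ∀ i ∈ s, HarmonicAt (f i) x) : HarmonicAt (fun y => ∑ i ∈ s, f i y) x := by
  classical
  induction s using Finset.induction_on with
  | empty => simp
  | insert a s ha ih =>
    simp only [Finset.sum_insert ha]
    exact (h a (Finset.mem_insert_self _ _)).add
      (ih fun i hi => h i (Finset.mem_insert_of_mem hi))

end H28Har
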