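import Mathlib
import Pool.Agent.Lib.helper28.HarA

/-! Three harmonic functions on a half-plane and their growth. -/

open Set Filter Topology InnerProductSpace

namespace H28Har

noncomputable def sq (w : ℂ) : ℂ := Complex.exp (Complex.log (Complex.log w) / 2)
noncomputable def f1 (w : ℂ) : ℝ := (w * Complex.log w).re
noncomputable def f2 (w : ℂ) : ℝ := (w * sq w ^ 3).re
noncomputable def f3 (w : ℂ) : ℝ := (w * Complex.log w ^ 2).re

lemma log_re_ge {w : ℂ} (hw : 0 < w.re) : Real.log w.re ≤ (Complex.log w).re := by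
  rw [Complex.log_re]
  exact Real.log_le_log hw ((le_abs_self _).trans (Complex.abs_re_le_norm w))

lemma an_log {w : ℂ} (hw : 0 < w.re) : AnalyticAt ℂ Complex.log w :=
  analyticAt_clog (Or.inl hw)

lemma log_pos {w : ℂ} (hw : 1 < w.re) : 0 < (Complex.log w).re :=
  lt_of_lt_of_le (Real.log_pos hw) (log_re_ge (by linarith))

lemma an_sq {w : ℂ} (hw : 1 < w.re) : AnalyticAt ℂ sq w := by
  have h1 := an_log (w := w) (by linarith)
  have h2 := (an_log (log_pos hw)).comp h1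
  exact (h2.div_const (c := 2)).cexp

lemma harm1 {w : ℂ} (hw : 1 < w.re) : HarmonicAt f1 w :=
  (analyticAt_id.mul (an_log (by linarith))).harmonicAt_re
lemma harm2 {w : ℂ} (hw : 1 < w.re) : HarmonicAt f2 w :=
  (analyticAt_id.mul ((an_sq hw).pow 3)).harmonicAt_re
lemma harm3 {w : ℂ} (hw : 1 < w.re) : HarmonicAt f3 w :=
  (analyticAt_id.mul ((an_log (by linarith)).pow 2)).harmonicAt_re

lemma arg_abs {w : ℂ} (hw : 0 < w.re) : |w.arg| ≤ 1.58 := by
  have := Complex.abs_arg_le_pi_div_two_iff.2 hw.le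
  linarith [Real.pi_lt_d2]

lemma arg_mul_nonneg (w : ℂ) : 0 ≤ w.im * w.arg := by
  rcases le_total 0 w.im with h | h
  · exact mul_nonneg h (Complex.arg_nonneg_iff.2 h)
  · rcases h.eq_or_lt with h | h
    · simp [h]
    · exact (mul_pos_of_neg_of_neg h (Complex.arg_neg_iff.2 h)).le

lemma arg_mul_ge {w : ℂ} (hw : 0 < w.re) : 1.57 * |w.im| - 2 * w.re ≤ w.im * w.arg := by
  have hw0 : w ≠ 0 := by rintro rfl; simp at hw
  have hr : 0 < ‖w‖ := norm_pos_iff.2 hw0
  have h1 := Complex.abs_arg_le_pi_div_two_iff.2 hw.le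
  have hc : Real.cos w.arg = w.re / ‖w‖ := Complex.cos_arg hw0
  have h2 : Real.sin (Real.pi / 2 - |w.arg|) = w.re / ‖w‖ := by
    rw [Real.sin_pi_div_two_sub, Real.cos_abs, hc]
  have h3 := Real.mul_le_sin (x := Real.pi / 2 - |w.arg|) (by linarith)
    (by linarith [abs_nonneg w.arg])
  rw [h2, le_div_iff₀ hr] at h3
  have h4 : w.im * w.arg = |w.im| * |w.arg| := by
    rw [← abs_mul, abs_of_nonneg (arg_mul_nonneg w)]
  have h5 : |w.im| ≤ ‖w‖ := Complex.abs_im_le_norm w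
  have h6 : 1 / 2 ≤ 2 / Real.pi := by
    rw [div_le_div_iff₀ (by norm_num) Real.pi_pos]; linarith [Real.pi_lt_d2]
  set θ := Real.pi / 2 - |w.arg| with hθ
  have hθ0 : 0 ≤ θ := by linarith
  have h7 : 1 / 2 * θ * |w.im| ≤ 2 / Real.pi * θ * ‖w‖ :=
    mul_le_mul (mul_le_mul_of_nonneg_right h6 hθ0) h5 (abs_nonneg _) (by positivity)
  have h8 : |w.arg| = Real.pi / 2 - θ := by rw [hθ]; ring
  rw [h4, h8]
  nlinarith [Real.pi_gt_d2, abs_nonneg w.im]

lemma f1_ge {w : ℂ} (hw : 0 < w.re) : w.re * Real.log w.re - 1.58 * |w.im| ≤ f1 w := by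
  have h1 := log_re_ge hw
  have h2 : w.im * w.arg ≤ |w.im| * 1.58 := by
    refine (le_abs_self _).trans ?_
    rw [abs_mul]; exact mul_le_mul_of_nonneg_left (arg_abs hw) (abs_nonneg _)
  simp only [f1, Complex.mul_re, Complex.log_im]
  nlinarith

lemma f3_le {w : ℂ} (hw : 1 < w.re) (hl : 100 ≤ Real.log w.re) :
    -f3 w ≤ 7 * (|w.im| * max (Real.log |w.im|) 0) - w.re * (Real.log w.re) ^ 2 / 4 := by
  have hw0 : 0 < w.re := by linarith
  have h1 := log_re_ge hw0
  have h2 : w.im * w.arg ≤ |w.im| * 1.58 := by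
    refine (le_abs_self _).trans ?_
    rw [abs_mul]; exact mul_le_mul_of_nonneg_left (arg_abs hw0) (abs_nonneg _)
  have h3 : w.arg ^ 2 ≤ 4 := by
    have := arg_abs hw0
    rw [← sq_abs]; nlinarith [abs_nonneg w.arg]
  have e : f3 w = w.re * ((Complex.log w).re ^ 2 - w.arg ^ 2)
      - 2 * (w.im * w.arg) * (Complex.log w).re := by
    simp only [f3, pow_two, Complex.mul_re, Complex.mul_im, Complex.log_im]; ring
  have hl2 : (Complex.log w).re = Real.log ‖w‖ := Complex.log_re w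
  set l := (Complex.log w).re
  set lam := Real.log w.re
  have hll : lam ^ 2 ≤ l ^ 2 := by nlinarith
  have hg : 0 ≤ |w.im| * max (Real.log |w.im|) 0 := by positivity
  have h4 : 2 * (w.im * w.arg) * l ≤ 2 * (|w.im| * 1.58) * l :=
    mul_le_mul_of_nonneg_right (by linarith) (by linarith)
  have h5 : w.re * lam ^ 2 ≤ w.re * l ^ 2 := mul_le_mul_of_nonneg_left hll hw0.le
  rw [e]
  rcases le_total w.re |w.im| with h | h
  · have hx : 0 < |w.im| := by linarith
    have h6 : l ≤ 2 * Real.log |w.im| := by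
      have a1 : ‖w‖ ≤ 2 * |w.im| := by
        have := Complex.norm_le_abs_re_add_abs_im w
        rw [abs_of_pos hw0] at this; linarith
      have a2 : lam ≤ Real.log |w.im| := Real.log_le_log hw0 h
      have a3 : l ≤ Real.log (2 * |w.im|) := by
        rw [hl2]; exact Real.log_le_log (by
          have := Complex.abs_im_le_norm w; linarith) a1
      rw [Real.log_mul (by norm_num) hx.ne'] at a3
      linarith [Real.log_two_lt_d9]
    have h7 : Real.log |w.im| ≤ max (Real.log |w.im|) 0 := le_max_left _ _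
    have h8 : |w.im| * l ≤ |w.im| * (2 * max (Real.log |w.im|) 0) :=
      mul_le_mul_of_nonneg_left (by linarith) hx.le
    have h9 : w.re * w.arg ^ 2 ≤ w.re * (3 / 4 * l ^ 2) :=
      mul_le_mul_of_nonneg_left (by nlinarith) hw0.le
    nlinarith
  · have h8 : |w.im| * l ≤ w.re * l := mul_le_mul_of_nonneg_right h (by linarith)
    have h9 : w.re * (w.arg ^ 2 + 4 * l) ≤ w.re * (3 / 4 * l ^ 2) :=
      mul_le_mul_of_nonneg_left (by nlinarith) hw0.le
    nlinarith

lemma sq_facts {w : ℂ} (hw : 1 < w.re) :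
    0 < (sq w).re ∧ (sq w).re ^ 2 - (sq w).im ^ 2 = (Complex.log w).re ∧
      2 * (sq w).re * (sq w).im = w.arg := by
  have hL := log_pos hw
  have hL0 : Complex.log w ≠ 0 := by intro h; simp [h] at hL
  have h2 : sq w ^ 2 = Complex.log w := by
    rw [sq, ← Complex.exp_nat_mul]
    push_cast
    rw [mul_div_cancel₀ _ (by norm_num), Complex.exp_log hL0]
  refine ⟨?_, ?_, ?_⟩
  · rw [sq, Complex.exp_re]
    refine mul_pos (Real.exp_pos _) (Real.cos_pos_of_mem_Ioo ?_)
    have := abs_le.1 (Complex.abs_arg_le_pi_div_two_iff.2 hL.le)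
    simp only [Complex.div_ofNat_im, Complex.log_im]
    constructor <;> linarith [Real.pi_pos]
  · rw [← h2]; simp [pow_two]
  · rw [← Complex.log_im, ← h2]; simp [pow_two]; ring

lemma f2_eq (w : ℂ) : f2 w = w.re * ((sq w).re ^ 3 - 3 * (sq w).re * (sq w).im ^ 2)
    - w.im * (sq w).im * (3 * (sq w).re ^ 2 - (sq w).im ^ 2) := by
  simp only [f2, pow_succ, pow_zero, one_mul, Complex.mul_re, Complex.mul_im]; ring

lemma f2_le {w : ℂ} {μ : ℝ} (hw : 1 < w.re) (hμ : 10 ≤ μ) (hμ2 : μ ^ 2 = Real.log w.re)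
    (hl : (Complex.log w).re + 1 ≤ 1.04 * μ ^ 2) :
    f2 w ≤ 1.07 * w.re * μ ^ 3 ∧
      f2 w ≤ 1.07 * w.re * μ ^ 3 - 1.49 * μ * (1.57 * |w.im| - 2 * w.re) := by
  have hw0 : 0 < w.re := by linarith
  obtain ⟨hp, h1, h2⟩ := sq_facts hw
  have h3 := log_re_ge hw0
  have h4 := arg_abs hw0
  have h5 := arg_mul_nonneg w
  have h6 := arg_mul_ge hw0
  rw [f2_eq]
  set p := (sq w).re
  set q := (sq w).im
  have hpμ : μ ≤ p := by
    by_contra h; push Not at h; nlinarith [sq_nonneg q]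
  have hq : q ^ 2 ≤ 1 / 100 := by
    have a1 : w.arg ^ 2 ≤ 4 := by rw [← sq_abs]; nlinarith [abs_nonneg w.arg]
    rw [← h2] at a1
    have a2 : 100 * q ^ 2 ≤ p ^ 2 * q ^ 2 :=
      mul_le_mul_of_nonneg_right (by nlinarith) (sq_nonneg q)
    nlinarith
  have hp2 : p ≤ 1.02 * μ := by
    by_contra h; push Not at h; nlinarith
  have hp3 : p ^ 3 ≤ 1.07 * μ ^ 3 := by
    have := pow_le_pow_left₀ hp.le hp2 3
    have h0 : 0 < μ ^ 3 := by positivity
    nlinarith
  have a1 : w.re * (p ^ 3 - 3 * p * q ^ 2) ≤ 1.07 * w.re * μ ^ 3 := by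
    have : 0 ≤ 3 * p * q ^ 2 := by positivity
    nlinarith
  have hxq : 0 ≤ w.im * q := by
    have : 0 ≤ 2 * p * (w.im * q) := by rw [← h2] at h5; linarith
    exact nonneg_of_mul_nonneg_right this (by positivity) |> fun h => h
  have a2 : 1.49 * μ * (w.im * w.arg) ≤ w.im * q * (3 * p ^ 2 - q ^ 2) := by
    rw [← h2]
    have : 2.98 * μ * p ≤ 3 * p ^ 2 - q ^ 2 := by nlinarith
    nlinarith
  have a3 : 1.49 * μ * (1.57 * |w.im| - 2 * w.re) ≤ 1.49 * μ * (w.im * w.arg) :=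
    mul_le_mul_of_nonneg_left h6 (by positivity)
  have a4 : 0 ≤ 1.49 * μ * (w.im * w.arg) := by positivity
  constructor <;> linarith

lemma f2_ge {w : ℂ} {μ : ℝ} (hw : 1 < w.re) (hμ : 0 ≤ μ) (hμ2 : μ ^ 2 ≤ Real.log w.re)
    (him : w.im = 0) : w.re * μ ^ 3 ≤ f2 w := by
  have hw0 : 0 < w.re := by linarith
  obtain ⟨hp, h1, h2⟩ := sq_facts hw
  have h3 := log_re_ge hw0
  have h4 : w.arg = 0 := Complex.arg_eq_zero_iff.2 ⟨hw0.le, him⟩
  rw [f2_eq]
  set p := (sq w).re
  set q := (sq w).im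
  have hq : q = 0 := by
    rw [h4] at h2
    rcases mul_eq_zero.1 h2 with h | h
    · linarith
    · exact h
  have hpμ : μ ≤ p := by
    by_contra h; push Not at h; nlinarith [sq_nonneg q]
  have := pow_le_pow_left₀ hμ hpμ 3
  rw [hq, him]
  nlinarith

lemma log_bound {w : ℂ} {μ m : ℝ} (hw : 1 < w.re) (hm : 0 ≤ m) (hμ : 100 * (m + 1) ≤ μ)
    (hμ2 : μ ^ 2 = Real.log w.re) (hx : |w.im| ≤ m / 2 * (w.re * Real.log w.re)) :
    (Complex.log w).re + 1 ≤ 1.04 * μ ^ 2 := by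
  have hw0 : 0 < w.re := by linarith
  have hμ0 : 0 < μ := by linarith
  have h1 : ‖w‖ ≤ w.re * ((1 + m) * μ ^ 2) := by
    have := Complex.norm_le_abs_re_add_abs_im w
    rw [abs_of_pos hw0] at this
    rw [← hμ2] at hx
    have a1 : w.re * 1 ≤ w.re * μ ^ 2 := mul_le_mul_of_nonneg_left (by nlinarith) hw0.le
    have a2 : 0 ≤ m * (w.re * μ ^ 2) := by positivity
    nlinarith
  have h2 : (Complex.log w).re ≤ Real.log (w.re * ((1 + m) * μ ^ 2)) := by
    rw [Complex.log_re]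
    exact Real.log_le_log (lt_of_lt_of_le hw0 ((le_abs_self _).trans (Complex.abs_re_le_norm w))) h1
  rw [Real.log_mul hw0.ne' (by positivity), Real.log_mul (by positivity) (by positivity),
    Real.log_pow, ← hμ2] at h2
  have h3 := Real.log_le_sub_one_of_pos (show 0 < 1 + m by positivity)
  have h4 := Real.log_le_sub_one_of_pos hμ0
  push_cast at h2
  nlinarith

end H28Har
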