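import Pool.Agent.Lib.helper28.CapC

set_option autoImplicit false

namespace Pool.Agent.H28Hs

open Complex Metric Set Filter Topology MeasureTheory Function Pool.Agent.H28Cap

variable {n : ℕ}

noncomputable abbrev ν (n : ℕ) : Measure (Fin n → UnitAddCircle) := Measure.pi fun _ => μ

noncomputable def act (θ : Fin n → UnitAddCircle) (w : Fin n → ℂ) : Fin n → ℂ :=
  fun j => z (θ j) * w j

noncomputable def mono (γ : Fin n → ℤ) (w : Fin n → ℂ) : ℂ := ∏ j, w j ^ γ j

def Rh (S : Set (Fin n → ℂ)) : Prop := ∀ w ∈ S, ∀ w' : Fin n → ℂ, (∀ j, ‖w' j‖ = ‖w j‖) → w' ∈ S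

def NZ (n : ℕ) : Set (Fin n → ℂ) := {w | ∀ j, w j ≠ 0}

lemma act_norm (θ : Fin n → UnitAddCircle) (w : Fin n → ℂ) (j : Fin n) : ‖act θ w j‖ = ‖w j‖ := by
  simp [act, z_norm]

lemma act_cont : Continuous fun p : (Fin n → UnitAddCircle) × (Fin n → ℂ) => act p.1 p.2 := by
  have := z_cont
  unfold act
  fun_prop

lemma z_add (a b : UnitAddCircle) : z (a + b) = z a * z b := by
  simp [z, AddCircle.toCircle_add]

lemma Rh.act {S : Set (Fin n → ℂ)} (h : Rh S) (θ : Fin n → UnitAddCircle) {w : Fin n → ℂ}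
    (hw : w ∈ S) : act θ w ∈ S := h w hw _ (act_norm θ w)

lemma Rh.nz {S : Set (Fin n → ℂ)} (h : Rh S) : Rh (S ∩ NZ n) := fun w hw w' e =>
  ⟨h w hw.1 w' e, fun j => norm_ne_zero_iff.1 (by rw [e]; exact norm_ne_zero_iff.2 (hw.2 j))⟩

lemma NZ_open : IsOpen (NZ n) := by
  rw [NZ, ofPred_forall]
  exact isOpen_iInter_of_finite fun j => isOpen_ne_fun (continuous_apply j) continuous_const

lemma NZ_dense : Dense (NZ n) :=
  (dense_pi (s := fun _ : Fin n => ({0}ᶜ : Set ℂ)) univ fun _ _ =>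
    dense_compl_singleton (0 : ℂ)).mono fun _ h j => mem_univ_pi.1 h j

lemma act_mp (θ : Fin n → UnitAddCircle) : MeasurePreserving (act θ) volume volume :=
  volume_preserving_pi fun j => (rotation (AddCircle.toCircle (θ j))).measurePreserving |>.congr
    (by fun_prop) (ae_of_all _ fun w => by simp [z])

lemma av_eq (φ : ℂ → ℂ) (u : ℂ) : ∫ s, φ (z s * u) ∂μ = Real.circleAverage φ 0 ‖u‖ := by
  rw [← vol_eq, ← UnitAddCircle.intervalIntegral_preimage 0, Real.circleAverage_eq_integral_add (arg u),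
    zero_add]
  have := intervalIntegral.integral_comp_mul_left (a := 0) (b := 1)
    (fun θ => φ (circleMap 0 ‖u‖ (θ + arg u))) (c := 2 * Real.pi) (by positivity)
  rw [mul_zero, mul_one] at this
  rw [← this]
  refine intervalIntegral.integral_congr fun t _ => ?_
  simp only [z_coe, circleMap, zero_add]
  congr 1
  conv_lhs => rw [← norm_mul_exp_arg_mul_I u]
  rw [ofReal_add, add_mul, exp_add]
  ring_nf

lemma av_ann {φ : ℂ → ℂ} {r R : ℝ} (h0 : 0 < r) (h1 : r ≤ R)
    (h : ∀ ζ : ℂ, r ≤ ‖ζ‖ → ‖ζ‖ ≤ R → DifferentiableAt ℂ φ ζ) :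
    Real.circleAverage φ 0 R = Real.circleAverage φ 0 r := by
  rw [Real.circleAverage_eq_circleIntegral h0.ne', Real.circleAverage_eq_circleIntegral
    (h0.trans_le h1).ne', circleIntegral_sub_center_inv_smul_eq_of_differentiable_on_annulus_off_countable
    h0 h1 countable_empty (fun ζ hζ => (h ζ (by simpa using hζ.2)
      (by simpa using hζ.1)).continuousAt.continuousWithinAt)
    fun ζ hζ => h ζ (le_of_lt (by simpa using hζ.1.2)) (le_of_lt (by simpa using hζ.1.1))]

noncomputable def C (g : (Fin n → ℂ) → ℂ) (w : Fin n → ℂ) : ℂ := ∫ θ, g (act θ w) ∂ν n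

lemma C_av {S : Set (Fin n → ℂ)} (hS : Rh S) {g : (Fin n → ℂ) → ℂ} (hg : ContinuousOn g S)
    {w : Fin n → ℂ} (hw : w ∈ S) (j : Fin n) :
    C g w = ∫ θ, Real.circleAverage (fun ζ => g (update (act θ w) j ζ)) 0 ‖w j‖ ∂ν n := by
  have hc : Continuous fun θ => g (act θ w) :=
    hg.comp_continuous (act_cont.comp (Continuous.prodMk_left w)) fun θ => hS.act θ hw
  have h1 : ∀ s : UnitAddCircle, ∫ θ, g (act (θ + Pi.single j s) w) ∂ν n = C g w := fun s =>
    integral_add_right_eq_self (fun θ => g (act θ w)) _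
  have c1 : Continuous fun p : UnitAddCircle × (Fin n → UnitAddCircle) =>
      p.2 + (Pi.single j p.1 : Fin n → UnitAddCircle) :=
    continuous_snd.add ((continuous_single (A := fun _ : Fin n => UnitAddCircle) j).comp continuous_fst)
  have c2 : Continuous (uncurry fun (s : UnitAddCircle) (θ : Fin n → UnitAddCircle) =>
      g (act (θ + Pi.single j s) w)) := hc.comp c1
  have h2 := integral_integral_swap (μ := μ) (ν := ν n)
    (c2.integrable_of_hasCompactSupport (HasCompactSupport.of_compactSpace _))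
  simp only [h1, integral_const, probReal_univ, one_smul] at h2
  rw [h2]
  refine integral_congr_ae (ae_of_all _ fun θ => ?_)
  simp only
  rw [← act_norm θ w j, ← av_eq]
  refine integral_congr_ae (ae_of_all _ fun s => congrArg g (funext fun i => ?_))
  by_cases h : i = j
  · subst h; simp [act, z_add]; ring
  · simp [act, h]

lemma C_upd {S : Set (Fin n → ℂ)} (hS : Rh S) (ho : IsOpen S) {g : (Fin n → ℂ) → ℂ}
    (hg : DifferentiableOn ℂ g (S ∩ NZ n)) {p w : Fin n → ℂ} {ε : ℝ} (hB : ball p ε ⊆ S)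
    (hw : w ∈ ball p ε ∩ NZ n) (j : Fin n) {u : ℂ} (hu : update w j u ∈ ball p ε ∩ NZ n) :
    C g (update w j u) = C g w := by
  rw [C_av hS.nz hg.continuousOn ⟨hB hw.1, hw.2⟩ j, C_av hS.nz hg.continuousOn ⟨hB hu.1, hu.2⟩ j]
  refine integral_congr_ae (ae_of_all _ fun θ => ?_)
  have e : ∀ ζ, update (act θ (update w j u)) j ζ = update (act θ w) j ζ := fun ζ =>
    funext fun i => by by_cases h : i = j <;> simp [act, h]
  simp only [e, update_self]
  have u0 : 0 < ‖u‖ := norm_pos_iff.2 (by simpa using hu.2 j)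
  have w0 : 0 < ‖w j‖ := norm_pos_iff.2 (hw.2 j)
  have hd : ∀ ζ : ℂ, ‖ζ‖ ∈ uIcc ‖w j‖ ‖u‖ →
      DifferentiableAt ℂ (fun ζ => g (update (act θ w) j ζ)) ζ := fun ζ hζ => by
    obtain ⟨v, hv, e⟩ := (((convex_ball p ε).isPreconnected.image (fun v => ‖v j‖)
      (by fun_prop)).ordConnected.uIcc_subset (x := ‖w j‖) (y := ‖u‖) ⟨w, hw.1, rfl⟩
        ⟨_, hu.1, by simp⟩) hζ
    have p0 := pos_of_mem_ball hw.1
    have m1 : update w j (v j) ∈ S ∩ NZ n := ⟨hB (by
      rw [mem_ball, dist_pi_lt_iff p0] at *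
      intro i
      by_cases h : i = j
      · subst h; simpa using hv i
      · simpa [h] using (dist_pi_lt_iff p0).1 hw.1 i), fun i => by
      by_cases h : i = j
      · subst h
        have : 0 < ‖ζ‖ := (lt_min w0 u0).trans_le hζ.1
        simpa [← e] using this
      · simpa [h] using hw.2 i⟩
    have m2 : update (act θ w) j ζ ∈ S ∩ NZ n := hS.nz _ m1 _ fun i => by
      by_cases h : i = j
      · subst h; simpa using e.symm
      · simp [h, act_norm]
    exact (hg.differentiableAt ((ho.inter NZ_open).mem_nhds m2)).comp ζ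
      (hasDerivAt_update _ _ _).differentiableAt
  rcases le_total ‖w j‖ ‖u‖ with h | h
  · exact av_ann w0 h fun ζ a b => hd ζ (mem_uIcc_of_le a b)
  · exact (av_ann u0 h fun ζ a b => hd ζ (mem_uIcc_of_ge a b)).symm

lemma C_ball {S : Set (Fin n → ℂ)} (hS : Rh S) (ho : IsOpen S) {g : (Fin n → ℂ) → ℂ}
    (hg : DifferentiableOn ℂ g (S ∩ NZ n)) {p w w' : Fin n → ℂ} {ε : ℝ} (hB : ball p ε ⊆ S)
    (hw : w ∈ ball p ε ∩ NZ n) (hw' : w' ∈ ball p ε ∩ NZ n) : C g w' = C g w := by
  have p0 := pos_of_mem_ball hw.1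
  have m : ∀ s : Finset (Fin n), s.piecewise w' w ∈ ball p ε ∩ NZ n := fun s =>
    ⟨(dist_pi_lt_iff p0).2 fun i => by
      by_cases h : i ∈ s
      · simpa [h] using (dist_pi_lt_iff p0).1 hw'.1 i
      · simpa [h] using (dist_pi_lt_iff p0).1 hw.1 i, fun i => by
      by_cases h : i ∈ s
      · simpa [h] using hw'.2 i
      · simpa [h] using hw.2 i⟩
  have h : ∀ s : Finset (Fin n), C g (s.piecewise w' w) = C g w := fun s => by
    induction s using Finset.induction_on with
    | empty => simp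
    | insert j s _ ih =>
      have := m (insert j s)
      rw [Finset.piecewise_insert] at this ⊢
      rw [C_upd hS ho hg hB (m s) j this, ih]
  simpa using h Finset.univ

theorem cst {S : Set (Fin n → ℂ)} (hS : Rh S) (ho : IsOpen S) (hc : IsPreconnected S)
    {g : (Fin n → ℂ) → ℂ} (hg : DifferentiableOn ℂ g (S ∩ NZ n)) :
    ∃ c, ∀ w ∈ S ∩ NZ n, C g w = c := by
  rcases (S ∩ NZ n).eq_empty_or_nonempty with h | ⟨p, hp⟩
  · exact ⟨0, by simp [h]⟩
  have loc : ∀ x ε, ball x ε ⊆ S → ∀ a ∈ ball x ε, ∀ b ∈ ball x ε, ∀ c,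
      (∀ᶠ w in 𝓝 a, w ∈ NZ n → C g w = c) → ∀ᶠ w in 𝓝 b, w ∈ NZ n → C g w = c :=
    fun x ε hB a ha b hb c h => by
      obtain ⟨w0, w1, w2, w3⟩ := NZ_dense.inter_nhds_nonempty (h.and (isOpen_ball.mem_nhds ha))
      filter_upwards [isOpen_ball.mem_nhds hb] with w hw hn
      rw [C_ball hS ho hg hB ⟨w3, w1⟩ ⟨hw, hn⟩, w2 w1]
  refine ⟨C g p, fun w hw => ?_⟩
  obtain ⟨ε, e0, e1⟩ := Metric.isOpen_iff.1 ho p hp.1
  refine (hc.induction₂' (fun a b => ∀ c, (∀ᶠ w in 𝓝 a, w ∈ NZ n → C g w = c) →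
    ∀ᶠ w in 𝓝 b, w ∈ NZ n → C g w = c) (fun x hx => ?_) (fun _ _ _ _ _ _ h1 h2 c h => h2 c (h1 c h))
    hp.1 hw.1 (C g p) ?_).self_of_nhds hw.2
  · obtain ⟨δ, d0, d1⟩ := Metric.isOpen_iff.1 ho x hx
    filter_upwards [mem_nhdsWithin_of_mem_nhds (ball_mem_nhds x d0)] with y hy
    exact ⟨loc x δ d1 x (mem_ball_self d0) y hy, loc x δ d1 y hy x (mem_ball_self d0)⟩
  · filter_upwards [ball_mem_nhds p e0] with y hy hn
    exact C_ball hS ho hg e1 ⟨mem_ball_self e0, hp.2⟩ ⟨hy, hn⟩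

lemma avg_int {K : Set (Fin n → ℂ)} (hK : IsCompact K) (hR : Rh K) {g ρ : (Fin n → ℂ) → ℂ}
    (hg : ContinuousOn g K) (hρ : ContinuousOn ρ K) (hi : ∀ θ w, ρ (act θ w) = ρ w) {c : ℂ}
    (hc : ∀ w ∈ K, C g w = c) : ∫ w in K, g w * ρ w = c * ∫ w in K, ρ w := by
  have h1 : ∀ θ, ∫ w in K, g (act θ w) * ρ w = ∫ w in K, g w * ρ w := fun θ => by
    have e : act θ ⁻¹' K = K := Subset.antisymm
      (fun w hw => hR _ hw w fun j => (act_norm θ w j).symm) fun w hw => hR.act θ hw
    have h2 := (act_mp θ).restrict_preimage hK.measurableSet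
    rw [e] at h2
    have h3 := integral_map (μ := volume.restrict K) h2.measurable.aemeasurable
      (f := fun w => g w * ρ w) (by
        rw [h2.map_eq]; exact (hg.mul hρ).aestronglyMeasurable hK.measurableSet)
    rw [h2.map_eq] at h3
    simp only [h3, hi]
  have h2 := integral_integral_swap (μ := ν n) (ν := volume.restrict K)
    (f := fun θ w => g (act θ w) * ρ w) (by
      rw [← Measure.restrict_univ (μ := ν n), Measure.prod_restrict]
      exact ContinuousOn.integrableOn_compact (isCompact_univ.prod hK)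
        ((hg.comp act_cont.continuousOn fun p hp => hR.act _ hp.2).mul
          (hρ.comp continuousOn_snd fun p hp => hp.2)))
  simp only [h1, integral_const, probReal_univ, one_smul, integral_mul_const] at h2
  rw [h2, ← integral_const_mul]
  exact setIntegral_congr_fun hK.measurableSet fun w hw => by rw [← hc w hw]; rfl

lemma mono_add (γ δ : Fin n → ℤ) {w : Fin n → ℂ} (hw : w ∈ NZ n) :
    mono (γ + δ) w = mono γ w * mono δ w := by
  simp only [mono, Pi.add_apply, zpow_add₀ (hw _), Finset.prod_mul_distrib]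

lemma mono_ne (γ : Fin n → ℤ) {w : Fin n → ℂ} (hw : w ∈ NZ n) : mono γ w ≠ 0 :=
  Finset.prod_ne_zero_iff.2 fun j _ => zpow_ne_zero _ (hw j)

lemma mono_diff (γ : Fin n → ℤ) {S : Set (Fin n → ℂ)} (h : ∀ w ∈ S, ∀ j, w j ≠ 0 ∨ 0 ≤ γ j) :
    DifferentiableOn ℂ (mono γ) S := fun w hw => by
  refine DifferentiableAt.differentiableWithinAt ?_
  unfold mono
  exact (HasFDerivAt.finsetProd (g := fun j (x : Fin n → ℂ) => x j ^ γ j)
    fun j _ => ((differentiableAt_apply j w).zpow (h w hw j)).hasFDerivAt).differentiableAt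

lemma four_zpow (m : ℤ) (x : UnitAddCircle) : fourier m x = z x ^ m := by
  simp [z, AddCircle.toCircle_zsmul]

lemma mono_act (γ : Fin n → ℤ) (θ : Fin n → UnitAddCircle) (w : Fin n → ℂ) :
    mono γ (act θ w) = UnitAddTorus.mFourier γ θ * mono γ w := by
  simp only [mono, act, mul_zpow, Finset.prod_mul_distrib, ← four_zpow]
  rfl

lemma mono_norm (γ : Fin n → ℤ) (θ : Fin n → UnitAddCircle) (w : Fin n → ℂ) :
    ‖mono γ (act θ w)‖ = ‖mono γ w‖ := by
  simp [mono, act_norm]

lemma C_mono {γ : Fin n → ℤ} (h : γ ≠ 0) (w : Fin n → ℂ) : C (mono γ) w = 0 := by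
  obtain ⟨j, hj⟩ : ∃ j, γ j ≠ 0 := ne_iff.1 h
  simp only [C, mono_act, integral_mul_const]
  refine mul_eq_zero_of_left ((integral_fintype_prod_eq_prod
    (fun i (x : UnitAddCircle) => fourier (γ i) x)).trans
      (Finset.prod_eq_zero (Finset.mem_univ j) ?_)) _
  have := congrFun (fourierCoeff_fourier (T := 1) (γ j)) 0
  rw [Pi.single_apply, if_neg (fun e => hj e.symm), fourierCoeff] at this
  simpa only [neg_zero, fourier_zero, one_smul] using this

theorem const_of {S : Set (Fin n → ℂ)} (hS : Rh S) (ho : IsOpen S) (hc : IsPreconnected S)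
    {f : (Fin n → ℂ) → ℂ} (hf : DifferentiableOn ℂ f S)
    (h : ∀ β ≠ 0, ∀ w ∈ S ∩ NZ n, C (fun w => f w * mono (-β) w) w = 0) :
    ∃ c, ∀ w ∈ S, f w = c := by
  obtain ⟨c, hc⟩ := cst hS ho hc (hf.mono inter_subset_left)
  have h1 : EqOn f (fun _ => c) (S ∩ NZ n) := fun w hw => by
    let F : C(UnitAddTorus (Fin n), ℂ) := ⟨fun θ => f (act θ w), hf.continuousOn.comp_continuous
      (act_cont.comp (Continuous.prodMk_left w)) fun θ => hS.act θ hw.1⟩
    have a1 : ∀ β ≠ 0, UnitAddTorus.mFourierCoeff F β = 0 := fun β hβ => by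
      have := h β hβ w hw
      simp only [C, mono_act, ← mul_assoc, integral_mul_const] at this
      rw [← (mul_eq_zero.1 this).resolve_right (mono_ne _ hw.2)]
      exact integral_congr_ae (ae_of_all _ fun θ => mul_comm _ _)
    have a2 := (UnitAddTorus.hasSum_mFourier_series_apply_of_summable
      (hasSum_single 0 a1).summable 0).unique (hasSum_single 0 fun β hβ => by simp [a1 β hβ])
    have a3 : act 0 w = w := funext fun j => by simp [act, z]
    simp only [F, ContinuousMap.coe_mk, a3, UnitAddTorus.mFourierCoeff, neg_zero,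
      UnitAddTorus.mFourier_zero, ContinuousMap.one_apply, smul_eq_mul, one_mul, mul_one] at a2
    exact a2.trans (hc w hw)
  exact ⟨c, h1.of_subset_closure hf.continuousOn continuousOn_const inter_subset_left
    (NZ_dense.open_subset_closure_inter ho)⟩

end Pool.Agent.H28Hs
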