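import Pool.Agent.Lib.helper28.HsA

set_option autoImplicit false

namespace Pool.Agent.H28Hs

open Complex Metric Set Filter Topology MeasureTheory Function ComplexConjugate
open scoped InnerProductSpace

section
variable {H κ ι : Type*} [NormedAddCommGroup H] [InnerProductSpace ℂ H]

lemma bes {ψ : κ → H} (h : Pairwise fun a b => ⟪ψ a, ψ b⟫_ℂ = 0) (s : Finset κ) (x : H) :
    ∑ k ∈ s, ‖⟪ψ k, x⟫_ℂ‖ ^ 2 / ‖ψ k‖ ^ 2 ≤ ‖x‖ ^ 2 := by
  classical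
  have ho : Orthonormal ℂ fun k : {k // ψ k ≠ 0} => ((‖ψ k‖⁻¹ : ℝ) : ℂ) • ψ k :=
    ⟨fun k => by simp [norm_smul, k.2], fun a b e => by
      simp [inner_smul_left, inner_smul_right, h (Subtype.coe_ne_coe.2 e)]⟩
  have := ho.sum_inner_products_le x (s := s.subtype _)
  rw [Finset.sum_subtype_eq_sum_filter (f := fun k => ‖⟪((‖ψ k‖⁻¹ : ℝ) : ℂ) • ψ k, x⟫_ℂ‖ ^ 2),
    Finset.sum_filter_of_ne (p := fun k => ψ k ≠ 0) (fun k _ e e2 => e (by simp [e2]))] at this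
  refine le_of_eq_of_le (Finset.sum_congr rfl fun k _ => ?_) this
  simp [mul_pow, div_eq_mul_inv]

lemma cs {e : ι → H} (he : Orthonormal ℂ e) (l : H →L[ℂ] ℂ)
    (hs : Summable fun i => ‖l (e i)‖ ^ 2) {u : H}
    (hu : u ∈ closure (Submodule.span ℂ (range e) : Set H)) :
    ‖l u‖ ^ 2 ≤ ‖u‖ ^ 2 * ∑' i, ‖l (e i)‖ ^ 2 := by
  refine closure_minimal (t := {u | ‖l u‖ ^ 2 ≤ ‖u‖ ^ 2 * ∑' i, ‖l (e i)‖ ^ 2}) (fun u hu => ?_)
    (isClosed_le (by fun_prop) (by fun_prop)) hu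
  obtain ⟨c, rfl⟩ := Finsupp.mem_span_range_iff_exists_finsupp.1 hu
  have h1 := he.sum_inner_products_le (c.sum fun i a => a • e i) (s := c.support)
  have h2 : ∀ i, ⟪e i, c.sum fun i a => a • e i⟫_ℂ = c i := he.inner_right_finsupp c
  simp only [h2] at h1
  have h3 : ‖l (c.sum fun i a => a • e i)‖ ≤ ∑ i ∈ c.support, ‖c i‖ * ‖l (e i)‖ := by
    rw [Finsupp.sum, map_sum]
    exact norm_sum_le_of_le _ fun i _ => by simp
  exact (pow_le_pow_left₀ (norm_nonneg _) h3 2).trans ((Finset.sum_mul_sq_le_sq_mul_sq _ _ _).trans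
    (mul_le_mul h1 (hs.sum_le_tsum _ fun _ _ => by positivity) (by positivity) (by positivity)))

lemma hs_bd {e : ι → H} (he : Orthonormal ℂ e) (T : H →L[ℂ] H)
    (hs : Summable fun i => ‖T (e i)‖ ^ 2) {ψ u : κ → H}
    (h : Pairwise fun a b => ⟪ψ a, ψ b⟫_ℂ = 0) (s : Finset κ)
    (hu : ∀ k ∈ s, u k ∈ closure (Submodule.span ℂ (range e) : Set H)) :
    ∑ k ∈ s, ‖⟪ψ k, T (u k)⟫_ℂ‖ ^ 2 / ‖ψ k‖ ^ 2 / ‖u k‖ ^ 2 ≤ ∑' i, ‖T (e i)‖ ^ 2 := by
  have h1 : ∀ k, Summable fun i => ‖⟪ψ k, T (e i)⟫_ℂ‖ ^ 2 := fun k =>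
    (hs.mul_left (‖ψ k‖ ^ 2)).of_nonneg_of_le (fun _ => by positivity) fun i => by
      rw [← mul_pow]; exact pow_le_pow_left₀ (norm_nonneg _) (norm_inner_le_norm _ _) 2
  calc _ ≤ ∑ k ∈ s, ∑' i, ‖⟪ψ k, T (e i)⟫_ℂ‖ ^ 2 / ‖ψ k‖ ^ 2 := Finset.sum_le_sum fun k hk => by
        have := cs he ((innerSL ℂ (ψ k)).comp T) (h1 k) (hu k hk)
        rw [tsum_div_const, div_right_comm]
        exact div_le_div_of_nonneg_right (div_le_of_le_mul₀ (by positivity)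
          (tsum_nonneg fun _ => by positivity) (by rw [mul_comm]; exact this)) (by positivity)
    _ = ∑' i, ∑ k ∈ s, ‖⟪ψ k, T (e i)⟫_ℂ‖ ^ 2 / ‖ψ k‖ ^ 2 :=
        (Summable.tsum_finsetSum fun k _ => (h1 k).div_const _).symm
    _ ≤ _ := (summable_sum fun k _ => (h1 k).div_const _).tsum_le_tsum (fun i => bes h s _) hs

end

variable {n : ℕ} {Ω K : Set (Fin n → ℂ)}

noncomputable def q (δ : Fin n → ℤ) (w : Fin n → ℂ) : ℝ := ‖mono δ w‖ ^ 2

noncomputable def A (S : Set (Fin n → ℂ)) (δ : Fin n → ℤ) : ℝ := ∫ w in S, q δ w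

lemma q_add (γ δ : Fin n → ℤ) {w : Fin n → ℂ} (hw : w ∈ NZ n) : q (γ + δ) w = q γ w * q δ w := by
  rw [q, mono_add _ _ hw, norm_mul, mul_pow]; rfl

lemma q_nn (γ : Fin n → ℤ) (w : Fin n → ℂ) : 0 ≤ q γ w := sq_nonneg _

lemma q_pos (γ : Fin n → ℤ) {w : Fin n → ℂ} (hw : w ∈ NZ n) : 0 < q γ w :=
  pow_pos (norm_pos_iff.2 (mono_ne γ hw)) 2

lemma mono_d (γ : Fin n → ℤ) {S : Set (Fin n → ℂ)} (h : S ⊆ NZ n) : DifferentiableOn ℂ (mono γ) S :=
  mono_diff γ fun _ hw j => .inl (h hw j)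

lemma q_cont (γ : Fin n → ℤ) {S : Set (Fin n → ℂ)} (h : S ⊆ NZ n) : ContinuousOn (q γ) S :=
  (mono_d γ h).continuousOn.norm.pow 2

lemma q_act (γ : Fin n → ℤ) (θ : Fin n → UnitAddCircle) (w : Fin n → ℂ) :
    q γ (act θ w) = q γ w := by rw [q, mono_norm]; rfl

lemma mono_meas (γ : Fin n → ℤ) : Measurable (mono γ) := by
  unfold mono; fun_prop

lemma ae_NZ : ∀ᵐ w : Fin n → ℂ, w ∈ NZ n := ae_all_iff.2 fun j => Measure.ae_eval_ne _ j 0

lemma mono_neg (δ : Fin n → ℤ) {w : Fin n → ℂ} (hw : w ∈ NZ n) : mono (-δ) w * mono δ w = 1 := by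
  rw [← mono_add _ _ hw, neg_add_cancel]; simp [mono]

lemma C_congr {g g' : (Fin n → ℂ) → ℂ} (h : EqOn g g' (NZ n)) {w : Fin n → ℂ} (hw : w ∈ NZ n) :
    C g w = C g' w :=
  integral_congr_ae (ae_of_all _ fun θ => h fun j =>
    norm_ne_zero_iff.1 (by rw [act_norm]; exact norm_ne_zero_iff.2 (hw j)))

lemma key (hK : IsCompact K) (hR : Rh K) (hN : K ⊆ NZ n) {h : (Fin n → ℂ) → ℂ}
    (hh : ContinuousOn h K) (δ : Fin n → ℤ) {ρ : (Fin n → ℂ) → ℝ} (hρ : ContinuousOn ρ K)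
    (hi : ∀ θ w, ρ (act θ w) = ρ w) {c : ℂ} (hc : ∀ w ∈ K, C (fun w => h w * mono (-δ) w) w = c) :
    ∫ w in K, conj (mono δ w * ρ w) * h w = c * (∫ w in K, q δ w * ρ w : ℝ) := by
  rw [← integral_complex_ofReal, ← avg_int hK hR (hh.mul (mono_d _ hN).continuousOn)
    (ρ := fun w => ((q δ w * ρ w : ℝ) : ℂ)) (continuous_ofReal.comp_continuousOn
      ((q_cont δ hN).mul hρ)) (fun θ w => by rw [q_act, hi]) hc]
  refine setIntegral_congr_fun hK.measurableSet fun w hw => ?_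
  have := mono_neg δ (hN hw)
  simp only [q, map_mul, conj_ofReal, ofReal_mul, ofReal_pow, ← conj_mul', Pi.mul_apply]
  linear_combination (-(conj (mono δ w) * ρ w * h w)) * this

lemma ex_ind (hK : IsCompact K) (hs : K ⊆ Ω) {φ : (Fin n → ℂ) → ℂ} (hφ : ContinuousOn φ K) :
    ∃ Ψ : Lp ℂ 2 (volume.restrict Ω), (∀ᵐ w ∂volume.restrict Ω, w ∈ K → Ψ w = φ w) ∧
      ∀ (g : Lp ℂ 2 (volume.restrict Ω)) (h : (Fin n → ℂ) → ℂ),
        (∀ᵐ w ∂volume.restrict Ω, w ∈ K → g w = h w) → ⟪Ψ, g⟫_ℂ = ∫ w in K, conj (φ w) * h w := by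
  have m := hK.measurableSet
  have e : (volume.restrict Ω).restrict K = volume.restrict K := Measure.restrict_restrict_of_subset hs
  have h1 : MemLp (K.indicator φ) 2 (volume.restrict Ω) := by
    rw [memLp_indicator_iff_restrict m, e, memLp_two_iff_integrable_sq_norm
      (hφ.aestronglyMeasurable m)]
    exact (hφ.norm.pow 2).integrableOn_compact hK
  refine ⟨h1.toLp _, ?_, fun g h hg => ?_⟩
  · filter_upwards [h1.coeFn_toLp] with w hw hk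
    rw [hw, indicator_of_mem hk]
  · rw [L2.inner_def, ← e, ← integral_indicator m]
    refine integral_congr_ae ?_
    filter_upwards [h1.coeFn_toLp, hg] with w hw hk
    by_cases a : w ∈ K
    · simp [hw, a, hk a, mul_comm]
    · simp [hw, a]

lemma A_pos {S U : Set (Fin n → ℂ)} (ho : IsOpen U) (hn : U.Nonempty) (hU : U ⊆ S)
    {δ : Fin n → ℤ} (hi : IntegrableOn (q δ) S) : 0 < A S δ :=
  (setIntegral_pos_iff_support_of_nonneg_ae (ae_of_all _ (q_nn δ)) hi).2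
    (((ho.inter NZ_open).measure_pos volume (NZ_dense.inter_open_nonempty U ho hn)).trans_le
      (measure_mono fun _ hw => ⟨(q_pos δ hw.2).ne', hU hw.1⟩))

lemma hol_of (ho : IsOpen Ω) {γ : Fin n → ℤ} (hi : IntegrableOn (q γ) Ω) :
    DifferentiableOn ℂ (mono γ) Ω := mono_diff γ fun p hp j => by
  by_contra! h
  obtain ⟨ε, e0, e1⟩ := Metric.isOpen_iff.1 ho p hp
  have h1 := A_pos isOpen_ball (nonempty_ball.2 e0) Subset.rfl (hi.mono_set e1)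
  have h2 : q γ = fun w => ∏ i, (‖w i‖ ^ γ i) ^ 2 := funext fun w => by
    simp [q, mono, Finset.prod_pow]
  rw [A, h2, ball_pi _ e0, volume_pi, Measure.restrict_pi_pi,
    integral_fintype_prod_eq_prod fun i (ζ : ℂ) => (‖ζ‖ ^ γ i) ^ 2] at h1
  have h3 := Integrable.of_integral_ne_zero (Finset.prod_ne_zero_iff.1 h1.ne' j (Finset.mem_univ j))
  rw [h.1] at h3
  have h4 := ((integrableOn_fun_norm_addHaar volume (f := fun y => (y ^ γ j) ^ 2)).1 h3).congr_fun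
    (g := fun y => y ^ ((1 + γ j * 2 : ℤ) : ℝ)) (fun y hy => by
      simp only [Real.rpow_intCast, zpow_add₀ hy.1.ne', zpow_mul]
      simp [zpow_ofNat]) measurableSet_Ioo
  have h5 : (-1 : ℤ) < 1 + γ j * 2 := by
    exact_mod_cast (intervalIntegral.integrableOn_Ioo_rpow_iff e0).1 h4
  omega

def Ex (U : Set (Fin n → ℂ)) (m : ℕ) : Set (Fin n → ℂ) :=
  {w | ∀ v : Fin n → ℂ, (∀ j, |‖v j‖ - ‖w j‖| < 1 / (m + 1 : ℝ)) → v ∈ U}

lemma Ex_sub (U : Set (Fin n → ℂ)) (m : ℕ) : Ex U m ⊆ U := fun w hw =>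
  hw w fun j => by simp; positivity

lemma Ex_rh (U : Set (Fin n → ℂ)) (m : ℕ) : Rh (Ex U m) := fun _ hw _ e v hv =>
  hw v fun j => e j ▸ hv j

lemma Ex_cpt {U : Set (Fin n → ℂ)} (hb : Bornology.IsBounded U) (m : ℕ) : IsCompact (Ex U m) := by
  refine isCompact_of_isClosed_isBounded ?_ (hb.subset (Ex_sub U m))
  rw [Ex, ofPred_forall]
  refine isClosed_iInter fun v => isClosed_imp ?_ isClosed_const
  rw [ofPred_forall]
  exact isOpen_iInter_of_finite fun j => isOpen_lt (by fun_prop) continuous_const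

lemma Ex_mono (U : Set (Fin n → ℂ)) : Monotone (Ex U) := fun _ _ h _ hw v hv =>
  hw v fun j => (hv j).trans_le (Nat.one_div_le_one_div h)

lemma Ex_ev (hR : Rh Ω) (ho : IsOpen Ω) {p : Fin n → ℂ} (hp : p ∈ Ω ∩ NZ n) :
    ∃ ε > 0, ∀ᶠ m in atTop, ball p ε ⊆ Ex (Ω ∩ NZ n) m := by
  obtain ⟨ε, e0, e1⟩ := Metric.isOpen_iff.1 (ho.inter NZ_open) p hp
  refine ⟨ε / 2, half_pos e0, ?_⟩
  filter_upwards [(tendsto_one_div_add_atTop_nhds_zero_nat (𝕜 := ℝ)).eventually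
    (gt_mem_nhds (half_pos e0))] with m hm w hw v hv
  have w0 := fun j => norm_pos_iff.2 ((e1 (ball_subset_ball (half_le_self e0.le) hw)).2 j)
  refine hR.nz (fun j => ((‖v j‖ / ‖w j‖ : ℝ) : ℂ) * w j) (e1 ?_) v fun j => ?_
  · refine lt_of_le_of_lt (dist_triangle _ w p) (by
      have : dist (fun j => ((‖v j‖ / ‖w j‖ : ℝ) : ℂ) * w j) w < ε / 2 :=
        (dist_pi_lt_iff (half_pos e0)).2 fun j => lt_of_eq_of_lt (by
          have := (w0 j).ne'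
          rw [dist_eq_norm, ← sub_one_mul, norm_mul, ← ofReal_one, ← ofReal_sub, norm_real,
            ← abs_of_pos (w0 j), Real.norm_eq_abs, ← abs_mul, abs_of_pos (w0 j)]
          congr 1; field_simp) ((hv j).trans hm)
      linarith [mem_ball.1 hw])
  · have := (w0 j).ne'
    rw [norm_mul, norm_real, Real.norm_of_nonneg (by positivity)]
    field_simp

end Pool.Agent.H28Hs
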