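import Pool.Agent.Lib.helper28.HsB

set_option autoImplicit false

namespace Pool.Agent.H28Hs

open Complex Metric Set Filter Topology MeasureTheory Function ComplexConjugate
open scoped InnerProductSpace

variable {n : ℕ} {Ω K : Set (Fin n → ℂ)}

/-- `g` agrees almost everywhere on `Ω` with a holomorphic function on `Ω` -/
def Hol (Ω : Set (Fin n → ℂ)) (g : (Fin n → ℂ) → ℂ) : Prop :=
  ∃ h, DifferentiableOn ℂ h Ω ∧ g =ᵐ[volume.restrict Ω] h

lemma J (hK : IsCompact K) (hN : K ⊆ NZ n) (δ β : Fin n → ℤ) (l : ℝ) :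
    ∫ w in K, q δ w * (q β w - l) = A K (δ + β) - l * A K δ := by
  rw [A, A, ← integral_const_mul, ← integral_sub ((q_cont _ hN).integrableOn_compact hK)
    (((q_cont _ hN).integrableOn_compact hK).const_mul l)]
  exact setIntegral_congr_fun hK.measurableSet fun w hw => by
    simp only [q_add _ _ (hN hw)]; ring

variable {f : (Fin n → ℂ) → ℂ}
  {T : Lp ℂ 2 (volume.restrict Ω) →L[ℂ] Lp ℂ 2 (volume.restrict Ω)}

lemma dual (hf : DifferentiableOn ℂ f Ω)
    (hT : ∀ g : Lp ℂ 2 (volume.restrict Ω), Hol Ω g → g ∈ closure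
      {g : Lp ℂ 2 (volume.restrict Ω) | Hol Ω g ∧ Hol Ω fun w => conj (f w) * g w - T g w})
    (hK : IsCompact K) (hs : K ⊆ Ω) {φ : (Fin n → ℂ) → ℂ} (hφ : ContinuousOn φ K)
    {Ψ : Lp ℂ 2 (volume.restrict Ω)} (hΨ : ∀ (g : Lp ℂ 2 (volume.restrict Ω)) (h : (Fin n → ℂ) → ℂ),
      (∀ᵐ w ∂volume.restrict Ω, w ∈ K → g w = h w) → ⟪Ψ, g⟫_ℂ = ∫ w in K, conj (φ w) * h w)
    (ho : ∀ h, DifferentiableOn ℂ h Ω → ∫ w in K, conj (φ w) * h w = 0)
    {g : Lp ℂ 2 (volume.restrict Ω)} {h : (Fin n → ℂ) → ℂ} (hh : DifferentiableOn ℂ h Ω)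
    (e : g =ᵐ[volume.restrict Ω] h) : ⟪Ψ, T g⟫_ℂ = ∫ w in K, conj (φ w * f w) * h w := by
  have cf := hf.continuousOn.mono hs
  obtain ⟨Φ, -, hΦ⟩ := ex_ind (φ := fun w => φ w * f w) hK hs (hφ.mul cf)
  rw [← hΦ g h (e.mono fun _ a _ => a)]
  refine closure_minimal (t := {g | ⟪Ψ, T g⟫_ℂ = ⟪Φ, g⟫_ℂ}) ?_
    (isClosed_eq (by fun_prop) (by fun_prop)) (hT g ⟨h, hh, e⟩)
  rintro g ⟨⟨a, a1, a2⟩, b, b1, b2⟩
  have c1 := continuous_conj.comp_continuousOn hφ
  rw [mem_ofPred_eq, hΦ g a (a2.mono fun _ a _ => a), hΨ _ (fun w => conj (f w) * a w - b w) (by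
    filter_upwards [a2, b2] with w h1 h2 _
    rw [← h1, ← h2]; ring), ← sub_zero (∫ w in K, conj (φ w * f w) * a w), ← ho b b1,
    ← integral_sub (f := fun w => conj (φ w * f w) * a w) (g := fun w => conj (φ w) * b w)
      (((continuous_conj.comp_continuousOn (hφ.mul cf)).mul
      (a1.continuousOn.mono hs)).integrableOn_compact hK)
      ((c1.mul (b1.continuousOn.mono hs)).integrableOn_compact hK)]
  exact integral_congr_ae (ae_of_all _ fun w => by simp; ring)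

lemma in_self {H : Type*} [NormedAddCommGroup H] [InnerProductSpace ℂ H] (h : H) :
    ⟪h, h⟫_ℂ = ((‖h‖ ^ 2 : ℝ) : ℂ) := by
  rw [inner_self_eq_norm_sq_to_K]; simp

lemma ex_u (γ : Fin n → ℤ) : ∃ u : Lp ℂ 2 (volume.restrict Ω),
    IntegrableOn (q γ) Ω → u =ᵐ[volume.restrict Ω] mono γ ∧ ‖u‖ ^ 2 = A Ω γ := by
  by_cases h : IntegrableOn (q γ) Ω
  · have h1 := (memLp_two_iff_integrable_sq_norm (mono_meas γ).aestronglyMeasurable).2 h
    refine ⟨h1.toLp _, fun _ => ⟨h1.coeFn_toLp, ?_⟩⟩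
    apply ofReal_injective
    rw [← in_self, L2.inner_def, A, ← integral_complex_ofReal]
    refine integral_congr_ae ?_
    filter_upwards [h1.coeFn_toLp] with w hw
    rw [hw, in_self, q]
  · exact ⟨0, fun a => (h a).elim⟩

variable {ι κ : Type*} {e : ι → Lp ℂ 2 (volume.restrict Ω)}

lemma mainK (ho : IsOpen Ω) (hc : IsPreconnected Ω) (hR : Rh Ω) (hf : DifferentiableOn ℂ f Ω)
    (hT : ∀ g : Lp ℂ 2 (volume.restrict Ω), Hol Ω g → g ∈ closure
      {g : Lp ℂ 2 (volume.restrict Ω) | Hol Ω g ∧ Hol Ω fun w => conj (f w) * g w - T g w})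
    (he : Orthonormal ℂ e) (hS : Summable fun i => ‖T (e i)‖ ^ 2)
    (hsp : ∀ g : Lp ℂ 2 (volume.restrict Ω), Hol Ω g →
      g ∈ closure (Submodule.span ℂ (range e) : Set (Lp ℂ 2 (volume.restrict Ω))))
    (hK : IsCompact K) (hKR : Rh K) (hs : K ⊆ Ω ∩ NZ n) (hpos : ∀ δ, 0 < A K δ)
    {β : Fin n → ℤ} {c : ℂ} (hb : ∀ w ∈ Ω ∩ NZ n, C (fun w => f w * mono (-β) w) w = c)
    {γ : κ → Fin n → ℤ} (hγ : Injective γ) (s : Finset κ) (hi : ∀ k ∈ s, IntegrableOn (q (γ k)) Ω) :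
    ∑ k ∈ s, ‖c‖ ^ 2 * (A K (γ k + β) - A K (γ k) * (A K (γ k - β))⁻¹ * A K (γ k)) / A Ω (γ k)
      ≤ ∑' i, ‖T (e i)‖ ^ 2 := by
  have hN : K ⊆ NZ n := fun _ a => (hs a).2
  have hO : K ⊆ Ω := fun _ a => (hs a).1
  set l : κ → ℝ := fun k => A K (γ k) * (A K (γ k - β))⁻¹ with hl
  have cρ : ∀ k, ContinuousOn (fun w => q β w - l k) K := fun k =>
    (q_cont β hN).sub continuousOn_const
  have cφ : ∀ k, ContinuousOn (fun w => mono (γ k - β) w * (q β w - l k : ℝ)) K := fun k =>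
    (mono_d _ hN).continuousOn.mul (continuous_ofReal.comp_continuousOn (cρ k))
  choose Ψ Ψ1 Ψ2 using fun k => ex_ind hK hO (cφ k)
  choose u hu using fun k => ex_u (Ω := Ω) (γ k)
  have I1 : ∀ k, ∫ w in K, q (γ k - β) w * (q β w - l k) = 0 := fun k => by
    have := (hpos (γ k - β)).ne'
    rw [J hK hN, sub_add_cancel, hl]; field_simp; ring
  have I3 : ∀ a b d, (∀ w ∈ K, C (mono (γ b - γ a)) w = d) → ⟪Ψ a, Ψ b⟫_ℂ
      = d * (∫ w in K, q (γ a - β) w * ((q β w - l a) * (q β w - l b)) : ℝ) := fun a b d hd => by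
    rw [Ψ2 a _ _ (Ψ1 b), ← key hK hKR hN (mono_d (γ b - β) hN).continuousOn (γ a - β)
      (ρ := fun w => (q β w - l a) * (q β w - l b))
      ((cρ a).mul (cρ b)) (fun θ w => by simp only [q_act]) fun w hw =>
        (C_congr (fun v hv => by rw [← mono_add _ _ hv]; congr 1; ring) (hN hw)).trans (hd w hw)]
    exact integral_congr_ae (ae_of_all _ fun w => by simp; ring)
  refine le_of_eq_of_le (Finset.sum_congr rfl fun k hk => ?_) (hs_bd he T hS (ψ := Ψ) (u := u)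
    (fun a b h => (I3 a b 0 fun w _ => C_mono (sub_ne_zero.2 (hγ.ne h.symm)) w).trans
      (zero_mul _)) s
    fun k hk => hsp _ ⟨_, hol_of ho (hi k hk), (hu k (hi k hk)).1⟩)
  have e1 : ‖Ψ k‖ ^ 2 = A K (γ k + β) - l k * A K (γ k) := by
    apply ofReal_injective
    rw [← in_self, I3 k k 1 fun w _ => by simp [C, mono],
      one_mul, ← J hK hN, ← sub_zero (∫ w in K, q (γ k) w * _), ← mul_zero (l k), ← I1 k,
      ← integral_const_mul, ← integral_sub (f := fun w => q (γ k) w * (q β w - l k))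
        (g := fun w => l k * (q (γ k - β) w * (q β w - l k)))
        (((q_cont _ hN).mul (cρ k)).integrableOn_compact hK) ((((q_cont _ hN).mul (cρ k)).integrableOn_compact hK).const_mul _)]
    congr 1
    refine setIntegral_congr_fun hK.measurableSet fun w hw => ?_
    have := q_add (γ k - β) β (hN hw)
    rw [sub_add_cancel] at this
    simp only [this]; ring
  have e2 : ⟪Ψ k, T (u k)⟫_ℂ = conj (c * (A K (γ k + β) - l k * A K (γ k) : ℝ)) := by
    rw [dual hf hT hK hO (cφ k) (Ψ2 k) (fun h hh => by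
      obtain ⟨d, hd⟩ := cst hR ho hc (g := fun w => h w * mono (-(γ k - β)) w)
        ((hh.mono inter_subset_left).mul (mono_d _ inter_subset_right))
      rw [key hK hKR hN (hh.continuousOn.mono hO) _ (cρ k) (fun θ w => by rw [q_act])
        fun w hw => hd w (hs hw), I1, ofReal_zero, mul_zero]) (hol_of ho (hi k hk))
      (hu k (hi k hk)).1, ← J hK hN, ← key hK hKR hN (h := fun w => f w * mono (γ k - β) w)
      ((hf.continuousOn.mono hO).mul (mono_d _ hN).continuousOn) (γ k) (cρ k)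
      (fun θ w => by rw [q_act]) fun w hw => (C_congr (fun v hv => by
        simp only [mul_assoc, ← mono_add _ _ hv]; congr 2; ring) (hN hw)).trans (hb w (hs hw)),
      ← integral_conj]
    exact integral_congr_ae (ae_of_all _ fun w => by simp; ring)
  rw [e2, (hu k (hi k hk)).2, RCLike.norm_conj, norm_mul, mul_pow, norm_real, Real.norm_eq_abs,
    sq_abs, e1, sq (_ - _), mul_div_assoc _ (_ * _), mul_self_div_self]

lemma cover (ho : IsOpen Ω) (hR : Rh Ω) (hb : Bornology.IsBounded Ω) :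
    AECover (volume.restrict Ω) atTop (Ex (Ω ∩ NZ n)) :=
  ⟨by
    filter_upwards [ae_restrict_mem ho.measurableSet, ae_restrict_of_ae ae_NZ] with w h1 h2
    obtain ⟨ε, e0, e1⟩ := Ex_ev hR ho ⟨h1, h2⟩
    exact e1.mono fun m h => h (mem_ball_self e0),
  fun m => (Ex_cpt (hb.subset inter_subset_left) m).measurableSet⟩

lemma Ex_int (hb : Bornology.IsBounded Ω) (δ : Fin n → ℤ) (m : ℕ) :
    IntegrableOn (q δ) (Ex (Ω ∩ NZ n) m) :=
  (q_cont δ ((Ex_sub _ m).trans inter_subset_right)).integrableOn_compact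
    (Ex_cpt (hb.subset inter_subset_left) m)

lemma Ex_res (m : ℕ) : (volume.restrict Ω).restrict (Ex (Ω ∩ NZ n) m) = volume.restrict
    (Ex (Ω ∩ NZ n) m) := Measure.restrict_restrict_of_subset ((Ex_sub _ m).trans inter_subset_left)

lemma A_lim (ho : IsOpen Ω) (hR : Rh Ω) (hb : Bornology.IsBounded Ω) {δ : Fin n → ℤ}
    (hi : IntegrableOn (q δ) Ω) : Tendsto (fun m => A (Ex (Ω ∩ NZ n) m) δ) atTop (𝓝 (A Ω δ)) := by
  simpa only [Ex_res, A] using (cover ho hR hb).integral_tendsto_of_countably_generated hi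

lemma A_int (ho : IsOpen Ω) (hR : Rh Ω) (hb : Bornology.IsBounded Ω) {δ : Fin n → ℤ} {M : ℝ}
    (h : ∀ᶠ m in atTop, A (Ex (Ω ∩ NZ n) m) δ ≤ M) : IntegrableOn (q δ) Ω :=
  (cover ho hR hb).integrable_of_integral_bounded_of_nonneg_ae M
    (fun m => by rw [IntegrableOn, Ex_res]; exact Ex_int hb δ m) (ae_of_all _ (q_nn δ))
    (by simpa only [Ex_res, A] using h)

lemma A_inv (ho : IsOpen Ω) (hn : Ω.Nonempty) (hR : Rh Ω) (hb : Bornology.IsBounded Ω)
    (δ : Fin n → ℤ) : Tendsto (fun m => (A (Ex (Ω ∩ NZ n) m) δ)⁻¹) atTop (𝓝 (A Ω δ)⁻¹) := by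
  by_cases hi : IntegrableOn (q δ) Ω
  · exact (A_lim ho hR hb hi).inv₀ (A_pos ho hn Subset.rfl hi).ne'
  · rw [show A Ω δ = 0 from integral_undef hi, inv_zero]
    refine Tendsto.inv_tendsto_atTop (tendsto_atTop_atTop_of_monotone' (fun a b h =>
      setIntegral_mono_set (Ex_int hb δ b) (ae_of_all _ (q_nn δ)) (Ex_mono _ h).eventuallyLE) ?_)
    rintro ⟨M, hM⟩
    exact hi (A_int ho hR hb (.of_forall fun m => hM ⟨m, rfl⟩))

lemma grow (ho : IsOpen Ω) {δ σ : Fin n → ℤ} {p : Fin n → ℂ} (hp : p ∈ Ω ∩ NZ n) {t : ℝ}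
    (t0 : 0 < t) (ht : t < q σ p) (hi : ∀ k : ℕ, IntegrableOn (q (δ + k • σ)) Ω) :
    ∃ k : ℕ, t * A Ω (δ + k • σ) < A Ω (δ + (k + 1) • σ) := by
  by_contra! h
  have h1 : ∀ k : ℕ, A Ω (δ + k • σ) ≤ t ^ k * A Ω δ := fun k => by
    induction k with
    | zero => simp
    | succ k ih => exact (h k).trans (by rw [pow_succ', mul_assoc]; gcongr)
  obtain ⟨s, s1, s2⟩ := exists_between ht
  set U := (Ω ∩ NZ n) ∩ q σ ⁻¹' Ioi s
  have hU : IsOpen U := (q_cont σ inter_subset_right).isOpen_inter_preimage (ho.inter NZ_open)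
    isOpen_Ioi
  have sU : U ⊆ Ω := fun _ a => a.1.1
  have i0 : IntegrableOn (q δ) U := by simpa using (hi 0).mono_set sU
  have h2 := A_pos hU ⟨p, hp, s2⟩ Subset.rfl i0
  have h3 : ∀ k : ℕ, s ^ k * A U δ ≤ A Ω (δ + k • σ) := fun k => by
    refine le_trans ?_ (setIntegral_mono_set (hi k) (ae_of_all _ (q_nn _)) sU.eventuallyLE)
    rw [A, ← integral_const_mul]
    refine setIntegral_mono_on (i0.const_mul _) ((hi k).mono_set sU) hU.measurableSet fun w hw => ?_
    induction k with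
    | zero => simp
    | succ k ih =>
      rw [succ_nsmul, ← add_assoc, q_add _ _ hw.1.2, pow_succ, mul_right_comm]
      exact mul_le_mul ih hw.2.le (t0.trans s1).le (q_nn _ _)
  obtain ⟨k, hk⟩ := pow_unbounded_of_one_lt (A Ω δ / A U δ) ((one_lt_div t0).2 s1)
  rw [div_pow, div_lt_div_iff₀ h2 (by positivity)] at hk
  linarith [h1 k, h3 k]

lemma two_pts (ho : IsOpen Ω) (hn : Ω.Nonempty) {β : Fin n → ℤ} {j : Fin n} (hj : β j ≠ 0) :
    ∃ p ∈ Ω ∩ NZ n, ∃ p' ∈ Ω ∩ NZ n, q β p' < q β p := by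
  obtain ⟨p, hp⟩ := NZ_dense.inter_open_nonempty Ω ho hn
  have h1 : ∀ᶠ s : ℝ in 𝓝 1, (fun i => (if i = j then (s : ℂ) else 1) * p i) ∈ Ω ∩ NZ n := by
    refine ContinuousAt.eventually_mem (f := fun (s : ℝ) i => (if i = j then (s : ℂ) else 1) * p i)
      (Continuous.continuousAt (continuous_pi fun i => ?_)) ((ho.inter NZ_open).mem_nhds (by simpa using hp))
    split_ifs <;> fun_prop
  obtain ⟨s, s1, s2⟩ := ((h1.filter_mono nhdsWithin_le_nhds).and
    (self_mem_nhdsWithin (s := Ioi (1 : ℝ)))).exists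
  have s3 : (1 : ℝ) < s := s2
  have e : q β (fun i => (if i = j then (s : ℂ) else 1) * p i) = (s ^ β j) ^ 2 * q β p := by
    simp only [q, mono, mul_zpow, Finset.prod_mul_distrib, norm_mul, mul_pow]
    rw [Finset.prod_eq_single j (by simp +contextual) (by simp)]
    simp [abs_of_pos (one_pos.trans s3)]
  have : q β (fun i => (if i = j then (s : ℂ) else 1) * p i) ≠ q β p := by
    rw [e, Ne, mul_eq_right₀ (q_pos β hp.2).ne', pow_eq_one_iff_of_nonneg (by positivity) two_ne_zero,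
      zpow_eq_one_iff_right₀ (by positivity) s3.ne']
    exact hj
  rcases this.lt_or_gt with h | h
  · exact ⟨_, hp, _, s1, h⟩
  · exact ⟨_, s1, _, hp, h⟩

lemma int_single (hb : Bornology.IsBounded Ω) (i : Fin n) (m : ℕ) :
    IntegrableOn (q (Pi.single i m)) Ω := by
  have h : ContinuousOn (q (Pi.single i m)) (closure Ω) := (mono_diff (S := closure Ω) _
    fun _ _ l => .inr (by by_cases h : l = i <;> simp [h])).continuousOn.norm.pow 2
  exact (h.integrableOn_compact hb.isCompact_closure).mono_set subset_closure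

lemma down (ho : IsOpen Ω) (ne : Ω.Nonempty) {β α : Fin n → ℤ} {p : Fin n → ℂ} (hp : p ∈ Ω ∩ NZ n)
    {b : ℝ} (b1 : q β p < b) (h : IntegrableOn (q α) Ω) : ∃ k : ℕ, IntegrableOn (q (α + k • -β)) Ω ∧
      A Ω (α + k • -β) / A Ω (α + k • -β - β) < b := by
  have q0 := q_pos β hp.2
  have b0 := q0.trans b1
  by_contra! h1
  have e1 : ∀ k : ℕ, α + (k + 1) • -β = α + k • -β - β := fun k => by rw [succ_nsmul]; abel
  have h2 : ∀ k : ℕ, IntegrableOn (q (α + k • -β)) Ω := fun k => by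
    induction k with
    | zero => simpa using h
    | succ k ih =>
      by_contra h3
      have := h1 k ih
      rw [← e1, show A Ω (α + (k + 1) • -β) = 0 from integral_undef h3, div_zero] at this
      linarith
  obtain ⟨k, hk⟩ := grow ho hp (inv_pos.2 b0) (σ := -β) (by
    have := q_add (-β) β hp.2
    rw [neg_add_cancel, show q 0 p = 1 by simp [q, mono]] at this
    rw [eq_inv_of_mul_eq_one_left this.symm]
    exact inv_strictAnti₀ q0 b1) h2
  have := h1 k (h2 k)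
  rw [← e1, le_div_iff₀ (A_pos ho ne Subset.rfl (h2 (k + 1)))] at this
  rw [inv_mul_lt_iff₀ b0] at hk
  linarith

end Pool.Agent.H28Hs
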