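import Pool.Agent.Lib.helper28.HsC

set_option autoImplicit false

namespace Pool.Agent.H28Hs

open Complex Metric Set Filter Topology MeasureTheory Function ComplexConjugate
open scoped InnerProductSpace

variable {n : ℕ} {Ω : Set (Fin n → ℂ)} {f : (Fin n → ℂ) → ℂ}
  {T : Lp ℂ 2 (volume.restrict Ω) →L[ℂ] Lp ℂ 2 (volume.restrict Ω)}
  {ι : Type*} {e : ι → Lp ℂ 2 (volume.restrict Ω)}

lemma lines (hn : 2 ≤ n) (ho : IsOpen Ω) (ne : Ω.Nonempty) (hb : Bornology.IsBounded Ω)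
    {β : Fin n → ℤ} (hβ : β ≠ 0) (st : ∀ γ, IntegrableOn (q γ) Ω → IntegrableOn (q (γ + β)) Ω)
    {S : ℝ} (M : ∀ γ : ℕ → ℕ → Fin n → ℤ, (∀ x y x' y', γ x y = γ x' y' → x = x' ∧ y = y') →
      (∀ x y, IntegrableOn (q (γ x y)) Ω) → ∀ (m : ℕ) (N : ℕ → ℕ), ∑ x ∈ Finset.range m,
        ∑ y ∈ Finset.range (N x), (A Ω (γ x y + β) / A Ω (γ x y) - A Ω (γ x y) / A Ω (γ x y - β))
          ≤ S) : False := by
  obtain ⟨j, hj⟩ : ∃ j, β j ≠ 0 := ne_iff.1 hβ
  obtain ⟨p, hp, p', hp', pp⟩ := two_pts ho ne hj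
  have up : ∀ γ, IntegrableOn (q γ) Ω → ∀ k : ℕ, IntegrableOn (q (γ + k • β)) Ω := fun γ h k => by
    induction k with
    | zero => simpa using h
    | succ k ih => rw [succ_nsmul, ← add_assoc]; exact st _ ih
  obtain ⟨b, b1, b2⟩ := exists_between pp
  obtain ⟨a, a1, a2⟩ := exists_between b2
  have b0 := (q_pos β hp'.2).trans b1
  haveI := Fin.nontrivial_iff_two_le.2 hn
  obtain ⟨i, hi⟩ := exists_ne j
  choose k k1 k2 using fun m : ℕ => down ho ne hp' b1 (int_single hb i m)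
  obtain ⟨d, hd⟩ : ∃ d : ℕ → Fin n → ℤ, ∀ m : ℕ, Pi.single i (m : ℤ) + k m • -β = d m :=
    ⟨_, fun _ => rfl⟩
  simp only [hd] at k1 k2
  choose N hN using fun m => grow ho hp (b0.trans a1) a2 (up _ (k1 m))
  obtain ⟨m0, hm⟩ := exists_nat_gt (S / (a - b))
  have h0 : ∀ x y x' y' : ℕ, d x + y • β = d x' + y' • β → x = x' ∧ y = y' := fun x y x' y' h => by
    rw [← hd, ← hd] at h
    have h1 := congrFun h j
    have h2 := congrFun h i
    simp only [Pi.add_apply, Pi.smul_apply, Pi.neg_apply, Pi.single_eq_same,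
      Pi.single_eq_of_ne hi.symm] at h1 h2
    simp only [nsmul_eq_mul] at h1 h2
    have h3 : (y : ℤ) - k x = y' - k x' := mul_right_cancel₀ hj (by linear_combination h1)
    obtain rfl : x = x' := by
      have : (x : ℤ) = x' := by linear_combination h2 - β i * h3
      exact_mod_cast this
    omega
  have h1 := M (fun x y => d x + y • β) h0 (fun x y => up _ (k1 x) y) m0 fun m => N m + 1
  rw [div_lt_iff₀ (sub_pos.2 a1), ← nsmul_eq_mul] at hm
  refine hm.not_ge (le_trans ?_ h1)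
  conv_lhs => rw [← Finset.card_range m0]
  refine Finset.card_nsmul_le_sum _ _ _ fun m _ => ?_
  have h3 := hN m
  have h4 := k2 m
  rw [← lt_div_iff₀ (A_pos ho ne Subset.rfl (up _ (k1 m) _))] at h3
  generalize d m = δ at h3 h4 ⊢
  have h2 := Finset.sum_range_sub (fun y => A Ω (δ + y • β) / A Ω (δ + y • β - β)) (N m + 1)
  have e1 : ∀ y : ℕ, δ + (y + 1) • β = δ + y • β + β := fun y => by rw [succ_nsmul, add_assoc]
  simp only [e1, add_sub_cancel_right, zero_smul, add_zero] at h2 h3 ⊢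
  linarith

theorem coef_zero (hn : 2 ≤ n) (ho : IsOpen Ω) (hc : IsConnected Ω) (hR : Rh Ω)
    (hb : Bornology.IsBounded Ω) (hf : DifferentiableOn ℂ f Ω)
    (hT : ∀ g : Lp ℂ 2 (volume.restrict Ω), Hol Ω g → g ∈ closure
      {g : Lp ℂ 2 (volume.restrict Ω) | Hol Ω g ∧ Hol Ω fun w => conj (f w) * g w - T g w})
    (he : Orthonormal ℂ e) (hS : Summable fun i => ‖T (e i)‖ ^ 2)
    (hsp : ∀ g : Lp ℂ 2 (volume.restrict Ω), Hol Ω g →
      g ∈ closure (Submodule.span ℂ (range e) : Set (Lp ℂ 2 (volume.restrict Ω))))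
    {β : Fin n → ℤ} (hβ : β ≠ 0) {c : ℂ}
    (hcb : ∀ w ∈ Ω ∩ NZ n, C (fun w => f w * mono (-β) w) w = c) : c = 0 := by
  by_contra c0
  have c2 : 0 < ‖c‖ ^ 2 := by positivity
  have ne := hc.nonempty
  obtain ⟨p, hp⟩ := NZ_dense.inter_open_nonempty Ω ho ne
  have ev : ∀ᶠ m in atTop, ∀ δ, 0 < A (Ex (Ω ∩ NZ n) m) δ := by
    obtain ⟨ε, e0, e1⟩ := Ex_ev hR ho hp
    exact e1.mono fun m h δ => A_pos isOpen_ball (nonempty_ball.2 e0) h (Ex_int hb δ m)
  have pos := fun δ (h : IntegrableOn (q δ) Ω volume) => A_pos ho ne Subset.rfl h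
  have L := fun γ (h : IntegrableOn (q γ) Ω volume) =>
    ((A_lim ho hR hb h).mul (A_inv ho ne hR hb (γ - β))).mul (A_lim ho hR hb h)
  have st : ∀ γ, IntegrableOn (q γ) Ω → IntegrableOn (q (γ + β)) Ω := fun γ h => by
    refine A_int ho hR hb (M := (∑' i, ‖T (e i)‖ ^ 2) * A Ω γ / ‖c‖ ^ 2
      + (A Ω γ * (A Ω (γ - β))⁻¹ * A Ω γ + 1)) ?_
    filter_upwards [ev, (L γ h).eventually (gt_mem_nhds (lt_add_one _))] with m hm h2
    have h1 := mainK ho hc.2 hR hf hT he hS hsp (Ex_cpt (hb.subset inter_subset_left) m) (Ex_rh _ m)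
      (Ex_sub _ m) hm hcb (γ := fun _ : Unit => γ) (injective_of_subsingleton _) {()} fun _ _ => h
    rw [Finset.sum_singleton, div_le_iff₀ (pos γ h), ← le_div_iff₀' c2] at h1
    linarith
  refine lines hn ho ne hb hβ st (S := (∑' i, ‖T (e i)‖ ^ 2) / ‖c‖ ^ 2) fun g hg gi m0 N => ?_
  rw [Finset.sum_sigma']
  generalize (Finset.range m0).sigma (fun x => Finset.range (N x)) = s
  have hγ : Injective fun x : Σ _ : ℕ, ℕ => g x.1 x.2 := fun x y h =>
    Sigma.ext (hg _ _ _ _ h).1 (heq_of_eq (hg _ _ _ _ h).2)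
  have hi : ∀ x : Σ _ : ℕ, ℕ, IntegrableOn (q (g x.1 x.2)) Ω := fun x => gi _ _
  set γ := fun x : Σ _ : ℕ, ℕ => g x.1 x.2
  have h1 : Tendsto (fun m => ∑ x ∈ s, ‖c‖ ^ 2 * (A (Ex (Ω ∩ NZ n) m) (γ x + β)
      - A (Ex (Ω ∩ NZ n) m) (γ x) * (A (Ex (Ω ∩ NZ n) m) (γ x - β))⁻¹ * A (Ex (Ω ∩ NZ n) m) (γ x))
        / A Ω (γ x)) atTop (𝓝 _) := tendsto_finsetSum _ fun x _ =>
    (((A_lim ho hR hb (st _ (hi x))).sub (L _ (hi x))).const_mul _).div_const _
  rw [le_div_iff₀' c2, Finset.mul_sum]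
  refine le_of_eq_of_le (Finset.sum_congr rfl fun x _ => ?_) (le_of_tendsto h1 (ev.mono fun m hm =>
    mainK ho hc.2 hR hf hT he hS hsp (Ex_cpt (hb.subset inter_subset_left) m) (Ex_rh _ m)
      (Ex_sub _ m) hm hcb hγ s fun x _ => hi x))
  have := (pos _ (hi x)).ne'
  simp only [γ]
  field_simp

end Pool.Agent.H28Hs
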