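import Mathlib

namespace Pool.Agent.H28KM

open MeasureTheory ProbabilityTheory Set Real Filter Topology
open scoped ENNReal NNReal

/-- The standard Gaussian measure on `ℝ^n`. -/
noncomputable def gauss (n : ℕ) : Measure (Fin n → ℝ) := Measure.pi fun _ => gaussianReal 0 1

instance gauss_prob (n : ℕ) : IsProbabilityMeasure (gauss n) := by
  unfold gauss; infer_instance

lemma int_cexp (t : ℝ) :
    ∫ x : ℝ, Complex.exp ((t * x : ℝ) * Complex.I) ∂(gaussianReal 0 1) =
      ((exp (-(t ^ 2 / 2)) : ℝ) : ℂ) := by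
  have h := charFun_gaussianReal (μ := 0) (v := 1) t
  rw [charFun_apply_real] at h
  push_cast
  rw [h]
  simp

lemma lin_apply {n : ℕ} (L : (Fin n → ℝ) →L[ℝ] ℝ) (x : Fin n → ℝ) :
    L x = ∑ i, L (Pi.single i 1) * x i := by
  conv_lhs => rw [pi_eq_sum_univ' x]
  rw [map_sum]
  refine Finset.sum_congr rfl fun i _ => ?_
  rw [map_smul, smul_eq_mul, mul_comm]

lemma charFun_gauss {n : ℕ} (L : (Fin n → ℝ) →L[ℝ] ℝ) :
    charFunDual (gauss n) L = ((exp (-(∑ i, L (Pi.single i 1) ^ 2) / 2) : ℝ) : ℂ) := by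
  rw [charFunDual_apply]
  have : ∀ x : Fin n → ℝ, Complex.exp (L x * Complex.I) =
      ∏ i, Complex.exp ((L (Pi.single i 1) * x i : ℝ) * Complex.I) := by
    intro x
    rw [lin_apply L x, ← Complex.exp_sum, ← Finset.sum_mul]
    push_cast
    rfl
  simp_rw [this]
  unfold gauss
  rw [integral_fintype_prod_eq_prod
    (fun i (y : ℝ) => Complex.exp ((L (Pi.single i 1) * y : ℝ) * Complex.I))]
  simp_rw [int_cexp]
  rw [← Complex.ofReal_prod, ← Real.exp_sum]
  congr 2
  rw [neg_div, Finset.sum_div, Finset.sum_neg_distrib]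

lemma law_eq {n : ℕ} {ρ s a b : ℝ} (hs : s ^ 2 = 1 - ρ ^ 2) (ha : a ^ 2 = ρ) (hb : b ^ 2 = 1 - ρ) :
    ((gauss n).prod (gauss n)).map (fun p => (p.1, ρ • p.1 + s • p.2)) =
    ((gauss n).prod ((gauss n).prod (gauss n))).map
      (fun q => (a • q.1 + b • q.2.1, a • q.1 + b • q.2.2)) := by
  set E := Fin n → ℝ
  let T1 : (E × E) →L[ℝ] (E × E) := (ContinuousLinearMap.fst ℝ E E).prod
    (ρ • ContinuousLinearMap.fst ℝ E E + s • ContinuousLinearMap.snd ℝ E E)
  let T2 : (E × (E × E)) →L[ℝ] (E × E) :=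
    (a • ContinuousLinearMap.fst ℝ E (E × E) +
      b • (ContinuousLinearMap.fst ℝ E E).comp (ContinuousLinearMap.snd ℝ E (E × E))).prod
    (a • ContinuousLinearMap.fst ℝ E (E × E) +
      b • (ContinuousLinearMap.snd ℝ E E).comp (ContinuousLinearMap.snd ℝ E (E × E)))
  change ((gauss n).prod (gauss n)).map T1 = ((gauss n).prod ((gauss n).prod (gauss n))).map T2
  refine Measure.ext_of_charFunDual ?_
  funext L
  rw [charFunDual_map, charFunDual_map, charFunDual_prod, charFunDual_prod, charFunDual_prod]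
  simp only [charFun_gauss]
  rw [← Complex.ofReal_mul, ← Complex.ofReal_mul, ← Complex.ofReal_mul, ← Real.exp_add,
    ← Real.exp_add, ← Real.exp_add]
  congr 2
  rw [← add_div, ← add_div, ← add_div, ← neg_add, ← neg_add, ← neg_add,
    ← Finset.sum_add_distrib, ← Finset.sum_add_distrib, ← Finset.sum_add_distrib]
  congr 2
  refine Finset.sum_congr rfl fun i _ => ?_
  set e : E := Pi.single i 1
  have key : ∀ c d : ℝ, L (c • e, d • e) = c * L (e, 0) + d * L (0, e) := by
    intro c d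
    have : ((c • e, d • e) : E × E) = c • ((e, 0) : E × E) + d • ((0, e) : E × E) := by simp
    rw [this, map_add, map_smul, map_smul, smul_eq_mul, smul_eq_mul]
  have h1 : ((L.comp T1).comp (.inl ℝ E E)) e = 1 * L (e, 0) + ρ * L (0, e) := by
    rw [← key]; simp [T1]
  have h2 : ((L.comp T1).comp (.inr ℝ E E)) e = 0 * L (e, 0) + s * L (0, e) := by
    rw [← key]; simp [T1]
  have h3 : ((L.comp T2).comp (.inl ℝ E (E × E))) e = a * L (e, 0) + a * L (0, e) := by
    rw [← key]; simp [T2]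
  have h4 : (((L.comp T2).comp (.inr ℝ E (E × E))).comp (.inl ℝ E E)) e =
      b * L (e, 0) + 0 * L (0, e) := by
    rw [← key]; simp [T2]
  have h5 : (((L.comp T2).comp (.inr ℝ E (E × E))).comp (.inr ℝ E E)) e =
      0 * L (e, 0) + b * L (0, e) := by
    rw [← key]; simp [T2]
  rw [h1, h2, h3, h4, h5]
  generalize L (e, 0) = u
  generalize L (0, e) = v
  linear_combination v ^ 2 * hs - (u + v) ^ 2 * ha - (u ^ 2 + v ^ 2) * hb

/-- Half-way smoothing operator. -/
noncomputable def sm {n : ℕ} (a b : ℝ) (f : (Fin n → ℝ) → ℝ) (w : Fin n → ℝ) : ℝ :=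
  ∫ z, f (a • w + b • z) ∂gauss n

lemma sm_meas {n : ℕ} (a b : ℝ) {f : (Fin n → ℝ) → ℝ} (hf : Measurable f) :
    Measurable (sm a b f) := by
  have : StronglyMeasurable (fun p : (Fin n → ℝ) × (Fin n → ℝ) => f (a • p.1 + b • p.2)) :=
    (hf.comp (by fun_prop)).stronglyMeasurable
  exact (this.integral_prod_right' (ν := gauss n)).measurable

lemma sm_abs_le {n : ℕ} (a b : ℝ) {f : (Fin n → ℝ) → ℝ} (hf : ∀ x, |f x| ≤ 1) (w : Fin n → ℝ) :
    |sm a b f w| ≤ 1 := by
  have := norm_integral_le_of_norm_le_const (μ := gauss n) (f := fun z => f (a • w + b • z))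
    (C := 1) (Eventually.of_forall fun z => hf _)
  simpa [sm] using this

lemma integrable_of_bdd {X : Type*} [MeasurableSpace X] (μ : Measure X) [IsFiniteMeasure μ]
    {f : X → ℝ} (hf : Measurable f) {C : ℝ} (h : ∀ x, |f x| ≤ C) : Integrable f μ :=
  Integrable.of_bound hf.aestronglyMeasurable C (Eventually.of_forall h)

lemma abs_mul_le_one {x y : ℝ} (hx : |x| ≤ 1) (hy : |y| ≤ 1) : |x * y| ≤ 1 := by
  rw [abs_mul]
  exact mul_le_one₀ hx (abs_nonneg _) hy

lemma bilin_eq {n : ℕ} {ρ s a b : ℝ} (hs : s ^ 2 = 1 - ρ ^ 2) (ha : a ^ 2 = ρ) (hb : b ^ 2 = 1 - ρ)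
    {f h : (Fin n → ℝ) → ℝ} (hf : Measurable f) (hh : Measurable h)
    (bf : ∀ x, |f x| ≤ 1) (bh : ∀ x, |h x| ≤ 1) :
    ∫ p, f p.1 * h (ρ • p.1 + s • p.2) ∂((gauss n).prod (gauss n)) =
      ∫ w, sm a b f w * sm a b h w ∂gauss n := by
  have hm : Measurable (fun p : (Fin n → ℝ) × (Fin n → ℝ) => f p.1 * h p.2) :=
    (hf.comp measurable_fst).mul (hh.comp measurable_snd)
  have e1 := integral_map (μ := (gauss n).prod (gauss n))
    (φ := fun p => (p.1, ρ • p.1 + s • p.2)) (by fun_prop) hm.aestronglyMeasurable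
  have e2 := integral_map (μ := (gauss n).prod ((gauss n).prod (gauss n)))
    (φ := fun q => (a • q.1 + b • q.2.1, a • q.1 + b • q.2.2)) (by fun_prop)
    hm.aestronglyMeasurable
  rw [law_eq hs ha hb, e2] at e1
  simp only at e1
  rw [← e1, integral_prod]
  · refine integral_congr_ae (Eventually.of_forall fun w => ?_)
    simp only [sm]
    exact integral_prod_mul (fun z => f (a • w + b • z)) (fun z => h (a • w + b • z))
  · refine integrable_of_bdd _ ?_ (C := 1) fun q => abs_mul_le_one (bf _) (bh _)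
    exact (hf.comp (by fun_prop)).mul (hh.comp (by fun_prop))

end Pool.Agent.H28KM
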