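import Mathlib

namespace Pool.Agent.H28KM

open MeasureTheory ProbabilityTheory Set Real Filter Topology
open scoped ENNReal NNReal

lemma hasSum_geo_int {p : ℝ} (hp0 : 0 ≤ p) (hp : p < 1) :
    HasSum (fun n : ℤ => p ^ n.natAbs) ((1 - p)⁻¹ + p * (1 - p)⁻¹) := by
  have h := hasSum_geometric_of_lt_one hp0 hp
  refine HasSum.of_nat_of_neg_add_one (by simpa using h) ?_
  have h2 := h.mul_left p
  have e : (fun n : ℕ => p ^ (-((n : ℤ) + 1)).natAbs) = fun n : ℕ => p * p ^ n := by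
    funext n
    have : (-((n : ℤ) + 1)).natAbs = n + 1 := by omega
    rw [this, pow_succ, mul_comm]
  exact e ▸ h2

lemma poisson_shift {v : ℝ} (hv : 0 < v) (s c : ℝ) :
    (∑' n : ℤ, Complex.exp (-π * (2 * π * v : ℝ) * n ^ 2 + 2 * π * (-c - s * Complex.I) * n)) =
      ((√(2 * π * v))⁻¹ : ℝ) *
        ∑' n : ℤ, Complex.exp (-((n + s - c * Complex.I) ^ 2) / (2 * v)) := by
  have ha : 0 < 2 * π * v := by positivity
  rw [Complex.tsum_exp_neg_quadratic (by simpa using ha)]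
  congr 1
  · rw [sqrt_eq_rpow, Complex.ofReal_inv, Complex.ofReal_cpow ha.le]
    simp
  · refine tsum_congr fun n => ?_
    congr 1
    have hv' : (v : ℂ) ≠ 0 := by exact_mod_cast hv.ne'
    have hp : (π : ℂ) ≠ 0 := by exact_mod_cast pi_pos.ne'
    have e : (n + Complex.I * (-c - s * Complex.I) : ℂ) = n + s - c * Complex.I := by
      linear_combination (-s : ℂ) * Complex.I_mul_I
    rw [e]
    push_cast
    field_simp

lemma norm_fourier_term {v : ℝ} (s c : ℝ) (n : ℤ) :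
    ‖Complex.exp (-π * (2 * π * v : ℝ) * n ^ 2 + 2 * π * (-c - s * Complex.I) * n)‖ =
      exp (-(2 * π ^ 2 * v * n ^ 2 + 2 * π * c * n)) := by
  rw [Complex.norm_exp]
  congr 1
  have : (-π * (2 * π * v : ℝ) * n ^ 2 + 2 * π * (-c - s * Complex.I) * n : ℂ) =
      ((-(2 * π ^ 2 * v * n ^ 2 + 2 * π * c * n) : ℝ) : ℂ) +
        ((-(2 * π * s * n) : ℝ) : ℂ) * Complex.I := by
    push_cast; ring
  rw [this, Complex.add_re, Complex.ofReal_re, Complex.re_ofReal_mul, Complex.I_re]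
  ring

/-- Density of the centred Gaussian of variance `v`. -/
noncomputable def gd (v x : ℝ) : ℝ := (√(2 * π * v))⁻¹ * exp (-x ^ 2 / (2 * v))

lemma alt_theta_eq {v : ℝ} (hv : 0 < v) (s : ℝ) :
    (∑' n : ℤ, Complex.exp (-π * (2 * π * v : ℝ) * n ^ 2 +
      2 * π * (-(π * v : ℝ) - s * Complex.I) * n)) =
      Complex.exp (π * s * Complex.I) * (exp (π ^ 2 * v / 2) : ℝ) *
        ((∑' n : ℤ, (-1 : ℝ) ^ n * gd v (s + n) : ℝ) : ℂ) := by
  rw [poisson_shift hv, Complex.ofReal_tsum, ← tsum_mul_left, ← tsum_mul_left]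
  refine tsum_congr fun n => ?_
  have hv' : (v : ℂ) ≠ 0 := by exact_mod_cast hv.ne'
  have e : (-((n + s - (π * v : ℝ) * Complex.I) ^ 2) / (2 * v) : ℂ) =
      π * s * Complex.I + (π ^ 2 * v / 2 : ℝ) + n * (π * Complex.I) +
        (-(s + n) ^ 2 / (2 * v) : ℝ) := by
    push_cast
    field_simp
    linear_combination (-(π : ℂ) ^ 2 * v ^ 2) * Complex.I_mul_I
  rw [e, Complex.exp_add, Complex.exp_add, Complex.exp_add, Complex.exp_int_mul,
    Complex.exp_pi_mul_I, gd]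
  push_cast
  ring

lemma alt_theta_bound {v0 : ℝ} (hv0 : 0 < v0) : ∃ C : ℝ, 0 < C ∧ ∀ v : ℝ, v0 ≤ v → ∀ s : ℝ,
    |∑' n : ℤ, (-1 : ℝ) ^ n * gd v (s + n)| ≤ C * exp (-(π ^ 2 * v / 2)) := by
  set c0 := 2 * π ^ 2 * v0 with hc0
  have hc : 0 < c0 := by positivity
  set p := exp (-c0) with hp
  have hp0 : 0 < p := exp_pos _
  have hp1 : p < 1 := by rw [hp]; exact Real.exp_lt_one_iff.mpr (by linarith)
  have hs := (hasSum_geo_int hp0.le hp1).mul_left (exp c0)
  have h1p : 0 < 1 - p := by linarith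
  refine ⟨exp c0 * ((1 - p)⁻¹ + p * (1 - p)⁻¹), by positivity, fun v hv s => ?_⟩
  have hvp : 0 < v := lt_of_lt_of_le hv0 hv
  have key := congrArg norm (alt_theta_eq hvp s)
  rw [norm_mul, norm_mul, Complex.norm_real, Complex.norm_real, Real.norm_eq_abs,
    Real.norm_eq_abs, abs_of_pos (exp_pos _)] at key
  have e1 : ‖Complex.exp (π * s * Complex.I)‖ = 1 := by
    have := Complex.norm_exp_ofReal_mul_I (π * s)
    simpa using this
  rw [e1, one_mul] at key
  have hb : ‖∑' n : ℤ, Complex.exp (-π * (2 * π * v : ℝ) * n ^ 2 +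
      2 * π * (-(π * v : ℝ) - s * Complex.I) * n)‖ ≤ exp c0 * ((1 - p)⁻¹ + p * (1 - p)⁻¹) := by
    refine tsum_of_norm_bounded hs fun n => ?_
    rw [norm_fourier_term, hp, ← exp_nat_mul, ← exp_add]
    apply exp_le_exp.mpr
    have hn : (0 : ℤ) ≤ n ^ 2 + n := by nlinarith [sq_nonneg (2 * n + 1), Int.emod_emod_of_dvd]
    have hn2 : ((n.natAbs : ℤ)) - 1 ≤ n ^ 2 + n := by
      rcases le_or_gt 0 n with h | h
      · rw [Int.natAbs_of_nonneg h]; nlinarith
      · have : (n.natAbs : ℤ) = -n := by omega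
        rw [this]; nlinarith [sq_nonneg (n + 1)]
    have hn' : (0 : ℝ) ≤ (n : ℝ) ^ 2 + n := by exact_mod_cast hn
    have hn2' : ((n.natAbs : ℕ) : ℝ) - 1 ≤ (n : ℝ) ^ 2 + n := by
      have : (((n.natAbs : ℤ) - 1 : ℤ) : ℝ) ≤ ((n ^ 2 + n : ℤ) : ℝ) := by exact_mod_cast hn2
      push_cast at this
      simpa using this
    have h3 : c0 * ((n : ℝ) ^ 2 + n) ≤ 2 * π ^ 2 * v * ((n : ℝ) ^ 2 + n) := by
      rw [hc0]; gcongr
    nlinarith [mul_le_mul_of_nonneg_left hn2' hc.le]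
  rw [key] at hb
  rw [exp_neg, ← div_eq_mul_inv, le_div_iff₀ (exp_pos _), mul_comm]
  exact hb

lemma integral_eq_period {f : ℝ → ℝ} (hf : Integrable f) :
    ∫ x, f x = ∫ x in Ioc (0 : ℝ) 1, ∑' n : ℤ, f (x + n) := by
  have h1 := hf.hasSum_intervalIntegral_comp_add_int
  have h2 := hf.norm.hasSum_intervalIntegral_comp_add_int
  simp_rw [intervalIntegral.integral_of_le zero_le_one] at h1 h2
  have h3 := hasSum_integral_of_summable_integral_norm (μ := volume.restrict (Ioc (0 : ℝ) 1))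
    (F := fun (n : ℤ) x => f (x + n)) (fun n => (hf.comp_add_right (n : ℝ)).integrableOn)
    h2.summable
  exact h1.unique h3

lemma antiper_int {φ : ℝ → ℝ} (h : ∀ t, φ (t + 1) = -φ t) (t : ℝ) (n : ℤ) :
    φ (t + n) = (-1 : ℝ) ^ n * φ t := by
  induction n using Int.induction_on with
  | zero => simp
  | succ n ih =>
    rw [zpow_add_one₀ (by norm_num)]
    push_cast at ih ⊢
    rw [← add_assoc, h, ih]; ring
  | pred n ih =>
    rw [zpow_sub_one₀ (by norm_num)]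
    push_cast at ih ⊢
    have := h (t + (-n - 1))
    rw [show t + (-(n : ℝ) - 1) + 1 = t + -n by ring, ih] at this
    have h2 : φ (t + (-n - 1)) = -((-1) ^ (-(n : ℤ)) * φ t) := by linarith
    rw [h2]; ring

lemma antiper_gauss_bound {v0 : ℝ} (hv0 : 0 < v0) : ∃ C : ℝ, 0 < C ∧ ∀ v : ℝ≥0, v0 ≤ v →
    ∀ φ : ℝ → ℝ, Measurable φ → (∀ t, |φ t| ≤ 1) → (∀ t, φ (t + 1) = -φ t) →
      |∫ x, φ x ∂gaussianReal 0 v| ≤ C * exp (-(π ^ 2 * v / 2)) := by
  obtain ⟨C, hC, h⟩ := alt_theta_bound hv0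
  refine ⟨C, hC, fun v hv φ hm hb ha => ?_⟩
  have hvp : (0 : ℝ) < v := lt_of_lt_of_le hv0 hv
  have hne : v ≠ 0 := by exact_mod_cast hvp.ne'
  rw [integral_gaussianReal_eq_integral_smul hne]
  have hi : Integrable fun x => gaussianPDFReal 0 v x • φ x := by
    simp_rw [smul_eq_mul]
    exact (integrable_gaussianPDFReal 0 v).mul_bdd (c := 1) hm.aestronglyMeasurable
      (Eventually.of_forall hb)
  rw [integral_eq_period hi]
  have := norm_setIntegral_le_of_norm_le_const (μ := volume) (s := Ioc (0 : ℝ) 1)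
    (f := fun x => ∑' n : ℤ, gaussianPDFReal 0 v (x + n) • φ (x + n))
    (C := C * exp (-(π ^ 2 * v / 2))) (by simp) (fun x _ => ?_)
  · simpa using this
  · have e : ∀ n : ℤ, gaussianPDFReal 0 v (x + n) • φ (x + n) =
        φ x * ((-1 : ℝ) ^ n * gd v (x + n)) := by
      intro n
      rw [antiper_int ha, smul_eq_mul, gaussianPDFReal, gd, sub_zero]; ring
    simp_rw [e]
    rw [tsum_mul_left, Real.norm_eq_abs, abs_mul]
    calc _ ≤ 1 * (C * exp (-(π ^ 2 * v / 2))) :=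
          mul_le_mul (hb x) (h v hv x) (abs_nonneg _) zero_le_one
      _ = _ := one_mul _

lemma theta_bound {v : ℝ} (hv : 0 < v) (s : ℝ) :
    |∑' n : ℤ, gd v (s + n) - 1| ≤
      2 * exp (-(2 * π ^ 2 * v)) * (1 - exp (-(2 * π ^ 2 * v)))⁻¹ := by
  set p := exp (-(2 * π ^ 2 * v)) with hp
  have hp0 : 0 < p := exp_pos _
  have hp1 : p < 1 := by rw [hp]; exact Real.exp_lt_one_iff.mpr (by simp only [neg_lt_zero]; positivity)
  have hs := hasSum_geo_int hp0.le hp1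
  set T : ℤ → ℂ := fun n => Complex.exp (-π * (2 * π * v : ℝ) * n ^ 2 +
    2 * π * (-(0 : ℝ) - s * Complex.I) * n) with hT
  have hTb : ∀ n, ‖T n‖ ≤ p ^ n.natAbs := by
    intro n
    rw [hT]
    simp only
    rw [norm_fourier_term, hp, ← exp_nat_mul]
    apply exp_le_exp.mpr
    have hn2 : ((n.natAbs : ℤ)) ≤ n ^ 2 := Int.natAbs_le_self_sq n
    have hn2' : ((n.natAbs : ℕ) : ℝ) ≤ (n : ℝ) ^ 2 := by
      have : (((n.natAbs : ℤ) : ℤ) : ℝ) ≤ ((n ^ 2 : ℤ) : ℝ) := by exact_mod_cast hn2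
      push_cast at this
      simpa using this
    have hc : 0 < 2 * π ^ 2 * v := by positivity
    nlinarith [mul_le_mul_of_nonneg_left hn2' hc.le]
  have hTs : Summable T := Summable.of_norm_bounded hs.summable hTb
  have e1 : (∑' n, T n) = ((∑' n : ℤ, gd v (s + n) : ℝ) : ℂ) := by
    rw [hT, poisson_shift hv, Complex.ofReal_tsum, ← tsum_mul_left]
    refine tsum_congr fun n => ?_
    rw [gd]
    push_cast
    congr 2
    ring
  have e2 : (∑' n, T n) = 1 + ∑' n, if n = 0 then 0 else T n := by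
    rw [hTs.tsum_eq_add_tsum_ite 0]
    simp [hT]
  have hs2 := hasSum_ite_sub_hasSum hs 0
  have e3 : ‖∑' n, if n = 0 then 0 else T n‖ ≤ (1 - p)⁻¹ + p * (1 - p)⁻¹ - p ^ (0 : ℤ).natAbs := by
    refine tsum_of_norm_bounded hs2 fun n => ?_
    split_ifs
    · simp
    · exact hTb n
  have e4 : ((∑' n : ℤ, gd v (s + n) - 1 : ℝ) : ℂ) = ∑' n, if n = 0 then 0 else T n := by
    rw [Complex.ofReal_sub, ← e1, e2]; simp
  rw [← e4, Complex.norm_real, Real.norm_eq_abs] at e3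
  refine e3.trans (le_of_eq ?_)
  have h1p : 1 - p ≠ 0 := by linarith
  simp only [Int.natAbs_zero, pow_zero]
  field_simp
  ring

end Pool.Agent.H28KM
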