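import Mathlib
import Pool.Agent.Lib.helper28.KMA

namespace Pool.Agent.H28KM

open MeasureTheory ProbabilityTheory Set Real Filter Topology
open scoped ENNReal NNReal ComplexConjugate

noncomputable def ex (x : ℝ) : ℂ := Complex.exp (x * Complex.I)

lemma ex_add (x y : ℝ) : ex (x + y) = ex x * ex y := by
  simp [ex, add_mul, Complex.exp_add]

lemma ex_norm (x : ℝ) : ‖ex x‖ = 1 := Complex.norm_exp_ofReal_mul_I x

lemma ex_conj (x : ℝ) : conj (ex x) = ex (-x) := by
  simp [ex, ← Complex.exp_conj]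

lemma ex_nat (k : ℕ) (x : ℝ) : ex (k * x) = ex x ^ k := by
  simp [ex, ← Complex.exp_nat_mul, mul_assoc]

lemma ex_mul_neg (x : ℝ) : ex x * ex (-x) = 1 := by
  rw [← ex_add]; simp [ex]

lemma ex_pi : ex π = -1 := Complex.exp_pi_mul_I

lemma ex_cont : Continuous ex := by unfold ex; fun_prop

lemma ex_eq (x : ℝ) : ex x = (cos x : ℝ) + (sin x : ℝ) * Complex.I := by
  simp [ex, Complex.exp_mul_I]

lemma int_trig {m : ℕ} (c : Fin m → ℂ) (t : Fin m → ℝ) :
    ∫ x, ∑ j, c j * ex (t j * x) ∂gaussianReal 0 1 =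
      ∑ j, c j * ((exp (-(t j ^ 2 / 2)) : ℝ) : ℂ) := by
  rw [integral_finsetSum]
  · refine Finset.sum_congr rfl fun j _ => ?_
    rw [integral_const_mul]
    congr 1
    exact int_cexp (t j)
  · intro j _
    refine Integrable.const_mul ?_ _
    refine Integrable.of_bound (ex_cont.comp (by fun_prop)).aestronglyMeasurable 1
      (Eventually.of_forall fun x => (ex_norm _).le)

/-- General three-term trigonometric polynomial. -/
noncomputable def tri (c A B δ t : ℝ) : ℂ :=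
  c * (A * ex (π * t) + δ * A * ex (-(π * t)) - δ * B * ex (3 * (π * t)))

lemma tri_cont (c A B δ : ℝ) : Continuous (tri c A B δ) := by
  have := ex_cont
  unfold tri
  fun_prop

lemma tri_add_one (c A B δ t : ℝ) : tri c A B δ (t + 1) = -tri c A B δ t := by
  have h1 : ex (π * (t + 1)) = -ex (π * t) := by rw [mul_add, mul_one, ex_add, ex_pi]; ring
  have h2 : ex (-(π * (t + 1))) = -ex (-(π * t)) := by rw [← ex_conj, h1, map_neg, ex_conj]
  have h3 : ex (3 * (π * (t + 1))) = -ex (3 * (π * t)) := by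
    have a1 := ex_nat 3 (π * (t + 1))
    have a2 := ex_nat 3 (π * t)
    push_cast at a1 a2
    rw [a1, a2, h1]; ring
  rw [tri, tri, h1, h2, h3]; ring

lemma tri_neg (c A B δ t : ℝ) : tri c A B δ (-t) = conj (tri c A B δ t) := by
  simp only [tri, map_mul, map_add, map_sub, Complex.conj_ofReal, ex_conj, mul_neg]

lemma tri_norm (δ t : ℝ) : ‖tri (1 + 2 * δ ^ 2)⁻¹ 1 1 δ t‖ ≤ 1 := by
  have hp : 0 < 1 + 2 * δ ^ 2 := by positivity
  have e : tri (1 + 2 * δ ^ 2)⁻¹ 1 1 δ t = ((1 + 2 * δ ^ 2)⁻¹ : ℝ) * (ex (π * t) *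
      (((1 : ℝ) : ℂ) + ((-(2 * δ * sin (2 * (π * t))) : ℝ) : ℂ) * Complex.I)) := by
    have h1 : ex (-(π * t)) = ex (π * t) * ex (-(2 * (π * t))) := by
      rw [← ex_add]; congr 1; ring
    have h2 : ex (3 * (π * t)) = ex (π * t) * ex (2 * (π * t)) := by
      rw [← ex_add]; congr 1; ring
    rw [tri, h1, h2, ex_eq (-(2 * (π * t))), ex_eq (2 * (π * t)), cos_neg, sin_neg]
    push_cast
    ring
  rw [e, norm_mul, norm_mul, ex_norm, one_mul, Complex.norm_real, Real.norm_eq_abs,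
    abs_of_pos (inv_pos.mpr hp), Complex.norm_add_mul_I, inv_mul_le_iff₀ hp, mul_one]
  apply sqrt_le_iff.mpr ⟨hp.le, ?_⟩
  have := sin_sq_le_one (2 * (π * t))
  nlinarith [mul_le_mul_of_nonneg_left this (sq_nonneg δ), sq_nonneg (δ ^ 2)]

lemma tri_smooth (c δ b x : ℝ) :
    ∫ z, tri c 1 1 δ (x + b * z) ∂gaussianReal 0 1 =
      tri c (exp (-((π * b) ^ 2 / 2))) (exp (-((3 * π * b) ^ 2 / 2))) δ x := by
  have := int_trig ![c * ex (π * x), c * δ * ex (-(π * x)), -(c * δ * ex (3 * (π * x)))]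
    ![π * b, -(π * b), 3 * π * b]
  simp only [Fin.sum_univ_succ, Matrix.cons_val_zero, Matrix.cons_val_succ, Finset.univ_eq_empty,
    Finset.sum_empty, add_zero, even_two, Even.neg_pow] at this
  convert this using 2
  · funext z
    rw [tri, show π * (x + b * z) = π * x + π * b * z by ring, ex_add,
      show -(π * x + π * b * z) = -(π * x) + -(π * b) * z by ring, ex_add,
      show 3 * (π * x + π * b * z) = 3 * (π * x) + 3 * π * b * z by ring, ex_add]
    push_cast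
    ring
  · rw [tri]; ring

lemma tri_kappa (c A B δ a : ℝ) :
    ∫ w, tri c A B δ (a * w) * conj (tri c A B δ (a * w)) ∂gaussianReal 0 1 =
      ((c ^ 2 * (A ^ 2 + δ ^ 2 * A ^ 2 + δ ^ 2 * B ^ 2 +
        2 * δ * A * (A - B) * exp (-((2 * π * a) ^ 2 / 2)) -
        2 * δ ^ 2 * A * B * exp (-((4 * π * a) ^ 2 / 2))) : ℝ) : ℂ) := by
  have := int_trig ![c ^ 2 * (A ^ 2 + δ ^ 2 * A ^ 2 + δ ^ 2 * B ^ 2), c ^ 2 * δ * A * (A - B),
    c ^ 2 * δ * A * (A - B), -(c ^ 2 * δ ^ 2 * A * B), -(c ^ 2 * δ ^ 2 * A * B)]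
    ![0, 2 * π * a, -(2 * π * a), 4 * π * a, -(4 * π * a)]
  simp only [Fin.sum_univ_succ, Matrix.cons_val_zero, Matrix.cons_val_succ, Finset.univ_eq_empty,
    Finset.sum_empty, add_zero, even_two, Even.neg_pow] at this
  convert this using 2
  · funext w
    rw [← tri_neg]
    have hu := ex_mul_neg (π * (a * w))
    have h0 : ex (0 * w) = 1 := by simp [ex]
    have h2 := ex_nat 2 (π * (a * w))
    have h3 := ex_nat 3 (π * (a * w))
    have h4 := ex_nat 4 (π * (a * w))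
    have g2 := ex_nat 2 (-(π * (a * w)))
    have g3 := ex_nat 3 (-(π * (a * w)))
    have g4 := ex_nat 4 (-(π * (a * w)))
    push_cast at h2 h3 h4 g2 g3 g4
    rw [tri, tri, h0, show 2 * π * a * w = 2 * (π * (a * w)) by ring,
      show -(2 * π * a) * w = 2 * -(π * (a * w)) by ring,
      show 4 * π * a * w = 4 * (π * (a * w)) by ring,
      show -(4 * π * a) * w = 4 * -(π * (a * w)) by ring,
      show π * -(a * w) = -(π * (a * w)) by ring, neg_neg, h2, h3, h4, g2, g3, g4]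
    generalize ex (π * (a * w)) = u at hu ⊢
    generalize ex (-(π * (a * w))) = v at hu ⊢
    linear_combination (c ^ 2 * (A ^ 2 + δ ^ 2 * A ^ 2 - δ * A * B * (u ^ 2 + v ^ 2) +
      δ ^ 2 * B ^ 2 * (u ^ 2 * v ^ 2 + u * v + 1)) : ℂ) * hu
  · push_cast
    simp only [ne_eq, OfNat.ofNat_ne_zero, not_false_eq_true, zero_pow, zero_div, neg_zero,
      Complex.exp_zero]
    ring

lemma tri_kappa' (c A B δ a : ℝ) :
    ∫ w, tri c A B δ (a * w) * tri c A B δ (a * w) ∂gaussianReal 0 1 =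
      ((c ^ 2 * (2 * δ * A ^ 2 + (A ^ 2 + δ ^ 2 * A ^ 2 - 2 * δ ^ 2 * A * B) *
        exp (-((2 * π * a) ^ 2 / 2)) - 2 * δ * A * B * exp (-((4 * π * a) ^ 2 / 2)) +
        δ ^ 2 * B ^ 2 * exp (-((6 * π * a) ^ 2 / 2))) : ℝ) : ℂ) := by
  have := int_trig ![c ^ 2 * (2 * δ * A ^ 2), c ^ 2 * (A ^ 2 - 2 * δ ^ 2 * A * B),
    c ^ 2 * δ ^ 2 * A ^ 2, -(c ^ 2 * 2 * δ * A * B), c ^ 2 * δ ^ 2 * B ^ 2]
    ![0, 2 * π * a, -(2 * π * a), 4 * π * a, 6 * π * a]
  simp only [Fin.sum_univ_succ, Matrix.cons_val_zero, Matrix.cons_val_succ, Finset.univ_eq_empty,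
    Finset.sum_empty, add_zero, even_two, Even.neg_pow] at this
  convert this using 2
  · funext w
    have hu := ex_mul_neg (π * (a * w))
    have h0 : ex (0 * w) = 1 := by simp [ex]
    have h2 := ex_nat 2 (π * (a * w))
    have h3 := ex_nat 3 (π * (a * w))
    have h4 := ex_nat 4 (π * (a * w))
    have h6 := ex_nat 6 (π * (a * w))
    have g2 := ex_nat 2 (-(π * (a * w)))
    push_cast at h2 h3 h4 h6 g2
    rw [tri, h0, show 2 * π * a * w = 2 * (π * (a * w)) by ring,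
      show -(2 * π * a) * w = 2 * -(π * (a * w)) by ring,
      show 4 * π * a * w = 4 * (π * (a * w)) by ring,
      show 6 * π * a * w = 6 * (π * (a * w)) by ring, h2, h3, h4, h6, g2]
    generalize ex (π * (a * w)) = u at hu ⊢
    generalize ex (-(π * (a * w))) = v at hu ⊢
    linear_combination (c ^ 2 * (2 * δ * A ^ 2 - 2 * δ ^ 2 * A * B * u ^ 2) : ℂ) * hu
  · push_cast
    simp only [ne_eq, OfNat.ofNat_ne_zero, not_false_eq_true, zero_pow, zero_div, neg_zero,
      Complex.exp_zero]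
    ring

/-- The test function: imaginary part of a product of phases. -/
noncomputable def gg {n : ℕ} (δ : ℝ) (x : Fin n → ℝ) : ℝ :=
  (∏ i, tri (1 + 2 * δ ^ 2)⁻¹ 1 1 δ (x i)).im

lemma gg_meas {n : ℕ} (δ : ℝ) : Measurable (gg (n := n) δ) := by
  have := tri_cont (1 + 2 * δ ^ 2)⁻¹ 1 1 δ
  refine Continuous.measurable ?_
  unfold gg
  fun_prop

lemma prod_norm_le {n : ℕ} {f : Fin n → ℂ} (h : ∀ i, ‖f i‖ ≤ 1) : ‖∏ i, f i‖ ≤ 1 := by
  rw [norm_prod]
  exact Finset.prod_le_one (fun i _ => norm_nonneg _) fun i _ => h i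

lemma gg_abs {n : ℕ} (δ : ℝ) (x : Fin n → ℝ) : |gg δ x| ≤ 1 :=
  (Complex.abs_im_le_norm _).trans (prod_norm_le fun _ => tri_norm _ _)

lemma gg_neg {n : ℕ} (δ : ℝ) (x : Fin n → ℝ) : gg δ (-x) = -gg δ x := by
  simp only [gg, Pi.neg_apply, tri_neg]
  rw [← map_prod, Complex.conj_im]

lemma gg_shift {n : ℕ} (δ : ℝ) (x : Fin n → ℝ) (i : Fin n) :
    gg δ (x + Pi.single i 1) = -gg δ x := by
  simp only [gg]
  rw [← Finset.mul_prod_erase Finset.univ _ (Finset.mem_univ i),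
    ← Finset.mul_prod_erase Finset.univ (fun j => tri (1 + 2 * δ ^ 2)⁻¹ 1 1 δ (x j))
      (Finset.mem_univ i)]
  rw [Pi.add_apply, Pi.single_eq_same, tri_add_one, neg_mul, Complex.neg_im]
  congr 3
  refine Finset.prod_congr rfl fun j hj => ?_
  rw [Pi.add_apply, Pi.single_eq_of_ne (Finset.ne_of_mem_erase hj), add_zero]

lemma sm_gg {n : ℕ} (δ a b : ℝ) (w : Fin n → ℝ) :
    sm a b (gg δ) w = (∏ i, tri (1 + 2 * δ ^ 2)⁻¹ (exp (-((π * b) ^ 2 / 2)))
      (exp (-((3 * π * b) ^ 2 / 2))) δ (a * w i)).im := by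
  simp_rw [← tri_smooth]
  rw [← integral_fintype_prod_eq_prod
    (fun i (z : ℝ) => tri (1 + 2 * δ ^ 2)⁻¹ 1 1 δ (a * w i + b * z))]
  have hc := tri_cont (1 + 2 * δ ^ 2)⁻¹ 1 1 δ
  have hi : Integrable (fun z : Fin n → ℝ => ∏ i, tri (1 + 2 * δ ^ 2)⁻¹ 1 1 δ (a * w i + b * z i))
      (gauss n) := by
    refine Integrable.of_bound (Continuous.aestronglyMeasurable (by fun_prop)) 1
      (Eventually.of_forall fun z => prod_norm_le fun _ => tri_norm _ _)
  have := Complex.imCLM.integral_comp_comm hi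
  simp only [Complex.imCLM_apply] at this
  exact this

lemma tri_bdd (c A B δ t : ℝ) : ‖tri c A B δ t‖ ≤ |c| * (|A| + |δ| * |A| + |δ| * |B|) := by
  rw [tri, norm_mul, Complex.norm_real, Real.norm_eq_abs]
  gcongr
  refine (norm_sub_le _ _).trans (add_le_add ((norm_add_le _ _).trans (add_le_add ?_ ?_)) ?_) <;>
    simp [ex_norm]

lemma int_im_sq {n : ℕ} (c A B δ a : ℝ) {k k' : ℝ}
    (h1 : ∫ w, tri c A B δ (a * w) * conj (tri c A B δ (a * w)) ∂gaussianReal 0 1 = (k : ℂ))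
    (h2 : ∫ w, tri c A B δ (a * w) * tri c A B δ (a * w) ∂gaussianReal 0 1 = (k' : ℂ)) :
    ∫ w : Fin n → ℝ, (∏ i, tri c A B δ (a * w i)).im * (∏ i, tri c A B δ (a * w i)).im ∂gauss n =
      (k ^ n - k' ^ n) / 2 := by
  have hc := tri_cont c A B δ
  set M := |c| * (|A| + |δ| * |A| + |δ| * |B|)
  have hb : ∀ w : Fin n → ℝ, ‖∏ i, tri c A B δ (a * w i)‖ ≤ M ^ n := by
    intro w
    rw [norm_prod]
    calc _ ≤ ∏ _i : Fin n, M := Finset.prod_le_prod (fun i _ => norm_nonneg _)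
          fun i _ => tri_bdd _ _ _ _ _
      _ = _ := by simp
  have i1 : Integrable (fun w : Fin n → ℝ =>
      ∏ i, (tri c A B δ (a * w i) * conj (tri c A B δ (a * w i)))) (gauss n) := by
    refine Integrable.of_bound (Continuous.aestronglyMeasurable (by fun_prop)) (M ^ n * M ^ n)
      (Eventually.of_forall fun w => ?_)
    rw [Finset.prod_mul_distrib, ← map_prod, norm_mul, Complex.norm_conj]
    exact mul_le_mul (hb w) (hb w) (norm_nonneg _) ((norm_nonneg _).trans (hb w))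
  have i2 : Integrable (fun w : Fin n → ℝ =>
      ∏ i, (tri c A B δ (a * w i) * tri c A B δ (a * w i))) (gauss n) := by
    refine Integrable.of_bound (Continuous.aestronglyMeasurable (by fun_prop)) (M ^ n * M ^ n)
      (Eventually.of_forall fun w => ?_)
    rw [Finset.prod_mul_distrib, norm_mul]
    exact mul_le_mul (hb w) (hb w) (norm_nonneg _) ((norm_nonneg _).trans (hb w))
  have e1 : ∫ w : Fin n → ℝ, ∏ i, (tri c A B δ (a * w i) * conj (tri c A B δ (a * w i)))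
      ∂gauss n = (k : ℂ) ^ n := by
    unfold gauss
    rw [integral_fintype_prod_eq_pow
      (fun y : ℝ => tri c A B δ (a * y) * conj (tri c A B δ (a * y))), h1, Fintype.card_fin]
  have e2 : ∫ w : Fin n → ℝ, ∏ i, (tri c A B δ (a * w i) * tri c A B δ (a * w i))
      ∂gauss n = (k' : ℂ) ^ n := by
    unfold gauss
    rw [integral_fintype_prod_eq_pow
      (fun y : ℝ => tri c A B δ (a * y) * tri c A B δ (a * y)), h2, Fintype.card_fin]
  have e3 := Complex.reCLM.integral_comp_comm (i1.sub i2)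
  simp only [Complex.reCLM_apply, Pi.sub_apply] at e3
  rw [integral_sub i1 i2, e1, e2, ← Complex.ofReal_pow, ← Complex.ofReal_pow,
    ← Complex.ofReal_sub, Complex.ofReal_re] at e3
  rw [← e3, ← integral_div]
  refine integral_congr_ae (Eventually.of_forall fun w => ?_)
  simp only
  rw [Finset.prod_mul_distrib, Finset.prod_mul_distrib, ← map_prod]
  generalize ∏ i, tri c A B δ (a * w i) = z
  simp

end Pool.Agent.H28KM
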