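import Mathlib
import Pool.Agent.Lib.helper28.KMB
import Pool.Agent.Lib.helper28.KMC

namespace Pool.Agent.H28KM

open MeasureTheory ProbabilityTheory Set Real Filter Topology
open scoped ENNReal NNReal ComplexConjugate

lemma exists_delta {A B r2 r4 r6 : ℝ} (hB : 0 < B) (hAB : B < A) (h2 : 0 < r2) (h2' : r2 < 1) :
    ∃ δ : ℝ, A ^ 2 < (1 + 2 * δ ^ 2)⁻¹ ^ 2 * (A ^ 2 + δ ^ 2 * A ^ 2 + δ ^ 2 * B ^ 2 +
        2 * δ * A * (A - B) * r2 - 2 * δ ^ 2 * A * B * r4) ∧
      |(1 + 2 * δ ^ 2)⁻¹ ^ 2 * (2 * δ * A ^ 2 + (A ^ 2 + δ ^ 2 * A ^ 2 - 2 * δ ^ 2 * A * B) * r2 -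
        2 * δ * A * B * r4 + δ ^ 2 * B ^ 2 * r6)| < A ^ 2 := by
  have hA : 0 < A := hB.trans hAB
  have c1 : Continuous fun δ : ℝ => 2 * A * (A - B) * r2 +
      δ * (B ^ 2 - 2 * A * B * r4 - 3 * A ^ 2) - 4 * A ^ 2 * δ ^ 3 := by fun_prop
  have c2 : Continuous fun δ : ℝ => |(1 + 2 * δ ^ 2)⁻¹ ^ 2 * (2 * δ * A ^ 2 +
      (A ^ 2 + δ ^ 2 * A ^ 2 - 2 * δ ^ 2 * A * B) * r2 -
        2 * δ * A * B * r4 + δ ^ 2 * B ^ 2 * r6)| := by
    refine Continuous.abs (Continuous.mul (Continuous.pow (Continuous.inv₀ (by fun_prop)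
      fun δ => by positivity) 2) (by fun_prop))
  have e1 := (c1.tendsto 0).eventually (lt_mem_nhds (a := 0) (by
    have : 0 < A - B := by linarith
    simp only [zero_mul, add_zero, ne_eq, OfNat.ofNat_ne_zero, not_false_eq_true, zero_pow,
      mul_zero, sub_zero]
    positivity))
  have e2 := (c2.tendsto 0).eventually (gt_mem_nhds (a := A ^ 2) (by
    simp only [ne_eq, OfNat.ofNat_ne_zero, not_false_eq_true, zero_pow, mul_zero, add_zero,
      inv_one, one_pow, zero_mul, sub_zero, zero_add, one_mul]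
    rw [abs_of_pos (by positivity)]
    nlinarith [sq_pos_of_pos hA]))
  obtain ⟨δ, ⟨d1, d2⟩, d3⟩ := ((e1.and e2).filter_mono nhdsWithin_le_nhds
    |>.and (self_mem_nhdsWithin (s := Ioi (0 : ℝ)))).exists
  refine ⟨δ, ?_, d2⟩
  have d3 : 0 < δ := d3
  have hp : 0 < (1 + 2 * δ ^ 2) ^ 2 := by positivity
  rw [inv_pow, lt_inv_mul_iff₀ hp]
  nlinarith [mul_pos d3 d1]

lemma int_step {y : ℝ} (hy : |y| ≤ 1) :
    ∫ u in Ioc (-1 : ℝ) 1, (if u ≤ y then (1 : ℝ) else -1) = 2 * y := by
  have h := abs_le.mp hy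
  have e : (fun u : ℝ => if u ≤ y then (1 : ℝ) else -1) =
      fun u => 2 * (Iic y).indicator (fun _ => (1 : ℝ)) u - 1 := by
    funext u
    by_cases hu : u ≤ y <;> simp [indicator, hu]
    norm_num
  rw [e, integral_sub, integral_const_mul, integral_indicator_const _ measurableSet_Iic]
  · simp only [Measure.real, Measure.restrict_apply measurableSet_Iic, integral_const]
    have : Iic y ∩ Ioc (-1 : ℝ) 1 = Ioc (-1) y := by
      ext u; simp only [mem_inter_iff, mem_Iic, mem_Ioc]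
      constructor
      · rintro ⟨a, b, -⟩; exact ⟨b, a⟩
      · rintro ⟨a, b⟩; exact ⟨b, a, b.trans h.2⟩
    rw [this]
    simp only [Real.volume_Ioc, MeasurableSet.univ, Measure.restrict_apply, univ_inter]
    rw [ENNReal.toReal_ofReal (by linarith), ENNReal.toReal_ofReal (by norm_num)]
    simp only [smul_eq_mul]
    ring
  · exact ((integrable_const (1 : ℝ)).indicator measurableSet_Iic).const_mul 2
  · exact integrable_const _

/-- Rounding of `g` at level `u` with tie-breaking sign `η`. -/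
noncomputable def rnd {X : Type*} (η g : X → ℝ) (u : ℝ) (x : X) : ℝ :=
  η x * (if u ≤ η x * g x then 1 else -1)

lemma rnd_pm {X : Type*} {η : X → ℝ} (g : X → ℝ) (hη : ∀ x, η x = 1 ∨ η x = -1) (u : ℝ) (x : X) :
    rnd η g u x = 1 ∨ rnd η g u x = -1 := by
  unfold rnd
  rcases hη x with h | h <;> split_ifs <;> simp [h]

lemma abs_le_of_pm {y : ℝ} (h : y = 1 ∨ y = -1) : |y| ≤ 1 := by
  rcases h with h | h <;> simp [h]

lemma rnd_meas {X : Type*} [MeasurableSpace X] {η g : X → ℝ} (hη : Measurable η)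
    (hg : Measurable g) : Measurable fun p : ℝ × X => rnd η g p.1 p.2 := by
  unfold rnd
  refine (hη.comp measurable_snd).mul (Measurable.ite ?_ measurable_const measurable_const)
  exact measurableSet_le measurable_fst ((hη.comp measurable_snd).mul (hg.comp measurable_snd))

lemma exists_round {n : ℕ} {ρ s a b : ℝ} (hs : s ^ 2 = 1 - ρ ^ 2) (ha : a ^ 2 = ρ)
    (hb : b ^ 2 = 1 - ρ) {η g : (Fin n → ℝ) → ℝ} (mη : Measurable η) (mg : Measurable g)
    (hη : ∀ x, η x = 1 ∨ η x = -1) (hg : ∀ x, |g x| ≤ 1) :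
    ∃ u, ∫ w, sm a b g w * sm a b g w ∂gauss n ≤
      ∫ w, sm a b (rnd η g u) w * sm a b (rnd η g u) w ∂gauss n := by
  set P := (gauss n).prod (gauss n)
  set μ : Measure ℝ := volume.restrict (Ioc (-1 : ℝ) 1)
  have hm := rnd_meas mη mg
  have hb1 : ∀ u x, |rnd η g u x| ≤ 1 := fun u x => abs_le_of_pm (rnd_pm g hη u x)
  have hint : Integrable (Function.uncurry fun (u : ℝ) (p : (Fin n → ℝ) × (Fin n → ℝ)) =>
      rnd η g u p.1 * g (ρ • p.1 + s • p.2)) (μ.prod P) := by
    refine integrable_of_bdd _ ?_ (C := 1) fun q => abs_mul_le_one (hb1 _ _) (hg _)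
    exact (hm.comp (measurable_fst.prodMk (measurable_fst.comp measurable_snd))).mul
      (mg.comp (by fun_prop))
  have hsw := integral_integral_swap hint
  have hin : ∀ p : (Fin n → ℝ) × (Fin n → ℝ),
      ∫ u, rnd η g u p.1 * g (ρ • p.1 + s • p.2) ∂μ = 2 * (g p.1 * g (ρ • p.1 + s • p.2)) := by
    intro p
    rw [integral_mul_const]
    unfold rnd
    rw [integral_const_mul, int_step (abs_mul_le_one (abs_le_of_pm (hη _)) (hg _))]
    rcases hη p.1 with h | h <;> rw [h] <;> ring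
  simp_rw [hin] at hsw
  rw [integral_const_mul] at hsw
  have hμ : μ ≠ 0 := by
    intro h
    have := congrArg (fun m : Measure ℝ => m univ) h
    simp [μ] at this
    norm_num at this
  obtain ⟨u, hu⟩ := exists_average_le hμ hint.integral_prod_left
  refine ⟨u, ?_⟩
  simp only [Function.uncurry_apply_pair] at hu
  rw [average_eq, hsw] at hu
  have hreal : μ.real univ = 2 := by
    simp [μ, Measure.real]
    norm_num
  have mf : Measurable (rnd η g u) := hm.comp (measurable_const.prodMk measurable_id)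
  rw [hreal, smul_eq_mul, bilin_eq hs ha hb mg mg hg hg,
    bilin_eq hs ha hb mf mg (hb1 u) hg] at hu
  have m1 := sm_meas a b mf
  have m2 := sm_meas a b mg
  have b1 := sm_abs_le a b (hb1 u)
  have b2 := sm_abs_le a b hg
  have i11 : Integrable (fun w => sm a b (rnd η g u) w * sm a b (rnd η g u) w) (gauss n) :=
    integrable_of_bdd (gauss n) (m1.mul m1) fun w => abs_mul_le_one (b1 w) (b1 w)
  have i12 : Integrable (fun w => sm a b (rnd η g u) w * sm a b g w) (gauss n) :=
    integrable_of_bdd (gauss n) (m1.mul m2) fun w => abs_mul_le_one (b1 w) (b2 w)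
  have i22 : Integrable (fun w => sm a b g w * sm a b g w) (gauss n) :=
    integrable_of_bdd (gauss n) (m2.mul m2) fun w => abs_mul_le_one (b2 w) (b2 w)
  have hnn : ∫ w, 2 * (sm a b (rnd η g u) w * sm a b g w) ∂gauss n ≤
      ∫ w, (sm a b (rnd η g u) w * sm a b (rnd η g u) w + sm a b g w * sm a b g w) ∂gauss n := by
    refine integral_mono (i12.const_mul 2) (i11.add i22) fun w => ?_
    simp only
    nlinarith [sq_nonneg (sm a b (rnd η g u) w - sm a b g w)]
  rw [integral_const_mul, integral_add i11 i22] at hnn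
  linarith

lemma map_lin {n : ℕ} (L : (Fin n → ℝ) →L[ℝ] ℝ) (v : ℝ≥0)
    (hv : ∑ i, L (Pi.single i 1) ^ 2 = v) : (gauss n).map L = gaussianReal 0 v := by
  refine Measure.ext_of_charFun ?_
  funext u
  rw [charFun_map_eq_charFunDual_smul, charFun_gauss, charFun_gaussianReal]
  simp only [smul_apply, smul_eq_mul, mul_pow]
  rw [← Finset.mul_sum, hv]
  push_cast
  congr 1
  ring

lemma map_neg_gauss (n : ℕ) : (gauss n).map (fun x => -x) = gauss n := by
  refine Measure.ext_of_charFunDual ?_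
  funext L
  change charFunDual ((gauss n).map (-ContinuousLinearMap.id ℝ (Fin n → ℝ))) L = _
  rw [charFunDual_map, charFun_gauss, charFun_gauss]
  simp

lemma int_sm {n : ℕ} {ρ s a b : ℝ} (hs : s ^ 2 = 1 - ρ ^ 2) (ha : a ^ 2 = ρ)
    (hb : b ^ 2 = 1 - ρ) {f : (Fin n → ℝ) → ℝ} (mf : Measurable f) (hf : ∀ x, |f x| ≤ 1) :
    ∫ w, sm a b f w ∂gauss n = ∫ x, f x ∂gauss n := by
  have := bilin_eq hs ha hb (h := fun _ => 1) mf measurable_const hf (by simp)
  simp only [mul_one, sm, integral_const, probReal_univ, smul_eq_mul] at this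
  rw [integral_fun_fst] at this
  simpa [sm] using this.symm

lemma stab_eq {n : ℕ} {ρ s a b : ℝ} (hs : s ^ 2 = 1 - ρ ^ 2) (ha : a ^ 2 = ρ)
    (hb : b ^ 2 = 1 - ρ) {f : (Fin n → ℝ) → ℝ} (mf : Measurable f)
    (hf : ∀ x, f x = 1 ∨ f x = -1) {A : Set (Fin n → ℝ)} (hA : ∀ x, x ∈ A ↔ f x = 1) :
    ((gauss n).prod (gauss n)).real {p | p.1 ∈ A ∧ ρ • p.1 + s • p.2 ∈ A} =
      1 / 4 + (∫ x, f x ∂gauss n) / 2 + (∫ w, sm a b f w * sm a b f w ∂gauss n) / 4 := by
  have hf1 : ∀ x, |f x| ≤ 1 := fun x => abs_le_of_pm (hf x)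
  have mA : MeasurableSet A := by
    have : A = f ⁻¹' {1} := by ext x; simp [hA]
    rw [this]; exact mf (measurableSet_singleton 1)
  set h : (Fin n → ℝ) → ℝ := fun x => (1 + f x) / 2 with hh
  have mh : Measurable h := by fun_prop
  have bh : ∀ x, |h x| ≤ 1 := by
    intro x; rcases hf x with e | e <;> simp [hh, e]
  have mS : MeasurableSet {p : (Fin n → ℝ) × (Fin n → ℝ) | p.1 ∈ A ∧ ρ • p.1 + s • p.2 ∈ A} :=
    (measurable_fst mA).inter ((by fun_prop : Measurable
      fun p : (Fin n → ℝ) × (Fin n → ℝ) => ρ • p.1 + s • p.2) mA)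
  rw [← integral_indicator_one mS]
  have e1 : indicator {p : (Fin n → ℝ) × (Fin n → ℝ) | p.1 ∈ A ∧ ρ • p.1 + s • p.2 ∈ A}
      (1 : (Fin n → ℝ) × (Fin n → ℝ) → ℝ) = fun p => h p.1 * h (ρ • p.1 + s • p.2) := by
    funext p
    simp only [indicator, mem_ofPred_eq, hA, hh, Pi.one_apply]
    rcases hf p.1 with e | e <;> rcases hf (ρ • p.1 + s • p.2) with e' | e' <;>
      simp [e, e'] <;> norm_num
  rw [e1, bilin_eq hs ha hb mh mh bh bh]
  have e2 : ∀ w, sm a b h w = (1 + sm a b f w) / 2 := by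
    intro w
    simp only [sm, hh]
    have i0 : Integrable (fun z => f (a • w + b • z)) (gauss n) :=
      integrable_of_bdd _ (mf.comp (by fun_prop)) fun z => hf1 _
    rw [integral_div, integral_add (integrable_const _) i0]
    simp
  simp_rw [e2]
  have m1 := sm_meas a b mf
  have b1 := sm_abs_le a b hf1
  have i1 := integrable_of_bdd (gauss n) m1 b1
  have i11 : Integrable (fun w => sm a b f w * sm a b f w) (gauss n) :=
    integrable_of_bdd (gauss n) (m1.mul m1) fun w => abs_mul_le_one (b1 w) (b1 w)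
  have i2 : Integrable (fun w => 1 / 4 + sm a b f w / 2) (gauss n) :=
    (integrable_const _).add (i1.div_const 2)
  have e3 : ∀ w, (1 + sm a b f w) / 2 * ((1 + sm a b f w) / 2) =
      (1 / 4 + sm a b f w / 2) + sm a b f w * sm a b f w / 4 := fun w => by ring
  simp_rw [e3]
  rw [integral_add i2 (i11.div_const 4),
    integral_add (integrable_const _) (i1.div_const 2), integral_div, integral_div,
    integral_div, int_sm hs ha hb mf hf1]
  simp

/-- Square wave. -/
noncomputable def sqw (t : ℝ) : ℝ := if 0 ≤ sin (π * t) then 1 else -1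

lemma sqw_meas : Measurable sqw :=
  Measurable.ite (measurableSet_le measurable_const (by fun_prop)) measurable_const
    measurable_const

lemma sqw_bound {v0 : ℝ} (hv0 : 0 < v0) : ∃ C : ℝ, 0 < C ∧ ∀ v : ℝ≥0, v0 ≤ v → ∀ c : ℝ,
    |∫ t, sqw (c + t) ∂gaussianReal 0 v| ≤ C * exp (-(π ^ 2 * v / 2)) := by
  obtain ⟨C, hC, h⟩ := antiper_gauss_bound hv0
  refine ⟨C, hC, fun v hv c => ?_⟩
  have hvp : (0 : ℝ) < v := lt_of_lt_of_le hv0 hv
  have hne : v ≠ 0 := by exact_mod_cast hvp.ne'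
  haveI := nullSingletonClass_gaussianReal (μ := 0) hne
  set φ : ℝ → ℝ := fun t => if 0 < sin (π * (c + t)) then 1 else
    if sin (π * (c + t)) < 0 then -1 else 0 with hφ
  have hae : (fun t => sqw (c + t)) =ᵐ[gaussianReal 0 v] φ := by
    have hc : (range fun m : ℤ => (m : ℝ) - c).Countable := countable_range _
    have h0 := hc.measure_zero (gaussianReal 0 v)
    refine measure_mono_null (fun t ht => ?_) h0
    by_contra hn
    apply ht
    have hs : sin (π * (c + t)) ≠ 0 := by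
      intro hs
      obtain ⟨m, hm⟩ := sin_eq_zero_iff.mp hs
      refine hn ⟨m, ?_⟩
      have : π * m = π * (c + t) := by linarith
      have := mul_left_cancel₀ pi_pos.ne' this
      simp only; linarith
    simp only [mem_ofPred_eq, sqw, hφ]
    rcases lt_or_gt_of_ne hs with h | h
    · simp [h, not_le.mpr h, not_lt.mpr h.le]
    · simp [h, h.le]
  rw [integral_congr_ae hae]
  refine h v hv φ ?_ (fun t => ?_) fun t => ?_
  · exact Measurable.ite (measurableSet_lt measurable_const (by fun_prop)) measurable_const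
      (Measurable.ite (measurableSet_lt (by fun_prop) measurable_const) measurable_const
        measurable_const)
  · simp only [hφ]; split_ifs <;> simp
  · simp only [hφ]
    rw [show π * (c + (t + 1)) = π * (c + t) + π by ring, sin_add_pi]
    rcases lt_trichotomy (sin (π * (c + t))) 0 with h | h | h
    · simp [h, not_lt.mpr h.le]
    · simp [h]
    · simp [h, not_lt.mpr h.le]

end Pool.Agent.H28KM
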