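import Mathlib
import Pool.Agent.Lib.helper28.KMA
import Pool.Agent.Lib.helper28.KMB

namespace Pool.Agent.H28KM

open MeasureTheory ProbabilityTheory Set Real Filter Topology
open scoped ENNReal NNReal

/-- The standard Gaussian density `(2π)^(-n/2) exp(-|x|²/2)` on Euclidean `ℝ^n`. -/
noncomputable def gam {n : ℕ} (x : EuclideanSpace ℝ (Fin n)) : ℝ :=
  (2 * π) ^ (-(n : ℝ) / 2) * exp (-‖x‖ ^ 2 / 2)

lemma gam_meas {n : ℕ} : Measurable fun x : EuclideanSpace ℝ (Fin n) => ENNReal.ofReal (gam x) := by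
  unfold gam
  fun_prop

noncomputable def emb (a u w1 w2 w3 : ℝ) : EuclideanSpace ℝ (Fin 5) :=
  WithLp.toLp 2 ![a, (u + w1 + w2 + w3) / 2, (u + w1 - w2 - w3) / 2, (u - w1 + w2 - w3) / 2,
    (u - w1 - w2 + w3) / 2]

lemma emb_dist (a u w1 w2 w3 a' u' w1' w2' w3' : ℝ) :
    dist (emb a u w1 w2 w3) (emb a' u' w1' w2' w3') ^ 2 =
      (a - a') ^ 2 + (u - u') ^ 2 + (w1 - w1') ^ 2 + (w2 - w2') ^ 2 + (w3 - w3') ^ 2 := by
  rw [EuclideanSpace.dist_sq_eq]
  simp only [Real.dist_eq, sq_abs, emb, Fin.sum_univ_five]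
  simp
  ring

lemma emb_norm (a u w1 w2 w3 : ℝ) :
    ‖emb a u w1 w2 w3‖ ^ 2 = a ^ 2 + u ^ 2 + w1 ^ 2 + w2 ^ 2 + w3 ^ 2 := by
  rw [EuclideanSpace.real_norm_sq_eq]
  simp only [emb, Fin.sum_univ_five]
  simp
  ring

lemma gd_pos (v x : ℝ) (hv : 0 < v) : 0 < gd v x := by
  unfold gd; positivity

lemma gd_cont (v : ℝ) : Continuous (gd v) := by
  unfold gd; fun_prop

lemma gam_emb (a u w1 w2 w3 : ℝ) :
    gam (emb a u w1 w2 w3) = gd 1 a * gd 1 u * (gd 1 w1 * gd 1 w2 * gd 1 w3) := by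
  have h : (2 * π) ^ (-((5 : ℕ) : ℝ) / 2) = (√(2 * π * 1))⁻¹ ^ 5 := by
    have hp : 0 < 2 * π := by positivity
    rw [mul_one, sqrt_eq_rpow, ← rpow_neg hp.le, ← rpow_natCast, ← rpow_mul hp.le]
    congr 1
    push_cast
    ring
  rw [gam, emb_norm, h]
  unfold gd
  rw [show -(a ^ 2 + u ^ 2 + w1 ^ 2 + w2 ^ 2 + w3 ^ 2) / 2 = -a ^ 2 / (2 * 1) + -u ^ 2 / (2 * 1) +
    -w1 ^ 2 / (2 * 1) + -w2 ^ 2 / (2 * 1) + -w3 ^ 2 / (2 * 1) by ring,
    exp_add, exp_add, exp_add, exp_add]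
  ring

lemma gd_one_eq : gd 1 = gaussianPDFReal 0 1 := by
  funext x; simp [gd, gaussianPDFReal]

lemma lint_split {F : ℝ → ℝ≥0∞} (hF : Measurable F) :
    ∫⁻ y : EuclideanSpace ℝ (Fin 4), F (y 0) *
      ENNReal.ofReal (gd 1 (y 1) * gd 1 (y 2) * gd 1 (y 3)) = ∫⁻ s, F s := by
  have hc := gd_cont 1
  have h1 := (PiLp.volume_preserving_toLp (Fin 4)).lintegral_comp
    (f := fun y : EuclideanSpace ℝ (Fin 4) => F (y 0) *
      ENNReal.ofReal (gd 1 (y 1) * gd 1 (y 2) * gd 1 (y 3))) (by fun_prop)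
  rw [← h1]
  have h2 := (volume_preserving_piFinSuccAbove (fun _ : Fin 4 => ℝ) 0).lintegral_comp
    (f := fun p : ℝ × (Fin 3 → ℝ) => F p.1 * ENNReal.ofReal (∏ i, gd 1 (p.2 i))) (by fun_prop)
  have h3 : ∫⁻ w : Fin 3 → ℝ, ENNReal.ofReal (∏ i, gd 1 (w i)) = 1 := by
    rw [← ofReal_integral_eq_lintegral_ofReal, integral_fintype_prod_volume_eq_pow, gd_one_eq,
      integral_gaussianPDFReal_eq_one 0 one_ne_zero]
    · simp
    · rw [gd_one_eq]
      exact Integrable.fintype_prod (f := fun _ : Fin 3 => gaussianPDFReal 0 1)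
        fun _ => integrable_gaussianPDFReal 0 1
    · exact Eventually.of_forall fun w => Finset.prod_nonneg fun i _ => (gd_pos _ _ one_pos).le
  rw [Measure.volume_eq_prod, lintegral_prod_mul (f := F)
    (g := fun w : Fin 3 → ℝ => ENNReal.ofReal (∏ i, gd 1 (w i))) hF.aemeasurable
    (Measurable.aemeasurable (by have := hc.measurable; fun_prop)), h3, mul_one] at h2
  rw [← h2]
  refine lintegral_congr fun y => ?_
  simp only [Fin.prod_univ_three]
  rfl

lemma lint_range_le {Φ : EuclideanSpace ℝ (Fin 4) → EuclideanSpace ℝ (Fin 5)}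
    (h : LipschitzWith 1 Φ) {f : EuclideanSpace ℝ (Fin 5) → ℝ≥0∞} (hf : Measurable f) :
    ∫⁻ x in range Φ, f x ∂μHE[4] ≤ ∫⁻ y, f (Φ y) := by
  have mΦ : Measurable Φ := h.continuous.measurable
  rw [← lintegral_map hf mΦ]
  refine lintegral_mono' ?_ le_rfl
  rw [Measure.le_iff]
  intro s hs
  rw [Measure.restrict_apply hs, Measure.map_apply mΦ hs, ← image_preimage_eq_inter_range,
    ← EuclideanSpace.euclideanHausdorffMeasure_eq_volume,
    Measure.euclideanHausdorffMeasure_def, Measure.euclideanHausdorffMeasure_def,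
    Measure.smul_apply, Measure.smul_apply]
  have := h.hausdorffMeasure_image_le (d := ((4 : ℕ) : ℝ)) (by positivity) (Φ ⁻¹' s)
  simp only [ENNReal.coe_one, ENNReal.one_rpow, one_mul] at this
  simp only [ENNReal.smul_def, smul_eq_mul]
  gcongr

lemma lint_range_eq {Φ : EuclideanSpace ℝ (Fin 4) → EuclideanSpace ℝ (Fin 5)}
    (h : Isometry Φ) {f : EuclideanSpace ℝ (Fin 5) → ℝ≥0∞} (hf : Measurable f) :
    ∫⁻ x in range Φ, f x ∂μHE[4] = ∫⁻ y, f (Φ y) := by
  rw [← h.map_euclideanHausdorffMeasure, lintegral_map hf h.continuous.measurable,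
    EuclideanSpace.euclideanHausdorffMeasure_eq_volume]

lemma cov {L l M : ℝ → ℝ} (hL : ∀ a, HasDerivAt L (l a) a) (hM : ∀ a, M (L a) = a)
    (hs : Function.Surjective L) (F : ℝ → ℝ≥0∞) :
    ∫⁻ s, F (M s) = ∫⁻ a, ENNReal.ofReal |l a| * F a := by
  have := lintegral_image_eq_lintegral_abs_deriv_mul (s := univ) (f := L) (f' := l)
    MeasurableSet.univ (fun a _ => (hL a).hasDerivWithinAt)
    (Function.LeftInverse.injective hM).injOn (fun s => F (M s))
  simpa [image_univ, hs.range_eq, hM] using this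

/-- The parametrisation of a cylinder over a plane curve. -/
noncomputable def par4 (M h : ℝ → ℝ) (y : EuclideanSpace ℝ (Fin 4)) : EuclideanSpace ℝ (Fin 5) :=
  emb (M (y 0)) (h (M (y 0))) (y 1) (y 2) (y 3)

lemma range_par4 {M : ℝ → ℝ} (hM : Function.Surjective M) (h : ℝ → ℝ) :
    range (par4 M h) = {x | x 1 + x 2 + x 3 + x 4 = 2 * h (x 0)} := by
  ext x
  simp only [mem_range, mem_ofPred_eq]
  constructor
  · rintro ⟨y, rfl⟩
    simp [par4, emb]
    ring
  · intro hx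
    obtain ⟨s, hs⟩ := hM (x 0)
    refine ⟨WithLp.toLp 2 ![s, (x 1 + x 2 - x 3 - x 4) / 2, (x 1 - x 2 + x 3 - x 4) / 2,
      (x 1 - x 2 - x 3 + x 4) / 2], ?_⟩
    ext i
    fin_cases i <;> simp [par4, emb, hs] <;> linarith

lemma lint_par4 {L l M h : ℝ → ℝ} (hL : ∀ a, HasDerivAt L (l a) a) (hM : ∀ a, M (L a) = a)
    (hs : Function.Surjective L) (mM : Measurable M) (mh : Measurable h) :
    ∫⁻ y, ENNReal.ofReal (gam (par4 M h y)) =
      ∫⁻ a, ENNReal.ofReal |l a| * ENNReal.ofReal (gd 1 a * gd 1 (h a)) := by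
  have hc := gd_cont 1
  rw [← cov hL hM hs (fun a => ENNReal.ofReal (gd 1 a * gd 1 (h a))),
    ← lint_split (F := fun s => ENNReal.ofReal (gd 1 (M s) * gd 1 (h (M s)))) (by fun_prop)]
  refine lintegral_congr fun y => ?_
  rw [par4, gam_emb, ENNReal.ofReal_mul
    (mul_nonneg (gd_pos _ _ one_pos).le (gd_pos _ _ one_pos).le)]

lemma arc_exists {φ d : ℝ → ℝ} (hφ : ∀ a, HasDerivAt φ (d a) a) (hd : Continuous d) :
    ∃ L M : ℝ → ℝ, (∀ a, HasDerivAt L (√(1 + d a ^ 2 / 4)) a) ∧ (∀ a, M (L a) = a) ∧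
      (∀ s, L (M s) = s) ∧
      ∀ a b, (a - b) ^ 2 + ((φ a - φ b) / 2) ^ 2 ≤ (L a - L b) ^ 2 := by
  set l : ℝ → ℝ := fun a => √(1 + d a ^ 2 / 4) with hl
  have cl : Continuous l := by fun_prop
  have l1 : ∀ a, 1 ≤ l a := fun a => by
    rw [hl]; exact Real.one_le_sqrt.mpr (by nlinarith [sq_nonneg (d a)])
  set L : ℝ → ℝ := fun a => ∫ t in (0 : ℝ)..a, l t with hLdef
  have hL : ∀ a, HasDerivAt L (l a) a := fun a => (cl.integral_hasStrictDerivAt 0 a).hasDerivAt
  have hsub : ∀ a b, L b - L a = ∫ t in a..b, l t := fun a b =>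
    intervalIntegral.integral_interval_sub_left (cl.intervalIntegrable _ _)
      (cl.intervalIntegrable _ _)
  have hge : ∀ a b, a ≤ b → b - a ≤ L b - L a := by
    intro a b hab
    rw [hsub]
    have := intervalIntegral.integral_mono_on hab (intervalIntegrable_const (c := (1 : ℝ)) (μ := volume))
      (cl.intervalIntegrable _ _) fun t _ => l1 t
    simpa using this
  have hmono : StrictMono L := fun a b hab => by linarith [hge a b hab.le]
  have cL : Continuous L := continuous_iff_continuousAt.mpr fun a => (hL a).continuousAt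
  have hsurj : Function.Surjective L := by
    refine cL.surjective ?_ ?_
    · refine tendsto_atTop_mono' _ ?_ (tendsto_atTop_add_const_right _ (L 0) tendsto_id)
      filter_upwards [eventually_ge_atTop 0] with a ha
      simp only [id]; linarith [hge 0 a ha]
    · refine tendsto_atBot_mono' _ ?_ (tendsto_atBot_add_const_right _ (L 0) tendsto_id)
      filter_upwards [eventually_le_atBot 0] with a ha
      simp only [id]; linarith [hge a 0 ha]
  have key : ∀ a b, a ≤ b → (a - b) ^ 2 + ((φ a - φ b) / 2) ^ 2 ≤ (L a - L b) ^ 2 := by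
    intro a b hab
    have hc : ∀ t, HasDerivAt (fun t : ℝ => (t : ℂ) + ((φ t / 2 : ℝ) : ℂ) * Complex.I)
        (((1 : ℝ) : ℂ) + ((d t / 2 : ℝ) : ℂ) * Complex.I) t := fun t =>
      (hasDerivAt_id t).ofReal_comp.add (((hφ t).div_const 2).ofReal_comp.mul_const Complex.I)
    have hi := intervalIntegral.integral_eq_sub_of_hasDerivAt (a := a) (b := b)
      (fun t _ => hc t) (Continuous.intervalIntegrable (by fun_prop) _ _)
    have hn := intervalIntegral.norm_integral_le_integral_norm (μ := volume)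
      (f := fun t => ((1 : ℝ) : ℂ) + ((d t / 2 : ℝ) : ℂ) * Complex.I) hab
    have e : ∀ t, ‖((1 : ℝ) : ℂ) + ((d t / 2 : ℝ) : ℂ) * Complex.I‖ = l t := by
      intro t
      rw [Complex.norm_add_mul_I, hl]
      congr 1; ring
    simp_rw [e] at hn
    rw [hi, ← hsub] at hn
    have e2 : ((b : ℂ) + ((φ b / 2 : ℝ) : ℂ) * Complex.I - (a + ((φ a / 2 : ℝ) : ℂ) * Complex.I)) =
        ((b - a : ℝ) : ℂ) + (((φ b - φ a) / 2 : ℝ) : ℂ) * Complex.I := by push_cast; ring
    rw [e2, Complex.norm_add_mul_I] at hn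
    have := pow_le_pow_left₀ (sqrt_nonneg _) hn 2
    rw [sq_sqrt (by positivity)] at this
    nlinarith
  refine ⟨L, Function.invFun L, hL, Function.leftInverse_invFun hmono.injective,
    Function.rightInverse_invFun hsurj, fun a b => ?_⟩
  rcases le_total a b with h | h
  · exact key a b h
  · nlinarith [key b a h]

lemma surf_le {φ d : ℝ → ℝ} (hφ : ∀ a, HasDerivAt φ (d a) a) (hd : Continuous d) (k : ℝ) :
    ∫⁻ x in {x : EuclideanSpace ℝ (Fin 5) | φ (x 0) + x 1 + x 2 + x 3 + x 4 = k},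
      ENNReal.ofReal (gam x) ∂μHE[4] ≤
      ∫⁻ a, ENNReal.ofReal (√(1 + d a ^ 2 / 4) * gd 1 a) *
        ENNReal.ofReal (gd 1 ((k - φ a) / 2)) := by
  obtain ⟨L, M, hL, hM, hLM, hle⟩ := arc_exists hφ hd
  have cφ : Continuous φ := continuous_iff_continuousAt.mpr fun a => (hφ a).continuousAt
  have hMs : Function.Surjective M := fun a => ⟨L a, hM a⟩
  have hLs : Function.Surjective L := fun s => ⟨M s, hLM s⟩
  have hlip : LipschitzWith 1 (par4 M fun a => (k - φ a) / 2) := by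
    refine LipschitzWith.mk_one fun y z => ?_
    refine (pow_le_pow_iff_left₀ dist_nonneg dist_nonneg two_ne_zero).mp ?_
    rw [par4, par4, emb_dist, EuclideanSpace.dist_sq_eq]
    simp only [Real.dist_eq, sq_abs, Fin.sum_univ_four]
    have := hle (M (y 0)) (M (z 0))
    rw [hLM, hLM] at this
    nlinarith
  have hMl : LipschitzWith 1 M := by
    refine LipschitzWith.mk_one fun s t => ?_
    have := hle (M s) (M t)
    rw [hLM, hLM] at this
    rw [Real.dist_eq, Real.dist_eq]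
    exact sq_le_sq.mp (by nlinarith [sq_nonneg ((φ (M s) - φ (M t)) / 2)])
  have e : {x : EuclideanSpace ℝ (Fin 5) | φ (x 0) + x 1 + x 2 + x 3 + x 4 = k} =
      range (par4 M fun a => (k - φ a) / 2) := by
    rw [range_par4 hMs]
    ext x
    simp only [mem_ofPred_eq]
    constructor <;> intro h <;> linarith
  rw [e]
  refine (lint_range_le hlip gam_meas).trans (le_of_eq ?_)
  rw [lint_par4 hL hM hLs hMl.continuous.measurable (by fun_prop)]
  refine lintegral_congr fun a => ?_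
  rw [abs_of_nonneg (sqrt_nonneg _), ENNReal.ofReal_mul (gd_pos _ _ one_pos).le,
    ENNReal.ofReal_mul (sqrt_nonneg _), mul_assoc]

lemma plane_eq (k : ℝ) :
    ∫⁻ x in {x : EuclideanSpace ℝ (Fin 5) | x 0 + x 1 + x 2 + x 3 + x 4 = k},
      ENNReal.ofReal (gam x) ∂μHE[4] =
      ∫⁻ a, ENNReal.ofReal (√5 / 2 * gd 1 a) * ENNReal.ofReal (gd 1 ((k - a) / 2)) := by
  have h5 : √5 ^ 2 = 5 := sq_sqrt (by norm_num)
  have h5p : 0 < √5 := by positivity
  set M : ℝ → ℝ := fun s => 2 / √5 * s with hMdef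
  have hM : ∀ a, M (√5 / 2 * a) = a := fun a => by simp only [hMdef]; field_simp
  have hMs : Function.Surjective M := fun a => ⟨_, hM a⟩
  have hLs : Function.Surjective fun a : ℝ => √5 / 2 * a := fun s =>
    ⟨M s, by simp only [hMdef]; field_simp⟩
  have hiso : Isometry (par4 M fun a => (k - a) / 2) := by
    refine Isometry.of_dist_eq fun y z => ?_
    refine (pow_left_inj₀ dist_nonneg dist_nonneg two_ne_zero).mp ?_
    rw [par4, par4, emb_dist, EuclideanSpace.dist_sq_eq]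
    simp only [Real.dist_eq, sq_abs, Fin.sum_univ_four, hMdef]
    field_simp
    rw [h5]
    ring
  have e : {x : EuclideanSpace ℝ (Fin 5) | x 0 + x 1 + x 2 + x 3 + x 4 = k} =
      range (par4 M fun a => (k - a) / 2) := by
    rw [range_par4 hMs]
    ext x
    simp only [mem_ofPred_eq]
    constructor <;> intro h <;> linarith
  rw [e, lint_range_eq hiso gam_meas, lint_par4 (L := fun a => √5 / 2 * a)
    (l := fun _ => √5 / 2) (fun a => by simpa using (hasDerivAt_id a).const_mul (√5 / 2)) hM hLs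
    (by fun_prop) (by fun_prop)]
  refine lintegral_congr fun a => ?_
  rw [abs_of_nonneg (by positivity), ENNReal.ofReal_mul (gd_pos _ _ one_pos).le,
    ENNReal.ofReal_mul (by positivity), mul_assoc]

end Pool.Agent.H28KM
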