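import Mathlib

namespace Pool.Agent.H28Kah

open MeasureTheory AddCircle Filter Topology Finset
open scoped ComplexConjugate

variable {T : ℝ} [hT : Fact (0 < T)]

/-- `L¹` of the circle. -/
noncomputable abbrev L1 (T : ℝ) [Fact (0 < T)] := Lp ℂ 1 (haarAddCircle : Measure (AddCircle T))

lemma intg {E : Type} [NormedAddCommGroup E] {f : AddCircle T → E} (hf : Continuous f) :
    Integrable f haarAddCircle :=
  hf.integrable_of_hasCompactSupport (HasCompactSupport.of_compactSpace f)

omit hT in
lemma four_add (k : ℤ) (a b : AddCircle T) : fourier k (a + b) = fourier k a * fourier k b := by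
  simp only [fourier_apply, smul_add, toCircle_add, Circle.coe_mul]

omit hT in
lemma four_norm (k : ℤ) (a : AddCircle T) : ‖fourier k a‖ = 1 := by
  rw [fourier_apply, Circle.norm_coe]

lemma int_conv {f g : AddCircle T → ℂ} (hf : Integrable f haarAddCircle)
    (hg : Integrable g haarAddCircle) :
    Integrable (fun x => ∫ y, f y * g (x - y) ∂haarAddCircle) haarAddCircle :=
  hf.integrable_convolution (ContinuousLinearMap.mul ℂ ℂ) hg

lemma co_conv {f g : AddCircle T → ℂ} (hf : Integrable f haarAddCircle)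
    (hg : Integrable g haarAddCircle) (n : ℤ) :
    fourierCoeff (fun x => ∫ y, f y * g (x - y) ∂haarAddCircle) n =
      fourierCoeff f n * fourierCoeff g n := by
  have := integral_convolution (L := ContinuousLinearMap.mul ℂ ℂ) (hf.fourier_smul (-n))
    (hg.fourier_smul (-n))
  refine Eq.trans ?_ this
  refine integral_congr_ae (ae_of_all _ fun x => ?_)
  simp only [convolution_def, ContinuousLinearMap.mul_apply', smul_eq_mul]
  rw [← integral_const_mul]
  refine integral_congr_ae (ae_of_all _ fun y => ?_)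
  have e := four_add (-n) y (x - y)
  rw [add_sub_cancel] at e
  simp only [e]; ring

lemma norm_conv {f g : AddCircle T → ℂ} (hf : Integrable f haarAddCircle)
    (hg : Integrable g haarAddCircle) :
    ∫ x, ‖∫ y, f y * g (x - y) ∂haarAddCircle‖ ∂haarAddCircle ≤
      (∫ x, ‖f x‖ ∂haarAddCircle) * ∫ x, ‖g x‖ ∂haarAddCircle := by
  have := integral_convolution (L := ContinuousLinearMap.mul ℝ ℝ) hf.norm hg.norm
  refine le_trans (integral_mono (int_conv hf hg).norm
    (hf.norm.integrable_convolution (ContinuousLinearMap.mul ℝ ℝ) hg.norm) fun x => ?_) this.le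
  simp only [convolution_def, ContinuousLinearMap.mul_apply']
  refine (norm_integral_le_integral_norm _).trans (le_of_eq ?_)
  simp only [norm_mul]

lemma co_le {f : AddCircle T → ℂ} (n : ℤ) :
    ‖fourierCoeff f n‖ ≤ ∫ x, ‖f x‖ ∂haarAddCircle := by
  refine (norm_integral_le_integral_norm _).trans (le_of_eq ?_)
  simp only [norm_smul, four_norm, one_mul]

/-- Fourier coefficient as a continuous functional on `L¹`. -/
noncomputable def coL (n : ℤ) : L1 T →L[ℂ] ℂ :=
  LinearMap.mkContinuous
    { toFun := fun f => fourierCoeff (f : AddCircle T → ℂ) n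
      map_add' := fun f g => by
        rw [fourierCoeff_congr_ae (Lp.coeFn_add f g),
          fourierCoeff.add (L1.integrable_coeFn f) (L1.integrable_coeFn g)]; rfl
      map_smul' := fun c f => by
        rw [fourierCoeff_congr_ae (Lp.coeFn_smul c f), fourierCoeff.const_smul]; rfl } 1
    fun f => by rw [one_mul, L1.norm_eq_integral_norm]; exact co_le n

lemma coL_apply (n : ℤ) (f : L1 T) : coL n f = fourierCoeff (f : AddCircle T → ℂ) n := rfl

lemma coL_e (n m : ℤ) : coL n (fourierLp (T := T) 1 m) = if n = m then 1 else 0 := by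
  rw [coL_apply, fourierCoeff_congr_ae (coeFn_fourierLp 1 m), fourierCoeff_fourier, Pi.single_apply]

lemma co_poly {ι : Type} (I : Finset ι) (a : ι → ℂ) (φ : ι → ℤ) (n : ℤ) :
    fourierCoeff (T := T) (fun x => ∑ p ∈ I, a p * fourier (φ p) x) n =
      ∑ p ∈ I, if φ p = n then a p else 0 := by
  have := fourierCoeff.sum (T := T) I (fun p x => a p * fourier (φ p) x)
    (fun p _ => intg (by fun_prop))
  rw [show (fun x => ∑ p ∈ I, a p * fourier (φ p) x) =
    ∑ p ∈ I, fun x : AddCircle T => a p * fourier (φ p) x by ext x; simp, this, Finset.sum_apply]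
  refine Finset.sum_congr rfl fun p _ => ?_
  rw [fourierCoeff.const_mul, fourierCoeff_fourier, Pi.single_apply]
  simp [eq_comm]

lemma pars (P : C(AddCircle T, ℂ)) :
    HasSum (fun n => ‖fourierCoeff P n‖ ^ 2) (∫ x, ‖P x‖ ^ 2 ∂haarAddCircle) := by
  have := hasSum_sq_fourierCoeff (ContinuousMap.toLp 2 haarAddCircle ℂ P)
  simp only [fourierCoeff_toLp] at this
  convert this using 1
  refine integral_congr_ae ?_
  filter_upwards [ContinuousMap.coeFn_toLp (p := 2) (𝕜 := ℂ) haarAddCircle P] with x hx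
  rw [hx]

/-- Fejer weights. -/
noncomputable def wt (N : ℕ) (n : ℤ) : ℝ :=
  (((range N ×ˢ range N).filter fun p : ℕ × ℕ => (p.1 : ℤ) - p.2 = n).card : ℝ) / N

lemma wt_nonneg (N : ℕ) (n : ℤ) : 0 ≤ wt N n := by unfold wt; positivity

lemma wt_le (N : ℕ) (n : ℤ) : wt N n ≤ 1 := by
  refine div_le_one_of_le₀ ?_ (Nat.cast_nonneg N)
  have := Finset.card_le_card_of_injOn (s := (range N ×ˢ range N).filter
    fun p : ℕ × ℕ => (p.1 : ℤ) - p.2 = n) (t := range N) Prod.fst
    (fun p hp => (mem_product.mp (mem_filter.mp hp).1).1) (fun p hp q hq h => by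
      have a := (mem_filter.mp hp).2
      have b := (mem_filter.mp hq).2
      exact Prod.ext h (by omega))
  exact_mod_cast this.trans (card_range N).le

lemma wt_tendsto (n : ℤ) : Tendsto (fun N => wt N n) atTop (𝓝 1) := by
  have t : Tendsto (fun N : ℕ => 1 - (n.natAbs : ℝ) / N) atTop (𝓝 (1 - 0)) :=
    tendsto_const_nhds.sub (tendsto_const_div_atTop_nhds_zero_nat _)
  rw [sub_zero] at t
  refine tendsto_of_tendsto_of_tendsto_of_le_of_le' t tendsto_const_nhds ?_
    (Eventually.of_forall fun N => wt_le N n)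
  filter_upwards [eventually_gt_atTop 0] with N hN
  have := Finset.card_le_card_of_injOn (s := range (N - n.natAbs)) (t := (range N ×ˢ range N).filter
    fun p : ℕ × ℕ => (p.1 : ℤ) - p.2 = n) (fun i => (i + n.toNat, i + (-n).toNat))
    (fun i hi => by
      have := mem_range.mp hi
      simp only [coe_filter, mem_product, mem_range, Set.mem_ofPred_eq]
      omega) (fun i _ j _ h => by simpa using congrArg Prod.fst h)
  rw [card_range] at this
  have hN' : (0 : ℝ) < N := by exact_mod_cast hN
  rw [wt, le_div_iff₀ hN', sub_mul, div_mul_cancel₀ _ hN'.ne', one_mul, sub_le_iff_le_add]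
  exact_mod_cast Nat.sub_le_iff_le_add.mp this

lemma wt_zero {N : ℕ} {n : ℤ} (h : n ∉ Icc (-(N : ℤ)) N) : wt N n = 0 := by
  rw [wt, filter_eq_empty_iff.mpr, card_empty, Nat.cast_zero, zero_div]
  intro p hp e
  have := mem_product.mp hp
  simp only [mem_range, mem_Icc] at this h
  omega

lemma sum_wt (N : ℕ) (c : ℂ) (n : ℤ) : (∑ p ∈ range N ×ˢ range N,
    if (p.1 : ℤ) - p.2 = n then (N : ℂ)⁻¹ * c else 0) = wt N n * c := by
  rw [← sum_filter, sum_const, wt, nsmul_eq_mul]; push_cast; ring

/-- Fejer means. -/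
noncomputable def fej (f : AddCircle T → ℂ) (N : ℕ) : C(AddCircle T, ℂ) :=
  ∑ p ∈ range N ×ˢ range N, ((N : ℂ)⁻¹ * fourierCoeff f (p.1 - p.2)) • fourier ((p.1 : ℤ) - p.2)

lemma fej_apply (f : AddCircle T → ℂ) (N : ℕ) : (fej f N : AddCircle T → ℂ) = fun x =>
    ∑ p ∈ range N ×ˢ range N, ((N : ℂ)⁻¹ * fourierCoeff f (p.1 - p.2)) *
      fourier ((p.1 : ℤ) - p.2) x := by
  ext x; simp [fej]

lemma co_fej (f : AddCircle T → ℂ) (N : ℕ) (n : ℤ) :
    fourierCoeff (fej f N) n = wt N n * fourierCoeff f n := by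
  rw [fej_apply, co_poly, ← sum_wt]
  refine Finset.sum_congr rfl fun p _ => ?_
  split_ifs with h
  · rw [h]
  · rfl

lemma fej_le {f : AddCircle T → ℂ} (hf : Integrable f haarAddCircle) (N : ℕ) :
    ∫ x, ‖fej f N x‖ ∂haarAddCircle ≤ ∫ x, ‖f x‖ ∂haarAddCircle := by
  let K : AddCircle T → ℂ := fun x =>
    ∑ p ∈ range N ×ˢ range N, ((N : ℂ)⁻¹ * 1) * fourier ((p.1 : ℤ) - p.2) x
  have hK : Continuous K := by fun_prop
  have e1 : ∀ x, fej f N x = ∫ y, f y * K (x - y) ∂haarAddCircle := by
    intro x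
    simp only [fej_apply, K, Finset.mul_sum]
    rw [integral_finsetSum _ fun p _ => hf.mul_bdd (c := ‖(N : ℂ)⁻¹ * 1‖) (by fun_prop)
      (ae_of_all _ fun y => by rw [norm_mul _ (fourier _ _), four_norm, mul_one])]
    refine Finset.sum_congr rfl fun p _ => ?_
    rw [fourierCoeff, ← integral_const_mul, ← integral_mul_const]
    refine integral_congr_ae (ae_of_all _ fun y => ?_)
    have : fourier ((p.1 : ℤ) - p.2) (-y) = fourier (-((p.1 : ℤ) - p.2)) y := by
      simp only [fourier_apply, smul_neg, neg_smul]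
    simp only [sub_eq_add_neg x y, four_add, this, smul_eq_mul]; ring
  have e2 : ∀ x, K x = (‖K x‖ : ℂ) := by
    intro x
    have : K x = (((N : ℝ)⁻¹ * ‖∑ j ∈ range N, fourier (j : ℤ) x‖ ^ 2 : ℝ) : ℂ) := by
      push_cast
      rw [← Complex.mul_conj', map_sum, Finset.sum_mul_sum, ← Finset.sum_product', Finset.mul_sum]
      refine Finset.sum_congr rfl fun p _ => ?_
      rw [sub_eq_add_neg, fourier_add, fourier_neg, mul_one]
    rw [this, Complex.norm_real, Real.norm_of_nonneg (by positivity)]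
  have e3 : ∫ x, ‖K x‖ ∂haarAddCircle = wt N 0 := by
    have := co_poly (T := T) (range N ×ˢ range N) (fun _ => (N : ℂ)⁻¹ * 1)
      (fun p => (p.1 : ℤ) - p.2) 0
    rw [sum_wt, mul_one (wt N 0 : ℂ), fourierCoeff] at this
    simp only [neg_zero, fourier_zero, one_smul] at this
    apply Complex.ofReal_injective
    rw [← this, ← integral_complex_ofReal]
    exact integral_congr_ae (ae_of_all _ fun x => (e2 x).symm)
  simp only [e1]
  refine (norm_conv hf (intg hK)).trans ?_
  rw [e3]
  exact mul_le_of_le_one_right (integral_nonneg fun _ => norm_nonneg _) (wt_le N 0)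

/-- Fejer operators. -/
noncomputable def fejL (N : ℕ) : L1 T →L[ℂ] L1 T :=
  ∑ p ∈ range N ×ˢ range N,
    (N : ℂ)⁻¹ • (coL ((p.1 : ℤ) - p.2)).smulRight (fourierLp 1 ((p.1 : ℤ) - p.2))

lemma fejL_norm (N : ℕ) (f : L1 T) : ‖fejL N f‖ = ∫ x, ‖fej f N x‖ ∂haarAddCircle := by
  have : fejL N f = ContinuousMap.toLp 1 haarAddCircle ℂ (fej f N) := by
    simp only [fejL, fej, _root_.sum_apply, map_sum, _root_.smul_apply,
      ContinuousLinearMap.smulRight_apply, map_smul, smul_smul, coL_apply]
  rw [this, L1.norm_eq_integral_norm]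
  refine integral_congr_ae ?_
  filter_upwards [ContinuousMap.coeFn_toLp (p := 1) (𝕜 := ℂ) haarAddCircle (fej f N)] with x hx
  rw [hx]

lemma fejL_le (N : ℕ) (f : L1 T) : ‖fejL N f‖ ≤ ‖f‖ := by
  rw [fejL_norm, L1.norm_eq_integral_norm f]; exact fej_le (L1.integrable_coeFn f) N

lemma fejL_tendsto (f : L1 T) : Tendsto (fun N => fejL N f) atTop (𝓝 f) := by
  have h1 : ∀ g ∈ Submodule.span ℂ (Set.range (fourierLp (T := T) 1)),
      Tendsto (fun N => fejL N g) atTop (𝓝 g) := by
    intro g hg
    induction hg using Submodule.span_induction with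
    | mem g hg =>
      obtain ⟨n, rfl⟩ := hg
      have : ∀ N, fejL N (fourierLp (T := T) 1 n) = ((wt N n : ℝ) : ℂ) • fourierLp 1 n := by
        intro N
        rw [← mul_one (wt N n : ℂ), ← sum_wt, Finset.sum_smul]
        simp only [fejL, _root_.sum_apply, _root_.smul_apply,
          ContinuousLinearMap.smulRight_apply, coL_e]
        refine Finset.sum_congr rfl fun p _ => ?_
        split_ifs with h
        · rw [h]; simp
        · simp
      simp only [this]
      simpa using (Complex.continuous_ofReal.tendsto 1 |>.comp (wt_tendsto n)).smul_const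
        (fourierLp (T := T) 1 n)
    | zero => simp
    | add a b _ _ ha hb => simpa using ha.add hb
    | smul c a _ ha => simpa using ha.const_smul c
  rw [Metric.tendsto_nhds]
  intro ε hε
  have hd : f ∈ closure ((Submodule.span ℂ (Set.range (fourierLp (T := T) 1))) : Set (L1 T)) := by
    rw [← Submodule.topologicalClosure_coe, span_fourierLp_closure_eq_top (by simp)]; trivial
  obtain ⟨g, hg, hfg⟩ := Metric.mem_closure_iff.mp hd (ε / 3) (by positivity)
  filter_upwards [Metric.tendsto_nhds.mp (h1 g hg) (ε / 3) (by positivity)] with N hN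
  have a := fejL_le N (f - g)
  rw [map_sub, ← dist_eq_norm, ← dist_eq_norm] at a
  have b := dist_triangle4 (fejL N f) (fejL N g) g f
  rw [dist_comm g f] at b
  linarith

lemma norm_sq_le (f : L1 T) (hs : Summable fun n => ‖coL n f‖ ^ 2) :
    ‖f‖ ^ 2 ≤ ∑' n, ‖coL n f‖ ^ 2 := by
  refine le_of_tendsto' ((fejL_tendsto f).norm.pow 2) fun N => ?_
  rw [fejL_norm]
  have c : Continuous fun x => ‖fej f N x‖ := by fun_prop
  set a := ∫ x, ‖fej f N x‖ ∂haarAddCircle with ha
  have h1 : ∫ x, (2 * a * ‖fej f N x‖ - a ^ 2) ∂haarAddCircle ≤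
      ∫ x, ‖fej f N x‖ ^ 2 ∂haarAddCircle :=
    integral_mono (intg (by fun_prop)) (intg (by fun_prop)) fun x => by
      simp only; nlinarith [sq_nonneg (‖fej f N x‖ - a)]
  rw [integral_sub (intg (by fun_prop)) (integrable_const _), integral_const_mul, ← ha] at h1
  simp only [integral_const, probReal_univ, smul_eq_mul, one_mul] at h1
  have h2 := hasSum_le (fun n => (?_ : ‖fourierCoeff (fej f N) n‖ ^ 2 ≤ ‖coL n f‖ ^ 2))
    (pars (fej f N)) hs.hasSum
  · linarith
  · rw [co_fej, norm_mul, Complex.norm_real, Real.norm_of_nonneg (wt_nonneg N n), coL_apply]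
    exact pow_le_pow_left₀ (mul_nonneg (wt_nonneg N n) (norm_nonneg _))
      (mul_le_of_le_one_left (norm_nonneg _) (wt_le N n)) 2

lemma uniq {f g : L1 T} (h : ∀ n, coL n f = coL n g) : f = g := by
  have := norm_sq_le (f - g) (by simp [h, summable_zero])
  simp only [map_sub, h, sub_self, norm_zero, ne_eq, OfNat.ofNat_ne_zero, not_false_eq_true,
    zero_pow, tsum_zero] at this
  rw [← sub_eq_zero, ← norm_eq_zero]
  nlinarith [norm_nonneg (f - g)]

end Pool.Agent.H28Kah
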