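import Mathlib
import Pool.Agent.Lib.helper28.KahA

namespace Pool.Agent.H28Kah

open MeasureTheory AddCircle Filter Topology Finset
open scoped ComplexConjugate

variable {T : ℝ} [hT : Fact (0 < T)]

lemma coL_sum (S : Finset ℤ) (n : ℤ) :
    coL n (∑ m ∈ S, fourierLp (T := T) 1 m) = if n ∈ S then 1 else 0 := by
  simp only [map_sum, coL_e, Finset.sum_ite_eq]

lemma peak {A : Submodule ℂ (L1 T)} (hc : IsClosed (A : Set (L1 T)))
    (hA : ∀ f ∈ A, ∀ g ∈ A, ∃ h ∈ A, ∀ n, coL n h = coL n f * coL n g)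
    {g : L1 T} (hg : g ∈ A) (hs : Summable fun n => ‖coL n g‖ ^ 2) (S : Finset ℤ)
    (h1 : ∀ n ∈ S, coL n g = 1) (h2 : ∀ n ∉ S, ‖coL n g‖ < 1) :
    ∑ m ∈ S, fourierLp (T := T) 1 m ∈ A := by
  have hp : ∀ k : ℕ, ∃ u ∈ A, ∀ n, coL n u = coL n g ^ (k + 1) := by
    intro k
    induction k with
    | zero => exact ⟨g, hg, by simp⟩
    | succ k ih =>
      obtain ⟨u, hu, e⟩ := ih
      obtain ⟨h, hh, e'⟩ := hA u hu g hg
      exact ⟨h, hh, fun n => by rw [e', e, ← pow_succ]⟩
  choose u hu e using hp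
  set E := ∑ m ∈ S, fourierLp (T := T) 1 m
  have b : ∀ k n, ‖coL n (u k - E)‖ ^ 2 ≤ ‖coL n g‖ ^ 2 := by
    intro k n
    rw [map_sub, e, coL_sum]
    split_ifs with h
    · simp [h1 n h]
    · rw [sub_zero, norm_pow, pow_succ _ k]
      exact pow_le_pow_left₀ (by positivity) (mul_le_of_le_one_left (norm_nonneg _)
        (pow_le_one₀ (norm_nonneg _) (h2 n h).le)) 2
  have t := tendsto_tsum_of_dominated_convergence (𝓕 := atTop)
    (f := fun k n => ‖coL n (u k - E)‖ ^ 2) (g := fun _ => 0) hs (fun n => by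
      simp only [map_sub, e, E, coL_sum]
      split_ifs with h
      · simp [h1 n h]
      · have := ((tendsto_pow_atTop_nhds_zero_of_lt_one (norm_nonneg _) (h2 n h)).comp
          (tendsto_add_atTop_nat 1)).pow 2
        simpa [Function.comp_def] using this)
    (Eventually.of_forall fun k n => by rw [Real.norm_of_nonneg (by positivity)]; exact b k n)
  rw [tsum_zero] at t
  have t2 : Tendsto (fun k => ‖u k - E‖ ^ 2) atTop (𝓝 0) :=
    squeeze_zero (fun _ => by positivity)
      (fun k => norm_sq_le _ (hs.of_nonneg_of_le (fun _ => by positivity) (b k))) t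
  have t3 : Tendsto u atTop (𝓝 E) := by
    rw [tendsto_iff_norm_sub_tendsto_zero]
    simpa using t2.sqrt
  exact hc.mem_of_tendsto t3 (Eventually.of_forall hu)

lemma fin_level {f : L1 T} (hs : Summable fun n => ‖coL n f‖ ^ 2) {δ : ℝ} (hδ : 0 < δ) :
    {n | δ ≤ ‖coL n f‖}.Finite := by
  have := hs.tendsto_cofinite_zero.eventually (gt_mem_nhds (show 0 < δ ^ 2 by positivity))
  refine (Filter.eventually_cofinite.mp this).subset fun n hn => ?_
  exact not_lt.mpr (pow_le_pow_left₀ hδ.le hn 2)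

lemma trunc {A : Submodule ℂ (L1 T)} (hc : IsClosed (A : Set (L1 T)))
    (hA : ∀ f ∈ A, ∀ g ∈ A, ∃ h ∈ A, ∀ n, coL n h = coL n f * coL n g) {δ : ℝ} (hδ : 0 < δ)
    (m : ℕ) : ∀ f ∈ A, Summable (fun n => ‖coL n f‖ ^ 2) → {n | δ ≤ ‖coL n f‖}.ncard = m →
    ∃ u ∈ Submodule.span ℂ {e | e ∈ A ∧ ∀ n, coL n e * coL n e = coL n e},
      ∀ n, coL n u = if δ ≤ ‖coL n f‖ then coL n f else 0 := by
  induction m using Nat.strong_induction_on with
  | _ m ih =>
  intro f hf hs hm
  have fin := fin_level hs hδ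
  rcases Set.eq_empty_or_nonempty {n | δ ≤ ‖coL n f‖} with e | ne
  · refine ⟨0, Submodule.zero_mem _, fun n => ?_⟩
    have : ¬ δ ≤ ‖coL n f‖ := Set.eq_empty_iff_forall_notMem.mp e n
    rw [if_neg this, map_zero]
  obtain ⟨n0, h0, hmax⟩ := Set.exists_max_image _ (fun n => ‖coL n f‖) fin ne
  set l := coL n0 f with hl
  have l0 : 0 < ‖l‖ := lt_of_lt_of_le hδ h0
  have l0' : l ≠ 0 := norm_pos_iff.mp l0
  have le : ∀ n, ‖coL n f‖ ≤ ‖l‖ := fun n => by
    by_cases h : δ ≤ ‖coL n f‖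
    · exact hmax n h
    · exact (not_le.mp h).le.trans h0
  obtain ⟨h, hh, eh⟩ := hA f hf f hf
  have sub : {n | coL n f = l} ⊆ {n | δ ≤ ‖coL n f‖} := fun n hn => by
    have : coL n f = l := hn
    show δ ≤ _
    rw [this]; exact h0
  set S := (fin.subset sub).toFinset with hS
  have mS : ∀ n, n ∈ S ↔ coL n f = l := fun n => by simp [hS]
  have eg : ∀ n, coL n ((2 * l ^ 2)⁻¹ • (h + l • f)) = coL n f * (coL n f + l) / (2 * l ^ 2) := by
    intro n; simp only [map_smul, map_add, eh, smul_eq_mul]; ring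
  have ng : ∀ n, ‖coL n ((2 * l ^ 2)⁻¹ • (h + l • f))‖ =
      ‖coL n f‖ * ‖coL n f + l‖ / (2 * ‖l‖ ^ 2) := by
    intro n; rw [eg]; simp
  have hE := peak hc hA (A.smul_mem (2 * l ^ 2)⁻¹ (A.add_mem hh (A.smul_mem l hf)))
    ((hs.mul_left ((‖l‖ ^ 2)⁻¹)).of_nonneg_of_le (fun _ => by positivity) fun n => by
      rw [ng, ← inv_pow, ← mul_pow]
      refine pow_le_pow_left₀ (by positivity) ?_ 2
      rw [div_le_iff₀ (by positivity)]
      have a := (norm_add_le (coL n f) l).trans (add_le_add_left (le n) _)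
      calc _ ≤ ‖coL n f‖ * (‖l‖ + ‖l‖) := by gcongr
        _ = _ := by field_simp; ring) S
    (fun n hn => by rw [eg, (mS n).mp hn]; field_simp; ring)
    (fun n hn => by
      rw [ng, div_lt_one (by positivity)]
      have p := parallelogram_law_with_norm ℝ (coL n f) l
      have q : 0 < ‖coL n f - l‖ := norm_pos_iff.mpr (sub_ne_zero.mpr fun e => hn ((mS n).mpr e))
      have r : ‖coL n f + l‖ < 2 * ‖l‖ := by
        refine lt_of_pow_lt_pow_left₀ 2 (by positivity) ?_
        nlinarith [le n, norm_nonneg (coL n f)]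
      nlinarith [le n, norm_nonneg (coL n f + l)])
  set E := ∑ m ∈ S, fourierLp (T := T) 1 m
  have ef : ∀ n, coL n (f - l • E) = if n ∈ S then 0 else coL n f := by
    intro n
    rw [map_sub, map_smul, coL_sum]
    split_ifs with h
    · simp [(mS n).mp h]
    · simp
  obtain ⟨u, hu, eu⟩ := ih _ (hm ▸ Set.ncard_lt_ncard (s := {n | δ ≤ ‖coL n (f - l • E)‖})
      ⟨fun n hn => by
        have hn' : δ ≤ ‖coL n (f - l • E)‖ := hn
        rw [ef] at hn'
        split_ifs at hn' with h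
        · exact sub ((mS n).mp h)
        · exact hn', fun h => by
        have : δ ≤ ‖coL n0 (f - l • E)‖ := h h0
        rw [ef, if_pos ((mS n0).mpr rfl), norm_zero] at this
        linarith⟩ fin) (f - l • E) (A.sub_mem hf (A.smul_mem l hE))
    (hs.of_nonneg_of_le (fun _ => by positivity) fun n => by
      rw [ef]; split_ifs <;> simp) rfl
  refine ⟨u + l • E, Submodule.add_mem _ hu (Submodule.smul_mem _ _ (Submodule.subset_span
    ⟨hE, fun n => by rw [coL_sum]; split_ifs <;> simp⟩)), fun n => ?_⟩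
  rw [map_add, eu, ef, map_smul, coL_sum]
  by_cases h : n ∈ S
  · simp [h, (mS n).mp h]
    intro h'; exact absurd h0 (not_le.mpr h')
  · simp [h]

theorem mem_closure_idem {A : Submodule ℂ (L1 T)} (hc : IsClosed (A : Set (L1 T)))
    (hA : ∀ f ∈ A, ∀ g ∈ A, ∃ h ∈ A, ∀ n, coL n h = coL n f * coL n g)
    {f : L1 T} (hf : f ∈ A) (hs : Summable fun n => ‖coL n f‖ ^ 2) :
    f ∈ closure (Submodule.span ℂ {e | e ∈ A ∧ ∀ n, coL n e * coL n e = coL n e} : Set (L1 T)) := by
  choose u hu e using fun k : ℕ =>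
    trunc hc hA (δ := 1 / ((k : ℝ) + 1)) (by positivity) _ f hf hs rfl
  have b : ∀ k n, ‖coL n (u k - f)‖ ^ 2 ≤ ‖coL n f‖ ^ 2 := by
    intro k n
    rw [map_sub, e]
    split_ifs <;> simp
  have t := tendsto_tsum_of_dominated_convergence (𝓕 := atTop)
    (f := fun k n => ‖coL n (u k - f)‖ ^ 2) (g := fun _ => 0) hs (fun n => by
      by_cases h : coL n f = 0
      · simp [e, h]
      · refine tendsto_const_nhds.congr' ?_
        filter_upwards [(tendsto_one_div_add_atTop_nhds_zero_nat (𝕜 := ℝ)).eventually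
          (ge_mem_nhds (norm_pos_iff.mpr h))] with k hk
        rw [map_sub, e, if_pos hk]; simp)
    (Eventually.of_forall fun k n => by rw [Real.norm_of_nonneg (by positivity)]; exact b k n)
  rw [tsum_zero] at t
  have t2 : Tendsto (fun k => ‖u k - f‖ ^ 2) atTop (𝓝 0) :=
    squeeze_zero (fun _ => by positivity)
      (fun k => norm_sq_le _ (hs.of_nonneg_of_le (fun _ => by positivity) (b k))) t
  have t3 : Tendsto u atTop (𝓝 f) := by
    rw [tendsto_iff_norm_sub_tendsto_zero]
    simpa using t2.sqrt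
  exact mem_closure_of_tendsto t3 (Eventually.of_forall hu)

lemma digits (e : ℕ) : ∀ M M' : Multiset ℕ, M.card ≤ 4 → M'.card ≤ 4 →
    (M.map (5 ^ ·)).sum = (M'.map (5 ^ ·)).sum → M.count e = M'.count e := by
  have key : ∀ M : Multiset ℕ, ∃ M1 : Multiset ℕ, M1.card ≤ M.card ∧
      (M.map (5 ^ ·)).sum = M.count 0 + 5 * (M1.map (5 ^ ·)).sum ∧
      ∀ e, M.count (e + 1) = M1.count e := by
    intro M
    induction M using Multiset.induction_on with
    | empty => exact ⟨0, by simp⟩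
    | cons a M ih =>
      obtain ⟨M1, h1, h2, h3⟩ := ih
      rcases a with _ | a
      · exact ⟨M1, by simp; omega, by simp [h2]; ring, fun e => by simp [h3]⟩
      · exact ⟨a ::ₘ M1, by simpa using h1, by simp [h2]; ring,
          fun e => by simp [Multiset.count_cons, h3]⟩
  induction e with
  | zero =>
    intro M M' a b h
    obtain ⟨M1, -, h2, -⟩ := key M
    obtain ⟨M2, -, h2', -⟩ := key M'
    have := Multiset.count_le_card 0 M
    have := Multiset.count_le_card 0 M'
    omega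
  | succ e ih =>
    intro M M' a b h
    obtain ⟨M1, h1, h2, h3⟩ := key M
    obtain ⟨M2, h1', h2', h3'⟩ := key M'
    have := Multiset.count_le_card 0 M
    have := Multiset.count_le_card 0 M'
    rw [h3, h3']
    exact ih M1 M2 (by omega) (by omega) (by omega)

/-- The set of sums of two powers of five. -/
def Q : Set ℤ := {n | ∃ a b : ℕ, n = 5 ^ a + 5 ^ b}

lemma fib (F : Finset ℤ) (hF : ↑F ⊆ Q) (n : ℤ) :
    ((F ×ˢ F).filter fun p => p.1 + p.2 = n).card ≤ 256 := by
  rcases ((F ×ˢ F).filter fun p => p.1 + p.2 = n).eq_empty_or_nonempty with e | ⟨⟨s, t⟩, hst⟩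
  · simp [e]
  obtain ⟨h1, rfl⟩ := mem_filter.mp hst
  obtain ⟨a, b, rfl⟩ := hF (mem_product.mp h1).1
  obtain ⟨c, d, rfl⟩ := hF (mem_product.mp h1).2
  set S : Finset ℕ := {a, b, c, d}
  have hS : S.card ≤ 4 := card_le_four
  calc _ ≤ (((S ×ˢ S) ×ˢ S ×ˢ S).image fun x => ((5 : ℤ) ^ x.1.1 + 5 ^ x.1.2,
        (5 : ℤ) ^ x.2.1 + 5 ^ x.2.2)).card := by
        refine card_le_card ?_
        rintro ⟨u, v⟩ huv
        obtain ⟨h2, h3⟩ := mem_filter.mp huv
        obtain ⟨a', b', rfl⟩ := hF (mem_product.mp h2).1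
        obtain ⟨c', d', rfl⟩ := hF (mem_product.mp h2).2
        have E : ({a', b', c', d'} : Multiset ℕ) = {a, b, c, d} := by
          refine Multiset.ext.mpr fun e => digits e _ _ (by simp) (by simp) ?_
          simp only [Multiset.insert_eq_cons, Multiset.map_cons, Multiset.sum_cons,
            Multiset.map_singleton, Multiset.sum_singleton]
          simp only at h3
          zify; linarith
        have m : ∀ x ∈ ({a', b', c', d'} : Multiset ℕ), x ∈ S := fun x hx => by
          rw [E] at hx; simpa [S] using hx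
        exact mem_image.mpr ⟨((a', b'), (c', d')), by simp [m], rfl⟩
    _ ≤ _ := card_image_le.trans (by simp only [card_product]; nlinarith [Nat.mul_le_mul hS hS])

lemma lam2 (F : Finset ℤ) (hF : ↑F ⊆ Q) (c : ℤ → ℂ) : ∑ n ∈ F, ‖c n‖ ^ 2 ≤
    2048 * (∫ x : AddCircle T, ‖∑ n ∈ F, c n * fourier n x‖ ∂haarAddCircle) ^ 2 := by
  let P : C(AddCircle T, ℂ) := ⟨fun x => ∑ n ∈ F, c n * fourier n x, by fun_prop⟩
  set M := ∑ n ∈ F, ‖c n‖ ^ 2 with hM
  have M0 : 0 ≤ M := by positivity
  have h2 : ∫ x, ‖P x‖ ^ 2 ∂haarAddCircle = M := by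
    refine (pars P).unique ?_
    have : ∀ n, fourierCoeff P n = if n ∈ F then c n else 0 := fun n => by
      have := co_poly (T := T) F c id n
      simp only [id, Finset.sum_ite_eq'] at this
      exact this
    simp only [this]
    have e : M = ∑ n ∈ F, ‖if n ∈ F then c n else 0‖ ^ 2 :=
      Finset.sum_congr rfl fun n hn => by rw [if_pos hn]
    rw [e]
    exact hasSum_sum_of_ne_finset_zero fun n hn => by simp [hn]
  have h4 : ∫ x, ‖(P * P) x‖ ^ 2 ∂haarAddCircle ≤ 256 * M ^ 2 := by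
    have e : ∀ n, fourierCoeff (P * P) n =
        ∑ p ∈ (F ×ˢ F).filter fun p => p.1 + p.2 = n, c p.1 * c p.2 := fun n => by
      rw [sum_filter, ← co_poly (T := T)]
      congr 1
      ext x
      simp only [ContinuousMap.mul_apply, P, ContinuousMap.coe_mk, Finset.sum_mul_sum,
        Finset.sum_product, fourier_add]
      refine Finset.sum_congr rfl fun _ _ => Finset.sum_congr rfl fun _ _ => by ring
    rw [← (pars (P * P)).tsum_eq]
    refine Real.tsum_le_of_sum_le (fun _ => by positivity) fun G => ?_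
    calc _ ≤ ∑ n ∈ G, 256 * ∑ p ∈ (F ×ˢ F).filter fun p => p.1 + p.2 = n,
          ‖c p.1‖ ^ 2 * ‖c p.2‖ ^ 2 := by
          refine Finset.sum_le_sum fun n _ => ?_
          rw [e]
          refine (pow_le_pow_left₀ (norm_nonneg _) (norm_sum_le _ _) 2).trans
            (sq_sum_le_card_mul_sum_sq.trans ?_)
          simp only [norm_mul, mul_pow]
          gcongr
          exact_mod_cast fib F hF n
      _ ≤ _ := by
          rw [← Finset.mul_sum, Finset.sum_fiberwise_eq_sum_filter, sq M, hM, Finset.sum_mul_sum,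
            ← Finset.sum_product']
          gcongr
          exact filter_subset _ _
  change M ≤ 2048 * (∫ x, ‖P x‖ ∂haarAddCircle) ^ 2
  set I := ∫ x, ‖P x‖ ∂haarAddCircle with hI
  rcases M0.eq_or_lt with e | M1
  · rw [← e]; positivity
  set a := √(512 * M) with ha
  have a2 : a ^ 2 = 512 * M := Real.sq_sqrt (by positivity)
  have a0 : 0 < a := by positivity
  have h5 : ∫ x, ‖P x‖ ^ 2 ∂haarAddCircle ≤
      ∫ x, (a * ‖P x‖ + (a ^ 2)⁻¹ * ‖(P * P) x‖ ^ 2) ∂haarAddCircle := by
    refine integral_mono (intg (by fun_prop)) (intg (by fun_prop)) fun x => ?_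
    simp only [ContinuousMap.mul_apply, norm_mul]
    have t0 := norm_nonneg (P x)
    set t := ‖P x‖
    rcases le_total t a with h | h
    · have : 0 ≤ (a ^ 2)⁻¹ * (t * t) ^ 2 := by positivity
      nlinarith
    · have : t ^ 2 ≤ (a ^ 2)⁻¹ * (t * t) ^ 2 := by
        rw [le_inv_mul_iff₀ (by positivity), mul_pow]
        gcongr
      nlinarith
  rw [integral_add (intg (by fun_prop)) (intg (by fun_prop)), integral_const_mul,
    integral_const_mul, h2, ← hI] at h5
  have h6 : (a ^ 2)⁻¹ * ∫ x, ‖(P * P) x‖ ^ 2 ∂haarAddCircle ≤ M / 2 := by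
    rw [inv_mul_le_iff₀ (by positivity), a2]; nlinarith
  have h7 : M / 2 ≤ a * I := by linarith
  have h8 := pow_le_pow_left₀ (by positivity) h7 2
  rw [mul_pow, a2] at h8
  nlinarith

lemma summable_Q (f : L1 T) (hf : ∀ n, n ∉ Q → coL n f = 0) :
    Summable fun n => ‖coL n f‖ ^ 2 := by
  classical
  refine summable_of_sum_le (c := 2048 * ‖f‖ ^ 2) (fun _ => by positivity) fun G => ?_
  have t : Tendsto (fun N => ∑ n ∈ G, ‖(wt N n : ℂ) * coL n f‖ ^ 2) atTop
      (𝓝 (∑ n ∈ G, ‖((1 : ℝ) : ℂ) * coL n f‖ ^ 2)) :=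
    tendsto_finsetSum _ fun n _ => (((Complex.continuous_ofReal.tendsto 1).comp
      (wt_tendsto n)).mul_const _).norm.pow 2
  simp only [Complex.ofReal_one, one_mul] at t
  refine le_of_tendsto' t fun N => ?_
  set F := (Icc (-(N : ℤ)) N).filter (· ∈ Q)
  have z : ∀ n ∉ F, (wt N n : ℂ) * coL n f = 0 := fun n hn => by
    by_cases h : n ∈ Q
    · rw [wt_zero fun h' => hn (mem_filter.mpr ⟨h', h⟩)]; simp
    · simp [hf n h]
  have z' : ∀ n ∉ F, fourierCoeff (fej f N) n = 0 := fun n hn => by rw [co_fej]; exact z n hn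
  have e : ∀ x, fej f N x = ∑ n ∈ F, (wt N n : ℂ) * coL n f * fourier n x := fun x => by
    have := has_pointwise_sum_fourier_series_of_summable (summable_of_ne_finset_zero z') x
    rw [this.unique (hasSum_sum_of_ne_finset_zero (s := F) fun n hn => by simp [z' n hn])]
    simp only [co_fej, smul_eq_mul, coL_apply]
  have l := lam2 (T := T) F (fun n hn => (mem_filter.mp hn).2) fun n => (wt N n : ℂ) * coL n f
  simp only [← e, ← fejL_norm] at l
  calc _ ≤ ∑ n ∈ G ∪ F, ‖(wt N n : ℂ) * coL n f‖ ^ 2 :=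
        Finset.sum_le_sum_of_subset_of_nonneg subset_union_left fun _ _ _ => by positivity
    _ = ∑ n ∈ F, ‖(wt N n : ℂ) * coL n f‖ ^ 2 :=
        (Finset.sum_subset subset_union_right fun n _ hn => by simp [z n hn]).symm
    _ ≤ _ := l.trans (by gcongr; exact fejL_le N f)

end Pool.Agent.H28Kah
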