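import Mathlib

namespace Pool.Agent.H28Moran

open MeasureTheory Set Filter Topology
open scoped ComplexConjugate InnerProductSpace ENNReal NNReal

/-- The exponential `x ↦ exp (-2 π i l x)`. -/
noncomputable def ex (l x : ℝ) : ℂ := Complex.exp (-(2 * Real.pi * Complex.I * l * x))

lemma ex_eq (l x : ℝ) : ex l x = Complex.exp (Complex.I * ((-(2 * Real.pi * l * x) : ℝ) : ℂ)) := by
  unfold ex; congr 1; push_cast; ring

lemma norm_ex (l x : ℝ) : ‖ex l x‖ = 1 := by rw [ex_eq, Complex.norm_exp_I_mul_ofReal]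

lemma ex_add (l x y : ℝ) : ex l (x + y) = ex l x * ex l y := by
  unfold ex; rw [← Complex.exp_add]; congr 1; push_cast; ring

lemma ex_add' (l m x : ℝ) : ex (l + m) x = ex l x * ex m x := by
  unfold ex; rw [← Complex.exp_add]; congr 1; push_cast; ring

lemma ex_zero (l : ℝ) : ex l 0 = 1 := by simp [ex]

lemma ex_zero' (x : ℝ) : ex 0 x = 1 := by simp [ex]

lemma ex_sum {ι : Type*} (l : ℝ) (s : Finset ι) (f : ι → ℝ) :
    ex l (∑ i ∈ s, f i) = ∏ i ∈ s, ex l (f i) := by
  classical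
  induction s using Finset.induction_on with
  | empty => simp [ex_zero]
  | insert a s ha ih => rw [Finset.sum_insert ha, Finset.prod_insert ha, ex_add, ih]

lemma conj_ex (l x : ℝ) : conj (ex l x) = ex (-l) x := by
  unfold ex
  rw [← Complex.exp_conj]; congr 1
  simp [Complex.conj_ofReal, map_ofNat]

lemma cont_ex (l : ℝ) : Continuous (ex l) := by unfold ex; fun_prop

lemma ex_lip (l x y : ℝ) : ‖ex l x - ex l y‖ ≤ 2 * Real.pi * |l| * |x - y| := by
  have : ex l x - ex l y = ex l y * (ex l (x - y) - 1) := by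
    rw [mul_sub, ← ex_add]; simp
  rw [this, norm_mul, norm_ex, one_mul, ex_eq]
  refine Real.norm_exp_I_mul_ofReal_sub_one_le.trans (le_of_eq ?_)
  rw [Real.norm_eq_abs, abs_neg, abs_mul, abs_mul, abs_mul, abs_of_pos Real.pi_pos]
  simp

lemma ex_eq_one {l x : ℝ} : ex l x = 1 ↔ ∃ n : ℤ, l * x = n := by
  unfold ex
  rw [Complex.exp_eq_one_iff]
  have h : (2 * Real.pi * Complex.I : ℂ) ≠ 0 := Complex.two_pi_I_ne_zero
  constructor
  · rintro ⟨n, hn⟩
    refine ⟨-n, ?_⟩
    have : ((l * x : ℝ) : ℂ) = ((-n : ℤ) : ℝ) := by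
      push_cast
      apply mul_left_cancel₀ h
      linear_combination -hn
    exact_mod_cast this
  · rintro ⟨n, hn⟩
    refine ⟨-n, ?_⟩
    have : (l : ℂ) * x = n := by exact_mod_cast hn
    push_cast
    linear_combination -(2 * Real.pi * Complex.I) * this

variable (μ : Measure ℝ) [IsProbabilityMeasure μ]

lemma memLp_ex (l : ℝ) : MemLp (ex l) 2 μ :=
  MemLp.of_bound (cont_ex l).aestronglyMeasurable 1 (ae_of_all _ fun x => (norm_ex l x).le)

/-- The exponential as an element of `L²`. -/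
noncomputable def eL (l : ℝ) : Lp ℂ 2 μ := (memLp_ex μ l).toLp _

lemma eL_ae (l : ℝ) : (eL μ l : ℝ → ℂ) =ᵐ[μ] ex l := MemLp.coeFn_toLp _

omit [IsProbabilityMeasure μ] in
lemma inner_ex {a b : Lp ℂ 2 μ} {l m : ℝ} (ha : (a : ℝ → ℂ) =ᵐ[μ] ex l)
    (hb : (b : ℝ → ℂ) =ᵐ[μ] ex m) : ⟪a, b⟫_ℂ = ∫ x, ex (m - l) x ∂μ := by
  rw [L2.inner_def]
  refine integral_congr_ae ?_
  filter_upwards [ha, hb] with x h1 h2
  rw [h1, h2, RCLike.inner_apply, conj_ex, ← ex_add']
  congr 1

lemma real_total {h : ℝ → ℝ} (hi : Integrable h μ)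
    (h0 : ∀ l, ∫ x, (h x : ℂ) * ex l x ∂μ = 0) : h =ᵐ[μ] 0 := by
  have key : ∀ {g : ℝ → ℝ}, Integrable g μ → ∀ t : ℝ,
      charFun (μ.withDensity fun x => ENNReal.ofReal (g x)) t =
        ∫ x, ((max (g x) 0 : ℝ) : ℂ) * ex (-(t / (2 * Real.pi))) x ∂μ := by
    intro g hg t
    rw [charFun_apply_real, integral_withDensity_eq_integral_toReal_smul₀
      hg.aemeasurable.ennreal_ofReal (ae_of_all _ fun x => ENNReal.ofReal_lt_top)]
    refine integral_congr_ae (ae_of_all _ fun x => ?_)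
    simp only [ENNReal.toReal_ofReal', Complex.real_smul, ex]
    congr 2
    have : (Real.pi : ℂ) ≠ 0 := by exact_mod_cast Real.pi_pos.ne'
    push_cast
    field_simp
  have int : ∀ {g : ℝ → ℝ}, Integrable g μ → ∀ l : ℝ,
      Integrable (fun x => ((max (g x) 0 : ℝ) : ℂ) * ex l x) μ := fun hg l =>
    (hg.pos_part.ofReal).mul_bdd (c := 1) (cont_ex l).aestronglyMeasurable
      (ae_of_all _ fun x => (norm_ex l x).le)
  haveI := isFiniteMeasure_withDensity_ofReal (μ := μ) hi.2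
  haveI := isFiniteMeasure_withDensity_ofReal (μ := μ) hi.neg.2
  have e : (μ.withDensity fun x => ENNReal.ofReal (h x)) =
      μ.withDensity fun x => ENNReal.ofReal ((-h) x) := by
    refine Measure.ext_of_charFun (funext fun t => ?_)
    rw [key hi, key hi.neg, ← sub_eq_zero, ← integral_sub (int hi _) (int hi.neg _),
      ← h0 (-(t / (2 * Real.pi)))]
    refine integral_congr_ae (ae_of_all _ fun x => ?_)
    simp only [Pi.neg_apply]
    rw [← sub_mul, ← Complex.ofReal_sub, max_zero_sub_max_neg_zero_eq_self]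
  rw [withDensity_eq_iff_of_sigmaFinite hi.aemeasurable.ennreal_ofReal
    hi.neg.aemeasurable.ennreal_ofReal] at e
  filter_upwards [e] with x hx
  simp only [Pi.neg_apply] at hx
  have := congrArg ENNReal.toReal hx
  rw [ENNReal.toReal_ofReal', ENNReal.toReal_ofReal'] at this
  have h2 := max_zero_sub_max_neg_zero_eq_self (h x)
  simp only [Pi.zero_apply]
  linarith

lemma total {g : Lp ℂ 2 μ} (h : ∀ l, ⟪g, eL μ l⟫_ℂ = 0) : g = 0 := by
  have gi : Integrable (g : ℝ → ℂ) μ := (Lp.memLp g).integrable (by norm_num)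
  have h1 : ∀ l, ∫ x, conj (g x) * ex l x ∂μ = 0 := by
    intro l
    rw [← h l, L2.inner_def]
    refine integral_congr_ae ?_
    filter_upwards [eL_ae μ l] with x hx
    rw [hx, RCLike.inner_apply, mul_comm]
  have h2 : ∀ l, ∫ x, g x * ex l x ∂μ = 0 := by
    intro l
    have := congrArg conj (h1 (-l))
    rw [← integral_conj, map_zero] at this
    simpa [conj_ex] using this
  have i2 : ∀ l, Integrable (fun x => g x * ex l x) μ := fun l =>
    gi.mul_bdd (c := 1) (cont_ex l).aestronglyMeasurable (ae_of_all _ fun x => (norm_ex l x).le)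
  have gc : Integrable (fun x => conj (g x)) μ := by
    simpa using (Complex.conjCLE : ℂ →L[ℝ] ℂ).integrable_comp gi
  have i1 : ∀ l, Integrable (fun x => conj (g x) * ex l x) μ := fun l =>
    gc.mul_bdd (c := 1) (cont_ex l).aestronglyMeasurable (ae_of_all _ fun x => (norm_ex l x).le)
  have r := real_total μ (h := fun x => (g x).re) gi.re fun l => by
    have : ∫ x, (2 : ℂ)⁻¹ * (g x * ex l x + conj (g x) * ex l x) ∂μ = 0 := by
      rw [integral_const_mul, integral_add (i2 l) (i1 l), h1, h2]; simp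
    rw [← this]
    refine integral_congr_ae (ae_of_all _ fun x => ?_)
    simp only
    rw [← add_mul, Complex.add_conj]; push_cast; ring
  have i := real_total μ (h := fun x => (g x).im) gi.im fun l => by
    have : ∫ x, (2 * Complex.I : ℂ)⁻¹ * (g x * ex l x - conj (g x) * ex l x) ∂μ = 0 := by
      rw [integral_const_mul, integral_sub (i2 l) (i1 l), h1, h2]; simp
    rw [← this]
    refine integral_congr_ae (ae_of_all _ fun x => ?_)
    simp only
    rw [← sub_mul, Complex.sub_conj]; push_cast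
    field_simp
  refine Lp.eq_zero_iff_ae_eq_zero.mpr ?_
  filter_upwards [r, i] with x h1 h2
  exact Complex.ext h1 h2

lemma orth_of_bessel {E ι : Type*} [NormedAddCommGroup E] [InnerProductSpace ℂ E] {v : ι → E}
    (hv : Orthonormal ℂ v) {f g : E} (hg : ∀ i, ⟪v i, g⟫_ℂ = 0)
    (h : ∀ ε > 0, ∃ F : Finset ι, ‖f‖ ^ 2 - ε ≤ ∑ i ∈ F, ‖⟪v i, f⟫_ℂ‖ ^ 2) : ⟪g, f⟫_ℂ = 0 := by
  by_cases g0 : g = 0
  · simp [g0]
  have gn : 0 < ‖g‖ := norm_pos_iff.mpr g0
  set c := ⟪g, f⟫_ℂ with hc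
  set s : ℂ := c / ((‖g‖ ^ 2 : ℝ) : ℂ) with hs
  have e : ‖f - s • g‖ ^ 2 = ‖f‖ ^ 2 - ‖c‖ ^ 2 / ‖g‖ ^ 2 := by
    rw [@norm_sub_sq ℂ, inner_smul_right, ← inner_conj_symm, ← hc, norm_smul, hs, norm_div,
      div_mul_eq_mul_div, Complex.mul_conj', ← Complex.ofReal_pow, ← Complex.ofReal_div]
    simp only [RCLike.re_to_complex, Complex.ofReal_re, Complex.norm_real, Real.norm_eq_abs,
      abs_pow, abs_norm]
    field_simp
    ring
  have : ‖c‖ ^ 2 / ‖g‖ ^ 2 ≤ 0 := by
    refine le_of_forall_pos_le_add fun ε hε => ?_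
    obtain ⟨F, hF⟩ := h ε hε
    have b := hv.sum_inner_products_le (f - s • g) (s := F)
    simp only [inner_sub_right, inner_smul_right, hg, mul_zero, sub_zero] at b
    linarith
  have h2 : ‖c‖ ^ 2 ≤ 0 := by
    rw [div_le_iff₀ (by positivity)] at this; linarith
  have : ‖c‖ = 0 := by nlinarith [norm_nonneg c]
  exact norm_eq_zero.mp this

lemma no_atom {ι : Type*} [Infinite ι] {v : ι → Lp ℂ 2 μ} (hv : Orthonormal ℂ v) {l : ι → ℝ}
    (hl : ∀ i, (v i : ℝ → ℂ) =ᵐ[μ] ex (l i)) (x : ℝ) : μ {x} = 0 := by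
  have hs := hv.inner_products_summable
    (indicatorConstLp 2 (measurableSet_singleton x) (measure_ne_top μ _) (1 : ℂ))
  have e : ∀ i, ‖⟪v i, indicatorConstLp 2 (measurableSet_singleton x) (measure_ne_top μ _)
      (1 : ℂ)⟫_ℂ‖ ^ 2 = μ.real {x} ^ 2 := by
    intro i
    rw [← inner_conj_symm, Complex.norm_conj, L2.inner_indicatorConstLp_one,
      integral_congr_ae (ae_restrict_of_ae (hl i)), integral_singleton, norm_smul, norm_ex]
    simp
  simp_rw [e] at hs
  rw [summable_const_iff] at hs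
  have := pow_eq_zero_iff (two_ne_zero) |>.mp hs
  rwa [measureReal_eq_zero_iff] at this

end Pool.Agent.H28Moran
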