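import Mathlib

namespace Pool.Agent.H28Rep

open Set Filter Topology Finset

variable {H : Type*} [NormedAddCommGroup H] [NormedSpace ℂ H]

/-- A block of the series approximates `g` within `e`, with partial sums bounded by `C`. -/
def Blk (x : ℕ → H) (a b : ℕ) (c : ℕ → ℂ) (g : H) (e C : ℝ) : Prop :=
  a ≤ b ∧ ‖g - ∑ k ∈ Finset.Ico a b, c k • x k‖ ≤ e ∧
    ∀ M, a ≤ M → M ≤ b → ‖∑ k ∈ Finset.Ico a M, c k • x k‖ ≤ C

lemma Blk.mono {x : ℕ → H} {a b : ℕ} {c : ℕ → ℂ} {g : H} {e C e' C' : ℝ}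
    (h : Blk x a b c g e C) (he : e ≤ e') (hC : C ≤ C') : Blk x a b c g e' C' :=
  ⟨h.1, h.2.1.trans he, fun M h1 h2 => (h.2.2 M h1 h2).trans hC⟩

lemma Blk.append {x : ℕ → H} {a b d : ℕ} {c c' : ℕ → ℂ} {g g' : H} {e C e' C' : ℝ}
    (h : Blk x a b c g e C) (h' : Blk x b d c' g' e' C') :
    ∃ c'', Blk x a d c'' (g + g') (e + e') (max C (‖g‖ + e + C')) := by
  have e1 : ∀ M, M ≤ b → ∑ k ∈ Finset.Ico a M, (if k < b then c k else c' k) • x k =
      ∑ k ∈ Finset.Ico a M, c k • x k := fun M hM =>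
    Finset.sum_congr rfl fun k hk => by
      rw [if_pos (lt_of_lt_of_le (Finset.mem_Ico.mp hk).2 hM)]
  have e2 : ∀ M, b ≤ M → ∑ k ∈ Finset.Ico a M, (if k < b then c k else c' k) • x k =
      ∑ k ∈ Finset.Ico a b, c k • x k + ∑ k ∈ Finset.Ico b M, c' k • x k := by
    intro M hM
    rw [← Finset.sum_Ico_consecutive _ h.1 hM, e1 b le_rfl]
    congr 1
    exact Finset.sum_congr rfl fun k hk => by
      rw [if_neg (not_lt.mpr (Finset.mem_Ico.mp hk).1)]
  refine ⟨fun k => if k < b then c k else c' k, h.1.trans h'.1, ?_, fun M h1 h2 => ?_⟩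
  · rw [e2 d h'.1, add_sub_add_comm]
    exact (norm_add_le _ _).trans (add_le_add h.2.1 h'.2.1)
  · rcases le_total M b with hM | hM
    · rw [e1 M hM]; exact (h.2.2 M h1 hM).trans (le_max_left _ _)
    · rw [e2 M hM]
      refine le_trans ((norm_add_le _ _).trans (add_le_add ?_ (h'.2.2 M hM h2))) (le_max_right _ _)
      have := norm_sub_le g (g - ∑ k ∈ Finset.Ico a b, c k • x k)
      rw [sub_sub_cancel] at this
      linarith [h.2.1]

lemma blk_zero (x : ℕ → H) {a b : ℕ} (h : a ≤ b) : Blk x a b (fun _ => 0) 0 0 0 := by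
  simp [Blk, h]

/-- `g` can be approximated arbitrarily far out with partial sums bounded by `C`. -/
def Far (x : ℕ → H) (g : H) (C : ℝ) : Prop :=
  ∀ e > 0, ∀ a, ∃ b c, Blk x a b c g e C

lemma Far.nonneg {x : ℕ → H} {g : H} {C : ℝ} (h : Far x g C) : 0 ≤ C := by
  obtain ⟨b, c, h⟩ := h 1 one_pos 0
  simpa using h.2.2 0 le_rfl h.1

lemma Far.add {x : ℕ → H} {g g' : H} {C C' : ℝ} (h : Far x g C) (h' : Far x g' C') :
    Far x (g + g') (max C (‖g‖ + 1 + C')) := by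
  intro e he a
  obtain ⟨b, c, h1⟩ := h (min (e / 2) 1) (by positivity) a
  obtain ⟨d, c', h2⟩ := h' (e / 2) (by positivity) b
  obtain ⟨c'', h3⟩ := h1.append h2
  refine ⟨d, c'', h3.mono (by linarith [min_le_left (e / 2) 1]) ?_⟩
  exact max_le_max le_rfl (by linarith [min_le_right (e / 2) 1])

lemma Far.smul {x : ℕ → H} {g : H} {C : ℝ} (h : Far x g C) (t : ℂ) :
    Far x (t • g) (‖t‖ * C) := by
  intro e he a
  obtain ⟨b, c, h1⟩ := h (e / (‖t‖ + 1)) (by positivity) a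
  refine ⟨b, fun k => t * c k, h1.1, ?_, fun M m1 m2 => ?_⟩
  · simp_rw [mul_smul]
    rw [← Finset.smul_sum, ← smul_sub, norm_smul]
    calc _ ≤ (‖t‖ + 1) * (e / (‖t‖ + 1)) :=
          mul_le_mul (by linarith) h1.2.1 (norm_nonneg _) (by positivity)
      _ = e := by field_simp
  · simp_rw [mul_smul]
    rw [← Finset.smul_sum, norm_smul]
    exact mul_le_mul_of_nonneg_left (h1.2.2 M m1 m2) (norm_nonneg _)

lemma Far.rep {x : ℕ → H} {g : H} {C : ℝ} (h : Far x g C) {e : ℝ} (he : 0 < e) (a j : ℕ) :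
    ∃ b c, Blk x a b c ((j : ℂ) • g) (j * e) (j * ‖g‖ + j * e + C) := by
  induction j with
  | zero => exact ⟨a, fun _ => 0, by simpa using (blk_zero x le_rfl).mono le_rfl h.nonneg⟩
  | succ j ih =>
    obtain ⟨b, c, h1⟩ := ih
    obtain ⟨d, c', h2⟩ := h e he b
    obtain ⟨c'', h3⟩ := h1.append h2
    refine ⟨d, c'', ?_⟩
    push_cast
    rw [add_smul, one_smul]
    refine h3.mono (by linarith) (max_le (by nlinarith [norm_nonneg g]) ?_)
    rw [norm_smul, Complex.norm_natCast]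
    nlinarith [norm_nonneg g]

lemma Far.small {x : ℕ → H} {g : H} {C : ℝ} (h : Far x g C) {e : ℝ} (he : 0 < e) (a : ℕ) :
    ∃ b c, Blk x a b c g e (‖g‖ + 2 * e) := by
  obtain ⟨m, hm⟩ := exists_nat_gt (C / e)
  have hC := h.nonneg
  have hm0 : (0 : ℝ) < m := lt_of_le_of_lt (by positivity) hm
  have hm' : (m : ℂ) ≠ 0 := by exact_mod_cast hm0.ne'
  obtain ⟨b, c, h1⟩ := (h.smul (m : ℂ)⁻¹).rep (e := e / m) (by positivity) a m
  rw [smul_inv_smul₀ hm', norm_smul, norm_inv, Complex.norm_natCast] at h1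
  refine ⟨b, c, h1.mono (le_of_eq (by field_simp)) ?_⟩
  have e1 : (m : ℝ) * ((m : ℝ)⁻¹ * ‖g‖) = ‖g‖ := by field_simp
  have e2 : (m : ℝ) * (e / m) = e := by field_simp
  have e3 : (m : ℝ)⁻¹ * C ≤ e := by
    rw [inv_mul_le_iff₀ hm0]
    rw [div_lt_iff₀ he] at hm
    exact hm.le
  linarith

lemma far_span {x : ℕ → H} {S : Set H} (hS : ∀ g ∈ S, ∃ C, Far x g C) :
    ∀ g ∈ Submodule.span ℂ S, ∃ C, Far x g C := by
  intro g hg
  induction hg using Submodule.span_induction with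
  | mem g hg => exact hS g hg
  | zero => exact ⟨0, fun e he a => ⟨a, _, (blk_zero x le_rfl).mono he.le le_rfl⟩⟩
  | add g g' _ _ h h' =>
    obtain ⟨C, h⟩ := h
    obtain ⟨C', h'⟩ := h'
    exact ⟨_, h.add h'⟩
  | smul t g _ h =>
    obtain ⟨C, h⟩ := h
    exact ⟨_, h.smul t⟩

lemma blk_of_dense {x : ℕ → H} {S : Set H} (hS : ∀ g ∈ S, ∃ C, Far x g C)
    (hd : Dense (Submodule.span ℂ S : Set H)) (f : H) {e : ℝ} (he : 0 < e) (a : ℕ) :
    ∃ b c, a < b ∧ Blk x a b c f e (‖f‖ + 2 * e) := by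
  obtain ⟨g, hg, hfg⟩ := hd.exists_dist_lt f (ε := e / 2) (by positivity)
  obtain ⟨C, hC⟩ := far_span hS g hg
  obtain ⟨b, c, h1⟩ := hC.small (e := e / 2) (by positivity) a
  obtain ⟨c', h2⟩ := h1.append (blk_zero x (Nat.le_succ b))
  rw [dist_eq_norm] at hfg
  have hn : ‖g‖ ≤ ‖f‖ + e / 2 := by
    have := norm_sub_le f (f - g)
    rw [sub_sub_cancel] at this
    linarith
  refine ⟨b + 1, c', Nat.lt_succ_of_le h1.1, h2.1, ?_, fun M m1 m2 => ?_⟩
  · have h3 := h2.2.1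
    rw [add_zero, add_zero] at h3
    have := norm_add_le (f - g) (g - ∑ k ∈ Finset.Ico a (b + 1), c' k • x k)
    rw [sub_add_sub_cancel] at this
    linarith
  · exact (h2.2.2 M m1 m2).trans (max_le (by linarith) (by linarith))

lemma exists_idx {s : ℕ → ℕ} (hs : StrictMono s) (h0 : s 0 = 0) :
    ∃ idx : ℕ → ℕ, (∀ n, s (idx n) ≤ n ∧ n < s (idx n + 1)) ∧
      ∀ n i, s i ≤ n → n < s (i + 1) → idx n = i := by
  have ex : ∀ n, ∃ i, n < s (i + 1) := fun n => ⟨n, lt_of_lt_of_le (Nat.lt_succ_self n) (hs.le_apply)⟩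
  classical
  have key : ∀ n, s (Nat.find (ex n)) ≤ n := by
    intro n
    rcases h : Nat.find (ex n) with _ | j
    · simp [h0]
    · have := Nat.find_min (ex n) (m := j) (by omega)
      exact not_lt.mp this
  refine ⟨fun n => Nat.find (ex n), fun n => ⟨key n, Nat.find_spec (ex n)⟩, fun n i h1 h2 => ?_⟩
  have a1 := hs.lt_iff_lt.mp (lt_of_le_of_lt (key n) h2)
  have a2 := hs.lt_iff_lt.mp (lt_of_le_of_lt h1 (Nat.find_spec (ex n)))
  simp only
  omega

theorem represent {x : ℕ → H} {S : Set H} (hS : ∀ g ∈ S, ∃ C, Far x g C)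
    (hd : Dense (Submodule.span ℂ S : Set H)) (f : H) :
    ∃ c : ℕ → ℂ, Tendsto (fun N => ∑ k ∈ Finset.range N, c k • x k) atTop (𝓝 f) := by
  have h := fun (r : H) (a k : ℕ) =>
    blk_of_dense hS hd r (e := 1 / ((k : ℝ) + 1)) (by positivity) a
  choose B Cf hlt hblk using h
  let st : ℕ → ℕ × H := fun k => Nat.rec (0, f) (fun k p => (B p.2 p.1 k,
    p.2 - ∑ j ∈ Finset.Ico p.1 (B p.2 p.1 k), Cf p.2 p.1 k j • x j)) k
  have s1 : ∀ k, (st (k + 1)).1 = B (st k).2 (st k).1 k := fun k => rfl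
  have s2 : ∀ k, (st (k + 1)).2 = (st k).2 - ∑ j ∈ Finset.Ico (st k).1 (st (k + 1)).1,
    Cf (st k).2 (st k).1 k j • x j := fun k => rfl
  have s0 : st 0 = (0, f) := rfl
  clear_value st
  have hmono : StrictMono fun k => (st k).1 := strictMono_nat_of_lt_succ fun k => by
    simp only [s1]; exact hlt _ _ _
  obtain ⟨idx, i1, i2⟩ := exists_idx hmono (by simp [s0])
  set c : ℕ → ℂ := fun j => Cf (st (idx j)).2 (st (idx j)).1 (idx j) j with hc
  have e1 : ∀ k M, M ≤ (st (k + 1)).1 → ∑ j ∈ Finset.Ico (st k).1 M, c j • x j =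
      ∑ j ∈ Finset.Ico (st k).1 M, Cf (st k).2 (st k).1 k j • x j := by
    intro k M hM
    refine Finset.sum_congr rfl fun j hj => ?_
    have := i2 j k (Finset.mem_Ico.mp hj).1 (lt_of_lt_of_le (Finset.mem_Ico.mp hj).2 hM)
    simp only [hc, this]
  have e2 : ∀ k, f - ∑ j ∈ Finset.range (st k).1, c j • x j = (st k).2 := by
    intro k
    induction k with
    | zero => simp [s0]
    | succ k ih =>
      rw [s2, ← e1 k _ le_rfl, ← ih, sub_sub, Finset.sum_range_add_sum_Ico _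
        (hmono (Nat.lt_succ_self k)).le]
  have e3 : ∀ k, ‖(st (k + 1)).2‖ ≤ 1 / ((k : ℝ) + 1) := fun k => by
    rw [s2, s1]; exact (hblk _ _ k).2.1
  refine ⟨c, ?_⟩
  rw [Metric.tendsto_atTop]
  intro ε hε
  obtain ⟨K, hK⟩ := exists_nat_one_div_lt (show 0 < ε / 4 by positivity)
  refine ⟨(st (K + 1)).1, fun N hN => ?_⟩
  have hk : K + 1 ≤ idx N := by
    have : K + 1 < idx N + 1 := hmono.lt_iff_lt.mp (lt_of_le_of_lt hN (i1 N).2)
    omega
  obtain ⟨k, hk'⟩ : ∃ k, idx N = k + 1 := ⟨idx N - 1, by omega⟩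
  have j1 := (i1 N).1
  have j2 := (i1 N).2
  rw [hk'] at j1 j2
  rw [dist_comm, dist_eq_norm, ← Finset.sum_range_add_sum_Ico _ j1, ← sub_sub, e2 (k + 1),
    e1 _ _ j2.le]
  have b1 := (hblk (st (k + 1)).2 (st (k + 1)).1 (k + 1)).2.2 N j1 (by rw [← s1]; exact j2.le)
  have b2 := e3 k
  have b3 : 1 / ((k : ℝ) + 1) ≤ 1 / ((K : ℝ) + 1) := Nat.one_div_le_one_div (by omega)
  have b4 : 1 / (((k + 1 : ℕ) : ℝ) + 1) ≤ 1 / ((K : ℝ) + 1) := Nat.one_div_le_one_div (by omega)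
  refine lt_of_le_of_lt (norm_sub_le _ _) ?_
  linarith

lemma exists_concat {α : Type*} (N : ℕ → ℕ) (hN : ∀ i, 0 < N i) (P : ℕ → ℕ → α) :
    ∃ (L : ℕ → α) (s : ℕ → ℕ), s 0 = 0 ∧ (∀ i, s (i + 1) = s i + N i) ∧
      (∀ i k, k < N i → L (s i + k) = P i k) ∧ ∀ n, ∃ i k, k < N i ∧ n = s i + k := by
  let s : ℕ → ℕ := fun i => ∑ j ∈ Finset.range i, N j
  have hs : ∀ i, s (i + 1) = s i + N i := fun i => Finset.sum_range_succ _ _
  have hm : StrictMono s := strictMono_nat_of_lt_succ fun i => by rw [hs]; linarith [hN i]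
  obtain ⟨idx, i1, i2⟩ := exists_idx hm rfl
  refine ⟨fun n => P (idx n) (n - s (idx n)), s, rfl, hs, fun i k hk => ?_, fun n => ?_⟩
  · have := i2 (s i + k) i (Nat.le_add_right _ _) (by rw [hs]; omega)
    simp only [this, Nat.add_sub_cancel_left]
  · have a := (i1 n).1
    have b := (i1 n).2
    rw [hs] at b
    exact ⟨idx n, n - s (idx n), by omega, by omega⟩

lemma Blk.shift {x y : ℕ → H} {a n : ℕ} {c : ℕ → ℂ} {g : H} {e C : ℝ}
    (h : Blk y 0 n c g e C) (hxy : ∀ k, k < n → x (a + k) = y k) :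
    Blk x a (a + n) (fun k => c (k - a)) g e C := by
  have key : ∀ m, m ≤ n → ∑ k ∈ Finset.Ico a (a + m), c (k - a) • x k =
      ∑ k ∈ Finset.Ico 0 m, c k • y k := by
    intro m hm
    rw [Finset.sum_Ico_eq_sum_range, Nat.add_sub_cancel_left, Finset.range_eq_Ico]
    refine Finset.sum_congr rfl fun k hk => ?_
    rw [Nat.add_sub_cancel_left, hxy k (lt_of_lt_of_le (Finset.mem_Ico.mp hk).2 hm)]
  refine ⟨Nat.le_add_right _ _, by rw [key n le_rfl]; exact h.2.1, fun M m1 m2 => ?_⟩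
  obtain ⟨m, rfl⟩ := Nat.exists_eq_add_of_le m1
  rw [key m (by omega)]
  exact h.2.2 m (Nat.zero_le _) (by omega)

lemma Blk.start {x : ℕ → H} {a a' b : ℕ} {c : ℕ → ℂ} {g : H} {e C : ℝ}
    (h : Blk x a' b c g e C) (ha : a ≤ a') : ∃ c', Blk x a b c' g e C := by
  obtain ⟨c', h2⟩ := (blk_zero x ha).append h
  have hC : 0 ≤ C := by simpa using h.2.2 a' le_rfl h.1
  exact ⟨c', by simpa [hC] using h2⟩

end Pool.Agent.H28Rep
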