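import Mathlib
import Pool.Agent.Lib.helper28.RepA

namespace Pool.Agent.H28Rep

open Set Filter Topology
open scoped ComplexConjugate InnerProductSpace ENNReal NNReal

noncomputable abbrev L2 := lp (fun _ : ℕ => ℂ) 2

lemma mem_of_summable {f : ℕ → ℂ} (h : Summable fun n => ‖f n‖ ^ 2) : Memℓp f 2 :=
  memℓp_gen (by simpa using h)

lemma hasSum_sq (f : L2) : HasSum (fun n => ‖f n‖ ^ 2) (‖f‖ ^ 2) := by
  simpa using lp.hasSum_norm (p := 2) (by norm_num) f

lemma summable_ker {z : ℂ} (h : ‖z‖ < 1) : Summable fun n : ℕ => ‖conj z ^ n‖ ^ 2 := by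
  have := summable_geometric_of_lt_one (r := ‖z‖ ^ 2) (by positivity)
    (by nlinarith [norm_nonneg z])
  refine this.congr fun n => ?_
  rw [norm_pow, Complex.norm_conj, ← pow_mul, ← pow_mul, mul_comm]

/-- The Cauchy kernel as a coefficient sequence. -/
noncomputable def kv (z : ℂ) : L2 :=
  if h : ‖z‖ < 1 then ⟨fun n => conj z ^ n, mem_of_summable (summable_ker h)⟩ else 0

lemma kv_apply {z : ℂ} (h : ‖z‖ < 1) (n : ℕ) : kv z n = conj z ^ n := by
  simp [kv, h]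

lemma final {L : ℕ → ℂ} (hL : ∀ n, ‖L n‖ < 1) {S : Set L2}
    (hS : ∀ g ∈ S, ∃ C, Far (fun n => kv (L n)) g C)
    (hd : Dense (Submodule.span ℂ S : Set L2)) (f : ℕ → ℂ) (hf : Summable fun n => ‖f n‖ ^ 2) :
    ∃ c : ℕ → ℂ, Tendsto (fun N : ℕ => ∑' n : ℕ,
      ‖f n - ∑ k ∈ Finset.range N, c k * (conj (L k)) ^ n‖ ^ 2) atTop (𝓝 0) := by
  set F : L2 := ⟨f, mem_of_summable hf⟩
  obtain ⟨c, hc⟩ := represent hS hd F
  refine ⟨c, ?_⟩
  have h1 := ((tendsto_const_nhds (x := F)).sub hc).norm.pow 2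
  simp only [sub_self, norm_zero, ne_eq, OfNat.ofNat_ne_zero, not_false_eq_true, zero_pow] at h1
  refine h1.congr fun N => ?_
  rw [← (hasSum_sq _).tsum_eq]
  refine tsum_congr fun n => ?_
  rw [lp.coeFn_sub, Pi.sub_apply, lp.coeFn_sum, Finset.sum_apply]
  simp only [lp.coeFn_smul, Pi.smul_apply, kv_apply (hL _), smul_eq_mul]
  rfl

lemma dense_single : Dense (Submodule.span ℂ (range fun k : ℕ => (lp.single 2 k (1 : ℂ) : L2)) :
    Set L2) := by
  rw [Submodule.dense_iff_topologicalClosure_eq_top, Submodule.topologicalClosure_eq_top_iff,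
    Submodule.eq_bot_iff]
  intro f hf
  ext k
  have := (Submodule.mem_orthogonal _ f).mp hf _ (Submodule.subset_span ⟨k, rfl⟩)
  rw [lp.inner_single_left] at this
  simpa using this

lemma dense_kv {a b : ℝ} (ha : 0 ≤ a) (hab : a < b) (hb : b ≤ 1) :
    Dense (Submodule.span ℂ ((fun t : ℝ => kv t) '' Ioo a b) : Set L2) := by
  rw [Submodule.dense_iff_topologicalClosure_eq_top, Submodule.topologicalClosure_eq_top_iff,
    Submodule.eq_bot_iff]
  intro f hf
  set p := FormalMultilinearSeries.ofScalars ℂ (fun n => f n) with hp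
  have hr : ((1 : ℝ≥0) : ℝ≥0∞) ≤ p.radius := p.le_radius_of_bound ‖f‖ fun n => by
    simpa [hp] using lp.norm_apply_le_norm (by norm_num) f n
  have hball := (p.hasFPowerSeriesOnBall (lt_of_lt_of_le (by simp) hr)).mono (by simp) hr
  have han := hball.analyticOnNhd
  rw [Metric.eball_coe] at han
  have hz : ∀ t ∈ Ioo a b, p.sum (t : ℂ) = 0 := by
    intro t ht
    have h1 : ‖(t : ℂ)‖ < 1 := by
      rw [Complex.norm_real, Real.norm_eq_abs, abs_of_pos (by linarith [ht.1])]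
      linarith [ht.2]
    have := (Submodule.mem_orthogonal _ f).mp hf _ (Submodule.subset_span ⟨t, ht, rfl⟩)
    rw [lp.inner_eq_tsum] at this
    rw [← this]
    refine tsum_congr fun n => ?_
    simp [hp, kv_apply h1, mul_comm]
  set t0 := (a + b) / 2
  have ht0 : t0 ∈ Ioo a b := ⟨by simp only [t0]; linarith, by simp only [t0]; linarith⟩
  have hfr : ∃ᶠ z in 𝓝[≠] (t0 : ℂ), p.sum z = 0 := by
    have ht : Tendsto (fun t : ℝ => (t : ℂ)) (𝓝[≠] t0) (𝓝[≠] (t0 : ℂ)) := by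
      refine tendsto_nhdsWithin_of_tendsto_nhds_of_eventually_within _
        (Complex.continuous_ofReal.continuousAt.mono_left nhdsWithin_le_nhds) ?_
      filter_upwards [self_mem_nhdsWithin] with t ht
      simpa using ht
    refine ht.frequently (Eventually.frequently ?_)
    filter_upwards [nhdsWithin_le_nhds (Ioo_mem_nhds ht0.1 ht0.2)] with t ht
    exact hz t ht
  have hmem : (t0 : ℂ) ∈ Metric.ball (0 : ℂ) ((1 : ℝ≥0) : ℝ) := by
    rw [mem_ball_zero_iff, Complex.norm_real, Real.norm_eq_abs, abs_of_pos (by linarith [ht0.1])]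
    simp only [NNReal.coe_one]
    linarith [ht0.2]
  have hzero := han.eqOn_zero_of_preconnected_of_frequently_eq_zero
    (convex_ball _ _).isPreconnected hmem hfr
  have hp0 : p = 0 := hball.hasFPowerSeriesAt.eq_zero_of_eventually
    (hzero.eventuallyEq_of_mem (Metric.ball_mem_nhds _ (by simp)))
  rw [hp, FormalMultilinearSeries.ofScalars_series_eq_zero] at hp0
  ext n
  exact congrFun hp0 n

lemma kv_dist {s t : ℝ} (hs : s ∈ Ioo (0 : ℝ) 1) (ht : t ∈ Ioo (0 : ℝ) 1) :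
    ‖kv s - kv t‖ ^ 2 = (1 - s * s)⁻¹ - 2 * (1 - s * t)⁻¹ + (1 - t * t)⁻¹ := by
  have n1 : ∀ u ∈ Ioo (0 : ℝ) 1, ‖(u : ℂ)‖ < 1 := fun u hu => by
    rw [Complex.norm_real, Real.norm_eq_abs, abs_of_pos hu.1]; exact hu.2
  have g : ∀ u ∈ Ioo (0 : ℝ) 1, ∀ v ∈ Ioo (0 : ℝ) 1, HasSum (fun n : ℕ => (u * v) ^ n)
      (1 - u * v)⁻¹ := fun u hu v hv =>
    hasSum_geometric_of_lt_one (mul_pos hu.1 hv.1).le (by nlinarith [hu.1, hu.2, hv.1, hv.2])
  refine (hasSum_sq _).unique ?_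
  have h0 := ((g s hs s hs).sub ((g s hs t ht).mul_left 2)).add (g t ht t ht)
  have e : (fun n : ℕ => ‖(kv s - kv t) n‖ ^ 2) =
      fun n : ℕ => (s * s) ^ n - 2 * (s * t) ^ n + (t * t) ^ n := ?_
  · rw [e]; exact h0
  funext n
  rw [lp.coeFn_sub, Pi.sub_apply, kv_apply (n1 s hs), kv_apply (n1 t ht), Complex.conj_ofReal,
    Complex.conj_ofReal, ← Complex.ofReal_pow, ← Complex.ofReal_pow, ← Complex.ofReal_sub,
    Complex.norm_real, Real.norm_eq_abs, sq_abs, mul_pow, mul_pow, mul_pow]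
  ring

lemma kv_near {t : ℝ} (ht : t ∈ Ioo (0 : ℝ) 1) {e : ℝ} (he : 0 < e) :
    ∀ᶠ s : ℝ in 𝓝 t, ‖kv t - kv s‖ ≤ e := by
  have h1 : 1 - t * t ≠ 0 := by nlinarith [ht.1, ht.2]
  have hc : ContinuousAt (fun s : ℝ => (1 - t * t)⁻¹ - 2 * (1 - t * s)⁻¹ + (1 - s * s)⁻¹) t := by
    fun_prop (disch := assumption)
  have := hc.eventually (gt_mem_nhds (a := e ^ 2) (by
    have : 0 < e ^ 2 := by positivity
    simp only; linarith))
  filter_upwards [this, Ioo_mem_nhds ht.1 ht.2] with s h2 h3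
  rw [← kv_dist ht h3] at h2
  exact (pow_le_pow_iff_left₀ (norm_nonneg _) he.le two_ne_zero).mp h2.le

lemma exists_enum {a b : ℝ} (hab : a < b) : ∃ q : ℕ → ℝ, Function.Injective q ∧
    (∀ n, q n ∈ Ioo a b) ∧ ∀ t ∈ Ioo a b, ∀ U ∈ 𝓝 t, ∀ m, ∃ n, m ≤ n ∧ q n ∈ U := by
  set Q : Set ℝ := Ioo a b ∩ range ((↑) : ℚ → ℝ)
  have inf : ∀ u v : ℝ, u < v → (Ioo u v ∩ range ((↑) : ℚ → ℝ)).Infinite := by
    intro u v huv
    obtain ⟨p, p1, p2⟩ := exists_rat_btwn huv
    obtain ⟨r, r1, r2⟩ := exists_rat_btwn p2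
    have : p < r := by exact_mod_cast r1
    refine ((Set.Ioo_infinite this).image (Rat.cast_injective (α := ℝ)).injOn).mono ?_
    rintro _ ⟨x, hx, rfl⟩
    have x1 : (p : ℝ) < x := by exact_mod_cast hx.1
    have x2 : (x : ℝ) < r := by exact_mod_cast hx.2
    exact ⟨⟨by linarith, by linarith⟩, x, rfl⟩
  haveI : Countable Q := ((countable_range _).mono inter_subset_right).to_subtype
  haveI : Infinite Q := (inf a b hab).to_subtype
  obtain ⟨D⟩ := nonempty_denumerable Q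
  let e := (Denumerable.eqv Q).symm
  refine ⟨fun n => (e n : ℝ), Subtype.val_injective.comp e.injective, fun n => (e n).2.1,
    fun t ht U hU m => ?_⟩
  obtain ⟨u, v, huv, hsub⟩ := mem_nhds_iff_exists_Ioo_subset.mp
    (inter_mem hU (Ioo_mem_nhds ht.1 ht.2))
  have h1 := inf u v (huv.1.trans huv.2)
  have h2 : {n | (e n : ℝ) ∈ U}.Infinite := by
    intro hfin
    refine h1 ((hfin.image fun n => (e n : ℝ)).subset ?_)
    intro x hx
    refine ⟨e.symm ⟨x, (hsub hx.1).2, hx.2⟩, ?_, by simp⟩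
    simpa using (hsub hx.1).1
  obtain ⟨n, hn, hmn⟩ := h2.exists_gt m
  exact ⟨n, hmn.le, hn⟩

lemma exists_block {a b : ℝ} (ha : 0 ≤ a) (hab : a < b) (hb : b ≤ 1) (g : L2) {e : ℝ}
    (he : 0 < e) : ∃ (q : ℕ → ℝ) (N : ℕ) (c : ℕ → ℂ), Function.Injective q ∧
      (∀ n, q n ∈ Ioo a b) ∧ 0 < N ∧ Blk (fun n => kv (q n)) 0 N c g e (‖g‖ + 2 * e) := by
  obtain ⟨q, q1, q2, q3⟩ := exists_enum hab
  have hS : ∀ g ∈ (fun t : ℝ => kv t) '' Ioo a b, ∃ C, Far (fun n => kv (q n)) g C := by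
    rintro _ ⟨t, ht, rfl⟩
    refine ⟨‖kv t‖ + 1, fun e he m => ?_⟩
    obtain ⟨n, n1, n2⟩ := q3 t ht _ (kv_near ⟨by linarith [ht.1], by linarith [ht.2]⟩
      (lt_min he one_pos)) m
    have n2 : ‖kv t - kv (q n)‖ ≤ min e 1 := n2
    have : Blk (fun n => kv (q n)) n (n + 1) (fun _ => 1) (kv t) e (‖kv t‖ + 1) := by
      refine ⟨Nat.le_succ n, by simpa using n2.trans (min_le_left _ _), fun M m1 m2 => ?_⟩
      rcases m1.eq_or_lt with rfl | h
      · simp; positivity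
      · obtain rfl : M = n + 1 := by omega
        have := norm_sub_le (kv t) (kv t - kv (q n))
        rw [sub_sub_cancel] at this
        simpa using this.trans (by linarith [min_le_right e 1])
    obtain ⟨c, hc⟩ := this.start n1
    exact ⟨n + 1, c, hc⟩
  obtain ⟨N, c, h1, h2⟩ := blk_of_dense hS (dense_kv ha hab hb) g he 0
  exact ⟨q, N, c, q1, q2, h1, h2⟩

theorem exists_to_one : ∃ L : ℕ → ℝ, Function.Injective L ∧ (∀ n, L n ∈ Ioo (0 : ℝ) 1) ∧
    Tendsto L atTop (𝓝 1) ∧ ∀ f : ℕ → ℂ, (Summable fun n => ‖f n‖ ^ 2) →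
      ∃ c : ℕ → ℂ, Tendsto (fun N : ℕ => ∑' n : ℕ,
        ‖f n - ∑ k ∈ Finset.range N, c k * (conj (L k : ℂ)) ^ n‖ ^ 2) atTop (𝓝 0) := by
  set t : ℕ → ℝ := fun i => 1 - 1 / ((i : ℝ) + 1) with ht
  have tm : StrictMono t := fun i j h => by
    have := Nat.one_div_lt_one_div (α := ℝ) h
    simp only [ht]; linarith
  have t0 : ∀ i, 0 ≤ t i := fun i => by simpa [ht] using tm.monotone (Nat.zero_le i)
  have t1 : ∀ i, t i ≤ 1 := fun i => by
    have : 0 < 1 / ((i : ℝ) + 1) := by positivity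
    simp only [ht]; linarith
  have h := fun i : ℕ => exists_block (t0 i) (tm (Nat.lt_succ_self i)) (t1 (i + 1))
    (lp.single 2 (Nat.unpair i).1 (1 : ℂ)) (e := 1 / ((i : ℝ) + 1)) (by positivity)
  choose q N c q1 q2 hN hB using h
  obtain ⟨L, s, s0, s1, hL, hall⟩ := exists_concat N hN q
  have sm : StrictMono s := strictMono_nat_of_lt_succ fun i => by rw [s1]; linarith [hN i]
  have hin : ∀ n, L n ∈ Ioo (0 : ℝ) 1 := by
    intro n
    obtain ⟨i, k, hk, rfl⟩ := hall n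
    rw [hL i k hk]
    exact ⟨lt_of_le_of_lt (t0 i) (q2 i k).1, lt_of_lt_of_le (q2 i k).2 (t1 _)⟩
  refine ⟨L, fun n m hnm => ?_, hin, ?_, final (L := fun n => (L n : ℂ)) (fun n => ?_)
    ?_ dense_single⟩
  · obtain ⟨i, k, hk, rfl⟩ := hall n
    obtain ⟨j, l, hl, rfl⟩ := hall m
    rw [hL i k hk, hL j l hl] at hnm
    have a1 : i < j + 1 := tm.lt_iff_lt.mp ((q2 i k).1.trans (hnm ▸ (q2 j l).2))
    have a2 : j < i + 1 := tm.lt_iff_lt.mp ((q2 j l).1.trans (hnm ▸ (q2 i k).2))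
    obtain rfl : i = j := by omega
    rw [q1 i hnm]
  · rw [Metric.tendsto_atTop]
    intro e he
    obtain ⟨K, hK⟩ := exists_nat_one_div_lt he
    refine ⟨s K, fun n hn => ?_⟩
    have h1 := (hin n).2
    obtain ⟨i, k, hk, rfl⟩ := hall n
    have : K < i + 1 := sm.lt_iff_lt.mp (by rw [s1]; omega)
    have h2 := tm.monotone (show K ≤ i by omega)
    have h3 := (q2 i k).1
    rw [hL i k hk] at h1 ⊢
    rw [Real.dist_eq, abs_lt]
    simp only [ht] at h2 h3
    constructor <;> linarith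
  · rw [Complex.norm_real, Real.norm_eq_abs, abs_of_pos (hin n).1]
    exact (hin n).2
  · rintro _ ⟨k, rfl⟩
    refine ⟨3, fun e he a => ?_⟩
    obtain ⟨K, hK⟩ := exists_nat_one_div_lt he
    set i := Nat.pair k (max a K) with hi
    have i1 : max a K ≤ i := Nat.right_le_pair _ _
    have h1 := (hB i).shift (x := fun n => kv (L n : ℂ)) (a := s i) fun k hk => by
      simp only [hL i k hk]
    rw [hi, Nat.unpair_pair, ← hi, lp.norm_single (by norm_num), norm_one] at h1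
    obtain ⟨c', h2⟩ := h1.start (a := a) ((le_max_left _ _).trans (i1.trans sm.le_apply))
    refine ⟨_, c', h2.mono ?_ ?_⟩
    · exact (Nat.one_div_le_one_div ((le_max_right _ _).trans i1)).trans hK.le
    · have := Nat.one_div_le_one_div (α := ℝ) (Nat.zero_le i)
      simp only [Nat.cast_zero, zero_add, div_one] at this
      linarith

end Pool.Agent.H28Rep
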