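import Mathlib
import Pool.Agent.Lib.helper28.RepB

namespace Pool.Agent.H28Rep

open Set Filter Topology
open scoped ComplexConjugate InnerProductSpace ENNReal NNReal

lemma orth {w : ℂ} {N : ℕ} (hN : 0 < N) (hw : IsPrimitiveRoot w N) (a b : ℕ) :
    ∑ n ∈ Finset.range N, (w ^ a * conj w ^ b) ^ n = if a ≡ b [MOD N] then (N : ℂ) else 0 := by
  have hn : ‖w‖ = 1 := hw.norm'_eq_one hN.ne'
  have h1 : w * conj w = 1 := by rw [Complex.mul_conj, Complex.normSq_eq_norm_sq, hn]; simp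
  have h1b : w ^ b * conj w ^ b = 1 := by rw [← mul_pow, h1, one_pow]
  have hfin : IsOfFinOrder w := isOfFinOrder_iff_pow_eq_one.mpr ⟨N, hN, hw.pow_eq_one⟩
  have hiff : w ^ a = w ^ b ↔ a ≡ b [MOD N] := by
    rw [hfin.pow_eq_pow_iff_modEq, ← hw.eq_orderOf]
  split_ifs with h
  · rw [hiff.mpr h, h1b]; simp
  · have hne : w ^ a * conj w ^ b ≠ 1 := by
      intro e
      apply h
      rw [← hiff]
      linear_combination (w ^ b) * e - (w ^ a) * h1b
    have hp : (w ^ a * conj w ^ b) ^ N = 1 := by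
      rw [mul_pow, ← pow_mul, ← pow_mul, mul_comm a, mul_comm b, pow_mul, pow_mul, ← map_pow,
        hw.pow_eq_one]
      simp
    rw [geom_sum_eq hne, hp]; simp

lemma parseval {w : ℂ} {N J : ℕ} (hN : 0 < N) (hw : IsPrimitiveRoot w N) (hJ : J ≤ N)
    (u : ℕ → ℂ) (hu : ∀ j, ‖u j‖ = 1) :
    ∑ n ∈ Finset.range N, ‖∑ j ∈ Finset.range J, u j * (conj w ^ j) ^ n‖ ^ 2 = N * J := by
  have : ((∑ n ∈ Finset.range N, ‖∑ j ∈ Finset.range J, u j * (conj w ^ j) ^ n‖ ^ 2 : ℝ) : ℂ) =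
      N * J := by
    push_cast
    have e : ∀ n, ((‖∑ j ∈ Finset.range J, u j * (conj w ^ j) ^ n‖ : ℝ) : ℂ) ^ 2 =
        ∑ j ∈ Finset.range J, ∑ i ∈ Finset.range J,
          u j * conj (u i) * (w ^ i * conj w ^ j) ^ n := by
      intro n
      rw [← Complex.mul_conj', map_sum, Finset.sum_mul_sum]
      refine Finset.sum_congr rfl fun j _ => Finset.sum_congr rfl fun i _ => ?_
      simp only [map_mul, map_pow, Complex.conj_conj, mul_pow]
      ring
    simp_rw [e]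
    rw [Finset.sum_comm]
    have e2 : ∀ j ∈ Finset.range J, ∑ n ∈ Finset.range N, ∑ i ∈ Finset.range J,
        u j * conj (u i) * (w ^ i * conj w ^ j) ^ n = N := by
      intro j hj
      rw [Finset.sum_comm]
      simp_rw [← Finset.mul_sum, orth hN hw]
      rw [Finset.sum_eq_single j]
      · rw [if_pos (Nat.ModEq.refl j), Complex.mul_conj', hu]; simp
      · intro i hi hij
        rw [if_neg, mul_zero]
        intro h
        exact hij (Nat.ModEq.eq_of_lt_of_lt h (by have := Finset.mem_range.mp hi; omega)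
          (by have := Finset.mem_range.mp hj; omega))
      · intro h; exact absurd hj h
    rw [Finset.sum_congr rfl e2]
    simp [mul_comm]
  exact_mod_cast this

/-- Partial sum of kernels along a circle. -/
noncomputable def arc (w : ℂ) (r : ℝ) (k J : ℕ) : L2 :=
  ∑ j ∈ Finset.range J, (w ^ j) ^ k • kv (r * w ^ j)

lemma norm_pt {w : ℂ} (hn : ‖w‖ = 1) {r : ℝ} (hr0 : 0 ≤ r) (j : ℕ) : ‖(r * w ^ j : ℂ)‖ = r := by
  rw [norm_mul, norm_pow, hn, Complex.norm_real, Real.norm_eq_abs, abs_of_nonneg hr0]; simp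

lemma arc_apply {w : ℂ} (hn : ‖w‖ = 1) {r : ℝ} (hr0 : 0 ≤ r) (hr : r < 1) (k J n : ℕ) :
    arc w r k J n = r ^ n * ∑ j ∈ Finset.range J, (w ^ j) ^ k * (conj w ^ j) ^ n := by
  rw [arc, lp.coeFn_sum, Finset.sum_apply, Finset.mul_sum]
  refine Finset.sum_congr rfl fun j _ => ?_
  rw [lp.coeFn_smul, Pi.smul_apply, kv_apply (by rw [norm_pt hn hr0]; exact hr), smul_eq_mul]
  simp only [map_mul, map_pow, Complex.conj_ofReal, mul_pow]
  ring

lemma arc_full {w : ℂ} {N : ℕ} (hN : 0 < N) (hw : IsPrimitiveRoot w N) {r : ℝ} (hr0 : 0 ≤ r)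
    (hr : r < 1) (k n : ℕ) :
    arc w r k N n = if k ≡ n [MOD N] then (r : ℂ) ^ n * N else 0 := by
  rw [arc_apply (hw.norm'_eq_one hN.ne') hr0 hr]
  have : ∀ j : ℕ, (w ^ j) ^ k * (conj w ^ j) ^ n = (w ^ k * conj w ^ n) ^ j := fun j => by
    rw [mul_pow, ← pow_mul, ← pow_mul, ← pow_mul, ← pow_mul, mul_comm j, mul_comm j]
  simp_rw [this]
  rw [orth hN hw]
  split_ifs <;> simp

lemma arc_norm {w : ℂ} {N J : ℕ} (hN : 0 < N) (hw : IsPrimitiveRoot w N) (hJ : J ≤ N) {r : ℝ}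
    (hr0 : 0 ≤ r) (hr : r < 1) (k : ℕ) :
    ‖arc w r k J‖ ^ 2 ≤ (N : ℝ) ^ 2 * (1 - r ^ N)⁻¹ := by
  have hn := hw.norm'_eq_one hN.ne'
  have hρ0 : 0 ≤ r ^ N := by positivity
  have hρ : r ^ N < 1 := pow_lt_one₀ hr0 hr hN.ne'
  have blk : ∀ b : ℕ, ∑ n ∈ Finset.range N, ‖arc w r k J (N * b + n)‖ ^ 2 ≤
      (N : ℝ) ^ 2 * (r ^ N) ^ b := by
    intro b
    have hp := parseval hN hw hJ (fun j => (w ^ j) ^ k * (conj w ^ j) ^ (N * b)) fun j => by
      simp [hn]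
    calc _ ≤ ∑ n ∈ Finset.range N, (r ^ N) ^ b * ‖∑ j ∈ Finset.range J,
          (w ^ j) ^ k * (conj w ^ j) ^ (N * b) * (conj w ^ j) ^ n‖ ^ 2 := by
          refine Finset.sum_le_sum fun n _ => ?_
          rw [arc_apply hn hr0 hr, norm_mul, mul_pow, norm_pow, Complex.norm_real,
            Real.norm_eq_abs, abs_of_nonneg hr0]
          simp_rw [pow_add (conj w ^ _), ← mul_assoc]
          refine mul_le_mul_of_nonneg_right ?_ (by positivity)
          rw [← pow_mul, ← pow_mul]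
          exact pow_le_pow_of_le_one hr0 hr.le (by omega)
      _ = (r ^ N) ^ b * (N * J) := by rw [← Finset.mul_sum, hp]
      _ ≤ _ := by
          have : (J : ℝ) ≤ N := by exact_mod_cast hJ
          rw [mul_comm, sq]
          gcongr
  have tot : ∀ B : ℕ, ∑ n ∈ Finset.range (N * B), ‖arc w r k J n‖ ^ 2 ≤
      ∑ b ∈ Finset.range B, (N : ℝ) ^ 2 * (r ^ N) ^ b := by
    intro B
    induction B with
    | zero => simp
    | succ B ih =>
      rw [Nat.mul_succ, Finset.sum_range_add, Finset.sum_range_succ]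
      exact add_le_add ih (blk B)
  rw [← (hasSum_sq _).tsum_eq]
  refine Real.tsum_le_of_sum_range_le (fun n => by positivity) fun B => ?_
  calc _ ≤ ∑ n ∈ Finset.range (N * B), ‖arc w r k J n‖ ^ 2 :=
        Finset.sum_le_sum_of_subset_of_nonneg
          (Finset.range_mono (Nat.le_mul_of_pos_left B hN)) fun _ _ _ => by positivity
    _ ≤ _ := tot B
    _ ≤ _ := sum_le_hasSum _ (fun _ _ => by positivity)
        ((hasSum_geometric_of_lt_one hρ0 hρ).mul_left _)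

lemma inner_le {f g : L2} {K r : ℝ} {M : ℕ} (hr0 : 0 ≤ r) (hr : r < 1)
    (hf : ∀ n, ‖f n‖ ≤ K * r ^ n) (hg : ∀ n, ‖g n‖ ≤ 1) (hg0 : ∀ n, n < M → g n = 0) :
    ‖⟪f, g⟫_ℂ‖ ≤ K * r ^ M * (1 - r)⁻¹ := by
  have h1 := (hasSum_nat_add_iff' M).mpr (lp.hasSum_inner (𝕜 := ℂ) f g)
  rw [Finset.sum_eq_zero (fun n hn => by rw [hg0 n (Finset.mem_range.mp hn)]; simp),
    sub_zero] at h1
  refine h1.norm_le_of_bounded ((hasSum_geometric_of_lt_one hr0 hr).mul_left (K * r ^ M))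
    fun n => ?_
  refine (norm_inner_le_norm _ _).trans ?_
  calc _ ≤ (K * r ^ (n + M)) * 1 :=
        mul_le_mul (hf _) (hg _) (norm_nonneg _) ((norm_nonneg _).trans (hf _))
    _ = _ := by ring

lemma sum_sq_le {E : ℕ → L2} {B η : ℝ} (hη : 0 ≤ η) (L : ℕ) (hB : ∀ l, l < L → ‖E l‖ ^ 2 ≤ B)
    (hE : ∀ l m, l < m → ‖⟪E l, E m⟫_ℂ‖ ≤ η) :
    ‖∑ l ∈ Finset.range L, E l‖ ^ 2 ≤ L * B + L ^ 2 * η := by
  induction L with
  | zero => simp
  | succ L ih =>
    rw [Finset.sum_range_succ, @norm_add_sq ℂ, sum_inner]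
    have h1 := ih fun l hl => hB l (by omega)
    have h2 := hB L (by omega)
    have h3 : RCLike.re (∑ l ∈ Finset.range L, ⟪E l, E L⟫_ℂ) ≤ L * η := by
      refine (RCLike.re_le_norm _).trans ((norm_sum_le _ _).trans ?_)
      refine (Finset.sum_le_sum fun l hl => hE l L (Finset.mem_range.mp hl)).trans ?_
      simp
    push_cast
    nlinarith

lemma Blk.target {x : ℕ → L2} {a b : ℕ} {c : ℕ → ℂ} {g g' : L2} {e C : ℝ}
    (h : Blk x a b c g 0 C) (hg : ‖g' - g‖ ≤ e) : Blk x a b c g' e C := by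
  refine ⟨h.1, ?_, h.2.2⟩
  have := norm_le_zero_iff.mp h.2.1
  rw [sub_eq_zero] at this
  rw [← this]; exact hg

lemma exists_params : ∃ (N : ℕ → ℕ) (r : ℕ → ℝ), (∀ l, l < N l) ∧ (∀ l, 2 * N l ≤ N (l + 1)) ∧
    (∀ l, r l = 1 - 1 / (((Nat.sqrt l : ℝ) + 2) * N l)) ∧
    ∀ l, r l ^ N (l + 1) * (1 - r l)⁻¹ ≤ 1 / ((l : ℝ) + 1) := by
  have h : ∀ l n : ℕ, ∃ m : ℕ, 2 * n ≤ m ∧ (0 < n →
      (1 - 1 / (((Nat.sqrt l : ℝ) + 2) * n)) ^ m *
        (1 - (1 - 1 / (((Nat.sqrt l : ℝ) + 2) * n)))⁻¹ ≤ 1 / ((l : ℝ) + 1)) := by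
    intro l n
    rcases Nat.eq_zero_or_pos n with rfl | hn
    · exact ⟨0, by simp, by simp⟩
    have hn' : (1 : ℝ) ≤ n := by exact_mod_cast hn
    have h0 : (0 : ℝ) ≤ Nat.sqrt l := Nat.cast_nonneg _
    have h1 : 0 < 1 / (((Nat.sqrt l : ℝ) + 2) * n) := by positivity
    have h2 : 1 / (((Nat.sqrt l : ℝ) + 2) * n) ≤ 1 := by
      rw [div_le_one (by positivity)]; nlinarith
    have ht := (tendsto_pow_atTop_nhds_zero_of_lt_one (r := 1 - 1 / (((Nat.sqrt l : ℝ) + 2) * n))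
      (by linarith) (by linarith)).mul_const (1 - (1 - 1 / (((Nat.sqrt l : ℝ) + 2) * n)))⁻¹
    rw [zero_mul] at ht
    obtain ⟨m, m1, m2⟩ := ((ht.eventually (ge_mem_nhds (a := 1 / ((l : ℝ) + 1))
      Nat.one_div_pos_of_nat)).and (eventually_ge_atTop (2 * n))).exists
    exact ⟨m, m2, fun _ => m1⟩
  choose F F1 F2 using h
  obtain ⟨N, n0, s⟩ : ∃ N : ℕ → ℕ, N 0 = 1 ∧ ∀ l, N (l + 1) = F l (N l) :=
    ⟨fun l => Nat.rec 1 (fun l n => F l n) l, rfl, fun l => rfl⟩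
  have h1 : ∀ l, l < N l := by
    intro l
    induction l with
    | zero => omega
    | succ l ih => have := F1 l (N l); rw [s]; omega
  let r : ℕ → ℝ := fun l => 1 - 1 / (((Nat.sqrt l : ℝ) + 2) * N l)
  refine ⟨N, r, h1, fun l => by rw [s]; exact F1 l _, fun l => rfl, fun l => ?_⟩
  rw [s]
  exact F2 l _ (lt_of_le_of_lt (Nat.zero_le l) (h1 l))

lemma circle_facts {N d k : ℕ} {r : ℝ} (hN : 0 < N) (hk : 2 * k ≤ N)
    (hr : r = 1 - 1 / (((d : ℝ) + 2) * N)) :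
    0 < r ∧ r < 1 ∧ 1 / 2 ≤ r ^ k ∧ (1 - r ^ N)⁻¹ ≤ d + 3 := by
  have hN' : (1 : ℝ) ≤ N := by exact_mod_cast hN
  have hk' : 2 * (k : ℝ) ≤ N := by exact_mod_cast hk
  have h0 : (0 : ℝ) ≤ d := Nat.cast_nonneg _
  set x := 1 / (((d : ℝ) + 2) * N) with hx
  have h1 : 0 < x := by positivity
  have hxN : x * N = 1 / ((d : ℝ) + 2) := by rw [hx]; field_simp
  have h3 : 1 / ((d : ℝ) + 2) ≤ 1 / 2 := one_div_le_one_div_of_le (by norm_num) (by linarith)
  have h2 : x ≤ 1 / 2 := by nlinarith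
  refine ⟨by linarith, by linarith, ?_, ?_⟩
  · have := one_add_mul_le_pow (a := -x) (by linarith) k
    rw [hr, sub_eq_add_neg]
    nlinarith
  · have e1 : r ^ N ≤ Real.exp (-(1 / ((d : ℝ) + 2))) := by
      rw [← hxN, show -(x * N) = N * -x by ring, Real.exp_nat_mul]
      exact pow_le_pow_left₀ (by linarith) (by linarith [Real.add_one_le_exp (-x)]) N
    have e2 : Real.exp (-(1 / ((d : ℝ) + 2))) ≤ 1 - 1 / ((d : ℝ) + 3) := by
      rw [Real.exp_neg, inv_le_comm₀ (Real.exp_pos _) (by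
        rw [sub_pos, div_lt_one (by positivity)]; linarith)]
      refine le_trans (le_of_eq ?_) (Real.add_one_le_exp _)
      have : (d : ℝ) + 3 - 1 = d + 2 := by ring
      field_simp
      rw [this]
      field_simp
      ring
    rw [inv_le_comm₀ (by
      have : 0 < 1 / ((d : ℝ) + 3) := by positivity
      linarith) (by positivity), ← one_div]
    linarith

end Pool.Agent.H28Rep
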