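import Mathlib
import Pool.Agent.Lib.helper28.MoranA
import Pool.Agent.Lib.helper28.RepC

namespace Pool.Agent.H28Moran

open MeasureTheory Set Filter Topology
open scoped ComplexConjugate InnerProductSpace ENNReal NNReal

/-- Scales of the construction. -/
def L : ℕ → ℕ
  | 0 => 1
  | k + 1 => (k + 2) * L k * (k + 2)

/-- Denominators of the construction. -/
def B (k : ℕ) : ℕ := (k + 2) * L k

lemma L_succ (k : ℕ) : L (k + 1) = B k * (k + 2) := rfl

lemma L_pos (k : ℕ) : 0 < L k := by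
  induction k with
  | zero => simp [L]
  | succ k ih => simp only [L]; positivity

lemma B_pos (k : ℕ) : 0 < B k := Nat.mul_pos (by omega) (L_pos k)

lemma L_dvd {k m : ℕ} (h : k ≤ m) : L k ∣ L m := by
  induction m, h using Nat.le_induction with
  | base => exact dvd_rfl
  | succ m _ ih => exact ih.trans (Dvd.dvd.mul_right (Dvd.intro_left _ rfl) _)

lemma B_dvd_L {k m : ℕ} (h : k < m) : B k ∣ L m := (Dvd.intro _ (L_succ k).symm).trans (L_dvd h)

lemma B_dvd {k m : ℕ} (h : k ≤ m) : B k ∣ B m := by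
  rcases h.eq_or_lt with rfl | h
  · exact dvd_rfl
  · exact (B_dvd_L h).trans (Dvd.intro_left _ rfl)

lemma B_lt_L {k m : ℕ} (h : k < m) : B k < L m := by
  refine lt_of_lt_of_le ?_ (Nat.le_of_dvd (L_pos m) (L_dvd h))
  rw [L_succ]; nlinarith [B_pos k]

lemma lt_L (k : ℕ) : k < L k := by
  induction k with
  | zero => simp [L]
  | succ k ih => rw [L_succ, B]; nlinarith [L_pos k, Nat.mul_pos (show 0 < k + 2 by omega) (L_pos k)]

/-- Digit space. -/
abbrev Ω := ∀ k : ℕ, Fin (k + 2)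

/-- Uniform law of one digit. -/
noncomputable def U (k : ℕ) : Measure (Fin (k + 2)) := (PMF.uniformOfFintype (Fin (k + 2))).toMeasure

instance (k : ℕ) : IsProbabilityMeasure (U k) := by unfold U; infer_instance

/-- Product law of the digits. -/
noncomputable def P : Measure Ω := Measure.infinitePi U

instance : IsProbabilityMeasure P := by unfold P; infer_instance

/-- One term. -/
noncomputable def tm (k : ℕ) (ω : Ω) : ℝ := ((ω k : ℕ) : ℝ) / B k

lemma tm_nonneg (k : ℕ) (ω : Ω) : 0 ≤ tm k ω := by unfold tm; positivity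

lemma tm_le (k : ℕ) (ω : Ω) : tm k ω ≤ 2 / L k - 2 / L (k + 1) := by
  have h1 : ((ω k : ℕ) : ℝ) ≤ k + 2 := by exact_mod_cast (ω k).2.le
  have hL : (0 : ℝ) < L k := by exact_mod_cast L_pos k
  have hk : (0 : ℝ) ≤ k := Nat.cast_nonneg k
  have a : tm k ω ≤ 1 / L k := by
    unfold tm B
    push_cast
    rw [div_le_div_iff₀ (by positivity) hL]
    nlinarith
  have b : (2 : ℝ) / L (k + 1) ≤ 1 / L k := by
    rw [L_succ, B]
    push_cast
    rw [div_le_div_iff₀ (by positivity) hL]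
    nlinarith [mul_nonneg hk hL.le, mul_nonneg (mul_nonneg hk hk) hL.le]
  have : (2 : ℝ) / L k = 1 / L k + 1 / L k := by ring
  linarith

lemma sum_tm_le (n m : ℕ) (ω : Ω) : ∑ k ∈ Finset.range m, tm (k + n) ω ≤ 2 / L n := by
  have : ∑ k ∈ Finset.range m, tm (k + n) ω ≤ 2 / L n - 2 / L (m + n) := by
    induction m with
    | zero => simp
    | succ m ih =>
      rw [Finset.sum_range_succ, show m + 1 + n = m + n + 1 by ring]
      linarith [tm_le (m + n) ω]
  have h : (0 : ℝ) ≤ 2 / L (m + n) := by positivity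
  linarith

lemma summable_tm (ω : Ω) : Summable fun k => tm k ω :=
  summable_of_sum_range_le (fun k => tm_nonneg k ω) (fun m => by simpa using sum_tm_le 0 m ω)

/-- The random series. -/
noncomputable def X (ω : Ω) : ℝ := ∑' k, tm k ω

lemma X_tail (n : ℕ) (ω : Ω) : 0 ≤ X ω - ∑ k ∈ Finset.range n, tm k ω ∧
    X ω - ∑ k ∈ Finset.range n, tm k ω ≤ 2 / L n := by
  rw [X, ← (summable_tm ω).sum_add_tsum_nat_add n, add_sub_cancel_left]
  exact ⟨tsum_nonneg fun k => tm_nonneg _ ω,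
    Real.tsum_le_of_sum_range_le (fun k => tm_nonneg _ ω) fun m => sum_tm_le n m ω⟩

lemma meas_tm (k : ℕ) : Measurable (tm k) :=
  (measurable_from_top (f := fun j : Fin (k + 2) => ((j : ℕ) : ℝ) / B k)).comp
    (measurable_pi_apply k)

lemma meas_X : Measurable X :=
  measurable_of_tendsto_metrizable (f := fun n ω => ∑ k ∈ Finset.range n, tm k ω)
    (fun _ => Finset.measurable_sum _ fun k _ => meas_tm k)
    (tendsto_pi_nhds.mpr fun ω => (summable_tm ω).hasSum.tendsto_sum_nat)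

/-- One factor of the Fourier transform. -/
noncomputable def D (k : ℕ) (ξ : ℝ) : ℂ :=
  ((k : ℂ) + 2)⁻¹ * ∑ j ∈ Finset.range (k + 2), ex ξ ((j : ℝ) / B k)

lemma prodD (s : Finset ℕ) (ξ : ℝ) :
    ∫ ω, ex ξ (∑ k ∈ s, tm k ω) ∂P = ∏ k ∈ s, D k ξ := by
  have e1 : ∀ ω : Ω, ex ξ (∑ k ∈ s, tm k ω) =
      (fun y : (∀ i : s, Fin (i + 2)) => ∏ i : s, ex ξ (((y i : ℕ) : ℝ) / B i)) (s.restrict ω) := by
    intro ω
    rw [ex_sum, ← Finset.prod_coe_sort]; rfl
  rw [integral_congr_ae (ae_of_all _ e1)]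
  unfold P
  rw [integral_restrict_infinitePi U
    (f := fun y : (∀ i : s, Fin (i + 2)) => ∏ i : s, ex ξ (((y i : ℕ) : ℝ) / B i))
    (measurable_of_finite _).aestronglyMeasurable,
    integral_fintype_prod_eq_prod (fun (i : s) (j : Fin (i + 2)) => ex ξ (((j : ℕ) : ℝ) / B i)),
    ← Finset.prod_coe_sort s (fun k => D k ξ)]
  refine Finset.prod_congr rfl fun i _ => ?_
  unfold U D
  rw [PMF.integral_eq_sum, Finset.mul_sum, Finset.sum_range]
  refine Finset.sum_congr rfl fun j _ => ?_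
  rw [PMF.uniformOfFintype_apply, Complex.real_smul]
  congr 1
  rw [ENNReal.toReal_inv, ENNReal.toReal_natCast]
  simp

lemma close {Y Z : Ω → ℝ} (hY : Measurable Y) (hZ : Measurable Z) {δ : ℝ}
    (h : ∀ ω, |Y ω - Z ω| ≤ δ) (ξ : ℝ) :
    ‖∫ ω, ex ξ (Y ω) ∂P - ∫ ω, ex ξ (Z ω) ∂P‖ ≤ 2 * Real.pi * |ξ| * δ := by
  have i : ∀ {Y : Ω → ℝ}, Measurable Y → Integrable (fun ω => ex ξ (Y ω)) P := fun hY =>
    Integrable.of_bound ((cont_ex ξ).measurable.comp hY).aestronglyMeasurable 1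
      (ae_of_all _ fun ω => (norm_ex _ _).le)
  rw [← integral_sub (i hY) (i hZ)]
  have := norm_integral_le_of_norm_le_const (μ := P) (f := fun ω => ex ξ (Y ω) - ex ξ (Z ω))
    (C := 2 * Real.pi * |ξ| * δ) (ae_of_all _ fun ω => (ex_lip _ _ _).trans
      (mul_le_mul_of_nonneg_left (h ω) (by positivity)))
  simpa using this

/-- Partial products. -/
noncomputable def A (n : ℕ) (ξ : ℝ) : ℂ := ∏ k ∈ Finset.range n, D k ξ

/-- The Fourier transform. -/
noncomputable def F (ξ : ℝ) : ℂ := ∫ ω, ex ξ (X ω) ∂P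

lemma tendsto_L (c : ℝ) : Tendsto (fun n => c / (L n : ℝ)) atTop (𝓝 0) :=
  tendsto_const_nhds.div_atTop (tendsto_natCast_atTop_atTop.comp
    (tendsto_atTop_mono (fun n => (lt_L n).le) tendsto_id))

lemma F_sub_A (n : ℕ) (ξ : ℝ) : ‖F ξ - A n ξ‖ ≤ ‖A n ξ‖ * (4 * Real.pi * |ξ| / L n) := by
  have h1 : ∀ m, ‖F ξ - A m ξ‖ ≤ 4 * Real.pi * |ξ| / L m := by
    intro m
    unfold F A
    rw [← prodD]
    refine (close meas_X (Finset.measurable_sum _ fun k _ => meas_tm k) (δ := 2 / L m)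
      (fun ω => ?_) ξ).trans (le_of_eq (by ring))
    rw [abs_of_nonneg (X_tail m ω).1]; exact (X_tail m ω).2
  have h2 : ∀ m, ‖A (n + m) ξ - A n ξ‖ ≤ ‖A n ξ‖ * (4 * Real.pi * |ξ| / L n) := by
    intro m
    have e : A (n + m) ξ = A n ξ * ∏ k ∈ Finset.Ico n (n + m), D k ξ := by
      unfold A; rw [Finset.prod_range_mul_prod_Ico _ (Nat.le_add_right n m)]
    rw [e, ← mul_sub_one, norm_mul, ← prodD]
    refine mul_le_mul_of_nonneg_left ?_ (norm_nonneg _)
    have := close (Finset.measurable_sum (Finset.Ico n (n + m)) fun k _ => meas_tm k)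
      (Z := fun _ => 0) measurable_const (δ := 2 / L n) (fun ω => by
        rw [sub_zero, abs_of_nonneg (Finset.sum_nonneg fun k _ => tm_nonneg k ω),
          Finset.sum_Ico_eq_sum_range]
        simpa [add_comm] using sum_tm_le n m ω) ξ
    simp only [ex_zero, integral_const, probReal_univ, one_smul] at this
    exact this.trans (le_of_eq (by ring))
  have h3 := ((tendsto_L (4 * Real.pi * |ξ|)).comp (tendsto_add_atTop_nat n)).add_const
    (‖A n ξ‖ * (4 * Real.pi * |ξ| / L n))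
  rw [zero_add] at h3
  refine ge_of_tendsto' h3 fun m => ?_
  have := norm_add_le (F ξ - A (m + n) ξ) (A (m + n) ξ - A n ξ)
  rw [sub_add_sub_cancel] at this
  have a := h1 (m + n)
  have b := h2 m
  rw [add_comm n m] at b
  simp only [Function.comp]
  linarith

lemma D_zero {k : ℕ} {ξ : ℝ} (h : D k ξ = 0) :
    (∃ n : ℤ, ξ = n * L k) ∧ ¬ ∃ n : ℤ, ξ = n * B k := by
  have hk : ((k : ℂ) + 2) ≠ 0 := by exact_mod_cast (show k + 2 ≠ 0 by omega)
  have hL : (0 : ℝ) < L k := by exact_mod_cast L_pos k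
  have hB : (0 : ℝ) < B k := by exact_mod_cast B_pos k
  have e : ∀ j : ℕ, ex ξ ((j : ℝ) / B k) = ex ξ (1 / B k) ^ j := by
    intro j
    have := ex_sum ξ (Finset.range j) fun _ => (1 : ℝ) / B k
    rw [Finset.prod_const, Finset.card_range, Finset.sum_const, Finset.card_range] at this
    rw [← this]; congr 1; simp [div_eq_mul_inv]
  unfold D at h
  simp_rw [e] at h
  rw [mul_eq_zero, inv_eq_zero, or_iff_right hk] at h
  constructor
  · have := geom_sum_mul (ex ξ (1 / B k)) (k + 2)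
    rw [h, zero_mul, ← e, eq_comm, sub_eq_zero, ex_eq_one] at this
    obtain ⟨n, hn⟩ := this
    refine ⟨n, ?_⟩
    rw [← hn, B]; push_cast; field_simp
  · rintro ⟨n, hn⟩
    have : ex ξ (1 / B k) = 1 := ex_eq_one.mpr ⟨n, by rw [hn]; field_simp⟩
    rw [this] at h
    apply hk
    simpa using h

lemma F_zero {ξ : ℝ} (h : F ξ = 0) :
    ∃ k, (∃ n : ℤ, ξ = n * L k) ∧ ¬ ∃ n : ℤ, ξ = n * B k := by
  obtain ⟨n, hn⟩ := ((tendsto_L (4 * Real.pi * |ξ|)).eventually (gt_mem_nhds one_pos)).exists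
  have := F_sub_A n ξ
  rw [h, zero_sub, norm_neg] at this
  have h0 : ‖A n ξ‖ = 0 := by nlinarith [norm_nonneg (A n ξ)]
  obtain ⟨k, -, hk⟩ := Finset.prod_eq_zero_iff.mp (norm_eq_zero.mp h0)
  exact ⟨k, D_zero hk⟩

lemma D_per (k : ℕ) (ξ : ℝ) (m : ℕ) (hm : B k ∣ m) : D k (ξ - m) = D k ξ := by
  obtain ⟨c, rfl⟩ := hm
  have hB : (0 : ℝ) < B k := by exact_mod_cast B_pos k
  unfold D
  congr 1
  refine Finset.sum_congr rfl fun j _ => ?_
  rw [sub_eq_add_neg, ex_add', (ex_eq_one (l := -((B k * c : ℕ) : ℝ))).mpr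
    ⟨-(c * j), by push_cast; field_simp⟩, mul_one]

lemma D_pars (k : ℕ) (ξ : ℝ) :
    ∑ j ∈ Finset.range (k + 2), ‖D k (ξ - (j * L k : ℕ))‖ ^ 2 = 1 := by
  have hw := Complex.isPrimitiveRoot_exp (k + 2) (by omega)
  have hw' := hw.inv
  have p := H28Rep.parseval (by omega) hw' le_rfl (fun i => ex ξ ((i : ℝ) / B k))
    (fun i => norm_ex _ _)
  have hL : (L k : ℂ) ≠ 0 := by exact_mod_cast (L_pos k).ne'
  have hk : ((k : ℂ) + 2) ≠ 0 := by exact_mod_cast (show k + 2 ≠ 0 by omega)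
  have e : ∀ j i : ℕ, ex (ξ - (j * L k : ℕ)) ((i : ℝ) / B k) = ex ξ ((i : ℝ) / B k) *
      (conj (Complex.exp (2 * Real.pi * Complex.I / ((k + 2 : ℕ) : ℂ)))⁻¹ ^ i) ^ j := by
    intro j i
    rw [sub_eq_add_neg, ex_add', ← Complex.exp_neg, ← Complex.exp_conj, ← Complex.exp_nat_mul,
      ← Complex.exp_nat_mul]
    congr 1
    unfold ex B
    congr 1
    simp only [map_neg, map_div₀, map_mul, Complex.conj_ofReal, Complex.conj_I, map_natCast,
      map_ofNat]
    push_cast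
    field_simp
  unfold D
  simp_rw [e, norm_mul, mul_pow]
  rw [← Finset.mul_sum, p, norm_inv]
  have : ‖(k : ℂ) + 2‖ = k + 2 := by exact_mod_cast Complex.norm_natCast (k + 2)
  rw [this]; push_cast; field_simp

/-- Finite pieces of the spectrum. -/
def Λ : ℕ → Finset ℕ
  | 0 => {0}
  | n + 1 => (Λ n ×ˢ Finset.range (n + 2)).image fun p => p.1 + p.2 * L n

lemma Λ_lt (n : ℕ) : ∀ a ∈ Λ n, a * (n + 1) < L n := by
  induction n with
  | zero => simp [Λ, L]
  | succ n ih =>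
    intro a ha
    obtain ⟨⟨b, j⟩, hp, rfl⟩ := Finset.mem_image.mp ha
    obtain ⟨h1, h2⟩ := Finset.mem_product.mp hp
    have h3 : b < L n := by nlinarith [ih b h1]
    have h4 : j ≤ n + 1 := by have := Finset.mem_range.mp h2; omega
    rw [L_succ, B]
    refine Nat.mul_lt_mul_of_pos_right ?_ (by omega)
    nlinarith [Nat.mul_le_mul_right (L n) h4]

lemma Λ_mono : Monotone Λ := monotone_nat_of_le_succ fun n a ha =>
  Finset.mem_image.mpr ⟨(a, 0), Finset.mem_product.mpr ⟨ha, by simp⟩, by simp⟩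

lemma zero_mem (n : ℕ) : 0 ∈ Λ n := Λ_mono (Nat.zero_le n) (by simp [Λ])

lemma L_mem (n : ℕ) : L n ∈ Λ (n + 1) :=
  Finset.mem_image.mpr ⟨(0, 1), Finset.mem_product.mpr ⟨zero_mem n, by simp⟩, by simp⟩

lemma A_pars (n : ℕ) : ∀ ξ : ℝ, ∑ a ∈ Λ n, ‖A n (ξ - a)‖ ^ 2 = 1 := by
  induction n with
  | zero => simp [Λ, A]
  | succ n ih =>
    intro ξ
    rw [Λ, Finset.sum_image, Finset.sum_product, ← ih ξ]
    · refine Finset.sum_congr rfl fun a _ => ?_
      rw [← mul_one (‖A n (ξ - a)‖ ^ 2), ← D_pars n (ξ - a), Finset.mul_sum]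
      refine Finset.sum_congr rfl fun j _ => ?_
      rw [← mul_pow, ← norm_mul, Nat.cast_add, ← sub_sub]
      unfold A
      rw [Finset.prod_range_succ]
      congr 3
      exact Finset.prod_congr rfl fun k hk =>
        D_per k _ _ (Dvd.dvd.mul_left (B_dvd_L (Finset.mem_range.mp hk)) j)
    · rintro ⟨a, j⟩ h1 ⟨b, i⟩ h2 h
      have ha : a < L n := by nlinarith [Λ_lt n a (Finset.mem_product.mp h1).1]
      have hb : b < L n := by nlinarith [Λ_lt n b (Finset.mem_product.mp h2).1]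
      simp only at h
      have := congrArg (· % L n) h
      simp only [Nat.add_mul_mod_self_right, Nat.mod_eq_of_lt ha, Nat.mod_eq_of_lt hb] at this
      subst this
      have := Nat.eq_of_mul_eq_mul_right (L_pos n) (Nat.add_left_cancel h)
      rw [this]

lemma F_orth {n a b : ℕ} (ha : a ∈ Λ n) (hb : b ∈ Λ n) (hab : a ≠ b) : F ((b : ℝ) - a) = 0 := by
  have h := A_pars n b
  have h0 : A n 0 = 1 := Finset.prod_eq_one fun k _ => by
    have hk : ((k : ℂ) + 2) ≠ 0 := by exact_mod_cast (show k + 2 ≠ 0 by omega)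
    unfold D; simp [ex_zero', hk]
  rw [← Finset.add_sum_erase _ _ hb, sub_self, h0, norm_one, one_pow, add_eq_left,
    Finset.sum_eq_zero_iff_of_nonneg (fun _ _ => by positivity)] at h
  have h1 := h a (Finset.mem_erase.mpr ⟨hab, ha⟩)
  have h2 : A n ((b : ℝ) - a) = 0 := by simpa using h1
  have := F_sub_A n ((b : ℝ) - a)
  simpa [h2] using this

lemma F_pars (ξ : ℝ) {ε : ℝ} (hε : 0 < ε) : ∃ n, 1 - ε ≤ ∑ a ∈ Λ n, ‖F (ξ - a)‖ ^ 2 := by
  have t : Tendsto (fun n : ℕ => 4 * Real.pi * |ξ| / L n + 4 * Real.pi * (1 / ((n : ℝ) + 1)))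
      atTop (𝓝 (0 + 4 * Real.pi * 0)) :=
    (tendsto_L _).add (tendsto_one_div_add_atTop_nhds_zero_nat.const_mul _)
  rw [mul_zero, add_zero] at t
  obtain ⟨n, hn⟩ := (t.eventually (gt_mem_nhds (show 0 < min (ε / 2) 1 by positivity))).exists
  refine ⟨n, ?_⟩
  have e : 1 - ε = ∑ a ∈ Λ n, (1 - ε) * ‖A n (ξ - a)‖ ^ 2 := by
    rw [← Finset.mul_sum, A_pars, mul_one]
  rw [e]
  refine Finset.sum_le_sum fun a ha => ?_
  have hL : (0 : ℝ) < L n := by exact_mod_cast L_pos n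
  have h1 : (a : ℝ) / L n ≤ 1 / ((n : ℝ) + 1) := by
    rw [div_le_div_iff₀ hL (by positivity), one_mul]
    exact_mod_cast (Λ_lt n a ha).le
  have h2 : 4 * Real.pi * |ξ - a| / L n ≤ min (ε / 2) 1 := by
    refine le_trans ?_ hn.le
    have : |ξ - a| ≤ |ξ| + a := by simpa using abs_sub ξ a
    calc _ ≤ 4 * Real.pi * (|ξ| + a) / L n := by gcongr
      _ = 4 * Real.pi * |ξ| / L n + 4 * Real.pi * (a / L n) := by ring
      _ ≤ _ := by gcongr
  have h3 := (F_sub_A n (ξ - a)).trans (mul_le_mul_of_nonneg_left h2 (norm_nonneg _))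
  have h4 := norm_sub_norm_le (A n (ξ - a)) (F (ξ - a))
  rw [norm_sub_rev] at h4
  set d := min (ε / 2) 1
  have d1 : d ≤ ε / 2 := min_le_left _ _
  have d2 : d ≤ 1 := min_le_right _ _
  have h5 : ‖A n (ξ - a)‖ * (1 - d) ≤ ‖F (ξ - a)‖ := by linarith
  have h6 := pow_le_pow_left₀ (mul_nonneg (norm_nonneg _) (by linarith)) h5 2
  refine le_trans ?_ h6
  rw [mul_pow, mul_comm]
  exact mul_le_mul_of_nonneg_left (by nlinarith) (by positivity)

end Pool.Agent.H28Moran
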