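import Mathlib

namespace Pool.Agent.H28Pick

open Set MeasureTheory
open scoped Pointwise

abbrev E := EuclideanSpace ℝ (Fin 2)

def box (p q r s : ℝ) : Set E := {x | (p ≤ x 0 ∧ x 0 ≤ q) ∧ (r ≤ x 1 ∧ x 1 ≤ s)}

lemma ext2 {x y : E} (h0 : x 0 = y 0) (h1 : x 1 = y 1) : x = y := by
  ext i
  fin_cases i
  · exact h0
  · exact h1

lemma interior_box (p q r s : ℝ) :
    interior (box p q r s) = {x | (p < x 0 ∧ x 0 < q) ∧ (r < x 1 ∧ x 1 < s)} := by
  have h : ∀ (i : Fin 2) (a b : ℝ), interior ((fun x : E => x i) ⁻¹' Icc a b) =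
      (fun x : E => x i) ⁻¹' Ioo a b := by
    intro i a b
    have ho : IsOpenMap (EuclideanSpace.proj (𝕜 := ℝ) i : E →L[ℝ] ℝ) :=
      ContinuousLinearMap.isOpenMap _ (fun c => ⟨EuclideanSpace.single i c, by simp⟩)
    have := ho.preimage_interior_eq_interior_preimage (EuclideanSpace.proj (𝕜 := ℝ) i).continuous
      (Icc a b)
    rw [interior_Icc] at this
    exact this.symm
  have e : box p q r s = (fun x : E => x 0) ⁻¹' Icc p q ∩ (fun x : E => x 1) ⁻¹' Icc r s := rfl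
  rw [e, interior_inter, h, h]
  rfl

lemma closed_box (p q r s : ℝ) : IsClosed (box p q r s) := by
  have e : box p q r s = (fun x : E => x 0) ⁻¹' Icc p q ∩ (fun x : E => x 1) ⁻¹' Icc r s := rfl
  rw [e]
  exact (isClosed_Icc.preimage (by fun_prop)).inter (isClosed_Icc.preimage (by fun_prop))

lemma convex_box (p q r s : ℝ) : Convex ℝ (box p q r s) := by
  rintro x ⟨hx, hx'⟩ y ⟨hy, hy'⟩ a b ha hb hab
  exact ⟨convex_Icc p q hx hy ha hb hab, convex_Icc r s hx' hy' ha hb hab⟩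

lemma vadd_box (t : E) (p q r s : ℝ) :
    t +ᵥ box p q r s = box (p + t 0) (q + t 0) (r + t 1) (s + t 1) := by
  ext x
  rw [mem_vadd_set_iff_neg_vadd_mem]
  simp only [box, vadd_eq_add, mem_ofPred_eq, PiLp.add_apply, PiLp.neg_apply]
  constructor <;> rintro ⟨⟨a, b⟩, c, d⟩ <;> refine ⟨⟨?_, ?_⟩, ?_, ?_⟩ <;> linarith

lemma box_subset {p q r s p' q' r' s' : ℝ} (h1 : p ≤ q) (h2 : r ≤ s)
    (h : box p q r s ⊆ box p' q' r' s') : (p' ≤ p ∧ q ≤ q') ∧ (r' ≤ r ∧ s ≤ s') := by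
  have a := @h !₂[p, r] (by simp [box, h1, h2])
  have b := @h !₂[q, s] (by simp [box, h1, h2])
  simp [box] at a b
  tauto

lemma hull_box {p q r s : ℝ} (h1 : p ≤ q) (h2 : r ≤ s) :
    box p q r s = convexHull ℝ ({!₂[p, r], !₂[q, r], !₂[p, s], !₂[q, s]} : Set E) := by
  apply Subset.antisymm
  · rintro x ⟨hx, hx'⟩
    set K := convexHull ℝ ({!₂[p, r], !₂[q, r], !₂[p, s], !₂[q, s]} : Set E)
    have hK : Convex ℝ K := convex_convexHull _ _
    obtain ⟨a, b, ha, hb, hab, e⟩ := (Convex.mem_Icc h1).1 hx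
    obtain ⟨c, d, hc, hd, hcd, e'⟩ := (Convex.mem_Icc h2).1 hx'
    have m1 : a • !₂[p, r] + b • !₂[q, r] ∈ K :=
      hK (subset_convexHull _ _ (by simp)) (subset_convexHull _ _ (by simp)) ha hb hab
    have m2 : a • !₂[p, s] + b • !₂[q, s] ∈ K :=
      hK (subset_convexHull _ _ (by simp)) (subset_convexHull _ _ (by simp)) ha hb hab
    convert hK m1 m2 hc hd hcd using 1
    apply ext2
    · simp
      linear_combination -e - (a * p + b * q) * hcd
    · simp
      linear_combination -e' - (c * r + d * s) * hab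
  · apply convexHull_min _ (convex_box p q r s)
    rintro x (rfl | rfl | rfl | rfl) <;> simp [box, h1, h2]

lemma extreme_box {p q r s : ℝ} (h1 : p ≤ q) (h2 : r ≤ s) (x : E) :
    x ∈ extremePoints ℝ (box p q r s) ↔ (x 0 = p ∨ x 0 = q) ∧ (x 1 = r ∨ x 1 = s) := by
  rw [mem_extremePoints]
  constructor
  · rintro ⟨⟨hx, hx'⟩, h⟩
    constructor
    · by_contra hc
      push Not at hc
      obtain ⟨a, b, ha, hb, hab, e⟩ := (Convex.mem_Ioo (hx.1.trans_lt (lt_of_le_of_ne hx.2 hc.2))).1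
        (show x 0 ∈ Ioo p q from ⟨lt_of_le_of_ne hx.1 hc.1.symm, lt_of_le_of_ne hx.2 hc.2⟩)
      have := (h !₂[p, x 1] (by simp [box, h1, hx']) !₂[q, x 1] (by simp [box, h1, hx'])
        ⟨a, b, ha, hb, hab, ext2 (by simpa using e) (by simp; linear_combination x 1 * hab)⟩).1
      exact hc.1 (by rw [← this]; simp)
    · by_contra hc
      push Not at hc
      obtain ⟨a, b, ha, hb, hab, e⟩ := (Convex.mem_Ioo (hx'.1.trans_lt
        (lt_of_le_of_ne hx'.2 hc.2))).1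
        (show x 1 ∈ Ioo r s from ⟨lt_of_le_of_ne hx'.1 hc.1.symm, lt_of_le_of_ne hx'.2 hc.2⟩)
      have := (h !₂[x 0, r] (by simp [box, h2, hx]) !₂[x 0, s] (by simp [box, h2, hx])
        ⟨a, b, ha, hb, hab, ext2 (by simp; linear_combination x 0 * hab) (by simpa using e)⟩).1
      exact hc.1 (by rw [← this]; simp)
  · rintro ⟨hx, hx'⟩
    refine ⟨⟨by rcases hx with h | h <;> simp [h, h1], by rcases hx' with h | h <;> simp [h, h2]⟩, ?_⟩
    rintro y ⟨hy, hy'⟩ z ⟨hz, hz'⟩ ⟨a, b, ha, hb, hab, e⟩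
    have e0 : a * y 0 + b * z 0 = x 0 := by simpa using congrArg (fun w : E => w 0) e
    have e1 : a * y 1 + b * z 1 = x 1 := by simpa using congrArg (fun w : E => w 1) e
    have key : ∀ u v w l h : ℝ, a * u + b * v = w → l ≤ u ∧ u ≤ h → l ≤ v ∧ v ≤ h →
        (w = l ∨ w = h) → u = w ∧ v = w := by
      rintro u v w l h e ⟨u1, u2⟩ ⟨v1, v2⟩ hw
      have hb' : b = 1 - a := by linarith
      subst hb'
      rcases hw with rfl | rfl <;> constructor <;> nlinarith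
    obtain ⟨k1, k2⟩ := key _ _ _ _ _ e0 hy hz hx
    obtain ⟨k3, k4⟩ := key _ _ _ _ _ e1 hy' hz' hx'
    exact ⟨ext2 k1 k3, ext2 k2 k4⟩

lemma exposed_box {p q r s p' q' r' s' α β : ℝ}
    (h1 : ∀ x, p ≤ x ∧ x ≤ q → ((p' ≤ x ∧ x ≤ q') ↔ ∀ y, p ≤ y ∧ y ≤ q → α * y ≤ α * x))
    (h2 : ∀ x, r ≤ x ∧ x ≤ s → ((r' ≤ x ∧ x ≤ s') ↔ ∀ y, r ≤ y ∧ y ≤ s → β * y ≤ β * x)) :
    IsExposed ℝ (box p q r s) (box p q r s ∩ box p' q' r' s') := by
  intro _
  refine ⟨α • EuclideanSpace.proj (𝕜 := ℝ) 0 + β • EuclideanSpace.proj (𝕜 := ℝ) 1, ?_⟩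
  ext x
  simp only [mem_inter_iff, mem_ofPred_eq, add_apply,
    smul_apply, PiLp.proj_apply, smul_eq_mul]
  refine and_congr_right (fun hx => ⟨fun h y hy => ?_, fun h => ⟨?_, ?_⟩⟩)
  · exact add_le_add ((h1 _ hx.1).1 h.1 _ hy.1) ((h2 _ hx.2).1 h.2 _ hy.2)
  · refine (h1 _ hx.1).2 (fun y hy => ?_)
    simpa using h !₂[y, x 1] ⟨by simpa using hy, by simpa using hx.2⟩
  · refine (h2 _ hx.2).2 (fun y hy => ?_)
    simpa using h !₂[x 0, y] ⟨by simpa using hx.1, by simpa using hy⟩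

lemma volume_box (L : ℝ) (hL : 0 ≤ L) : (volume (box 0 L 0 L)).toReal = L ^ 2 := by
  have e : box 0 L 0 L = (WithLp.ofLp : E → (Fin 2 → ℝ)) ⁻¹' Icc (fun _ => 0) (fun _ => L) := by
    ext x
    simp only [box, mem_ofPred_eq, mem_preimage, mem_Icc, Pi.le_def, Fin.forall_fin_two]
    tauto
  rw [e, (PiLp.volume_preserving_ofLp (Fin 2)).measure_preimage
    measurableSet_Icc.nullMeasurableSet, Real.volume_Icc_pi]
  simp [hL, sq]

lemma length_box (L : ℝ) (hL : 0 ≤ L) : (μH[1] (frontier (box 0 L 0 L))).toReal ≤ 4 * L := by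
  have hs : frontier (box 0 L 0 L) ⊆ (segment ℝ !₂[0, 0] !₂[L, 0] ∪ segment ℝ !₂[0, L] !₂[L, L]) ∪
      (segment ℝ !₂[0, 0] !₂[0, L] ∪ segment ℝ !₂[L, 0] !₂[L, L]) := by
    rw [(closed_box _ _ _ _).frontier_eq, interior_box]
    rintro x ⟨⟨hx, hx'⟩, hn⟩
    obtain ⟨a, b, ha, hb, hab, e⟩ := (Convex.mem_Icc hL).1 hx
    obtain ⟨c, d, hc, hd, hcd, e'⟩ := (Convex.mem_Icc hL).1 hx'
    have : x 1 = 0 ∨ x 1 = L ∨ x 0 = 0 ∨ x 0 = L := by
      by_contra h
      push Not at h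
      exact hn ⟨⟨lt_of_le_of_ne hx.1 h.2.2.1.symm, lt_of_le_of_ne hx.2 h.2.2.2⟩,
        lt_of_le_of_ne hx'.1 h.1.symm, lt_of_le_of_ne hx'.2 h.2.1⟩
    rcases this with h | h | h | h
    · exact Or.inl (Or.inl ⟨a, b, ha, hb, hab, ext2 (by simpa using e) (by simp [h])⟩)
    · exact Or.inl (Or.inr ⟨a, b, ha, hb, hab, ext2 (by simpa using e)
        (by simp [h]; linear_combination L * hab)⟩)
    · exact Or.inr (Or.inl ⟨c, d, hc, hd, hcd, ext2 (by simp [h]) (by simpa using e')⟩)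
    · exact Or.inr (Or.inr ⟨c, d, hc, hd, hcd, ext2 (by simp [h]; linear_combination L * hcd)
        (by simpa using e')⟩)
  have hd : ∀ x y : E, dist x y = L → μH[1] (segment ℝ x y) = ENNReal.ofReal L := by
    intro x y h
    rw [hausdorffMeasure_segment, edist_dist, h]
  have h4 : μH[1] (frontier (box 0 L 0 L)) ≤ ENNReal.ofReal (4 * L) := by
    refine (measure_mono hs).trans ((measure_union_le _ _).trans
      ((add_le_add (measure_union_le _ _) (measure_union_le _ _)).trans (le_of_eq ?_)))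
    rw [hd, hd, hd, hd, ← ENNReal.ofReal_add hL hL, ← ENNReal.ofReal_add (by linarith) (by linarith)]
    · congr 1
      ring
    all_goals simp [EuclideanSpace.dist_eq, Fin.sum_univ_two, Real.sqrt_sq hL]
  exact ENNReal.toReal_le_of_le_ofReal (by linarith) h4

/-- Integers of even dyadic valuation (with `0`). -/
def G (n : ℤ) : Prop := Even (padicValInt 2 n)

lemma G_odd (m : ℤ) : G (2 * m + 1) := by
  rw [G, padicValInt.eq_zero_of_not_dvd (by push_cast; omega)]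
  exact Even.zero

lemma G_two (m : ℤ) (hm : m ≠ 0) : G (2 * m) ↔ ¬ G m := by
  have : padicValInt 2 2 = 1 := by exact_mod_cast padicValInt.self (p := 2) (by norm_num)
  rw [G, G, padicValInt.mul (by norm_num) hm, this, add_comm, Nat.even_add_one]

lemma G_zero : G 0 := by simp [G]

lemma G_four (m : ℤ) : G (4 * m) ↔ G m := by
  by_cases hm : m = 0
  · simp [hm]
  · rw [show 4 * m = 2 * (2 * m) by ring, G_two _ (by omega), G_two _ hm, not_not]

lemma G_of_odd {n : ℤ} (h : n % 2 = 1) : G n := by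
  rw [show n = 2 * (n / 2) + 1 by omega]
  exact G_odd _

lemma G_mod {n : ℤ} (h : n % 4 = 2) : ¬ G n := by
  rw [show n = 2 * (2 * (n / 4) + 1) by omega, G_two _ (by omega), not_not]
  exact G_odd _

lemma G_shift {n u : ℤ} (h : n % 4 = 0 → (G (n / 4 + u) ↔ G (n / 4))) : G (n + 4 * u) ↔ G n := by
  by_cases h1 : n % 2 = 1
  · exact iff_of_true (G_of_odd (by omega)) (G_of_odd h1)
  by_cases h2 : n % 4 = 2
  · exact iff_of_false (G_mod (by omega)) (G_mod h2)
  have h0 : n % 4 = 0 := by omega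
  rw [show n + 4 * u = 4 * (n / 4 + u) by omega, G_four, h h0]
  conv_rhs => rw [show n = 4 * (n / 4) by omega, G_four]

lemma G_rep (K : ℕ) (j : ℤ) : ∀ n : ℤ, -4 ^ K < n → n < 4 ^ K →
    (G (n + 4 ^ K * (2 * j + 1)) ↔ G n) := by
  induction K with
  | zero =>
    intro n h1 h2
    have : n = 0 := by omega
    subst this
    simpa using iff_of_true (G_odd j) G_zero
  | succ K ih =>
    intro n h1 h2
    rw [pow_succ] at h1 h2
    rw [pow_succ', mul_assoc]
    exact G_shift (fun h => ih _ (by omega) (by omega))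

open Classical in
noncomputable def nxt (a : ℤ) : ℤ := if G (a + 1) then a + 1 else a + 2

lemma G_nxt (a : ℤ) : G (nxt a) := by
  unfold nxt
  split_ifs with h
  · exact h
  · apply G_of_odd
    by_contra h2
    exact h (G_of_odd (by omega))

lemma nxt_cases (a : ℤ) : (G (a + 1) ∧ nxt a = a + 1) ∨ (¬ G (a + 1) ∧ nxt a = a + 2) := by
  unfold nxt
  split_ifs with h
  · exact Or.inl ⟨h, rfl⟩
  · exact Or.inr ⟨h, rfl⟩

lemma lt_nxt (a : ℤ) : a < nxt a := by rcases nxt_cases a with h | h <;> omega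

lemma nxt_le {a b : ℤ} (hb : G b) (h : a < b) : nxt a ≤ b := by
  rcases nxt_cases a with h1 | h1
  · omega
  · by_contra h2
    have : b = a + 1 := by omega
    exact h1.1 (this ▸ hb)

lemma nxt_shift {a u : ℤ} (h : G (a + 1 + u) ↔ G (a + 1)) : nxt (a + u) = nxt a + u := by
  have e : a + u + 1 = a + 1 + u := by ring
  rcases nxt_cases a with h1 | h1 <;> rcases nxt_cases (a + u) with h2 | h2 <;> rw [e] at h2 <;>
    first | omega | tauto

lemma cover1 {lo hi : ℤ} (hlo : G lo) (hhi : G hi) (h : lo < hi) (x : ℝ) (h1 : 2 * (lo : ℝ) ≤ x)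
    (h2 : x ≤ 2 * (hi : ℝ)) :
    ∃ a, G a ∧ lo ≤ a ∧ a < hi ∧ 2 * (a : ℝ) ≤ x ∧ x ≤ 2 * (nxt a : ℝ) := by
  obtain ⟨a, ⟨a1, a2, a3, a4⟩, hm⟩ := Int.exists_greatest_of_bdd
    (P := fun a => G a ∧ lo ≤ a ∧ a < hi ∧ 2 * (a : ℝ) ≤ x) ⟨hi, fun z hz => hz.2.2.1.le⟩
    ⟨lo, hlo, le_rfl, h, h1⟩
  refine ⟨a, a1, a2, a3, a4, ?_⟩
  rcases (nxt_le hhi a3).eq_or_lt with e | e
  · rw [e]
    exact h2
  · by_contra hc
    have := hm (nxt a) ⟨G_nxt a, a2.trans (lt_nxt a).le, e, (not_le.1 hc).le⟩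
    have := lt_nxt a
    omega

open Classical in
noncomputable def cnt (L : ℕ) : ℕ := ((Finset.range L).filter (fun a : ℕ => G a)).card

lemma cnt_succ (L : ℕ) : (G L ∧ cnt (L + 1) = cnt L + 1) ∨ (¬ G L ∧ cnt (L + 1) = cnt L) := by
  unfold cnt
  rw [Finset.range_add_one, Finset.filter_insert]
  split_ifs with h
  · exact Or.inl ⟨h, Finset.card_insert_of_notMem (by simp)⟩
  · exact Or.inr ⟨h, rfl⟩

lemma cnt_four (L : ℕ) : cnt (4 * L) = 2 * L + cnt L := by
  induction L with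
  | zero => simp
  | succ L ih =>
    have h0 := cnt_succ (4 * L)
    have h1 := cnt_succ (4 * L + 1)
    have h2 := cnt_succ (4 * L + 1 + 1)
    have h3 := cnt_succ (4 * L + 1 + 1 + 1)
    have h4 := cnt_succ L
    have g0 : G ((4 * L : ℕ) : ℤ) ↔ G L := by push_cast; exact G_four _
    have g1 : G ((4 * L + 1 : ℕ) : ℤ) := G_of_odd (by omega)
    have g2 : ¬ G ((4 * L + 1 + 1 : ℕ) : ℤ) := G_mod (by omega)
    have g3 : G ((4 * L + 1 + 1 + 1 : ℕ) : ℤ) := G_of_odd (by omega)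
    rw [show 4 * (L + 1) = 4 * L + 1 + 1 + 1 + 1 by ring]
    rw [g0] at h0
    simp only [g1, g2, g3, true_and, not_true, false_and, or_false, false_or, not_false_iff]
      at h1 h2 h3
    rcases h0 with h0 | h0 <;> rcases h4 with h4 | h4 <;> first | omega | tauto

lemma cnt_pow (k : ℕ) : 3 * cnt (4 ^ k) = 2 * 4 ^ k + 1 := by
  induction k with
  | zero =>
    have := cnt_succ 0
    have h0 : cnt 0 = 0 := by simp [cnt]
    simp only [Nat.cast_zero, G_zero, true_and, not_true, false_and, or_false] at this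
    show 3 * cnt (0 + 1) = 2 * 1 + 1
    rw [this, h0]
  | succ k ih =>
    rw [pow_succ', cnt_four]
    omega

lemma G_pow (k : ℕ) : G ((4 ^ k : ℕ) : ℤ) := by
  induction k with
  | zero => exact G_of_odd (by norm_num)
  | succ k ih =>
    rw [pow_succ']
    push_cast at ih ⊢
    exact (G_four _).2 ih

end Pool.Agent.H28Pick
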