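import Mathlib

namespace Pool.Agent.H28Poisson

open MeasureTheory Set Real Filter Topology
open scoped RealInnerProductSpace ENNReal

lemma schlo {z ρ : ℝ} (hz : 0 < z) (hρ : 0 < ρ) :
    ∫⁻ v in Ioi (0 : ℝ), ENNReal.ofReal (z * exp (-(z * v - ρ / (2 * v)) ^ 2)) =
      ENNReal.ofReal (√π / 2) := by
  have h1 := lintegral_image_eq_lintegral_abs_deriv_mul (s := Ioi (0 : ℝ))
    (f := fun v => z * v - ρ / (2 * v)) (f' := fun v => z + ρ / (2 * v ^ 2)) measurableSet_Ioi
    (fun v hv => by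
      have hv : v ≠ 0 := ne_of_gt hv
      have := ((hasDerivAt_id v).const_mul z).sub
        ((hasDerivAt_const v ρ).div ((hasDerivAt_id v).const_mul 2) (by simpa using hv))
      refine (this.congr_deriv ?_).hasDerivWithinAt
      simp only [id]
      field_simp
      ring)
    (StrictMonoOn.injOn fun a ha b hb hab => by
      have ha : 0 < a := ha
      have := div_lt_div_of_pos_left hρ (by positivity : 0 < 2 * a) (by linarith : 2 * a < 2 * b)
      have := mul_lt_mul_of_pos_left hab hz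
      linarith)
    (fun s => ENNReal.ofReal (exp (-s ^ 2)))
  have himg : (fun v => z * v - ρ / (2 * v)) '' Ioi 0 = univ := by
    rw [eq_univ_iff_forall]
    intro s
    have hs : 0 < s ^ 2 + 2 * z * ρ := by positivity
    have e := sq_sqrt hs.le
    have hp : 0 < s + √(s ^ 2 + 2 * z * ρ) := by
      have : |s| < √(s ^ 2 + 2 * z * ρ) := by
        apply lt_sqrt_of_sq_lt
        rw [sq_abs]
        nlinarith [mul_pos hz hρ]
      linarith [neg_abs_le s]
    refine ⟨(s + √(s ^ 2 + 2 * z * ρ)) / (2 * z), by simp only [mem_Ioi]; positivity, ?_⟩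
    simp only
    generalize √(s ^ 2 + 2 * z * ρ) = u at e hp ⊢
    field_simp
    nlinarith
  have h2 : ∫⁻ s : ℝ, ENNReal.ofReal (exp (-s ^ 2)) = ENNReal.ofReal √π := by
    have i1 := integrable_exp_neg_mul_sq (b := 1) one_pos
    have i2 := integral_gaussian 1
    simp only [neg_mul, one_mul, div_one] at i1 i2
    rw [← ofReal_integral_eq_lintegral_ofReal i1 (ae_of_all _ fun s => (exp_pos _).le), i2]
  have h3 := lintegral_image_eq_lintegral_abs_deriv_mul (s := Ioi (0 : ℝ))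
    (f := fun v => ρ / (2 * z * v)) (f' := fun v => -(ρ / (2 * z * v ^ 2))) measurableSet_Ioi
    (fun v hv => by
      have hv : v ≠ 0 := ne_of_gt hv
      have := (hasDerivAt_const v ρ).div ((hasDerivAt_id v).const_mul (2 * z))
        (by simp [hv, hz.ne'])
      refine (this.congr_deriv ?_).hasDerivWithinAt
      simp only [id]
      field_simp
      ring)
    (StrictAntiOn.injOn fun a ha b hb hab => by
      have ha : 0 < a := ha
      exact div_lt_div_of_pos_left hρ (by positivity) (by nlinarith))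
    (fun v => ENNReal.ofReal (z * exp (-(z * v - ρ / (2 * v)) ^ 2)))
  have himg' : (fun v => ρ / (2 * z * v)) '' Ioi 0 = Ioi 0 := by
    ext s
    constructor
    · rintro ⟨v, hv, rfl⟩
      have hv : 0 < v := hv
      simp only [mem_Ioi]
      positivity
    · intro hs
      have hs : 0 < s := hs
      refine ⟨ρ / (2 * z * s), by simp only [mem_Ioi]; positivity, ?_⟩
      simp only
      field_simp
  rw [himg, Measure.restrict_univ, h2] at h1
  rw [himg'] at h3
  set I := ∫⁻ v in Ioi (0 : ℝ), ENNReal.ofReal (z * exp (-(z * v - ρ / (2 * v)) ^ 2)) with hI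
  have h4 : ENNReal.ofReal √π = I + I := by
    rw [h1]
    conv_rhs => rw [hI]; congr; rfl; rw [← hI, h3]
    rw [← lintegral_add_left (by fun_prop)]
    refine setLIntegral_congr_fun measurableSet_Ioi fun v hv => ?_
    have hv : 0 < v := hv
    have e : z * (ρ / (2 * z * v)) - ρ / (2 * (ρ / (2 * z * v))) = -(z * v - ρ / (2 * v)) := by
      field_simp
      ring
    rw [e, neg_sq, abs_neg, abs_of_pos (by positivity), abs_of_pos (by positivity),
      ← ENNReal.ofReal_mul (by positivity), ← ENNReal.ofReal_mul (by positivity),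
      ← ENNReal.ofReal_add (by positivity) (by positivity)]
    congr 1
    field_simp
  rw [ENNReal.ofReal_div_of_pos two_pos, h4, ← two_mul, ENNReal.ofReal_ofNat,
    mul_comm, ENNReal.mul_div_cancel_right (by norm_num) (by norm_num)]

lemma subord {z ρ : ℝ} (hz : 0 < z) (hρ : 0 < ρ) : ENNReal.ofReal (exp (-(z * ρ))) =
    ∫⁻ v in Ioi (0 : ℝ), ENNReal.ofReal
      (2 / √π * z * exp (-z ^ 2 * v ^ 2) * exp (-(1 / (4 * v ^ 2)) * ρ ^ 2)) := by
  have hπ : 0 < √π := sqrt_pos.2 pi_pos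
  have : ENNReal.ofReal (exp (-(z * ρ))) =
      ENNReal.ofReal (2 / √π * exp (-(z * ρ))) * ENNReal.ofReal (√π / 2) := by
    rw [← ENNReal.ofReal_mul (by positivity)]
    congr 1
    field_simp
  rw [this, ← schlo hz hρ, ← lintegral_const_mul' _ _ ENNReal.ofReal_ne_top]
  refine setLIntegral_congr_fun measurableSet_Ioi fun v hv => ?_
  have hv : 0 < v := hv
  rw [← ENNReal.ofReal_mul (by positivity)]
  congr 1
  have : exp (-(z * ρ)) * exp (-(z * v - ρ / (2 * v)) ^ 2) =
      exp (-z ^ 2 * v ^ 2) * exp (-(1 / (4 * v ^ 2)) * ρ ^ 2) := by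
    rw [← exp_add, ← exp_add]
    congr 1
    field_simp
    ring
  linear_combination (2 / √π * z) * this

variable {V : Type} [NormedAddCommGroup V] [InnerProductSpace ℝ V] [FiniteDimensional ℝ V]
  [MeasurableSpace V] [BorelSpace V]

omit [FiniteDimensional ℝ V] [MeasurableSpace V] [BorelSpace V] in
lemma re_gauss (b : ℝ) (w ξ : V) :
    (Complex.exp (-(b : ℂ) * ‖ξ‖ ^ 2 + Complex.I * (⟪w, ξ⟫ : ℝ))).re =
      exp (-b * ‖ξ‖ ^ 2) * cos ⟪w, ξ⟫ := by
  rw [Complex.exp_re]
  simp [← Complex.ofReal_pow]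

lemma gauss_int {b : ℝ} (hb : 0 < b) (w : V) :
    Integrable (fun ξ : V => exp (-b * ‖ξ‖ ^ 2) * cos ⟪w, ξ⟫) := by
  have := (GaussianFourier.integrable_cexp_neg_mul_sq_norm_add (b := b) (by simpa using hb)
    Complex.I w).re
  simpa only [RCLike.re_to_complex, re_gauss] using this

lemma gauss {v : ℝ} (hv : 0 < v) (w : V) :
    ∫ ξ : V, exp (-(1 / (4 * v ^ 2)) * ‖ξ‖ ^ 2) * cos ⟪w, ξ⟫ =
      (2 * √π * v) ^ Module.finrank ℝ V * exp (-‖w‖ ^ 2 * v ^ 2) := by
  have hb : 0 < 1 / (4 * v ^ 2) := by positivity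
  have h1 := GaussianFourier.integral_cexp_neg_mul_sq_norm_add (b := (1 / (4 * v ^ 2) : ℝ))
    (by simpa only [Complex.ofReal_re] using hb) Complex.I w
  have h2 := integral_re (GaussianFourier.integrable_cexp_neg_mul_sq_norm_add
    (b := (1 / (4 * v ^ 2) : ℝ)) (by simpa only [Complex.ofReal_re] using hb) Complex.I w)
  simp only [RCLike.re_to_complex, re_gauss] at h2
  rw [h2, h1]
  have e1 : ((π : ℂ) / ((1 / (4 * v ^ 2) : ℝ) : ℂ)) ^ ((Module.finrank ℝ V : ℂ) / 2) =
      (((2 * √π * v) ^ Module.finrank ℝ V : ℝ) : ℂ) := by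
    rw [← Complex.ofReal_div, show ((Module.finrank ℝ V : ℂ) / 2) =
      ((Module.finrank ℝ V / 2 : ℝ) : ℂ) by push_cast; rfl,
      ← Complex.ofReal_cpow (by positivity)]
    congr 1
    rw [show π / (1 / (4 * v ^ 2)) = (2 * √π * v) ^ (2 : ℝ) by
      rw [rpow_two, mul_pow, mul_pow, sq_sqrt pi_pos.le]; field_simp; ring,
      ← rpow_mul (by positivity), ← rpow_natCast]
    congr 1
    ring
  have e2 : Complex.I ^ 2 * (‖w‖ : ℂ) ^ 2 / (4 * ((1 / (4 * v ^ 2) : ℝ) : ℂ)) =
      ((-‖w‖ ^ 2 * v ^ 2 : ℝ) : ℂ) := by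
    have : (v : ℂ) ≠ 0 := by exact_mod_cast hv.ne'
    rw [Complex.I_sq]
    push_cast
    field_simp
  rw [e1, e2, ← Complex.ofReal_exp, ← Complex.ofReal_mul, Complex.ofReal_re]

/-- The squared modulus of the exponential sum. -/
noncomputable def q (X : Finset V) (ξ : V) : ℝ := ∑ x ∈ X, ∑ y ∈ X, cos ⟪x - y, ξ⟫

omit [FiniteDimensional ℝ V] [MeasurableSpace V] [BorelSpace V] in
lemma q_nonneg (X : Finset V) (ξ : V) : 0 ≤ q X ξ := by
  have : q X ξ = (∑ x ∈ X, cos ⟪x, ξ⟫) ^ 2 + (∑ x ∈ X, sin ⟪x, ξ⟫) ^ 2 := by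
    simp only [q, inner_sub_left, cos_sub, sq, Finset.sum_mul_sum, Finset.sum_add_distrib]
  rw [this]
  positivity

/-- The normalising constant. -/
noncomputable def cst (d : ℕ) : ℝ := 2 / √π * (2 * √π) ^ d * (1 / 2 * Gamma (((d : ℝ) + 1) / 2))

lemma cst_pos (d : ℕ) : 0 < cst d := by
  have hπ : 0 < √π := sqrt_pos.2 pi_pos
  have := Gamma_pos_of_pos (s := ((d : ℝ) + 1) / 2) (by positivity)
  unfold cst
  positivity

lemma radial (d : ℕ) {t : ℝ} (ht : 0 < t) (r : ℝ) :
    IntegrableOn (fun v : ℝ => 2 / √π * t * exp (-t ^ 2 * v ^ 2) *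
      ((2 * √π * v) ^ d * exp (-r ^ 2 * v ^ 2))) (Ioi 0) ∧
    ∫ v in Ioi (0 : ℝ), 2 / √π * t * exp (-t ^ 2 * v ^ 2) *
      ((2 * √π * v) ^ d * exp (-r ^ 2 * v ^ 2)) =
      cst d * (t * (t ^ 2 + r ^ 2) ^ (-(((d : ℝ) + 1) / 2))) := by
  have e : ∀ v : ℝ, 2 / √π * t * exp (-t ^ 2 * v ^ 2) * ((2 * √π * v) ^ d * exp (-r ^ 2 * v ^ 2)) =
      2 / √π * t * (2 * √π) ^ d * (v ^ (d : ℝ) * exp (-(t ^ 2 + r ^ 2) * v ^ (2 : ℝ))) := by
    intro v
    rw [rpow_natCast, rpow_two, neg_add, add_mul, exp_add, mul_pow]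
    ring
  have hb : 0 < t ^ 2 + r ^ 2 := by positivity
  have hd : (-1 : ℝ) < d := by linarith [(Nat.cast_nonneg d : (0 : ℝ) ≤ d)]
  simp only [e]
  refine ⟨(integrableOn_rpow_mul_exp_neg_mul_rpow hd two_pos hb).const_mul _, ?_⟩
  rw [integral_const_mul, integral_rpow_mul_exp_neg_mul_rpow two_pos hd hb, cst, neg_div]
  ring

lemma laplace [Nontrivial V] (X : Finset V) {t : ℝ} (ht : 0 < t) :
    ∫⁻ ξ : V, ENNReal.ofReal (q X ξ) * ENNReal.ofReal (exp (-(t * ‖ξ‖))) =
      ENNReal.ofReal (cst (Module.finrank ℝ V) * ∑ x ∈ X, ∑ y ∈ X,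
        t * (t ^ 2 + ‖x - y‖ ^ 2) ^ (-(((Module.finrank ℝ V : ℝ) + 1) / 2))) := by
  have hq : Measurable (q X) := by
    unfold q
    fun_prop
  have hπ : 0 < √π := sqrt_pos.2 pi_pos
  calc _ = ∫⁻ ξ : V, ∫⁻ v in Ioi (0 : ℝ), ENNReal.ofReal (q X ξ) * ENNReal.ofReal
        (2 / √π * t * exp (-t ^ 2 * v ^ 2) * exp (-(1 / (4 * v ^ 2)) * ‖ξ‖ ^ 2)) := by
        refine lintegral_congr_ae ?_
        filter_upwards [compl_mem_ae_iff.2 (measure_singleton (0 : V))] with ξ hξ
        rw [subord ht (norm_pos_iff.2 hξ), lintegral_const_mul' _ _ ENNReal.ofReal_ne_top]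
    _ = ∫⁻ v in Ioi (0 : ℝ), ∫⁻ ξ : V, ENNReal.ofReal (q X ξ) * ENNReal.ofReal
        (2 / √π * t * exp (-t ^ 2 * v ^ 2) * exp (-(1 / (4 * v ^ 2)) * ‖ξ‖ ^ 2)) := by
        apply lintegral_lintegral_swap
        apply Measurable.aemeasurable
        unfold Function.uncurry
        fun_prop
    _ = ∫⁻ v in Ioi (0 : ℝ), ENNReal.ofReal (∑ x ∈ X, ∑ y ∈ X, 2 / √π * t * exp (-t ^ 2 * v ^ 2) *
        ((2 * √π * v) ^ Module.finrank ℝ V * exp (-‖x - y‖ ^ 2 * v ^ 2))) := by
        refine setLIntegral_congr_fun measurableSet_Ioi fun v hv => ?_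
        have hv : 0 < v := hv
        have hb : 0 < 1 / (4 * v ^ 2) := by positivity
        have e : ∀ ξ : V, ENNReal.ofReal (q X ξ) * ENNReal.ofReal
            (2 / √π * t * exp (-t ^ 2 * v ^ 2) * exp (-(1 / (4 * v ^ 2)) * ‖ξ‖ ^ 2)) =
            ENNReal.ofReal (∑ x ∈ X, ∑ y ∈ X, 2 / √π * t * exp (-t ^ 2 * v ^ 2) *
              (exp (-(1 / (4 * v ^ 2)) * ‖ξ‖ ^ 2) * cos ⟪x - y, ξ⟫)) := by
          intro ξ
          rw [← ENNReal.ofReal_mul (q_nonneg X ξ), q]
          congr 1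
          simp only [Finset.sum_mul]
          refine Finset.sum_congr rfl fun x _ => Finset.sum_congr rfl fun y _ => by ring
        have i1 : ∀ x : V, Integrable fun ξ : V => ∑ y ∈ X, 2 / √π * t * exp (-t ^ 2 * v ^ 2) *
              (exp (-(1 / (4 * v ^ 2)) * ‖ξ‖ ^ 2) * cos ⟪x - y, ξ⟫) := fun x =>
          integrable_finsetSum _ fun y _ => (gauss_int hb _).const_mul _
        simp only [e]
        rw [← ofReal_integral_eq_lintegral_ofReal (integrable_finsetSum _ fun x _ => i1 x),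
          integral_finsetSum _ fun x _ => i1 x]
        · congr 1
          refine Finset.sum_congr rfl fun x _ => ?_
          rw [integral_finsetSum _ fun y _ => (gauss_int hb _).const_mul _]
          refine Finset.sum_congr rfl fun y _ => ?_
          rw [integral_const_mul, gauss hv]
        · refine ae_of_all _ fun ξ => ?_
          have := mul_nonneg (q_nonneg X ξ) (by positivity :
            0 ≤ 2 / √π * t * exp (-t ^ 2 * v ^ 2) * exp (-(1 / (4 * v ^ 2)) * ‖ξ‖ ^ 2))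
          refine this.trans (le_of_eq ?_)
          simp only [q, Finset.sum_mul]
          refine Finset.sum_congr rfl fun x _ => Finset.sum_congr rfl fun y _ => by ring
    _ = _ := by
        have i1 : ∀ x : V, IntegrableOn (fun v : ℝ => ∑ y ∈ X, 2 / √π * t * exp (-t ^ 2 * v ^ 2) *
            ((2 * √π * v) ^ Module.finrank ℝ V * exp (-‖x - y‖ ^ 2 * v ^ 2))) (Ioi 0) := fun x =>
          integrable_finsetSum _ fun y _ => (radial _ ht _).1
        rw [← ofReal_integral_eq_lintegral_ofReal (integrable_finsetSum _ fun x _ => i1 x),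
          integral_finsetSum _ fun x _ => i1 x, Finset.mul_sum]
        · congr 1
          refine Finset.sum_congr rfl fun x _ => ?_
          rw [integral_finsetSum _ fun y _ => (radial _ ht _).1, Finset.mul_sum]
          exact Finset.sum_congr rfl fun y _ => (radial _ ht _).2
        · filter_upwards [ae_restrict_mem measurableSet_Ioi] with v hv
          have hv : 0 < v := hv
          positivity

open ProbabilityTheory in
/-- The complex Poisson kernel is dominated by the real one, as quadratic forms. -/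
lemma key [Nontrivial V] (X : Finset V) {z : ℂ} (hz : 0 < z.re) :
    ‖∑ x ∈ X, ∑ y ∈ X, z * (z ^ 2 + (‖x - y‖ : ℂ) ^ 2) ^
        (((-(((Module.finrank ℝ V : ℝ) + 1) / 2) : ℝ)) : ℂ)‖ ≤
      ∑ x ∈ X, ∑ y ∈ X,
        z.re * (z.re ^ 2 + ‖x - y‖ ^ 2) ^ (-(((Module.finrank ℝ V : ℝ) + 1) / 2)) := by
  have hq : Measurable (q X) := by
    unfold q
    fun_prop
  set μ : Measure V := volume.withDensity fun ξ => ENNReal.ofReal (q X ξ) with hμ
  set β : ℝ := -(((Module.finrank ℝ V : ℝ) + 1) / 2) with hβ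
  have l1 : ∀ t : ℝ, 0 < t → ∫⁻ ξ, ENNReal.ofReal (exp (t * -‖ξ‖)) ∂μ =
      ENNReal.ofReal (cst (Module.finrank ℝ V) * ∑ x ∈ X, ∑ y ∈ X,
        t * (t ^ 2 + ‖x - y‖ ^ 2) ^ β) := by
    intro t ht
    rw [hμ, lintegral_withDensity_eq_lintegral_mul _ (by fun_prop) (by fun_prop), ← laplace X ht]
    simp
  have l2 : ∀ t : ℝ, 0 < t → t ∈ integrableExpSet (fun ξ : V => -‖ξ‖) μ := by
    intro t ht
    refine ⟨by fun_prop, ?_⟩
    rw [hasFiniteIntegral_iff_ofReal (ae_of_all _ fun ξ => (exp_pos _).le), l1 t ht]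
    exact ENNReal.ofReal_lt_top
  have l3 : ∀ t : ℝ, 0 < t → mgf (fun ξ : V => -‖ξ‖) μ t =
      cst (Module.finrank ℝ V) * ∑ x ∈ X, ∑ y ∈ X, t * (t ^ 2 + ‖x - y‖ ^ 2) ^ β := by
    intro t ht
    have := cst_pos (Module.finrank ℝ V)
    rw [mgf, integral_eq_lintegral_of_nonneg_ae (ae_of_all _ fun ξ => (exp_pos _).le)
      (by fun_prop), l1 t ht, ENNReal.toReal_ofReal (by positivity)]
  have a1 : AnalyticOnNhd ℂ (complexMGF (fun ξ : V => -‖ξ‖) μ) {w | 0 < w.re} :=
    analyticOnNhd_complexMGF.mono fun w hw =>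
      interior_maximal (s := integrableExpSet _ μ) (t := Ioi 0) l2 isOpen_Ioi hw
  have a2 : AnalyticOnNhd ℂ (fun w : ℂ => (cst (Module.finrank ℝ V) : ℂ) * ∑ x ∈ X, ∑ y ∈ X,
      w * (w ^ 2 + (‖x - y‖ : ℂ) ^ 2) ^ (β : ℂ)) {w | 0 < w.re} := by
    intro w hw
    have hw : 0 < w.re := hw
    refine analyticAt_const.mul (Finset.analyticAt_fun_sum _ fun x _ =>
      Finset.analyticAt_fun_sum _ fun y _ => analyticAt_id.mul (AnalyticAt.cpow (by fun_prop)
        analyticAt_const ?_))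
    rw [Complex.mem_slitPlane_iff]
    by_cases h : w.im = 0
    · left
      simp [sq, h]
      positivity
    · right
      simp [sq, h, hw.ne', ← two_mul, mul_comm w.im]
  have a3 := a1.eqOn_of_preconnected_of_frequently_eq a2
    ((convex_Ioi (0 : ℝ)).linear_preimage Complex.reLm).isPreconnected (z₀ := 1) (by simp) (by
      rw [frequently_iff_seq_forall]
      refine ⟨fun n => ((1 + 1 / ((n : ℝ) + 1) : ℝ) : ℂ), ?_, fun n => ?_⟩
      · rw [tendsto_nhdsWithin_iff]
        constructor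
        · have := (tendsto_one_div_add_atTop_nhds_zero_nat (𝕜 := ℝ)).const_add 1
          rw [add_zero] at this
          exact (Complex.continuous_ofReal.tendsto 1).comp this
        · refine Eventually.of_forall fun n h => ?_
          have h : (1 + 1 / ((n : ℝ) + 1) : ℝ) = 1 := Complex.ofReal_eq_one.1 h
          have : (0 : ℝ) < 1 / ((n : ℝ) + 1) := by positivity
          linarith
      · rw [complexMGF_ofReal, l3 _ (by positivity), Complex.ofReal_mul, Complex.ofReal_sum]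
        congr 1
        refine Finset.sum_congr rfl fun x _ => ?_
        rw [Complex.ofReal_sum]
        refine Finset.sum_congr rfl fun y _ => ?_
        rw [Complex.ofReal_mul, Complex.ofReal_cpow (by positivity), Complex.ofReal_add (_ ^ 2),
          Complex.ofReal_pow, Complex.ofReal_pow])
  have h := norm_complexMGF_le_mgf (X := fun ξ : V => -‖ξ‖) (μ := μ) (z := z)
  rw [a3 hz, l3 _ hz, norm_mul, Complex.norm_real, norm_of_nonneg (cst_pos _).le] at h
  exact le_of_mul_le_mul_left h (cst_pos _)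

end Pool.Agent.H28Poisson
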