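import Pool.Agent.Lib.helper28.PropTDef

set_option autoImplicit false

namespace Pool.Agent.H28PropT

open MeasureTheory Filter Topology Set
open scoped ENNReal

instance coinProb : IsProbabilityMeasure coin := ⟨by
  simp only [coin, Measure.smul_apply, Measure.add_apply, measure_univ, smul_eq_mul]
  rw [one_add_one_eq_two]
  exact ENNReal.inv_mul_cancel (by norm_num) (by norm_num)⟩

instance lamProb : IsProbabilityMeasure lam := by
  unfold lam; infer_instance

lemma coin_single (b : Bool) : coin {b} = 2⁻¹ := by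
  cases b <;> simp [coin]

lemma coin_not : coin.map (fun b => !b) = coin := by
  have hm : Measurable (fun b : Bool => !b) := measurable_of_finite _
  simp only [coin]
  rw [Measure.map_smul, Measure.map_add _ _ hm, Measure.map_dirac' hm, Measure.map_dirac' hm,
    add_comm]
  rfl

lemma borel_iff (A : Set Cantor) : @MeasurableSet Cantor (borel Cantor) A ↔ MeasurableSet A := by
  rw [← BorelSpace.measurable_eq (α := Cantor)]

/-- signed version of `phi` -/
noncomputable def psi (m : ℕ) (A : Set Cantor) : ℝ :=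
  lam.real (A ∩ V m false) - lam.real (A ∩ V m true)

lemma phi_eq (m : ℕ) (A : Set Cantor) : phi m A = |psi m A| := rfl

/-- membership depends only on the coordinates up to `n` -/
def Det (n : ℕ) (E : Set Cantor) : Prop :=
  ∀ x y : Cantor, (∀ i ≤ n, x i = y i) → x ∈ E → y ∈ E

lemma atom_open (n : ℕ) (s : Cantor) : IsOpen (atom n s) := by
  have : atom n s = Set.pi (Finset.range (n+1) : Set ℕ) (fun i => {s i}) := by
    ext x; simp [atom]
  rw [this]
  exact isOpen_set_pi (Finset.finite_toSet _) (fun _ _ => isOpen_discrete _)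

lemma self_mem_atom (n : ℕ) (s : Cantor) : s ∈ atom n s := fun _ _ => rfl

lemma Det.isOpen {n : ℕ} {E : Set Cantor} (h : Det n E) : IsOpen E := by
  rw [isOpen_iff_forall_mem_open]
  intro x hx
  exact ⟨atom n x, fun y hy => h x y (fun i hi => (hy i hi).symm) hx, atom_open n x,
    self_mem_atom n x⟩

lemma Det.compl {n : ℕ} {E : Set Cantor} (h : Det n E) : Det n Eᶜ :=
  fun x y hxy hx hy => hx (h y x (fun i hi => (hxy i hi).symm) hy)

lemma Det.inter {n : ℕ} {E F : Set Cantor} (h : Det n E) (h' : Det n F) : Det n (E ∩ F) :=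
  fun x y hxy hx => ⟨h x y hxy hx.1, h' x y hxy hx.2⟩

lemma Det.mono {n k : ℕ} {E : Set Cantor} (h : Det n E) (hk : n ≤ k) : Det k E :=
  fun x y hxy hx => h x y (fun i hi => hxy i (hi.trans hk)) hx

lemma Det.isClopen {n : ℕ} {E : Set Cantor} (h : Det n E) : IsClopen E :=
  ⟨⟨h.compl.isOpen⟩, h.isOpen⟩

lemma Det.meas {n : ℕ} {E : Set Cantor} (h : Det n E) : MeasurableSet E := h.isOpen.measurableSet

lemma det_atom (n : ℕ) (s : Cantor) : Det n (atom n s) :=
  fun _ _ hxy hx i hi => (hxy i hi).symm.trans (hx i hi)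

lemma det_V (m : ℕ) (b : Bool) : Det m (V m b) :=
  fun _ _ hxy hx => (hxy m le_rfl).symm.trans hx

lemma meas_atom (n : ℕ) (s : Cantor) : MeasurableSet (atom n s) := (det_atom n s).meas

lemma meas_V (m : ℕ) (b : Bool) : MeasurableSet (V m b) := (det_V m b).meas

lemma lam_atom (n : ℕ) (s : Cantor) : lam.real (atom n s) = 1 / 2 ^ (n + 1) := by
  have : atom n s = Set.pi (Finset.range (n+1) : Set ℕ) (fun i => {s i}) := by
    ext x; simp [atom]
  rw [this, measureReal_def, lam, Measure.infinitePi_pi _ (fun _ _ => MeasurableSet.singleton _)]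
  simp [coin_single]

lemma exists_det {E : Set Cantor} (h : IsClopen E) : ∃ n, Det n E := by
  have key : ∀ F : Set Cantor, IsClopen F → ∀ x ∈ F, ∃ n, atom n x ⊆ F := by
    intro F hF x hx
    obtain ⟨I, u, hu, hsub⟩ := isOpen_pi_iff.mp hF.isOpen x hx
    refine ⟨I.sup id, fun y hy => hsub fun i hi => ?_⟩
    rw [hy i (Finset.le_sup (f := id) hi)]
    exact (hu i hi).2
  have : ∀ x : Cantor, ∃ n, atom n x ⊆ E ∨ atom n x ⊆ Eᶜ := by
    intro x
    by_cases hx : x ∈ E
    · obtain ⟨n, hn⟩ := key E h x hx; exact ⟨n, Or.inl hn⟩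
    · obtain ⟨n, hn⟩ := key Eᶜ h.compl x hx; exact ⟨n, Or.inr hn⟩
  choose n hn using this
  obtain ⟨t, ht⟩ := isCompact_univ.elim_finite_subcover (fun x => atom (n x) x)
    (fun x => atom_open _ _) (fun x _ => mem_iUnion.mpr ⟨x, self_mem_atom _ _⟩)
  refine ⟨t.sup n, fun x y hxy hx => ?_⟩
  obtain ⟨z, hz, hxz⟩ := mem_iUnion₂.mp (ht (mem_univ x))
  have hyz : y ∈ atom (n z) z := ((det_atom _ _).mono (Finset.le_sup hz)) x y hxy hxz
  rcases hn z with h1 | h1
  · exact h1 hyz
  · exact absurd hx (h1 hxz)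

/-- flipping the `m`-th coordinate -/
def flip (m : ℕ) (x : Cantor) : Cantor := fun i => (if i = m then (fun b => !b) else id) (x i)

lemma flip_pres (m : ℕ) : MeasurePreserving (flip m) lam lam := by
  have hf : ∀ i : ℕ, Measurable (if i = m then (fun b : Bool => !b) else id) :=
    fun i => measurable_of_finite _
  refine ⟨measurable_pi_lambda _ fun i => (hf i).comp (measurable_pi_apply i), ?_⟩
  unfold lam flip
  rw [Measure.infinitePi_map_pi (fun _ : ℕ => coin) hf]
  congr 1
  funext i
  split_ifs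
  · exact coin_not
  · exact Measure.map_id

lemma psi_det {n m : ℕ} {E : Set Cantor} (h : Det n E) (hm : n < m) : psi m E = 0 := by
  have e : flip m ⁻¹' (E ∩ V m true) = E ∩ V m false := by
    ext x
    have hx : ∀ i ≤ n, x i = flip m x i := by
      intro i hi
      have : i ≠ m := by omega
      simp [flip, this]
    constructor
    · rintro ⟨h1, h2⟩
      refine ⟨h _ _ (fun i hi => (hx i hi).symm) h1, ?_⟩
      simpa [V, flip] using h2
    · rintro ⟨h1, h2⟩
      refine ⟨h _ _ hx h1, ?_⟩
      simpa [V, flip] using h2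
  unfold psi
  rw [← e, (flip_pres m).measureReal_preimage ((h.meas.inter (meas_V _ _)).nullMeasurableSet),
    sub_self]

lemma psi_split (m : ℕ) (X : Set Cantor) {Y : Set Cantor} (hY : MeasurableSet Y) :
    psi m X = psi m (X ∩ Y) + psi m (X \ Y) := by
  unfold psi
  have h : ∀ b, lam.real (X ∩ V m b) = lam.real (X ∩ Y ∩ V m b) + lam.real ((X \ Y) ∩ V m b) := by
    intro b
    rw [← measureReal_inter_add_sdiff (s := X ∩ V m b) hY]
    congr 2
    · ext x; simp only [mem_inter_iff]; tauto
    · ext x; simp only [mem_inter_iff, Set.mem_sdiff]; tauto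
  rw [h false, h true]; ring

lemma abs_psi_le (m : ℕ) {X Y : Set Cantor} (h : X ⊆ Y) : |psi m X| ≤ lam.real Y := by
  have h1 : ∀ b, lam.real (X ∩ V m b) ≤ lam.real Y :=
    fun b => measureReal_mono (inter_subset_left.trans h)
  have h2 : ∀ b, 0 ≤ lam.real (X ∩ V m b) := fun b => measureReal_nonneg
  unfold psi
  rw [abs_le]
  constructor <;> linarith [h1 true, h1 false, h2 true, h2 false]

@[simp] lemma psi_empty (m : ℕ) : psi m ∅ = 0 := by simp [psi]

lemma half_atom {n m : ℕ} (s : Cantor) (hm : n < m) :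
    lam.real (atom n s ∩ V m false) = 1 / 2 ^ (n + 2) := by
  have h1 := psi_det (det_atom n s) hm
  have h2 := measureReal_inter_add_sdiff (μ := lam) (s := atom n s) (meas_V m false)
  have e : atom n s \ V m false = atom n s ∩ V m true := by
    ext x; simp [V]
  rw [e, lam_atom] at h2
  unfold psi at h1
  have : (1 : ℝ) / 2 ^ (n + 1) = 2 * (1 / 2 ^ (n + 2)) := by
    field_simp; ring
  linarith

/-- summing (T.2) over the atoms -/
lemma psi_sum_atoms {n m : ℕ} {E : Set Cantor} {c : ℝ}
    (h : ∀ s, |psi m (E ∩ atom n s)| ≤ c * lam.real (atom n s)) : |psi m E| ≤ c := by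
  have step : ∀ k, (∀ s, |psi m (E ∩ atom (k+1) s)| ≤ c * lam.real (atom (k+1) s)) →
      ∀ s, |psi m (E ∩ atom k s)| ≤ c * lam.real (atom k s) := by
    intro k hk s
    have e1 : E ∩ atom k s ∩ V (k+1) false = E ∩ atom (k+1) (Function.update s (k+1) false) := by
      ext x
      simp only [mem_inter_iff, atom, V, mem_ofPred_eq]
      constructor
      · rintro ⟨⟨h1, h2⟩, h3⟩
        refine ⟨h1, fun i hi => ?_⟩
        by_cases hik : i = k + 1
        · subst hik; simpa using h3
        · rw [Function.update_of_ne hik]; exact h2 i (by omega)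
      · rintro ⟨h1, h2⟩
        refine ⟨⟨h1, fun i hi => ?_⟩, by simpa using h2 (k+1) le_rfl⟩
        rw [h2 i (by omega), Function.update_of_ne (by omega)]
    have e2 : (E ∩ atom k s) \ V (k+1) false = E ∩ atom (k+1) (Function.update s (k+1) true) := by
      ext x
      simp only [mem_inter_iff, Set.mem_sdiff, atom, V, mem_ofPred_eq]
      constructor
      · rintro ⟨⟨h1, h2⟩, h3⟩
        refine ⟨h1, fun i hi => ?_⟩
        by_cases hik : i = k + 1
        · subst hik; simpa using h3
        · rw [Function.update_of_ne hik]; exact h2 i (by omega)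
      · rintro ⟨h1, h2⟩
        refine ⟨⟨h1, fun i hi => ?_⟩, by simpa using h2 (k+1) le_rfl⟩
        rw [h2 i (by omega), Function.update_of_ne (by omega)]
    rw [psi_split m _ (meas_V (k+1) false), e1, e2]
    have a1 := hk (Function.update s (k+1) false)
    have a2 := hk (Function.update s (k+1) true)
    rw [lam_atom] at a1 a2 ⊢
    have : c * (1 / 2 ^ (k + 1)) = c * (1 / 2 ^ (k + 1 + 1)) + c * (1 / 2 ^ (k + 1 + 1)) := by
      field_simp; ring
    rw [this]
    exact (abs_add_le _ _).trans (add_le_add a1 a2)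
  have h0 : ∀ s, |psi m (E ∩ atom 0 s)| ≤ c * lam.real (atom 0 s) := by
    induction n with
    | zero => exact h
    | succ k ih => exact ih (step k h)
  have e1 : E ∩ V 0 false = E ∩ atom 0 (fun _ => false) := by
    ext x; simp [atom, V]
  have e2 : E \ V 0 false = E ∩ atom 0 (fun _ => true) := by
    ext x; simp [atom, V]
  rw [psi_split m _ (meas_V 0 false), e1, e2]
  have a1 := h0 (fun _ => false)
  have a2 := h0 (fun _ => true)
  rw [lam_atom] at a1 a2
  refine (abs_add_le _ _).trans ?_
  norm_num at a1 a2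
  linarith

lemma HasT.meas {B : BooleanSubalgebra (Set Cantor)} (h : HasT B) {A : Set Cantor} (hA : A ∈ B) :
    MeasurableSet A := (borel_iff A).mp (h.1 A hA)

lemma HasT.nik {B : BooleanSubalgebra (Set Cantor)} (h : HasT B) {E : Set Cantor} (hE : E ∈ B) :
    ∃ g : ℕ, ∀ m, g < m → |psi m E| ≤ 1 / m := by
  obtain ⟨n, -, hn⟩ := h.2.2 {E} (by simpa using hE) 1 one_pos
  refine ⟨n, fun m hm => psi_sum_atoms (n := n) fun s => ?_⟩
  have := (hn E (by simp) s).2 m hm
  rw [phi_eq] at this
  calc _ ≤ _ := this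
    _ = _ := by ring

lemma Good.compl {ε : ℝ} {n : ℕ} {A : Set Cantor} (hA : MeasurableSet A) (h : Good ε n A) :
    Good ε n Aᶜ := by
  intro s
  have e1 : Aᶜ ∩ atom n s = atom n s \ A := by ext x; simp [and_comm]
  have e2 : atom n s \ Aᶜ = A ∩ atom n s := by ext x; simp [and_comm]
  rw [e1, e2]
  refine ⟨(h s).1.symm, fun m hm => ?_⟩
  have h1 := (h s).2 m hm
  have h2 := psi_split m (atom n s) hA
  rw [psi_det (det_atom n s) hm, inter_comm] at h2
  rw [phi_eq] at h1 ⊢
  have : psi m (atom n s \ A) = - psi m (A ∩ atom n s) := by linarith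
  rwa [this, abs_neg]

/-- Zorn -/
lemma exists_maximal {B : BooleanSubalgebra (Set Cantor)} (h : HasT B) :
    ∃ M, B ≤ M ∧ Maximal HasT M := by
  refine zorn_le_nonempty₀ {C | HasT C} ?_ B h
  intro c hc hch y hy
  let U : BooleanSubalgebra (Set Cantor) :=
    { carrier := {A | ∃ C ∈ c, A ∈ C}
      supClosed' := by
        rintro a ⟨C, hC, ha⟩ b ⟨D, hD, hb⟩
        rcases hch.total hC hD with h | h
        · exact ⟨D, hD, BooleanSubalgebra.sup_mem (h ha) hb⟩
        · exact ⟨C, hC, BooleanSubalgebra.sup_mem ha (h hb)⟩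
      infClosed' := by
        rintro a ⟨C, hC, ha⟩ b ⟨D, hD, hb⟩
        rcases hch.total hC hD with h | h
        · exact ⟨D, hD, BooleanSubalgebra.inf_mem (h ha) hb⟩
        · exact ⟨C, hC, BooleanSubalgebra.inf_mem ha (h hb)⟩
      compl_mem' := by
        rintro a ⟨C, hC, ha⟩
        exact ⟨C, hC, BooleanSubalgebra.compl_mem ha⟩
      bot_mem' := ⟨y, hy, BooleanSubalgebra.bot_mem⟩ }
  refine ⟨U, ⟨?_, ?_, ?_⟩, fun z hz A hA => ⟨z, hz, hA⟩⟩
  · rintro A ⟨C, hC, hA⟩
    exact (hc hC).1 A hA
  · intro A hA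
    exact ⟨y, hy, (hc hy).2.1 A hA⟩
  · intro F hF ε hε
    have : ∃ C ∈ c, ∀ A ∈ F, A ∈ C := by
      classical
      induction F using Finset.induction_on with
      | empty => exact ⟨y, hy, by simp⟩
      | insert a F ha ih =>
        obtain ⟨C, hC, hFC⟩ := ih (fun A hA => hF A (Finset.mem_insert_of_mem hA))
        obtain ⟨D, hD, haD⟩ := hF a (Finset.mem_insert_self _ _)
        rcases hch.total hC hD with h | h
        · refine ⟨D, hD, fun A hA => ?_⟩
          rcases Finset.mem_insert.mp hA with rfl | hA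
          · exact haD
          · exact h (hFC A hA)
        · refine ⟨C, hC, fun A hA => ?_⟩
          rcases Finset.mem_insert.mp hA with rfl | hA
          · exact h haD
          · exact hFC A hA
    obtain ⟨C, hC, hFC⟩ := this
    exact (hc hC).2.2 F hFC ε hε

end Pool.Agent.H28PropT
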