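import Pool.Agent.Lib.helper28.PropTA

set_option autoImplicit false

namespace Pool.Agent.H28PropT

open MeasureTheory Filter Topology Set
open scoped ENNReal

/-- the zero sequence -/
def zer : Cantor := fun _ => false
/-- the sequence with a single one -/
def ee (k : ℕ) : Cantor := fun i => decide (i = k)
/-- cylinder around zero -/
def W (n : ℕ) : Set Cantor := atom n zer
/-- first one at position `k` -/
def U (k : ℕ) : Set Cantor := atom k (ee k)

/-- a tall ideal of sets with long gaps -/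
def Small (S : Set ℕ) : Prop := Nat.log 2 '' S ∉ hyperfilter ℕ

lemma Small.mono {S T : Set ℕ} (h : Small T) (hST : S ⊆ T) : Small S :=
  fun hS => h (mem_of_superset hS (image_mono hST))

lemma Small.union {S T : Set ℕ} (h : Small S) (h' : Small T) : Small (S ∪ T) := by
  unfold Small
  rw [image_union, Ultrafilter.union_mem_iff]
  tauto

lemma small_finite {S : Set ℕ} (h : S.Finite) : Small S :=
  (h.image _).notMem_hyperfilter

lemma Small.gap {S : Set ℕ} (h : Small S) (L : ℕ) :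
    ∃ n, L ≤ n ∧ ∀ k ∈ S, n < k → 2 * n ≤ k := by
  have h1 : (Nat.log 2 '' S)ᶜ ∈ hyperfilter ℕ := Ultrafilter.compl_mem_iff_notMem.mpr h
  have h2 : ((Nat.log 2 '' S)ᶜ).Infinite := fun hf => hf.notMem_hyperfilter h1
  obtain ⟨j, hj, hLj⟩ := h2.exists_gt L
  refine ⟨2 ^ j, (hLj.trans (Nat.lt_two_pow_self)).le, fun k hk hnk => ?_⟩
  by_contra hlt
  exact hj ⟨k, hk, Nat.log_eq_of_pow_le_of_lt_pow hnk.le (by rw [pow_succ]; omega)⟩

lemma tall {S : Set ℕ} (h : S.Infinite) : ∃ T ⊆ S, T.Infinite ∧ Small T := by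
  have hT : (Nat.log 2 '' S).Infinite := by
    intro hf
    obtain ⟨b, hb⟩ := hf.bddAbove
    refine h ((Set.finite_Iio (2 ^ (b+1))).subset fun k hk => ?_)
    have h1 : Nat.log 2 k ≤ b := hb ⟨k, hk, rfl⟩
    have h2 := Nat.lt_pow_succ_log_self (b := 2) (by norm_num) k
    exact h2.trans_le (Nat.pow_le_pow_right (by norm_num) (by omega))
  let f := hT.natEmbedding
  have key : ∀ r : ℕ, ∃ T ⊆ S, T.Infinite ∧
      Nat.log 2 '' T ⊆ range (fun i => (f (2 * i + r) : ℕ)) := by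
    intro r
    refine ⟨S ∩ Nat.log 2 ⁻¹' range (fun i => (f (2 * i + r) : ℕ)), inter_subset_left, ?_, ?_⟩
    · refine Set.Infinite.of_image (Nat.log 2) ?_
      have hinj : Function.Injective (fun i => (f (2 * i + r) : ℕ)) := by
        intro a b hab
        have := f.injective (Subtype.ext hab)
        omega
      refine (Set.infinite_range_of_injective hinj).mono ?_
      rintro _ ⟨i, rfl⟩
      obtain ⟨k, hk, hk2⟩ := (f (2 * i + r)).2
      exact ⟨k, ⟨hk, i, hk2.symm⟩, hk2⟩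
    · rintro _ ⟨k, hk, rfl⟩
      exact hk.2
  obtain ⟨T0, h0, h0i, h0s⟩ := key 0
  obtain ⟨T1, h1, h1i, h1s⟩ := key 1
  by_cases hs : Small T0
  · exact ⟨T0, h0, h0i, hs⟩
  · refine ⟨T1, h1, h1i, fun hs1 => ?_⟩
    have hs0 : Nat.log 2 '' T0 ∈ hyperfilter ℕ := not_not.mp hs
    obtain ⟨j, hj0, hj1⟩ := (hyperfilter ℕ).nonempty_of_mem (inter_mem hs0 hs1)
    obtain ⟨a, ha⟩ := h0s hj0
    obtain ⟨b, hb⟩ := h1s hj1
    have := f.injective (Subtype.ext (ha.trans hb.symm))
    omega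

/-- locally determined away from zero -/
def Loc (N : ℕ) (A : Set Cantor) : Prop :=
  ∀ k, N ≤ k → ∀ y z : Cantor, (∃ i ≤ k, y i = true) → (∀ i ≤ k, y i = z i) → y ∈ A → z ∈ A

lemma Loc.compl {N : ℕ} {A : Set Cantor} (h : Loc N A) : Loc N Aᶜ := by
  rintro k hk y z ⟨i, hi, hy⟩ hyz hyA hzA
  exact hyA (h k hk z y ⟨i, hi, (hyz i hi).symm.trans hy⟩ (fun j hj => (hyz j hj).symm) hzA)

lemma Loc.mono {N M : ℕ} {A : Set Cantor} (h : Loc N A) (hNM : N ≤ M) : Loc M A :=
  fun k hk => h k (hNM.trans hk)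

lemma Loc.meas {N : ℕ} {A : Set Cantor} (h : Loc N A) : MeasurableSet A := by
  have h1 : IsOpen (A \ {zer}) := by
    rw [isOpen_iff_forall_mem_open]
    rintro y ⟨hy, hy0⟩
    have : ∃ i, y i = true := by
      by_contra hc
      push Not at hc
      exact hy0 (funext fun i => by simpa [zer] using hc i)
    obtain ⟨i, hi⟩ := this
    refine ⟨atom (max N i) y, fun z hz => ⟨?_, ?_⟩, atom_open _ _, self_mem_atom _ _⟩
    · exact h _ (le_max_left _ _) y z ⟨i, le_max_right _ _, hi⟩ (fun j hj => (hz j hj).symm) hy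
    · intro hz0
      have := hz i (le_max_right _ _)
      rw [mem_singleton_iff.mp hz0, hi] at this
      simp [zer] at this
  have h2 : A = (A \ {zer}) ∪ (A ∩ {zer}) := (sdiff_union_inter _ _).symm
  rw [h2]
  exact h1.measurableSet.union ((Set.toFinite {zer}).subset inter_subset_right).measurableSet

/-- the starting algebra -/
def B0 : BooleanSubalgebra (Set Cantor) where
  carrier := {A | (∃ N, Loc N A) ∧ Small {k | ¬ (ee k ∈ A ↔ zer ∈ A)}}
  supClosed' := by
    rintro a ⟨⟨N, hN⟩, ha⟩ b ⟨⟨M, hM⟩, hb⟩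
    refine ⟨⟨max N M, fun k hk y z h1 h2 h3 => ?_⟩, (ha.union hb).mono fun k hk => ?_⟩
    · rcases h3 with h3 | h3
      · exact Or.inl (hN k (le_of_max_le_left hk) y z h1 h2 h3)
      · exact Or.inr (hM k (le_of_max_le_right hk) y z h1 h2 h3)
    · simp only [sup_eq_union, mem_union, mem_ofPred_eq] at hk ⊢
      tauto
  infClosed' := by
    rintro a ⟨⟨N, hN⟩, ha⟩ b ⟨⟨M, hM⟩, hb⟩
    refine ⟨⟨max N M, fun k hk y z h1 h2 h3 => ?_⟩, (ha.union hb).mono fun k hk => ?_⟩
    · exact ⟨hN k (le_of_max_le_left hk) y z h1 h2 h3.1,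
        hM k (le_of_max_le_right hk) y z h1 h2 h3.2⟩
    · simp only [inf_eq_inter, mem_inter_iff, mem_union, mem_ofPred_eq] at hk ⊢
      tauto
  compl_mem' := by
    rintro a ⟨⟨N, hN⟩, ha⟩
    refine ⟨⟨N, hN.compl⟩, ha.mono fun k hk => ?_⟩
    simp only [mem_compl_iff, mem_ofPred_eq] at hk ⊢
    tauto
  bot_mem' := ⟨⟨0, fun _ _ _ _ _ _ h => h.elim⟩, small_finite (by simp)⟩

lemma first_one {y : Cantor} {i : ℕ} (hi : y i = true) : ∃ k ≤ i, y k = true ∧ y ∈ U k := by
  have hex : ∃ k, y k = true := ⟨i, hi⟩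
  refine ⟨Nat.find hex, Nat.find_min' hex hi, Nat.find_spec hex, fun j hj => ?_⟩
  rcases hj.lt_or_eq with hlt | heq
  · have := Nat.find_min hex hlt
    have hne : j ≠ Nat.find hex := hlt.ne
    simpa [ee, hne] using this
  · rw [heq, Nat.find_spec hex]; simp [ee]

lemma not_mem_W {y : Cantor} {n : ℕ} (h : y ∉ W n) : ∃ i ≤ n, y i = true := by
  by_contra hc
  push Not at hc
  exact h fun i hi => by simpa [zer] using hc i hi

lemma good_aux {ε : ℝ} {L N n : ℕ} {A : Set Cantor} (hε : 0 < ε)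
    (hL : ∀ r : ℕ, L ≤ r → 4 * (r : ℝ) ≤ ε * 2 ^ r) (hN : Loc N A) (hNn : N ≤ n) (hLn : L ≤ n)
    (hn : 0 < n) (hgap : ∀ k, ee k ∈ A → n < k → 2 * n ≤ k) : Good ε n A := by
  intro s
  have hpos : ∀ m : ℕ, 0 ≤ ε * lam.real (atom n s) / m :=
    fun m => div_nonneg (mul_nonneg hε.le measureReal_nonneg) (Nat.cast_nonneg _)
  by_cases hs : ∃ i ≤ n, s i = true
  · by_cases hsA : s ∈ A
    · have e : A ∩ atom n s = atom n s := inter_eq_right.mpr fun y hy =>
        hN n hNn s y hs (fun i hi => (hy i hi).symm) hsA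
      refine ⟨Or.inr ?_, fun m hm => ?_⟩
      · rw [Set.sdiff_eq_empty.mpr (e ▸ inter_subset_left)]
        simpa using hpos n
      · rw [e, phi_eq, psi_det (det_atom n s) hm, abs_zero]; exact hpos m
    · have e : A ∩ atom n s = ∅ := by
        refine eq_empty_of_forall_notMem fun y hy => ?_
        exact hN.compl n hNn s y hs (fun i hi => (hy.2 i hi).symm) hsA hy.1
      rw [e]
      refine ⟨Or.inl (by simpa using hpos n), fun m _ => ?_⟩
      rw [phi_eq, psi_empty, abs_zero]; exact hpos m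
  · have e : atom n s = W n := by
      push Not at hs
      ext y
      refine forall₂_congr fun i hi => ?_
      have : s i = false := by simpa using hs i hi
      rw [this]; rfl
    have hsub : A ∩ W n ⊆ W (2 * n - 1) := by
      rintro y ⟨hyA, hyW⟩
      by_contra hc
      obtain ⟨i, hi, hyi⟩ := not_mem_W hc
      obtain ⟨k, hk, hyk, hyU⟩ := first_one hyi
      have hnk : n < k := by
        by_contra hle
        have := hyW k (not_lt.mp hle)
        rw [hyk] at this; simp [zer] at this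
      have := hgap k (hN k (by omega) y _ ⟨k, le_rfl, hyk⟩ hyU hyA) hnk
      omega
    have num : ∀ t m : ℕ, 2 * n ≤ t → m ≤ t → 0 < m →
        (1 : ℝ) / 2 ^ (t - 1 + 1) ≤ ε * (1 / 2 ^ (n + 1)) / m := by
      intro t m ht hm hm0
      obtain ⟨r, rfl⟩ : ∃ r, t = n + r := ⟨t - n, by omega⟩
      have h1 := hL r (by omega)
      have h2 : (m : ℝ) ≤ 2 * r := by exact_mod_cast (by omega : m ≤ 2 * r)
      have h3 : (0 : ℝ) < m := by exact_mod_cast hm0
      rw [show n + r - 1 + 1 = n + r by omega, le_div_iff₀ h3, pow_add, pow_succ]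
      have h4 : (0 : ℝ) < 2 ^ n := by positivity
      have h5 : (0 : ℝ) < 2 ^ r := by positivity
      rw [div_mul_eq_mul_div, one_mul, mul_one_div, div_le_div_iff₀ (by positivity) (by positivity)]
      nlinarith
    rw [e]
    have hW : lam.real (W n) = 1 / 2 ^ (n + 1) := lam_atom _ _
    rw [hW]
    refine ⟨Or.inl ?_, fun m hm => ?_⟩
    · refine (measureReal_mono hsub).trans ?_
      rw [W, lam_atom]
      exact num (2 * n) n le_rfl (by omega) hn
    · have hdet : Det (m - 1) ((A ∩ W n) \ W (m - 1)) := by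
        rintro x y hxy ⟨⟨h1, h2⟩, h3⟩
        exact ⟨⟨hN (m - 1) (by omega) x y (not_mem_W h3) hxy h1,
          ((det_atom n zer).mono (by omega)) x y hxy h2⟩, (det_atom _ zer).compl x y hxy h3⟩
      rw [phi_eq, psi_split m _ (meas_atom (m - 1) zer)]
      have h0 : psi m ((A ∩ W n) \ atom (m - 1) zer) = 0 := psi_det hdet (by omega)
      rw [h0, add_zero]
      rcases le_total m (2 * n) with h | h
      · refine (abs_psi_le m (inter_subset_left.trans hsub)).trans ?_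
        rw [W, lam_atom]
        exact num (2 * n) m le_rfl h (by omega)
      · refine (abs_psi_le m inter_subset_right).trans ?_
        rw [lam_atom]
        exact num m m h le_rfl (by omega)

lemma exists_L {ε : ℝ} (hε : 0 < ε) : ∃ L : ℕ, ∀ r : ℕ, L ≤ r → 4 * (r : ℝ) ≤ ε * 2 ^ r := by
  have h := tendsto_pow_const_div_const_pow_of_one_lt 1 (r := 2) (by norm_num)
  obtain ⟨L, hL⟩ := eventually_atTop.mp (h.eventually (gt_mem_nhds (show (0:ℝ) < ε / 4 by linarith)))
  refine ⟨L, fun r hr => ?_⟩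
  have := hL r hr
  rw [pow_one, div_lt_iff₀ (by positivity)] at this
  linarith

lemma hasT_B0 : HasT B0 := by
  classical
  refine ⟨fun A hA => ?_, fun A hA => ?_, fun F hF ε hε => ?_⟩
  · obtain ⟨⟨N, hN⟩, -⟩ := hA
    exact (borel_iff A).mpr hN.meas
  · obtain ⟨n, hn⟩ := exists_det hA
    refine ⟨⟨n, fun k hk y z _ h2 h3 => (hn.mono hk) y z h2 h3⟩,
      small_finite ((Set.finite_Iic n).subset fun k hk => ?_)⟩
    by_contra hc
    have hnk : n < k := not_le.mp hc
    have h1 : ∀ i ≤ n, ee k i = zer i := by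
      intro i hi
      have : i ≠ k := by omega
      simp [ee, zer, this]
    exact hk ⟨hn _ _ h1, hn _ _ fun i hi => (h1 i hi).symm⟩
  · obtain ⟨L, hL⟩ := exists_L hε
    have : ∃ N, ∃ S, Small S ∧ ∀ A ∈ F, Loc N A ∧ {k | ¬ (ee k ∈ A ↔ zer ∈ A)} ⊆ S := by
      induction F using Finset.induction_on with
      | empty => exact ⟨0, ∅, small_finite finite_empty, by simp⟩
      | insert a F ha ih =>
        obtain ⟨N, S, hS, h⟩ := ih (fun A hA => hF A (Finset.mem_insert_of_mem hA))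
        obtain ⟨⟨M, hM⟩, hT⟩ := hF a (Finset.mem_insert_self _ _)
        refine ⟨max N M, _, hS.union hT, fun A hA => ?_⟩
        rcases Finset.mem_insert.mp hA with rfl | hA
        · exact ⟨hM.mono (le_max_right _ _), subset_union_right⟩
        · exact ⟨(h A hA).1.mono (le_max_left _ _), (h A hA).2.trans subset_union_left⟩
    obtain ⟨N, S, hS, h⟩ := this
    obtain ⟨n, hn, hgap⟩ := hS.gap (N + L + 1)
    refine ⟨n, by omega, fun A hA => ?_⟩
    obtain ⟨h1, h2⟩ := h A hA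
    by_cases h0 : zer ∈ A
    · have := good_aux (A := Aᶜ) hε hL h1.compl (n := n) (by omega) (by omega) (by omega)
        (fun k hk => hgap k (h2 (fun hh => hk (hh.mpr h0))))
      simpa using this.compl h1.compl.meas
    · exact good_aux hε hL h1 (by omega) (by omega) (by omega)
        (fun k hk => hgap k (h2 (fun hh => h0 (hh.mp hk))))

lemma mem_U_one {y : Cantor} {k : ℕ} (h : y ∈ U k) : y k = true := by
  have := h k le_rfl
  simpa [ee] using this

lemma mem_U_zero {y : Cantor} {k i : ℕ} (h : y ∈ U k) (hi : i < k) : y i = false := by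
  have := h i hi.le
  have hne : i ≠ k := hi.ne
  simpa [ee, hne] using this

lemma U_unique {y : Cantor} {j k : ℕ} (hj : y ∈ U j) (hk : y ∈ U k) : j = k := by
  rcases lt_trichotomy j k with h | h | h
  · have := mem_U_zero hk h; rw [mem_U_one hj] at this; simp at this
  · exact h
  · have := mem_U_zero hj h; rw [mem_U_one hk] at this; simp at this

lemma U_sub_W {j k : ℕ} (h : k < j) : U j ⊆ W k :=
  fun _ hy i hi => mem_U_zero hy (by omega)

lemma lt_of_U_W {y : Cantor} {j k : ℕ} (hj : y ∈ U j) (hk : y ∈ W k) : k < j := by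
  by_contra hc
  have := hk j (not_lt.mp hc)
  rw [mem_U_one hj] at this; simp [zer] at this

lemma union_mem_B0 {S : Set ℕ} (hS : Small S) : (⋃ k ∈ S, U k) ∈ B0 := by
  refine ⟨⟨0, ?_⟩, hS.mono fun k hk => ?_⟩
  · rintro k - y z ⟨i, hi, hyi⟩ hyz hy
    obtain ⟨j, hj, hyj⟩ := mem_iUnion₂.mp hy
    have hji : j ≤ i := by
      by_contra hc
      have := mem_U_zero hyj (not_le.mp hc)
      rw [hyi] at this; simp at this
    exact mem_iUnion₂.mpr ⟨j, hj, ((det_atom j _).mono (by omega)) y z hyz hyj⟩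
  · have h0 : zer ∉ ⋃ k ∈ S, U k := by
      intro h
      obtain ⟨j, -, hj⟩ := mem_iUnion₂.mp h
      have := mem_U_one hj
      simp [zer] at this
    have h1 : ee k ∈ ⋃ k ∈ S, U k := by
      by_contra hc
      exact hk ⟨fun h => absurd h hc, fun h => absurd h h0⟩
    obtain ⟨j, hj, hkj⟩ := mem_iUnion₂.mp h1
    rwa [U_unique (self_mem_atom k (ee k)) hkj]

/-- the sealing lemma -/
lemma sealed {B : BooleanSubalgebra (Set Cantor)} (hB : HasT B) (h0 : B0 ≤ B) {A : Set Cantor}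
    (hA : A ∈ B) :
    Tendsto (fun k : ℕ => (2 : ℝ) ^ (k + 1) * psi (4 ^ k) (A ∩ U k)) atTop (𝓝 0) := by
  classical
  by_contra hc
  rw [Metric.tendsto_atTop] at hc
  push Not at hc
  obtain ⟨δ, hδ, hfr⟩ := hc
  have hS0 : {k : ℕ | δ ≤ dist ((2 : ℝ) ^ (k + 1) * psi (4 ^ k) (A ∩ U k)) 0}.Infinite := by
    refine Set.infinite_of_forall_exists_gt fun N => ?_
    obtain ⟨k, hk, hk2⟩ := hfr (N + 1)
    exact ⟨k, hk2, hk⟩
  obtain ⟨S, hS, hSi, hSs⟩ := tall hS0
  have hg : ∀ T : Finset ℕ, ∃ g : ℕ, ∀ m, g < m →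
      |psi m (A ∩ ⋃ j ∈ (T : Set ℕ), U j)| ≤ 1 / m := fun T =>
    hB.nik (BooleanSubalgebra.inf_mem hA (h0 (union_mem_B0 (small_finite T.finite_toSet))))
  choose g hg using hg
  have hnx : ∀ k : ℕ, ∃ j ∈ S, max (2 * k) ((Finset.range (k + 1)).powerset.sup g) < j :=
    fun k => hSi.exists_gt _
  choose nx hnxS hnx using hnx
  let sq : ℕ → ℕ := fun i => nx^[i + 1] 0
  have sqS : ∀ i, sq i ∈ S := fun i => by
    simp only [sq, Function.iterate_succ_apply']; exact hnxS _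
  have sqs : ∀ i, sq (i + 1) = nx (sq i) := fun i => by
    simp only [sq]; rw [Function.iterate_succ_apply']
  have sq2 : ∀ i, 2 * sq i < sq (i + 1) := fun i => by
    rw [sqs]; exact (max_lt_iff.mp (hnx _)).1
  have smono : StrictMono sq := strictMono_nat_of_lt_succ fun i => by have := sq2 i; omega
  have hC : (⋃ j ∈ range sq, U j) ∈ B :=
    h0 (union_mem_B0 (hSs.mono (by rintro _ ⟨i, rfl⟩; exact sqS i)))
  obtain ⟨g0, hg0⟩ := hB.nik (BooleanSubalgebra.inf_mem hA hC)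
  obtain ⟨L, hL⟩ := exists_L (show 0 < δ / 2 by linarith)
  let i := g0 + L + 1
  let k := sq (i + 1)
  have hik : i + 1 ≤ k := smono.le_apply
  have hk4 : k < 4 ^ k := Nat.lt_pow_self (by norm_num)
  let T : Finset ℕ := (Finset.range (sq i + 1)).filter (· ∈ range sq)
  have hT : g T < 4 ^ k := by
    have h1 : g T ≤ (Finset.range (sq i + 1)).powerset.sup g :=
      Finset.le_sup (Finset.mem_powerset.mpr (Finset.filter_subset _ _))
    have h2 : (Finset.range (sq i + 1)).powerset.sup g < nx (sq i) := (max_lt_iff.mp (hnx _)).2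
    rw [← sqs] at h2
    omega
  set X : Set Cantor := A ∩ ⋃ j ∈ range sq, U j with hX
  have e1 : X ∩ U k = A ∩ U k := by
    ext y
    constructor
    · rintro ⟨⟨h1, -⟩, h2⟩; exact ⟨h1, h2⟩
    · rintro ⟨h1, h2⟩; exact ⟨⟨h1, mem_iUnion₂.mpr ⟨k, ⟨_, rfl⟩, h2⟩⟩, h2⟩
  have e2 : (X \ U k) ∩ W k ⊆ W (2 * k) := by
    rintro y ⟨⟨⟨-, h1⟩, -⟩, h2⟩
    obtain ⟨_, ⟨a, rfl⟩, hy⟩ := mem_iUnion₂.mp h1
    have h3 : sq (i + 1) < sq a := lt_of_U_W hy h2
    have h4 : i + 1 + 1 ≤ a := smono.lt_iff_lt.mp h3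
    exact U_sub_W ((sq2 (i + 1)).trans_le (smono.monotone h4)) hy
  have e3 : (X \ U k) \ W k = A ∩ ⋃ j ∈ (T : Set ℕ), U j := by
    ext y
    constructor
    · rintro ⟨⟨⟨h1, h2⟩, h3⟩, h4⟩
      obtain ⟨_, ⟨a, rfl⟩, hy⟩ := mem_iUnion₂.mp h2
      refine ⟨h1, mem_iUnion₂.mpr ⟨sq a, ?_, hy⟩⟩
      have h5 : a ≤ i := by
        by_contra hc
        rcases (show a = i + 1 ∨ i + 1 < a by omega) with h | h
        · rw [h] at hy; exact h3 hy
        · exact h4 (U_sub_W (smono h) hy)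
      simp only [T, Finset.coe_filter, Finset.mem_range, mem_ofPred_eq]
      exact ⟨Nat.lt_succ_of_le (smono.monotone h5), a, rfl⟩
    · rintro ⟨h1, h2⟩
      obtain ⟨j, hj, hy⟩ := mem_iUnion₂.mp h2
      simp only [T, Finset.coe_filter, Finset.mem_range, mem_ofPred_eq] at hj
      have hjk : j < k := lt_of_le_of_lt (Nat.lt_succ_iff.mp hj.1) (smono (Nat.lt_succ_self i))
      refine ⟨⟨⟨h1, mem_iUnion₂.mpr ⟨j, hj.2, hy⟩⟩, fun h => ?_⟩, fun h => ?_⟩
      · exact hjk.ne (U_unique hy h)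
      · exact absurd (lt_of_U_W hy h) (by omega)
  have s1 := psi_split (4 ^ k) X (meas_atom k (ee k))
  have s2 := psi_split (4 ^ k) (X \ U k) (meas_atom k zer)
  change _ = psi _ (X ∩ U k) + psi _ (X \ U k) at s1
  change _ = psi _ ((X \ U k) ∩ W k) + psi _ ((X \ U k) \ W k) at s2
  rw [e1] at s1
  rw [e3] at s2
  have b1 := hg0 (4 ^ k) (by omega)
  have b2 := hg T _ hT
  have b3 := abs_psi_le (4 ^ k) e2
  rw [show lam.real (W (2 * k)) = _ from lam_atom _ _] at b3
  have b4 : δ ≤ dist ((2 : ℝ) ^ (k + 1) * psi (4 ^ k) (A ∩ U k)) 0 := hS (sqS (i + 1))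
  rw [Real.dist_eq, sub_zero, abs_mul, abs_of_pos (by positivity)] at b4
  change |psi (4 ^ k) X| ≤ _ at b1
  have p4 : ((4 ^ k : ℕ) : ℝ) = 2 ^ k * 2 ^ k := by
    push_cast; rw [← mul_pow]; norm_num
  have p5 : (2 : ℝ) ^ (2 * k + 1) = 2 * (2 ^ k * 2 ^ k) := by ring
  rw [p4] at b1 b2
  rw [p5] at b3
  have hq : (0 : ℝ) < 2 ^ k := by positivity
  have b5 : |psi (4 ^ k) (A ∩ U k)| ≤ 3 / (2 ^ k * 2 ^ k) := by
    have : psi (4 ^ k) (A ∩ U k) = psi (4 ^ k) X - psi (4 ^ k) ((X \ U k) ∩ W k)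
        - psi (4 ^ k) (A ∩ ⋃ j ∈ (T : Set ℕ), U j) := by linarith
    rw [this]
    have t1 : (1 : ℝ) / (2 * (2 ^ k * 2 ^ k)) ≤ 1 / (2 ^ k * 2 ^ k) :=
      one_div_le_one_div_of_le (by positivity) (by nlinarith [mul_pos hq hq])
    have t2 : (3 : ℝ) / (2 ^ k * 2 ^ k) = 1 / (2 ^ k * 2 ^ k) + 1 / (2 ^ k * 2 ^ k)
        + 1 / (2 ^ k * 2 ^ k) := by ring
    rw [t2]
    refine (abs_sub _ _).trans (add_le_add ((abs_sub _ _).trans (add_le_add b1 (b3.trans t1))) b2)
  have b6 : δ ≤ 6 / 2 ^ k := by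
    refine b4.trans ((mul_le_mul_of_nonneg_left b5 (by positivity)).trans (le_of_eq ?_))
    field_simp; ring
  rw [le_div_iff₀ hq] at b6
  have b7 := hL k (by omega)
  have b8 : (2 : ℝ) ≤ k := by exact_mod_cast (by omega : 2 ≤ k)
  linarith

end Pool.Agent.H28PropT
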