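import Pool.Agent.Lib.helper28.PropTB

set_option autoImplicit false

namespace Pool.Agent.H28PropT

open MeasureTheory Filter Topology Set
open scoped ENNReal

section general

variable {A : Type} [BooleanAlgebra A]

/-- indicator of the clopen subset of the Stone space given by `a` -/
noncomputable def ind (a : A) : C(Stone A, ℝ) :=
  ⟨fun u => if u.1 a = true then 1 else 0,
    (continuous_of_discreteTopology (f := fun t : Bool => if t = true then (1:ℝ) else 0)).comp
      ((continuous_apply a).comp continuous_subtype_val)⟩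

lemma ind_apply (a : A) (u : Stone A) : ind a u = if u.1 a = true then 1 else 0 := rfl

lemma ind_top : ind (⊤ : A) = 1 := by
  ext u; simp [ind_apply, u.2.1]

lemma ind_mul (a b : A) : ind a * ind b = ind (a ⊓ b) := by
  ext u
  simp only [ContinuousMap.mul_apply, ind_apply, u.2.2.2]
  cases u.1 a <;> cases u.1 b <;> simp

lemma norm_ind_le (a : A) : ‖ind a‖ ≤ 1 := by
  refine (ContinuousMap.norm_le _ zero_le_one).mpr fun u => ?_
  rw [ind_apply]; split_ifs <;> simp

lemma dense_ind {P : Set C(Stone A, ℝ)} (hP : IsClosed P)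
    (h : (Submodule.span ℝ (range (ind (A := A))) : Set C(Stone A, ℝ)) ⊆ P) (f : C(Stone A, ℝ)) :
    f ∈ P := by
  have h1 : (Algebra.adjoin ℝ (range (ind (A := A)))).SeparatesPoints := by
    intro u v huv
    have : ∃ a, u.1 a ≠ v.1 a := by
      by_contra hc
      push Not at hc
      exact huv (Subtype.ext (funext hc))
    obtain ⟨a, ha⟩ := this
    refine ⟨ind a, ⟨ind a, Algebra.subset_adjoin ⟨a, rfl⟩, rfl⟩, ?_⟩
    rw [ind_apply, ind_apply]
    revert ha
    cases u.1 a <;> cases v.1 a <;> simp
  have h2 := ContinuousMap.subalgebra_topologicalClosure_eq_top_of_separatesPoints _ h1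
  have h3 : f ∈ (Algebra.adjoin ℝ (range (ind (A := A)))).topologicalClosure := by
    rw [h2]; trivial
  have h4 : Subalgebra.toSubmodule (Algebra.adjoin ℝ (range (ind (A := A)))) =
      Submodule.span ℝ (range (ind (A := A))) := by
    refine Algebra.adjoin_eq_span_of_subset ℝ fun g hg => Submodule.subset_span ?_
    induction hg using Submonoid.closure_induction with
    | mem x hx => exact hx
    | one => exact ⟨⊤, ind_top⟩
    | mul x y _ _ hx hy =>
      obtain ⟨a, rfl⟩ := hx
      obtain ⟨b, rfl⟩ := hy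
      exact ⟨a ⊓ b, (ind_mul a b).symm⟩
  refine closure_minimal (fun g hg => h ?_) hP h3
  rw [← h4]; exact hg

/-- an ultrafilter limit of a bounded sequence, as an element of the bidual -/
lemma exists_bidual {X : Type} [NormedAddCommGroup X] [NormedSpace ℝ X] (x : ℕ → X)
    (hx : ∀ n, ‖x n‖ ≤ 1) : ∃ Φ : StrongDual ℝ (StrongDual ℝ X), ∀ φ : StrongDual ℝ X,
      Tendsto (fun n => φ (x n)) (hyperfilter ℕ) (𝓝 (Φ φ)) := by
  have h : ∀ φ : StrongDual ℝ X, ∃ c ∈ Metric.closedBall (0:ℝ) ‖φ‖,
      Tendsto (fun n => φ (x n)) (hyperfilter ℕ) (𝓝 c) := by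
    intro φ
    refine (isCompact_closedBall (0:ℝ) ‖φ‖).ultrafilter_le_nhds
      ((hyperfilter ℕ).map fun n => φ (x n)) ?_
    rw [Ultrafilter.coe_map, le_principal_iff, mem_map]
    refine univ_mem' fun n => ?_
    simp only [mem_preimage, mem_closedBall_zero_iff]
    exact (φ.le_opNorm _).trans (mul_le_of_le_one_right (norm_nonneg _) (hx n))
  choose L hL hL' using h
  let Lm : StrongDual ℝ X →ₗ[ℝ] ℝ :=
    { toFun := L
      map_add' := fun φ ψ => tendsto_nhds_unique (hL' _) ((hL' φ).add (hL' ψ))
      map_smul' := fun c φ => tendsto_nhds_unique (hL' _) ((hL' φ).const_mul c) }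
  exact ⟨Lm.mkContinuous 1 fun φ => by
    rw [one_mul]; exact mem_closedBall_zero_iff.mp (hL φ), hL'⟩

end general

variable {B : BooleanSubalgebra (Set Cantor)}

open Classical in
/-- principal points of the Stone space -/
noncomputable def dlt (B : BooleanSubalgebra (Set Cantor)) (y : Cantor) : Stone B :=
  ⟨fun a => decide (y ∈ (a : Set Cantor)), by simp, fun a => by simp, fun a b => by simp⟩

lemma ind_dlt (a : B) (y : Cantor) :
    ind a (dlt B y) = (a : Set Cantor).indicator (fun _ => (1:ℝ)) y := by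
  rw [ind_apply]
  by_cases h : y ∈ (a : Set Cantor) <;> simp [dlt, h]

lemma meas_dlt (hB : HasT B) (f : C(Stone B, ℝ)) : Measurable (fun y => f (dlt B y)) := by
  refine dense_ind (P := {f | Measurable (fun y => f (dlt B y))}) ?_ ?_ f
  · refine IsSeqClosed.isClosed fun g g0 hg hlim => ?_
    refine measurable_of_tendsto_metrizable hg (tendsto_pi_nhds.mpr fun y => ?_)
    exact ((continuous_eval_const (dlt B y)).tendsto g0).comp hlim
  · intro g hg
    induction hg using Submodule.span_induction with
    | mem x hx =>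
      obtain ⟨a, rfl⟩ := hx
      simp only [mem_ofPred_eq, ind_dlt]
      exact measurable_const.indicator (hB.meas a.2)
    | zero => exact measurable_const
    | add x y _ _ hx hy => exact Measurable.add hx hy
    | smul c x _ hx => exact Measurable.const_mul hx c

lemma int_dlt (hB : HasT B) (f : C(Stone B, ℝ)) (E : Set Cantor) :
    Integrable (fun y => f (dlt B y)) (lam.restrict E) :=
  Integrable.of_bound (meas_dlt hB f).aestronglyMeasurable ‖f‖
    (ae_of_all _ fun _ => f.norm_coe_le_norm _)

/-- integration over `E` as a functional on `C(St B)` -/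
noncomputable def II (hB : HasT B) (E : Set Cantor) : StrongDual ℝ C(Stone B, ℝ) :=
  LinearMap.mkContinuous
    { toFun := fun f => ∫ y in E, f (dlt B y) ∂lam
      map_add' := fun f g => integral_add (int_dlt hB f E) (int_dlt hB g E)
      map_smul' := fun c f => integral_const_mul c _ } (lam.real E) fun f => by
    rw [mul_comm]
    exact norm_setIntegral_le_of_norm_le_const (measure_lt_top _ _)
      fun y _ => f.norm_coe_le_norm _

lemma II_norm (hB : HasT B) (E : Set Cantor) (f : C(Stone B, ℝ)) :
    ‖II hB E f‖ ≤ ‖f‖ * lam.real E :=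
  norm_setIntegral_le_of_norm_le_const (measure_lt_top _ _) fun _ _ => f.norm_coe_le_norm _

lemma II_ind (hB : HasT B) (E : Set Cantor) (a : B) :
    II hB E (ind a) = lam.real ((a : Set Cantor) ∩ E) := by
  change ∫ y in E, ind a (dlt B y) ∂lam = _
  simp only [ind_dlt]
  rw [integral_indicator_const _ (hB.meas a.2), measureReal_restrict_apply (hB.meas a.2)]
  simp

/-- the weak-star null sequence -/
noncomputable def nu (hB : HasT B) (k : ℕ) : StrongDual ℝ C(Stone B, ℝ) :=
  ((2:ℝ) ^ (k + 1)) • (II hB (U k ∩ V (4 ^ k) false) - II hB (U k ∩ V (4 ^ k) true))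

lemma nu_apply (hB : HasT B) (k : ℕ) (f : C(Stone B, ℝ)) : nu hB k f =
    (2:ℝ) ^ (k + 1) * (II hB (U k ∩ V (4 ^ k) false) f - II hB (U k ∩ V (4 ^ k) true) f) := rfl

lemma nu_ind (hB : HasT B) (k : ℕ) (a : B) :
    nu hB k (ind a) = 2 ^ (k + 1) * psi (4 ^ k) ((a : Set Cantor) ∩ U k) := by
  simp only [nu_apply, II_ind, psi, inter_assoc]

lemma nu_norm (hB : HasT B) (k : ℕ) (f : C(Stone B, ℝ)) : ‖nu hB k f‖ ≤ 2 * ‖f‖ := by
  have h : ∀ b, ‖II hB (U k ∩ V (4 ^ k) b) f‖ ≤ ‖f‖ * (1 / 2 ^ (k + 1)) := fun b =>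
    (II_norm hB _ f).trans (mul_le_mul_of_nonneg_left
      ((measureReal_mono inter_subset_left).trans (lam_atom _ _).le) (norm_nonneg _))
  rw [nu_apply, norm_mul, Real.norm_of_nonneg (by positivity)]
  refine (mul_le_mul_of_nonneg_left ((norm_sub_le _ _).trans (add_le_add (h _) (h _)))
    (by positivity)).trans (le_of_eq ?_)
  field_simp; norm_num

theorem not_grothendieck (hB : HasT B) (h0 : B0 ≤ B) : ¬ HasGrothendieck B := by
  intro hG
  have hw : ∀ f : C(Stone B, ℝ), Tendsto (fun k => nu hB k f) atTop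
      (𝓝 ((0 : StrongDual ℝ C(Stone B, ℝ)) f)) := by
    intro f
    refine dense_ind (P := {f | Tendsto (fun k => nu hB k f) atTop (𝓝 0)}) ?_ ?_ f
    · refine Equicontinuous.isClosed_setOfPred_tendsto (F := fun k f => nu hB k f)
        (f := fun _ => (0:ℝ)) ?_ continuous_const
      refine (LipschitzWith.uniformEquicontinuous _ 2 fun k => ?_).equicontinuous
      refine LipschitzWith.of_dist_le_mul fun f g => ?_
      rw [dist_eq_norm, dist_eq_norm, ← map_sub]
      exact nu_norm hB k _
    · intro g hg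
      induction hg using Submodule.span_induction with
      | mem x hx =>
        obtain ⟨a, rfl⟩ := hx
        simp only [mem_ofPred_eq, nu_ind]
        exact sealed hB h0 a.2
      | zero => simp
      | add x y _ _ hx hy =>
        simp only [mem_ofPred_eq, map_add]
        simpa using Tendsto.add hx hy
      | smul c x _ hx =>
        simp only [mem_ofPred_eq, map_smul, smul_eq_mul]
        simpa using Tendsto.const_mul c hx
  have hE : ∀ N : ℕ, (⋃ k ∈ Finset.range N, (U k ∩ V (4 ^ k) false)) ∈ B := fun N =>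
    hB.2.1 _ (isClopen_biUnion_finset fun k _ => (det_atom _ _).isClopen.inter (det_V _ _).isClopen)
  obtain ⟨Φ, hΦ⟩ := exists_bidual (fun N => ind (⟨_, hE N⟩ : B)) fun N => norm_ind_le _
  have hval : ∀ j, Φ (nu hB j) = 1 / 2 := by
    intro j
    refine tendsto_nhds_unique (hΦ _) (tendsto_const_nhds.congr' ?_)
    refine ((eventually_gt_atTop j).filter_mono Nat.hyperfilter_le_atTop).mono fun N hN => ?_
    have e : (⋃ k ∈ Finset.range N, (U k ∩ V (4 ^ k) false)) ∩ U j = U j ∩ V (4 ^ j) false := by
      ext y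
      constructor
      · rintro ⟨h1, h2⟩
        obtain ⟨k, -, h3, h4⟩ := mem_iUnion₂.mp h1
        rw [U_unique h3 h2] at h4
        exact ⟨h2, h4⟩
      · rintro ⟨h1, h2⟩
        exact ⟨mem_iUnion₂.mpr ⟨j, Finset.mem_range.mpr hN, h1, h2⟩, h1⟩
    simp only [nu_ind]
    rw [e, psi, inter_assoc, inter_self, inter_assoc]
    have e2 : V (4 ^ j) false ∩ V (4 ^ j) true = ∅ := by
      ext y; simp [V]
    rw [e2, U, half_atom _ (Nat.lt_pow_self (by norm_num))]
    simp
    field_simp
    ring
  have := hG (nu hB) 0 hw Φ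
  simp only [hval, map_zero] at this
  have h2 := tendsto_nhds_unique this tendsto_const_nhds
  norm_num at h2

end Pool.Agent.H28PropT
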