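import Mathlib

set_option autoImplicit false

namespace Pool.Agent.H28PropT

open MeasureTheory Filter Topology
open scoped ENNReal

/-- the Cantor space `2^ℕ` -/
abbrev Cantor : Type := ℕ → Bool

/-- the fair coin measure on `{0,1}` -/
noncomputable def coin : Measure Bool :=
  (2⁻¹ : ℝ≥0∞) • (Measure.dirac false + Measure.dirac true)

/-- the standard product measure on the Cantor space -/
noncomputable def lam : Measure Cantor := Measure.infinitePi (fun _ : ℕ => coin)

/-- `V_m^i` -/
def V (m : ℕ) (i : Bool) : Set Cantor := {x | x m = i}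

/-- the atom of `A_n` containing the point `s` -/
def atom (n : ℕ) (s : Cantor) : Set Cantor := {x | ∀ i ≤ n, x i = s i}

/-- `φ_m(A)` -/
noncomputable def phi (m : ℕ) (A : Set Cantor) : ℝ :=
  |lam.real (A ∩ V m false) - lam.real (A ∩ V m true)|

/-- conditions (T.1) and (T.2) for the set `A`, at level `n`, for every atom of `A_n` -/
def Good (ε : ℝ) (n : ℕ) (A : Set Cantor) : Prop :=
  ∀ s : Cantor,
    (lam.real (A ∩ atom n s) ≤ ε * lam.real (atom n s) / n ∨
      lam.real (atom n s \ A) ≤ ε * lam.real (atom n s) / n) ∧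
    ∀ m : ℕ, n < m → phi m (A ∩ atom n s) ≤ ε * lam.real (atom n s) / m

/-- `B` is a subalgebra of the Borel algebra containing the clopen sets, with property (T) -/
def HasT (B : BooleanSubalgebra (Set Cantor)) : Prop :=
  (∀ A ∈ B, @MeasurableSet Cantor (borel Cantor) A) ∧
  (∀ A : Set Cantor, IsClopen A → A ∈ B) ∧
  ∀ F : Finset (Set Cantor), (∀ A ∈ F, A ∈ B) → ∀ ε : ℝ, 0 < ε →
    ∃ n : ℕ, 0 < n ∧ ∀ A ∈ F, Good ε n A

/-- the Stone space of a Boolean algebra: the homomorphisms onto the two-element algebra -/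
def Stone (A : Type) [BooleanAlgebra A] : Type :=
  {u : A → Bool // u ⊤ = true ∧ (∀ a, u aᶜ = !u a) ∧ ∀ a b, u (a ⊓ b) = (u a && u b)}

/-- the Stone topology (pointwise convergence) -/
instance stoneTop (A : Type) [BooleanAlgebra A] : TopologicalSpace (Stone A) :=
  instTopologicalSpaceSubtype

instance stoneCompact (A : Type) [BooleanAlgebra A] : CompactSpace (Stone A) := by
  have h : IsClosed ({u : A → Bool | u ⊤ = true} ∩ ((⋂ a, {u : A → Bool | u aᶜ = !u a}) ∩
      ⋂ a, ⋂ b, {u : A → Bool | u (a ⊓ b) = (u a && u b)})) := by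
    refine IsClosed.inter (isClosed_eq (continuous_apply _) continuous_const)
      (IsClosed.inter (isClosed_iInter fun a => isClosed_eq (continuous_apply _) ?_)
        (isClosed_iInter fun a => isClosed_iInter fun b => isClosed_eq (continuous_apply _) ?_))
    · exact (continuous_of_discreteTopology (f := fun t : Bool => !t)).comp (continuous_apply a)
    · have h1 : Continuous (fun u : A → Bool => (u a, u b)) :=
        (continuous_apply a).prodMk (continuous_apply b)
      have h2 : Continuous (fun t : Bool × Bool => (t.1 && t.2)) := continuous_of_discreteTopology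
      exact h2.comp h1
  have h2 : IsClosed {u : A → Bool | u ⊤ = true ∧ (∀ a, u aᶜ = !u a) ∧
      ∀ a b, u (a ⊓ b) = (u a && u b)} := by
    have e : {u : A → Bool | u ⊤ = true ∧ (∀ a, u aᶜ = !u a) ∧
      ∀ a b, u (a ⊓ b) = (u a && u b)} = ({u : A → Bool | u ⊤ = true} ∩
        ((⋂ a, {u : A → Bool | u aᶜ = !u a}) ∩
      ⋂ a, ⋂ b, {u : A → Bool | u (a ⊓ b) = (u a && u b)})) := by
      ext u; simp
    rw [e]; exact h
  exact isCompact_iff_compactSpace.mp h2.isCompact

/-- Grothendieck spaces: weak-star convergent sequences in the dual converge weakly -/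
def IsGrothendieckSpace (X : Type) [NormedAddCommGroup X] [NormedSpace ℝ X] : Prop :=
  ∀ (f : ℕ → StrongDual ℝ X) (g : StrongDual ℝ X),
    (∀ x : X, Tendsto (fun n => f n x) atTop (𝓝 (g x))) →
    ∀ Φ : StrongDual ℝ (StrongDual ℝ X), Tendsto (fun n => Φ (f n)) atTop (𝓝 (Φ g))

/-- the Grothendieck property of a Boolean algebra -/
def HasGrothendieck (A : Type) [BooleanAlgebra A] : Prop :=
  IsGrothendieckSpace C(Stone A, ℝ)

end Pool.Agent.H28PropT
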