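import Mathlib

set_option autoImplicit false

namespace H28Riesz

open MeasureTheory AddCircle Finset Filter Topology

variable {T : ℝ} [hT : Fact (0 < T)]

theorem intg {E : Type} [NormedAddCommGroup E] {f : AddCircle T → E} (hf : Continuous f)
    (μ : Measure (AddCircle T)) [IsFiniteMeasure μ] : Integrable f μ :=
  hf.integrable_of_hasCompactSupport (HasCompactSupport.of_compactSpace f)

/-- Fourier coefficient (with the sign reversed) of a real function -/
noncomputable def co (Q : AddCircle T → ℝ) (k : ℤ) : ℂ :=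
  ∫ x, fourier k x * (Q x : ℂ) ∂haarAddCircle

theorem co_zero (Q : AddCircle T → ℝ) : co Q 0 = ((∫ x, Q x ∂haarAddCircle : ℝ) : ℂ) := by
  simp only [co, fourier_zero, one_mul]
  exact integral_complex_ofReal

theorem co_dil (h : AddCircle T → ℝ) (M : ℕ) (k : ℤ) (hk : k ≠ 0) (hM : |k| < M) :
    co (fun x => h ((M : ℤ) • x)) k = 0 := by
  have hM0 : (0 : ℝ) < M := by
    have : (0 : ℤ) < M := lt_of_le_of_lt (abs_nonneg k) hM
    exact_mod_cast this
  set s : AddCircle T := ((T / M : ℝ) : AddCircle T) with hs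
  have h1 : (M : ℤ) • s = 0 := by
    rw [hs, ← AddCircle.coe_zsmul, zsmul_eq_mul, Int.cast_natCast, mul_div_cancel₀ _ hM0.ne', coe_period]
  have h2 := integral_add_right_eq_self (μ := (haarAddCircle : Measure (AddCircle T)))
    (fun x => fourier k x * (h ((M : ℤ) • x) : ℂ)) s
  have h3 : ∀ x : AddCircle T, fourier k (x + s) = fourier k s * fourier k x := fun x => by
    simp only [fourier_apply, smul_add, toCircle_add, Circle.coe_mul, mul_comm]
  simp only [smul_add, h1, add_zero, h3, mul_assoc] at h2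
  rw [integral_const_mul] at h2
  have h4 : fourier k s ≠ 1 := by
    rw [hs, fourier_coe_apply, Ne, Complex.exp_eq_one_iff]
    rintro ⟨n, hn⟩
    have hT' : (T : ℂ) ≠ 0 := by exact_mod_cast hT.out.ne'
    have hM' : (M : ℂ) ≠ 0 := by exact_mod_cast hM0.ne'
    have hpi : (Real.pi : ℂ) ≠ 0 := by exact_mod_cast Real.pi_pos.ne'
    push_cast at hn
    field_simp at hn
    have h5 : k = M * n := by exact_mod_cast hn
    rw [h5, abs_mul, abs_of_nonneg (by positivity : (0 : ℤ) ≤ M)] at hM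
    have : n ≠ 0 := by rintro rfl; simp at h5; exact hk h5
    have := Int.one_le_abs this
    have : (0 : ℤ) < M := by exact_mod_cast hM0
    nlinarith
  have h5 : (fourier k s - 1) * co (fun x => h ((M : ℤ) • x)) k = 0 := by
    unfold co; linear_combination h2
  exact (mul_eq_zero.1 h5).resolve_left (sub_ne_zero.2 h4)

theorem co_const (c : ℝ) (k : ℤ) (hk : k ≠ 0) : co (fun _ : AddCircle T => c) k = 0 :=
  co_dil (fun _ => c) (k.natAbs + 1) k hk (by push_cast; linarith)

theorem int_dil (h : AddCircle T → ℝ) (hh : Continuous h) (M : ℕ) (hM : 0 < M) :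
    ∫ x, h ((M : ℤ) • x) ∂haarAddCircle = ∫ x, h x ∂haarAddCircle := by
  have := Measure.measurePreserving_zsmul (haarAddCircle : Measure (AddCircle T)) (n := (M : ℤ))
    (by exact_mod_cast hM.ne')
  rw [← this.map_eq, integral_map this.measurable.aemeasurable hh.aestronglyMeasurable,
    this.map_eq]

theorem approx (f : AddCircle T → ℝ) (hf : Continuous f) (δ : ℝ) (hδ : 0 < δ) :
    ∃ d : ℕ, ∀ Q Q' : AddCircle T → ℝ, Continuous Q → Continuous Q' →
      ∫ x, |Q x| ∂haarAddCircle ≤ 2 → ∫ x, |Q' x| ∂haarAddCircle ≤ 2 →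
      (∀ k : ℤ, |k| ≤ d → co Q k = co Q' k) →
      |∫ x, f x * Q x ∂haarAddCircle - ∫ x, f x * Q' x ∂haarAddCircle| ≤ δ := by
  let F : C(AddCircle T, ℂ) := ⟨fun x => (f x : ℂ), by fun_prop⟩
  have hF : F ∈ closure ((Submodule.span ℂ (Set.range (@fourier T))) : Set C(AddCircle T, ℂ)) := by
    rw [← Submodule.topologicalClosure_coe, span_fourier_closure_eq_top]; trivial
  obtain ⟨p, hp, hd⟩ := Metric.mem_closure_iff.1 hF (δ / 4) (by linarith)
  have key : ∃ d : ℕ, ∀ Q Q' : AddCircle T → ℝ, Continuous Q → Continuous Q' →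
      (∀ k : ℤ, |k| ≤ d → co Q k = co Q' k) →
      ∫ x, p x * Q x ∂haarAddCircle = ∫ x, p x * Q' x ∂haarAddCircle := by
    clear hd
    induction hp using Submodule.span_induction with
    | mem p hp =>
      obtain ⟨k, rfl⟩ := hp
      exact ⟨k.natAbs, fun Q Q' _ _ h => h k (by rw [Int.natCast_natAbs])⟩
    | zero => exact ⟨0, fun _ _ _ _ _ => by simp⟩
    | add p q _ _ hp hq =>
      obtain ⟨d, hd⟩ := hp
      obtain ⟨d', hd'⟩ := hq
      refine ⟨d + d', fun Q Q' h1 h2 h => ?_⟩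
      simp only [ContinuousMap.add_apply, add_mul]
      rw [integral_add (intg (by fun_prop) _) (intg (by fun_prop) _),
        integral_add (intg (by fun_prop) _) (intg (by fun_prop) _),
        hd Q Q' h1 h2 (fun k hk => h k (by push_cast; omega)),
        hd' Q Q' h1 h2 (fun k hk => h k (by push_cast; omega))]
    | smul a p _ hp =>
      obtain ⟨d, hd⟩ := hp
      refine ⟨d, fun Q Q' h1 h2 h => ?_⟩
      simp only [ContinuousMap.smul_apply, smul_eq_mul, mul_assoc]
      rw [integral_const_mul, integral_const_mul, hd Q Q' h1 h2 h]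
  obtain ⟨d, hd2⟩ := key
  refine ⟨d, fun Q Q' h1 h2 h3 h4 h => ?_⟩
  have e : ∀ Q : AddCircle T → ℝ, Continuous Q → ∫ x, |Q x| ∂haarAddCircle ≤ 2 →
      ‖((∫ x, f x * Q x ∂haarAddCircle : ℝ) : ℂ) - ∫ x, p x * Q x ∂haarAddCircle‖ ≤ δ / 2 := by
    intro Q hQ hQ2
    rw [← integral_complex_ofReal, ← integral_sub (intg (by fun_prop) _) (intg (by fun_prop) _)]
    refine (norm_integral_le_of_norm_le (g := fun x => δ / 4 * |Q x|) (intg (by fun_prop) _)
      (Eventually.of_forall (fun x => ?_))).trans ?_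
    · push_cast
      rw [← sub_mul, norm_mul, Complex.norm_real, Real.norm_eq_abs]
      refine mul_le_mul_of_nonneg_right ?_ (abs_nonneg _)
      rw [dist_eq_norm] at hd
      exact ((F - p).norm_coe_le_norm x).trans hd.le
    · rw [integral_const_mul]; nlinarith
  have e1 := e Q h1 h3
  have e2 := e Q' h2 h4
  rw [hd2 Q Q' h1 h2 h] at e1
  have e3 := norm_sub_le_norm_sub_add_norm_sub ((∫ x, f x * Q x ∂haarAddCircle : ℝ) : ℂ)
    (∫ x, p x * Q' x ∂haarAddCircle) ((∫ x, f x * Q' x ∂haarAddCircle : ℝ) : ℂ)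
  rw [norm_sub_rev (∫ x, p x * Q' x ∂haarAddCircle), ← Complex.ofReal_sub, Complex.norm_real,
    Real.norm_eq_abs] at e3
  linarith

theorem fejer (f h : AddCircle T → ℝ) (hf : Continuous f) (hh : Continuous h) (h0 : ∀ x, 0 ≤ h x)
    (h2 : ∫ x, h x ∂haarAddCircle ≤ 2) (δ : ℝ) (hδ : 0 < δ) : ∃ d : ℕ, ∀ M : ℕ, d < M →
      ∫ x, f x * h ((M : ℤ) • x) ∂haarAddCircle ≤
        (∫ x, f x ∂haarAddCircle) * (∫ x, h x ∂haarAddCircle) + δ := by
  obtain ⟨d, hd⟩ := approx f hf δ hδ
  refine ⟨d, fun M hM => ?_⟩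
  have hI : 0 ≤ ∫ x, h x ∂haarAddCircle := integral_nonneg h0
  have := hd (fun x => h ((M : ℤ) • x)) (fun _ => ∫ x, h x ∂haarAddCircle) (by fun_prop)
    continuous_const (by
      simp only [abs_of_nonneg (h0 _)]; rw [int_dil h hh M (by omega)]; exact h2)
    (by simp [abs_of_nonneg hI, h2]) (fun k hk => by
      by_cases h1 : k = 0
      · subst h1
        rw [co_zero, co_zero, int_dil h hh M (by omega)]; simp
      · rw [co_dil h M k h1 (by omega), co_const _ k h1])
  rw [integral_mul_const] at this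
  linarith [(abs_le.1 this).2]

/-- one factor of a Riesz product -/
noncomputable def fac (l : ℕ) (c : ℂ) (x : AddCircle T) : ℝ := 1 + (c * fourier (l : ℤ) x).re

omit hT in
@[fun_prop] theorem fac_cont (l : ℕ) (c : ℂ) : Continuous (fac (T := T) l c) := by
  unfold fac; fun_prop

omit hT in
theorem fac_nonneg (l : ℕ) {c : ℂ} (hc : ‖c‖ ≤ 1) (x : AddCircle T) : 0 ≤ fac l c x := by
  have h1 := Complex.abs_re_le_norm (c * fourier (l : ℤ) x)
  rw [norm_mul, fourier_apply, Circle.norm_coe, mul_one, ← fourier_apply] at h1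
  unfold fac
  linarith [(abs_le.1 h1).1]

theorem co_fac (Q : AddCircle T → ℝ) (hQ : Continuous Q) (l : ℕ) (c : ℂ) (k : ℤ) :
    co (fun x => Q x * fac l c x) k =
      co Q k + c / 2 * co Q (k + l) + (starRingEnd ℂ) c / 2 * co Q (k - l) := by
  unfold co
  rw [← integral_const_mul, ← integral_const_mul,
    ← integral_add (intg (by fun_prop) _) (intg (by fun_prop) _),
    ← integral_add (intg (by fun_prop) _) (intg (by fun_prop) _)]
  congr 1
  funext x
  rw [sub_eq_add_neg, fourier_add, fourier_add, fourier_neg]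
  unfold fac
  push_cast
  rw [Complex.re_eq_add_conj, map_mul]
  ring

/-- partial Riesz products -/
noncomputable def P (l : ℕ → ℕ) (c : ℕ → ℂ) (N : ℕ) (x : AddCircle T) : ℝ :=
  ∏ n ∈ range N, fac (l n) (c n) x

omit hT in
@[fun_prop] theorem P_cont (l : ℕ → ℕ) (c : ℕ → ℂ) (N : ℕ) : Continuous (P (T := T) l c N) := by
  unfold P; fun_prop

omit hT in
theorem P_succ (l : ℕ → ℕ) (c : ℕ → ℂ) (N : ℕ) :
    P (T := T) l c (N + 1) = fun x => P l c N x * fac (l N) (c N) x := by
  funext x; exact prod_range_succ _ _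

theorem P_deg (l : ℕ → ℕ) (c : ℕ → ℂ) (N : ℕ) :
    ∀ k : ℤ, ((∑ n ∈ range N, l n : ℕ) : ℤ) < |k| → co (P (T := T) l c N) k = 0 := by
  induction N with
  | zero => intro k hk; exact co_const 1 k (by rintro rfl; simp at hk)
  | succ N ih =>
    intro k hk
    rw [sum_range_succ] at hk
    push_cast at hk ih
    rw [P_succ, co_fac _ (P_cont l c N), ih k (by omega), ih _ (by
      cases abs_cases k <;> cases abs_cases (k + l N) <;> omega), ih _ (by
      cases abs_cases k <;> cases abs_cases (k - l N) <;> omega)]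
    simp

theorem P_stab (l : ℕ → ℕ) (c : ℕ → ℂ) (k : ℤ) (N K : ℕ) (hNK : N ≤ K)
    (h : ∀ n, N ≤ n → ((∑ i ∈ range n, l i : ℕ) : ℤ) + |k| < l n) :
    co (P (T := T) l c K) k = co (P (T := T) l c N) k := by
  induction K, hNK using Nat.le_induction with
  | base => rfl
  | succ K hK ih =>
    have := h K hK
    rw [P_succ, co_fac _ (P_cont l c K), ih, P_deg l c K _ (by
      cases abs_cases k <;> cases abs_cases (k + l K) <;> omega), P_deg l c K _ (by
      cases abs_cases k <;> cases abs_cases (k - l K) <;> omega)]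
    simp

omit hT in
theorem P_nonneg (l : ℕ → ℕ) {c : ℕ → ℂ} (hc : ∀ n, ‖c n‖ ≤ 1) (N : ℕ) (x : AddCircle T) :
    0 ≤ P l c N x := prod_nonneg (fun n _ => fac_nonneg _ (hc n) x)

theorem P_mass (l : ℕ → ℕ) (c : ℕ → ℂ) (h : ∀ n, ∑ i ∈ range n, l i < l n) (N : ℕ) :
    ∫ x, P (T := T) l c N x ∂haarAddCircle = 1 := by
  have h1 := P_stab (T := T) l c 0 0 N (Nat.zero_le N) (fun n _ => by
    simp only [abs_zero, add_zero]; exact_mod_cast h n)
  rw [co_zero, co_zero] at h1
  have h2 : ∫ x, P (T := T) l c 0 x ∂haarAddCircle = 1 := by simp [P]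
  rw [h2] at h1
  exact_mod_cast h1

theorem P_close (l : ℕ → ℕ) {c : ℕ → ℂ} (hc : ∀ n, ‖c n‖ ≤ 1) (h : ∀ n, ∑ i ∈ range n, l i < l n)
    (f : AddCircle T → ℝ) (δ : ℝ) (d N : ℕ)
    (hd : ∀ Q Q' : AddCircle T → ℝ, Continuous Q → Continuous Q' →
      ∫ x, |Q x| ∂haarAddCircle ≤ 2 → ∫ x, |Q' x| ∂haarAddCircle ≤ 2 →
      (∀ k : ℤ, |k| ≤ d → co Q k = co Q' k) →
      |∫ x, f x * Q x ∂haarAddCircle - ∫ x, f x * Q' x ∂haarAddCircle| ≤ δ)
    (hN : ∀ n, N ≤ n → ∑ i ∈ range n, l i + d < l n) (K : ℕ) (hK : N ≤ K) :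
    |∫ x, f x * P l c K x ∂haarAddCircle - ∫ x, f x * P l c N x ∂haarAddCircle| ≤ δ := by
  have hm : ∀ n, ∫ x, |P (T := T) l c n x| ∂haarAddCircle ≤ 2 := fun n => by
    simp only [abs_of_nonneg (P_nonneg l hc n _)]; rw [P_mass l c h]; norm_num
  refine hd _ _ (P_cont l c K) (P_cont l c N) (hm K) (hm N) (fun k hk => P_stab l c k N K hK
    (fun n hn => ?_))
  have := hN n hn
  omega

theorem exists_riesz (l : ℕ → ℕ) {c : ℕ → ℂ} (hc : ∀ n, ‖c n‖ ≤ 1)
    (h : ∀ n, ∑ i ∈ range n, l i < l n)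
    (hg : ∀ d, ∃ N, ∀ n, N ≤ n → ∑ i ∈ range n, l i + d < l n) :
    ∃ μ : Measure (AddCircle T), IsProbabilityMeasure μ ∧ ∀ f : AddCircle T → ℝ, Continuous f →
      Tendsto (fun N => ∫ x, f x * P l c N x ∂haarAddCircle) atTop (𝓝 (∫ x, f x ∂μ)) := by
  have hint : ∀ N (f : AddCircle T → ℝ), ∫ x, f x ∂(haarAddCircle.withDensity
      (fun x => ENNReal.ofReal (P l c N x))) = ∫ x, f x * P l c N x ∂haarAddCircle := fun N f => by
    rw [integral_withDensity_eq_integral_toReal_smul (P_cont l c N).measurable.ennreal_ofReal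
      (Eventually.of_forall (fun _ => ENNReal.ofReal_lt_top))]
    simp only [ENNReal.toReal_ofReal (P_nonneg l hc N _), smul_eq_mul, mul_comm]
  have hp : ∀ N, IsProbabilityMeasure ((haarAddCircle : Measure (AddCircle T)).withDensity
      (fun x => ENNReal.ofReal (P l c N x))) := fun N => ⟨by
    rw [withDensity_apply _ MeasurableSet.univ, Measure.restrict_univ,
      ← ofReal_integral_eq_lintegral_ofReal (intg (P_cont l c N) _)
        (Eventually.of_forall (P_nonneg l hc N)), P_mass l c h, ENNReal.ofReal_one]⟩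
  let ν : ℕ → ProbabilityMeasure (AddCircle T) := fun N => ⟨_, hp N⟩
  obtain ⟨μ, hμ⟩ := exists_clusterPt_of_compactSpace (Filter.map ν atTop)
  refine ⟨μ, inferInstance, fun f hf => ?_⟩
  have hcau : CauchySeq (fun N => ∫ x, f x * P l c N x ∂haarAddCircle) := by
    rw [Metric.cauchySeq_iff']
    intro ε hε
    obtain ⟨d, hd⟩ := approx f hf (ε / 2) (by linarith)
    obtain ⟨N, hN⟩ := hg d
    refine ⟨N, fun K hK => ?_⟩
    rw [Real.dist_eq]
    linarith [P_close l hc h f _ d N hd hN K hK]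
  obtain ⟨L, hL⟩ := cauchySeq_tendsto_of_complete hcau
  have hcont := ProbabilityMeasure.continuous_integral_continuousMap
    (⟨f, hf⟩ : C(AddCircle T, ℝ))
  have h1 : MapClusterPt (∫ x, f x ∂(μ : Measure (AddCircle T))) atTop
      (fun N => ∫ x, f x * P l c N x ∂haarAddCircle) := by
    have := (show MapClusterPt μ atTop ν from hμ).continuousAt_comp hcont.continuousAt
    have e : (fun N => ∫ x, f x * P l c N x ∂haarAddCircle) =
        (fun μ : ProbabilityMeasure (AddCircle T) => ∫ x, (⟨f, hf⟩ : C(AddCircle T, ℝ)) x ∂μ) ∘ ν :=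
      funext (fun N => (hint N f).symm)
    rw [e]; exact this
  have h2 : ∫ x, f x ∂(μ : Measure (AddCircle T)) = L :=
    eq_of_nhds_neBot (ClusterPt.mono h1 hL).neBot
  rw [h2]; exact hL

omit hT in
theorem ac_of (μ ν : Measure (AddCircle T)) [IsProbabilityMeasure μ] [IsProbabilityMeasure ν]
    (C : ℝ) (h : ∀ f : AddCircle T → ℝ, Continuous f → (∀ x, 0 ≤ f x ∧ f x ≤ 1) → ∀ t : ℝ, 0 < t →
      ∫ x, f x ∂μ ≤ t * C + (∫ x, f x ∂ν) / t) : μ ≪ ν := by
  refine Measure.AbsolutelyContinuous.mk (fun S hS h0 => ?_)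
  by_contra hne
  obtain ⟨K, hKS, hK, hpos⟩ := hS.exists_lt_isClosed_of_ne_top (measure_ne_top μ S)
    (pos_iff_ne_zero.2 hne)
  have h1 : ν.real K = 0 := by simp [Measure.real, measure_mono_null hKS h0]
  have h2 : 0 < μ.real K := ENNReal.toReal_pos hpos.ne' (measure_ne_top μ K)
  have h3 : ∀ t : ℝ, 0 < t → μ.real K ≤ t * C := fun t ht => by
    have e1 := tendsto_integral_thickenedIndicator_of_isClosed μ hK
      (δs := fun n => (1 : ℝ) / (n + 1)) (fun _ => by positivity)
      tendsto_one_div_add_atTop_nhds_zero_nat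
    have e2 := ((tendsto_integral_thickenedIndicator_of_isClosed ν hK
      (δs := fun n => (1 : ℝ) / (n + 1)) (fun _ => by positivity)
      tendsto_one_div_add_atTop_nhds_zero_nat).div_const t).const_add (t * C)
    rw [h1, zero_div, add_zero] at e2
    refine le_of_tendsto_of_tendsto' e1 e2 (fun n => h _ (by fun_prop) (fun x => ⟨by positivity, ?_⟩)
      t ht)
    exact_mod_cast thickenedIndicator_le_one _ K x
  have h4 := h3 (μ.real K / (2 * (|C| + 1))) (by positivity)
  rw [div_mul_eq_mul_div, le_div_iff₀ (by positivity)] at h4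
  nlinarith [le_abs_self C, abs_nonneg C]

theorem not_ac (μ ν : Measure (AddCircle T)) [IsProbabilityMeasure μ] [IsProbabilityMeasure ν]
    (h : ∀ η : ℝ, 0 < η → ∃ f : AddCircle T → ℝ, Continuous f ∧ (∀ x, 0 ≤ f x ∧ f x ≤ 1) ∧
      1 - η ≤ ∫ x, f x ∂μ ∧ ∫ x, f x ∂ν ≤ η) : ¬ μ ≪ ν := by
  intro hac
  have := Measure.haveLebesgueDecomposition_of_finiteMeasure (μ := μ) (ν := ν)
  obtain ⟨δ, hδ, h1⟩ := exists_pos_setLIntegral_lt_of_measure_lt (μ := ν) (f := μ.rnDeriv ν)
    (Measure.lintegral_rnDeriv_lt_top μ ν).ne (ε := ENNReal.ofReal (1 / 4)) (by simp)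
  simp only [Measure.setLIntegral_rnDeriv hac] at h1
  obtain ⟨r, -, hr0, hr⟩ := ENNReal.lt_iff_exists_real_btwn.1 hδ
  have hr1 : 0 < r := by simpa using hr0
  obtain ⟨f, hf, hf01, h2, h3⟩ := h (min (r / 4) (1 / 8)) (lt_min (by linarith) (by norm_num))
  have hA : MeasurableSet {x | 1 / 2 ≤ f x} := measurableSet_le measurable_const hf.measurable
  have e1 := mul_meas_ge_le_integral_of_nonneg (μ := ν)
    (Eventually.of_forall (fun x => (hf01 x).1)) (intg hf ν) (1 / 2)
  have e2 : ν {x | 1 / 2 ≤ f x} < δ := by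
    refine lt_of_le_of_lt ?_ hr
    rw [← ENNReal.ofReal_toReal (measure_ne_top ν _)]
    apply ENNReal.ofReal_le_ofReal
    have := min_le_left (r / 4) (1 / 8)
    simp only [Measure.real] at e1
    linarith
  have e3 : μ.real {x | 1 / 2 ≤ f x} ≤ 1 / 4 :=
    ENNReal.toReal_le_of_le_ofReal (by norm_num) (h1 _ e2).le
  have e4 : ∫ x, f x ∂μ ≤ ∫ x, (1 / 2 + {x | 1 / 2 ≤ f x}.indicator 1 x) ∂μ := by
    refine integral_mono (intg hf μ) ((integrable_const _).add
      ((integrable_const _).indicator hA)) (fun x => ?_)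
    by_cases hx : 1 / 2 ≤ f x
    · simp only [Set.indicator_of_mem (show x ∈ {x | 1 / 2 ≤ f x} from hx), Pi.one_apply]
      linarith [(hf01 x).2]
    · simp only [Set.indicator_of_notMem (show x ∉ {x | 1 / 2 ≤ f x} from hx)]
      linarith [not_le.1 hx]
  rw [integral_add (integrable_const _) ((integrable_const _).indicator hA),
    integral_indicator_one hA] at e4
  simp only [integral_const, probReal_univ, smul_eq_mul, one_mul] at e4
  have := min_le_right (r / 4) (1 / 8)
  linarith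

theorem rec_exists (Q : ℕ → (ℕ → ℕ) → ℕ → Prop) (hQ : ∀ j M, ∃ m, Q j M m)
    (hc : ∀ j M M' m, (∀ i, i < j → M i = M' i) → Q j M m → Q j M' m) :
    ∃ M : ℕ → ℕ, ∀ j, Q j M (M j) := by
  choose g hg using hQ
  let A : ℕ → ℕ → ℕ := fun j => Nat.rec (fun _ => 0) (fun j M => Function.update M j (g j M)) j
  have hA : ∀ j, A (j + 1) = Function.update (A j) j (g j (A j)) := fun j => rfl
  have h1 : ∀ j i, i < j → A j i = A (i + 1) i := fun j => by
    induction j with
    | zero => intro i hi; omega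
    | succ j ih =>
      intro i hi
      by_cases h : i = j
      · rw [h]
      · rw [hA, Function.update_of_ne h, ih i (by omega)]
  refine ⟨fun i => A (i + 1) i, fun j => hc j (A j) _ _ (h1 j) ?_⟩
  simp only [hA, Function.update_self]
  exact hg j _

end H28Riesz
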