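import Pool.Agent.Lib.helper28.RieszA

set_option autoImplicit false

namespace H28Riesz

open MeasureTheory AddCircle Finset Filter Topology

instance fact2pi : Fact (0 < 2 * Real.pi) := ⟨Real.two_pi_pos⟩

noncomputable abbrev TT := AddCircle (2 * Real.pi)

noncomputable def cs (x : TT) : ℝ := (fourier 1 x).re

@[fun_prop] theorem cs_cont : Continuous cs := by unfold cs; fun_prop

theorem cs_coe (t : ℝ) : cs (t : TT) = Real.cos t := by
  have hpi : (Real.pi : ℂ) ≠ 0 := by exact_mod_cast Real.pi_pos.ne'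
  rw [cs, fourier_coe_apply, ← Complex.exp_ofReal_mul_I_re]
  congr 2
  push_cast
  field_simp

theorem cs_bd (x : TT) : -1 ≤ cs x ∧ cs x ≤ 1 := by
  induction x using QuotientAddGroup.induction_on with
  | H t => rw [cs_coe]; exact ⟨Real.neg_one_le_cos t, Real.cos_le_one t⟩

theorem fac1 (r : ℝ) (x : TT) : fac 1 (r : ℂ) x = 1 + r * cs x := by
  simp [fac, cs]

theorem fac3 (r : ℝ) (x : TT) : fac 3 (r : ℂ) x = 1 + r * (4 * cs x ^ 3 - 3 * cs x) := by
  induction x using QuotientAddGroup.induction_on with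
  | H t =>
    have h : fourier ((3 : ℕ) : ℤ) (t : TT) = fourier 1 ((3 * t : ℝ) : TT) := by
      rw [fourier_coe_apply, fourier_coe_apply]; congr 1; push_cast; ring
    rw [fac, h, Complex.re_ofReal_mul, ← cs, cs_coe, cs_coe, Real.cos_three_mul]

theorem block_mass (c c' : ℂ) : ∫ x : TT, fac 1 c x * fac 3 c' x ∂haarAddCircle = 1 := by
  have := P_mass (T := 2 * Real.pi) (fun n => 3 ^ n) (fun n => if n = 0 then c else c')
    (fun n => Nat.geomSum_lt (by norm_num) (fun k hk => by simpa using hk)) 2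
  simpa [P, prod_range_succ] using this

noncomputable def ga (e : ℝ) (x : TT) : ℝ := fac 1 ((-(1 - e ^ 2) : ℝ) : ℂ) x
noncomputable def gb (e : ℝ) (x : TT) : ℝ := fac 1 ((-(1 - 2 * e ^ 2) : ℝ) : ℂ) x
noncomputable def wm (e : ℝ) (x : TT) : ℝ := fac 3 ((-(1 - e ^ 2) : ℝ) : ℂ) x
noncomputable def wp (e : ℝ) (x : TT) : ℝ := fac 3 ((1 - e ^ 2 : ℝ) : ℂ) x

@[fun_prop] theorem ga_cont (e : ℝ) : Continuous (ga e) := fac_cont _ _
@[fun_prop] theorem gb_cont (e : ℝ) : Continuous (gb e) := fac_cont _ _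
@[fun_prop] theorem wm_cont (e : ℝ) : Continuous (wm e) := fac_cont _ _
@[fun_prop] theorem wp_cont (e : ℝ) : Continuous (wp e) := fac_cont _ _

variable {e : ℝ} (he : 0 < e) (he' : e ≤ 1 / 4)
include he he'

omit he he' in
theorem pos_aux {r c : ℝ} (h0 : -1 < r) (h1 : r < 1) (hc : -1 ≤ c ∧ c ≤ 1) : 0 < 1 + r * c := by
  rcases le_total 0 r with h | h <;> nlinarith [hc.1, hc.2]

theorem ga_pos (x : TT) : 0 < ga e x := by
  rw [ga, fac1]; exact pos_aux (by nlinarith) (by nlinarith) (cs_bd x)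

theorem gb_pos (x : TT) : 0 < gb e x := by
  rw [gb, fac1]; exact pos_aux (by nlinarith) (by nlinarith) (cs_bd x)

omit he he' in
theorem c3_bd (x : TT) : -1 ≤ 4 * cs x ^ 3 - 3 * cs x ∧ 4 * cs x ^ 3 - 3 * cs x ≤ 1 := by
  have h := cs_bd x
  constructor
  · nlinarith [mul_nonneg (by linarith [h.1] : 0 ≤ cs x + 1) (sq_nonneg (2 * cs x - 1))]
  · nlinarith [mul_nonneg (by linarith [h.2] : 0 ≤ 1 - cs x) (sq_nonneg (2 * cs x + 1))]

theorem wm_pos (x : TT) : 0 < wm e x := by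
  rw [wm, fac3]; exact pos_aux (by nlinarith) (by nlinarith) (c3_bd x)

theorem wp_pos (x : TT) : 0 < wp e x := by
  rw [wp, fac3]; exact pos_aux (by nlinarith) (by nlinarith) (c3_bd x)

theorem wm_le (x : TT) : wm e x ≤ 18 * gb e x := by
  have h := cs_bd x
  rw [wm, gb, fac3, fac1]
  have h1 : 1 - (4 * cs x ^ 3 - 3 * cs x) ≤ 9 * (1 - cs x) := by
    have : (2 * cs x + 1) ^ 2 ≤ 9 := by nlinarith [h.1, h.2]
    nlinarith [mul_le_mul_of_nonneg_left this (by linarith [h.2] : 0 ≤ 1 - cs x)]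
  have h2 : e ^ 2 ≤ 1 / 16 := by nlinarith
  have h3 := (c3_bd x).2
  have h4 : (1 - e ^ 2) * (1 - (4 * cs x ^ 3 - 3 * cs x)) ≤ 1 * (9 * (1 - cs x)) :=
    mul_le_mul (by nlinarith) h1 (by linarith) (by norm_num)
  have h5 : 1 / 2 * (1 - cs x) ≤ (1 - 2 * e ^ 2) * (1 - cs x) :=
    mul_le_mul_of_nonneg_right (by linarith) (by linarith [h.2])
  nlinarith [sq_nonneg e]

noncomputable def h1 (e : ℝ) (x : TT) : ℝ := (ga e x * wm e x) ^ 2 / (gb e x * wm e x)
noncomputable def h2 (e : ℝ) (x : TT) : ℝ := wp e x * Real.sqrt (ga e x * gb e x)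

theorem h1_cont : Continuous (h1 e) := by
  unfold h1
  exact Continuous.div (by fun_prop) (by fun_prop)
    (fun x => (mul_pos (gb_pos he he' x) (wm_pos he he' x)).ne')

omit he he' in
theorem h2_cont : Continuous (h2 e) := by unfold h2; fun_prop

theorem h1_pos (x : TT) : 0 < h1 e x := by
  have := ga_pos he he' x; have := gb_pos he he' x; have := wm_pos he he' x
  unfold h1; positivity

theorem h2_pos (x : TT) : 0 < h2 e x := by
  have := ga_pos he he' x; have := gb_pos he he' x; have := wp_pos he he' x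
  unfold h2; positivity

theorem h1_int : ∫ x, h1 e x ∂haarAddCircle ≤ 1 + 18 * e ^ 4 := by
  have h : ∫ x, h1 e x ∂haarAddCircle ≤
      ∫ x, (18 * e ^ 4 + 2 * (ga e x * wm e x) - gb e x * wm e x) ∂haarAddCircle := by
    refine integral_mono (intg (h1_cont he he') _) (intg (by fun_prop) _) (fun x => ?_)
    have a1 := gb_pos he he' x
    have a2 := wm_pos he he' x
    have a3 := wm_le he he' x
    have a4 : (ga e x - gb e x) ^ 2 ≤ e ^ 4 := by
      have : ga e x - gb e x = -(e ^ 2 * cs x) := by rw [ga, gb, fac1, fac1]; ring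
      rw [this]
      have : cs x ^ 2 ≤ 1 := by nlinarith [cs_bd x]
      nlinarith [mul_le_mul_of_nonneg_left this (by positivity : 0 ≤ e ^ 4)]
    simp only [h1]
    rw [div_le_iff₀ (mul_pos a1 a2)]
    have a5 : wm e x * (ga e x - gb e x) ^ 2 ≤ 18 * gb e x * e ^ 4 :=
      mul_le_mul a3 a4 (sq_nonneg _) (by linarith)
    nlinarith [mul_le_mul_of_nonneg_left a5 a2.le]
  rw [integral_sub (intg (by fun_prop) _) (intg (by fun_prop) _),
    integral_add (intg (by fun_prop) _) (intg (by fun_prop) _), integral_const_mul 2] at h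
  simp only [ga, gb, wm, block_mass, integral_const, probReal_univ, smul_eq_mul] at h
  linarith

theorem h2_int : ∫ x, h2 e x ∂haarAddCircle ≤ 1 - e ^ 3 / 700 := by
  set D : TT → ℝ := fun x => (ga e x * wp e x + gb e x * wp e x) / 2 - h2 e x with hD
  have hDc : Continuous D := by have := h2_cont (e := e); simp only [hD]; fun_prop
  have hD0 : ∀ x, 0 ≤ D x := fun x => by
    have a1 := ga_pos he he' x
    have a2 := gb_pos he he' x
    have a3 := wp_pos he he' x
    have : Real.sqrt (ga e x * gb e x) ≤ (ga e x + gb e x) / 2 :=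
      Real.sqrt_le_iff.2 ⟨by positivity, by nlinarith [sq_nonneg (ga e x - gb e x)]⟩
    simp only [hD, h2]
    nlinarith
  have hD1 : ∀ t ∈ Set.Icc 0 e, e ^ 2 / 96 ≤ D (t : TT) := fun t ht => by
    have c1 : 1 - e ^ 2 / 2 ≤ Real.cos t := by
      have := Real.one_sub_sq_div_two_le_cos (x := t)
      nlinarith [ht.1, ht.2]
    have c2 := Real.cos_le_one t
    have h2' : e ^ 2 ≤ 1 / 16 := by nlinarith
    have a1 := ga_pos he he' (t : TT)
    have a2 := gb_pos he he' (t : TT)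
    have a3 : 1 ≤ wp e (t : TT) := by
      rw [wp, fac3, cs_coe]
      have : 0 ≤ 4 * Real.cos t ^ 3 - 3 * Real.cos t := by
        have : 0 ≤ 4 * Real.cos t ^ 2 - 3 := by nlinarith
        nlinarith
      nlinarith
    have a4 : e ^ 2 / 2 ≤ gb e (t : TT) - ga e (t : TT) := by
      rw [ga, gb, fac1, fac1, cs_coe]; nlinarith [sq_nonneg e]
    have a5 : ga e (t : TT) + gb e (t : TT) ≤ 6 * e ^ 2 := by
      rw [ga, gb, fac1, fac1, cs_coe]; nlinarith [sq_nonneg e]
    have a6 : Real.sqrt (ga e (t : TT) * gb e (t : TT)) ≤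
        (ga e (t : TT) + gb e (t : TT)) / 2 - e ^ 2 / 96 := by
      refine Real.sqrt_le_iff.2 ⟨by nlinarith [sq_nonneg e], ?_⟩
      have b1 := pow_le_pow_left₀ (by positivity) a4 2
      have b2 := mul_le_mul_of_nonneg_left a5 (sq_nonneg e)
      nlinarith [sq_nonneg (e ^ 2)]
    simp only [hD, h2]
    nlinarith [sq_nonneg e]
  have hpi := Real.pi_pos
  have i1 : ∫ x, D x ∂haarAddCircle = 1 - ∫ x, h2 e x ∂haarAddCircle := by
    simp only [hD]
    rw [integral_sub (intg (by fun_prop) _) (intg h2_cont _), integral_div,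
      integral_add (intg (by fun_prop) _) (intg (by fun_prop) _)]
    simp only [ga, gb, wp, block_mass]
    norm_num
  have hc : Continuous (fun t : ℝ => D (t : TT)) := hDc.comp (AddCircle.continuous_mk' _)
  have i2 : e * (e ^ 2 / 96) ≤ ∫ t in (0 : ℝ)..e, D (t : TT) := by
    have := intervalIntegral.integral_mono_on he.le (μ := volume)
      (continuous_const.intervalIntegrable 0 e) (hc.intervalIntegrable 0 e) hD1
    simpa [mul_div_assoc] using this
  have i3 : ∫ t in (0 : ℝ)..e, D (t : TT) ≤ ∫ t in (0 : ℝ)..0 + 2 * Real.pi, D (t : TT) :=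
    intervalIntegral.integral_mono_interval le_rfl he.le (by linarith [Real.pi_gt_three])
      (Eventually.of_forall (fun t => hD0 _)) (hc.intervalIntegrable _ _)
  rw [AddCircle.intervalIntegral_preimage] at i3
  rw [integral_haarAddCircle, smul_eq_mul] at i1
  have i4 : e ^ 3 / 700 ≤ (2 * Real.pi)⁻¹ * ∫ t, D t := by
    rw [← div_eq_inv_mul, le_div_iff₀ (by positivity)]
    have : 0 < e ^ 3 := by positivity
    nlinarith [Real.pi_lt_d2]
  linarith

omit he he'

noncomputable def eps (j : ℕ) : ℝ := ((j : ℝ) + 1) ^ (-(1 / 3) : ℝ) / 4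

theorem eps_pos (j : ℕ) : 0 < eps j := by unfold eps; positivity

theorem eps_le (j : ℕ) : eps j ≤ 1 / 4 := by
  unfold eps
  have := Real.rpow_le_one_of_one_le_of_nonpos (x := (j : ℝ) + 1) (z := -(1 / 3))
    (by linarith [Nat.cast_nonneg (α := ℝ) j]) (by norm_num)
  linarith

theorem eps_three (j : ℕ) : eps j ^ 3 = 1 / ((j : ℝ) + 1) / 64 := by
  unfold eps
  rw [div_pow, ← Real.rpow_natCast, ← Real.rpow_mul (by positivity)]
  norm_num [Real.rpow_neg_one]

theorem eps_four : Summable (fun j => eps j ^ 4) := by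
  have h := (summable_nat_add_iff 1).2 (Real.summable_nat_rpow.2 (by norm_num : (-(4 / 3) : ℝ) < -1))
  refine (h.div_const 256).congr (fun j => ?_)
  unfold eps
  rw [div_pow, ← Real.rpow_natCast, ← Real.rpow_mul (by positivity)]
  norm_num

/-- products of dilated blocks -/
noncomputable def PP (H : ℕ → TT → ℝ) (M : ℕ → ℕ) (j : ℕ) (x : TT) : ℝ :=
  ∏ i ∈ range j, H i ((M i : ℤ) • x)

theorem PP_cont {H : ℕ → TT → ℝ} (hH : ∀ i, Continuous (H i)) (M : ℕ → ℕ) (j : ℕ) :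
    Continuous (PP H M j) := by unfold PP; fun_prop

theorem PP_pos {H : ℕ → TT → ℝ} (hH : ∀ i x, 0 < H i x) (M : ℕ → ℕ) (j : ℕ) (x : TT) :
    0 < PP H M j x := prod_pos (fun i _ => hH i _)

theorem PP_congr (H : ℕ → TT → ℝ) {M M' : ℕ → ℕ} {j : ℕ} (h : ∀ i, i < j → M i = M' i) :
    PP H M j = PP H M' j := by
  funext x; exact prod_congr rfl (fun i hi => by rw [h i (mem_range.1 hi)])

theorem int_pos {f : TT → ℝ} (hf : Continuous f) (h : ∀ x, 0 < f x) :
    0 < ∫ x, f x ∂haarAddCircle :=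
  hf.integral_pos_of_hasCompactSupport_nonneg_nonzero (HasCompactSupport.of_compactSpace f)
    (fun x => (h x).le) (h 0).ne'

noncomputable def Fa (i : ℕ) (x : TT) : ℝ := ga (eps i) x * wp (eps i) x
noncomputable def Fb (i : ℕ) (x : TT) : ℝ := gb (eps i) x * wp (eps i) x
noncomputable def tf (M : ℕ → ℕ) (j : ℕ) (x : TT) : ℝ := PP Fa M j x / (PP Fa M j x + PP Fb M j x)

theorem Fa_pos (i : ℕ) (x : TT) : 0 < Fa i x :=
  mul_pos (ga_pos (eps_pos i) (eps_le i) x) (wp_pos (eps_pos i) (eps_le i) x)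
theorem Fb_pos (i : ℕ) (x : TT) : 0 < Fb i x :=
  mul_pos (gb_pos (eps_pos i) (eps_le i) x) (wp_pos (eps_pos i) (eps_le i) x)
theorem Fa_cont (i : ℕ) : Continuous (Fa i) := by unfold Fa; fun_prop
theorem Fb_cont (i : ℕ) : Continuous (Fb i) := by unfold Fb; fun_prop

theorem tf_cont (M : ℕ → ℕ) (j : ℕ) : Continuous (tf M j) :=
  (PP_cont Fa_cont M j).div ((PP_cont Fa_cont M j).add (PP_cont Fb_cont M j))
    (fun x => (add_pos (PP_pos Fa_pos M j x) (PP_pos Fb_pos M j x)).ne')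

theorem exists_M : ∃ M : ℕ → ℕ, ∀ j, 9 * ∑ i ∈ range j, M i + 2 * j < M j ∧
    ∫ x, PP (fun i => h1 (eps i)) M (j + 1) x ∂haarAddCircle ≤
      (∫ x, PP (fun i => h1 (eps i)) M j x ∂haarAddCircle) * (1 + 19 * eps j ^ 4) ∧
    ∫ x, PP (fun i => h2 (eps i)) M (j + 1) x ∂haarAddCircle ≤
      (∫ x, PP (fun i => h2 (eps i)) M j x ∂haarAddCircle) * (1 - eps j ^ 3 / 800) ∧
    ∃ d : ℕ, 2 * d < M j ∧ ∀ Q Q' : TT → ℝ, Continuous Q → Continuous Q' →
      ∫ x, |Q x| ∂haarAddCircle ≤ 2 → ∫ x, |Q' x| ∂haarAddCircle ≤ 2 →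
      (∀ k : ℤ, |k| ≤ d → co Q k = co Q' k) →
      |∫ x, tf M j x * Q x ∂haarAddCircle - ∫ x, tf M j x * Q' x ∂haarAddCircle|
        ≤ 1 / ((j : ℝ) + 1) := by
  obtain ⟨M, hM⟩ := rec_exists (fun j M m => 9 * ∑ i ∈ range j, M i + 2 * j < m ∧
    ∫ x, PP (fun i => h1 (eps i)) M j x * h1 (eps j) ((m : ℤ) • x) ∂haarAddCircle ≤
      (∫ x, PP (fun i => h1 (eps i)) M j x ∂haarAddCircle) * (1 + 19 * eps j ^ 4) ∧
    ∫ x, PP (fun i => h2 (eps i)) M j x * h2 (eps j) ((m : ℤ) • x) ∂haarAddCircle ≤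
      (∫ x, PP (fun i => h2 (eps i)) M j x ∂haarAddCircle) * (1 - eps j ^ 3 / 800) ∧
    ∃ d : ℕ, 2 * d < m ∧ ∀ Q Q' : TT → ℝ, Continuous Q → Continuous Q' →
      ∫ x, |Q x| ∂haarAddCircle ≤ 2 → ∫ x, |Q' x| ∂haarAddCircle ≤ 2 →
      (∀ k : ℤ, |k| ≤ d → co Q k = co Q' k) →
      |∫ x, tf M j x * Q x ∂haarAddCircle - ∫ x, tf M j x * Q' x ∂haarAddCircle|
        ≤ 1 / ((j : ℝ) + 1)) (fun j M => by
      have e0 := eps_pos j
      have e1 := eps_le j
      have c1 := PP_cont (H := fun i => h1 (eps i)) (fun i => h1_cont (eps_pos i) (eps_le i)) M j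
      have c2 := PP_cont (H := fun i => h2 (eps i)) (fun i => h2_cont) M j
      have p1 := int_pos c1 (PP_pos (fun i => h1_pos (eps_pos i) (eps_le i)) M j)
      have p2 := int_pos c2 (PP_pos (fun i => h2_pos (eps_pos i) (eps_le i)) M j)
      have i1 := h1_int e0 e1
      have i2 := h2_int e0 e1
      have e4 : eps j ^ 4 ≤ (1 / 4) ^ 4 := pow_le_pow_left₀ e0.le e1 4
      have e3 : 0 < eps j ^ 3 := by positivity
      obtain ⟨d1, hd1⟩ := fejer _ _ c1 (h1_cont e0 e1) (fun x => (h1_pos e0 e1 x).le)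
        (by linarith) _ (mul_pos p1 (by positivity : 0 < eps j ^ 4))
      obtain ⟨d2, hd2⟩ := fejer _ _ c2 h2_cont (fun x => (h2_pos e0 e1 x).le)
        (by linarith) _ (mul_pos p2 (by positivity : 0 < eps j ^ 3 / 5600))
      obtain ⟨d, hd⟩ := approx _ (tf_cont M j) (1 / ((j : ℝ) + 1)) (by positivity)
      refine ⟨9 * ∑ i ∈ range j, M i + 2 * j + d1 + d2 + 2 * d + 1, by omega,
        (hd1 _ (by omega)).trans ?_, (hd2 _ (by omega)).trans ?_, d, by omega, hd⟩
      · nlinarith [mul_le_mul_of_nonneg_left i1 p1.le]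
      · nlinarith [mul_le_mul_of_nonneg_left i2 p2.le])
    (fun j M M' m h hQ => by
      have e1 : ∑ i ∈ range j, M i = ∑ i ∈ range j, M' i :=
        sum_congr rfl (fun i hi => h i (mem_range.1 hi))
      have e2 : tf M j = tf M' j := by
        funext x; unfold tf; rw [PP_congr Fa h, PP_congr Fb h]
      rwa [e1, e2, PP_congr _ h, PP_congr (fun i => h2 (eps i)) h] at hQ)
  refine ⟨M, fun j => ?_⟩
  simpa only [PP, prod_range_succ] using hM j

end H28Riesz
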