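import Mathlib

set_option autoImplicit false

namespace H28Ritt

open Finset

/-- Fubini for a mixture of probability vectors tested against a bounded function. -/
theorem mix {A : Type} (a : A → ℝ) (ha : ∀ j, 0 ≤ a j) (hs : Summable a)
    (q : A → ℤ → ℝ) (hq : ∀ j m, 0 ≤ q j m) (hq1 : ∀ j, HasSum (q j) 1)
    (g : ℤ → ℂ) (B : ℝ) (hg : ∀ m, ‖g m‖ ≤ B) (G : A → ℂ)
    (hG : ∀ j, HasSum (fun m => (q j m : ℂ) * g m) (G j)) :
    HasSum (fun m => ((∑' j, a j * q j m : ℝ) : ℂ) * g m) (∑' j, (a j : ℂ) * G j) := by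
  have hf : Summable (fun x : A × ℤ => a x.1 * q x.1 x.2) := by
    rw [summable_prod_of_nonneg (fun x => mul_nonneg (ha _) (hq _ _))]
    refine ⟨fun j => (hq1 j).summable.mul_left (a j), ?_⟩
    have : (fun j => ∑' m, a j * q j m) = a := by
      funext j
      rw [((hq1 j).mul_left (a j)).tsum_eq, mul_one]
    simpa [this] using hs
  have hh : Summable (fun x : A × ℤ => ((a x.1 * q x.1 x.2 : ℝ) : ℂ) * g x.2) := by
    refine Summable.of_norm_bounded (hf.mul_right B) (fun x => ?_)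
    rw [norm_mul, Complex.norm_real, Real.norm_of_nonneg (mul_nonneg (ha _) (hq _ _))]
    exact mul_le_mul_of_nonneg_left (hg _) (mul_nonneg (ha _) (hq _ _))
  have h1 : HasSum (fun j => (a j : ℂ) * G j)
      (∑' x : A × ℤ, ((a x.1 * q x.1 x.2 : ℝ) : ℂ) * g x.2) := by
    refine hh.hasSum.prod_fiberwise (fun j => ?_)
    have := (hG j).mul_left (a j : ℂ)
    simpa [mul_assoc] using this
  rw [h1.tsum_eq]
  have h2 := (Equiv.prodComm ℤ A).hasSum_iff.2 hh.hasSum
  refine h2.prod_fiberwise (fun m => ?_)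
  have hm : Summable (fun j => a j * q j m) := hf.prod_symm.prod_factor m
  have := (Complex.hasSum_ofReal.2 hm.hasSum).mul_right (g m)
  simpa using this

theorem mix_real {A : Type} (a : A → ℝ) (ha : ∀ j, 0 ≤ a j) (hs : HasSum a 1)
    (q : A → ℤ → ℝ) (hq : ∀ j m, 0 ≤ q j m) (hq1 : ∀ j, HasSum (q j) 1) :
    HasSum (fun m => ∑' j, a j * q j m) 1 := by
  have h := mix a ha hs.summable q hq hq1 (fun _ => 1) 1 (by simp) (fun _ => 1)
    (fun j => by simpa using Complex.hasSum_ofReal.2 (hq1 j))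
  have h2 : (∑' j, (a j : ℂ) * 1) = ((1 : ℝ) : ℂ) := by
    simpa using (Complex.hasSum_ofReal.2 hs).tsum_eq
  rw [h2] at h
  simp only [mul_one] at h
  exact Complex.hasSum_ofReal.1 h

/-- tail weights -/
noncomputable def u (k : ℕ) : ℝ := 1 / Real.sqrt (Real.sqrt ((k : ℝ) + 1))

noncomputable def c (k : ℕ) : ℝ := u k - u (k + 1)

theorem ss_pos (k : ℕ) : 0 < Real.sqrt (Real.sqrt ((k : ℝ) + 1)) := by positivity

theorem c_pos (k : ℕ) : 0 < c k := by
  unfold c u
  rw [sub_pos]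
  apply one_div_lt_one_div_of_lt (ss_pos k)
  apply Real.sqrt_lt_sqrt (Real.sqrt_nonneg _)
  apply Real.sqrt_lt_sqrt (by positivity)
  push_cast; linarith

theorem c_le (k : ℕ) : c k ≤ 1 / ((k : ℝ) + 1) := by
  unfold c u
  set x := Real.sqrt (Real.sqrt ((k : ℝ) + 1)) with hx
  set y := Real.sqrt (Real.sqrt (((k + 1 : ℕ) : ℝ) + 1)) with hy
  have hx0 : 0 < x := ss_pos k
  have hy0 : 0 < y := ss_pos (k + 1)
  have hx4 : x ^ 4 = (k : ℝ) + 1 := by
    have : x ^ 4 = (x ^ 2) ^ 2 := by ring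
    rw [this, hx, Real.sq_sqrt (Real.sqrt_nonneg _), Real.sq_sqrt (by positivity)]
  have hy4 : y ^ 4 = (k : ℝ) + 2 := by
    have : y ^ 4 = (y ^ 2) ^ 2 := by ring
    rw [this, hy, Real.sq_sqrt (Real.sqrt_nonneg _), Real.sq_sqrt (by positivity)]
    push_cast; ring
  have hk : (0 : ℝ) ≤ k := Nat.cast_nonneg k
  have hx1 : 1 ≤ x := by
    by_contra h
    push Not at h
    have : x ^ 4 < 1 := pow_lt_one₀ hx0.le h (by norm_num)
    linarith
  have hxy : x ≤ y := by
    by_contra h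
    push Not at h
    have : y ^ 4 < x ^ 4 := pow_lt_pow_left₀ h hy0.le (by norm_num)
    linarith
  rw [← hx4, div_sub_div _ _ hx0.ne' hy0.ne', div_le_div_iff₀ (by positivity) (by positivity)]
  have h1 : y ^ 4 - x ^ 4 = 1 := by linarith
  have h2 : (y - x) * x ^ 3 ≤ 1 := by
    have : y ^ 4 - x ^ 4 = (y - x) * x ^ 3 + (y - x) * (y ^ 3 + y ^ 2 * x + y * x ^ 2) := by ring
    have h3 : 0 ≤ (y - x) * (y ^ 3 + y ^ 2 * x + y * x ^ 2) :=
      mul_nonneg (by linarith) (by positivity)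
    linarith
  have h4 : (1 * y - x * 1) * x ^ 4 = ((y - x) * x ^ 3) * x := by ring
  rw [h4]
  nlinarith

theorem u_tendsto : Filter.Tendsto u Filter.atTop (nhds 0) := by
  unfold u
  simp only [one_div]
  apply Filter.Tendsto.inv_tendsto_atTop
  apply Real.tendsto_sqrt_atTop.comp
  apply Real.tendsto_sqrt_atTop.comp
  exact Filter.tendsto_atTop_add_const_right _ 1 tendsto_natCast_atTop_atTop

theorem c_tail (k0 : ℕ) : HasSum (fun k => c (k + k0)) (u k0) := by
  rw [hasSum_iff_tendsto_nat_of_nonneg (fun k => (c_pos _).le)]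
  have : (fun n => ∑ i ∈ range n, c (i + k0)) = fun n => u k0 - u (n + k0) := by
    funext n
    induction n with
    | zero => simp
    | succ n ih => rw [sum_range_succ, ih]; unfold c; ring_nf
  rw [this]
  have h := (u_tendsto.comp (Filter.tendsto_add_atTop_nat k0)).const_sub (u k0)
  simpa using h

theorem c_sum : HasSum c 1 := by
  have := c_tail 0
  simpa [u] using this

theorem c_tail' (k0 : ℕ) : HasSum (fun k => if k0 ≤ k then c k else 0) (u k0) := by
  rw [← hasSum_nat_add_iff' k0]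
  have h1 : ∑ i ∈ range k0, (if k0 ≤ i then c i else 0) = 0 := by
    refine sum_eq_zero (fun i hi => ?_)
    rw [if_neg]; simp at hi; omega
  rw [h1, sub_zero]
  simpa using c_tail k0

/-- partial sums of the lacunary sequence -/
def S : ℕ → ℕ
  | 0 => 0
  | k + 1 => S k + (k * S k + 1)

/-- the lacunary sequence -/
def N (k : ℕ) : ℤ := (k * S k + 1 : ℕ)

theorem sum_N (k : ℕ) : ∑ l ∈ range k, N l = S k := by
  induction k with
  | zero => simp [S]
  | succ k ih => rw [sum_range_succ, ih]; simp [S, N]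

theorem N_pos (k : ℕ) : 0 < N k := by unfold N; positivity

noncomputable def q (k : ℕ) (m : ℤ) : ℝ :=
  (if m = 0 then 1 / 2 else 0) + (if m = N k then 1 / 4 else 0) + (if m = -N k then 1 / 4 else 0)

theorem q_nonneg (k : ℕ) (m : ℤ) : 0 ≤ q k m := by
  unfold q; split_ifs <;> norm_num

theorem q_sum (k : ℕ) : HasSum (q k) 1 := by
  have h := ((hasSum_ite_eq (0 : ℤ) (1 / 2 : ℝ)).add (hasSum_ite_eq (N k) (1 / 4 : ℝ))).add
    (hasSum_ite_eq (-N k) (1 / 4 : ℝ))
  norm_num at h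
  unfold q
  simpa using h

theorem q_test (k : ℕ) (g : ℤ → ℂ) : HasSum (fun m => (q k m : ℂ) * g m)
    (g 0 / 2 + g (N k) / 4 + g (-N k) / 4) := by
  have h := ((hasSum_ite_eq (0 : ℤ) (g 0 / 2)).add (hasSum_ite_eq (N k) (g (N k) / 4))).add
    (hasSum_ite_eq (-N k) (g (-N k) / 4))
  convert h using 1
  funext m
  unfold q
  push_cast
  rw [add_mul, add_mul]
  congr 1
  · congr 1
    · split_ifs with h1
      · subst h1; push_cast; ring
      · simp
    · split_ifs with h1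
      · subst h1; push_cast; ring
      · simp
  · split_ifs with h1
    · subst h1; push_cast; ring
    · simp

/-- the measure -/
noncomputable def p (m : ℤ) : ℝ := ∑' k, c k * q k m

theorem p_nonneg (m : ℤ) : 0 ≤ p m := tsum_nonneg (fun k => mul_nonneg (c_pos k).le (q_nonneg k m))

theorem p_sum : HasSum p 1 := mix_real c (fun k => (c_pos k).le) c_sum q q_nonneg q_sum

/-- the Markov operator -/
noncomputable def P (g : ℤ → ℂ) (a : ℤ) : ℂ :=
  ∑' k, (c k : ℂ) * (g a / 2 + g (a + N k) / 4 + g (a - N k) / 4)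

theorem p_test (g : ℤ → ℂ) (B : ℝ) (hg : ∀ m, ‖g m‖ ≤ B) (a : ℤ) :
    HasSum (fun m => (p m : ℂ) * g (a + m)) (P g a) := by
  have := mix c (fun k => (c_pos k).le) c_sum.summable q q_nonneg q_sum (fun m => g (a + m)) B
    (fun m => hg _) _ (fun k => q_test k (fun m => g (a + m)))
  simpa [P, p, sub_eq_add_neg] using this

theorem wsum_le (f : ℕ → ℂ) (B : ℝ) (hf : ∀ k, ‖f k‖ ≤ B) : ‖∑' k, (c k : ℂ) * f k‖ ≤ B := by
  have h := c_sum.mul_right B
  rw [one_mul] at h
  refine tsum_of_norm_bounded h (fun k => ?_)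
  rw [norm_mul, Complex.norm_real, Real.norm_of_nonneg (c_pos k).le]
  exact mul_le_mul_of_nonneg_left (hf k) (c_pos k).le

theorem wsum_summable (f : ℕ → ℂ) (B : ℝ) (hf : ∀ k, ‖f k‖ ≤ B) :
    Summable (fun k => (c k : ℂ) * f k) := by
  refine Summable.of_norm_bounded (c_sum.summable.mul_right B) (fun k => ?_)
  rw [norm_mul, Complex.norm_real, Real.norm_of_nonneg (c_pos k).le]
  exact mul_le_mul_of_nonneg_left (hf k) (c_pos k).le

theorem avg_le (x y z : ℂ) (B : ℝ) (hx : ‖x‖ ≤ B) (hy : ‖y‖ ≤ B) (hz : ‖z‖ ≤ B) :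
    ‖x / 2 + y / 4 + z / 4‖ ≤ B := by
  have h1 := norm_add_le (x / 2 + y / 4) (z / 4)
  have h2 := norm_add_le (x / 2) (y / 4)
  simp only [norm_div, Complex.norm_ofNat] at h1 h2
  linarith

theorem P_bound (g : ℤ → ℂ) (B : ℝ) (hg : ∀ m, ‖g m‖ ≤ B) (a : ℤ) : ‖P g a‖ ≤ B :=
  wsum_le _ B (fun _ => avg_le _ _ _ B (hg _) (hg _) (hg _))

theorem P_iter_bound (g : ℤ → ℂ) (B : ℝ) (hg : ∀ m, ‖g m‖ ≤ B) (n : ℕ) (a : ℤ) :
    ‖P^[n] g a‖ ≤ B := by
  induction n generalizing a with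
  | zero => simpa using hg a
  | succ n ih => rw [Function.iterate_succ_apply']; exact P_bound _ B ih a

/-- convolution powers -/
noncomputable def F (n : ℕ) : ℤ → ℝ :=
  (fun f : ℤ → ℝ => fun m : ℤ => ∑' j : ℤ, f j * p (m - j))^[n]
    (fun m : ℤ => if m = 0 then (1 : ℝ) else 0)

theorem shift_sum (j : ℤ) : HasSum (fun m => p (m - j)) 1 :=
  (Equiv.subRight j).hasSum_iff.2 p_sum

theorem shift_test (g : ℤ → ℂ) (B : ℝ) (hg : ∀ m, ‖g m‖ ≤ B) (j : ℤ) :
    HasSum (fun m => (p (m - j) : ℂ) * g m) (P g j) := by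
  have := (Equiv.subRight j).hasSum_iff.2 (p_test g B hg j)
  simpa [Function.comp_def] using this

theorem F_succ (n : ℕ) : F (n + 1) = fun m => ∑' j, F n j * p (m - j) := by
  unfold F; rw [Function.iterate_succ_apply']

theorem F_prob (n : ℕ) : (∀ m, 0 ≤ F n m) ∧ HasSum (F n) 1 := by
  induction n with
  | zero =>
    refine ⟨fun m => ?_, ?_⟩
    · simp only [F, Function.iterate_zero, id]; split_ifs <;> norm_num
    · simpa [F] using hasSum_ite_eq (0 : ℤ) (1 : ℝ)
  | succ n ih =>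
    rw [F_succ]
    exact ⟨fun m => tsum_nonneg (fun j => mul_nonneg (ih.1 j) (p_nonneg _)),
      mix_real (F n) ih.1 ih.2 (fun j m => p (m - j)) (fun j m => p_nonneg _) shift_sum⟩

theorem F_test (n : ℕ) : ∀ (g : ℤ → ℂ) (B : ℝ), (∀ m, ‖g m‖ ≤ B) →
    HasSum (fun m => (F n m : ℂ) * g m) (P^[n] g 0) := by
  induction n with
  | zero =>
    intro g B _
    have := hasSum_ite_eq (0 : ℤ) (g 0)
    rw [Function.iterate_zero, id]
    convert this using 1
    funext m
    simp only [F, Function.iterate_zero, id]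
    split_ifs with h
    · subst h; simp
    · simp
  | succ n ih =>
    intro g B hg
    rw [F_succ, Function.iterate_succ_apply]
    have h := mix (F n) (F_prob n).1 (F_prob n).2.summable (fun j m => p (m - j))
      (fun j m => p_nonneg _) shift_sum g B hg (P g) (shift_test g B hg)
    rw [(ih (P g) B (P_bound g B hg)).tsum_eq] at h
    exact h

theorem diff_le (n : ℕ) (g : ℤ → ℂ) (hg : ∀ m, ‖g m‖ ≤ 1) :
    ‖P^[n] g 0 - P^[n + 1] g 0‖ ≤ ∑' k, |F n k - F (n + 1) k| := by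
  have h := (F_test n g 1 hg).sub (F_test (n + 1) g 1 hg)
  have hs : Summable (fun k => |F n k - F (n + 1) k|) :=
    ((F_prob n).2.summable.sub (F_prob (n + 1)).2.summable).abs
  refine h.norm_le_of_bounded hs.hasSum (fun m => ?_)
  rw [← sub_mul, norm_mul, ← Complex.ofReal_sub, Complex.norm_real, Real.norm_eq_abs]
  exact mul_le_of_le_one_right (abs_nonneg _) (hg m)

end H28Ritt
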