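import Mathlib

set_option autoImplicit false

namespace Pool.Agent.H28Roe

open Filter Topology Set Metric symmDiff

/-- the Hilbert space of square summable complex functions on `X` -/
abbrev L2 (X : Type) : Type := lp (fun _ : X => ℂ) 2

/-- bounded operators on `L2 X` -/
abbrev Op (X : Type) : Type := L2 X →L[ℂ] L2 X

open Classical in
/-- the standard basis vector at `x` -/
noncomputable def delta {X : Type} (x : X) : L2 X := lp.single 2 x 1

/-- uniformly locally finite metric space -/
def ULF (X : Type) [MetricSpace X] : Prop :=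
  ∀ r : ℝ, 0 < r → ∃ N : ℕ, ∀ x : X, (ball x r).encard ≤ N

/-- finite propagation -/
def FinProp {X : Type} [MetricSpace X] (a : Op X) : Prop :=
  ∃ r : ℝ, ∀ x y : X, inner ℂ (delta x) (a (delta y)) ≠ 0 → dist x y ≤ r

/-- the uniform Roe algebra -/
def Roe (X : Type) [MetricSpace X] : Set (Op X) := closure {a | FinProp a}

/-- property A -/
def PropA (Y : Type) [MetricSpace Y] : Prop :=
  ∀ R ε : ℝ, 0 < R → 0 < ε → ∃ S : ℝ, 0 < S ∧ ∃ ξ : Y → lp (fun _ : Y => ℝ) 1,
    (∀ x y, 0 ≤ ξ x y) ∧ (∀ x, ‖ξ x‖ = 1) ∧ (∀ x y, ξ x y ≠ 0 → y ∈ ball x S) ∧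
    ∀ x y, dist x y ≤ R → ‖ξ x - ξ y‖ ≤ ε

lemma inner_delta {X : Type} (x : X) (f : L2 X) : inner ℂ (delta x) f = f x := by
  classical
  unfold delta
  have := lp.inner_single_left (𝕜 := ℂ) (G := fun _ : X => ℂ) x (1 : ℂ) f
  simp at this
  convert this

open Classical in
lemma delta_apply {X : Type} (x y : X) : delta x y = if y = x then 1 else 0 := by
  unfold delta
  rw [lp.single_apply, Pi.single_apply]

lemma norm_delta {X : Type} (x : X) : ‖delta x‖ = 1 := by
  classical
  unfold delta
  rw [lp.norm_single (by norm_num)]; simp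

lemma ext_delta {X : Type} {E : Type} [NormedAddCommGroup E] [NormedSpace ℂ E]
    {S T : L2 X →L[ℂ] E} (h : ∀ x, S (delta x) = T (delta x)) : S = T := by
  classical
  refine lp.ext_continuousLinearMap (by norm_num) fun x => ?_
  ext
  have := h x
  unfold delta at this
  simp only [ContinuousLinearMap.comp_apply, lp.singleContinuousLinearMap_apply]
  convert this

lemma propA_of_ultra (Y : Type) [MetricSpace Y] [IsUltrametricDist Y] : PropA Y := by
  classical
  intro R ε hR hε
  have ne : ∀ y : Y, (closedBall y R).Nonempty := fun y => ⟨y, mem_closedBall_self hR.le⟩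
  let π : Y → Y := fun y => (ne y).some
  refine ⟨R + 1, by linarith, fun y => lp.single 1 (π y) 1, ?_, ?_, ?_, ?_⟩
  · intro x y
    simp only [lp.single_apply, Pi.single_apply]
    split_ifs <;> norm_num
  · intro x
    rw [lp.norm_single (by norm_num)]; simp
  · intro x y h
    simp only [lp.single_apply, Pi.single_apply] at h
    have : y = π x := by by_contra a; simp [a] at h
    have h2 : π x ∈ closedBall x R := (ne x).some_mem
    rw [this]
    exact closedBall_subset_ball (by linarith) h2
  · intro x y h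
    have e : closedBall y R = closedBall x R :=
      IsUltrametricDist.closedBall_eq_of_mem (mem_closedBall.2 h)
    have : π x = π y := by
      simp only [π]
      congr 1
      exact e.symm
    simp [this, hε.le]

/-- finite subsets of the natural numbers with an ultrametric -/
structure GG : Type where
  s : Finset ℕ

def lev (s t : Finset ℕ) : ℕ := (s ∆ t).sup Nat.succ

lemma lev_le {s t : Finset ℕ} {n : ℕ} : lev s t ≤ n ↔ ∀ k, n ≤ k → (k ∈ s ↔ k ∈ t) := by
  unfold lev
  rw [Finset.sup_le_iff]
  constructor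
  · intro h k hk
    by_contra a
    have := h k (by rw [Finset.mem_symmDiff]; tauto)
    simp at this; omega
  · intro h k hk
    rw [Finset.mem_symmDiff] at hk
    by_contra a
    have := h k (by simp at a; omega)
    tauto

lemma lev_max (s t u : Finset ℕ) : lev s u ≤ max (lev s t) (lev t u) :=
  lev_le.2 fun k hk => (lev_le.1 le_rfl k (le_of_max_le_left hk)).trans
    (lev_le.1 le_rfl k (le_of_max_le_right hk))

instance : MetricSpace GG where
  dist s t := (lev s.s t.s : ℝ)
  dist_self s := by simp [lev]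
  dist_comm s t := by simp only [lev]; rw [symmDiff_comm]
  dist_triangle s t u := by
    have := lev_max s.s t.s u.s
    have h : lev s.s u.s ≤ lev s.s t.s + lev t.s u.s := by omega
    exact_mod_cast h
  eq_of_dist_eq_zero {s t} h := by
    have h : lev s.s t.s ≤ 0 := by
      have : (lev s.s t.s : ℝ) = 0 := h
      exact_mod_cast this.le
    have : s.s = t.s := Finset.ext fun k => lev_le.1 h k (Nat.zero_le _)
    cases s; cases t; simpa using this

lemma dist_GG (s t : GG) : dist s t = (lev s.s t.s : ℝ) := rfl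

instance : IsUltrametricDist GG := ⟨fun s t u => by
  simp only [dist_GG]
  exact_mod_cast lev_max s.s t.s u.s⟩

lemma ulf_GG : ULF GG := by
  classical
  intro r hr
  refine ⟨2 ^ ⌈r⌉₊, fun s => ?_⟩
  have h : (ball s r).encard ≤ ((Finset.range ⌈r⌉₊).powerset : Set (Finset ℕ)).encard := by
    refine Set.encard_le_encard_of_injOn (f := fun t : GG => s.s ∆ t.s) ?_ ?_
    · intro t ht
      rw [mem_ball, dist_comm, dist_GG] at ht
      have h1 : lev s.s t.s ≤ ⌈r⌉₊ := by
        have : (lev s.s t.s : ℝ) ≤ ⌈r⌉₊ := ht.le.trans (Nat.le_ceil r)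
        exact_mod_cast this
      simp only [Finset.coe_powerset, mem_preimage, mem_powerset_iff]
      intro k hk
      have hk := Finset.mem_symmDiff.1 hk
      by_contra a
      have := lev_le.1 h1 k (by simpa using a)
      tauto
    · intro t _ u _ h
      have : t.s = u.s := symmDiff_right_injective _ h
      cases t; cases u; simpa using this
  rw [Set.encard_coe_eq_coe_finsetCard, Finset.card_powerset, Finset.card_range] at h
  exact h

lemma ulf_of_isometry {T : Type} [MetricSpace T] {c : T → GG} (hc : Isometry c) : ULF T := by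
  intro r hr
  obtain ⟨N, hN⟩ := ulf_GG r hr
  refine ⟨N, fun x => le_trans ?_ (hN (c x))⟩
  refine Set.encard_le_encard_of_injOn (f := c) (fun t ht => ?_) hc.injective.injOn
  rwa [mem_ball, hc.dist_eq]

/-- the domain space -/
structure XX : Type where
  n : ℕ

/-- the target space -/
structure YY : Type where
  x : XX
  g : Finset ℕ

lemma XX.ext' {x y : XX} (h : x.n = y.n) : x = y := by cases x; cases y; simpa using h

lemma YY.ext' {y z : YY} (h : y.x = z.x) (h2 : y.g = z.g) : y = z := by
  cases y; cases z; simp_all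

def cX (x : XX) : GG := ⟨{x.n}⟩

lemma cX_inj : Function.Injective cX := fun _ _ h =>
  XX.ext' (Finset.singleton_injective (congrArg GG.s h))

def cY' (y : YY) : Finset ℕ := insert (2 * y.x.n) (y.g.image (fun k => 2 * k + 1))

lemma cY_odd (y : YY) (k : ℕ) : 2 * k + 1 ∈ cY' y ↔ k ∈ y.g := by
  simp only [cY', Finset.mem_insert, Finset.mem_image]
  constructor
  · rintro (h | ⟨a, ha, h⟩)
    · omega
    · have : a = k := by omega
      exact this ▸ ha
  · exact fun h => Or.inr ⟨k, h, rfl⟩

lemma cY_even (y : YY) (k : ℕ) : 2 * k ∈ cY' y ↔ k = y.x.n := by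
  simp only [cY', Finset.mem_insert, Finset.mem_image]
  constructor
  · rintro (h | ⟨a, ha, h⟩) <;> omega
  · exact fun h => Or.inl (by omega)

def cY (y : YY) : GG := ⟨cY' y⟩

lemma cY_inj : Function.Injective cY := by
  intro y z h
  have h : cY' y = cY' z := congrArg GG.s h
  refine YY.ext' (XX.ext' ?_) (Finset.ext fun k => ?_)
  · exact (cY_even z _).1 (h ▸ (cY_even y _).2 rfl)
  · rw [← cY_odd, ← cY_odd, h]

instance : MetricSpace XX := MetricSpace.induced cX cX_inj inferInstance
instance : MetricSpace YY := MetricSpace.induced cY cY_inj inferInstance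

lemma ulf_XX : ULF XX := ulf_of_isometry (c := cX) fun _ _ => rfl
lemma ulf_YY : ULF YY := ulf_of_isometry (c := cY) fun _ _ => rfl

instance : IsUltrametricDist YY :=
  ⟨fun s t u => IsUltrametricDist.dist_triangle_max (cY s) (cY t) (cY u)⟩

lemma XX_lt {x y : XX} {r : ℝ} (h : dist x y ≤ r) (hne : x ≠ y) : x.n < ⌈r⌉₊ := by
  have h1 : lev {x.n} {y.n} ≤ ⌈r⌉₊ := by
    have : (lev {x.n} {y.n} : ℝ) ≤ ⌈r⌉₊ := le_trans h (Nat.le_ceil r)
    exact_mod_cast this
  by_contra a
  have := lev_le.1 h1 x.n (by omega)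
  simp only [Finset.mem_singleton, true_iff] at this
  exact hne (XX.ext' this)

lemma YY_bit {y z : YY} {r : ℝ} (h : dist y z ≤ r) {i : ℕ} (hi : ⌈r⌉₊ ≤ i) :
    i ∈ y.g ↔ i ∈ z.g := by
  have h1 : lev (cY' y) (cY' z) ≤ ⌈r⌉₊ := by
    have : (lev (cY' y) (cY' z) : ℝ) ≤ ⌈r⌉₊ := le_trans h (Nat.le_ceil r)
    exact_mod_cast this
  rw [← cY_odd, ← cY_odd]
  exact lev_le.1 h1 _ (by omega)

lemma YY_dist {y z : YY} {m : ℕ} (h1 : y.x.n < m) (h2 : z.x.n < m)
    (h : ∀ k, m ≤ k → (k ∈ y.g ↔ k ∈ z.g)) : dist y z ≤ (2 * m : ℕ) := by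
  have : lev (cY' y) (cY' z) ≤ 2 * m := by
    refine lev_le.2 fun k hk => ?_
    rcases Nat.even_or_odd' k with ⟨j, rfl | rfl⟩
    · rw [cY_even, cY_even]; omega
    · rw [cY_odd, cY_odd]; exact h j (by omega)
  have h3 : (lev (cY' y) (cY' z) : ℝ) ≤ (2 * m : ℕ) := by exact_mod_cast this
  exact h3

lemma compact_null {E : Type} [NormedAddCommGroup E] [InnerProductSpace ℂ E] [CompleteSpace E]
    {Q : E →L[ℂ] E} (hQ : IsCompactOperator Q) {u : ℕ → E} (hu : Orthonormal ℂ u) :
    Tendsto (fun n => Q (u n)) atTop (𝓝 0) := by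
  have hK := IsCompactOperator.isCompact_closure_image_closedBall (f := (Q : E →ₗ[ℂ] E)) hQ 1
  refine hK.tendsto_nhds_of_unique_mapClusterPt (Eventually.of_forall fun n =>
    subset_closure ⟨u n, by simp [hu.1 n], rfl⟩) fun z _ hz => ?_
  have h1 : Tendsto (fun n => inner ℂ (u n) (ContinuousLinearMap.adjoint Q z)) atTop (𝓝 0) := by
    have := (hu.inner_products_summable (ContinuousLinearMap.adjoint Q z)).tendsto_atTop_zero
    rw [tendsto_zero_iff_norm_tendsto_zero]
    have h2 := this.sqrt
    simpa using h2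
  have h2 : Tendsto (fun n => inner ℂ (Q (u n)) z) atTop (𝓝 0) := by
    simpa only [ContinuousLinearMap.adjoint_inner_right] using h1
  have h3 : MapClusterPt (inner ℂ z z) atTop (fun n => inner ℂ (Q (u n)) z) :=
    hz.continuousAt_comp (f := fun w : E => inner ℂ w z) (by fun_prop)
  have h4 : inner ℂ z z = 0 := eq_of_nhds_neBot (h3.clusterPt.mono h2)
  exact inner_self_eq_zero.1 h4

end Pool.Agent.H28Roe
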