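import Pool.Agent.Lib.helper28.RoeA

set_option autoImplicit false

namespace Pool.Agent.H28Roe

open Filter Topology Set Metric symmDiff

abbrev KK : Type := lp (fun _ : Finset ℕ => L2 XX) 2

noncomputable def diag (a : Op XX) : KK →L[ℂ] KK :=
  lp.mapCLM 2 (fun _ => a) (norm_nonneg a) (fun _ => le_rfl)

lemma diag_apply (a : Op XX) (f : KK) (g : Finset ℕ) : diag a f g = a (f g) := rfl

lemma norm_diag (a : Op XX) : ‖diag a‖ ≤ ‖a‖ := lp.norm_mapCLM_le _ _ _ _

lemma diag_ext {S T : KK →L[ℂ] KK} (h : ∀ f g, S f g = T f g) : S = T :=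
  ContinuousLinearMap.ext fun f => lp.ext (funext (h f))

lemma diag_add (a b : Op XX) : diag (a + b) = diag a + diag b := diag_ext fun _ _ => rfl
lemma diag_sub (a b : Op XX) : diag (a - b) = diag a - diag b := diag_ext fun _ _ => rfl
lemma diag_smul (c : ℂ) (a : Op XX) : diag (c • a) = c • diag a := diag_ext fun _ _ => rfl
lemma diag_mul (a b : Op XX) : diag (a * b) = diag a * diag b := diag_ext fun _ _ => rfl
lemma diag_one : diag 1 = 1 := diag_ext fun _ _ => rfl

lemma diag_star (a : Op XX) : diag (star a) = star (diag a) := by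
  rw [ContinuousLinearMap.star_eq_adjoint, ContinuousLinearMap.star_eq_adjoint,
    ContinuousLinearMap.eq_adjoint_iff]
  intro f h
  rw [lp.inner_eq_tsum, lp.inner_eq_tsum]
  refine tsum_congr fun g => ?_
  rw [diag_apply, diag_apply, ContinuousLinearMap.adjoint_inner_left]

noncomputable def sing (g : Finset ℕ) (v : L2 XX) : KK := lp.single 2 g v

lemma sing_apply (g h : Finset ℕ) (v : L2 XX) : sing g v h = if h = g then v else 0 := by
  unfold sing
  rw [lp.single_apply, Pi.single_apply]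

lemma diag_sing (a : Op XX) (g : Finset ℕ) (v : L2 XX) : diag a (sing g v) = sing g (a v) := by
  refine lp.ext (funext fun h => ?_)
  rw [diag_apply, sing_apply, sing_apply]
  split_ifs <;> simp

lemma inner_sing (g : Finset ℕ) (v : L2 XX) (f : KK) :
    inner ℂ (sing g v) f = inner ℂ v (f g) := lp.inner_single_left g v f

lemma diag_inj : Function.Injective diag := by
  intro a b h
  refine ContinuousLinearMap.ext fun v => ?_
  have h1 : diag a (sing ∅ v) ∅ = diag b (sing ∅ v) ∅ := by rw [h]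
  simpa [diag_apply, sing_apply] using h1

noncomputable def EE (x : XX) (g : Finset ℕ) : KK := sing g (delta x)

def tau (i : ℕ) (g : Finset ℕ) : Finset ℕ := g ∆ {i}

def sg (i : ℕ) (g : Finset ℕ) : ℂ := if i ∈ g then -1 else 1

noncomputable def cc : ℂ := ((√2)⁻¹ : ℝ)

lemma cc_sq : cc * cc = 1 / 2 := by
  unfold cc
  rw [← Complex.ofReal_mul, ← mul_inv, Real.mul_self_sqrt (by norm_num)]
  norm_num

lemma cc_conj : (starRingEnd ℂ) cc = cc := Complex.conj_ofReal _

lemma sg_conj (i : ℕ) (g : Finset ℕ) : (starRingEnd ℂ) (sg i g) = sg i g := by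
  unfold sg; split_ifs <;> simp

lemma sg_sq (i : ℕ) (g : Finset ℕ) : sg i g * sg i g = 1 := by
  unfold sg; split_ifs <;> simp

lemma norm_sg (i : ℕ) (g : Finset ℕ) : ‖sg i g‖ = 1 := by
  unfold sg; split_ifs <;> simp

lemma mem_tau {i k : ℕ} {g : Finset ℕ} : k ∈ tau i g ↔ (k ∈ g ↔ k ≠ i) := by
  simp only [tau, Finset.mem_symmDiff, Finset.mem_singleton]; tauto

lemma tau_tau (i : ℕ) (g : Finset ℕ) : tau i (tau i g) = g := by
  ext k; simp only [mem_tau]; tauto

lemma tau_ne (i : ℕ) (g : Finset ℕ) : tau i g ≠ g := by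
  intro h
  have : i ∈ tau i g ↔ i ∈ g := by rw [h]
  simp only [mem_tau] at this; tauto

lemma sg_tau (i : ℕ) (g : Finset ℕ) : sg i (tau i g) = - sg i g := by
  unfold sg
  by_cases h : i ∈ g <;> simp [mem_tau, h]

lemma tau_inj (g : Finset ℕ) : Function.Injective fun i => tau i g := by
  intro i j h
  have h : tau i g = tau j g := h
  have : i ∈ tau i g ↔ i ∈ tau j g := by rw [h]
  simp only [mem_tau] at this
  by_contra a
  tauto

noncomputable def bb (y : YY) : KK :=
  cc • (EE y.x (tau y.x.n y.g) + sg y.x.n y.g • EE y.x y.g)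

lemma inner_EE (a : Op XX) (x x' : XX) (g g' : Finset ℕ) :
    inner ℂ (EE x g) (diag a (EE x' g')) = a (delta x') x * if g = g' then 1 else 0 := by
  unfold EE
  rw [diag_sing, inner_sing, sing_apply, inner_delta]
  split_ifs <;> simp

noncomputable def MM (y z : YY) : ℂ :=
  (if tau y.x.n y.g = tau z.x.n z.g then 1 else 0) +
    sg z.x.n z.g * (if tau y.x.n y.g = z.g then 1 else 0) +
    sg y.x.n y.g * (if y.g = tau z.x.n z.g then 1 else 0) +
    sg y.x.n y.g * sg z.x.n z.g * (if y.g = z.g then 1 else 0)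

lemma coef (a : Op XX) (y z : YY) :
    inner ℂ (bb y) (diag a (bb z)) = a (delta z.x) y.x * MM y z / 2 := by
  unfold bb MM
  simp only [map_smul, map_add, inner_smul_left, inner_smul_right, inner_add_left, inner_add_right,
    inner_EE, cc_conj, sg_conj]
  linear_combination (a (delta z.x) y.x * ((if tau y.x.n y.g = tau z.x.n z.g then 1 else 0) +
    sg z.x.n z.g * (if tau y.x.n y.g = z.g then 1 else 0) +
    sg y.x.n y.g * (if y.g = tau z.x.n z.g then 1 else 0) +
    sg y.x.n y.g * sg z.x.n z.g * (if y.g = z.g then 1 else 0))) * cc_sq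

lemma MM_self (y : YY) : MM y y = 2 := by
  unfold MM
  rw [if_pos rfl, if_pos rfl, if_neg (tau_ne _ _), if_neg (tau_ne _ _).symm, sg_sq]
  norm_num

lemma MM_same {y z : YY} (h : y.x = z.x) (hne : y ≠ z) : MM y z = 0 := by
  have h1 : y.g ≠ z.g := fun a => hne (YY.ext' h a)
  unfold MM
  rw [← h]
  have h2 : tau y.x.n y.g ≠ tau y.x.n z.g := fun a => h1 (by
    rw [← tau_tau y.x.n y.g, a, tau_tau])
  rw [if_neg h1, if_neg h2]
  by_cases h3 : tau y.x.n y.g = z.g
  · have h4 : y.g = tau y.x.n z.g := by rw [← h3, tau_tau]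
    rw [if_pos h3, if_pos h4, ← h3, sg_tau]; ring
  · have h4 : y.g ≠ tau y.x.n z.g := fun a => h3 (by rw [a, tau_tau])
    rw [if_neg h3, if_neg h4]; ring

lemma MM_ne {y z : YY} (h : MM y z ≠ 0) (k : ℕ) (h1 : k ≠ y.x.n) (h2 : k ≠ z.x.n) :
    k ∈ y.g ↔ k ∈ z.g := by
  by_contra a
  apply h
  have t : ∀ s t : Finset ℕ, (k ∈ s ↔ k ∈ y.g) → (k ∈ t ↔ k ∈ z.g) → s ≠ t := by
    intro s t hs ht e
    rw [e] at hs
    exact a (hs.symm.trans ht)
  have u1 : k ∈ tau y.x.n y.g ↔ k ∈ y.g := by rw [mem_tau]; tauto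
  have u2 : k ∈ tau z.x.n z.g ↔ k ∈ z.g := by rw [mem_tau]; tauto
  unfold MM
  rw [if_neg (t _ _ u1 u2), if_neg (t _ _ u1 Iff.rfl), if_neg (t _ _ Iff.rfl u2),
    if_neg (t _ _ Iff.rfl Iff.rfl)]
  ring

lemma bb_on : Orthonormal ℂ bb := by
  classical
  rw [orthonormal_iff_ite]
  intro y z
  have := coef 1 y z
  rw [diag_one] at this
  simp only [ContinuousLinearMap.one_apply, delta_apply] at this
  rw [this]
  by_cases h : y = z
  · subst h; simp [MM_self]
  · rw [if_neg h]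
    by_cases h2 : y.x = z.x
    · rw [MM_same h2 h]; simp
    · simp [h2]

lemma EE_eq (x : XX) (g : Finset ℕ) :
    EE x g = cc • (bb ⟨x, tau x.n g⟩ + sg x.n g • bb ⟨x, g⟩) := by
  unfold bb
  simp only [tau_tau, sg_tau]
  have h1 := cc_sq
  have h2 := sg_sq x.n g
  generalize EE x g = u
  generalize EE x (tau x.n g) = v
  generalize sg x.n g = s at *
  have : u = (cc * cc * (1 + s * s)) • u := by
    rw [h1, h2]; norm_num
  nth_rewrite 1 [this]
  module

lemma bb_total : (Submodule.span ℂ (range bb))ᗮ = ⊥ := by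
  rw [Submodule.eq_bot_iff]
  intro f hf
  have h1 : ∀ y, inner ℂ (bb y) f = 0 := fun y =>
    (Submodule.mem_orthogonal _ _).1 hf _ (Submodule.subset_span ⟨y, rfl⟩)
  refine lp.ext (funext fun g => lp.ext (funext fun x => ?_))
  have h2 : inner ℂ (EE x g) f = 0 := by
    rw [EE_eq]
    simp [inner_smul_left, inner_add_left, h1]
  unfold EE at h2
  rw [inner_sing, inner_delta] at h2
  exact h2

noncomputable def UU : KK ≃ₗᵢ[ℂ] L2 YY := (HilbertBasis.mkOfOrthogonalEqBot bb_on bb_total).repr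

lemma UU_bb (y : YY) : UU (bb y) = delta y := by
  classical
  have := (HilbertBasis.mkOfOrthogonalEqBot bb_on bb_total).repr_self y
  rw [HilbertBasis.coe_mkOfOrthogonalEqBot] at this
  unfold UU delta
  convert this

noncomputable def Phi (a : Op XX) : Op YY := UU.conjStarAlgEquiv (diag a)

lemma Phi_apply (a : Op XX) (f : KK) : Phi a (UU f) = UU (diag a f) := by
  simp [Phi]

lemma norm_Phi (a : Op XX) : ‖Phi a‖ ≤ ‖a‖ := by
  refine ContinuousLinearMap.opNorm_le_bound _ (norm_nonneg _) fun v => ?_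
  obtain ⟨f, rfl⟩ := UU.surjective v
  rw [Phi_apply, UU.norm_map, UU.norm_map]
  exact (diag a).le_of_opNorm_le (norm_diag a) _

lemma Phi_sub (a b : Op XX) : Phi (a - b) = Phi a - Phi b := by simp only [Phi, diag_sub, map_sub]

lemma Phi_cont : Continuous Phi := by
  refine (LipschitzWith.of_dist_le_mul (K := 1) fun a b => ?_).continuous
  rw [dist_eq_norm, dist_eq_norm, ← Phi_sub]
  simpa using norm_Phi _

lemma Phi_coef (a : Op XX) (y z : YY) :
    inner ℂ (delta y) (Phi a (delta z)) = a (delta z.x) y.x * MM y z / 2 := by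
  rw [← UU_bb, ← UU_bb, Phi_apply, UU.inner_map_map, coef]

lemma Phi_fin {a : Op XX} (h : FinProp a) : FinProp (Phi a) := by
  obtain ⟨r, hr⟩ := h
  refine ⟨(2 * ⌈r⌉₊ : ℕ), fun y z hyz => ?_⟩
  rw [Phi_coef] at hyz
  have h1 : a (delta z.x) y.x ≠ 0 := fun e => hyz (by simp [e])
  have h2 : MM y z ≠ 0 := fun e => hyz (by simp [e])
  by_cases h3 : y.x = z.x
  · have : y = z := by
      by_contra b
      exact h2 (MM_same h3 b)
    rw [this, dist_self]; positivity
  · have h4 : dist y.x z.x ≤ r := hr _ _ (by rwa [inner_delta])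
    have h5 := XX_lt h4 h3
    have h6 := XX_lt (dist_comm y.x z.x ▸ h4) (Ne.symm h3)
    exact YY_dist h5 h6 fun k hk => MM_ne h2 k (by omega) (by omega)

lemma Phi_Roe {a : Op XX} (h : a ∈ Roe XX) : Phi a ∈ Roe YY :=
  map_mem_closure Phi_cont h fun _ hb => Phi_fin hb

noncomputable def WW (x : XX) (g : Finset ℕ) : L2 YY := UU (EE x g)

noncomputable def ee (x x' : XX) : Op XX := (innerSL ℂ (delta x')).smulRight (delta x)

lemma ee_apply (x x' : XX) (v : L2 XX) : ee x x' v = inner ℂ (delta x') v • delta x := rfl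

lemma ee_Roe (x x' : XX) : ee x x' ∈ Roe XX := by
  refine subset_closure ⟨dist x x', fun y z h => ?_⟩
  rw [ee_apply, inner_smul_right, inner_delta, inner_delta, delta_apply, delta_apply] at h
  have h1 : x' = z := by by_contra a; simp [a] at h
  have h2 : y = x := by by_contra a; simp [a] at h
  rw [h1, h2]

lemma norm_ee (x x' : XX) : ‖ee x x'‖ ≤ 1 := by
  unfold ee
  rw [ContinuousLinearMap.norm_smulRight_apply, innerSL_apply_norm, norm_delta, norm_delta]
  norm_num

lemma Phi_ee (x x' : XX) (g : Finset ℕ) : Phi (ee x x') (WW x' g) = WW x g := by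
  unfold WW EE
  rw [Phi_apply, diag_sing, ee_apply, inner_delta, delta_apply, if_pos rfl, one_smul]

noncomputable def FF (i : ℕ) : Op YY :=
  lp.mapCLM 2 (fun y : YY => sg i y.g • ContinuousLinearMap.id ℂ ℂ) zero_le_one
    (fun y => by rw [norm_smul, norm_sg]; simp)

lemma FF_apply (i : ℕ) (v : L2 YY) (y : YY) : FF i v y = sg i y.g * v y := rfl

lemma norm_FF (i : ℕ) : ‖FF i‖ ≤ 1 := lp.norm_mapCLM_le _ _ _ _

lemma FF_FF (i : ℕ) (v : L2 YY) : FF i (FF i v) = v := by
  refine lp.ext (funext fun y => ?_)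
  rw [FF_apply, FF_apply, ← mul_assoc, sg_sq, one_mul]

lemma FF_delta (i : ℕ) (y : YY) : FF i (delta y) = sg i y.g • delta y := by
  refine lp.ext (funext fun z => ?_)
  rw [FF_apply, lp.coeFn_smul, Pi.smul_apply, delta_apply, smul_eq_mul]
  split_ifs with h
  · rw [h]
  · simp

lemma WW_eq (x : XX) (g : Finset ℕ) :
    WW x g = cc • (delta ⟨x, tau x.n g⟩ + sg x.n g • delta ⟨x, g⟩) := by
  unfold WW
  rw [EE_eq, map_smul, map_add, map_smul, UU_bb, UU_bb]

lemma FF_WW (i : ℕ) (g : Finset ℕ) : FF i (WW ⟨i⟩ g) = WW ⟨i⟩ (tau i g) := by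
  rw [WW_eq, WW_eq, map_smul, map_add, map_smul, FF_delta, FF_delta]
  simp only [tau_tau, sg_tau, smul_smul, sg_sq, one_smul]
  rw [add_comm]

lemma FF_comm_fin {T : Op YY} {r : ℝ}
    (hr : ∀ x y : YY, inner ℂ (delta x) (T (delta y)) ≠ 0 → dist x y ≤ r) {i : ℕ}
    (hi : ⌈r⌉₊ ≤ i) : FF i * T = T * FF i := by
  refine ext_delta fun y => lp.ext (funext fun z => ?_)
  rw [ContinuousLinearMap.mul_apply, ContinuousLinearMap.mul_apply, FF_delta, map_smul, FF_apply,
    lp.coeFn_smul, Pi.smul_apply, smul_eq_mul]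
  by_cases h : T (delta y) z = 0
  · simp [h]
  · have := YY_bit (hr z y (by rwa [inner_delta])) hi
    simp only [sg, this]

lemma FF_comm {p : Op YY} (hp : p ∈ Roe YY) :
    Tendsto (fun i => ‖FF i * p - p * FF i‖) atTop (𝓝 0) := by
  rw [Metric.tendsto_atTop]
  intro ε hε
  obtain ⟨T, ⟨r, hr⟩, hT⟩ := Metric.mem_closure_iff.1 hp (ε / 2) (by linarith)
  refine ⟨⌈r⌉₊, fun i hi => ?_⟩
  rw [dist_eq_norm] at hT
  have e : FF i * p - p * FF i = FF i * (p - T) - (p - T) * FF i := by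
    rw [mul_sub, sub_mul, FF_comm_fin hr hi]; abel
  rw [Real.dist_eq, sub_zero, abs_norm, e]
  have h1 : ‖FF i * (p - T)‖ ≤ ‖p - T‖ :=
    (norm_mul_le _ _).trans (mul_le_of_le_one_left (norm_nonneg _) (norm_FF i))
  have h2 : ‖(p - T) * FF i‖ ≤ ‖p - T‖ :=
    (norm_mul_le _ _).trans (mul_le_of_le_one_right (norm_nonneg _) (norm_FF i))
  have := norm_sub_le (FF i * (p - T)) ((p - T) * FF i)
  linarith

lemma inner_WW (x : XX) (g g' : Finset ℕ) :
    inner ℂ (WW x g) (WW x g') = if g = g' then 1 else 0 := by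
  have := inner_EE 1 x x g g'
  rw [diag_one] at this
  simp only [ContinuousLinearMap.one_apply, delta_apply, if_true, one_mul] at this
  unfold WW
  rw [UU.inner_map_map, this]

lemma WW_on (x : XX) (g : Finset ℕ) : Orthonormal ℂ fun i => WW x (tau i g) := by
  rw [orthonormal_iff_ite]
  intro i j
  rw [inner_WW]
  simp only [(tau_inj g).eq_iff' (b := j) rfl]

lemma norm_WW (x : XX) (g : Finset ℕ) : ‖WW x g‖ = 1 := by
  have := (WW_on x (tau 0 g)).1 0
  simpa [tau_tau] using this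

lemma main {p : Op YY} (hp : p ∈ Roe YY) (hc : ∀ x x', p * Phi (ee x x') = Phi (ee x x') * p)
    (h0 : ∀ g, Tendsto (fun i => p (WW ⟨0⟩ (tau i g))) atTop (𝓝 0)) : p = 0 := by
  have t : ∀ x x' g, ‖p (WW x g)‖ ≤ ‖p (WW x' g)‖ := by
    intro x x' g
    have : p (WW x g) = Phi (ee x x') (p (WW x' g)) := by
      rw [← Phi_ee x x' g, ← ContinuousLinearMap.mul_apply, hc, ContinuousLinearMap.mul_apply]
    rw [this]
    exact ((Phi _).le_of_opNorm_le ((norm_Phi _).trans (norm_ee _ _)) _).trans (by simp)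
  have h1 : ∀ x g, p (WW x g) = 0 := by
    intro x g
    have h2 : ∀ i, ‖p (WW x g)‖ ≤ ‖FF i * p - p * FF i‖ + ‖p (WW ⟨0⟩ (tau i g))‖ := by
      intro i
      have a1 : ‖p (WW ⟨i⟩ g)‖ ≤ ‖FF i (p (WW ⟨i⟩ g))‖ := by
        nth_rewrite 1 [← FF_FF i (p (WW ⟨i⟩ g))]
        exact ((FF i).le_of_opNorm_le (norm_FF i) _).trans (by simp)
      have a2 : FF i (p (WW ⟨i⟩ g)) =
          (FF i * p - p * FF i) (WW ⟨i⟩ g) + p (WW ⟨i⟩ (tau i g)) := by
        simp [FF_WW]
      have a3 : ‖(FF i * p - p * FF i) (WW ⟨i⟩ g)‖ ≤ ‖FF i * p - p * FF i‖ := by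
        have := (FF i * p - p * FF i).le_opNorm (WW ⟨i⟩ g)
        rwa [norm_WW, mul_one] at this
      have a4 := t ⟨i⟩ ⟨0⟩ (tau i g)
      have a5 := t x ⟨i⟩ g
      have a6 := norm_add_le ((FF i * p - p * FF i) (WW ⟨i⟩ g)) (p (WW ⟨i⟩ (tau i g)))
      rw [← a2] at a6
      linarith
    have h3 := (FF_comm hp).add (h0 g).norm
    simp only [norm_zero, add_zero] at h3
    exact norm_le_zero_iff.1 (ge_of_tendsto' h3 h2)
  refine ext_delta fun y => ?_
  rw [← UU_bb]
  unfold bb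
  have := h1 y.x
  unfold WW at this
  simp [this]

end Pool.Agent.H28Roe
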