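import Mathlib

set_option autoImplicit false

namespace H28Wga

open Finset Function
open scoped RealInnerProductSpace

variable {E H : Type} [NormedAddCommGroup E] [InnerProductSpace ℝ E]
  [NormedAddCommGroup H] [InnerProductSpace ℝ H]

/-- rotation of two vectors of a family -/
def rot (a : ℕ → E) (i j : ℕ) (x y : ℝ) : ℕ → E :=
  update (update a i (x • a i + y • a j)) j ((-y) • a i + x • a j)

theorem rot_i (a : ℕ → E) {i j : ℕ} (h : i ≠ j) (x y : ℝ) :
    rot a i j x y i = x • a i + y • a j := by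
  simp [rot, update_of_ne h]

theorem rot_j (a : ℕ → E) (i j : ℕ) (x y : ℝ) :
    rot a i j x y j = (-y) • a i + x • a j := by
  simp [rot]

theorem rot_k (a : ℕ → E) {i j k : ℕ} (hi : k ≠ i) (hj : k ≠ j) (x y : ℝ) :
    rot a i j x y k = a k := by
  simp [rot, update_of_ne hi, update_of_ne hj]

theorem rot_on {a : ℕ → E} (ha : Orthonormal ℝ a) {i j : ℕ} (h : i ≠ j) {x y : ℝ}
    (hxy : x ^ 2 + y ^ 2 = 1) : Orthonormal ℝ (rot a i j x y) := by
  rw [orthonormal_iff_ite] at ha ⊢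
  have h' := h.symm
  intro k l
  by_cases hki : k = i
  · subst hki
    by_cases hli : l = k
    · subst hli
      simp only [rot_i a h, inner_add_left, inner_add_right, inner_smul_left, inner_smul_right, ha,
        h, h', if_true, if_false, conj_trivial]
      linear_combination hxy
    · by_cases hlj : l = j
      · subst hlj
        simp only [rot_i a h, rot_j, inner_add_left, inner_add_right, inner_smul_left,
          inner_smul_right, ha, h, h', if_true, if_false, conj_trivial]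
        ring
      · simp only [rot_i a h, rot_k a hli hlj, inner_add_left, inner_smul_left, ha,
          Ne.symm hli, Ne.symm hlj, if_false, conj_trivial]
        ring
  · by_cases hkj : k = j
    · subst hkj
      by_cases hli : l = i
      · subst hli
        simp only [rot_i a h, rot_j, inner_add_left, inner_add_right, inner_smul_left,
          inner_smul_right, ha, h, h', if_true, if_false, conj_trivial]
        ring
      · by_cases hlj : l = k
        · subst hlj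
          simp only [rot_j, inner_add_left, inner_add_right, inner_smul_left,
            inner_smul_right, ha, h, h', if_true, if_false, conj_trivial]
          linear_combination hxy
        · simp only [rot_j, rot_k a hli hlj, inner_add_left, inner_smul_left, ha,
            Ne.symm hli, Ne.symm hlj, if_false, conj_trivial]
          ring
    · by_cases hli : l = i
      · subst hli
        simp only [rot_i a h, rot_k a hki hkj, inner_add_right, inner_smul_right, ha,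
          hki, hkj, if_false]
        ring
      · by_cases hlj : l = j
        · subst hlj
          simp only [rot_j, rot_k a hki hkj, inner_add_right, inner_smul_right, ha,
            hki, hkj, if_false]
          ring
        · rw [rot_k a hki hkj, rot_k a hli hlj, ha]

theorem sum_split {M : Type} [AddCommMonoid M] (F : ℕ → M) {r i j : ℕ} (hi : i < r) (hj : j < r)
    (h : i ≠ j) : ∑ k ∈ range r, F k = F i + F j + ∑ k ∈ ((range r).erase i).erase j, F k := by
  rw [add_assoc, add_sum_erase _ _ (by simp [hj, h.symm]), add_sum_erase _ _ (by simp [hi])]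

variable (T : E →ₗ[ℝ] E →ₗ[ℝ] H)

/-- singular value representation -/
def Rep (f : H) (r : ℕ) (s : ℕ → ℝ) : Prop :=
  (∀ i, r ≤ i → s i = 0) ∧ ∃ a b : ℕ → E, Orthonormal ℝ a ∧ Orthonormal ℝ b ∧
    f = ∑ i ∈ range r, s i • T (a i) (b i)

variable {T}

theorem Rep.change {f : H} {r r' : ℕ} {s : ℕ → ℝ} (h : Rep T f r s)
    (h' : ∀ i, r' ≤ i → s i = 0) : Rep T f r' s := by
  obtain ⟨h0, a, b, ha, hb, hf⟩ := h
  refine ⟨h', a, b, ha, hb, ?_⟩
  have e1 : ∀ n, (∀ i, n ≤ i → s i = 0) → n ≤ r + r' →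
      ∑ i ∈ range n, s i • T (a i) (b i) = ∑ i ∈ range (r + r'), s i • T (a i) (b i) := by
    intro n hn hle
    refine sum_subset (range_subset_range.2 hle) (fun k _ hk => ?_)
    rw [hn k (by simpa using hk), zero_smul]
  rw [hf, e1 r h0 (by omega), e1 r' h' (by omega)]

theorem block {r i j : ℕ} {s : ℕ → ℝ} (h0 : ∀ i, r ≤ i → s i = 0) {a b : ℕ → E}
    (ha : Orthonormal ℝ a) (hb : Orthonormal ℝ b) (hi : i < r) (hj : j < r) (h : i ≠ j)
    {x y x' y' : ℝ} (hxy : x ^ 2 + y ^ 2 = 1) (hxy' : x' ^ 2 + y' ^ 2 = 1) (s1 s2 : ℝ) (g : H)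
    (hg : s i • T (a i) (b i) + s j • T (a j) (b j) - g =
      s1 • T (x • a i + y • a j) (x' • b i + y' • b j)
        + s2 • T ((-y) • a i + x • a j) ((-y') • b i + x' • b j)) :
    Rep T (∑ k ∈ range r, s k • T (a k) (b k) - g) r (update (update s i s1) j s2) := by
  refine ⟨fun k hk => ?_, rot a i j x y, rot b i j x' y', rot_on ha h hxy, rot_on hb h hxy', ?_⟩
  · rw [update_of_ne (by omega), update_of_ne (by omega), h0 k hk]
  · rw [sum_split _ hi hj h, sum_split (fun k => update (update s i s1) j s2 k •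
      T (rot a i j x y k) (rot b i j x' y' k)) hi hj h]
    rw [rot_i a h, rot_i b h, rot_j, rot_j, update_of_ne h, update_self, update_self, ← hg]
    have : ∑ k ∈ ((range r).erase i).erase j, update (update s i s1) j s2 k •
        T (rot a i j x y k) (rot b i j x' y' k)
        = ∑ k ∈ ((range r).erase i).erase j, s k • T (a k) (b k) := by
      refine sum_congr rfl (fun k hk => ?_)
      simp only [mem_erase] at hk
      rw [rot_k a hk.2.1 hk.1, rot_k b hk.2.1 hk.1, update_of_ne hk.1, update_of_ne hk.2.1]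
    rw [this]
    abel

variable (hT : ∀ u v u' v' : E, ⟪T u v, T u' v'⟫ = ⟪u, u'⟫ * ⟪v, v'⟫)
include hT

theorem inner_rep (r : ℕ) (s : ℕ → ℝ) (a b : ℕ → E) (u v : E) :
    ⟪∑ i ∈ range r, s i • T (a i) (b i), T u v⟫ = ∑ i ∈ range r, s i * (⟪a i, u⟫ * ⟪b i, v⟫) := by
  rw [sum_inner]
  refine sum_congr rfl (fun i _ => ?_)
  rw [real_inner_smul_left, hT]

theorem Rep.norm_sq {f : H} {r : ℕ} {s : ℕ → ℝ} (h : Rep T f r s) :
    ‖f‖ ^ 2 = ∑ i ∈ range r, s i ^ 2 := by
  obtain ⟨-, a, b, ha, hb, hf⟩ := h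
  rw [orthonormal_iff_ite] at ha hb
  rw [← real_inner_self_eq_norm_sq]
  nth_rewrite 2 [hf]
  rw [inner_sum]
  refine sum_congr rfl (fun i hi => ?_)
  rw [real_inner_smul_right, hf, inner_rep hT]
  simp only [ha, hb]
  rw [sum_eq_single i (fun k _ hk => by simp [hk]) (fun h => absurd hi h)]
  simp [sq]

theorem Rep.sup_le {f : H} {r : ℕ} {s : ℕ → ℝ} (h : Rep T f r s) {M : ℝ} (hM : 0 ≤ M)
    (hs : ∀ i, 0 ≤ s i ∧ s i ≤ M) {u v : E} (hu : ‖u‖ = 1) (hv : ‖v‖ = 1) :
    |⟪f, T u v⟫| ≤ M := by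
  obtain ⟨-, a, b, ha, hb, hf⟩ := h
  rw [hf, inner_rep hT]
  have h1 := ha.sum_inner_products_le (s := range r) u
  have h2 := hb.sum_inner_products_le (s := range r) v
  rw [hu] at h1
  rw [hv] at h2
  simp only [Real.norm_eq_abs, sq_abs] at h1 h2
  calc _ ≤ ∑ i ∈ range r, |s i * (⟪a i, u⟫ * ⟪b i, v⟫)| := abs_sum_le_sum_abs _ _
    _ ≤ ∑ i ∈ range r, M / 2 * (⟪a i, u⟫ ^ 2 + ⟪b i, v⟫ ^ 2) := by
      refine sum_le_sum (fun i _ => ?_)
      rw [abs_mul, abs_of_nonneg (hs i).1]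
      have h3 : |⟪a i, u⟫ * ⟪b i, v⟫| ≤ (⟪a i, u⟫ ^ 2 + ⟪b i, v⟫ ^ 2) / 2 := by
        rw [abs_le]
        constructor <;> nlinarith [sq_nonneg (⟪a i, u⟫ + ⟪b i, v⟫), sq_nonneg (⟪a i, u⟫ - ⟪b i, v⟫)]
      calc _ ≤ M * ((⟪a i, u⟫ ^ 2 + ⟪b i, v⟫ ^ 2) / 2) :=
            mul_le_mul (hs i).2 h3 (abs_nonneg _) hM
        _ = _ := by ring
    _ = M / 2 * (∑ i ∈ range r, ⟪a i, u⟫ ^ 2 + ∑ i ∈ range r, ⟪b i, v⟫ ^ 2) := by
      rw [← mul_sum, sum_add_distrib]
    _ ≤ M := by nlinarith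

omit hT in
theorem half_angle (m b : ℝ) : ∃ ρ x y : ℝ, 0 ≤ ρ ∧ ρ ^ 2 = m ^ 2 + b ^ 2 ∧ x ^ 2 + y ^ 2 = 1 ∧
    m = ρ * (x ^ 2 - y ^ 2) ∧ b = ρ * (2 * x * y) := by
  set z : ℂ := ⟨m, b⟩ with hz
  refine ⟨‖z‖, Real.cos (z.arg / 2), Real.sin (z.arg / 2), norm_nonneg _, ?_,
    Real.cos_sq_add_sin_sq _, ?_, ?_⟩
  · rw [Complex.sq_norm, Complex.normSq_mk]; ring
  · rw [← Real.cos_two_mul', mul_div_cancel₀ _ (two_ne_zero), Complex.norm_mul_cos_arg]
  · have := Real.sin_two_mul (z.arg / 2)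
    rw [mul_div_cancel₀ _ (two_ne_zero)] at this
    have h2 : 2 * Real.cos (z.arg / 2) * Real.sin (z.arg / 2) = Real.sin z.arg := by
      rw [this]; ring
    rw [h2, Complex.norm_mul_sin_arg]

omit hT in
theorem exists_pq (α β c : ℝ) (hβ : 0 ≤ β) (hc : 0 ≤ c) (hca : c ≤ α) :
    ∃ p q : ℝ, p ^ 2 + q ^ 2 = 1 ∧ α * p ^ 2 - β * q ^ 2 = c := by
  rcases eq_or_lt_of_le (add_nonneg (hc.trans hca) hβ) with h | h
  · exact ⟨1, 0, by norm_num, by nlinarith⟩
  · refine ⟨Real.sqrt ((c + β) / (α + β)), Real.sqrt ((α - c) / (α + β)), ?_, ?_⟩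
    · rw [Real.sq_sqrt (by positivity), Real.sq_sqrt (div_nonneg (by linarith) h.le)]
      field_simp; ring
    · rw [Real.sq_sqrt (by positivity), Real.sq_sqrt (div_nonneg (by linarith) h.le)]
      field_simp; ring

theorem inner_two {r i j : ℕ} (s : ℕ → ℝ) {a b : ℕ → E}
    (ha : Orthonormal ℝ a) (hb : Orthonormal ℝ b) (hi : i < r) (hj : j < r) (h : i ≠ j)
    (p q p' q' : ℝ) :
    ⟪∑ k ∈ range r, s k • T (a k) (b k), T (p • a i + q • a j) (p' • b i + q' • b j)⟫
      = s i * (p * p') + s j * (q * q') := by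
  rw [orthonormal_iff_ite] at ha hb
  rw [inner_rep hT, sum_split _ hi hj h]
  have : ∑ k ∈ ((range r).erase i).erase j,
      s k * (⟪a k, p • a i + q • a j⟫ * ⟪b k, p' • b i + q' • b j⟫) = 0 := by
    refine sum_eq_zero (fun k hk => ?_)
    simp only [mem_erase] at hk
    simp [inner_add_right, inner_smul_right, ha, hk.1, hk.2.1]
  rw [this]
  simp only [inner_add_right, inner_smul_right, ha, hb, h, h.symm, if_true, if_false]
  ring

omit hT in
theorem unit_two {a : ℕ → E} (ha : Orthonormal ℝ a) {i j : ℕ} (h : i ≠ j) {p q : ℝ}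
    (hpq : p ^ 2 + q ^ 2 = 1) : ‖p • a i + q • a j‖ = 1 := by
  rw [← rot_i a h]; exact (rot_on ha h hpq).1 i

theorem pair_move {f : H} {r : ℕ} {s : ℕ → ℝ} (hf : Rep T f r s) {i j : ℕ} (hi : i < r)
    (hj : j < r) (h : i ≠ j) (hsj : 0 ≤ s j) {c : ℝ} (hc : 0 ≤ c) (hci : c ≤ s i) :
    ∃ u v : E, ‖u‖ = 1 ∧ ‖v‖ = 1 ∧ ⟪f, T u v⟫ = c ∧ ∃ s1 s2 : ℝ, 0 ≤ s1 ∧ 0 ≤ s2 ∧
      s1 - s2 = s i - s j - c ∧ s1 ^ 2 + s2 ^ 2 = s i ^ 2 + s j ^ 2 - c ^ 2 ∧
      Rep T (f - c • T u v) r (update (update s i s1) j s2) := by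
  obtain ⟨h0, a, b, ha, hb, rfl⟩ := hf
  obtain ⟨p, q, hpq, hc'⟩ := exists_pq (s i) (s j) c hsj hc hci
  have hpq' : p ^ 2 + (-q) ^ 2 = 1 := by linarith [neg_sq q]
  refine ⟨p • a i + q • a j, p • b i + (-q) • b j, unit_two ha h hpq, unit_two hb h hpq', ?_, ?_⟩
  · rw [inner_two hT s ha hb hi hj h]; linear_combination hc'
  obtain ⟨ρ, x, y, hρ, hρ2, hxy, hm, hβ⟩ :=
    half_angle ((s i - c * p ^ 2 + (s j + c * q ^ 2)) / 2) (-(c * p * q))
  set n := (s i - s j - c) / 2 with hn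
  have hdet : ρ ^ 2 - n ^ 2 = (s i - c) * (s j + c) := by
    have e : q ^ 2 = 1 - p ^ 2 := by linarith
    have e2 : (-(c * p * q)) ^ 2 = c ^ 2 * p ^ 2 * (1 - p ^ 2) := by rw [← e]; ring
    rw [hρ2, hn, e2, e]
    rw [e] at hc'
    linear_combination (-c) * hc'
  have hd0 : 0 ≤ (s i - c) * (s j + c) := mul_nonneg (by linarith) (by linarith)
  have habs : |n| ≤ ρ := abs_le_of_sq_le_sq' (by linarith) hρ |> abs_le.2
  have hab := abs_le.1 habs
  refine ⟨ρ + n, ρ - n, by linarith, by linarith, by rw [hn]; ring, ?_, ?_⟩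
  · have : (ρ + n) ^ 2 + (ρ - n) ^ 2 = 2 * (ρ ^ 2 - n ^ 2) + (2 * n) ^ 2 := by ring
    rw [this, hdet, hn]; ring
  · have hxy' : x ^ 2 + (-y) ^ 2 = 1 := by linarith [neg_sq y]
    refine block h0 ha hb hi hj h hxy hxy' _ _ _ ?_
    simp only [map_add, map_smul, LinearMap.add_apply, LinearMap.smul_apply]
    match_scalars
    · linear_combination hm - n * hxy - (c / 2) * hpq - hn
    · linear_combination hm + n * hxy + (c / 2) * hpq + hn
    · linear_combination hβ
    · linear_combination -hβ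

theorem idle_move {f : H} {r : ℕ} {s : ℕ → ℝ} (hf : Rep T f r s) {i : ℕ} (hi : i < r)
    {c : ℝ} (hc : 0 ≤ c) (hci : c ≤ s i) :
    ∃ u v : E, ‖u‖ = 1 ∧ ‖v‖ = 1 ∧ ⟪f, T u v⟫ = c ∧ ∃ s1 : ℝ, 0 ≤ s1 ∧ s1 ≤ s i ∧
      Rep T (f - c • T u v) r (update s i s1) := by
  have hr := hf.1 r le_rfl
  have hf0 := hf.1
  obtain ⟨h0, a, b, ha, hb, rfl⟩ := hf.change (r' := r + 1) (fun k hk => hf0 k (by omega))
  have h : i ≠ r := by omega
  obtain ⟨p, q, hpq, hp0, hq0, hc'⟩ : ∃ p q : ℝ, p ^ 2 + q ^ 2 = 1 ∧ 0 ≤ p ∧ 0 ≤ q ∧ s i * p = c := by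
    rcases eq_or_lt_of_le (hc.trans hci) with h1 | h1
    · exact ⟨1, 0, by norm_num, by norm_num, le_rfl, by linarith⟩
    · have h2 : c / s i ≤ 1 := (div_le_one h1).2 hci
      have h3 : 0 ≤ c / s i := by positivity
      refine ⟨c / s i, Real.sqrt (1 - (c / s i) ^ 2), ?_, h3, Real.sqrt_nonneg _, by field_simp⟩
      rw [Real.sq_sqrt (by nlinarith)]; ring
  have h10 : (1 : ℝ) ^ 2 + 0 ^ 2 = 1 := by norm_num
  have hsi : 0 ≤ s i := hc.trans hci
  refine ⟨(1 : ℝ) • a i + (0 : ℝ) • a r, p • b i + q • b r, unit_two ha h h10, unit_two hb h hpq,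
    ?_, s i * q, by positivity, ?_, ?_⟩
  · rw [inner_two hT s ha hb (by omega) (by omega) h]; linear_combination hc'
  · have : q ≤ 1 := by nlinarith
    nlinarith
  · have hqp : q ^ 2 + (-p) ^ 2 = 1 := by linarith [neg_sq p]
    have hb' := block (T := T) h0 ha hb (i := i) (j := r) (by omega) (by omega) h h10 hqp
      (s i * q) 0 (c • T ((1 : ℝ) • a i + (0 : ℝ) • a r) (p • b i + q • b r)) (by
        simp only [map_add, map_smul, LinearMap.add_apply, LinearMap.smul_apply, hr]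
        match_scalars
        · linear_combination (-(s i)) * hpq + p * hc'
        all_goals first | ring1 | linear_combination q * hc')
    have e : update (update s i (s i * q)) r 0 = update s i (s i * q) := by
      rw [update_eq_self_iff, update_of_ne h.symm, hr]
    rw [e] at hb'
    exact hb'.change (fun k hk => by rw [update_of_ne (by omega), hf0 k hk])

end H28Wga
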