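import Pool.Agent.Lib.helper28.WgaA

set_option autoImplicit false

namespace H28Wga

open Finset Function
open scoped RealInnerProductSpace

variable {E H : Type} [NormedAddCommGroup E] [InnerProductSpace ℝ E]
  [NormedAddCommGroup H] [InnerProductSpace ℝ H]

theorem proj_norm (f g : H) (hg : ‖g‖ = 1) : ‖f - ⟪f, g⟫ • g‖ ^ 2 = ‖f‖ ^ 2 - ⟪f, g⟫ ^ 2 := by
  rw [norm_sub_sq_real, real_inner_smul_right, norm_smul, hg, mul_one, Real.norm_eq_abs, sq_abs]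
  ring

theorem pair_num {a b c x y : ℝ} (ha : 0 < a) (hb : 0 ≤ b) (hba : 2 * b ≤ a) (hc : 0 ≤ c)
    (_hca : c ≤ a) (hx : 0 ≤ x) (hy : 0 ≤ y) (h1 : x - y = a - b - c)
    (h2 : x ^ 2 + y ^ 2 = a ^ 2 + b ^ 2 - c ^ 2) :
    x ≤ a ∧ y ≤ a ∧ c / 4 - 3 * c ^ 2 / a ≤ x + y - a - b := by
  have hD : (x + y) ^ 2 = (a + b) ^ 2 + 2 * c * (a - b) - 3 * c ^ 2 := by
    have : (x + y) ^ 2 = 2 * (x ^ 2 + y ^ 2) - (x - y) ^ 2 := by ring
    rw [this, h1, h2]; ring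
  have hD2 : x + y ≤ a + b + c := le_of_sq_le_sq (by nlinarith) (by linarith)
  have hxa : x ≤ a := by linarith
  have hya : y ≤ a := by
    rcases le_total c (a - b) with h | h
    · linarith
    · exact le_of_sq_le_sq (by nlinarith) ha.le
  refine ⟨hxa, hya, ?_⟩
  have hX : c * a - 3 * c ^ 2 ≤ (x + y - a - b) * (x + y + a + b) := by nlinarith
  have h3 : c / 4 - 3 * c ^ 2 / a = (c * a / 4 - 3 * c ^ 2) / a := by field_simp
  rw [h3, div_le_iff₀ ha]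
  rcases le_total 0 (x + y - a - b) with h | h
  · nlinarith
  · nlinarith

variable {T : E →ₗ[ℝ] E →ₗ[ℝ] H}
variable (hT : ∀ u v u' v' : E, ⟪T u v, T u' v'⟫ = ⟪u, u'⟫ * ⟪v, v'⟫)
include hT

theorem T_norm {u v : E} (hu : ‖u‖ = 1) (hv : ‖v‖ = 1) : ‖T u v‖ = 1 := by
  have := hT u v u v
  simp only [real_inner_self_eq_norm_sq, hu, hv] at this
  have h := norm_nonneg (T u v)
  nlinarith

theorem step {f : H} {r : ℕ} {s : ℕ → ℝ} (hf : Rep T f r s) {M M' t η : ℝ}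
    (hs : ∀ i, 0 ≤ s i ∧ s i ≤ M) (hE : ‖f‖ ^ 2 ≤ 1) (hr : 0 < r) (hM' : 0 < M')
    (hMr : M' ^ 2 * r = 4) (ht0 : 0 ≤ t) (ht1 : t ≤ 1) (hη0 : 0 ≤ η) (hη : η ≤ M') :
    ∃ u v : E, ‖u‖ = 1 ∧ ‖v‖ = 1 ∧
      (∀ u' v' : E, ‖u'‖ = 1 → ‖v'‖ = 1 → t * |⟪f, T u' v'⟫| ≤ |⟪f, T u v⟫|) ∧
      ∃ s' : ℕ → ℝ, Rep T (f - ⟪f, T u v⟫ • T u v) r s' ∧ (∀ i, 0 ≤ s' i ∧ s' i ≤ M) ∧
        (((∀ i, s' i ≤ M') ∧ ⟪f, T u v⟫ ^ 2 ≤ M ^ 2 * t ^ 2) ∨
         (¬ (∀ i, s i ≤ M') ∧ ⟪f, T u v⟫ ^ 2 ≤ M ^ 2 * t ^ 2 + η ^ 2 ∧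
          ∑ i ∈ range r, s i + η / 4 ≤ ∑ i ∈ range r, s' i + 3 / M' * ⟪f, T u v⟫ ^ 2)) := by
  have hne : (range r).Nonempty := ⟨0, by simpa using hr⟩
  obtain ⟨i, hi, hmax⟩ := exists_max_image (range r) s hne
  rw [mem_range] at hi
  have hmax' : ∀ k, 0 ≤ s k ∧ s k ≤ s i := fun k => by
    refine ⟨(hs k).1, ?_⟩
    by_cases hk : k < r
    · exact hmax k (by simpa using hk)
    · rw [hf.1 k (by omega)]; exact (hs i).1
  have hsi := (hs i).1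
  have hiM := (hs i).2
  have hsup : ∀ c : ℝ, t * s i ≤ c → ∀ u' v' : E, ‖u'‖ = 1 → ‖v'‖ = 1 →
      t * |⟪f, T u' v'⟫| ≤ |c| := fun c hc u' v' hu hv =>
    (mul_le_mul_of_nonneg_left (hf.sup_le hT hsi hmax' hu hv) ht0).trans (hc.trans (le_abs_self c))
  have hts : t * s i ≤ s i := by nlinarith
  have htM : (t * s i) ^ 2 ≤ M ^ 2 * t ^ 2 := by
    have : (s i) ^ 2 ≤ M ^ 2 := pow_le_pow_left₀ hsi hiM 2
    nlinarith [sq_nonneg t]
  by_cases hle : s i ≤ M'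
  · obtain ⟨u, v, hu, hv, hc, s1, h0, h1, hrep⟩ :=
      idle_move hT hf hi (c := t * s i) (by positivity) hts
    have hup : ∀ k, 0 ≤ update s i s1 k ∧ update s i s1 k ≤ s i := fun k => by
      by_cases hk : k = i
      · subst hk; rw [update_self]; exact ⟨h0, h1⟩
      · rw [update_of_ne hk]; exact hmax' k
    refine ⟨u, v, hu, hv, ?_, update s i s1, ?_, fun k => ⟨(hup k).1, (hup k).2.trans hiM⟩,
      Or.inl ⟨fun k => (hup k).2.trans hle, ?_⟩⟩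
    · rw [hc]; exact hsup _ le_rfl
    · rw [hc]; exact hrep
    · rw [hc]; exact htM
  · push Not at hle
    obtain ⟨j, hj, hmin⟩ := exists_min_image (range r) s hne
    rw [mem_range] at hj
    have hsj := (hs j).1
    have h1 : (r : ℝ) * s j ^ 2 ≤ 1 := by
      refine le_trans ?_ hE
      rw [hf.norm_sq hT]
      have := card_nsmul_le_sum (range r) (fun k => s k ^ 2) (s j ^ 2)
        (fun k hk => pow_le_pow_left₀ hsj (hmin k hk) 2)
      simpa using this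
    have hr' : (0 : ℝ) < r := by exact_mod_cast hr
    have h2 : 2 * s j ≤ M' := by
      apply le_of_sq_le_sq _ hM'.le
      apply le_of_mul_le_mul_right _ hr'
      nlinarith
    have hij : i ≠ j := by rintro rfl; linarith
    set c := max (t * s i) η with hcdef
    have hc0 : 0 ≤ c := hη0.trans (le_max_right _ _)
    have hci : c ≤ s i := max_le hts (by linarith)
    obtain ⟨u, v, hu, hv, hc, x, y, hx, hy, e1, e2, hrep⟩ := pair_move hT hf hi hj hij hsj hc0 hci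
    obtain ⟨n1, n2, n3⟩ := pair_num (by linarith) hsj (by linarith) hc0 hci hx hy e1 e2
    refine ⟨u, v, hu, hv, ?_, update (update s i x) j y, ?_, fun k => ?_, Or.inr ⟨?_, ?_, ?_⟩⟩
    · rw [hc]; exact hsup _ (le_max_left _ _)
    · rw [hc]; exact hrep
    · by_cases hk : k = j
      · subst hk; rw [update_self]; exact ⟨hy, n2.trans hiM⟩
      · rw [update_of_ne hk]
        by_cases hk' : k = i
        · subst hk'; rw [update_self]; exact ⟨hx, n1.trans hiM⟩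
        · rw [update_of_ne hk']; exact hs k
    · intro h; linarith [h i]
    · rw [hc]
      rcases max_choice (t * s i) η with h | h
      · rw [hcdef, h]; nlinarith [sq_nonneg η]
      · rw [hcdef, h]; nlinarith [sq_nonneg (M * t)]
    · rw [hc, sum_split s hi hj hij, sum_split (update (update s i x) j y) hi hj hij,
        update_of_ne hij, update_self, update_self]
      have : ∑ k ∈ ((range r).erase i).erase j, update (update s i x) j y k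
          = ∑ k ∈ ((range r).erase i).erase j, s k := by
        refine sum_congr rfl (fun k hk => ?_)
        simp only [mem_erase] at hk
        rw [update_of_ne hk.1, update_of_ne hk.2.1]
      rw [this]
      have h3 : 3 * c ^ 2 / s i ≤ 3 / M' * c ^ 2 := by
        rw [div_mul_eq_mul_div]
        exact div_le_div_of_nonneg_left (by positivity) hM' hle.le
      have h4 : η ≤ c := le_max_right _ _
      linarith

omit hT

noncomputable def lev (s : ℕ) : ℝ := Real.sqrt (4 / 2 ^ s)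

theorem lev_pos (s : ℕ) : 0 < lev s := by unfold lev; positivity

theorem lev_sq (s : ℕ) : lev s ^ 2 = 4 / 2 ^ s := by unfold lev; rw [Real.sq_sqrt (by positivity)]

theorem lev_mul (s : ℕ) : lev s ^ 2 * ((2 ^ s : ℕ) : ℝ) = 4 := by
  rw [lev_sq]; push_cast; field_simp

theorem lev_anti (s : ℕ) : lev (s + 1) ≤ lev s := by
  unfold lev
  apply Real.sqrt_le_sqrt
  apply div_le_div_of_nonneg_left (by norm_num) (by positivity)
  exact pow_le_pow_right₀ (by norm_num) (by omega)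

noncomputable def eta (q : ℕ → ℕ) (s : ℕ) : ℝ := 24 / (lev (s + 1) * ((q (s + 1) - q s : ℕ) : ℝ))

noncomputable def loss (t : ℕ → ℝ) (q : ℕ → ℕ) (s : ℕ) : ℝ :=
  lev s ^ 2 * ∑ k ∈ range (q (s + 1)), t k ^ 2 + ((q (s + 1) - q s : ℕ) : ℝ) * eta q s ^ 2

variable (T) in
/-- the invariant of the divergent realization -/
def Core (t : ℕ → ℝ) (q : ℕ → ℕ) (s0 m : ℕ) (f : H) (s : ℕ) (σ : ℕ → ℝ) : Prop :=
  s0 ≤ s ∧ Rep T f (2 ^ (s + 1)) σ ∧ (∀ i, 0 ≤ σ i ∧ σ i ≤ lev s) ∧ ‖f‖ ^ 2 ≤ 1 ∧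
    1 - ∑ k ∈ Ico s0 s, loss t q k - lev s ^ 2 * ∑ k ∈ range m, t k ^ 2
      - ((m - q s : ℕ) : ℝ) * eta q s ^ 2 ≤ ‖f‖ ^ 2 ∧
    ((∀ i, σ i ≤ lev (s + 1)) ∨ (q s ≤ m ∧ -(3 / lev (s + 1)) + ((m - q s : ℕ) : ℝ) * (eta q s / 4)
      ≤ ∑ i ∈ range (2 ^ (s + 1)), σ i - 3 / lev (s + 1) * ‖f‖ ^ 2))

theorem Core.low {t : ℕ → ℝ} {q : ℕ → ℕ} {s0 m : ℕ} {f : H} {s : ℕ} {σ : ℕ → ℝ}
    (h : Core T t q s0 m f s σ) (hm : m ≤ q (s + 1)) :
    1 - ∑ k ∈ Ico s0 (s + 1), loss t q k ≤ ‖f‖ ^ 2 := by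
  obtain ⟨h0, -, -, -, h4, -⟩ := h
  rw [sum_Ico_succ_top h0]
  have h1 : ∑ k ∈ range m, t k ^ 2 ≤ ∑ k ∈ range (q (s + 1)), t k ^ 2 :=
    sum_le_sum_of_subset_of_nonneg (range_subset_range.2 hm) (fun _ _ _ => sq_nonneg _)
  have h2 : ((m - q s : ℕ) : ℝ) ≤ ((q (s + 1) - q s : ℕ) : ℝ) := by
    exact_mod_cast Nat.sub_le_sub_right hm _
  have h3 := mul_le_mul_of_nonneg_left h1 (sq_nonneg (lev s))
  have h5 := mul_le_mul_of_nonneg_right h2 (sq_nonneg (eta q s))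
  unfold loss at *
  linarith

include hT in
theorem Core.next {t : ℕ → ℝ} {q : ℕ → ℕ} (hq : StrictMono q) {s0 : ℕ} {f : H} {s : ℕ}
    {σ : ℕ → ℝ} (h : Core T t q s0 (q (s + 1)) f s σ) :
    Core T t q s0 (q (s + 1)) f (s + 1) σ := by
  have hlow := h.low le_rfl
  obtain ⟨h0, h1, h2, h3, h4, h5⟩ := h
  have hL := lev_pos (s + 1)
  have hL2 := lev_pos (s + 1 + 1)
  have htop : ∀ i, σ i ≤ lev (s + 1) := by
    rcases h5 with h5 | ⟨-, h5⟩
    · exact h5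
    · exfalso
      have hd : (0 : ℝ) < ((q (s + 1) - q s : ℕ) : ℝ) := by
        have := hq (Nat.lt_succ_self s)
        exact_mod_cast Nat.sub_pos_of_lt this
      have e1 : ((q (s + 1) - q s : ℕ) : ℝ) * (eta q s / 4) = 6 / lev (s + 1) := by
        unfold eta; field_simp; norm_num
      have e2 : ∑ i ∈ range (2 ^ (s + 1)), σ i ≤
          ∑ i ∈ range (2 ^ (s + 1)), (σ i ^ 2 / lev (s + 1) + lev (s + 1) / 4) := by
        refine sum_le_sum (fun i _ => ?_)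
        rw [div_add_div _ _ hL.ne' (by norm_num), le_div_iff₀ (by positivity)]
        nlinarith [sq_nonneg (2 * σ i - lev (s + 1))]
      rw [sum_add_distrib, ← sum_div, ← h1.norm_sq hT, sum_const, card_range, nsmul_eq_mul] at e2
      have e3 : ((2 ^ (s + 1) : ℕ) : ℝ) * (lev (s + 1) / 4) = 1 / lev (s + 1) := by
        have := lev_mul (s + 1)
        field_simp
        linarith
      have e4 : ‖f‖ ^ 2 / lev (s + 1) ≤ 1 / lev (s + 1) := div_le_div_of_nonneg_right h3 hL.le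
      have e5 : 0 ≤ 3 / lev (s + 1) * ‖f‖ ^ 2 := by positivity
      have e6 : 0 < 1 / lev (s + 1) := by positivity
      have e7 : 6 / lev (s + 1) = 6 * (1 / lev (s + 1)) := by ring
      have e8 : 3 / lev (s + 1) = 3 * (1 / lev (s + 1)) := by ring
      rw [e1] at h5
      linarith
  refine ⟨by omega, h1.change (fun i hi => h1.1 i ?_), fun i => ⟨(h2 i).1, htop i⟩, h3, ?_,
    Or.inr ⟨le_rfl, ?_⟩⟩
  · have : 2 ^ (s + 1) ≤ 2 ^ (s + 1 + 1) := Nat.pow_le_pow_right (by norm_num) (by omega)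
    omega
  · have : 0 ≤ lev (s + 1) ^ 2 * ∑ k ∈ range (q (s + 1)), t k ^ 2 := by positivity
    simp only [Nat.sub_self, Nat.cast_zero, zero_mul]
    linarith
  · simp only [Nat.sub_self, Nat.cast_zero, zero_mul]
    have e1 : 0 ≤ ∑ i ∈ range (2 ^ (s + 1 + 1)), σ i := sum_nonneg (fun i _ => (h2 i).1)
    have e2 : 3 / lev (s + 1 + 1) * ‖f‖ ^ 2 ≤ 3 / lev (s + 1 + 1) * 1 :=
      mul_le_mul_of_nonneg_left h3 (by positivity)
    linarith

include hT in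
theorem Core.step {t : ℕ → ℝ} (ht : ∀ k, 0 ≤ t k ∧ t k ≤ 1) {q : ℕ → ℕ} {s0 : ℕ}
    (hη : ∀ s, s0 ≤ s → eta q s ≤ lev (s + 1)) {m : ℕ} {f : H} {s : ℕ}
    {σ : ℕ → ℝ} (h : Core T t q s0 m f s σ) :
    ∃ u v : E, ‖u‖ = 1 ∧ ‖v‖ = 1 ∧
      (∀ u' v' : E, ‖u'‖ = 1 → ‖v'‖ = 1 → t m * |⟪f, T u' v'⟫| ≤ |⟪f, T u v⟫|) ∧
      ∃ σ', Core T t q s0 (m + 1) (f - ⟪f, T u v⟫ • T u v) s σ' := by
  obtain ⟨h0, h1, h2, h3, h4, h5⟩ := h
  have hη0 : 0 ≤ eta q s := by unfold eta; have := lev_pos (s + 1); positivity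
  obtain ⟨u, v, hu, hv, hsup, σ', r1, r2, r3⟩ := H28Wga.step hT h1 h2 h3 (by positivity)
    (lev_pos (s + 1)) (lev_mul (s + 1)) (ht m).1 (ht m).2 hη0 (hη s h0)
  have hn := proj_norm f (T u v) (T_norm hT hu hv)
  refine ⟨u, v, hu, hv, hsup, σ', h0, r1, r2, by nlinarith [sq_nonneg ⟪f, T u v⟫], ?_⟩
  rw [sum_range_succ, hn]
  rcases r3 with ⟨r3, r4⟩ | ⟨r3, r4, r5⟩
  · refine ⟨?_, Or.inl r3⟩
    have e1 : ((m - q s : ℕ) : ℝ) ≤ ((m + 1 - q s : ℕ) : ℝ) := by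
      exact_mod_cast Nat.sub_le_sub_right (Nat.le_succ m) _
    have e2 := mul_le_mul_of_nonneg_right e1 (sq_nonneg (eta q s))
    nlinarith
  · obtain ⟨h6, h7⟩ := h5.resolve_left r3
    have e1 : ((m + 1 - q s : ℕ) : ℝ) = ((m - q s : ℕ) : ℝ) + 1 := by
      rw [Nat.sub_add_comm h6]; push_cast; ring
    rw [e1]
    refine ⟨by nlinarith, Or.inr ⟨by omega, by nlinarith⟩⟩

include hT in
theorem diverge {e : ℕ → E} (he : Orthonormal ℝ e) {t : ℕ → ℝ} (ht : ∀ k, 0 ≤ t k ∧ t k ≤ 1)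
    {q : ℕ → ℕ} (hq : StrictMono q)
    (h1 : Summable (fun s => (2 : ℝ) ^ (s + 1) / ((q (s + 1) : ℝ) - q s)))
    (h2 : Summable (fun s => ((2 : ℝ) ^ (s + 1))⁻¹ * ∑ k ∈ range (q (s + 1)), t k ^ 2)) :
    ∃ (f : ℕ → H) (u v : ℕ → E), ∀ m, ‖u m‖ = 1 ∧ ‖v m‖ = 1 ∧
      (∀ u' v' : E, ‖u'‖ = 1 → ‖v'‖ = 1 → t m * |⟪f m, T u' v'⟫| ≤ |⟪f m, T (u m) (v m)⟫|) ∧
      f (m + 1) = f m - ⟪f m, T (u m) (v m)⟫ • T (u m) (v m) ∧ 1 / 2 ≤ ‖f m‖ ^ 2 := by
  have hd : ∀ s, ((q (s + 1) - q s : ℕ) : ℝ) = (q (s + 1) : ℝ) - q s := fun s =>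
    Nat.cast_sub (hq (Nat.lt_succ_self s)).le
  have hd0 : ∀ s, (0 : ℝ) < ((q (s + 1) - q s : ℕ) : ℝ) := fun s => by
    exact_mod_cast Nat.sub_pos_of_lt (hq (Nat.lt_succ_self s))
  have he2 : ∀ s, ((q (s + 1) - q s : ℕ) : ℝ) * eta q s ^ 2
      = 144 * ((2 : ℝ) ^ (s + 1) / ((q (s + 1) : ℝ) - q s)) := fun s => by
    unfold eta
    rw [← hd s, div_pow, mul_pow, lev_sq]
    have := hd0 s
    field_simp
    norm_num
  have hL : Summable (loss t q) := by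
    refine ((h2.mul_left 8).add (h1.mul_left 144)).congr (fun s => ?_)
    unfold loss
    rw [he2, lev_sq, ← mul_assoc]
    congr 2
    field_simp
    ring
  obtain ⟨F, hF⟩ := hL.vanishing (e := Set.Iic (1 / 2 : ℝ)) (Iic_mem_nhds (by norm_num))
  set s0 := F.sup id + 1 with hs0
  have hF' : ∀ G : Finset ℕ, (∀ k ∈ G, s0 ≤ k) → ∑ k ∈ G, loss t q k ≤ 1 / 2 := fun G hG => by
    refine hF G (disjoint_left.2 (fun k hk hk' => ?_))
    have := le_sup (f := id) hk'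
    have := hG k hk
    simp only [id] at *
    omega
  have hη : ∀ s, s0 ≤ s → eta q s ≤ lev (s + 1) := fun s hs => by
    have e1 := hF' {s} (by simpa using hs)
    rw [sum_singleton] at e1
    unfold loss at e1
    have e2 : 0 ≤ lev s ^ 2 * ∑ k ∈ range (q (s + 1)), t k ^ 2 := by positivity
    have e3 := lev_pos (s + 1)
    have e4 := hd0 s
    have e5 : ((q (s + 1) - q s : ℕ) : ℝ) * eta q s * lev (s + 1) = 24 := by
      unfold eta; field_simp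
    have e6 : 0 ≤ eta q s := by unfold eta; positivity
    by_contra hcon
    push Not at hcon
    have e7 : ((q (s + 1) - q s : ℕ) : ℝ) * eta q s * lev (s + 1) ≤
        ((q (s + 1) - q s : ℕ) : ℝ) * eta q s * eta q s :=
      mul_le_mul_of_nonneg_left hcon.le (by positivity)
    nlinarith
  let Inv : ℕ → H → Prop := fun m f => ∃ s σ, m < q (s + 1) ∧ Core T t q s0 m f s σ
  have key : ∀ m f, Inv m f → ∃ w : E × E, ‖w.1‖ = 1 ∧ ‖w.2‖ = 1 ∧
      (∀ u' v' : E, ‖u'‖ = 1 → ‖v'‖ = 1 → t m * |⟪f, T u' v'⟫| ≤ |⟪f, T w.1 w.2⟫|) ∧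
      Inv (m + 1) (f - ⟪f, T w.1 w.2⟫ • T w.1 w.2) := by
    rintro m f ⟨s, σ, hm, hc⟩
    obtain ⟨u, v, hu, hv, hsup, σ', hc'⟩ := hc.step hT ht hη
    refine ⟨(u, v), hu, hv, hsup, ?_⟩
    rcases Nat.lt_or_ge (m + 1) (q (s + 1)) with h | h
    · exact ⟨s, σ', h, hc'⟩
    · have e : m + 1 = q (s + 1) := by omega
      rw [e] at hc' ⊢
      exact ⟨s + 1, σ', hq (Nat.lt_succ_self _), hc'.next hT hq⟩
  choose! g hg using key
  set σ0 : ℕ → ℝ := fun i => if i < 2 ^ (s0 + 1) then lev (s0 + 1) / 2 else 0 with hσ0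
  set f0 : H := ∑ i ∈ range (2 ^ (s0 + 1)), σ0 i • T (e i) (e i) with hf0
  have hrep : Rep T f0 (2 ^ (s0 + 1)) σ0 :=
    ⟨fun i hi => by simp only [hσ0]; rw [if_neg (by omega)], e, e, he, he, rfl⟩
  have hn0 : ‖f0‖ ^ 2 = 1 := by
    rw [hrep.norm_sq hT, sum_congr rfl (g := fun _ => (lev (s0 + 1) / 2) ^ 2)
      (fun i hi => by simp only [hσ0]; rw [if_pos (by simpa using hi)]), sum_const, card_range,
      nsmul_eq_mul]
    have := lev_mul (s0 + 1)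
    linarith
  have hl := lev_pos (s0 + 1)
  have hσ : ∀ i, 0 ≤ σ0 i ∧ σ0 i ≤ lev (s0 + 1) := fun i => by
    simp only [hσ0]; split_ifs <;> constructor <;> linarith
  have hI0 : Inv 0 f0 := by
    refine ⟨s0, σ0, ?_, le_rfl, hrep, fun i => ⟨(hσ i).1, (hσ i).2.trans (lev_anti s0)⟩, hn0.le,
      by simp [hn0], Or.inl (fun i => (hσ i).2)⟩
    exact lt_of_le_of_lt (Nat.zero_le _) (hq (Nat.lt_succ_self s0))
  let f : ℕ → H := fun m => Nat.rec f0 (fun m f => f - ⟪f, T (g m f).1 (g m f).2⟫ •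
    T (g m f).1 (g m f).2) m
  have hI : ∀ m, Inv m (f m) := fun m => by
    induction m with
    | zero => exact hI0
    | succ m ih => exact (hg m (f m) ih).2.2.2
  refine ⟨f, fun m => (g m (f m)).1, fun m => (g m (f m)).2, fun m => ⟨(hg m _ (hI m)).1,
    (hg m _ (hI m)).2.1, (hg m _ (hI m)).2.2.1, rfl, ?_⟩⟩
  obtain ⟨s, σ, hm, hc⟩ := hI m
  have e1 := hc.low hm.le
  have e2 := hF' (Ico s0 (s + 1)) (fun k hk => (mem_Ico.1 hk).1)
  linarith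

end H28Wga
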