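import Mathlib

set_option autoImplicit false

namespace H28WgaS

open Finset Filter Topology
open scoped RealInnerProductSpace

/-- the class V, zero-indexed -/
def V0 (t : ℕ → ℝ) : Prop := ∃ q : ℕ → ℕ, q 0 = 0 ∧ StrictMono q ∧
  Summable (fun s => (2 : ℝ) ^ (s + 1) / ((q (s + 1) : ℝ) - q s)) ∧
  Summable (fun s => ((2 : ℝ) ^ (s + 1))⁻¹ * ∑ k ∈ range (q (s + 1)), t k ^ 2)

theorem core (b t : ℕ → ℝ) (hb : ∀ k, 0 ≤ b k) (hb2 : Summable (fun k => b k ^ 2))
    (hB : Tendsto (fun n => ∑ k ∈ range n, b k) atTop atTop) (ht : ∀ k, 0 ≤ t k) (ε : ℝ)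
    (hε : 0 < ε) (h : ∀ m, ε * t m ≤ b m * (1 + ∑ j ∈ range m, b j)) : V0 t := by
  set B : ℕ → ℝ := fun n => ∑ k ∈ range n, b k with hBdef
  have hBm : Monotone B := fun m n hmn =>
    sum_le_sum_of_subset_of_nonneg (range_subset_range.2 hmn) (fun k _ _ => hb k)
  set ρ := Real.sqrt 2 with hρ
  have hρ2 : ρ ^ 2 = 2 := Real.sq_sqrt (by norm_num)
  have hρ0 : 0 < ρ := by positivity
  have hρ1 : 7 / 5 ≤ ρ := le_of_sq_le_sq (by rw [hρ2]; norm_num) hρ0.le
  have hρ3 : ρ ≤ 3 / 2 := le_of_sq_le_sq (by rw [hρ2]; norm_num) (by norm_num)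
  have hρs : ∀ s, (ρ ^ s) ^ 2 = 2 ^ s := fun s => by rw [← pow_mul, mul_comm, pow_mul, hρ2]
  have hex : ∀ x : ℝ, ∃ n, x ≤ B n := fun x => (hB.eventually_ge_atTop x).exists
  obtain ⟨K, hK0, hK⟩ : ∃ K, 0 ≤ K ∧ ∀ k, b k ≤ K := by
    refine ⟨1 + ∑' k, b k ^ 2, by positivity, fun k => ?_⟩
    have := hb2.le_tsum k (fun j _ => sq_nonneg _)
    nlinarith [sq_nonneg (b k - 1)]
  classical
  obtain ⟨q, hq0, hqs⟩ : ∃ q : ℕ → ℕ, q 0 = 0 ∧
      ∀ s, q (s + 1) = Nat.find (hex (B (q s) + ρ ^ (s + 1))) :=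
    ⟨fun s => Nat.rec 0 (fun s n => Nat.find (hex (B n + ρ ^ (s + 1)))) s, rfl, fun s => rfl⟩
  have h1 : ∀ s, B (q s) + ρ ^ (s + 1) ≤ B (q (s + 1)) := fun s => by
    rw [hqs]; exact Nat.find_spec (hex _)
  have hlt : ∀ s, q s < q (s + 1) := fun s => by
    by_contra hc
    have := hBm (not_lt.1 hc)
    have := h1 s
    have : 0 < ρ ^ (s + 1) := by positivity
    linarith
  have h2 : ∀ s, B (q (s + 1)) ≤ B (q s) + ρ ^ (s + 1) + K := fun s => by
    obtain ⟨n, hn⟩ : ∃ n, q (s + 1) = n + 1 := ⟨q (s + 1) - 1, by have := hlt s; omega⟩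
    have := Nat.find_min (hex (B (q s) + ρ ^ (s + 1))) (m := n) (by rw [← hqs]; omega)
    rw [hn]
    have e : B (n + 1) = B n + b n := sum_range_succ _ _
    have := hK n
    linarith
  have h3 : ∀ s, 1 + B (q s) ≤ (3 * K + 4) * ρ ^ s := fun s => by
    induction s with
    | zero => simp [hq0, hBdef]; linarith
    | succ s ih =>
      have e1 := h2 s
      have e2 : 1 ≤ ρ ^ s := one_le_pow₀ (by linarith)
      rw [pow_succ] at e1 ⊢
      have e3 : K ≤ K * ρ ^ s := le_mul_of_one_le_right hK0 e2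
      have e4 : (3 * K + 4) + ρ + K ≤ (3 * K + 4) * ρ := by nlinarith
      have e5 := mul_le_mul_of_nonneg_left e4 (by positivity : 0 ≤ ρ ^ s)
      nlinarith
  set Z : ℕ → ℝ := fun s => ∑ j ∈ Ico (q s) (q (s + 1)), b j ^ 2 with hZ
  have hZ0 : ∀ s, 0 ≤ Z s := fun s => sum_nonneg (fun _ _ => sq_nonneg _)
  have hZs : ∀ n, ∑ s ∈ range n, Z s = ∑ j ∈ range (q n), b j ^ 2 := fun n => by
    induction n with
    | zero => simp [hq0]
    | succ n ih => rw [sum_range_succ, ih, sum_range_add_sum_Ico _ (hlt n).le]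
  have hZb : ∀ n, ∑ s ∈ range n, Z s ≤ ∑' k, b k ^ 2 := fun n => by
    rw [hZs]; exact hb2.sum_le_tsum _ (fun _ _ => sq_nonneg _)
  have hZsum : Summable Z := summable_of_sum_range_le hZ0 hZb
  refine ⟨q, hq0, strictMono_nat_of_lt_succ hlt, ?_, ?_⟩
  · have hd : ∀ s : ℕ, (0 : ℝ) < ((q (s + 1) : ℕ) : ℝ) - ((q s : ℕ) : ℝ) := fun s => by
      have : ((q s : ℕ) : ℝ) < ((q (s + 1) : ℕ) : ℝ) := by exact_mod_cast hlt s
      linarith
    refine Summable.of_nonneg_of_le (fun s => (div_pos (by positivity) (hd s)).le) (fun s => ?_)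
      hZsum
    rw [div_le_iff₀ (hd s)]
    have e1 := sq_sum_le_card_mul_sum_sq (s := Ico (q s) (q (s + 1))) (f := b)
    rw [Nat.card_Ico, Nat.cast_sub (hlt s).le] at e1
    have e2 : ρ ^ (s + 1) ≤ ∑ j ∈ Ico (q s) (q (s + 1)), b j := by
      rw [sum_Ico_eq_sub _ (hlt s).le]
      have := h1 s
      simp only [hBdef] at this
      linarith
    have e3 := pow_le_pow_left₀ (by positivity) e2 2
    rw [hρs] at e3
    simp only [hZ]
    linarith
  · set C := (3 * K + 4) ^ 2 / ε ^ 2 with hC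
    have hC0 : 0 ≤ C := by positivity
    set W : ℕ → ℝ := fun n => ((2 : ℝ) ^ n)⁻¹ * ∑ k ∈ range (q n), t k ^ 2 with hW
    have hW0 : ∀ n, 0 ≤ W n := fun n => by simp only [hW]; positivity
    have hY : ∀ s, ∑ k ∈ Ico (q s) (q (s + 1)), t k ^ 2 ≤ C * 2 ^ (s + 1) * Z s := fun s => by
      simp only [hZ]
      rw [mul_sum]
      refine sum_le_sum (fun k hk => ?_)
      have e1 : B k ≤ B (q (s + 1)) := hBm (mem_Ico.1 hk).2.le
      have e2 : ε * t k ≤ b k * ((3 * K + 4) * ρ ^ (s + 1)) :=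
        (h k).trans (mul_le_mul_of_nonneg_left (by linarith [h3 (s + 1)]) (hb k))
      have e3 := pow_le_pow_left₀ (mul_nonneg hε.le (ht k)) e2 2
      rw [mul_pow, mul_pow, mul_pow, hρs] at e3
      rw [hC, div_mul_eq_mul_div, div_mul_eq_mul_div, le_div_iff₀ (by positivity)]
      linarith
    have hWs : ∀ s, 2 * W (s + 1) ≤ W s + 2 * C * Z s := fun s => by
      simp only [hW]
      rw [← sum_range_add_sum_Ico _ (hlt s).le]
      have e1 := mul_le_mul_of_nonneg_left (hY s) (by positivity : (0 : ℝ) ≤ ((2 : ℝ) ^ s)⁻¹)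
      have e2 : ((2 : ℝ) ^ s)⁻¹ * (C * 2 ^ (s + 1) * Z s) = 2 * C * Z s := by
        rw [pow_succ]; field_simp
      have e3 : 2 * ((2 : ℝ) ^ (s + 1))⁻¹ = ((2 : ℝ) ^ s)⁻¹ := by rw [pow_succ]; field_simp
      rw [← mul_assoc, e3, mul_add]
      linarith
    have hfin : ∀ n, ∑ s ∈ range n, W (s + 1) + W n ≤ 2 * C * ∑ s ∈ range n, Z s := fun n => by
      induction n with
      | zero => simp [hW, hq0]
      | succ n ih => rw [sum_range_succ, sum_range_succ]; linarith [hWs n]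
    refine summable_of_sum_range_le (c := 2 * C * ∑' k, b k ^ 2) (fun s => hW0 (s + 1)) (fun n => ?_)
    have e1 := hfin n
    have e2 := mul_le_mul_of_nonneg_left (hZb n) (by positivity : 0 ≤ 2 * C)
    have e3 := hW0 n
    exact le_trans (by linarith : ∑ s ∈ range n, W (s + 1) ≤ _) e2

theorem freq (a t : ℕ → ℝ) (ha : ∀ k, 0 ≤ a k) (ha2 : Summable (fun k => a k ^ 2))
    (ht : ∀ k, 0 ≤ t k ∧ t k ≤ 1) (hV : ¬ V0 t) (ε : ℝ) (hε : 0 < ε) (N : ℕ) :
    ∃ m, N ≤ m ∧ a m * (1 + ∑ j ∈ range m, a j) < ε * t m := by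
  by_contra hc
  push Not at hc
  apply hV
  have hp : ∀ k : ℕ, (0 : ℝ) < 1 / ((k : ℝ) + 1) := fun k => by positivity
  have hb : ∀ k, 0 ≤ a k + 1 / ((k : ℝ) + 1) := fun k => add_nonneg (ha k) (hp k).le
  refine core (fun k => a k + 1 / ((k : ℝ) + 1)) t hb ?_ ?_ (fun k => (ht k).1)
    (min ε (1 / ((N : ℝ) + 1))) (lt_min hε (hp N)) (fun m => ?_)
  · have h1 : Summable (fun k : ℕ => (1 / ((k : ℝ) + 1)) ^ 2) := by
      have := (summable_nat_add_iff 1).2 (Real.summable_one_div_nat_pow.2 (one_lt_two))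
      simpa using this
    refine Summable.of_nonneg_of_le (fun k => sq_nonneg _) (fun k => ?_)
      ((ha2.mul_left 2).add (h1.mul_left 2))
    nlinarith [sq_nonneg (a k - 1 / ((k : ℝ) + 1))]
  · refine tendsto_atTop_mono (fun n => ?_) Real.tendsto_sum_range_one_div_nat_succ_atTop
    exact sum_le_sum (fun k _ => by linarith [ha k])
  · have hs : 0 ≤ ∑ j ∈ range m, (a j + 1 / ((j : ℝ) + 1)) := sum_nonneg (fun j _ => hb j)
    rcases le_or_gt N m with h | h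
    · have e1 : min ε (1 / ((N : ℝ) + 1)) * t m ≤ ε * t m :=
        mul_le_mul_of_nonneg_right (min_le_left _ _) (ht m).1
      have e2 : ∑ j ∈ range m, a j ≤ ∑ j ∈ range m, (a j + 1 / ((j : ℝ) + 1)) :=
        sum_le_sum (fun k _ => by linarith [hp k])
      have e3 : 0 ≤ ∑ j ∈ range m, a j := sum_nonneg (fun j _ => ha j)
      refine e1.trans ((hc m h).trans ?_)
      exact mul_le_mul (by linarith [hp m]) (by linarith) (by linarith) (hb m)
    · have e1 : min ε (1 / ((N : ℝ) + 1)) * t m ≤ 1 / ((N : ℝ) + 1) * 1 :=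
        mul_le_mul (min_le_right _ _) (ht m).2 (ht m).1 (hp N).le
      have e2 : 1 / ((N : ℝ) + 1) ≤ 1 / ((m : ℝ) + 1) := by
        apply one_div_le_one_div_of_le (by positivity)
        have : (m : ℝ) ≤ N := by exact_mod_cast h.le
        linarith
      have e3 := hb m
      have := ha m
      nlinarith

variable {H : Type} [NormedAddCommGroup H] [InnerProductSpace ℝ H] [CompleteSpace H]

theorem converge (D : Set H) (hD : ∀ g ∈ D, ‖g‖ = 1) (hd : ∀ h : H, (∀ g ∈ D, ⟪h, g⟫ = 0) → h = 0)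
    (t : ℕ → ℝ) (ht : ∀ k, 0 ≤ t k ∧ t k ≤ 1) (hV : ¬ V0 t) (f φ : ℕ → H)
    (h1 : ∀ m, φ m ∈ D) (h2 : ∀ m, ∀ g ∈ D, t m * |⟪f m, g⟫| ≤ |⟪f m, φ m⟫|)
    (h3 : ∀ m, f (m + 1) = f m - ⟪f m, φ m⟫ • φ m) : Tendsto f atTop (𝓝 0) := by
  set a : ℕ → ℝ := fun m => |⟪f m, φ m⟫| with ha
  have ha0 : ∀ k, 0 ≤ a k := fun k => abs_nonneg _
  have hn : ∀ m, ‖f (m + 1)‖ ^ 2 = ‖f m‖ ^ 2 - a m ^ 2 := fun m => by
    rw [h3, norm_sub_sq_real, real_inner_smul_right, norm_smul, hD _ (h1 m), mul_one,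
      Real.norm_eq_abs]
    simp only [ha, sq_abs]
    ring
  have hs : ∀ n, ∑ k ∈ range n, a k ^ 2 = ‖f 0‖ ^ 2 - ‖f n‖ ^ 2 := fun n => by
    induction n with
    | zero => simp
    | succ n ih => rw [sum_range_succ, ih, hn]; ring
  have ha2 : Summable (fun k => a k ^ 2) :=
    summable_of_sum_range_le (c := ‖f 0‖ ^ 2) (fun k => sq_nonneg _)
      (fun n => by rw [hs]; nlinarith [sq_nonneg ‖f n‖])
  have key : ∀ ε > 0, ∀ N, ∃ m, N ≤ m ∧ ∀ g ∈ D, |⟪f m, g⟫| * (1 + ∑ j ∈ range m, a j) ≤ ε := by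
    intro ε hε N
    obtain ⟨m, hm, h⟩ := freq a t ha0 ha2 ht hV ε hε N
    refine ⟨m, hm, fun g hg => ?_⟩
    have e0 : 0 ≤ ∑ j ∈ range m, a j := sum_nonneg (fun j _ => ha0 j)
    have e1 : 0 < t m := by
      have : 0 ≤ a m * (1 + ∑ j ∈ range m, a j) := mul_nonneg (ha0 m) (by linarith)
      by_contra hc
      have : t m = 0 := le_antisymm (not_lt.1 hc) (ht m).1
      rw [this] at h
      linarith
    have e2 := mul_le_mul_of_nonneg_right (h2 m g hg) (by linarith : 0 ≤ 1 + ∑ j ∈ range m, a j)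
    apply le_of_mul_le_mul_left _ e1
    simp only [ha] at h e2 ⊢
    linarith
  have hdiff : ∀ (x : H) (δ : ℝ), (∀ g ∈ D, |⟪x, g⟫| ≤ δ) → ∀ n m, n ≤ m →
      |⟪x, f n - f m⟫| ≤ δ * ∑ j ∈ Ico n m, a j := by
    intro x δ hx n m hnm
    induction m, hnm using Nat.le_induction with
    | base => simp
    | succ m hnm ih =>
      rw [sum_Ico_succ_top hnm, h3, ← sub_add, inner_add_right, real_inner_smul_right, mul_add]
      refine (abs_add_le _ _).trans (add_le_add ih ?_)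
      rw [abs_mul, mul_comm]
      exact mul_le_mul_of_nonneg_right (hx _ (h1 m)) (abs_nonneg _)
  have hanti : Antitone (fun n => ‖f n‖ ^ 2) :=
    antitone_nat_of_succ_le (fun n => by rw [hn]; nlinarith [sq_nonneg (a n)])
  have hbdd : BddBelow (Set.range (fun n => ‖f n‖ ^ 2)) := ⟨0, by rintro _ ⟨n, rfl⟩; positivity⟩
  have hcau : CauchySeq f := by
    rw [Metric.cauchySeq_iff]
    intro η hη
    set δ := (η / 4) ^ 2 with hδ
    have hδ0 : 0 < δ := by positivity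
    obtain ⟨N, hN⟩ := exists_lt_of_ciInf_lt
      (lt_add_of_pos_right (⨅ n, ‖f n‖ ^ 2) hδ0)
    have hclose : ∀ n, N ≤ n → ∀ m, n ≤ m →
        (∀ g ∈ D, |⟪f m, g⟫| * (1 + ∑ j ∈ range m, a j) ≤ δ) → ‖f n - f m‖ < η / 2 := by
      intro n hn' m hm hg
      have e0 : 0 ≤ ∑ j ∈ range m, a j := sum_nonneg (fun j _ => ha0 j)
      have e1 := hdiff (f m) (δ / (1 + ∑ j ∈ range m, a j))
        (fun g hg' => by rw [le_div_iff₀ (by linarith)]; exact hg g hg') n m hm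
      have e2 : ∑ j ∈ Ico n m, a j ≤ 1 + ∑ j ∈ range m, a j := by
        have : ∑ j ∈ Ico n m, a j ≤ ∑ j ∈ range m, a j :=
          sum_le_sum_of_subset_of_nonneg (fun k hk => mem_range.2 (mem_Ico.1 hk).2)
            (fun k _ _ => ha0 k)
        linarith
      have e3 : δ / (1 + ∑ j ∈ range m, a j) * ∑ j ∈ Ico n m, a j ≤ δ := by
        rw [div_mul_eq_mul_div, div_le_iff₀ (by linarith)]
        exact mul_le_mul_of_nonneg_left e2 hδ0.le
      have e4 : ‖f n‖ ^ 2 = ‖f m‖ ^ 2 + 2 * ⟪f m, f n - f m⟫ + ‖f n - f m‖ ^ 2 := by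
        rw [← norm_add_sq_real]; simp
      have e5 := ciInf_le hbdd m
      have e6 := hanti hn'
      have e7 := (abs_le.1 (e1.trans e3)).1
      simp only at e5 e6
      apply lt_of_pow_lt_pow_left₀ 2 (by positivity)
      nlinarith
    refine ⟨N, fun n hn' n' hn'' => ?_⟩
    obtain ⟨m, hm, hg⟩ := key δ hδ0 (max n n')
    have e1 := hclose n hn' m (le_of_max_le_left hm) hg
    have e2 := hclose n' hn'' m (le_of_max_le_right hm) hg
    have e3 := dist_triangle_right (f n) (f n') (f m)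
    rw [dist_eq_norm (f n) (f m), dist_eq_norm (f n') (f m)] at e3
    linarith
  obtain ⟨x, hx⟩ := cauchySeq_tendsto_of_complete hcau
  have hx0 : x = 0 := hd x (fun g hg => by
    have e1 : Tendsto (fun m => |⟪f m, g⟫|) atTop (𝓝 |⟪x, g⟫|) :=
      (hx.inner tendsto_const_nhds).abs
    rw [← abs_eq_zero]
    refine le_antisymm (le_of_forall_pos_le_add (fun ε hε => ?_)) (abs_nonneg _)
    rw [zero_add]
    refine le_of_tendsto_of_frequently e1 (frequently_atTop.2 (fun N => ?_))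
    obtain ⟨m, hm, h⟩ := key ε hε N
    refine ⟨m, hm, ?_⟩
    have e0 : 0 ≤ ∑ j ∈ range m, a j := sum_nonneg (fun j _ => ha0 j)
    have := h g hg
    nlinarith [abs_nonneg ⟪f m, g⟫])
  rwa [hx0] at hx

end H28WgaS
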