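import Mathlib

set_option autoImplicit false

namespace H28WgaL

open MeasureTheory Set
open scoped RealInnerProductSpace unitInterval

noncomputable abbrev E1 := Lp ℝ 2 (volume : Measure I)
noncomputable abbrev H2 := Lp ℝ 2 (volume : Measure (I × I))

theorem mem_tens (u v : E1) : MemLp (fun p : I × I => u p.1 * v p.2) 2 volume := by
  have hu := Lp.memLp u
  have hv := Lp.memLp v
  have hm : AEStronglyMeasurable (fun p : I × I => u p.1 * v p.2) (volume : Measure (I × I)) :=
    (hu.1.comp_fst).mul (hv.1.comp_snd)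
  rw [memLp_two_iff_integrable_sq hm]
  have h1 := (memLp_two_iff_integrable_sq hu.1).1 hu
  have h2 := (memLp_two_iff_integrable_sq hv.1).1 hv
  have := h1.mul_prod h2
  simp only [mul_pow]
  exact this

noncomputable def tens (u v : E1) : H2 := (mem_tens u v).toLp _

theorem tens_ae (u v : E1) : tens u v =ᵐ[volume] fun p : I × I => u p.1 * v p.2 :=
  MemLp.coeFn_toLp _

theorem inner_tens (u v u' v' : E1) : ⟪tens u v, tens u' v'⟫ = ⟪u, u'⟫ * ⟪v, v'⟫ := by
  rw [L2.inner_def, L2.inner_def, L2.inner_def, ← integral_prod_mul]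
  refine integral_congr_ae ?_
  filter_upwards [tens_ae u v, tens_ae u' v'] with p h1 h2
  rw [h1, h2]
  simp only [RCLike.inner_apply, conj_trivial]
  ring

theorem eq_of_inner {x y : H2} (h : ⟪x, x⟫ - 2 * ⟪x, y⟫ + ⟪y, y⟫ = 0) : x = y := by
  rw [← sub_eq_zero, ← inner_self_eq_zero (𝕜 := ℝ), real_inner_sub_sub_self]
  exact h

noncomputable def T : E1 →ₗ[ℝ] E1 →ₗ[ℝ] H2 :=
  LinearMap.mk₂ ℝ tens
    (fun u u' v => eq_of_inner (by
      simp only [inner_add_left, inner_add_right, inner_tens]; ring))
    (fun c u v => eq_of_inner (by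
      simp only [real_inner_smul_left, real_inner_smul_right, inner_tens]; ring))
    (fun u v v' => eq_of_inner (by
      simp only [inner_add_left, inner_add_right, inner_tens]; ring))
    (fun c u v => eq_of_inner (by
      simp only [real_inner_smul_left, real_inner_smul_right, inner_tens]; ring))

theorem T_apply (u v : E1) : T u v = tens u v := rfl

theorem inner_T (u v u' v' : E1) : ⟪T u v, T u' v'⟫ = ⟪u, u'⟫ * ⟪v, v'⟫ := inner_tens u v u' v'

theorem T_iff (g : H2) (u v : E1) :
    (g =ᵐ[volume] fun p : I × I => u p.1 * v p.2) ↔ g = T u v := by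
  constructor
  · intro h; exact Lp.ext (h.trans (tens_ae u v).symm)
  · rintro rfl; exact tens_ae u v

theorem exists_on : ∃ e : ℕ → E1, Orthonormal ℝ e := by
  let x : ℕ → I := fun n => ⟨1 / ((n : ℝ) + 1), by positivity, by
    rw [div_le_one (by positivity)]; linarith [Nat.cast_nonneg (α := ℝ) n]⟩
  have hx : StrictAnti x := fun m n hmn => by
    show 1 / ((n : ℝ) + 1) < 1 / ((m : ℝ) + 1)
    apply one_div_lt_one_div_of_lt (by positivity)
    have : (m : ℝ) < n := by exact_mod_cast hmn
    linarith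
  let w : ℕ → E1 := fun n => indicatorConstLp 2 (measurableSet_Ioc (a := x (n + 1)) (b := x n))
    (by finiteness) (1 : ℝ)
  have hw : ∀ m n, ⟪w m, w n⟫ =
      (volume : Measure I).real (Ioc (x (m + 1)) (x m) ∩ Ioc (x (n + 1)) (x n)) := fun m n =>
    L2.real_inner_indicatorConstLp_one_indicatorConstLp_one _ _
  have hw0 : ∀ n, w n ≠ 0 := fun n h => by
    have h1 := hw n n
    rw [h, inner_zero_left, inter_self, Measure.real, unitInterval.volume_Ioc,
      ENNReal.toReal_ofReal (sub_nonneg.2 (hx (Nat.lt_succ_self n)).le)] at h1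
    have : ((x (n + 1) : I) : ℝ) < x n := hx (Nat.lt_succ_self n)
    linarith
  have hlt : ∀ m n, m < n → ⟪w m, w n⟫ = 0 := fun m n hmn => by
    rw [hw]
    have : Ioc (x (m + 1)) (x m) ∩ Ioc (x (n + 1)) (x n) = ∅ := by
      ext y
      simp only [mem_inter_iff, mem_Ioc, mem_empty_iff_false, iff_false]
      rintro ⟨⟨h1, -⟩, -, h2⟩
      exact absurd (h1.trans_le h2) (not_lt.2 (hx.antitone hmn))
    rw [this, measureReal_empty]
  refine ⟨fun n => ‖w n‖⁻¹ • w n, fun n => ?_, fun m n hmn => ?_⟩
  · rw [norm_smul, norm_inv, norm_norm, inv_mul_cancel₀ (norm_ne_zero_iff.2 (hw0 n))]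
  · simp only [real_inner_smul_left, real_inner_smul_right]
    rcases lt_or_gt_of_ne hmn with h | h
    · rw [hlt m n h]; simp
    · rw [real_inner_comm, hlt n m h]; simp

theorem dense_T (h : H2) (h0 : ∀ u v : E1, ‖u‖ = 1 → ‖v‖ = 1 → ⟪h, T u v⟫ = 0) : h = 0 := by
  have h1 : ∀ u v : E1, ⟪h, T u v⟫ = 0 := fun u v => by
    by_cases hu : u = 0
    · simp [hu]
    by_cases hv : v = 0
    · simp [hv]
    have hu' := norm_ne_zero_iff.2 hu
    have hv' := norm_ne_zero_iff.2 hv
    have := h0 (‖u‖⁻¹ • u) (‖v‖⁻¹ • v)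
      (by rw [norm_smul, norm_inv, norm_norm, inv_mul_cancel₀ hu'])
      (by rw [norm_smul, norm_inv, norm_norm, inv_mul_cancel₀ hv'])
    simpa [real_inner_smul_right, hu', hv'] using this
  have hi : Integrable h (volume : Measure (I × I)) :=
    (Lp.memLp h).integrable (by norm_num)
  have hrect : ∀ A B : Set I, MeasurableSet A → MeasurableSet B →
      ∫ p in A ×ˢ B, h p = 0 := fun A B hA hB => by
    have e := h1 (indicatorConstLp 2 hA (by finiteness) (1 : ℝ))
      (indicatorConstLp 2 hB (by finiteness) (1 : ℝ))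
    rw [← e, L2.inner_def, ← integral_indicator (hA.prod hB)]
    refine integral_congr_ae ?_
    have a1 := (Measure.quasiMeasurePreserving_fst (μ := (volume : Measure I))
      (ν := (volume : Measure I))).ae (indicatorConstLp_coeFn (p := 2) (hs := hA)
        (hμs := (by finiteness : (volume : Measure I) A ≠ ⊤)) (c := (1 : ℝ)))
    have a2 := (Measure.quasiMeasurePreserving_snd (μ := (volume : Measure I))
      (ν := (volume : Measure I))).ae (indicatorConstLp_coeFn (p := 2) (hs := hB)
        (hμs := (by finiteness : (volume : Measure I) B ≠ ⊤)) (c := (1 : ℝ)))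
    filter_upwards [tens_ae (indicatorConstLp 2 hA (by finiteness) (1 : ℝ))
      (indicatorConstLp 2 hB (by finiteness) (1 : ℝ)), a1, a2] with p e1 e2 e3
    rw [T_apply, e1, e2, e3]
    by_cases hp1 : p.1 ∈ A <;> by_cases hp2 : p.2 ∈ B <;> simp [indicator, hp1, hp2]
  have hall : ∀ S : Set (I × I), MeasurableSet S → ∫ p in S, h p = 0 := by
    refine MeasurableSpace.induction_on_inter (C := fun S _ => ∫ p in S, h p = 0)
      generateFrom_prod.symm isPiSystem_prod (by simp) ?_ ?_ ?_
    · rintro _ ⟨A, hA, B, hB, rfl⟩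
      exact hrect A B hA hB
    · intro S hS h2
      have h3 := hrect univ univ .univ .univ
      rw [univ_prod_univ, setIntegral_univ] at h3
      rw [setIntegral_compl hS hi, h2, h3, sub_zero]
    · intro f hd hm h2
      rw [integral_iUnion hm hd hi.integrableOn]
      simp [h2]
  exact Lp.ext ((hi.ae_eq_zero_of_forall_setIntegral_eq_zero (fun S hS _ => hall S hS)).trans
    (Lp.coeFn_zero ℝ 2 _).symm)

end H28WgaL
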