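import Mathlib

set_option autoImplicit false

namespace Pool.Agent.H28Wie

open Complex Metric Set Filter Topology MeasureTheory
open scoped ENNReal

lemma lowb {α : Type*} [MeasurableSpace α] {μ : Measure α} {A : Set α} (hA : MeasurableSet A)
    {f : α → ℝ≥0∞} {m : ℝ≥0∞} (h : ∀ x ∈ A, m ≤ f x) : m * μ A ≤ ∫⁻ x in A, f x ∂μ := by
  rw [← setLIntegral_const]
  exact setLIntegral_mono' hA h

lemma prodlow' {α β : Type*} [MeasureSpace α] [MeasureSpace β] [SFinite (volume : Measure α)]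
    [SFinite (volume : Measure β)] {A : Set α} {B : Set β} (hA : MeasurableSet A)
    {f : α × β → ℝ≥0∞} (hf : AEMeasurable f (volume.restrict (A ×ˢ B))) {m : α → ℝ≥0∞}
    (h : ∀ x ∈ A, m x ≤ ∫⁻ y in B, f (x, y)) : ∫⁻ x in A, m x ≤ ∫⁻ p in A ×ˢ B, f p := by
  rw [Measure.volume_eq_prod, ← Measure.prod_restrict] at *
  rw [lintegral_prod _ hf]
  exact setLIntegral_mono' hA h

lemma prodlow {α β : Type*} [MeasureSpace α] [MeasureSpace β] [SFinite (volume : Measure α)]
    [SFinite (volume : Measure β)] {A : Set α} {B : Set β} (hA : MeasurableSet A)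
    {f : α × β → ℝ≥0∞} (hf : AEMeasurable f (volume.restrict (A ×ˢ B))) {m : ℝ≥0∞}
    (h : ∀ x ∈ A, m ≤ ∫⁻ y in B, f (x, y)) : m * volume A ≤ ∫⁻ p in A ×ˢ B, f p := by
  rw [← setLIntegral_const]
  exact prodlow' hA hf h

lemma circ {G : ℂ → ℂ} {c : ℂ} {ρ r : ℝ} (hG : DifferentiableOn ℂ G (ball c ρ)) (h0 : 0 < r)
    (h1 : r < ρ) : ENNReal.ofReal (4 * ‖G c‖) ≤
      ∫⁻ θ in Ioo (-Real.pi) Real.pi, ‖G (c + Complex.polarCoord.symm (r, θ))‖ₑ := by
  have a1 : DiffContOnCl ℂ G (ball c |r|) := by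
    rw [abs_of_pos h0]
    exact (hG.mono (closure_ball_subset_closedBall.trans (closedBall_subset_ball h1))).diffContOnCl
  have a2 := a1.circleAverage
  rw [Real.circleAverage_eq_integral_add (-Real.pi),
    intervalIntegral.integral_comp_add_right (fun θ => G (circleMap c r θ)), zero_add,
    show 2 * Real.pi + -Real.pi = Real.pi by ring,
    intervalIntegral.integral_of_le (by linarith [Real.pi_pos]), integral_Ioc_eq_integral_Ioo] at a2
  have a3 := enorm_integral_le_lintegral_enorm (μ := volume.restrict (Ioo (-Real.pi) Real.pi))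
    fun θ => G (circleMap c r θ)
  have e : ∀ θ, circleMap c r θ = c + Complex.polarCoord.symm (r, θ) := fun θ => by
    simp [circleMap, exp_mul_I]
  simp only [← e]
  refine le_trans ?_ a3
  rw [← ofReal_norm, ← a2, norm_smul, Real.norm_eq_abs, abs_of_pos (by positivity), ← mul_assoc]
  refine ENNReal.ofReal_le_ofReal (mul_le_of_le_one_left (norm_nonneg _) ?_)
  rw [← div_eq_mul_inv, div_le_one (by positivity)]
  linarith [Real.pi_gt_three]

lemma submean {F : ℂ → ℂ} {c : ℂ} {ρ : ℝ} (hρ : 0 < ρ) (hF : DifferentiableOn ℂ F (ball c ρ)) :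
    ENNReal.ofReal (ρ ^ 2 * ‖F c‖ ^ 2) ≤ ∫⁻ w in ball c ρ, ‖F w‖ₑ ^ 2 := by
  have hG : DifferentiableOn ℂ (fun w => F w ^ 2) (ball c ρ) := hF.pow 2
  have hm : ∀ p ∈ Ioo (ρ / 2) ρ ×ˢ Ioo (-Real.pi) Real.pi,
      c + Complex.polarCoord.symm p ∈ ball c ρ := fun p hp => by
    rw [mem_ball_iff_norm, add_sub_cancel_left, Complex.norm_polarCoord_symm,
      abs_of_pos (by linarith [hp.1.1])]
    exact hp.1.2
  rw [← lintegral_indicator measurableSet_ball, ← lintegral_add_left_eq_self _ c,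
    ← Complex.lintegral_comp_polarCoord_symm]
  refine le_trans ?_ (lintegral_mono_set (s := Ioo (ρ / 2) ρ ×ˢ Ioo (-Real.pi) Real.pi)
    fun p hp => ⟨show 0 < p.1 by linarith [hp.1.1], hp.2⟩)
  have hs : MeasurableSet (Ioo (ρ / 2) ρ ×ˢ Ioo (-Real.pi) Real.pi) :=
    measurableSet_Ioo.prod measurableSet_Ioo
  have a1 := prodlow (A := Ioo (ρ / 2) ρ) (B := Ioo (-Real.pi) Real.pi) measurableSet_Ioo
    (f := fun p => ‖F (c + Complex.polarCoord.symm p) ^ 2‖ₑ)
    (ContinuousOn.aemeasurable (ContinuousOn.enorm (hG.continuousOn.comp (Continuous.continuousOn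
      (by simp only [Complex.polarCoord_symm_apply]; fun_prop)) hm)) hs)
    fun r hr => circ hG (by linarith [hr.1]) hr.2
  calc _ = ENNReal.ofReal (ρ / 2) * (ENNReal.ofReal (4 * ‖F c ^ 2‖) * volume (Ioo (ρ / 2) ρ)) := by
        rw [Real.volume_Ioo, ← ENNReal.ofReal_mul (by positivity),
          ← ENNReal.ofReal_mul (by positivity), norm_pow]
        congr 1; ring
    _ ≤ _ := mul_le_mul_right a1 _
    _ ≤ _ := by
        rw [← lintegral_const_mul' _ _ ENNReal.ofReal_ne_top]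
        refine setLIntegral_mono' hs fun p hp => ?_
        rw [indicator_of_mem (hm p hp), smul_eq_mul, enorm_pow]
        exact mul_le_mul_left (ENNReal.ofReal_le_ofReal hp.1.1.le) _

lemma osc {F : ℂ → ℂ} {R : ℝ} {w : ℂ} (hw : ‖w‖ < R / 2) (hF : DifferentiableOn ℂ F (ball 0 R)) :
    ENNReal.ofReal (R ^ 4 * ‖F w - F 0‖ ^ 2 / (64 * (‖w‖ + 1) ^ 2)) ≤
      ∫⁻ u in ball (0 : ℂ) R, ‖F u‖ₑ ^ 2 := by
  have hR : 0 < R := by linarith [norm_nonneg w]
  by_cases hI : ∫⁻ u in ball (0 : ℂ) R, ‖F u‖ₑ ^ 2 = ⊤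
  · rw [hI]; exact le_top
  obtain ⟨M, M0, M1⟩ : ∃ M : ℝ, 0 ≤ M ∧
      (R / 2) ^ 2 * M ^ 2 = (∫⁻ u in ball (0 : ℂ) R, ‖F u‖ₑ ^ 2).toReal :=
    ⟨√(∫⁻ u in ball (0 : ℂ) R, ‖F u‖ₑ ^ 2).toReal / (R / 2), by positivity, by
      rw [div_pow (√_), Real.sq_sqrt ENNReal.toReal_nonneg]; field_simp⟩
  have a1 : ∀ u ∈ ball (0 : ℂ) (R / 2), ‖F u‖ ≤ M := fun u hu => by
    have s : ball u (R / 2) ⊆ ball 0 R := ball_subset_ball' (by linarith [mem_ball.1 hu])
    have := (submean (half_pos hR) (hF.mono s)).trans (lintegral_mono_set s)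
    rw [ENNReal.ofReal_le_iff_le_toReal hI, ← M1] at this
    exact (abs_le_of_sq_le_sq' (le_of_mul_le_mul_left this (by positivity)) M0).2
  have a2 := dist_le_div_mul_dist_of_mapsTo_ball (R₂ := 2 * M)
    (hF.mono (ball_subset_ball (half_le_self hR.le))) (fun u hu => by
      rw [mem_closedBall_iff_norm]
      linarith [norm_sub_le (F u) (F 0), a1 u hu, a1 0 (mem_ball_self (half_pos hR))])
    (mem_ball_zero_iff.2 hw)
  rw [dist_eq_norm, dist_zero_right, div_mul_eq_mul_div, le_div_iff₀ (half_pos hR)] at a2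
  rw [ENNReal.ofReal_le_iff_le_toReal hI, ← M1, div_le_iff₀ (by positivity)]
  have a3 : ‖F w - F 0‖ * R ≤ 4 * M * (‖w‖ + 1) := by nlinarith
  have a4 := mul_le_mul_of_nonneg_left (pow_le_pow_left₀ (by positivity) a3 2) (sq_nonneg R)
  nlinarith

lemma vol_rect (a b c d : ℝ) :
    volume (Ioo a b ×ℂ Ioo c d) = ENNReal.ofReal (b - a) * ENNReal.ofReal (d - c) := by
  have := volume_preserving_equiv_real_prod.measure_preimage
    (s := Ioo a b ×ˢ Ioo c d) (measurableSet_Ioo.prod measurableSet_Ioo).nullMeasurableSet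
  rw [Measure.volume_eq_prod, Measure.prod_prod, Real.volume_Ioo, Real.volume_Ioo] at this
  exact this

lemma vol_ball {r : ℝ} (hr : 0 ≤ r) (c : ℂ) :
    volume (ball c r) = ENNReal.ofReal (r ^ 2 * Real.pi) := by
  rw [Complex.volume_ball, ENNReal.ofReal_mul (by positivity), ENNReal.ofReal_pow hr,
    ← NNReal.coe_real_pi, ENNReal.ofReal_coe_nnreal]

lemma affine {H : ℂ → ℂ} (hH : Differentiable ℂ H) {C : ℝ}
    (h : ∀ n : ℕ, ∀ z ∈ ball (0 : ℂ) (4 ^ n / 2), ‖H z‖ ≤ C * (8 ^ n * (n + 1))) (z : ℂ) :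
    H z = H 0 + deriv H 0 * z := by
  have h2 : ∀ c, deriv (deriv H) c = 0 := fun c => by
    have t : Tendsto (fun n : ℕ => 32 * C * ((n : ℝ) ^ 1 / 2 ^ n + (1 / 2) ^ n)) atTop
        (𝓝 (32 * C * (0 + 0))) := ((tendsto_pow_const_div_const_pow_of_one_lt 1 one_lt_two).add
      (tendsto_pow_atTop_nhds_zero_of_lt_one (by norm_num) (by norm_num))).const_mul _
    rw [add_zero, mul_zero] at t
    refine norm_le_zero_iff.1 (ge_of_tendsto t ?_)
    filter_upwards [(tendsto_pow_atTop_atTop_of_one_lt (show (1 : ℝ) < 4 by norm_num)).eventually_gt_atTop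
      (4 * ‖c‖)] with n hn
    have := norm_iteratedDeriv_le_of_forall_mem_sphere_norm_le (c := c) (R := 4 ^ n / 4) 2
      (by positivity) hH.diffContOnCl fun u hu => h n u (by
        rw [mem_ball_zero_iff]
        have := norm_add_le (u - c) c
        rw [sub_add_cancel, mem_sphere_iff_norm.1 hu] at this
        linarith)
    rw [iteratedDeriv_succ, iteratedDeriv_one] at this
    refine this.trans (le_of_eq ?_)
    rw [show (8 : ℝ) ^ n = 2 ^ n * 4 ^ n by rw [← mul_pow]; norm_num,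
      show (4 : ℝ) ^ n = 2 ^ n * 2 ^ n by rw [← mul_pow]; norm_num, one_div_pow]
    simp only [Nat.factorial]
    field_simp
    push_cast
    ring
  have h1 := is_const_of_deriv_eq_zero hH.deriv h2
  have h3 := is_const_of_deriv_eq_zero (f := fun u => H u - deriv H 0 * u) (by fun_prop)
    (fun u => by
      rw [((hH u).hasDerivAt.fun_sub ((hasDerivAt_id' u).const_mul (deriv H 0))).deriv, h1 u 0]
      simp) z 0
  linear_combination h3

end Pool.Agent.H28Wie
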