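import Pool.Agent.Lib.helper28.WieA

set_option autoImplicit false

namespace Pool.Agent.H28Wie

open Complex Metric Set Filter Topology MeasureTheory
open scoped ENNReal

def P1 (n : ℕ) : Set (ℂ × ℂ) := ball 0 (4 ^ n) ×ˢ ball 0 (1 / (32 ^ n * (n + 1)))

def P2 (n : ℕ) : Set (ℂ × ℂ) := ball 0 (1 / 16 ^ n) ×ˢ ball 0 (128 ^ n / (n + 1))

def P3 (n : ℕ) : Set (ℂ × ℂ) := (Ioo (-1) 1 ×ℂ Ioo (-(1 / 8 ^ n)) (1 / 8 ^ n)) ×ˢ ball 0 (2 ^ n)

def Om : Set (ℂ × ℂ) := ⋃ n, P1 n ∪ P2 n ∪ P3 n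

lemma s1 (n : ℕ) : P1 n ⊆ Om := fun _ h => mem_iUnion.2 ⟨n, Or.inl (Or.inl h)⟩
lemma s2 (n : ℕ) : P2 n ⊆ Om := fun _ h => mem_iUnion.2 ⟨n, Or.inl (Or.inr h)⟩
lemma s3 (n : ℕ) : P3 n ⊆ Om := fun _ h => mem_iUnion.2 ⟨n, Or.inr h⟩

lemma rect_open (a b c d : ℝ) : IsOpen (Ioo a b ×ℂ Ioo c d) := isOpen_Ioo.reProdIm isOpen_Ioo

lemma Om_open : IsOpen Om := isOpen_iUnion fun _ =>
  ((isOpen_ball.prod isOpen_ball).union (isOpen_ball.prod isOpen_ball)).union
    ((rect_open _ _ _ _).prod isOpen_ball)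

lemma Om_conn : IsConnected Om := by
  have z1 : ∀ n, (0 : ℂ × ℂ) ∈ P1 n := fun n =>
    ⟨mem_ball_self (by positivity), mem_ball_self (by positivity)⟩
  have z2 : ∀ n, (0 : ℂ × ℂ) ∈ P2 n := fun n =>
    ⟨mem_ball_self (by positivity), mem_ball_self (by positivity)⟩
  have z3 : ∀ n, (0 : ℂ × ℂ) ∈ P3 n := fun n =>
    ⟨by simp [mem_reProdIm], mem_ball_self (by positivity)⟩
  refine ⟨⟨0, s1 0 (z1 0)⟩, isPreconnected_iUnion ⟨0, mem_iInter.2 fun n => Or.inr (z3 n)⟩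
    fun n => IsPreconnected.union 0 (Or.inl (z1 n)) (z3 n) (IsPreconnected.union 0 (z1 n) (z2 n)
      ((convex_ball _ _).prod (convex_ball _ _)).isPreconnected
      ((convex_ball _ _).prod (convex_ball _ _)).isPreconnected)
      (Convex.prod ?_ (convex_ball _ _)).isPreconnected⟩
  exact ((convex_Ioo _ _).is_linear_preimage reLm.isLinear).inter
    ((convex_Ioo _ _).is_linear_preimage imLm.isLinear)

lemma Om_slice {p : ℂ × ℂ} (hp : p ∈ Om) :
    ∃ R, p.2 ∈ ball (0 : ℂ) R ∧ ∀ w ∈ ball (0 : ℂ) R, (p.1, w) ∈ Om := by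
  obtain ⟨n, (h | h) | h⟩ := mem_iUnion.1 hp
  · exact ⟨_, h.2, fun w hw => s1 n ⟨h.1, hw⟩⟩
  · exact ⟨_, h.2, fun w hw => s2 n ⟨h.1, hw⟩⟩
  · exact ⟨_, h.2, fun w hw => s3 n ⟨h.1, hw⟩⟩

section
variable {h : ℂ × ℂ → ℂ} (hd : DifferentiableOn ℂ h Om)
include hd

lemma d2 {z : ℂ} {B : Set ℂ} (hB : ∀ w ∈ B, (z, w) ∈ Om) :
    DifferentiableOn ℂ (fun w => h (z, w)) B := hd.comp (by fun_prop) hB

lemma d1 {w : ℂ} {B : Set ℂ} (hB : ∀ z ∈ B, (z, w) ∈ Om) :
    DifferentiableOn ℂ (fun z => h (z, w)) B := hd.comp (by fun_prop) hB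

lemma aem {A B : Set ℂ} (hA : MeasurableSet A) (hB : MeasurableSet B) (s : A ×ˢ B ⊆ Om) :
    AEMeasurable (fun p => ‖h p‖ₑ ^ 2) (volume.restrict (A ×ˢ B)) :=
  ((hd.continuousOn.mono s).enorm.aemeasurable (hA.prod hB)).pow_const 2

lemma bimean {c : ℂ} {ρ s : ℝ} (hρ : 0 < ρ) (hs : 0 < s) (sub : ball c ρ ×ˢ ball 0 s ⊆ Om) :
    ENNReal.ofReal (s ^ 2 * (ρ ^ 2 * ‖h (c, 0)‖ ^ 2)) ≤ ∫⁻ p in Om, ‖h p‖ₑ ^ 2 := by
  refine le_trans ?_ ((prodlow' measurableSet_ball (aem hd measurableSet_ball measurableSet_ball sub)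
    fun z hz => submean hs (d2 hd fun w hw => sub ⟨hz, hw⟩)).trans (lintegral_mono_set sub))
  simp only [ENNReal.ofReal_mul (sq_nonneg s)]
  rw [lintegral_const_mul' _ _ ENNReal.ofReal_ne_top]
  refine mul_le_mul_right ((submean hρ (d1 hd fun z hz => sub ⟨hz, mem_ball_self hs⟩)).trans
    (le_of_eq (lintegral_congr fun z => ?_))) _
  rw [ENNReal.ofReal_pow (norm_nonneg _), ofReal_norm]

variable (hI : ∫⁻ p in Om, ‖h p‖ₑ ^ 2 ≠ ⊤)
include hI

lemma step1 {x : ℝ} (hx : x ∈ Ioo (-1 : ℝ) 1) (w : ℂ) : h (x, w) = h (x, 0) := by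
  by_contra hne
  have t2 := tendsto_pow_atTop_atTop_of_one_lt (show (1 : ℝ) < 2 by norm_num)
  have hm : ∀ u : ℂ, ((x : ℂ), u) ∈ Om := fun u => by
    obtain ⟨n, hn⟩ := (t2.eventually_gt_atTop ‖u‖).exists
    exact s3 n ⟨by simpa [mem_reProdIm] using hx, mem_ball_zero_iff.2 hn⟩
  have hc : ∀ u : ℂ, ContinuousAt (fun z : ℂ => h (z, u)) x := fun u =>
    ContinuousAt.comp (f := fun z : ℂ => (z, u))
      (hd.continuousOn.continuousAt (Om_open.mem_nhds (hm u))) (by fun_prop)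
  obtain ⟨m, m0, m1⟩ := exists_between (norm_pos_iff.2 (sub_ne_zero.2 hne))
  obtain ⟨η, η0, η1⟩ := Metric.eventually_nhds_iff.1
    (((((hc w).sub (hc 0)).norm.eventually (lt_mem_nhds m1))).and
      (continuous_re.continuousAt.eventually (isOpen_Ioo.mem_nhds (by simpa using hx))))
  have t3 := (t2.const_mul_atTop (show 0 < m ^ 2 / (64 * (‖w‖ + 1) ^ 2) * (2 * η) by positivity))
  obtain ⟨n, n1, n2, n3⟩ := ((t3.eventually_gt_atTop (∫⁻ p in Om, ‖h p‖ₑ ^ 2).toReal).and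
    ((t2.eventually_gt_atTop (2 * ‖w‖)).and
      (((tendsto_pow_atTop_nhds_zero_of_lt_one (r := (1 / 8 : ℝ)) (by norm_num)
        (by norm_num))).eventually (gt_mem_nhds (half_pos η0))))).exists
  rw [one_div_pow] at n3
  have hA : ∀ z ∈ Ioo (x - η / 2) (x + η / 2) ×ℂ Ioo (-(1 / 8 ^ n)) (1 / 8 ^ n), dist z x < η :=
    fun z hz => by
      have a1 := norm_le_abs_re_add_abs_im (z - x)
      have a2 : |(z - x).re| < η / 2 := abs_lt.2 ⟨by simp; linarith [hz.1.1], by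
        simp; linarith [hz.1.2]⟩
      have a3 : |(z - x).im| < 1 / 8 ^ n := abs_lt.2 (by simpa using hz.2)
      rw [dist_eq_norm]; linarith
  have sub : (Ioo (x - η / 2) (x + η / 2) ×ℂ Ioo (-(1 / 8 ^ n)) (1 / 8 ^ n)) ×ˢ ball 0 (2 ^ n)
      ⊆ Om := fun p hp => s3 n ⟨⟨(η1 (hA _ hp.1)).2, hp.1.2⟩, hp.2⟩
  have a1 := (prodlow (rect_open _ _ _ _).measurableSet
    (aem hd (rect_open _ _ _ _).measurableSet measurableSet_ball sub)
    (m := ENNReal.ofReal ((2 ^ n) ^ 4 * m ^ 2 / (64 * (‖w‖ + 1) ^ 2))) fun z hz =>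
      le_trans (ENNReal.ofReal_le_ofReal (by
        gcongr
        exact (η1 (hA z hz)).1.le)) (osc (w := w) (by linarith)
          (d2 hd fun u hu => sub ⟨hz, hu⟩))).trans (lintegral_mono_set sub)
  rw [vol_rect, ← ENNReal.ofReal_mul (by linarith), ← ENNReal.ofReal_mul (by positivity),
    ENNReal.ofReal_le_iff_le_toReal hI] at a1
  refine absurd (a1.trans_lt n1) (not_lt.2 (le_of_eq ?_))
  rw [show (8 : ℝ) ^ n = (2 ^ n) ^ 3 by rw [← pow_mul, mul_comm, pow_mul]; norm_num]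
  field_simp
  ring

lemma step2 {p : ℂ × ℂ} (hp : p ∈ Om) : h p = h (p.1, 0) := by
  obtain ⟨R, r1, r2⟩ := Om_slice hp
  obtain ⟨n, hn⟩ := ((tendsto_pow_atTop_atTop_of_one_lt
    (show (1 : ℝ) < 4 by norm_num)).eventually_gt_atTop ‖p.1‖).exists
  have hs : (0 : ℝ) < 1 / (32 ^ n * (n + 1)) := by positivity
  have a1 : ∀ w ∈ ball (0 : ℂ) (1 / (32 ^ n * (n + 1))), h (p.1, w) = h (p.1, 0) := fun w hw => by
    refine AnalyticOnNhd.eqOn_of_preconnected_of_frequently_eq (z₀ := 0)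
      ((d1 hd fun z hz => s1 n ⟨hz, hw⟩).analyticOnNhd isOpen_ball)
      ((d1 hd fun z hz => s1 n ⟨hz, mem_ball_self hs⟩).analyticOnNhd isOpen_ball)
      (convex_ball _ _).isPreconnected (mem_ball_self (by positivity)) ?_
      (mem_ball_zero_iff.2 hn)
    have t : Tendsto (fun x : ℝ => (x : ℂ)) (𝓝[≠] 0) (𝓝[≠] 0) :=
      tendsto_nhdsWithin_iff.2 ⟨(continuous_ofReal.tendsto' 0 0 rfl).mono_left nhdsWithin_le_nhds,
        by filter_upwards [self_mem_nhdsWithin] with x hx; simpa using hx⟩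
    refine t.frequently (Eventually.frequently ?_)
    filter_upwards [mem_nhdsWithin_of_mem_nhds (Ioo_mem_nhds (show (-1 : ℝ) < 0 by norm_num)
      one_pos)] with x hx using step1 hd hI hx w
  refine AnalyticOnNhd.eqOn_of_preconnected_of_eventuallyEq (z₀ := 0) (g := fun _ => h (p.1, 0))
    ((d2 hd r2).analyticOnNhd isOpen_ball) analyticOnNhd_const (convex_ball _ _).isPreconnected
    (mem_ball_self (pos_of_mem_ball r1)) ?_ r1
  filter_upwards [ball_mem_nhds 0 hs] with w hw using a1 w hw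

theorem onedim : ∃ β : ℂ, ∀ p ∈ Om, h p = β * p.1 := by
  have hH : Differentiable ℂ fun z => h (z, 0) := differentiableOn_univ.1 (d1 hd fun z _ => by
    obtain ⟨n, hn⟩ := ((tendsto_pow_atTop_atTop_of_one_lt
      (show (1 : ℝ) < 4 by norm_num)).eventually_gt_atTop ‖z‖).exists
    exact s1 n ⟨mem_ball_zero_iff.2 hn, mem_ball_self (by positivity)⟩)
  obtain ⟨M, M0, M1⟩ : ∃ M : ℝ, 0 ≤ M ∧ M ^ 2 = (∫⁻ p in Om, ‖h p‖ₑ ^ 2).toReal :=
    ⟨_, Real.sqrt_nonneg _, Real.sq_sqrt ENNReal.toReal_nonneg⟩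
  have a1 := affine hH (C := 2 * M) fun n z hz => by
    have b := bimean hd (c := z) (ρ := 4 ^ n / 2) (s := 1 / (32 ^ n * (n + 1))) (by positivity)
      (by positivity) fun p hp => s1 n ⟨ball_subset_ball' (by linarith [mem_ball.1 hz]) hp.1, hp.2⟩
    rw [ENNReal.ofReal_le_iff_le_toReal hI, ← M1, ← mul_pow, ← mul_pow] at b
    have b2 := (abs_le_of_sq_le_sq' b M0).2
    rw [show (32 : ℝ) ^ n = 8 ^ n * 4 ^ n by rw [← mul_pow]; norm_num] at b2
    calc _ = 1 / (8 ^ n * 4 ^ n * (n + 1)) * (4 ^ n / 2 * ‖h (z, 0)‖) * (2 * (8 ^ n * (n + 1))) := by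
          field_simp
      _ ≤ M * (2 * (8 ^ n * (n + 1))) := by gcongr
      _ = _ := by ring
  have a2 : h (0, 0) = 0 := by
    have t : Tendsto (fun n : ℕ => M * ((n : ℝ) ^ 1 / 8 ^ n + (1 / 8) ^ n)) atTop
        (𝓝 (M * (0 + 0))) := ((tendsto_pow_const_div_const_pow_of_one_lt 1 (by norm_num)).add
      (tendsto_pow_atTop_nhds_zero_of_lt_one (by norm_num) (by norm_num))).const_mul _
    rw [add_zero, mul_zero] at t
    refine norm_le_zero_iff.1 (ge_of_tendsto' t fun n => ?_)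
    have b := bimean hd (c := 0) (ρ := 1 / 16 ^ n) (s := 128 ^ n / (n + 1)) (by positivity)
      (by positivity) (s2 n)
    rw [ENNReal.ofReal_le_iff_le_toReal hI, ← M1, ← mul_pow, ← mul_pow] at b
    have b2 := (abs_le_of_sq_le_sq' b M0).2
    rw [show (128 : ℝ) ^ n = 8 ^ n * 16 ^ n by rw [← mul_pow]; norm_num] at b2
    calc _ = 8 ^ n * 16 ^ n / (n + 1) * (1 / 16 ^ n * ‖h (0, 0)‖) * ((n + 1) / 8 ^ n) := by
          field_simp
      _ ≤ M * ((n + 1) / 8 ^ n) := by gcongr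
      _ = _ := by rw [one_div_pow]; ring
  exact ⟨_, fun p hp => by rw [step2 hd hI hp, a1 p.1, a2, zero_add]⟩

end

lemma up {A B : Set ℂ} (hA : MeasurableSet A) (hB : MeasurableSet B) {r q : ℝ} (hq : 0 ≤ q)
    (h : ∀ z ∈ A, ‖z‖ ≤ r) :
    ∫⁻ p in A ×ˢ B, ‖p.1‖ₑ ^ q ≤ ENNReal.ofReal (r ^ q) * (volume A * volume B) := by
  rw [← Measure.prod_prod, ← Measure.volume_eq_prod, ← setLIntegral_const]
  refine setLIntegral_mono' (hA.prod hB) fun p hp => ?_
  rw [← ofReal_norm, ENNReal.ofReal_rpow_of_nonneg (norm_nonneg _) hq]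
  exact ENNReal.ofReal_le_ofReal (Real.rpow_le_rpow (norm_nonneg _) (h _ hp.1) hq)

lemma fin_int {q : ℝ} (h1 : 3 / 2 ≤ q) (h2 : q ≤ 3) : ∫⁻ p in Om, ‖p.1‖ₑ ^ q < ⊤ := by
  have hq : 0 ≤ q := by linarith
  have hs : Summable fun n : ℕ => 2 * Real.pi ^ 2 * (1 / ((n : ℝ) + 1) ^ 2)
      + 32 * Real.pi * (1 / 2) ^ n := by
    refine Summable.add (Summable.mul_left _ ?_) (summable_geometric_two.mul_left _)
    exact_mod_cast (summable_nat_add_iff 1).2 (Real.summable_one_div_nat_pow.2 one_lt_two)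
  refine ((lintegral_iUnion_le _ _).trans (ENNReal.tsum_le_tsum fun n => ?_)).trans_lt
    hs.tsum_ofReal_lt_top
  have a1 : ∫⁻ p in P1 n, ‖p.1‖ₑ ^ q ≤ ENNReal.ofReal (Real.pi ^ 2 * (1 / ((n : ℝ) + 1) ^ 2)) := by
    refine (up measurableSet_ball measurableSet_ball hq
      fun z hz => (mem_ball_zero_iff.1 hz).le).trans ?_
    rw [vol_ball (by positivity), vol_ball (by positivity), ← ENNReal.ofReal_mul (by positivity),
      ← ENNReal.ofReal_mul (by positivity)]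
    refine ENNReal.ofReal_le_ofReal ((mul_le_mul_of_nonneg_right (Real.rpow_le_rpow_of_exponent_le
      (one_le_pow₀ (by norm_num)) h2) (by positivity)).trans (le_of_eq ?_))
    rw [Real.rpow_ofNat, show (4 : ℝ) ^ n = (2 ^ n) ^ 2 by rw [← pow_mul, mul_comm, pow_mul]; norm_num,
      show (32 : ℝ) ^ n = (2 ^ n) ^ 5 by rw [← pow_mul, mul_comm, pow_mul]; norm_num]
    field_simp
  have a2 : ∫⁻ p in P2 n, ‖p.1‖ₑ ^ q ≤ ENNReal.ofReal (Real.pi ^ 2 * (1 / ((n : ℝ) + 1) ^ 2)) := by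
    refine (up measurableSet_ball measurableSet_ball hq
      fun z hz => (mem_ball_zero_iff.1 hz).le).trans ?_
    rw [vol_ball (by positivity), vol_ball (by positivity), ← ENNReal.ofReal_mul (by positivity),
      ← ENNReal.ofReal_mul (by positivity)]
    refine ENNReal.ofReal_le_ofReal ((mul_le_mul_of_nonneg_right (Real.rpow_le_rpow_of_exponent_ge
      (by positivity) (by rw [div_le_one (by positivity)]; exact one_le_pow₀ (by norm_num)) h1)
        (by positivity)).trans (le_of_eq ?_))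
    rw [show (1 : ℝ) / 16 ^ n = (1 / (2 ^ n) ^ 2) ^ 2 by
        rw [div_pow, ← pow_mul, ← pow_mul, mul_comm, pow_mul]; norm_num,
      show (128 : ℝ) ^ n = (2 ^ n) ^ 7 by rw [← pow_mul, mul_comm, pow_mul]; norm_num,
      ← Real.rpow_natCast _ 2, ← Real.rpow_mul (by positivity),
      show ((2 : ℕ) : ℝ) * (3 / 2) = (3 : ℕ) by norm_num, Real.rpow_natCast, Real.rpow_natCast]
    field_simp
  have a3 : ∫⁻ p in P3 n, ‖p.1‖ₑ ^ q ≤ ENNReal.ofReal (32 * Real.pi * (1 / 2) ^ n) := by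
    have e8 : (1 : ℝ) / 8 ^ n ≤ 1 := by
      rw [div_le_one (by positivity)]; exact one_le_pow₀ (by norm_num)
    refine (up (r := 2) (rect_open _ _ _ _).measurableSet measurableSet_ball hq fun z hz => ?_).trans ?_
    · linarith [norm_le_abs_re_add_abs_im z, abs_lt.2 hz.1, abs_lt.2 hz.2]
    rw [vol_ball (by positivity), vol_rect, ← ENNReal.ofReal_mul (by norm_num),
      ← ENNReal.ofReal_mul (by rw [sub_neg_eq_add, sub_neg_eq_add]; positivity),
      ← ENNReal.ofReal_mul (by positivity)]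
    refine ENNReal.ofReal_le_ofReal ((mul_le_mul_of_nonneg_right (Real.rpow_le_rpow_of_exponent_le
      one_le_two h2) (by rw [sub_neg_eq_add, sub_neg_eq_add]; positivity)).trans (le_of_eq ?_))
    rw [Real.rpow_ofNat, one_div_pow,
      show (8 : ℝ) ^ n = (2 ^ n) ^ 3 by rw [← pow_mul, mul_comm, pow_mul]; norm_num]
    field_simp
    ring
  refine (lintegral_union_le _ _ _).trans ((add_le_add ((lintegral_union_le _ _ _).trans
    (add_le_add a1 a2)) a3).trans (le_of_eq ?_))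
  rw [← ENNReal.ofReal_add (by positivity) (by positivity),
    ← ENNReal.ofReal_add (by positivity) (by positivity)]
  congr 1; ring

lemma down {r s q : ℝ} {S : Set (ℂ × ℂ)} (hr : 0 < r) (hs : 0 < s) (hq : 0 ≤ q)
    (sub : ball 0 r ×ˢ ball 0 s ⊆ S) :
    ENNReal.ofReal ((r / 4) ^ q * ((r / 4) ^ 2 * s ^ 2)) ≤ ∫⁻ p in S, ‖p.1‖ₑ ^ q := by
  have hn : ‖((r / 2 : ℝ) : ℂ)‖ = r / 2 := by
    rw [norm_real, Real.norm_eq_abs, abs_of_pos (half_pos hr)]
  have a1 := lowb (μ := volume) (A := ball ((r / 2 : ℝ) : ℂ) (r / 4) ×ˢ ball (0 : ℂ) s)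
    (measurableSet_ball.prod measurableSet_ball) (f := fun p => ‖p.1‖ₑ ^ q)
    (m := ENNReal.ofReal ((r / 4) ^ q)) fun p hp => by
      have := norm_sub_norm_le ((r / 2 : ℝ) : ℂ) p.1
      rw [← ofReal_norm, ENNReal.ofReal_rpow_of_nonneg (norm_nonneg _) hq]
      exact ENNReal.ofReal_le_ofReal (Real.rpow_le_rpow (by positivity)
        (by linarith [mem_ball_iff_norm'.1 hp.1]) hq)
  refine le_trans ?_ (a1.trans (lintegral_mono_set fun p hp => sub ⟨ball_subset_ball'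
    (by rw [dist_zero_right, hn]; linarith) hp.1, hp.2⟩))
  rw [Measure.volume_eq_prod, Measure.prod_prod, vol_ball (by positivity), vol_ball hs.le,
    ← ENNReal.ofReal_mul (by positivity), ← ENNReal.ofReal_mul (by positivity)]
  refine ENNReal.ofReal_le_ofReal (mul_le_mul_of_nonneg_left ?_ (by positivity))
  have : 1 ≤ Real.pi := by linarith [Real.pi_gt_three]
  exact mul_le_mul (le_mul_of_one_le_right (by positivity) this)
    (le_mul_of_one_le_right (by positivity) this) (by positivity) (by positivity)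

lemma big {c a : ℝ} (hc : 0 < c) (ha : 1 < a) {I : ℝ≥0∞}
    (h : ∀ n : ℕ, ENNReal.ofReal (c * (a ^ n / (n + 1) ^ 2)) ≤ I) : I = ⊤ := by
  by_contra hI
  have t := ((tendsto_pow_const_div_const_pow_of_one_lt 2 ha).comp
    (tendsto_add_atTop_nat 1)).const_mul (I.toReal * a)
  rw [mul_zero] at t
  obtain ⟨n, hn⟩ := (t.eventually (gt_mem_nhds hc)).exists
  have b := h n
  have a0 : 0 < a := by linarith
  rw [ENNReal.ofReal_le_iff_le_toReal hI, ← mul_div_assoc, div_le_iff₀ (by positivity)] at b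
  simp only [Function.comp, Nat.cast_add, Nat.cast_one] at hn
  rw [← mul_div_assoc, div_lt_iff₀ (by positivity), pow_succ a] at hn
  nlinarith [mul_le_mul_of_nonneg_right b a0.le]

lemma inf_int {q : ℝ} (hq : 0 ≤ q) (h : q < 3 / 2 ∨ 3 < q) : ∫⁻ p in Om, ‖p.1‖ₑ ^ q = ⊤ := by
  rcases h with h | h
  · refine big (c := (1 / 4) ^ q / 16) (a := 64 / 16 ^ q) (by positivity) ?_ fun n =>
      le_trans (le_of_eq ?_) (down (by positivity) (by positivity) hq (s2 n))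
    · rw [one_lt_div (by positivity)]
      refine (Real.rpow_lt_rpow_of_exponent_lt (by norm_num) h).trans_le (le_of_eq ?_)
      rw [show (16 : ℝ) = 4 ^ (2 : ℝ) by norm_num, ← Real.rpow_mul (by norm_num)]
      norm_num
    · congr 1
      rw [Real.div_rpow (x := 1 / 16 ^ n) (by positivity) (by norm_num),
        Real.div_rpow zero_le_one (by positivity), Real.div_rpow zero_le_one (by positivity),
        Real.one_rpow, ← Real.rpow_pow_comm (by norm_num), div_pow 64,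
        show (128 : ℝ) ^ n = 8 ^ n * 16 ^ n by rw [← mul_pow]; norm_num,
        show (64 : ℝ) ^ n = 8 ^ n * 8 ^ n by rw [← mul_pow]; norm_num]
      field_simp
      norm_num
  · refine big (c := (1 / 4) ^ q / 16) (a := 4 ^ q / 64) (by positivity) ?_ fun n =>
      le_trans (le_of_eq ?_) (down (by positivity) (by positivity) hq (s1 n))
    · rw [one_lt_div (by positivity)]
      refine lt_of_le_of_lt (le_of_eq ?_) (Real.rpow_lt_rpow_of_exponent_lt (by norm_num) h)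
      norm_num
    · congr 1
      rw [Real.div_rpow (x := 4 ^ n) (by positivity) (by norm_num),
        Real.div_rpow zero_le_one (by positivity),
        Real.one_rpow, ← Real.rpow_pow_comm (by norm_num), div_pow _ 64,
        show (32 : ℝ) ^ n = 8 ^ n * 4 ^ n by rw [← mul_pow]; norm_num,
        show (64 : ℝ) ^ n = 8 ^ n * 8 ^ n by rw [← mul_pow]; norm_num]
      field_simp
      norm_num

def pre (S : Set (ℂ × ℂ)) : Set (Fin 2 → ℂ) := MeasurableEquiv.finTwoArrow ⁻¹' S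

lemma lint (S : Set (ℂ × ℂ)) (F : ℂ × ℂ → ℝ≥0∞) :
    ∫⁻ x in pre S, F (x 0, x 1) = ∫⁻ p in S, F p :=
  (volume_preserving_finTwoArrow ℂ).setLIntegral_comp_preimage_emb
    MeasurableEquiv.finTwoArrow.measurableEmbedding F S

lemma mem_e (S : Set (ℂ × ℂ)) {q : ℝ} (hq : 0 < q) :
    MemLp (fun x : Fin 2 → ℂ => x 0) (ENNReal.ofReal q) (volume.restrict (pre S)) ↔
      ∫⁻ p in S, ‖p.1‖ₑ ^ q < ⊤ := by
  rw [← lint, MemLp, eLpNorm_lt_top_iff_lintegral_rpow_enorm_lt_top (by simpa using hq)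
    ENNReal.ofReal_ne_top, ENNReal.toReal_ofReal hq.le]
  exact and_iff_right (continuous_apply 0).aestronglyMeasurable

lemma nz {S : Set (ℂ × ℂ)} (h1 : P1 0 ⊆ S)
    (h2 : MemLp (fun x : Fin 2 → ℂ => x 0) 2 (volume.restrict (pre S))) :
    ∫ x in pre S, x 0 * (starRingEnd ℂ) (x 0) ≠ 0 := fun h => by
  simp only [mul_conj', ← ofReal_pow, integral_complex_ofReal, ofReal_eq_zero] at h
  rw [integral_eq_zero_iff_of_nonneg (fun x => sq_nonneg _)
    ((memLp_two_iff_integrable_sq_norm h2.1).1 h2)] at h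
  have a := down (q := 1) (by positivity) (by positivity) zero_le_one h1
  rw [← lint, lintegral_congr_ae (g := fun _ => 0) (by
    filter_upwards [h] with x hx
    simpa using hx)] at a
  norm_num at a

lemma onedim' {h : (Fin 2 → ℂ) → ℂ} (hd : DifferentiableOn ℂ h (pre Om))
    (hm : MemLp h 2 (volume.restrict (pre Om))) : ∃ β : ℂ, ∀ x ∈ pre Om, h x = β * x 0 := by
  have e : ∀ x : Fin 2 → ℂ, (ContinuousLinearEquiv.finTwoArrow ℂ ℂ).symm (x 0, x 1) = x :=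
    fun x => (ContinuousLinearEquiv.finTwoArrow ℂ ℂ).symm_apply_apply x
  obtain ⟨β, hβ⟩ := onedim (h := fun p => h ((ContinuousLinearEquiv.finTwoArrow ℂ ℂ).symm p))
    (hd.comp (ContinuousLinearEquiv.differentiableOn _) fun p hp => by simpa [pre] using hp) (by
      have := (eLpNorm_lt_top_iff_lintegral_rpow_enorm_lt_top two_ne_zero ENNReal.ofNat_ne_top).1 hm.2
      rw [← lint]
      simpa [e] using this.ne)
  exact ⟨β, fun x hx => (congrArg h (e x).symm).trans (hβ (x 0, x 1) hx)⟩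

end Pool.Agent.H28Wie
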