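import Mathlib

set_option autoImplicit false

namespace Pool.Agent.H28Wk

open MeasureTheory Real

/-- continuous, increasing, convex -/
structure Good (Φ : ℝ → ℝ) : Prop where
  cont : Continuous Φ
  mono : Monotone Φ
  cvx : ∀ x y a : ℝ, 0 ≤ a → a ≤ 1 → Φ (a * x + (1 - a) * y) ≤ a * Φ x + (1 - a) * Φ y

noncomputable def H (η : ℝ) (Φ : ℝ → ℝ) (y : ℝ) : ℝ :=
  (2 * π)⁻¹ * ∫ θ in (0:ℝ)..(2 * π), Φ (y * (1 + η + cos θ))

lemma w_nonneg {η : ℝ} (hη : 0 ≤ η) (θ : ℝ) : 0 ≤ 1 + η + cos θ := by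
  have := neg_one_le_cos θ; linarith

lemma H_good {η : ℝ} (hη : 0 ≤ η) {Φ : ℝ → ℝ} (h : Good Φ) : Good (H η Φ) := by
  have hc := h.cont
  have hi : ∀ y : ℝ, IntervalIntegrable (fun θ => Φ (y * (1 + η + cos θ))) volume 0 (2 * π) :=
    fun y => (by fun_prop : Continuous fun θ => Φ (y * (1 + η + cos θ))).intervalIntegrable _ _
  have hp : (0:ℝ) ≤ (2 * π)⁻¹ := by positivity
  refine ⟨?_, ?_, ?_⟩
  · unfold H
    refine continuous_const.mul ?_
    exact intervalIntegral.continuous_parametric_intervalIntegral_of_continuous'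
      (f := fun y θ => Φ (y * (1 + η + cos θ))) (by unfold Function.uncurry; fun_prop) _ _
  · intro x y hxy
    unfold H
    refine mul_le_mul_of_nonneg_left ?_ hp
    refine intervalIntegral.integral_mono_on (by positivity) (hi x) (hi y) fun θ _ => ?_
    exact h.mono (mul_le_mul_of_nonneg_right hxy (w_nonneg hη θ))
  · intro x y a ha ha1
    unfold H
    have : (∫ θ in (0:ℝ)..(2 * π), Φ ((a * x + (1 - a) * y) * (1 + η + cos θ))) ≤
        ∫ θ in (0:ℝ)..(2 * π), (a * Φ (x * (1 + η + cos θ)) + (1 - a) * Φ (y * (1 + η + cos θ))) := by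
      refine intervalIntegral.integral_mono_on (by positivity) (hi _)
        (((hi x).const_mul a).add ((hi y).const_mul (1 - a))) fun θ _ => ?_
      have := h.cvx (x * (1 + η + cos θ)) (y * (1 + η + cos θ)) a ha ha1
      convert this using 2
      ring
    rw [intervalIntegral.integral_add ((hi x).const_mul a) ((hi y).const_mul (1 - a)),
      intervalIntegral.integral_const_mul, intervalIntegral.integral_const_mul] at this
    have := mul_le_mul_of_nonneg_left this hp
    linarith

lemma cell {Φ : ℝ → ℝ} (h : Good Φ) (q : ℕ) (hq : 0 < q) {σ : ℝ} (hσ : 0 ≤ σ) (φ : ℝ) :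
    ∑ l ∈ Finset.range q, Φ (σ * (1 + cos (φ + l * (2 * π / q)))) ≤ q * H (2 * π / q) Φ σ := by
  set η : ℝ := 2 * π / q with hη
  have hq' : (0:ℝ) < q := by exact_mod_cast hq
  have hη0 : 0 < η := by positivity
  have hc := h.cont
  have hF : Continuous fun θ => Φ (σ * (1 + η + cos θ)) := by fun_prop
  have hper : Function.Periodic (fun θ => Φ (σ * (1 + η + cos θ))) (2 * π) := by
    intro θ; simp only [cos_add_two_pi]
  have h1 : (∫ θ in (0:ℝ)..(2 * π), Φ (σ * (1 + η + cos θ))) =
      ∫ θ in φ..(φ + 2 * π), Φ (σ * (1 + η + cos θ)) := by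
    have := hper.intervalIntegral_add_eq 0 φ
    simpa using this
  have h2 := intervalIntegral.sum_integral_adjacent_intervals (μ := volume)
    (f := fun θ => Φ (σ * (1 + η + cos θ))) (a := fun l : ℕ => φ + l * η) (n := q)
    (fun k _ => hF.intervalIntegrable _ _)
  have h3 : φ + (q:ℝ) * η = φ + 2 * π := by rw [hη]; field_simp
  simp only [Nat.cast_zero, zero_mul, add_zero, h3] at h2
  have h4 : ∀ l ∈ Finset.range q, η * Φ (σ * (1 + cos (φ + l * η))) ≤
      ∫ θ in (φ + l * η)..(φ + ((l + 1 : ℕ) : ℝ) * η), Φ (σ * (1 + η + cos θ)) := by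
    intro l _
    have e : φ + ((l + 1 : ℕ) : ℝ) * η = φ + l * η + η := by push_cast; ring
    rw [e]
    have := intervalIntegral.integral_mono_on (μ := volume) (a := φ + l * η) (b := φ + l * η + η)
      (f := fun _ => Φ (σ * (1 + cos (φ + l * η)))) (g := fun θ => Φ (σ * (1 + η + cos θ)))
      (by linarith) (continuous_const.intervalIntegrable _ _) (hF.intervalIntegrable _ _)
      (fun θ hθ => by
        refine h.mono (mul_le_mul_of_nonneg_left ?_ hσ)
        have h5 := abs_cos_sub_cos_le (φ + l * η) θ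
        have h6 : |φ + l * η - θ| ≤ η := abs_le.2 ⟨by linarith [hθ.2], by linarith [hθ.1]⟩
        have := (abs_le.1 (h5.trans h6)).2
        linarith)
    simpa using this
  have h5 := Finset.sum_le_sum h4
  rw [h2, ← h1, ← Finset.mul_sum] at h5
  unfold H
  have h6 : (q:ℝ) * (2 * π)⁻¹ = η⁻¹ := by rw [hη]; field_simp
  rw [← mul_assoc, h6, le_inv_mul_iff₀ hη0]
  exact h5

lemma step {Φ : ℝ → ℝ} (h : Good Φ) (q : ℕ) (hq : 0 < q) {σ : ℝ} (b : ℂ) (hb : 2 * ‖b‖ ≤ σ) :
    ∑ l ∈ Finset.range q, Φ (σ + 2 * (Complex.exp (((l * (2 * π / q) : ℝ) : ℂ) * Complex.I) * b).re)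
      ≤ q * H (2 * π / q) Φ σ := by
  have hσ : 0 ≤ σ := le_trans (by positivity) hb
  set r := 2 * ‖b‖ with hr
  have hr0 : 0 ≤ r := by positivity
  have hrs : r / σ * σ = r := by
    rcases hσ.eq_or_lt with h0 | h0
    · have : r = 0 := by linarith
      rw [this]; simp
    · field_simp
  have hd0 : 0 ≤ r / σ := by positivity
  have hd1 : r / σ ≤ 1 := div_le_one_of_le₀ hb hσ
  set a := (1 + r / σ) / 2 with ha
  have key : ∀ l ∈ Finset.range q,
      Φ (σ + 2 * (Complex.exp (((l * (2 * π / q) : ℝ) : ℂ) * Complex.I) * b).re) ≤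
      a * Φ (σ * (1 + cos (Complex.arg b + l * (2 * π / q)))) +
        (1 - a) * Φ (σ * (1 + cos ((Complex.arg b + π) + l * (2 * π / q)))) := by
    intro l _
    have e1 : (Complex.exp (((l * (2 * π / q) : ℝ) : ℂ) * Complex.I) * b).re =
        ‖b‖ * cos (Complex.arg b + l * (2 * π / q)) := by
      conv_lhs => rw [← Complex.norm_mul_exp_arg_mul_I b]
      rw [mul_left_comm, ← Complex.exp_add, ← add_mul, ← Complex.ofReal_add, Complex.re_ofReal_mul,
        Complex.exp_ofReal_mul_I_re, add_comm]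
    have e2 : cos ((Complex.arg b + π) + l * (2 * π / q)) = - cos (Complex.arg b + l * (2 * π / q)) := by
      rw [← cos_add_pi]; congr 1; ring
    rw [e1, e2]
    have := h.cvx (σ * (1 + cos (Complex.arg b + l * (2 * π / q))))
      (σ * (1 + - cos (Complex.arg b + l * (2 * π / q)))) a (by rw [ha]; positivity)
      (by rw [ha]; linarith)
    convert this using 2
    rw [ha]
    linear_combination (-cos (Complex.arg b + l * (2 * π / q))) * hrs
      - cos (Complex.arg b + l * (2 * π / q)) * hr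
  refine (Finset.sum_le_sum key).trans ?_
  rw [Finset.sum_add_distrib, ← Finset.mul_sum, ← Finset.mul_sum]
  have c1 := cell h q hq hσ (Complex.arg b)
  have c2 := cell h q hq hσ (Complex.arg b + π)
  have ha0 : 0 ≤ a := by rw [ha]; positivity
  have ha1 : 0 ≤ 1 - a := by rw [ha]; linarith
  nlinarith [mul_le_mul_of_nonneg_left c1 ha0, mul_le_mul_of_nonneg_left c2 ha1]

noncomputable def ψ (t y : ℝ) : ℂ := (y : ℂ) ^ 2 * Complex.exp (((t * log y : ℝ) : ℂ) * Complex.I)

lemma norm_ψ (t y : ℝ) : ‖ψ t y‖ = y ^ 2 := by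
  unfold ψ
  rw [norm_mul, Complex.norm_exp_ofReal_mul_I, norm_pow, Complex.norm_real, Real.norm_eq_abs, sq_abs,
    mul_one]

lemma ψ_mul (t y z : ℝ) : ψ t (y * z) = ψ t y * ψ t z := by
  by_cases hy : y = 0
  · simp [ψ, hy]
  by_cases hz : z = 0
  · simp [ψ, hz]
  unfold ψ
  rw [log_mul hy hz, mul_add, Complex.ofReal_add, add_mul, Complex.exp_add]
  push_cast; ring

lemma ψ_cont (t : ℝ) : Continuous (ψ t) := by
  rw [continuous_iff_continuousAt]
  intro y
  by_cases hy : y = 0
  · subst hy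
    have h0 : ψ t 0 = 0 := by simp [ψ]
    unfold ContinuousAt
    rw [h0]
    refine squeeze_zero_norm (a := fun y : ℝ => y ^ 2) (fun y => (norm_ψ t y).le) ?_
    have : Continuous fun y : ℝ => y ^ 2 := by fun_prop
    simpa using this.tendsto 0
  · unfold ψ
    have h1 : ContinuousAt log y := continuousAt_log hy
    have h2 : ContinuousAt (fun y : ℝ => ((t * log y : ℝ) : ℂ)) y :=
      Complex.continuous_ofReal.continuousAt.comp (continuousAt_const.mul h1)
    exact (by fun_prop : ContinuousAt (fun y : ℝ => (y : ℂ) ^ 2) y).mul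
      (Complex.continuous_exp.continuousAt.comp (h2.mul continuousAt_const))

noncomputable def κ (η t : ℝ) : ℂ :=
  (((2 * π)⁻¹ : ℝ) : ℂ) * ∫ θ in (0:ℝ)..(2 * π), ψ t (1 + η + cos θ)

lemma κ_cont (t : ℝ) : Continuous fun η => κ η t := by
  unfold κ
  refine continuous_const.mul ?_
  have := ψ_cont t
  exact intervalIntegral.continuous_parametric_intervalIntegral_of_continuous'
      (f := fun η θ => ψ t (1 + η + cos θ)) (by unfold Function.uncurry; fun_prop) _ _

lemma eigen {η : ℝ} (hη : 0 ≤ η) {ι : Type} (J : Finset ι) (t : ι → ℝ) (D : ℕ) :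
    ∀ (Φ : ℝ → ℝ) (a : ι → ℂ), Good Φ → (∀ y, 0 ≤ y → Φ y ≤ (∑ j ∈ J, a j * ψ (t j) y).re) →
      ∀ y, 0 ≤ y → (H η)^[D] Φ y ≤ (∑ j ∈ J, a j * κ η (t j) ^ D * ψ (t j) y).re := by
  induction D with
  | zero => intro Φ a _ h y hy; simpa using h y hy
  | succ D ih =>
    intro Φ a hΦ h y hy
    rw [Function.iterate_succ_apply]
    have := ih (H η Φ) (fun j => a j * κ η (t j)) (H_good hη hΦ) ?_ y hy
    · convert this using 3
      ring
    intro z hz
    have hc := hΦ.cont
    have hψ := fun j => ψ_cont (t j)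
    have hG : Continuous fun θ => ∑ j ∈ J, a j * ψ (t j) (z * (1 + η + cos θ)) := by fun_prop
    have h1 : (∫ θ in (0:ℝ)..(2 * π), Φ (z * (1 + η + cos θ))) ≤
        ∫ θ in (0:ℝ)..(2 * π), (∑ j ∈ J, a j * ψ (t j) (z * (1 + η + cos θ))).re :=
      intervalIntegral.integral_mono_on (by positivity)
        ((by fun_prop : Continuous fun θ => Φ (z * (1 + η + cos θ))).intervalIntegrable _ _)
        ((Complex.continuous_re.comp hG).intervalIntegrable _ _)
        fun θ _ => h _ (mul_nonneg hz (w_nonneg hη θ))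
    have h2 : (∫ θ in (0:ℝ)..(2 * π), (∑ j ∈ J, a j * ψ (t j) (z * (1 + η + cos θ))).re) =
        (∫ θ in (0:ℝ)..(2 * π), ∑ j ∈ J, a j * ψ (t j) (z * (1 + η + cos θ))).re :=
      (Complex.reCLM.intervalIntegral_comp_comm (hG.intervalIntegrable _ _))
    have h3 : (∫ θ in (0:ℝ)..(2 * π), ∑ j ∈ J, a j * ψ (t j) (z * (1 + η + cos θ))) =
        ∑ j ∈ J, a j * ψ (t j) z * ∫ θ in (0:ℝ)..(2 * π), ψ (t j) (1 + η + cos θ) := by
      rw [intervalIntegral.integral_finsetSum]
      · refine Finset.sum_congr rfl fun j _ => ?_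
        simp only [ψ_mul, ← mul_assoc]
        rw [intervalIntegral.integral_const_mul]
      · intro j _
        exact (by fun_prop : Continuous fun θ => a j * ψ (t j) (z * (1 + η + cos θ))).intervalIntegrable _ _
    rw [h2, h3] at h1
    unfold H
    refine (mul_le_mul_of_nonneg_left h1 (by positivity)).trans (le_of_eq ?_)
    rw [← Complex.re_ofReal_mul, Finset.mul_sum]
    congr 1
    refine Finset.sum_congr rfl fun j _ => ?_
    unfold κ
    ring

lemma int_sq : (∫ θ in (0:ℝ)..(2 * π), (1 + cos θ) ^ 2) = 3 * π := by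
  have : ∀ θ : ℝ, (1 + cos θ) ^ 2 = 1 + 2 * cos θ + cos θ ^ 2 := fun θ => by ring
  simp only [this]
  rw [intervalIntegral.integral_add, intervalIntegral.integral_add, intervalIntegral.integral_const_mul,
    integral_cos, integral_cos_sq]
  · simp; ring
  all_goals exact Continuous.intervalIntegrable (by fun_prop) _ _

lemma κ_zero : ‖κ 0 0‖ = 3 / 2 := by
  have : κ 0 0 = ((3 / 2 : ℝ) : ℂ) := by
    unfold κ ψ
    simp only [zero_mul, Complex.ofReal_zero, Complex.exp_zero, mul_one, add_zero]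
    simp only [← Complex.ofReal_pow]
    rw [intervalIntegral.integral_ofReal, int_sq, ← Complex.ofReal_mul]
    congr 1
    field_simp
  rw [this, Complex.norm_real]; norm_num

lemma κ_lt {t : ℝ} (ht : t ≠ 0) : ‖κ 0 t‖ < 3 / 2 := by
  set Z := ∫ θ in (0:ℝ)..(2 * π), ψ t (1 + 0 + cos θ) with hZ
  have hψ := ψ_cont t
  set u := Complex.exp (((-Complex.arg Z : ℝ) : ℂ) * Complex.I) with hu
  have hun : ‖u‖ = 1 := Complex.norm_exp_ofReal_mul_I _
  have h1 : (u * Z).re = ‖Z‖ := by
    conv_lhs => rw [← Complex.norm_mul_exp_arg_mul_I Z]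
    rw [hu, mul_left_comm, ← Complex.exp_add, ← add_mul, ← Complex.ofReal_add]
    simp
  have hG : Continuous fun θ => u * ψ t (1 + 0 + cos θ) := by fun_prop
  have h2 : (∫ θ in (0:ℝ)..(2 * π), (u * ψ t (1 + 0 + cos θ)).re) = (u * Z).re := by
    rw [hZ, ← intervalIntegral.integral_const_mul]
    exact (Complex.reCLM.intervalIntegral_comp_comm (hG.intervalIntegrable _ _))
  have hG' : Continuous fun θ => (u * ψ t (1 + 0 + cos θ)).re := Complex.continuous_re.comp hG
  have h3 : 0 < ∫ θ in (0:ℝ)..(2 * π), ((1 + cos θ) ^ 2 - (u * ψ t (1 + 0 + cos θ)).re) := by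
    refine intervalIntegral.integral_pos (by positivity) (Continuous.continuousOn (by fun_prop)) ?_ ?_
    · intro θ _
      have := Complex.re_le_norm (u * ψ t (1 + 0 + cos θ))
      rw [norm_mul, hun, norm_ψ] at this
      simp only [add_zero] at this ⊢
      linarith
    · -- choose v ≤ 0 with t v - arg Z an odd multiple of π
      obtain ⟨k, hk⟩ : ∃ k : ℤ, (π + Complex.arg Z + k * (2 * π)) / t ≤ 0 := by
        have a1 := Complex.arg_le_pi Z
        have a2 := Complex.neg_pi_lt_arg Z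
        rcases lt_or_gt_of_ne ht with h | h
        · exact ⟨0, div_nonpos_of_nonneg_of_nonpos (by simp; linarith) h.le⟩
        · exact ⟨-1, div_nonpos_of_nonpos_of_nonneg (by simp; linarith) h.le⟩
      set v := (π + Complex.arg Z + k * (2 * π)) / t with hv
      have e0 := exp_pos v
      have e1 : exp v ≤ 1 := exp_le_one_iff.2 hk
      refine ⟨arccos (exp v - 1), ⟨arccos_nonneg _, (arccos_le_pi _).trans (by linarith [pi_pos])⟩, ?_⟩
      rw [cos_arccos (by linarith) (by linarith)]
      have e2 : (1:ℝ) + 0 + (exp v - 1) = exp v := by ring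
      have e3 : (1:ℝ) + (exp v - 1) = exp v := by ring
      rw [e2, e3]
      unfold ψ
      rw [log_exp, hu, mul_left_comm, ← Complex.exp_add, ← add_mul, ← Complex.ofReal_add,
        ← Complex.ofReal_pow, Complex.re_ofReal_mul, Complex.exp_ofReal_mul_I_re]
      have e4 : -Complex.arg Z + t * v = π + k * (2 * π) := by rw [hv]; field_simp; ring
      rw [e4, cos_add_int_mul_two_pi, cos_pi]
      have := pow_pos e0 2
      linarith
  rw [intervalIntegral.integral_sub (Continuous.intervalIntegrable (by fun_prop) _ _)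
    (hG'.intervalIntegrable _ _), int_sq, h2, h1] at h3
  unfold κ
  rw [norm_mul, Complex.norm_real, ← hZ, Real.norm_of_nonneg (by positivity),
    inv_mul_lt_iff₀ (by positivity)]
  linarith

end Pool.Agent.H28Wk
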