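import Pool.Agent.Lib.helper28.WkA

set_option autoImplicit false

namespace Pool.Agent.H28Wk

open MeasureTheory Real

noncomputable def e (n : ℤ) (x : ℝ) : ℂ :=
  Complex.exp (2 * (Real.pi : ℂ) * Complex.I * (n : ℂ) * (x : ℂ))

lemma e_cont (n : ℤ) : Continuous (e n) := by unfold e; fun_prop

lemma e_add (m n : ℤ) (x : ℝ) : e (m + n) x = e m x * e n x := by
  unfold e; rw [← Complex.exp_add]; congr 1; push_cast; ring

lemma e_add' (n : ℤ) (x y : ℝ) : e n (x + y) = e n x * e n y := by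
  unfold e; rw [← Complex.exp_add]; congr 1; push_cast; ring

lemma e_eq (n : ℤ) (x : ℝ) : e n x = Complex.exp (((2 * π * n * x : ℝ) : ℂ) * Complex.I) := by
  unfold e; congr 1; push_cast; ring

lemma norm_e (n : ℤ) (x : ℝ) : ‖e n x‖ = 1 := by
  rw [e_eq]; exact Complex.norm_exp_ofReal_mul_I _

lemma e_int (n : ℤ) (y : ℝ) (k : ℤ) (h : n * y = k) : e n y = 1 := by
  have := Complex.exp_int_mul_two_pi_mul_I k
  rw [← this]
  unfold e
  congr 1
  have h' : (n:ℂ) * (y:ℂ) = k := by exact_mod_cast h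
  rw [← h']; ring

lemma e_conj (n : ℤ) (x : ℝ) : (starRingEnd ℂ) (e n x) = e (-n) x := by
  rw [e_eq, e_eq, ← Complex.exp_conj]
  congr 1
  rw [map_mul, Complex.conj_ofReal, Complex.conj_I]
  push_cast; ring

lemma int_e (n : ℤ) : (∫ x in (0:ℝ)..1, e n x) = if n = 0 then 1 else 0 := by
  split_ifs with h
  · subst h; simp [e]
  · have hc : (2 * (Real.pi : ℂ) * Complex.I * (n : ℂ)) ≠ 0 := by
      have : (n:ℂ) ≠ 0 := by exact_mod_cast h
      have := Real.pi_ne_zero
      simp [*]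
    have := integral_exp_mul_complex (a := 0) (b := 1) hc
    unfold e
    rw [this]
    have h1 : e n 1 = 1 := e_int n 1 n (by simp)
    unfold e at h1
    rw [h1]; simp

lemma parseval (S : Finset ℤ) (c : ℤ → ℂ) :
    (∫ x in (0:ℝ)..1, ‖∑ n ∈ S, c n * e n x‖ ^ 2) = ∑ n ∈ S, ‖c n‖ ^ 2 := by
  have he := e_cont
  apply Complex.ofReal_injective
  rw [← intervalIntegral.integral_ofReal]
  have h1 : ∀ x : ℝ, ((‖∑ n ∈ S, c n * e n x‖ ^ 2 : ℝ) : ℂ) =
      ∑ n ∈ S, ∑ m ∈ S, c n * (starRingEnd ℂ) (c m) * e (n - m) x := by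
    intro x
    rw [Complex.ofReal_pow, ← Complex.mul_conj', map_sum, Finset.sum_mul_sum]
    refine Finset.sum_congr rfl fun n _ => Finset.sum_congr rfl fun m _ => ?_
    rw [map_mul, e_conj, sub_eq_add_neg, e_add]; ring
  simp only [h1]
  rw [intervalIntegral.integral_finsetSum
    (fun n _ => Continuous.intervalIntegrable (by fun_prop) _ _), Complex.ofReal_sum]
  refine Finset.sum_congr rfl fun n hn => ?_
  rw [intervalIntegral.integral_finsetSum
    (fun n _ => Continuous.intervalIntegrable (by fun_prop) _ _)]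
  simp only [intervalIntegral.integral_const_mul, int_e, sub_eq_zero, mul_ite, mul_one, mul_zero]
  rw [Finset.sum_ite_eq, if_pos hn, Complex.mul_conj', Complex.ofReal_pow]

lemma sq_int_le {F : ℝ → ℝ} (hF : Continuous F) :
    (∫ x in (0:ℝ)..1, F x) ^ 2 ≤ ∫ x in (0:ℝ)..1, F x ^ 2 := by
  set a := ∫ x in (0:ℝ)..1, F x with ha
  have h : 0 ≤ ∫ x in (0:ℝ)..1, (F x - a) ^ 2 :=
    intervalIntegral.integral_nonneg zero_le_one fun x _ => sq_nonneg _
  have e1 : ∀ x, (F x - a) ^ 2 = F x ^ 2 - 2 * a * F x + a ^ 2 := fun x => by ring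
  simp only [e1] at h
  rw [intervalIntegral.integral_add, intervalIntegral.integral_sub, intervalIntegral.integral_const_mul,
    ← ha] at h
  · simp at h; nlinarith
  all_goals exact Continuous.intervalIntegrable (by fun_prop) _ _

lemma shift {F : ℝ → ℝ} (hF : Function.Periodic F 1) (h : ℝ) :
    (∫ x in (0:ℝ)..1, F (x + h)) = ∫ x in (0:ℝ)..1, F x := by
  rw [intervalIntegral.integral_comp_add_right]
  have := hF.intervalIntegral_add_eq h 0
  simpa [add_comm] using this

def E (q : ℕ) : ℕ → ℤ → Finset ℤ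
  | 0, _ => {0}
  | D + 1, s => E q D (s * q) ∪ (E q D (s * q)).image (· + s)

lemma E_dvd (q D : ℕ) : ∀ s n : ℤ, n ∈ E q D s → s ∣ n := by
  induction D with
  | zero => intro s n h; simp [E] at h; simp [h]
  | succ D ih =>
    intro s n h
    simp only [E, Finset.mem_union, Finset.mem_image] at h
    rcases h with h | ⟨a, h, rfl⟩
    · exact (dvd_mul_right _ _).trans (ih _ _ h)
    · exact dvd_add ((dvd_mul_right _ _).trans (ih _ _ h)) dvd_rfl

lemma not_dvd {q : ℕ} (hq : 2 ≤ q) {s a : ℤ} (hs : 0 < s) (h : s * q ∣ a) : ¬ s * q ∣ a + s := by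
  intro h'
  have h1 : s * q ∣ s := (dvd_add_right h).1 h'
  have h2 := Int.le_of_dvd hs h1
  have : (2:ℤ) ≤ q := by exact_mod_cast hq
  nlinarith

lemma E_sum {M : Type} [AddCommMonoid M] {q : ℕ} (hq : 2 ≤ q) (D : ℕ) {s : ℤ} (hs : 0 < s)
    (f : ℤ → M) : ∑ n ∈ E q (D + 1) s, f n =
      ∑ n ∈ E q D (s * q), f n + ∑ n ∈ E q D (s * q), f (n + s) := by
  rw [E, Finset.sum_union, Finset.sum_image (fun a _ b _ h => by simpa using h)]
  rw [Finset.disjoint_left]
  intro n hn hn'
  obtain ⟨a, ha, rfl⟩ := Finset.mem_image.1 hn'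
  exact not_dvd hq hs (E_dvd _ _ _ _ ha) (E_dvd _ _ _ _ hn)

noncomputable def P (q D : ℕ) (s : ℤ) (c : ℤ → ℂ) (x : ℝ) : ℂ := ∑ n ∈ E q D s, c n * e n x

lemma P_cont (q D : ℕ) (s : ℤ) (c : ℤ → ℂ) : Continuous (P q D s c) := by
  have := e_cont
  unfold P; fun_prop

lemma P_succ {q : ℕ} (hq : 2 ≤ q) (D : ℕ) {s : ℤ} (hs : 0 < s) (c : ℤ → ℂ) (x : ℝ) :
    P q (D + 1) s c x = P q D (s * q) c x + e s x * P q D (s * q) (fun n => c (n + s)) x := by
  unfold P
  rw [E_sum hq D hs, Finset.mul_sum]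
  congr 1
  refine Finset.sum_congr rfl fun n _ => ?_
  rw [e_add]; ring

lemma P_shift (q D : ℕ) (s : ℤ) (c : ℤ → ℂ) (x y : ℝ) (k : ℤ) (h : s * y = k) :
    P q D s c (x + y) = P q D s c x := by
  unfold P
  refine Finset.sum_congr rfl fun n hn => ?_
  obtain ⟨a, rfl⟩ := E_dvd _ _ _ _ hn
  rw [e_add', e_int (s * a) y (k * a) (by push_cast; rw [← h]; ring), mul_one]

lemma P_per (q D : ℕ) (s : ℤ) (c : ℤ → ℂ) (x : ℝ) : P q D s c (x + 1) = P q D s c x :=
  P_shift q D s c x 1 s (by simp)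

lemma norm_add_sq' (A B z : ℂ) (hz : ‖z‖ = 1) :
    ‖A + z * B‖ ^ 2 = ‖A‖ ^ 2 + ‖B‖ ^ 2 + 2 * (z * (B * (starRingEnd ℂ) A)).re := by
  rw [← Complex.normSq_eq_norm_sq, Complex.normSq_add, Complex.normSq_eq_norm_sq,
    Complex.normSq_eq_norm_sq, norm_mul, hz, one_mul]
  simp only [map_mul, Complex.mul_re, Complex.mul_im, Complex.conj_re, Complex.conj_im]
  ring

lemma main {q : ℕ} (hq : 2 ≤ q) (D : ℕ) :
    ∀ (s : ℤ) (ι : Type) [Fintype ι] (c : ι → ℤ → ℂ) (Φ : ℝ → ℝ), 0 < s → Good Φ →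
      (∫ x in (0:ℝ)..1, Φ (∑ i, ‖P q D s (c i) x‖ ^ 2)) ≤
        (H (2 * π / q))^[D] Φ (∑ i, ∑ n ∈ E q D s, ‖c i n‖ ^ 2) := by
  have hq0 : 0 < q := by omega
  have hq' : (0:ℝ) < q := by exact_mod_cast hq0
  induction D with
  | zero =>
    intro s ι _ c Φ _ _
    simp [P, E, e]
  | succ D ih =>
    intro s ι _ c Φ hs hΦ
    have hs' : (0:ℝ) < s := by exact_mod_cast hs
    rw [Function.iterate_succ_apply]
    have hH := H_good (η := 2 * π / q) (by positivity) hΦ
    have h1 := ih (s * q) (ι ⊕ ι) (Sum.elim c fun i n => c i (n + s)) (H (2 * π / q) Φ)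
      (by positivity) hH
    simp only [Fintype.sum_sum_type, Sum.elim_inl, Sum.elim_inr] at h1
    simp only [E_sum hq D hs, Finset.sum_add_distrib]
    refine le_trans ?_ h1
    have hc := hΦ.cont
    have hc' := hH.cont
    have hP := P_cont q
    set F : ℝ → ℝ := fun x => Φ (∑ i, ‖P q (D + 1) s (c i) x‖ ^ 2) with hF
    have hFc : Continuous F := by rw [hF]; fun_prop
    have hFp : Function.Periodic F 1 := by intro x; simp only [hF, P_per]
    have h2 : (q:ℝ) * ∫ x in (0:ℝ)..1, F x =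
        ∫ x in (0:ℝ)..1, ∑ l ∈ Finset.range q, F (x + l / (s * q)) := by
      rw [intervalIntegral.integral_finsetSum
        (fun n _ => Continuous.intervalIntegrable (by fun_prop) _ _)]
      simp only [shift hFp]
      simp
    refine le_of_mul_le_mul_left ?_ hq'
    rw [h2, ← intervalIntegral.integral_const_mul]
    refine intervalIntegral.integral_mono_on zero_le_one
      (Continuous.intervalIntegrable (by fun_prop) _ _)
      (Continuous.intervalIntegrable (by fun_prop) _ _) fun x _ => ?_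
    set A : ι → ℂ := fun i => P q D (s * q) (c i) x with hA
    set B : ι → ℂ := fun i => P q D (s * q) (fun n => c i (n + s)) x with hB
    have h3 := step hΦ q hq0 (σ := ∑ i, ‖A i‖ ^ 2 + ∑ i, ‖B i‖ ^ 2)
      (e s x * ∑ i, B i * (starRingEnd ℂ) (A i)) (by
        rw [norm_mul, norm_e, one_mul, ← Finset.sum_add_distrib]
        refine (mul_le_mul_of_nonneg_left (norm_sum_le _ _) zero_le_two).trans ?_
        rw [Finset.mul_sum]
        refine Finset.sum_le_sum fun i _ => ?_
        rw [norm_mul, Complex.norm_conj]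
        nlinarith [sq_nonneg (‖A i‖ - ‖B i‖)])
    refine le_trans (le_of_eq ?_) h3
    refine Finset.sum_congr rfl fun l _ => ?_
    simp only [hF]
    congr 1
    have e1 : ∀ c' : ℤ → ℂ, P q D (s * q) c' (x + l / (s * q)) = P q D (s * q) c' x := fun c' =>
      P_shift q D (s * q) c' x _ l (by push_cast; field_simp)
    have e2 : e s (x + l / (s * q)) =
        Complex.exp (((l * (2 * π / q) : ℝ) : ℂ) * Complex.I) * e s x := by
      rw [e_add', mul_comm, e_eq s (l / (s * q))]
      congr 4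
      field_simp
    simp only [P_succ hq D hs, e1]
    simp only [fun i => norm_add_sq' (P q D (s * q) (c i) x)
      (P q D (s * q) (fun n => c i (n + s)) x) _ (norm_e s (x + l / (s * q)))]
    rw [Finset.sum_add_distrib, Finset.sum_add_distrib, ← Finset.mul_sum, ← Complex.re_sum,
      ← Finset.mul_sum, e2, mul_assoc]

lemma P_congr (q D : ℕ) (s : ℤ) {c c' : ℤ → ℂ} (h : ∀ n, s ∣ n → c n = c' n) (x : ℝ) :
    P q D s c x = P q D s c' x :=
  Finset.sum_congr rfl fun n hn => by rw [h n (E_dvd _ _ _ _ hn)]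

/-- Rudin-Shapiro signs -/
lemma RS {q : ℕ} (hq : 2 ≤ q) (D : ℕ) : ∀ s : ℤ, 0 < s → ∃ p r : ℤ → ℂ,
    (∀ n, p n = 1 ∨ p n = -1) ∧ (∀ n, r n = 1 ∨ r n = -1) ∧
      ∀ x, ‖P q D s p x‖ ^ 2 + ‖P q D s r x‖ ^ 2 = 2 * 2 ^ D := by
  induction D with
  | zero =>
    intro s _
    refine ⟨fun _ => 1, fun _ => 1, by simp, by simp, fun x => ?_⟩
    simp [P, E, e]; norm_num
  | succ D ih =>
    intro s hs
    obtain ⟨p, r, hp, hr, h⟩ := ih (s * q) (by positivity)
    refine ⟨fun n => if s * q ∣ n then p n else r (n - s),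
      fun n => if s * q ∣ n then p n else - r (n - s), fun n => ?_, fun n => ?_, fun x => ?_⟩
    · dsimp only
      split_ifs
      · exact hp n
      · exact hr _
    · dsimp only
      split_ifs
      · exact hp n
      · rcases hr (n - s) with h | h <;> simp [h]
    · rw [P_succ hq D hs, P_succ hq D hs,
        P_congr q D (s * q) (c' := p) (fun n hn => if_pos hn),
        P_congr q D (s * q) (c := fun n => if s * q ∣ n then p n else - r (n - s)) (c' := p)
          (fun n hn => if_pos hn),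
        P_congr q D (s * q) (c := fun n => if s * q ∣ n + s then p (n + s) else r (n + s - s))
          (c' := r) (fun n hn => by rw [if_neg (not_dvd hq hs hn), add_sub_cancel_right]),
        P_congr q D (s * q) (c := fun n => if s * q ∣ n + s then p (n + s) else - r (n + s - s))
          (c' := fun n => - r n) (fun n hn => by rw [if_neg (not_dvd hq hs hn), add_sub_cancel_right])]
      have e1 : P q D (s * q) (fun n => - r n) x = - P q D (s * q) r x := by
        unfold P; simp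
      rw [e1, norm_add_sq' _ _ _ (norm_e s x), norm_add_sq' _ _ _ (norm_e s x)]
      have := h x
      simp only [norm_neg, neg_mul, mul_neg, Complex.neg_re]
      rw [pow_succ (2:ℝ) D]; linarith

lemma four_pts (z : ℂ) (hz : ‖z‖ = 1) :
    ∑ l ∈ Finset.range 4, ‖1 + Complex.I ^ l * z‖ ^ 4 = 24 := by
  have h : z.re ^ 2 + z.im ^ 2 = 1 := by
    have := Complex.sq_norm z
    rw [hz, Complex.normSq_apply] at this
    nlinarith
  have e4 : ∀ w : ℂ, ‖w‖ ^ 4 = (w.re ^ 2 + w.im ^ 2) ^ 2 := fun w => by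
    have := Complex.sq_norm w
    rw [Complex.normSq_apply] at this
    rw [show ‖w‖ ^ 4 = (‖w‖ ^ 2) ^ 2 by ring, this]; ring
  simp only [Finset.sum_range_succ, Finset.sum_range_zero, e4, pow_succ Complex.I, pow_zero]
  simp
  have h2 : z.im ^ 2 = 1 - z.re ^ 2 := by linarith
  have h4 : z.im ^ 4 = (1 - z.re ^ 2) ^ 2 := by rw [← h2]; ring
  ring_nf
  rw [h2, h4]
  ring

lemma six (r : ℕ) (hr : 0 < r) (D : ℕ) : ∀ s : ℤ, 0 < s →
    (∫ x in (0:ℝ)..1, ‖P (4 * r) D s (fun _ => 1) x‖ ^ 4) = 6 ^ D := by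
  have hq : 2 ≤ 4 * r := by omega
  have hr' : (0:ℝ) < r := by exact_mod_cast hr
  induction D with
  | zero => intro s _; simp [P, E, e]
  | succ D ih =>
    intro s hs
    have hs' : (0:ℝ) < s := by exact_mod_cast hs
    have h1 := ih (s * (4 * r : ℕ)) (by positivity)
    have hP := P_cont (4 * r)
    set F : ℝ → ℝ := fun x => ‖P (4 * r) (D + 1) s (fun _ => 1) x‖ ^ 4 with hF
    have hFc : Continuous F := by rw [hF]; fun_prop
    have hFp : Function.Periodic F 1 := by intro x; simp only [hF, P_per]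
    have h2 : (4:ℝ) * ∫ x in (0:ℝ)..1, F x =
        ∫ x in (0:ℝ)..1, ∑ l ∈ Finset.range 4, F (x + l / (4 * s)) := by
      rw [intervalIntegral.integral_finsetSum
        (fun n _ => Continuous.intervalIntegrable (by fun_prop) _ _)]
      simp only [shift hFp]
      simp
    have h3 : ∀ x, ∑ l ∈ Finset.range 4, F (x + l / (4 * s)) =
        24 * ‖P (4 * r) D (s * (4 * r : ℕ)) (fun _ => 1) x‖ ^ 4 := by
      intro x
      rw [← four_pts (e s x) (norm_e s x), Finset.sum_mul]
      refine Finset.sum_congr rfl fun l _ => ?_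
      simp only [hF]
      rw [P_succ hq D hs, P_shift (4 * r) D _ _ x _ (l * r) (by push_cast; field_simp), ← mul_pow,
        ← norm_mul]
      have e2 : e s (x + l / (4 * s)) = Complex.I ^ l * e s x := by
        rw [e_add', mul_comm, ← Complex.exp_pi_div_two_mul_I, ← Complex.exp_nat_mul]
        congr 1
        unfold e
        congr 1
        have : (s:ℂ) ≠ 0 := by exact_mod_cast hs.ne'
        push_cast
        field_simp
        ring
      rw [e2]
      congr 2
      ring
    simp only [h3] at h2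
    rw [intervalIntegral.integral_const_mul, h1] at h2
    rw [pow_succ]; linarith

end Pool.Agent.H28Wk
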