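import Pool.Agent.Lib.helper28.WkB

set_option autoImplicit false

namespace Pool.Agent.H28Wk

open MeasureTheory Real Filter

noncomputable def Φ0 (y : ℝ) : ℝ := max (2 * y - 1) 0

lemma Φ0_good : Good Φ0 := by
  refine ⟨by unfold Φ0; fun_prop, fun x y h => max_le_max (by linarith) le_rfl, fun x y a ha ha1 => ?_⟩
  unfold Φ0
  have h1 := mul_le_mul_of_nonneg_left (le_max_left (2 * x - 1) 0) ha
  have h2 := mul_le_mul_of_nonneg_left (le_max_left (2 * y - 1) 0) (sub_nonneg.2 ha1)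
  have h3 := mul_nonneg ha (le_max_right (2 * x - 1) 0)
  have h4 := mul_nonneg (sub_nonneg.2 ha1) (le_max_right (2 * y - 1) 0)
  exact max_le (by linarith) (by linarith)

noncomputable def tt (n : ℕ) (j : ℕ × ℕ) : ℝ := ((j.1 : ℝ) - j.2) / n ^ 2

noncomputable def aa (n : ℕ) (j : ℕ × ℕ) : ℝ := 4 / n ^ 2 + if j.1 = j.2 then 2 / (n:ℝ) ^ 2 else 0

lemma pointwise {n : ℕ} (hn : 0 < n) (y : ℝ) (hy : 0 ≤ y) :
    Φ0 y ≤ (∑ j ∈ Finset.range n ×ˢ Finset.range n, (aa n j : ℂ) * ψ (tt n j) y).re := by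
  have hn' : (0:ℝ) < n := by exact_mod_cast hn
  have hn1 : (1:ℝ) ≤ n := by exact_mod_cast hn
  set Z : ℂ := ∑ k ∈ Finset.range n, Complex.exp (((k / n ^ 2 * log y : ℝ) : ℂ) * Complex.I) with hZ
  have h1 : ∑ j ∈ Finset.range n ×ˢ Finset.range n, ψ (tt n j) y = ((y ^ 2 * ‖Z‖ ^ 2 : ℝ) : ℂ) := by
    rw [Complex.ofReal_mul, Complex.ofReal_pow, Complex.ofReal_pow, ← Complex.mul_conj', hZ, map_sum,
      Finset.sum_mul_sum, Finset.sum_product, Finset.mul_sum]
    refine Finset.sum_congr rfl fun k _ => ?_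
    rw [Finset.mul_sum]
    refine Finset.sum_congr rfl fun l _ => ?_
    unfold ψ tt
    rw [← Complex.exp_conj, ← Complex.exp_add, map_mul, Complex.conj_ofReal, Complex.conj_I]
    congr 2
    push_cast; ring
  have h2 : ∑ j ∈ Finset.range n ×ˢ Finset.range n,
      (((if j.1 = j.2 then 2 / (n:ℝ) ^ 2 else 0 : ℝ)) : ℂ) * ψ (tt n j) y = ((y ^ 2 * (2 / n) : ℝ) : ℂ) := by
    rw [Finset.sum_product]
    have : ∀ k ∈ Finset.range n, ∑ l ∈ Finset.range n,
        (((if k = l then 2 / (n:ℝ) ^ 2 else 0 : ℝ)) : ℂ) * ψ (tt n (k, l)) y =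
        ((2 / (n:ℝ) ^ 2 * y ^ 2 : ℝ) : ℂ) := by
      intro k hk
      rw [Finset.sum_eq_single k (fun l _ h => by rw [if_neg (Ne.symm h)]; simp) (fun h => absurd hk h)]
      simp [ψ, tt]
    rw [Finset.sum_congr rfl this, Finset.sum_const, Finset.card_range, nsmul_eq_mul]
    have : (n:ℂ) ≠ 0 := by exact_mod_cast hn.ne'
    push_cast
    field_simp
  simp only [aa, Complex.ofReal_add, add_mul, Finset.sum_add_distrib]
  rw [h2, ← Finset.mul_sum, h1, ← Complex.ofReal_mul, ← Complex.ofReal_add, Complex.ofReal_re]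
  have p1 : 0 ≤ 4 / (n:ℝ) ^ 2 * (y ^ 2 * ‖Z‖ ^ 2) := by positivity
  have p2 : 0 ≤ y ^ 2 * (2 / n) := by positivity
  unfold Φ0
  refine max_le ?_ (by linarith)
  by_cases c1 : y ≤ 1 / 2
  · linarith
  by_cases c2 : (n:ℝ) ≤ y
  · have : 2 * y ≤ y ^ 2 * (2 / n) := by
      rw [← mul_div_assoc, le_div_iff₀ hn']; nlinarith
    linarith
  push Not at c1 c2
  have hy0 : 0 < y := by linarith
  have l1 : log y ≤ n := by linarith [log_le_sub_one_of_pos hy0]
  have l2 : -(n:ℝ) ≤ log y := by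
    have := one_sub_inv_le_log_of_pos hy0
    have : y⁻¹ ≤ 2 := by rw [inv_le_comm₀ hy0 (by norm_num)]; linarith
    linarith
  have h3 : (n:ℝ) / 2 ≤ Z.re := by
    rw [hZ, Complex.re_sum]
    have : ∀ k ∈ Finset.range n, (1:ℝ) / 2 ≤
        (Complex.exp (((k / n ^ 2 * log y : ℝ) : ℂ) * Complex.I)).re := by
      intro k hk
      rw [Complex.exp_ofReal_mul_I_re]
      have hk' : (k:ℝ) ≤ n := by exact_mod_cast (Finset.mem_range.1 hk).le
      have b1 : |(k:ℝ) / n ^ 2 * log y| ≤ 1 := by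
        rw [abs_mul, abs_of_nonneg (by positivity), div_mul_eq_mul_div, div_le_one (by positivity), sq]
        exact mul_le_mul hk' (abs_le.2 ⟨l2, l1⟩) (abs_nonneg _) hn'.le
      have b2 := one_sub_sq_div_two_le_cos (x := (k:ℝ) / n ^ 2 * log y)
      have b3 := (sq_le_one_iff_abs_le_one _).2 b1
      linarith
    have := Finset.sum_le_sum this
    rw [Finset.sum_const, Finset.card_range, nsmul_eq_mul] at this
    linarith
  have h4 : ((n:ℝ) / 2) ^ 2 ≤ ‖Z‖ ^ 2 :=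
    pow_le_pow_left₀ (by positivity) (h3.trans (Complex.re_le_norm Z)) 2
  have h5 : y ^ 2 ≤ 4 / (n:ℝ) ^ 2 * (y ^ 2 * ‖Z‖ ^ 2) := by
    have : 4 / (n:ℝ) ^ 2 * (y ^ 2 * ((n:ℝ) / 2) ^ 2) = y ^ 2 := by field_simp; ring
    refine this.symm.le.trans ?_
    gcongr
  nlinarith [sq_nonneg (y - 1)]

lemma params {n : ℕ} (hn : 0 < n) : ∃ D r : ℕ, 0 < r ∧
    ‖κ (2 * π / (4 * r : ℕ)) 0‖ ^ D ≤ 2 * (3 / 2) ^ D ∧
    ∀ j ∈ Finset.range n ×ˢ Finset.range n, j.1 ≠ j.2 →
      ‖κ (2 * π / (4 * r : ℕ)) (tt n j)‖ ^ D ≤ (3 / 2) ^ D / n := by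
  have hn' : (0:ℝ) < n := by exact_mod_cast hn
  have h1 : ∀ᶠ D : ℕ in atTop, ∀ j ∈ Finset.range n ×ˢ Finset.range n, j.1 ≠ j.2 →
      ‖κ 0 (tt n j)‖ ^ D < (3 / 2) ^ D / n := by
    rw [eventually_all_finset]
    intro j _
    by_cases hj : j.1 = j.2
    · simp [hj]
    have ht : tt n j ≠ 0 := by
      unfold tt
      have : (j.1:ℝ) - j.2 ≠ 0 := sub_ne_zero.2 (by exact_mod_cast hj)
      positivity
    have hl := κ_lt ht
    have h2 := tendsto_pow_atTop_nhds_zero_of_lt_one (r := ‖κ 0 (tt n j)‖ / (3 / 2)) (by positivity)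
      (by rw [div_lt_one (by norm_num)]; exact hl)
    filter_upwards [h2.eventually (gt_mem_nhds (show (0:ℝ) < 1 / n by positivity))] with D hD _
    rw [div_pow, div_lt_div_iff₀ (by positivity) hn'] at hD
    rw [lt_div_iff₀ hn']; linarith
  obtain ⟨D, hD⟩ := h1.exists
  have ht : Tendsto (fun r : ℕ => 2 * π / (4 * r : ℕ)) atTop (nhds 0) := by
    refine tendsto_const_nhds.div_atTop (tendsto_natCast_atTop_atTop.comp ?_)
    exact tendsto_id.const_mul_atTop' (by norm_num)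
  have hc : ∀ t, Tendsto (fun r : ℕ => ‖κ (2 * π / (4 * r : ℕ)) t‖ ^ D) atTop (nhds (‖κ 0 t‖ ^ D)) :=
    fun t => ((((κ_cont t).norm.pow D).tendsto 0).comp ht)
  have h2 : ∀ᶠ r : ℕ in atTop, ∀ j ∈ Finset.range n ×ˢ Finset.range n, j.1 ≠ j.2 →
      ‖κ (2 * π / (4 * r : ℕ)) (tt n j)‖ ^ D ≤ (3 / 2) ^ D / n := by
    rw [eventually_all_finset]
    intro j hj
    by_cases hj' : j.1 = j.2
    · simp [hj']
    filter_upwards [(hc (tt n j)).eventually (gt_mem_nhds (hD j hj hj'))] with r hr _ using hr.le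
  have h3 : ∀ᶠ r : ℕ in atTop, ‖κ (2 * π / (4 * r : ℕ)) 0‖ ^ D < 2 * (3 / 2) ^ D := by
    refine (hc 0).eventually (gt_mem_nhds ?_)
    rw [κ_zero]
    have : (0:ℝ) < (3 / 2) ^ D := by positivity
    linarith
  obtain ⟨r, r1, r2, r3⟩ := (h2.and (h3.and (eventually_gt_atTop 0))).exists
  exact ⟨D, r, r3, r2.le, r1⟩

lemma weak0 {n : ℕ} (hn : 0 < n) : ∃ D r : ℕ, 0 < r ∧ ∀ s : ℤ, 0 < s → ∀ c : ℤ → ℂ,
    volume {x : ℝ | x ∈ Set.Icc (0:ℝ) 1 ∧ 1 < ‖P (4 * r) D s c x‖} ≤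
      ENNReal.ofReal (18 * (3 / 2) ^ D / n * (∑ k ∈ E (4 * r) D s, ‖c k‖ ^ 2) ^ 2) := by
  obtain ⟨D, r, hr, k0, k1⟩ := params hn
  have hn' : (0:ℝ) < n := by exact_mod_cast hn
  refine ⟨D, r, hr, fun s hs c => ?_⟩
  have h1 := main (q := 4 * r) (by omega) D s Unit (fun _ => c) Φ0 hs Φ0_good
  simp only [Finset.univ_unique, Finset.sum_singleton] at h1
  set y := ∑ k ∈ E (4 * r) D s, ‖c k‖ ^ 2 with hy
  have hy0 : 0 ≤ y := by positivity
  have h2 := eigen (η := 2 * π / (4 * r : ℕ)) (by positivity) (Finset.range n ×ˢ Finset.range n)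
    (tt n) D Φ0 (fun j => (aa n j : ℂ)) Φ0_good (pointwise hn) y hy0
  set K : ℝ := (3 / 2) ^ D with hK
  have hK0 : 0 < K := by positivity
  have h3 : (∑ j ∈ Finset.range n ×ˢ Finset.range n,
      (aa n j : ℂ) * κ (2 * π / (4 * r : ℕ)) (tt n j) ^ D * ψ (tt n j) y).re ≤ 18 * K / n * y ^ 2 := by
    refine (Complex.re_le_norm _).trans ((norm_sum_le _ _).trans ?_)
    have : ∀ j ∈ Finset.range n ×ˢ Finset.range n,
        ‖(aa n j : ℂ) * κ (2 * π / (4 * r : ℕ)) (tt n j) ^ D * ψ (tt n j) y‖ ≤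
        6 / n ^ 2 * y ^ 2 * (K / n + if j.1 = j.2 then 2 * K else 0) := by
      intro j hj
      rw [norm_mul, norm_mul, norm_pow, norm_ψ, Complex.norm_real, mul_right_comm]
      have a1 : ‖aa n j‖ ≤ 6 / n ^ 2 := by
        unfold aa
        split_ifs
        · rw [Real.norm_of_nonneg (by positivity)]; exact le_of_eq (by ring)
        · rw [Real.norm_of_nonneg (by positivity), add_zero]; gcongr; norm_num
      have a2 : ‖κ (2 * π / (4 * r : ℕ)) (tt n j)‖ ^ D ≤ K / n + if j.1 = j.2 then 2 * K else 0 := by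
        split_ifs with h
        · have : tt n j = 0 := by simp [tt, h]
          rw [this]
          have : 0 ≤ K / n := by positivity
          linarith
        · simpa using k1 j hj h
      gcongr
    refine (Finset.sum_le_sum this).trans (le_of_eq ?_)
    rw [← Finset.mul_sum, Finset.sum_add_distrib, Finset.sum_const, Finset.sum_product]
    have : ∀ k ∈ Finset.range n, ∑ l ∈ Finset.range n, (if k = l then 2 * K else 0) = 2 * K := by
      intro k hk
      rw [Finset.sum_ite_eq, if_pos hk]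
    rw [Finset.sum_congr rfl this]
    simp only [Finset.sum_const, Finset.card_product, Finset.card_range, nsmul_eq_mul]
    push_cast
    field_simp
    ring
  have h4 := h1.trans (h2.trans h3)
  have hc := Φ0_good.cont
  have hP := P_cont (4 * r) D s c
  have hF : Continuous fun x => Φ0 (‖P (4 * r) D s c x‖ ^ 2) := by fun_prop
  rw [intervalIntegral.integral_of_le zero_le_one, ← integral_Icc_eq_integral_Ioc] at h4
  have h5 := mul_meas_ge_le_integral_of_nonneg (μ := volume.restrict (Set.Icc (0:ℝ) 1))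
    (f := fun x => Φ0 (‖P (4 * r) D s c x‖ ^ 2)) (Eventually.of_forall fun x => le_max_right _ _)
    hF.integrableOn_Icc 1
  rw [one_mul] at h5
  have h6 : volume {x : ℝ | x ∈ Set.Icc (0:ℝ) 1 ∧ 1 < ‖P (4 * r) D s c x‖} ≤
      (volume.restrict (Set.Icc (0:ℝ) 1)) {x | 1 ≤ Φ0 (‖P (4 * r) D s c x‖ ^ 2)} := by
    rw [Measure.restrict_apply' measurableSet_Icc]
    refine measure_mono fun x hx => ⟨?_, hx.1⟩
    have := hx.2
    show 1 ≤ max (2 * ‖P (4 * r) D s c x‖ ^ 2 - 1) 0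
    refine le_max_of_le_left ?_
    nlinarith
  refine h6.trans ?_
  rw [← ofReal_measureReal]
  exact ENNReal.ofReal_le_ofReal (h5.trans h4)

noncomputable def T (m : ℤ → ℂ) (S : Finset ℤ) (c : ℤ → ℂ) (x : ℝ) : ℂ := ∑ n ∈ S, m n * c n * e n x

noncomputable def N4 (S : Finset ℤ) (c : ℤ → ℂ) : ℝ := ∫ x in (0:ℝ)..1, ‖∑ n ∈ S, c n * e n x‖ ^ 4

def Weak (m : ℤ → ℂ) (W : ℝ) : Prop := ∀ (S : Finset ℤ) (c : ℤ → ℂ) (t : ℝ), 0 < t →
  volume {x : ℝ | x ∈ Set.Icc (0:ℝ) 1 ∧ t < ‖T m S c x‖} ≤ ENNReal.ofReal (W * N4 S c / t ^ 4)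

lemma energy (S : Finset ℤ) (c : ℤ → ℂ) : (∑ n ∈ S, ‖c n‖ ^ 2) ^ 2 ≤ N4 S c := by
  have he := e_cont
  rw [← parseval]
  refine (sq_int_le (by fun_prop)).trans (le_of_eq ?_)
  unfold N4
  congr 1
  funext x
  ring

lemma reindex {M : Type} [AddCommMonoid M] (A S : Finset ℤ) (u : ℤ) (f : ℤ → M) :
    ∑ n ∈ S, (if n - u ∈ A then f n else 0) = ∑ n ∈ A, if n + u ∈ S then f (n + u) else 0 := by
  rw [← Finset.sum_filter, ← Finset.sum_filter]
  refine Finset.sum_nbij' (· - u) (· + u) ?_ ?_ ?_ ?_ ?_ <;> simp +contextual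

lemma block (u s : ℤ) (hs : 0 < s) (w : ℝ) (hw : 0 < w) (L : ℝ) : ∃ m : ℤ → ℂ,
    (∀ n, m n ≠ 0 → s ∣ n - u) ∧ Weak m w ∧ ∃ (S : Finset ℤ) (c : ℤ → ℂ), (∀ n ∈ S, s ∣ n - u) ∧
      0 ≤ N4 S c ∧ ∀ L' ≤ L, L' * N4 S c < ∫ x in (0:ℝ)..1, ‖T m S c x‖ ^ 4 := by
  obtain ⟨n, hn⟩ := exists_nat_gt (72 * |L| / w)
  have hn' : (0:ℝ) < n := lt_of_le_of_lt (by positivity) hn
  obtain ⟨D, r, hr, h⟩ := weak0 (n := n) (by exact_mod_cast hn')
  obtain ⟨p, p', hp, -, hrs⟩ := RS (q := 4 * r) (by omega) D s hs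
  have hpn : ∀ k, ‖p k‖ = 1 := fun k => by rcases hp k with h | h <;> simp [h]
  have hpp : ∀ k, p k * p k = 1 := fun k => by rcases hp k with h | h <;> simp [h]
  set W : ℝ := 18 * (3 / 2) ^ D / n with hW
  have hW0 : 0 < W := by positivity
  set a : ℝ := √(√(w / W)) with ha
  have ha0 : 0 < a := by positivity
  have ha4 : a ^ 4 = w / W := by
    rw [show a ^ 4 = (a ^ 2) ^ 2 by ring, ha, sq_sqrt (by positivity), sq_sqrt (by positivity)]
  set A := E (4 * r) D s with hA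
  have hT : ∀ (S : Finset ℤ) (c : ℤ → ℂ) (x : ℝ),
      T (fun k => if k - u ∈ A then (a:ℂ) * p (k - u) else 0) S c x =
      e u x * P (4 * r) D s (fun k => if k + u ∈ S then a * p k * c (k + u) else 0) x := by
    intro S c x
    unfold T P
    simp only [ite_mul, zero_mul]
    rw [reindex, Finset.mul_sum]
    refine Finset.sum_congr rfl fun k _ => ?_
    split_ifs
    · rw [add_sub_cancel_right, e_add]; ring
    · simp
  refine ⟨fun k => if k - u ∈ A then (a:ℂ) * p (k - u) else 0, fun k hk => ?_, fun S c t ht => ?_,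
    A.image (· + u), fun k => p (k - u), fun k hk => ?_, ?_⟩
  · by_cases h1 : k - u ∈ A
    · exact E_dvd _ _ _ _ h1
    · simp [h1] at hk
  · have h1 := h s hs (fun k => (t:ℂ)⁻¹ * if k + u ∈ S then a * p k * c (k + u) else 0)
    have h2 : ∀ x, P (4 * r) D s (fun k => (t:ℂ)⁻¹ * if k + u ∈ S then a * p k * c (k + u) else 0) x =
        (t:ℂ)⁻¹ * P (4 * r) D s (fun k => if k + u ∈ S then a * p k * c (k + u) else 0) x := by
      intro x; unfold P; rw [Finset.mul_sum]; simp only [mul_assoc]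
    simp only [h2, norm_mul, norm_inv, Complex.norm_real, Real.norm_of_nonneg ht.le,
      lt_inv_mul_iff₀ ht, mul_one] at h1
    simp only [hT, norm_mul, norm_e, one_mul]
    refine h1.trans (ENNReal.ofReal_le_ofReal ?_)
    have h3 : ∑ k ∈ A, (t⁻¹ * ‖if k + u ∈ S then a * p k * c (k + u) else 0‖) ^ 2 ≤
        (a / t) ^ 2 * ∑ k ∈ S, ‖c k‖ ^ 2 := by
      have h4 := reindex A S u (fun k => (a / t) ^ 2 * ‖c k‖ ^ 2)
      rw [Finset.mul_sum]
      refine le_trans (le_of_eq ?_) (h4.symm.le.trans (Finset.sum_le_sum fun k _ => ?_))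
      · refine Finset.sum_congr rfl fun k _ => ?_
        split_ifs
        · rw [norm_mul, norm_mul, hpn, Complex.norm_real, Real.norm_of_nonneg ha0.le]; ring
        · simp
      · split_ifs
        · exact le_rfl
        · positivity
    have h5 := energy S c
    calc W * (∑ k ∈ A, (t⁻¹ * ‖if k + u ∈ S then a * p k * c (k + u) else 0‖) ^ 2) ^ 2
        ≤ W * ((a / t) ^ 2 * ∑ k ∈ S, ‖c k‖ ^ 2) ^ 2 := by gcongr
      _ = W * a ^ 4 / t ^ 4 * (∑ k ∈ S, ‖c k‖ ^ 2) ^ 2 := by ring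
      _ ≤ W * a ^ 4 / t ^ 4 * N4 S c := by gcongr
      _ = w * N4 S c / t ^ 4 := by rw [ha4]; field_simp
  · obtain ⟨b, hb, rfl⟩ := Finset.mem_image.1 hk
    simpa using E_dvd _ _ _ _ hb
  · have h1 : ∀ x, P (4 * r) D s (fun k => if k + u ∈ A.image (· + u) then
        a * p k * p (k + u - u) else 0) x = a * P (4 * r) D s (fun _ => 1) x := by
      intro x; unfold P; rw [Finset.mul_sum]
      refine Finset.sum_congr rfl fun k hk => ?_
      dsimp only
      rw [if_pos (Finset.mem_image_of_mem (· + u) hk), add_sub_cancel_right, mul_assoc (a:ℂ), hpp]; ring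
    simp only [hT, h1, norm_mul, norm_e, one_mul, mul_pow, Complex.norm_real,
      Real.norm_of_nonneg ha0.le]
    rw [intervalIntegral.integral_const_mul, six r hr D s hs, ha4]
    have h2 : ∀ x, ‖∑ k ∈ A.image (· + u), p (k - u) * e k x‖ = ‖P (4 * r) D s p x‖ := by
      intro x
      rw [Finset.sum_image (fun a _ b _ h => by simpa using h), ← one_mul ‖P _ _ _ _ _‖,
        ← norm_e u x, ← norm_mul]
      unfold P
      rw [Finset.mul_sum]
      congr 1
      refine Finset.sum_congr rfl fun k _ => ?_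
      rw [add_sub_cancel_right, e_add]; ring
    have hP := P_cont (4 * r) D s p
    have h3 : N4 (A.image (· + u)) (fun k => p (k - u)) ≤ 4 * 4 ^ D := by
      unfold N4
      simp only [h2]
      have := intervalIntegral.integral_mono_on (μ := volume) (a := 0) (b := 1)
        (f := fun x => ‖P (4 * r) D s p x‖ ^ 4) (g := fun _ => (4 * 4 ^ D : ℝ)) zero_le_one
        (Continuous.intervalIntegrable (by fun_prop) _ _) (continuous_const.intervalIntegrable _ _)
        (fun x _ => by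
          have b1 : ‖P (4 * r) D s p x‖ ^ 2 ≤ 2 * 2 ^ D := by
            linarith [hrs x, sq_nonneg ‖P (4 * r) D s p' x‖]
          calc ‖P (4 * r) D s p x‖ ^ 4 = (‖P (4 * r) D s p x‖ ^ 2) ^ 2 := by ring
            _ ≤ (2 * 2 ^ D) ^ 2 := by gcongr
            _ = 4 * 4 ^ D := by rw [mul_pow, ← pow_mul, mul_comm D, pow_mul]; norm_num)
      simpa using this
    have h0 : 0 ≤ N4 (A.image (· + u)) (fun k => p (k - u)) := le_trans (sq_nonneg _) (energy _ _)
    refine ⟨h0, fun L' hL => ?_⟩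
    have h6 : (6:ℝ) ^ D = 4 ^ D * (3 / 2) ^ D := by rw [← mul_pow]; norm_num
    have h7 : w / W * 6 ^ D = w * n / 18 * 4 ^ D := by rw [h6, hW]; field_simp
    rw [div_lt_iff₀ hw] at hn
    have h8 : (0:ℝ) < 4 ^ D := by positivity
    calc L' * N4 (A.image (· + u)) (fun k => p (k - u))
        ≤ |L| * (4 * 4 ^ D) := mul_le_mul (hL.trans (le_abs_self _)) h3 h0 (abs_nonneg _)
      _ < w / W * 6 ^ D := by rw [h7]; nlinarith

lemma uniq {j k : ℕ} {n : ℤ} (h1 : 2 ^ (j + 1) ∣ n - 2 ^ j) (h2 : 2 ^ (k + 1) ∣ n - 2 ^ k) : j = k := by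
  wlog h : j < k generalizing j k
  · rcases (not_lt.1 h).eq_or_lt with h' | h'
    · exact h'.symm
    · exact (this h2 h1 h').symm
  exfalso
  have a1 : (2:ℤ) ^ (j + 1) ∣ 2 ^ k := pow_dvd_pow _ h
  have a2 : (2:ℤ) ^ (j + 1) ∣ n - 2 ^ k := (pow_dvd_pow _ (by omega)).trans h2
  have a3 : (2:ℤ) ^ (j + 1) ∣ 2 ^ j := by
    have := dvd_sub (dvd_add a2 a1) h1
    simpa using this
  have := (pow_dvd_pow_iff (by norm_num) (by rw [Int.isUnit_iff]; norm_num)).1 a3
  omega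

theorem final : ∃ m : ℤ → ℂ, Weak m 1 ∧ ∀ C : ℝ, ∃ (S : Finset ℤ) (c : ℤ → ℂ),
    C * N4 S c < ∫ x in (0:ℝ)..1, ‖T m S c x‖ ^ 4 := by
  classical
  choose M hM hW S c hS h0 hL using fun k : ℕ =>
    block (2 ^ k) (2 ^ (k + 1)) (by positivity) ((1 / 32) ^ (k + 1)) (by positivity) k
  set v : ℤ → ℕ := fun n => if h : ∃ k : ℕ, 2 ^ (k + 1) ∣ n - 2 ^ k then h.choose else 0 with hv
  have hv' : ∀ (n : ℤ) (k : ℕ), 2 ^ (k + 1) ∣ n - 2 ^ k → v n = k := by
    intro n k h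
    have h' : ∃ k : ℕ, 2 ^ (k + 1) ∣ n - 2 ^ k := ⟨k, h⟩
    simp only [hv, dif_pos h']
    exact uniq h'.choose_spec h
  refine ⟨fun n => M (v n) n, fun A d t ht => ?_, fun C => ?_⟩
  · set K := A.sup v + 1 with hK
    have h1 : ∀ x, T (fun n => M (v n) n) A d x = ∑ k ∈ Finset.range K, T (M k) A d x := by
      intro x
      unfold T
      rw [Finset.sum_comm]
      refine Finset.sum_congr rfl fun n hn => ?_
      rw [Finset.sum_eq_single (v n)]
      · intro k _ hk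
        by_cases h : M k n = 0
        · simp [h]
        · exact absurd (hv' n k (hM k n h)).symm hk
      · intro h
        exact absurd (Finset.mem_range.2 (Nat.lt_succ_of_le (Finset.le_sup hn))) h
    have hg : ∑ k ∈ Finset.range K, ((1:ℝ) / 2) ^ (k + 1) ≤ 1 := by
      have := sum_geometric_two_le K
      simp only [pow_succ]
      rw [← Finset.sum_mul]; linarith
    have h2 : {x : ℝ | x ∈ Set.Icc (0:ℝ) 1 ∧ t < ‖T (fun n => M (v n) n) A d x‖} ⊆
        ⋃ k ∈ Finset.range K, {x : ℝ | x ∈ Set.Icc (0:ℝ) 1 ∧ t * (1 / 2) ^ (k + 1) < ‖T (M k) A d x‖} := by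
      intro x hx
      by_contra hcon
      simp only [Set.mem_iUnion, Set.mem_ofPred_eq, not_exists, not_and, not_lt] at hcon
      have h3 := Finset.sum_le_sum fun k hk => hcon k hk hx.1
      have h4 := hx.2
      rw [h1] at h4
      rw [← Finset.mul_sum] at h3
      have h5 := norm_sum_le (Finset.range K) fun k => T (M k) A d x
      nlinarith
    have hN : 0 ≤ N4 A d := le_trans (sq_nonneg _) (energy _ _)
    refine (measure_mono h2).trans ((measure_biUnion_finset_le _ _).trans ?_)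
    refine (Finset.sum_le_sum fun k _ => hW k A d _ (by positivity)).trans ?_
    rw [← ENNReal.ofReal_sum_of_nonneg (fun k _ => by positivity)]
    refine ENNReal.ofReal_le_ofReal ?_
    have h6 : ∀ k ∈ Finset.range K, (1 / 32) ^ (k + 1) * N4 A d / (t * (1 / 2) ^ (k + 1)) ^ 4 =
        (1 / 2) ^ (k + 1) * (N4 A d / t ^ 4) := by
      intro k _
      have : ((1:ℝ) / 32) ^ (k + 1) = (1 / 2) ^ (k + 1) * ((1 / 2) ^ (k + 1)) ^ 4 := by
        rw [← pow_mul, mul_comm (k + 1), pow_mul, ← mul_pow]; norm_num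
      rw [this]; field_simp
    rw [Finset.sum_congr rfl h6, ← Finset.sum_mul, mul_div_assoc]
    gcongr
  · obtain ⟨k, hk⟩ := exists_nat_ge C
    refine ⟨S k, c k, (hL k C hk).trans_le (le_of_eq ?_)⟩
    congr 1
    funext x
    unfold T
    congr 2
    refine Finset.sum_congr rfl fun n hn => ?_
    dsimp only
    rw [hv' n k (hS k n hn)]

end Pool.Agent.H28Wk
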