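import Mathlib

set_option autoImplicit false

namespace Pool.Agent.H28Wmp

open Filter Topology Set Metric

lemma moors {V : Type*} [NormedAddCommGroup V] [NormedSpace ℝ V] {A : ℕ → Set V} (hA : Antitone A)
    (hc : ∀ n, Convex ℝ (A n)) (hn : ∀ n, (A n).Nonempty) {β : ℕ → ℝ} (hβ : ∀ n, 0 < β n)
    {r r' : ℝ} (h : r < r') (h0 : ∀ a ∈ A 0, r' ≤ ‖a‖) : ∃ a : ℕ → V, (∀ n, a n ∈ A n) ∧
      ∀ n, ‖∑ i ∈ Finset.range n, β i • a i‖ + β n * r ≤ ‖∑ i ∈ Finset.range (n + 1), β i • a i‖ := by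
  have step : ∀ n (s : V), (∃ δ > 0, ∀ a ∈ A n, ‖s‖ + β n * r + δ ≤ ‖s + β n • a‖) → ∃ b ∈ A n,
      ∃ δ > 0, ∀ a ∈ A (n + 1), ‖s + β n • b‖ + β (n + 1) * r + δ ≤ ‖s + β n • b + β (n + 1) • a‖ := by
    rintro n s ⟨δ, d0, hd⟩
    have b0 := hβ n
    have b1 := hβ (n + 1)
    set η := β (n + 1) * δ / (2 * β n)
    have e0 : 0 < η := by positivity
    have bb : BddBelow ((fun a => ‖s + β n • a‖) '' A n) :=
      ⟨0, by rintro _ ⟨a, -, rfl⟩; exact norm_nonneg _⟩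
    obtain ⟨_, ⟨b, hb, rfl⟩, h1⟩ := Real.lt_sInf_add_pos ((hn n).image fun a => ‖s + β n • a‖) e0
    refine ⟨b, hb, η, e0, fun a ha => ?_⟩
    have hm := hc n hb (hA n.le_succ ha) (a := β n / (β n + β (n + 1)))
      (b := β (n + 1) / (β n + β (n + 1))) (by positivity) (by positivity) (by field_simp)
    have h2 := hd _ hm
    have h3 := csInf_le bb ⟨_, hm, rfl⟩
    generalize hc : (β n / (β n + β (n + 1))) • b + (β (n + 1) / (β n + β (n + 1))) • a = c at h2 h3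
    have h4 : (β n + β (n + 1)) • (s + β n • c)
        = β n • (s + β n • b + β (n + 1) • a) + β (n + 1) • s := by
      rw [← hc]; match_scalars <;> field_simp
    have h5 := norm_add_le (β n • (s + β n • b + β (n + 1) • a)) (β (n + 1) • s)
    rw [← h4] at h5
    simp only [norm_smul, Real.norm_of_nonneg b0.le, Real.norm_of_nonneg b1.le,
      Real.norm_of_nonneg (add_pos b0 b1).le] at h5 h3 h1
    have h6 : β n * η = β (n + 1) * δ / 2 := by simp only [η]; field_simp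
    refine le_of_mul_le_mul_left ?_ b0
    nlinarith [mul_le_mul_of_nonneg_left h2 b1.le, mul_le_mul_of_nonneg_left (h1.le.trans
      (add_le_add h3 le_rfl)) b0.le]
  choose! F hF using step
  let s : ℕ → V := fun n => Nat.rec 0 (fun n s => s + β n • F n s) n
  have inv : ∀ n, ∃ δ > 0, ∀ a ∈ A n, ‖s n‖ + β n * r + δ ≤ ‖s n + β n • a‖ := fun n => by
    induction n with
    | zero =>
      refine ⟨β 0 * (r' - r), mul_pos (hβ 0) (sub_pos.2 h), fun a ha => ?_⟩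
      have := mul_le_mul_of_nonneg_left (h0 a ha) (hβ 0).le
      simp only [s, Nat.rec_zero, norm_zero, zero_add, norm_smul, Real.norm_of_nonneg (hβ 0).le]
      linarith
    | succ n ih => exact (hF n _ ih).2
  have e : ∀ n, ∑ i ∈ Finset.range n, β i • F i (s i) = s n := fun n => by
    induction n with
    | zero => rfl
    | succ n ih => rw [Finset.sum_range_succ, ih]
  refine ⟨fun n => F n (s n), fun n => (hF n _ (inv n)).1, fun n => ?_⟩
  obtain ⟨δ, d0, hd⟩ := inv n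
  rw [e, e]
  linarith [hd _ (hF n _ (inv n)).1]

variable {𝕜 E : Type*} [RCLike 𝕜] [NormedAddCommGroup E] [NormedSpace 𝕜 E]

def ρ (f : StrongDual 𝕜 E) (x : E) : ℝ := RCLike.re (f x)

lemma ρ_add (f g : StrongDual 𝕜 E) (x : E) : ρ (f + g) x = ρ f x + ρ g x := by simp [ρ]
lemma ρ_sub (f g : StrongDual 𝕜 E) (x : E) : ρ (f - g) x = ρ f x - ρ g x := by simp [ρ]
lemma ρ_smul (t : ℝ) (f : StrongDual 𝕜 E) (x : E) : ρ (t • f) x = t * ρ f x := by
  simp [ρ, RCLike.smul_re]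
lemma ρ_neg (f : StrongDual 𝕜 E) (x : E) : ρ f (-x) = -ρ f x := by simp [ρ]

lemma ρ_abs (f : StrongDual 𝕜 E) {x : E} (h : ‖x‖ ≤ 1) : |ρ f x| ≤ ‖f‖ :=
  (RCLike.abs_re_le_norm _).trans (f.unit_le_opNorm x h)

lemma ρ_le (f : StrongDual 𝕜 E) {x : E} (h : ‖x‖ ≤ 1) : ρ f x ≤ ‖f‖ := (abs_le.1 (ρ_abs f h)).2

lemma rot (f : StrongDual 𝕜 E) (x : E) : ∃ y, ‖y‖ = ‖x‖ ∧ f y = ‖f x‖ := by
  obtain ⟨c, c1, c2⟩ := RCLike.exists_norm_eq_mul_self (f x)
  exact ⟨c • x, by rw [norm_smul, c1, one_mul], by rw [map_smul, c2, smul_eq_mul]⟩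

lemma norm_le {f : StrongDual 𝕜 E} {C : ℝ} (h : ∀ x, ‖x‖ ≤ 1 → ρ f x ≤ C) : ‖f‖ ≤ C :=
  f.opNorm_le_of_unit_norm (by simpa [ρ] using h 0 (by simp)) fun x hx => by
    obtain ⟨y, y1, y2⟩ := rot f x
    simpa [ρ, y2] using h y (y1.trans hx).le

def Cl (g : ℕ → StrongDual 𝕜 E) (w : StrongDual 𝕜 E) : Prop :=
  ∀ x c, (∀ᶠ n in atTop, c ≤ ρ (g n) x) → c ≤ ρ w x

lemma ex_Cl {g : ℕ → StrongDual 𝕜 E} {R : ℝ} (h : ∀ n, ‖g n‖ ≤ R) : ∃ w, ‖w‖ ≤ R ∧ Cl g w := by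
  obtain ⟨w, w1, w2⟩ := (WeakDual.isCompact_closedBall (0 : StrongDual 𝕜 E) R).exists_mapClusterPt
    (f := atTop) (u := fun n => StrongDual.toWeakDual (g n))
    (by simpa [eventually_map] using (Eventually.of_forall h : ∀ᶠ n in atTop, _))
  refine ⟨WeakDual.toStrongDual w, by simpa using w1, fun x c hc => ?_⟩
  exact (isClosed_le continuous_const (RCLike.continuous_re.comp
    (WeakDual.eval_continuous x))).mem_of_mapClusterPt w2 hc

def Pr (g : ℕ → StrongDual 𝕜 E) (h : StrongDual 𝕜 E) : Prop :=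
  ∀ x, ‖x‖ ≤ 1 → ∀ t, (∃ᶠ n in atTop, t ≤ ρ (h - g n) x) → ∀ ε > 0,
    ∃ y, ‖y‖ ≤ 1 ∧ ∀ᶠ n in atTop, t - ε ≤ ρ (h - g n) y

lemma pryce {g : ℕ → StrongDual 𝕜 E} {R : ℝ} (hg : ∀ n, ‖g n‖ ≤ R) (u : ℕ → StrongDual 𝕜 E) :
    ∃ φ : ℕ → ℕ, StrictMono φ ∧ ∀ h ∈ closure (range u), Pr (g ∘ φ) h := by
  have step : ∀ (k : ℕ) (M : Set ℕ), (∃ᶠ n in atTop, n ∈ M) → ∃ M' : Set ℕ,
      (∃ᶠ n in atTop, n ∈ M') ∧ M' ⊆ M ∧ ∃ y c, ‖y‖ ≤ 1 ∧
        (∀ n ∈ M', c ≤ ρ (u k.unpair.1 - g n) y) ∧ ∀ x, ‖x‖ ≤ 1 → ∀ᶠ n in atTop, n ∈ M →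
          ρ (u k.unpair.1 - g n) x < c + 1 / (k.unpair.2 + 1 : ℝ) := fun k M hM => by
    set S := {t | ∃ y, ‖y‖ ≤ 1 ∧ ∃ᶠ n in atTop, n ∈ M ∧ t ≤ ρ (u k.unpair.1 - g n) y}
    have bb : BddAbove S := ⟨‖u k.unpair.1‖ + R, fun t ⟨y, y1, y2⟩ => by
      obtain ⟨n, -, hn⟩ := y2.exists
      exact hn.trans ((ρ_le _ y1).trans ((norm_sub_le _ _).trans (by linarith [hg n])))⟩
    obtain ⟨c, ⟨y, y1, y2⟩, hc⟩ := Real.add_neg_lt_sSup (s := S) ⟨0, 0, by simp, by
      simpa [ρ] using hM⟩ (neg_lt_zero.2 (Nat.one_div_pos_of_nat (n := k.unpair.2)))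
    refine ⟨_, y2, fun n h => h.1, y, c, y1, fun n h => h.2, fun x hx => ?_⟩
    by_contra h
    have := le_csSup bb (a := c + 1 / (k.unpair.2 + 1 : ℝ)) ⟨x, hx, by
      simpa only [not_eventually, Classical.not_imp, not_lt] using h⟩
    linarith
  choose! F hF using step
  let M : ℕ → Set ℕ := fun n => Nat.rec univ F n
  have inv : ∀ k, ∃ᶠ n in atTop, n ∈ M k := fun k => by
    induction k with
    | zero => exact .of_forall fun _ => trivial
    | succ k ih => exact (hF k _ ih).1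
  have an : Antitone M := antitone_nat_of_succ_le fun k => (hF k _ (inv k)).2.1
  obtain ⟨φ, h1, h2⟩ := extraction_forall_of_frequently inv
  refine ⟨φ, h1, fun h hh x hx t ht ε e0 => ?_⟩
  obtain ⟨_, ⟨i, rfl⟩, hi⟩ := Metric.mem_closure_iff.1 hh (ε / 3) (by positivity)
  obtain ⟨j, hj⟩ := exists_nat_one_div_lt (K := ℝ) (show 0 < ε / 3 by positivity)
  obtain ⟨y, c, y1, y2, y3⟩ := (hF (i.pair j) _ (inv _)).2.2
  simp only [Nat.unpair_pair] at y2 y3
  have e : ∀ n z, ρ (h - g n) z = ρ (h - u i) z + ρ (u i - g n) z := fun n z => by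
    rw [← ρ_add, sub_add_sub_cancel]
  rw [dist_eq_norm] at hi
  obtain ⟨m, m1, m2, m3⟩ := (ht.and_eventually ((h1.tendsto_atTop.eventually (y3 x hx)).and
    (eventually_ge_atTop (i.pair j)))).exists
  refine ⟨y, y1, (eventually_ge_atTop (i.pair j + 1)).mono fun n hn => ?_⟩
  have a1 := y2 _ (an hn (h2 n))
  have a2 := m2 (an m3 (h2 m))
  simp only [Function.comp, e] at m1 ⊢
  linarith [ρ_le (h - u i) hx, (abs_le.1 (ρ_abs (h - u i) y1)).1]

lemma Pr.norm {g : ℕ → StrongDual 𝕜 E} {h w w' : StrongDual 𝕜 E} (p : Pr g h) (hw : Cl g w)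
    (hw' : Cl g w') : ‖h - w‖ ≤ ‖h - w'‖ := norm_le fun x hx => le_of_forall_pos_le_add fun ε e0 => by
  obtain ⟨y, y1, y2⟩ := p x hx (ρ (h - w) x - ε / 2) (by
    by_contra a
    have := hw x (ρ w x + ε / 2) ((not_frequently.1 a).mono fun n hn => by
      simp only [ρ_sub, not_le] at hn; linarith)
    linarith) (ε / 2) (half_pos e0)
  have := hw' (-y) (ρ (h - w) x - ε - ρ h y) (y2.mono fun n hn => by
    simp only [ρ_sub, ρ_neg] at hn ⊢; linarith)
  have h2 := ρ_le (h - w') y1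
  simp only [ρ_sub, ρ_neg] at *
  linarith

lemma Cl.block {g b : ℕ → StrongDual 𝕜 E} {w : StrongDual 𝕜 E} (hw : Cl b w)
    (hb : ∀ n, b n ∈ convexHull ℝ (g '' Ici n)) : Cl g w := fun x c hc => by
  obtain ⟨N, hN⟩ := eventually_atTop.1 hc
  refine hw x c ((eventually_ge_atTop N).mono fun n hn => convexHull_min (t := {f | c ≤ ρ f x})
    (by rintro _ ⟨k, hk, rfl⟩; exact hN k (hn.trans hk)) ?_ (hb n))
  exact convex_halfSpace_ge (f := fun f => ρ f x) ⟨fun f g => ρ_add f g x, fun t f => ρ_smul t f x⟩ c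

lemma james (hA : ∀ f : StrongDual 𝕜 E, ∃ x, ‖x‖ ≤ 1 ∧ ρ f x = ‖f‖) {g : ℕ → StrongDual 𝕜 E}
    {R : ℝ} (R0 : 0 < R) (hg : ∀ n, ‖g n‖ ≤ R)
    (hP : ∀ h ∈ Submodule.span ℝ (range g), Pr g h) {w : StrongDual 𝕜 E} (hw : Cl g w) :
    w ∈ closure (Submodule.span ℝ (range g) : Set (StrongDual 𝕜 E)) := by
  have sub : ∀ n, convexHull ℝ (g '' Ici n) ⊆ Submodule.span ℝ (range g) := fun n =>
    convexHull_min ((image_subset_range _ _).trans Submodule.subset_span) (Submodule.convex _)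
  by_contra hn
  simp only [Metric.mem_closure_iff, not_forall, not_exists, not_and, not_lt] at hn
  obtain ⟨r', r0, hr⟩ := hn
  set r := r' / 2
  have r1 : 0 < r := half_pos r0
  set q := r / (r + 4 * R)
  have q0 : 0 < q := by positivity
  have q1 : q < 1 := (div_lt_one (by positivity)).2 (by linarith)
  obtain ⟨v, v1, v2⟩ := moors (A := fun n => (fun a => a + w) ⁻¹' convexHull ℝ (g '' Ici n))
    (fun a b h => preimage_mono (convexHull_mono (image_mono (Ici_subset_Ici.2 h))))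
    (fun n => (convex_convexHull ℝ _).translate_preimage_left w)
    (fun n => ⟨g n - w, subset_convexHull ℝ _ ⟨n, self_mem_Ici, by simp⟩⟩)
    (β := fun n => q ^ n) (fun n => pow_pos q0 n) (show r < r' from half_lt_self r0) fun a ha => by
      simpa using hr _ (sub 0 ha)
  have bR : ∀ n, ‖v n + w‖ ≤ R := fun n => mem_closedBall_zero_iff.1 (convexHull_min
    (by rintro _ ⟨k, -, rfl⟩; simpa using hg k) (convex_closedBall 0 R) (v1 n))
  obtain ⟨w', w1, w2⟩ := ex_Cl bR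
  have w3 := w2.block v1
  have key : ∀ h ∈ Submodule.span ℝ (range g), ∀ t : ℝ, 0 ≤ t → ‖h - t • w‖ = ‖h - t • w'‖ :=
    fun h hh t ht => by
      rcases ht.eq_or_lt with rfl | t0
      · rw [zero_smul ℝ w, zero_smul ℝ w']
      have p := hP _ (Submodule.smul_mem _ t⁻¹ hh)
      have e : ∀ z, h - t • z = t • (t⁻¹ • h - z) := fun z => by
        rw [smul_sub, smul_inv_smul₀ t0.ne']
      rw [e, e, norm_smul, norm_smul, (p.norm hw w3).antisymm (p.norm w3 hw)]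
  set S : ℕ → StrongDual 𝕜 E := fun n => ∑ i ∈ Finset.range n, q ^ i • (v i + w - w')
  have e : ∀ n, ‖∑ i ∈ Finset.range n, q ^ i • v i‖ = ‖S n‖ := fun n => by
    have := key (∑ i ∈ Finset.range n, q ^ i • (v i + w)) (Submodule.sum_mem _ fun i _ =>
      Submodule.smul_mem _ _ (sub i (v1 i))) (∑ i ∈ Finset.range n, q ^ i) (by positivity)
    rw [Finset.sum_smul (x := w), Finset.sum_smul (x := w'), ← Finset.sum_sub_distrib,
      ← Finset.sum_sub_distrib] at this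
    have e2 : ∀ i z, q ^ i • (v i + w) - q ^ i • z = q ^ i • (v i + w - z) := fun i z =>
      (smul_sub _ _ z).symm
    simpa only [S, e2, add_sub_cancel_right] using this
  simp only [e] at v2
  have d : ∀ n, dist (S n) (S (n + 1)) ≤ 2 * R * q ^ n := fun n => by
    simp only [S, Finset.sum_range_succ, dist_self_add_right, norm_smul,
      Real.norm_of_nonneg (pow_pos q0 n).le, mul_comm _ (q ^ n)]
    gcongr
    linarith [norm_sub_le (v n + w) w', bR n]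
  obtain ⟨s, hs⟩ := cauchySeq_tendsto_of_complete (cauchySeq_of_le_geometric q _ q1 d)
  obtain ⟨x, x1, x2⟩ := hA s
  have mo : Monotone fun n => ‖S n‖ := monotone_nat_of_le_succ fun n => by
    linarith [v2 n, mul_pos (pow_pos q0 n) r1]
  have := w2 x (ρ w' x + r / 2) (.of_forall fun n => by
    have a1 := dist_le_of_le_geometric_of_tendsto q _ q1 d hs (n + 1)
    have a2 : 2 * R * q ^ (n + 1) / (1 - q) = q ^ n * (r / 2) := by
      have : 1 - q = 4 * R / (r + 4 * R) := by simp only [q]; field_simp; ring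
      rw [this, pow_succ]; simp only [q]; field_simp; ring
    have a3 := ρ_le (s - S (n + 1)) x1
    have a4 : ρ (S (n + 1)) x = ρ (S n) x + q ^ n * (ρ (v n + w) x - ρ w' x) := by
      simp only [S, Finset.sum_range_succ, ρ_add, ρ_smul, ρ_sub]
    rw [dist_comm, dist_eq_norm, a2] at a1
    rw [ρ_sub] at a3
    refine le_of_mul_le_mul_left ?_ (pow_pos q0 n)
    beta_reduce
    linarith [mo.ge_of_tendsto hs.norm (n + 1), v2 n, ρ_le (S n) x1])
  linarith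

lemma subseq (hA : ∀ f : StrongDual 𝕜 E, ∃ x, ‖x‖ ≤ 1 ∧ ρ f x = ‖f‖) {g : ℕ → StrongDual 𝕜 E}
    {R : ℝ} (R0 : 0 < R) (hg : ∀ n, ‖g n‖ ≤ R) : ∃ (φ : ℕ → ℕ) (w : StrongDual 𝕜 E), StrictMono φ ∧
      ∀ x, Tendsto (fun n => g (φ n) x) atTop (𝓝 (w x)) := by
  obtain ⟨c, c1, c2⟩ := (countable_range g).isSeparable.span (R := ℝ)
  obtain ⟨u, hu⟩ := (c1.insert 0).exists_eq_range (insert_nonempty _ _)
  obtain ⟨φ, h1, h2⟩ := pryce hg u
  have h3 : (Submodule.span ℝ (range (g ∘ φ)) : Set (StrongDual 𝕜 E)) ⊆ closure (range u) :=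
    (SetLike.coe_subset_coe.2 (Submodule.span_mono (range_comp_subset_range φ g))).trans
      (c2.trans (closure_mono (hu ▸ subset_insert _ _)))
  obtain ⟨w, -, hw⟩ := ex_Cl (g := g ∘ φ) fun n => hg _
  have p := h2 w (closure_minimal h3 isClosed_closure
    (james hA R0 (fun n => hg _) (fun h hh => h2 h (h3 hh)) hw))
  have h4 : ∀ x, ‖x‖ ≤ 1 → ∀ t > 0, ∀ᶠ n in atTop, ρ (w - g (φ n)) x < t := fun x hx t ht => by
    by_contra a
    obtain ⟨y, -, y2⟩ := p x hx t (by simpa only [not_eventually, not_lt, Function.comp] using a) _ (half_pos ht)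
    have := hw (-y) (t / 2 - ρ w y) (y2.mono fun n hn => by
      simp only [ρ_sub, ρ_neg] at hn ⊢; linarith)
    rw [ρ_neg] at this
    linarith
  have h5 : ∀ x, ‖x‖ ≤ 1 → Tendsto (fun n => ρ (w - g (φ n)) x) atTop (𝓝 0) := fun x hx =>
    tendsto_order.2 ⟨fun t ht => (h4 (-x) (by simpa using hx) (-t) (neg_pos.2 ht)).mono
      fun n hn => by rw [ρ_neg] at hn; linarith, h4 x hx⟩
  have h6 : ∀ x, Tendsto (fun n => ρ (w - g (φ n)) x) atTop (𝓝 0) := fun x => by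
    have p0 : 0 < ‖x‖ + 1 := by positivity
    have := (h5 ((((‖x‖ + 1)⁻¹ : ℝ) : 𝕜) • x) (by
      rw [norm_smul, RCLike.norm_ofReal, abs_of_pos (inv_pos.2 p0), inv_mul_le_iff₀ p0]
      linarith)).const_mul (‖x‖ + 1)
    simpa only [ρ, map_smul, smul_eq_mul, RCLike.re_ofReal_mul, mul_inv_cancel_left₀ p0.ne',
      mul_zero] using this
  refine ⟨φ, w, h1, fun x => ?_⟩
  have a := ((RCLike.continuous_ofReal (K := 𝕜)).tendsto _).comp (h6 x)
  have b := (((RCLike.continuous_ofReal (K := 𝕜)).tendsto _).comp (h6 ((RCLike.I : 𝕜) • x))).mul_const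
    (RCLike.I : 𝕜)
  have := (a.sub b).const_sub (w x)
  simp only [RCLike.ofReal_zero, zero_mul, sub_zero] at this
  refine this.congr fun n => ?_
  simp only [Function.comp, ρ, map_smul, smul_eq_mul, RCLike.I_mul_re, RCLike.ofReal_neg, neg_mul,
    sub_neg_eq_add, RCLike.re_add_im, sub_apply, sub_sub_cancel]

end Pool.Agent.H28Wmp
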