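import Mathlib

/-! Zeros of a Zak transform destroy the lower frame bound. -/

open MeasureTheory Set Filter Topology

namespace H28Zak

noncomputable def b (N : ℕ) (k : ℤ) : ℝ := if 0 ≤ k ∧ k < N then 1 else 0

lemma d_le_one (N : ℕ) (k l : ℤ) : |b N (k + l) - b N k| ≤ 1 := by
  unfold b; split_ifs <;> simp

lemma sum_ind (K : Finset ℤ) (u v : ℤ) (h : u ≤ v) :
    ∑ k ∈ K, (if u ≤ k ∧ k < v then (1:ℝ) else 0) ≤ v - u := by
  rw [Finset.sum_boole]
  have h1 : (K.filter fun k => u ≤ k ∧ k < v).card ≤ (Finset.Ico u v).card :=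
    Finset.card_le_card fun k hk => by
      simpa using (Finset.mem_filter.1 hk).2
  have h2 : (((Finset.Ico u v).card : ℤ) : ℝ) = ((v - u : ℤ) : ℝ) := by
    rw [Int.card_Ico_of_le _ _ h]
  push_cast at h2
  rw [← h2]; exact_mod_cast h1

lemma d_sum (N : ℕ) (K : Finset ℤ) (l : ℤ) :
    ∑ k ∈ K, |b N (k + l) - b N k| ≤ 4 * |(l:ℝ)| := by
  have h : ∀ k, |b N (k + l) - b N k| ≤ (if -|l| ≤ k ∧ k < |l| then (1:ℝ) else 0) +
      (if N - |l| ≤ k ∧ k < N + |l| then (1:ℝ) else 0) := fun k => by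
    have := le_abs_self l
    have := neg_abs_le l
    unfold b
    split_ifs <;> first | omega | norm_num
  refine (Finset.sum_le_sum fun k _ => h k).trans ?_
  rw [Finset.sum_add_distrib]
  have h1 := sum_ind K (-|l|) |l| (by linarith [abs_nonneg l])
  have h2 := sum_ind K (N - |l|) (N + |l|) (by linarith [abs_nonneg l])
  push_cast at h1 h2
  linarith

lemma seq {c : ℤ → ℂ} {M : ℤ → ℝ} (hc : ∀ l, ‖c l‖ ≤ M l) (hM : Summable M)
    (hM1 : Summable fun l : ℤ => M l * |(l:ℝ)|) {η : ℝ} (hη : ‖∑' l, c l‖ ≤ η) (N : ℕ)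
    (K : Finset ℤ) :
    ∑ k ∈ K, ‖∑' l, c l * b N (k + l)‖ ^ 2 ≤
      2 * η ^ 2 * N + 8 * (∑' l, M l) * ∑' l : ℤ, M l * |(l:ℝ)| := by
  have hM0 : ∀ l, 0 ≤ M l := fun l => (norm_nonneg _).trans (hc l)
  have hcs : Summable c := Summable.of_norm_bounded hM hc
  have hd : ∀ k, Summable fun l => M l * |b N (k + l) - b N k| := fun k =>
    Summable.of_nonneg_of_le (fun l => mul_nonneg (hM0 l) (abs_nonneg _))
      (fun l => mul_le_of_le_one_right (hM0 l) (d_le_one N k l)) hM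
  have hbd : ∀ k l, ‖c l * ((b N (k + l) - b N k : ℝ) : ℂ)‖ ≤ M l * |b N (k + l) - b N k| :=
    fun k l => by
      rw [norm_mul, Complex.norm_real, Real.norm_eq_abs]
      exact mul_le_mul_of_nonneg_right (hc l) (abs_nonneg _)
  have key : ∀ k, ‖∑' l, c l * b N (k + l)‖ ^ 2 ≤
      2 * η ^ 2 * b N k + 2 * (∑' l, M l) * ∑' l, M l * |b N (k + l) - b N k| := fun k => by
    have e : ∑' l, c l * b N (k + l) =
        (∑' l, c l) * b N k + ∑' l, c l * ((b N (k + l) - b N k : ℝ) : ℂ) := by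
      rw [← tsum_mul_right, ← (hcs.mul_right _).tsum_add (Summable.of_norm_bounded (hd k) (hbd k))]
      congr 1; ext l; push_cast; ring
    have h1 : ‖∑' l, c l * ((b N (k + l) - b N k : ℝ) : ℂ)‖ ≤ ∑' l, M l * |b N (k + l) - b N k| :=
      tsum_of_norm_bounded (hd k).hasSum (hbd k)
    have h2 : ∑' l, M l * |b N (k + l) - b N k| ≤ ∑' l, M l :=
      (hd k).tsum_le_tsum (fun l => mul_le_of_le_one_right (hM0 l) (d_le_one N k l)) hM
    have h3 : ‖(∑' l, c l) * b N k‖ ^ 2 ≤ η ^ 2 * b N k := by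
      unfold b; split_ifs
      · simpa using pow_le_pow_left₀ (norm_nonneg _) hη 2
      · simp
    have h4 := norm_add_le ((∑' l, c l) * b N k) (∑' l, c l * ((b N (k + l) - b N k : ℝ) : ℂ))
    rw [e]
    set x := ‖(∑' l, c l) * b N k‖
    set y := ‖∑' l, c l * ((b N (k + l) - b N k : ℝ) : ℂ)‖
    have h5 := pow_le_pow_left₀ (norm_nonneg _) h4 2
    have h6 : y * y ≤ (∑' l, M l) * ∑' l, M l * |b N (k + l) - b N k| :=
      mul_le_mul (h1.trans h2) h1 (norm_nonneg _) (tsum_nonneg hM0)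
    nlinarith [sq_nonneg (x - y)]
  refine (Finset.sum_le_sum fun k _ => key k).trans ?_
  rw [Finset.sum_add_distrib, ← Finset.mul_sum, ← Finset.mul_sum,
    ← Summable.tsum_finsetSum fun k _ => hd k]
  have h1 : ∑ k ∈ K, b N k ≤ N := by simpa [b] using sum_ind K 0 N (by positivity)
  have h2 : ∑' l, ∑ k ∈ K, M l * |b N (k + l) - b N k| ≤ ∑' l : ℤ, 4 * (M l * |(l:ℝ)|) :=
    (summable_sum fun k _ => hd k).tsum_le_tsum (fun l => by
      rw [← Finset.mul_sum]
      nlinarith [mul_le_mul_of_nonneg_left (d_sum N K l) (hM0 l)]) (hM1.mul_left 4)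
  rw [tsum_mul_left] at h2
  have h3 := mul_le_mul_of_nonneg_left h1 (show 0 ≤ 2 * η ^ 2 by positivity)
  have h4 := mul_le_mul_of_nonneg_left h2 (show 0 ≤ 2 * ∑' l, M l from
    mul_nonneg zero_le_two (tsum_nonneg hM0))
  linarith

noncomputable def ph (x : ℝ) : ℂ := Complex.exp (-2 * Real.pi * Complex.I * x)

lemma ph_add (x y : ℝ) : ph (x + y) = ph x * ph y := by
  simp only [ph, ← Complex.exp_add]; congr 1; push_cast; ring

lemma ph_int (m : ℤ) : ph m = 1 := by
  have := Complex.exp_int_mul_two_pi_mul_I (-m)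
  rw [← this, ph]; congr 1; push_cast; ring

lemma ph_norm (x : ℝ) : ‖ph x‖ = 1 := by
  rw [← Complex.norm_exp_ofReal_mul_I (-2 * Real.pi * x), ph]; congr 2; push_cast; ring

lemma ph_cont : Continuous ph := by unfold ph; fun_prop

noncomputable def zak (h : ℝ → ℝ) (a ω s : ℝ) : ℂ := ∑' l : ℤ, ph (ω * a * l) * h (s + l * a)

noncomputable def tf (a ε : ℝ) (N : ℕ) (t : ℝ) : ℝ :=
  ∑ l ∈ Finset.range N, (Ioc (l * a) (l * a + ε)).indicator (fun _ => (1:ℝ)) t

noncomputable def W (h : ℝ → ℝ) (a ω s : ℝ) (N : ℕ) (k : ℤ) (t : ℝ) : ℂ :=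
  ∑ l ∈ Finset.range N, ph (ω * a * l) * h (s + t + (l - k) * a)

lemma W_cont {h : ℝ → ℝ} (hh : Continuous h) (a ω s : ℝ) (N : ℕ) (k : ℤ) :
    Continuous (W h a ω s N k) := by
  unfold W; fun_prop

lemma W_eq (h : ℝ → ℝ) (a ω s : ℝ) (N : ℕ) (k : ℤ) (t : ℝ) :
    ‖W h a ω s N k t‖ = ‖∑' l : ℤ, ph (ω * a * l) * h (s + t + l * a) * b N (k + l)‖ := by
  have hinj : Function.Injective fun l : ℕ => (l:ℤ) - k := fun x y hxy => by simpa using hxy
  have hn : ∀ z : ℂ, ‖z‖ = ‖ph (ω * a * k) * z‖ := fun z => by rw [norm_mul, ph_norm, one_mul]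
  rw [tsum_eq_sum (s := (Finset.range N).map ⟨_, hinj⟩), Finset.sum_map, W]
  · refine Eq.trans ?_ (hn _).symm
    rw [Finset.mul_sum]
    congr 1
    refine Finset.sum_congr rfl fun l hl => ?_
    have : b N (k + ((l:ℤ) - k)) = 1 := by
      simp [b, Finset.mem_range.1 hl]
    simp only [Function.Embedding.coeFn_mk, this, ← mul_assoc, ← ph_add]
    push_cast
    rw [mul_one]; congr 2; ring
  · intro l hl
    have : b N (k + l) = 0 := by
      unfold b
      rw [if_neg]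
      rintro ⟨h1, h2⟩
      refine hl (Finset.mem_map.2 ⟨(k + l).toNat, Finset.mem_range.2 (by omega), ?_⟩)
      simp only [Function.Embedding.coeFn_mk]; omega
    simp [this]

lemma inner_eq {h : ℝ → ℝ} (hh : Continuous h) {a ε : ℝ} (ha : 0 < a) (hε : 0 ≤ ε) (ω s : ℝ)
    (N : ℕ) (k m : ℤ) :
    ∫ t : ℝ, (tf a ε N t : ℂ) * (ph ((ω + m / a) * t) * h (t - (-s + k * a))) =
      ∫ t in (0:ℝ)..ε, ph (m / a * t) * (ph (ω * t) * W h a ω s N k t) := by
  have := ph_cont
  set F : ℝ → ℂ := fun t => ph ((ω + m / a) * t) * h (t - (-s + k * a)) with hF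
  have hFc : Continuous F := by simp only [hF]; fun_prop
  have e1 : ∀ t, (tf a ε N t : ℂ) * F t =
      ∑ l ∈ Finset.range N, (Ioc (l * a) (l * a + ε)).indicator F t := fun t => by
    rw [tf, Complex.ofReal_sum, Finset.sum_mul]
    refine Finset.sum_congr rfl fun l _ => ?_
    by_cases ht : t ∈ Ioc (l * a) (l * a + ε) <;> simp [ht]
  show ∫ t : ℝ, (tf a ε N t : ℂ) * F t = _
  simp only [e1]
  rw [integral_finsetSum _ fun l _ => (integrable_indicator_iff measurableSet_Ioc).2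
    (hFc.integrableOn_Icc.mono_set Ioc_subset_Icc_self)]
  simp only [W, Finset.mul_sum]
  rw [intervalIntegral.integral_finsetSum fun l _ =>
    Continuous.intervalIntegrable (by fun_prop) _ _]
  refine Finset.sum_congr rfl fun l _ => ?_
  rw [integral_indicator measurableSet_Ioc, ← intervalIntegral.integral_of_le (by linarith)]
  have := intervalIntegral.integral_comp_add_left F (a := 0) (b := ε) (l * a)
  rw [add_zero] at this
  rw [← this]
  refine intervalIntegral.integral_congr fun t _ => ?_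
  simp only [hF]
  have e : (ω + m / a) * (l * a + t) = m / a * t + (ω * t + (ω * a * l + ((m * l : ℤ) : ℝ))) := by
    push_cast; field_simp; ring
  rw [e, ph_add, ph_add, ph_add, ph_int, mul_one,
    show (l:ℝ) * a + t - (-s + k * a) = s + t + (l - k) * a by ring]
  ring

lemma pars {u : ℝ → ℂ} (hu : Continuous u) {a ε : ℝ} (ha : 0 < a) (hε : 0 ≤ ε) (hεa : ε ≤ a) :
    HasSum (fun m : ℤ => ‖∫ t in (0:ℝ)..ε, ph (m / a * t) * u t‖ ^ 2)
      (a * ∫ t in (0:ℝ)..ε, ‖u t‖ ^ 2) := by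
  have hcut : ∀ {E : Type} [NormedAddCommGroup E] [NormedSpace ℝ E] (v : ℝ → E),
      ∫ t in (0:ℝ)..a, (Ioc 0 ε).indicator v t = ∫ t in (0:ℝ)..ε, v t := fun v => by
    rw [intervalIntegral.integral_of_le ha.le, intervalIntegral.integral_of_le hε,
      setIntegral_indicator measurableSet_Ioc, inter_eq_right.2 (Ioc_subset_Ioc_right hεa)]
  obtain ⟨C, hC⟩ := isCompact_Icc.exists_bound_of_continuousOn (hu.continuousOn (s := Icc 0 ε))
  have hL : MemLp ((Ioc 0 ε).indicator u) 2 (volume.restrict (Ioc 0 a)) :=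
    MemLp.of_bound (hu.aestronglyMeasurable.indicator measurableSet_Ioc) (max C 0)
      (Eventually.of_forall fun t => by
        by_cases ht : t ∈ Ioc 0 ε
        · rw [indicator_of_mem ht]; exact (hC t (Ioc_subset_Icc_self ht)).trans (le_max_left _ _)
        · simp [ht])
  have h := (hasSum_sq_fourierCoeffOn ha hL).mul_left (a ^ 2)
  have e1 : ∀ t, ‖(Ioc 0 ε).indicator u t‖ ^ 2 = (Ioc 0 ε).indicator (fun t => ‖u t‖ ^ 2) t :=
    fun t => by by_cases ht : t ∈ Ioc 0 ε <;> simp [ht]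
  simp only [e1, hcut, sub_zero, smul_eq_mul] at h
  have e2 : a ^ 2 * (a⁻¹ * ∫ t in (0:ℝ)..ε, ‖u t‖ ^ 2) = a * ∫ t in (0:ℝ)..ε, ‖u t‖ ^ 2 := by
    field_simp
  rw [e2] at h
  refine (congrArg (fun F => HasSum F _) (funext fun m => ?_)).mpr h
  · rw [fourierCoeffOn_eq_integral, ← hcut, norm_smul, sub_zero, Real.norm_of_nonneg (by positivity),
      mul_pow, ← mul_assoc, ← mul_pow, mul_one_div_cancel ha.ne', one_pow, one_mul]
    congr 2
    refine intervalIntegral.integral_congr fun t _ => ?_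
    by_cases ht : t ∈ Ioc 0 ε
    · simp only [indicator_of_mem ht, fourier_coe_apply, smul_eq_mul, ph]
      congr 2; push_cast; ring
    · simp [ht]

lemma tf_memLp (a ε : ℝ) (N : ℕ) : MemLp (fun t => (tf a ε N t : ℂ)) 2 volume := by
  have : MemLp (tf a ε N) 2 volume := memLp_finsetSum (Finset.range N) fun l _ =>
    memLp_indicator_const 2 measurableSet_Ioc _ (Or.inr (by simp))
  exact this.ofReal

lemma tf_norm (a : ℝ) {ε : ℝ} (hε : 0 ≤ ε) (N : ℕ) : N * ε ≤ ∫ t, ‖(tf a ε N t : ℂ)‖ ^ 2 := by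
  have hi : ∀ l ∈ Finset.range N, Integrable
      ((Ioc ((l:ℝ) * a) (l * a + ε)).indicator fun _ => (1:ℝ)) := fun l _ =>
    (integrable_indicator_iff measurableSet_Ioc).2 (integrableOn_const (by simp))
  have e : ∫ t, tf a ε N t = N * ε := by
    simp only [tf]
    rw [integral_finsetSum _ hi]
    simp [integral_indicator measurableSet_Ioc, hε]
  rw [← e]
  refine integral_mono (integrable_finsetSum _ hi)
    ((memLp_two_iff_integrable_sq_norm (tf_memLp a ε N).1).1 (tf_memLp a ε N)) fun t => ?_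
  obtain ⟨j, hj⟩ : ∃ j : ℕ, tf a ε N t = j := by
    classical
    exact ⟨_, by simp only [tf, indicator_apply]; rw [Finset.sum_boole]⟩
  simp only [hj, Complex.norm_real, Real.norm_natCast]
  exact_mod_cast Nat.le_self_pow two_ne_zero j

end H28Zak
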