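import Mathlib
import Pool.Agent.Lib.helper28.ZakA

/-! The non-frame lemma and the location of zeros of the Zak transform. -/

open MeasureTheory Set Filter Topology

namespace H28Zak

lemma S2 : Summable fun l : ℤ => 1 / (1 + |(l:ℝ)|) ^ 2 := by
  refine Summable.of_nonneg_of_le (fun l => by positivity) (fun l => ?_)
    ((Real.summable_one_div_int_pow.2 one_lt_two).add (hasSum_ite_eq (0:ℤ) (1:ℝ)).summable)
  by_cases h : l = 0
  · simp [h]
  · have : 0 < |(l:ℝ)| := abs_pos.2 (by exact_mod_cast h)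
    rw [if_neg h, add_zero, ← sq_abs (l:ℝ)]
    gcongr; linarith

noncomputable def M (D : ℝ) (l : ℤ) : ℝ := 27 * D / (1 + |(l:ℝ)|) ^ 3

lemma M_sum {D : ℝ} (hD : 0 ≤ D) : Summable (M D) ∧ Summable fun l : ℤ => M D l * |(l:ℝ)| := by
  have key : ∀ l : ℤ, M D l * (1 + |(l:ℝ)|) = 27 * D * (1 / (1 + |(l:ℝ)|) ^ 2) := fun l => by
    have : 0 < 1 + |(l:ℝ)| := by positivity
    unfold M; field_simp
  have h0 : ∀ l, 0 ≤ M D l := fun l => by unfold M; positivity
  constructor <;> refine Summable.of_nonneg_of_le (fun l => by have := h0 l; positivity)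
    (fun l => ?_) (S2.mul_left (27 * D)) <;> rw [← key] <;>
    nlinarith [h0 l, mul_nonneg (h0 l) (abs_nonneg (l:ℝ))]

lemma maj {h : ℝ → ℝ} {D a s : ℝ} (hD : 0 ≤ D) (hd : ∀ s, |h s| ≤ D / (1 + |s|) ^ 3)
    (ha : 1 ≤ a) (hs : |s| ≤ a) (ω : ℝ) (l : ℤ) :
    ‖ph (ω * a * l) * h (s + l * a)‖ ≤ M D l := by
  rw [norm_mul, ph_norm, one_mul, Complex.norm_real, Real.norm_eq_abs]
  refine (hd _).trans ?_
  have h1 : (1 + |(l:ℝ)|) / 3 ≤ 1 + |s + l * a| := by
    have h2 : |(l:ℝ)| * a ≤ |s + l * a| + |s| := by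
      have := abs_sub (s + l * a) s
      rwa [add_sub_cancel_left, abs_mul, abs_of_pos (show 0 < a by linarith)] at this
    rcases le_total |(l:ℝ)| 1 with h | h
    · linarith [abs_nonneg (s + l * a)]
    · nlinarith [abs_nonneg (s + l * a)]
  have e : M D l = D / ((1 + |(l:ℝ)|) / 3) ^ 3 := by
    have : 0 < 1 + |(l:ℝ)| := by positivity
    unfold M; field_simp; ring
  rw [e]
  gcongr

lemma zak_cont {h : ℝ → ℝ} (hh : Continuous h) {D a : ℝ} (hD : 0 ≤ D)
    (hd : ∀ s, |h s| ≤ D / (1 + |s|) ^ 3) (ha : 1 ≤ a) (ω : ℝ) :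
    ContinuousOn (zak h a ω) (Icc (-a) a) :=
  continuousOn_tsum (fun l => Continuous.continuousOn (by fun_prop)) (M_sum hD).1
    fun l s hs => maj hD hd ha (abs_le.2 hs) ω l

lemma nonframe {h : ℝ → ℝ} (hh : Continuous h) {D a : ℝ} (hD : 0 ≤ D)
    (hd : ∀ s, |h s| ≤ D / (1 + |s|) ^ 3) (ha : 1 ≤ a) (Z : Finset (ℝ × ℝ))
    (hZ : ∀ z ∈ Z, |z.1| ≤ a / 2 ∧ zak h a z.2 (-z.1) = 0) {A : ℝ} (hA : 0 < A) :
    ∃ f : ℝ → ℂ, MemLp f 2 volume ∧
      ∑' q : Z × ℤ × ℤ, ENNReal.ofReal (‖∫ t : ℝ, f t *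
        (ph ((q.1.1.2 + q.2.2 / a) * t) * h (t - (q.1.1.1 + q.2.1 * a)))‖ ^ 2)
        < ENNReal.ofReal (A * ∫ t, ‖f t‖ ^ 2) := by
  have ha0 : 0 < a := by linarith
  set C := 8 * (∑' l, M D l) * ∑' l : ℤ, M D l * |(l:ℝ)| with hC
  set J : ℝ := (Z.card : ℝ) with hJ
  have hJ0 : 0 ≤ J := by positivity
  set η := √(A / (4 * (J + 1) * a)) with hη
  have hη0 : 0 < η := Real.sqrt_pos.2 (by positivity)
  have hη2 : 4 * (J + 1) * a * η ^ 2 = A := by
    rw [hη, Real.sq_sqrt (by positivity)]; field_simp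
  have hev : ∀ᶠ ε in 𝓝[>] (0:ℝ), ∀ z ∈ Z, ∀ t ∈ Icc 0 ε, ‖zak h a z.2 (-z.1 + t)‖ ≤ η := by
    refine (eventually_all_finset Z).2 fun z hz => ?_
    have h1 := abs_le.1 (hZ z hz).1
    have hc : ContinuousAt (zak h a z.2) (-z.1) :=
      (zak_cont hh hD hd ha z.2).continuousAt (Icc_mem_nhds (by linarith) (by linarith))
    obtain ⟨δ, hδ, hδ'⟩ := Metric.continuousAt_iff.1 hc η hη0
    filter_upwards [Ioo_mem_nhdsGT hδ] with ε hε t ht
    have := @hδ' (-z.1 + t) (by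
      rw [Real.dist_eq, add_sub_cancel_left, abs_of_nonneg ht.1]; linarith [ht.2, hε.2])
    rw [(hZ z hz).2, dist_zero_right] at this
    exact this.le
  obtain ⟨ε, hε, hε1⟩ := (hev.and (Ioo_mem_nhdsGT (half_pos ha0))).exists
  obtain ⟨N, hN⟩ := exists_nat_gt (2 * J * a * |C| / A)
  rw [div_lt_iff₀ hA] at hN
  refine ⟨fun t => tf a ε N t, tf_memLp a ε N, ?_⟩
  set B := 2 * η ^ 2 * N + C with hB
  have hz : ∀ z ∈ Z, ∑' p : ℤ × ℤ, ENNReal.ofReal (‖∫ t : ℝ, (tf a ε N t : ℂ) *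
        (ph ((z.2 + p.2 / a) * t) * h (t - (z.1 + p.1 * a)))‖ ^ 2) ≤
        ENNReal.ofReal (a * (ε * B)) := fun z hz => by
    have hc : ∀ k, Continuous fun t => ph (z.2 * t) * W h a z.2 (-z.1) N k t := fun k =>
      (ph_cont.comp (by fun_prop)).mul (W_cont hh _ _ _ _ _)
    have hn : ∀ k, 0 ≤ a * ∫ t in (0:ℝ)..ε, ‖ph (z.2 * t) * W h a z.2 (-z.1) N k t‖ ^ 2 :=
      fun k => mul_nonneg ha0.le
        (intervalIntegral.integral_nonneg hε1.1.le fun t _ => by positivity)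
    have e : ∀ k : ℤ, ∑' m : ℤ, ENNReal.ofReal (‖∫ t : ℝ, (tf a ε N t : ℂ) *
        (ph ((z.2 + m / a) * t) * h (t - (z.1 + k * a)))‖ ^ 2) = ENNReal.ofReal
          (a * ∫ t in (0:ℝ)..ε, ‖ph (z.2 * t) * W h a z.2 (-z.1) N k t‖ ^ 2) := fun k => by
      have hp := pars (hc k) ha0 hε1.1.le (by linarith [hε1.2])
      rw [← hp.tsum_eq, ENNReal.ofReal_tsum_of_nonneg (fun m => by positivity) hp.summable]
      refine tsum_congr fun m => ?_
      rw [← inner_eq hh ha0 hε1.1.le, neg_neg]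
    rw [ENNReal.tsum_prod']
    simp only [e]
    refine ENNReal.summable.tsum_le_of_sum_le fun K => ?_
    rw [← ENNReal.ofReal_sum_of_nonneg fun k _ => hn k]
    refine ENNReal.ofReal_le_ofReal ?_
    rw [← Finset.mul_sum, ← intervalIntegral.integral_finsetSum fun k _ =>
      ((hc k).norm.fun_pow 2).intervalIntegrable _ _]
    refine mul_le_mul_of_nonneg_left ?_ ha0.le
    have : ∫ _t in (0:ℝ)..ε, B = ε * B := by simp
    rw [← this]
    refine intervalIntegral.integral_mono_on hε1.1.le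
      ((continuous_finsetSum _ fun k _ => (hc k).norm.fun_pow 2).intervalIntegrable _ _)
      intervalIntegrable_const fun t ht => ?_
    have h1 := abs_le.1 (hZ z hz).1
    simp only [norm_mul, ph_norm, one_mul, W_eq]
    exact seq (c := fun l : ℤ => ph (z.2 * a * l) * h (-z.1 + t + l * a))
      (maj hD hd ha (abs_le.2 ⟨by linarith [ht.1], by linarith [ht.2, hε1.2]⟩) z.2)
      (M_sum hD).1 (M_sum hD).2 (hε z hz t ht) N K
  rw [ENNReal.tsum_prod', tsum_fintype]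
  refine lt_of_le_of_lt (Finset.sum_le_sum fun z _ => hz z.1 z.2) ?_
  have hN0 : (0:ℝ) ≤ N := by positivity
  have hpos : J * (a * (ε * B)) < A * (N * ε) := by
    have h1 : J * a * B < A * N := by
      have h2 : J * a * C ≤ J * a * |C| := mul_le_mul_of_nonneg_left (le_abs_self C) (by positivity)
      have h3 : 0 ≤ a * η ^ 2 * N := by positivity
      rw [hB, ← hη2]
      rw [← hη2] at hN
      nlinarith
    nlinarith [hε1.1]
  have hN1 : 0 < A * (N * ε) := by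
    have : 0 ≤ 2 * J * a * |C| := by positivity
    have : 0 < N * A := by linarith
    nlinarith [hε1.1]
  have h4 := mul_le_mul_of_nonneg_left (tf_norm a hε1.1.le N) hA.le
  rw [Finset.sum_const, Finset.card_univ, Fintype.card_coe, nsmul_eq_mul,
    ← ENNReal.ofReal_natCast, ← ENNReal.ofReal_mul (by positivity),
    ENNReal.ofReal_lt_ofReal_iff (by linarith)]
  linarith

lemma tail {h : ℝ → ℝ} {D a s : ℝ} (hD : 0 ≤ D) (hd : ∀ s, |h s| ≤ D / (1 + |s|) ^ 3)
    (ha : 1 ≤ a) (hs : |s| ≤ a / 2) (ω : ℝ) :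
    ‖zak h a ω s - h s‖ ≤ 8 * D / a * ∑' l : ℤ, 1 / (l:ℝ) ^ 2 := by
  have hsum : Summable fun l : ℤ => ph (ω * a * l) * h (s + l * a) :=
    Summable.of_norm_bounded (M_sum hD).1 (maj hD hd ha (by linarith) ω)
  have h0 : ph 0 = 1 := by simpa using ph_int 0
  rw [zak, hsum.tsum_eq_add_tsum_ite 0]
  simp only [Int.cast_zero, mul_zero, zero_mul, add_zero, h0, one_mul, add_sub_cancel_left]
  rw [← tsum_mul_left]
  refine tsum_of_norm_bounded ((Real.summable_one_div_int_pow.2 one_lt_two).mul_left _).hasSum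
    fun l => ?_
  by_cases hl : l = 0
  · simp [hl]
  · have h1 : (1:ℝ) ≤ |(l:ℝ)| := by exact_mod_cast Int.one_le_abs hl
    rw [if_neg hl, norm_mul, ph_norm, one_mul, Complex.norm_real, Real.norm_eq_abs]
    refine (hd _).trans ?_
    have h2 : |(l:ℝ)| * a ≤ |s + l * a| + |s| := by
      have := abs_sub (s + l * a) s
      rwa [add_sub_cancel_left, abs_mul, abs_of_pos (show 0 < a by linarith)] at this
    have h3 : |(l:ℝ)| * a / 2 ≤ 1 + |s + l * a| := by nlinarith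
    have h4 : a * |(l:ℝ)| ^ 2 / 8 ≤ (1 + |s + l * a|) ^ 3 := by
      refine le_trans ?_ (pow_le_pow_left₀ (by positivity) h3 3)
      have : (|(l:ℝ)| * a / 2) ^ 3 = a * |(l:ℝ)| ^ 2 / 8 * (|(l:ℝ)| * a ^ 2) := by ring
      rw [this]
      exact le_mul_of_one_le_right (by positivity) (by nlinarith)
    have e : 8 * D / a * (1 / (l:ℝ) ^ 2) = D / (a * |(l:ℝ)| ^ 2 / 8) := by
      rw [sq_abs]; field_simp
    rw [e]
    gcongr

lemma zak_im {h : ℝ → ℝ} {a ω : ℝ} (hω : ∀ l : ℤ, (ph (ω * a * l)).im = 0) (s : ℝ) :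
    (zak h a ω s).im = 0 := by
  have : zak h a ω s = ((∑' l : ℤ, (ph (ω * a * l)).re * h (s + l * a) : ℝ) : ℂ) := by
    rw [zak, Complex.ofReal_tsum]
    refine tsum_congr fun l => ?_
    apply Complex.ext <;> simp [hω l]
  rw [this, Complex.ofReal_im]

lemma ph_half (l : ℤ) : ph (l / 2) = (-1) ^ l := by
  rw [← Complex.exp_neg_pi_mul_I, ← Complex.exp_int_mul, ph]; congr 1; push_cast; ring

lemma zeros {h : ℝ → ℝ} (hh : Continuous h) {D a : ℝ} (hD : 0 ≤ D)
    (hd : ∀ s, |h s| ≤ D / (1 + |s|) ^ 3) (ha : 1 ≤ a) {ω : ℝ}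
    (hω : ∀ l : ℤ, (ph (ω * a * l)).im = 0) {n : ℕ} {t : ℕ → ℝ} (ht : StrictMono t)
    (h1 : ∀ i ≤ n, |t i| ≤ a / 4) (h2 : ∀ i ≤ n, 8 * D / a * ∑' l : ℤ, 1 / (l:ℝ) ^ 2 < |h (t i)|)
    (h3 : ∀ i < n, h (t i) * h (t (i + 1)) < 0) :
    ∃ S : Finset ℝ, S.card = n ∧ ∀ s ∈ S, |s| ≤ a / 4 ∧ zak h a ω s = 0 := by
  have hs : ∀ i ≤ n, 0 < (zak h a ω (t i)).re * h (t i) := fun i hi => by
    have a1 := (tail hD hd ha (s := t i) (by linarith [h1 i hi]) ω).trans_lt (h2 i hi)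
    have a2 := (Complex.abs_re_le_norm _).trans_lt a1
    rw [Complex.sub_re, Complex.ofReal_re] at a2
    have a3 := sq_lt_sq.2 a2
    nlinarith [sq_nonneg (zak h a ω (t i)).re]
  have hex : ∀ i : Fin n, ∃ s ∈ Ioo (t i) (t (i + 1)), zak h a ω s = 0 := fun i => by
    have b1 := hs i i.2.le
    have b2 := hs (i + 1) i.2
    have b3 := h3 i i.2
    have c1 := abs_le.1 (h1 i i.2.le)
    have c2 := abs_le.1 (h1 (i + 1) i.2)
    have hle : t i ≤ t (i + 1) := (ht (Nat.lt_succ_self _)).le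
    have hc : ContinuousOn (fun s => (zak h a ω s).re) (Icc (t i) (t (i + 1))) :=
      Complex.continuous_re.comp_continuousOn ((zak_cont hh hD hd ha ω).mono
        (Icc_subset_Icc (by linarith) (by linarith)))
    have : ∃ s ∈ Ioo (t i) (t (i + 1)), (zak h a ω s).re = 0 := by
      rcases lt_or_gt_of_ne (show h (t i) ≠ 0 by intro e; simp [e] at b3) with e | e
      · have e' : 0 < h (t (i + 1)) := by by_contra c; nlinarith
        exact intermediate_value_Ioo hle hc ⟨by by_contra c; nlinarith, by by_contra c; nlinarith⟩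
      · have e' : h (t (i + 1)) < 0 := by by_contra c; nlinarith
        exact intermediate_value_Ioo' hle hc ⟨by by_contra c; nlinarith, by by_contra c; nlinarith⟩
    obtain ⟨s, hs1, hs2⟩ := this
    exact ⟨s, hs1, Complex.ext hs2 (zak_im hω s)⟩
  choose s hs1 hs2 using hex
  have hinj : Function.Injective s := StrictMono.injective fun i j hij =>
    lt_of_lt_of_le (hs1 i).2 ((ht.monotone hij).trans (hs1 j).1.le)
  refine ⟨Finset.univ.image s, by simp [Finset.card_image_of_injective _ hinj], fun x hx => ?_⟩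
  obtain ⟨i, -, rfl⟩ := Finset.mem_image.1 hx
  have c1 := abs_le.1 (h1 i i.2.le)
  have c2 := abs_le.1 (h1 (i + 1) i.2)
  exact ⟨abs_le.2 ⟨by linarith [(hs1 i).1], by linarith [(hs1 i).2]⟩, hs2 i⟩

lemma zero_half {h : ℝ → ℝ} {a ω : ℝ} (κ : ℝ) (hκ : ∀ s, h (-s) = κ * h s)
    (hω : ∀ l : ℤ, ph (ω * a * ((-1 - l : ℤ) : ℝ)) * κ = -ph (ω * a * l)) :
    zak h a ω (a / 2) = 0 := by
  have e := (Equiv.subLeft (-1 : ℤ)).tsum_eq fun l : ℤ => ph (ω * a * l) * h (a / 2 + l * a)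
  have e2 : ∀ l : ℤ, ph (ω * a * ((-1 - l : ℤ) : ℝ)) * h (a / 2 + ((-1 - l : ℤ) : ℝ) * a) =
      -(ph (ω * a * l) * h (a / 2 + l * a)) := fun l => by
    rw [show a / 2 + ((-1 - l : ℤ) : ℝ) * a = -(a / 2 + l * a) by push_cast; ring, hκ,
      Complex.ofReal_mul, ← mul_assoc, hω, neg_mul]
  simp only [Equiv.subLeft_apply, e2, tsum_neg] at e
  rw [zak]
  linear_combination (-1 / 2 : ℂ) * e

def Alt (ψ : ℝ → ℝ) (n : ℕ) : Prop :=
  ∃ t : ℕ → ℝ, StrictMono t ∧ ∀ i ≤ n, 0 < (-1) ^ i * ψ (t i)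

lemma alt_step {ψ : ℝ → ℝ} (hd : Differentiable ℝ ψ) (h1 : Tendsto ψ atBot (𝓝 0))
    (h2 : Tendsto ψ atTop (𝓝 0)) {n : ℕ} (h : Alt ψ n) : Alt (deriv ψ) (n + 1) := by
  obtain ⟨t, ht, hs⟩ := h
  have p0 : 0 < ψ (t 0) := by simpa using hs 0 (Nat.zero_le _)
  obtain ⟨x, hx1, hx2⟩ := ((h1.eventually (gt_mem_nhds p0)).and (eventually_lt_atBot (t 0))).exists
  have h2' : Tendsto (fun y => (-1) ^ n * ψ y) atTop (𝓝 0) := by simpa using h2.const_mul _
  obtain ⟨y, hy1, hy2⟩ := ((h2'.eventually (gt_mem_nhds (hs n le_rfl))).and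
    (eventually_gt_atTop (t n))).exists
  set u : ℕ → ℝ := fun i => if i = 0 then x else if i ≤ n + 1 then t (i - 1) else y + (i - (n + 2))
    with hu
  have hum : ∀ i, u i < u (i + 1) := fun i => by
    simp only [hu]
    rcases Nat.eq_zero_or_pos i with rfl | hi
    · simpa using hx2
    · rw [if_neg hi.ne', if_neg (Nat.succ_ne_zero i)]
      by_cases c1 : i + 1 ≤ n + 1
      · rw [if_pos (by omega), if_pos c1]; exact ht (by omega)
      · by_cases c2 : i ≤ n + 1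
        · have : i = n + 1 := by omega
          subst this
          rw [if_pos le_rfl, if_neg c1]
          simp only [Nat.add_sub_cancel]; push_cast; linarith
        · rw [if_neg c2, if_neg c1]; push_cast; linarith
  have hus : ∀ i ≤ n + 1, 0 < (-1) ^ i * (ψ (u (i + 1)) - ψ (u i)) := fun i hi => by
    simp only [hu]
    rcases i with _ | i
    · simpa using hx1
    · rw [if_neg (Nat.succ_ne_zero _), if_neg (Nat.succ_ne_zero _), if_pos hi]
      have a1 := hs i (by omega)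
      by_cases c1 : i + 1 + 1 ≤ n + 1
      · have a2 := hs (i + 1) (by omega)
        rw [if_pos c1]
        simp only [Nat.add_sub_cancel, pow_succ] at a2 ⊢
        linarith
      · have : i = n := by omega
        subst this
        rw [if_neg c1]
        simp only [Nat.add_sub_cancel, pow_succ]
        have : y + (((i + 1 + 1 : ℕ) : ℝ) - (i + 2)) = y := by push_cast; ring
        rw [this]; linarith
  have hex := fun i => exists_deriv_eq_slope ψ (hum i) hd.continuous.continuousOn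
    hd.differentiableOn
  choose s hs1 hs2 using hex
  refine ⟨s, strictMono_nat_of_lt_succ fun i => (hs1 i).2.trans (hs1 (i + 1)).1, fun i hi => ?_⟩
  rw [hs2, ← mul_div_assoc]
  exact div_pos (hus i hi) (sub_pos.2 (hum i))

end H28Zak
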